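import Pool.Agent.PFlow.StmtsM

/-!
# Bounds on compact sets (module CT of block M)
-/

open MeasureTheory Filter Topology
open scoped ContDiff

namespace Pool.Agent.PFlow

open Pool.Agent.PenroseSph

namespace MCT

/-! ### Smoothness -/

theorem smooth_pd {U : Set E3} (hU : IsOpen U) {f : E3 → ℝ} (hf : ContDiffOn ℝ ∞ f U)
    (i : Fin 3) : ContDiffOn ℝ ∞ (pd i f) U := by
  have h1 : ContDiffOn ℝ ∞ (fderiv ℝ f) U := hf.fderiv_of_isOpen hU (by simp)
  exact h1.clm_apply contDiffOn_const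

theorem smooth_det {U : Set E3} {g : TensorField}
    (hg : ∀ i j, ContDiffOn ℝ ∞ (fun x => g x i j) U) :
    ContDiffOn ℝ ∞ (fun x => (g x).det) U := by
  have : (fun x => (g x).det) = fun x => g x 0 0 * g x 1 1 * g x 2 2 -
      g x 0 0 * g x 1 2 * g x 2 1 - g x 0 1 * g x 1 0 * g x 2 2 + g x 0 1 * g x 1 2 * g x 2 0 +
      g x 0 2 * g x 1 0 * g x 2 1 - g x 0 2 * g x 1 1 * g x 2 0 := by
    funext x
    exact Matrix.det_fin_three (g x)
  rw [this]
  exact (((((((hg 0 0).mul (hg 1 1)).mul (hg 2 2)).sub (((hg 0 0).mul (hg 1 2)).mul (hg 2 1))).sub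
    (((hg 0 1).mul (hg 1 0)).mul (hg 2 2))).add (((hg 0 1).mul (hg 1 2)).mul (hg 2 0))).add
    (((hg 0 2).mul (hg 1 0)).mul (hg 2 1))).sub (((hg 0 2).mul (hg 1 1)).mul (hg 2 0))

theorem smooth_inv {U : Set E3} {g : TensorField} (hM : MetricOn U g) (i j : Fin 3) :
    ContDiffOn ℝ ∞ (fun x => (g x)⁻¹ i j) U := by
  have hg := hM.smooth
  have hd := smooth_det hg
  have hne : ∀ x ∈ U, (g x).det ≠ 0 := fun x hx => (hM.posDef x hx).det_pos.ne'
  have h1 : (fun x => (g x)⁻¹ i j) = fun x => ((g x).det)⁻¹ * (g x).adjugate i j := by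
    funext x
    rw [Matrix.inv_def, Matrix.smul_apply, smul_eq_mul, Ring.inverse_eq_inv']
  rw [h1]
  refine (hd.inv hne).mul ?_
  have h2 : (fun x => (g x).adjugate i j) = fun x => ((g x).updateRow j (Pi.single i 1)).det := by
    funext x
    rw [Matrix.adjugate_apply]
  rw [h2]
  refine smooth_det fun k l => ?_
  by_cases hk : k = j
  · subst hk
    simp only [Matrix.updateRow_self]
    exact contDiffOn_const
  · have : (fun x => ((g x).updateRow j (Pi.single i 1)) k l) = fun x => g x k l := by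
      funext x
      rw [Matrix.updateRow_ne hk]
    rw [this]
    exact hg k l

theorem smooth_chr {U : Set E3} (hU : IsOpen U) {g : TensorField} (hM : MetricOn U g)
    (k i j : Fin 3) : ContDiffOn ℝ ∞ (christoffel g k i j) U := by
  unfold christoffel
  refine contDiffOn_const.mul (ContDiffOn.sum fun l _ => (smooth_inv hM k l).mul ?_)
  exact ((smooth_pd hU (hM.smooth j l) i).add (smooth_pd hU (hM.smooth i l) j)).sub
    (smooth_pd hU (hM.smooth i j) l)

theorem smooth_ricci {U : Set E3} (hU : IsOpen U) {g : TensorField} (hM : MetricOn U g)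
    (i j : Fin 3) : ContDiffOn ℝ ∞ (ricci g i j) U := by
  unfold ricci
  refine ContDiffOn.sum fun k _ => ?_
  refine ((smooth_pd hU (smooth_chr hU hM k i j) k).sub
    (smooth_pd hU (smooth_chr hU hM k i k) j)).add (ContDiffOn.sum fun l _ => ?_)
  exact ((smooth_chr hU hM k k l).mul (smooth_chr hU hM l i j)).sub
    ((smooth_chr hU hM k j l).mul (smooth_chr hU hM l i k))

theorem smooth_scal {U : Set E3} (hU : IsOpen U) {g : TensorField} (hM : MetricOn U g) :
    ContDiffOn ℝ ∞ (scalarCurvature g) U := by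
  unfold scalarCurvature
  exact ContDiffOn.sum fun i _ => ContDiffOn.sum fun j _ =>
    (smooth_inv hM i j).mul (smooth_ricci hU hM i j)

theorem smooth_tr {U : Set E3} {g T : TensorField} (hM : MetricOn U g)
    (hT : ∀ i j, ContDiffOn ℝ ∞ (fun x => T x i j) U) :
    ContDiffOn ℝ ∞ (traceWith g T) U := by
  unfold traceWith
  exact ContDiffOn.sum fun i _ => ContDiffOn.sum fun j _ => (smooth_inv hM i j).mul (hT i j)

theorem smooth_en {U : Set E3} (hU : IsOpen U) {g h : TensorField} (hM : MetricOn U g)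
    (hT : ∀ i j, ContDiffOn ℝ ∞ (fun x => h x i j) U) :
    ContDiffOn ℝ ∞ (energyDensity g h) U := by
  unfold energyDensity
  refine contDiffOn_const.mul (((smooth_scal hU hM).sub ?_).add ((smooth_tr hM hT).pow 2))
  unfold normSqWith
  exact ContDiffOn.sum fun i _ => ContDiffOn.sum fun j _ => ContDiffOn.sum fun k _ =>
    ContDiffOn.sum fun l _ =>
      ((((smooth_inv hM i k).mul (smooth_inv hM j l)).mul (hT i j)).mul (hT k l))

theorem smooth_mom {U : Set E3} (hU : IsOpen U) {g h : TensorField} (hM : MetricOn U g)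
    (hT : ∀ i j, ContDiffOn ℝ ∞ (fun x => h x i j) U) (j : Fin 3) :
    ContDiffOn ℝ ∞ (momentumDensity g h j) U := by
  unfold momentumDensity divergence
  have hS : ∀ i j, ContDiffOn ℝ ∞ (fun x => (h x - traceWith g h x • g x) i j) U := by
    intro i j
    have : (fun x => (h x - traceWith g h x • g x) i j) =
        fun x => h x i j - traceWith g h x * g x i j := by
      funext x
      rw [Matrix.sub_apply, Matrix.smul_apply, smul_eq_mul]
    rw [this]
    exact (hT i j).sub ((smooth_tr hM hT).mul (hM.smooth i j))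
  refine ContDiffOn.sum fun i _ => ContDiffOn.sum fun k _ => (smooth_inv hM i k).mul ?_
  unfold covDeriv
  refine (smooth_pd hU (hS i j) k).sub (ContDiffOn.sum fun l _ => ?_)
  exact ((smooth_chr hU hM l k i).mul (hS l j)).add ((smooth_chr hU hM l k j).mul (hS i l))

/-! ### Bounds -/

theorem exists_bd {κ : Type} [Fintype κ] {K : Set E3} (hK : IsCompact K) (F : κ → E3 → ℝ)
    (hF : ∀ i, ContinuousOn (F i) K) : ∃ C : ℝ, 1 ≤ C ∧ ∀ x ∈ K, ∀ i, |F i x| ≤ C := by
  have h1 : ∀ i, ∃ C : ℝ, ∀ x ∈ K, ‖F i x‖ ≤ C := fun i =>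
    hK.exists_bound_of_continuousOn (hF i)
  choose C hC using h1
  refine ⟨1 + ∑ i, |C i|, ?_, ?_⟩
  · have : 0 ≤ ∑ i, |C i| := Finset.sum_nonneg fun i _ => abs_nonneg _
    linarith
  · intro x hx i
    have h2 := hC i x hx
    rw [Real.norm_eq_abs] at h2
    have h3 : |C i| ≤ ∑ i, |C i| :=
      Finset.single_le_sum (f := fun i => |C i|) (fun j _ => abs_nonneg _) (Finset.mem_univ i)
    have h4 := le_abs_self (C i)
    linarith

/-! ### Algebra -/

theorem vsq_nonneg (p : Cov) : 0 ≤ vsq p := by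
  unfold vsq
  positivity

theorem ev_le {A : ℝ} {B : Bil} (hA : 0 ≤ A) (hB : ∀ i j, |B i j| ≤ A) (p : Cov) :
    |ev B p p| ≤ 3 * A * vsq p := by
  have h1 : |ev B p p| ≤ ∑ i, ∑ j, A * (|p i| * |p j|) := by
    unfold ev
    refine (Finset.abs_sum_le_sum_abs _ _).trans (Finset.sum_le_sum fun i _ => ?_)
    refine (Finset.abs_sum_le_sum_abs _ _).trans (Finset.sum_le_sum fun j _ => ?_)
    rw [abs_mul, abs_mul, mul_assoc]
    exact mul_le_mul_of_nonneg_right (hB i j) (by positivity)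
  refine h1.trans ?_
  unfold vsq
  simp only [Fin.sum_univ_three]
  have e0 := sq_abs (p 0)
  have e1 := sq_abs (p 1)
  have e2 := sq_abs (p 2)
  nlinarith [mul_nonneg hA (sq_nonneg (|p 0| - |p 1|)), mul_nonneg hA (sq_nonneg (|p 0| - |p 2|)),
    mul_nonneg hA (sq_nonneg (|p 1| - |p 2|))]

theorem ev_eq (B : Bil) (p q : Cov) : ev B p q = dotProduct p (B.mulVec q) := by
  unfold ev dotProduct Matrix.mulVec dotProduct
  refine Finset.sum_congr rfl fun i _ => ?_
  rw [Finset.mul_sum]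
  refine Finset.sum_congr rfl fun j _ => ?_
  ring

theorem ev_factor {P Q : Bil} (hQ : P = Q.transpose * Q) (p q : Cov) :
    ev P p q = ∑ m, (∑ i, Q m i * p i) * ∑ j, Q m j * q j := by
  rw [hQ]
  unfold ev
  simp only [Matrix.mul_apply, Matrix.transpose_apply, Fin.sum_univ_three]
  ring

open scoped MatrixOrder ComplexOrder Matrix.Norms.L2Operator in
theorem factor {P : Bil} (hP : P.PosSemidef) : ∃ Q : Bil, P = Q.transpose * Q := by
  obtain ⟨Q, hQ⟩ := CStarAlgebra.nonneg_iff_eq_star_mul_self.mp hP.nonneg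
  refine ⟨Q, ?_⟩
  rw [hQ, Matrix.star_eq_conjTranspose, Matrix.conjTranspose_eq_transpose_of_trivial]

theorem ev_lower {A : ℝ} {g : Bil} (hg : g.PosDef) (hA : 1 ≤ A) (hb : ∀ i j, |g i j| ≤ A)
    (p : Cov) : vsq p ≤ 3 * A * ev g⁻¹ p p := by
  have hP : (g⁻¹).PosDef := hg.inv
  obtain ⟨Q, hQ⟩ := factor hP.posSemidef
  have hdet : IsUnit g.det := hg.det_pos.ne'.isUnit
  have hsym : (g⁻¹).transpose = g⁻¹ := by
    rw [hQ, Matrix.transpose_mul, Matrix.transpose_transpose]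
  -- the vector `g p`
  set r : Cov := g.mulVec p with hr
  have h1 : ev g⁻¹ p r = vsq p := by
    rw [ev_eq, hr, Matrix.mulVec_mulVec, Matrix.nonsing_inv_mul g hdet, Matrix.one_mulVec]
    unfold dotProduct vsq
    exact Finset.sum_congr rfl fun i _ => by ring
  have h2 : ev g⁻¹ r r = ev g p p := by
    rw [ev_eq, ev_eq, hr, Matrix.mulVec_mulVec, Matrix.nonsing_inv_mul g hdet, Matrix.one_mulVec]
    exact dotProduct_comm _ _
  have h3 : (ev g⁻¹ p r) ^ 2 ≤ ev g⁻¹ p p * ev g⁻¹ r r := by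
    rw [ev_factor hQ, ev_factor hQ, ev_factor hQ]
    have := Finset.sum_mul_sq_le_sq_mul_sq Finset.univ (fun m => ∑ i, Q m i * p i)
      (fun m => ∑ i, Q m i * r i)
    simpa only [pow_two] using this
  have h4 : ev g p p ≤ 3 * A * vsq p := (le_abs_self _).trans (ev_le (by linarith) hb p)
  have h5 : 0 ≤ ev g⁻¹ p p := by
    rw [ev_factor hQ]
    exact Finset.sum_nonneg fun m _ => mul_self_nonneg _
  rw [h1, h2] at h3
  by_cases hv : vsq p = 0
  · rw [hv]
    positivity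
  · have hv' : 0 < vsq p := lt_of_le_of_ne (vsq_nonneg p) (Ne.symm hv)
    have h6 : vsq p ^ 2 ≤ ev g⁻¹ p p * (3 * A * vsq p) :=
      h3.trans (mul_le_mul_of_nonneg_left h4 h5)
    have h7 : vsq p * vsq p ≤ (3 * A * ev g⁻¹ p p) * vsq p := by
      calc vsq p * vsq p = vsq p ^ 2 := by ring
        _ ≤ _ := h6
        _ = _ := by ring
    exact le_of_mul_le_mul_right h7 hv'

theorem nsq_factor {g : TensorField} {x : E3} {Q : Bil} (hQ : (g x)⁻¹ = Q.transpose * Q) (H : Bil) :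
    nsq g x H = ∑ m, ev (g x)⁻¹ (fun i => ∑ j, H i j * Q m j) (fun i => ∑ j, H i j * Q m j) := by
  have h1 : nsq g x H = ∑ i, ∑ k, (g x)⁻¹ i k * ∑ j, ∑ l, (g x)⁻¹ j l * (H i j * H k l) := by
    unfold nsq
    refine Finset.sum_congr rfl fun i _ => ?_
    rw [Finset.sum_comm]
    refine Finset.sum_congr rfl fun k _ => ?_
    rw [Finset.mul_sum]
    refine Finset.sum_congr rfl fun j _ => ?_
    rw [Finset.mul_sum]
    refine Finset.sum_congr rfl fun l _ => ?_
    ring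
  have h2 : ∀ i k, ∑ j, ∑ l, (g x)⁻¹ j l * (H i j * H k l) =
      ∑ m, (∑ j, H i j * Q m j) * ∑ j, H k j * Q m j := by
    intro i k
    rw [hQ]
    simp only [Matrix.mul_apply, Matrix.transpose_apply, Fin.sum_univ_three]
    ring
  rw [h1]
  simp only [h2]
  unfold ev
  rw [Finset.sum_comm' (t' := Finset.univ) (s' := fun _ => Finset.univ) (by simp)]
  simp only [Fin.sum_univ_three]
  ring

theorem rows_factor {g : TensorField} {x : E3} {Q : Bil} (hQ : (g x)⁻¹ = Q.transpose * Q)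
    (H : Bil) :
    ∑ m, vsq (fun i => ∑ j, H i j * Q m j) = ∑ i, ev (g x)⁻¹ (H i) (H i) := by
  unfold ev vsq
  rw [hQ]
  simp only [Matrix.mul_apply, Matrix.transpose_apply, Fin.sum_univ_three]
  ring

theorem vsq_up {A : ℝ} {P : Bil} (hA : 0 ≤ A) (hP : ∀ i j, |P i j| ≤ A) (p : Cov) :
    vsq (up P p) ≤ 9 * A ^ 2 * vsq p := by
  unfold vsq up
  have h1 : ∀ i, (∑ j, P i j * p j) ^ 2 ≤ 3 * A ^ 2 * ∑ j, p j ^ 2 := by
    intro i
    refine (Finset.sum_mul_sq_le_sq_mul_sq Finset.univ (fun j => P i j) p).trans ?_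
    refine mul_le_mul_of_nonneg_right ?_ (by positivity)
    have h2 : ∀ j, P i j ^ 2 ≤ A ^ 2 := by
      intro j
      rw [← sq_abs]
      exact pow_le_pow_left₀ (abs_nonneg _) (hP i j) 2
    calc ∑ j, P i j ^ 2 ≤ ∑ _j : Fin 3, A ^ 2 := Finset.sum_le_sum fun j _ => h2 j
      _ = 3 * A ^ 2 := by simp
  calc ∑ i, (∑ j, P i j * p j) ^ 2 ≤ ∑ _i : Fin 3, 3 * A ^ 2 * ∑ j, p j ^ 2 :=
        Finset.sum_le_sum fun i _ => h1 i
    _ = _ := by
      rw [Finset.sum_const, Finset.card_univ, Fintype.card_fin]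
      ring

end MCT

/-- Constants. -/
theorem CT : Stmt_CT := by
  intro U g h hU hM hT K hK hKU
  have cont : ∀ {f : E3 → ℝ}, ContDiffOn ℝ ∞ f U → ContinuousOn f K := fun hf =>
    hf.continuousOn.mono hKU
  obtain ⟨c1, h1, b1⟩ := MCT.exists_bd hK (fun (ij : Fin 3 × Fin 3) x => g x ij.1 ij.2)
    (fun ij => cont (hM.smooth ij.1 ij.2))
  obtain ⟨c2, h2, b2⟩ := MCT.exists_bd hK (fun (ij : Fin 3 × Fin 3) x => (g x)⁻¹ ij.1 ij.2)
    (fun ij => cont (MCT.smooth_inv hM ij.1 ij.2))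
  obtain ⟨c3, h3, b3⟩ := MCT.exists_bd hK
    (fun (ij : Fin 3 × Fin 3 × Fin 3) x => christoffel g ij.1 ij.2.1 ij.2.2 x)
    (fun ij => cont (MCT.smooth_chr hU hM ij.1 ij.2.1 ij.2.2))
  obtain ⟨c4, h4, b4⟩ := MCT.exists_bd hK (fun (ij : Fin 3 × Fin 3) x => ricci g ij.1 ij.2 x)
    (fun ij => cont (MCT.smooth_ricci hU hM ij.1 ij.2))
  obtain ⟨c5, h5, b5⟩ := MCT.exists_bd hK (fun (ij : Fin 3 × Fin 3) x => h x ij.1 ij.2)
    (fun ij => cont (hT.smooth ij.1 ij.2))
  obtain ⟨c6, h6, b6⟩ := MCT.exists_bd hK (fun (i : Fin 3) x => momentumDensity g h i x)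
    (fun i => cont (MCT.smooth_mom hU hM hT.smooth i))
  obtain ⟨c7, h7, b7⟩ := MCT.exists_bd hK (fun (_ : Unit) x => energyDensity g h x)
    (fun _ => cont (MCT.smooth_en hU hM hT.smooth))
  obtain ⟨c8, h8, b8⟩ := MCT.exists_bd hK (fun (_ : Unit) x => scalarCurvature g x)
    (fun _ => cont (MCT.smooth_scal hU hM))
  have cv : ContinuousOn (fun x => volDen g x) K := by
    unfold volDen
    exact (cont (MCT.smooth_det hM.smooth)).sqrt
  have pv : ∀ x ∈ K, 0 < volDen g x := fun x hx =>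
    Real.sqrt_pos.mpr (hM.posDef x (hKU hx)).det_pos
  obtain ⟨c9, h9, b9⟩ := MCT.exists_bd hK (fun (_ : Unit) x => volDen g x) (fun _ => cv)
  obtain ⟨c0, h0, b0⟩ := MCT.exists_bd hK (fun (_ : Unit) x => (volDen g x)⁻¹)
    (fun _ => cv.inv₀ fun x hx => (pv x hx).ne')
  obtain ⟨A, hA⟩ : ∃ A : ℝ, A = c0 + c1 + c2 + c3 + c4 + c5 + c6 + c7 + c8 + c9 := ⟨_, rfl⟩
  have A1 : 1 ≤ A := by linarith
  have A3 : 3 * A ≤ 27 * A ^ 3 := by nlinarith [mul_self_nonneg A, pow_pos (by linarith : 0 < A) 2]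
  have A9 : 9 * A ^ 2 ≤ 27 * A ^ 3 := by nlinarith [pow_pos (by linarith : 0 < A) 2]
  have AA : A ≤ 27 * A ^ 3 := by linarith
  have A0 : 0 < 27 * A ^ 3 := by positivity
  refine ⟨27 * A ^ 3, by linarith, ?_⟩
  intro x hx
  have hpd := hM.posDef x (hKU hx)
  have bg : ∀ i j, |g x i j| ≤ A := fun i j => (b1 x hx (i, j)).trans (by linarith)
  have bP : ∀ i j, |(g x)⁻¹ i j| ≤ A := fun i j => (b2 x hx (i, j)).trans (by linarith)
  have bR : ∀ i j, |ric g x i j| ≤ A := fun i j => (b4 x hx (i, j)).trans (by linarith)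
  have hPd : ((g x)⁻¹).PosDef := hpd.inv
  obtain ⟨Q, hQ⟩ := MCT.factor hPd.posSemidef
  have lo : ∀ p, vsq p ≤ 3 * A * ev (g x)⁻¹ p p := MCT.ev_lower hpd A1 bg
  have up' : ∀ p, ev (g x)⁻¹ p p ≤ 3 * A * vsq p := fun p =>
    (le_abs_self _).trans (MCT.ev_le (by linarith) bP p)
  have nn0 : ∀ p, 0 ≤ ev (g x)⁻¹ p p := fun p => by
    rw [MCT.ev_factor hQ]
    exact Finset.sum_nonneg fun m _ => mul_self_nonneg _
  have hms : ∀ H : Bil, msq H = ∑ i, vsq (H i) := fun H => rfl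
  refine ⟨?_, ?_, ?_, ?_, ?_, ?_, ?_, ?_, ?_, ?_, ?_⟩
  · intro p
    have v0 := MCT.vsq_nonneg p
    constructor
    · rw [div_le_iff₀ A0]
      have := mul_le_mul_of_nonneg_right A3 (nn0 p)
      linarith [lo p]
    · exact (up' p).trans (mul_le_mul_of_nonneg_right A3 v0)
  · intro H
    have e1 := MCT.nsq_factor hQ H
    have e2 := MCT.rows_factor hQ H
    have m0 : 0 ≤ msq H := by
      rw [hms]
      exact Finset.sum_nonneg fun i _ => MCT.vsq_nonneg _
    have f1 : nsq g x H ≤ 3 * A * ∑ i, ev (g x)⁻¹ (H i) (H i) := by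
      rw [e1, ← e2, Finset.mul_sum]
      exact Finset.sum_le_sum fun m _ => up' _
    have f2 : ∑ i, ev (g x)⁻¹ (H i) (H i) ≤ 3 * A * nsq g x H := by
      rw [e1, ← e2, Finset.mul_sum]
      exact Finset.sum_le_sum fun m _ => lo _
    have f3 : ∑ i, ev (g x)⁻¹ (H i) (H i) ≤ 3 * A * msq H := by
      rw [hms, Finset.mul_sum]
      exact Finset.sum_le_sum fun m _ => up' _
    have f4 : msq H ≤ 3 * A * ∑ i, ev (g x)⁻¹ (H i) (H i) := by
      rw [hms, Finset.mul_sum]
      exact Finset.sum_le_sum fun m _ => lo _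
    have f5 : nsq g x H ≤ 9 * A ^ 2 * msq H := by
      calc nsq g x H ≤ 3 * A * ∑ i, ev (g x)⁻¹ (H i) (H i) := f1
        _ ≤ 3 * A * (3 * A * msq H) := mul_le_mul_of_nonneg_left f3 (by linarith)
        _ = _ := by ring
    have f6 : msq H ≤ 9 * A ^ 2 * nsq g x H := by
      calc msq H ≤ 3 * A * ∑ i, ev (g x)⁻¹ (H i) (H i) := f4
        _ ≤ 3 * A * (3 * A * nsq g x H) := mul_le_mul_of_nonneg_left f2 (by linarith)
        _ = _ := by ring
    have n0 : 0 ≤ nsq g x H := by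
      rw [e1]
      exact Finset.sum_nonneg fun m _ => nn0 _
    constructor
    · rw [div_le_iff₀ A0]
      have := mul_le_mul_of_nonneg_right A9 n0
      linarith
    · exact f5.trans (mul_le_mul_of_nonneg_right A9 m0)
  · intro p
    unfold qf
    calc |ev (ric g x) (up (g x)⁻¹ p) (up (g x)⁻¹ p)| ≤ 3 * A * vsq (up (g x)⁻¹ p) :=
          MCT.ev_le (by linarith) bR _
      _ ≤ 3 * A * (9 * A ^ 2 * vsq p) :=
          mul_le_mul_of_nonneg_left (MCT.vsq_up (by linarith) bP p) (by linarith)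
      _ = _ := by ring
  · intro k i j
    exact (b3 x hx (k, i, j)).trans (by linarith)
  · intro i j
    exact (b5 x hx (i, j)).trans (by linarith)
  · intro i
    exact (b6 x hx i).trans (by linarith)
  · exact (b7 x hx ()).trans (by linarith)
  · exact (b8 x hx ()).trans (by linarith)
  · intro i j
    exact (bP i j).trans AA
  · have f1 := b0 x hx ()
    have f2 := pv x hx
    rw [abs_of_pos (inv_pos.mpr f2)] at f1
    have f3 : (volDen g x)⁻¹ ≤ 27 * A ^ 3 := f1.trans (by linarith)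
    rw [div_le_iff₀ A0]
    calc (1 : ℝ) = volDen g x * (volDen g x)⁻¹ := (mul_inv_cancel₀ f2.ne').symm
      _ ≤ volDen g x * (27 * A ^ 3) := mul_le_mul_of_nonneg_left f3 f2.le
  · exact (le_abs_self _).trans ((b9 x hx ()).trans (by linarith))

end Pool.Agent.PFlow
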