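import Pool.Agent.PFlow.StmtsM

/-!
# Smoothness of the coefficients, measurability and continuity of the pointwise quantities

Shared lemmas: the inverse metric, the Christoffel symbols, the curvature and the densities are
smooth on `U`; `len`, `flux`, `dis0` etc. of measurable functions are measurable, and continuous in
`(p, M)` for `p ≠ 0`.
-/

open MeasureTheory Filter Topology
open scoped ContDiff

namespace Pool.Agent.PFlow

open Pool.Agent.PenroseSph

namespace MCF

theorem pd_smooth {f : E3 → ℝ} {x : E3} (h : ContDiffAt ℝ ∞ f x) (i : Fin 3) :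
    ContDiffAt ℝ ∞ (pd i f) x := by
  have h1 : ContDiffAt ℝ ∞ (fderiv ℝ f) x := h.fderiv_right (m := ∞) (by simp)
  exact h1.clm_apply contDiffAt_const

theorem det_smooth {A : E3 → Bil} {x : E3} (h : ∀ i j, ContDiffAt ℝ ∞ (fun y => A y i j) x) :
    ContDiffAt ℝ ∞ (fun y => (A y).det) x := by
  have h2 : (fun y => (A y).det) = fun y => ∑ σ : Equiv.Perm (Fin 3),
      ((Equiv.Perm.sign σ : ℤ) : ℝ) * ∏ i, A y (σ i) i := by
    funext y
    rw [Matrix.det_apply']
  rw [h2]
  refine ContDiffAt.sum fun σ _ => ?_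
  exact contDiffAt_const.mul (contDiffAt_prod fun i _ => h _ _)

theorem adj_smooth {A : E3 → Bil} {x : E3} (h : ∀ i j, ContDiffAt ℝ ∞ (fun y => A y i j) x)
    (a b : Fin 3) : ContDiffAt ℝ ∞ (fun y => (A y).adjugate a b) x := by
  simp only [Matrix.adjugate_apply]
  refine det_smooth fun i j => ?_
  by_cases hi : i = b
  · subst hi
    simp only [Matrix.updateRow_self]
    exact contDiffAt_const
  · simp only [Matrix.updateRow_ne hi]
    exact h i j

theorem inv_smooth' {A : E3 → Bil} {x : E3} (h : ∀ i j, ContDiffAt ℝ ∞ (fun y => A y i j) x)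
    (hd : (A x).det ≠ 0) (a b : Fin 3) : ContDiffAt ℝ ∞ (fun y => (A y)⁻¹ a b) x := by
  have h2 : (fun y => (A y)⁻¹ a b) = fun y => ((A y).det)⁻¹ * (A y).adjugate a b := by
    funext y
    rw [Matrix.inv_def, Matrix.smul_apply, smul_eq_mul, Ring.inverse_eq_inv']
  rw [h2]
  exact ((det_smooth h).inv hd).mul (adj_smooth h a b)

section Smooth

variable {U : Set E3} {g h : TensorField} (hU : IsOpen U) (hg : MetricOn U g)
  (hh : TensorOn U h) {x : E3} (hx : x ∈ U)

include hU hg hx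

theorem g_smooth (i j : Fin 3) : ContDiffAt ℝ ∞ (fun y => g y i j) x :=
  (hg.smooth i j).contDiffAt (hU.mem_nhds hx)

theorem inv_smooth (i j : Fin 3) : ContDiffAt ℝ ∞ (fun y => (g y)⁻¹ i j) x :=
  inv_smooth' (g_smooth hU hg hx) (hg.posDef x hx).det_pos.ne' i j

theorem chr_smooth (k i j : Fin 3) : ContDiffAt ℝ ∞ (christoffel g k i j) x := by
  unfold christoffel
  refine contDiffAt_const.mul (ContDiffAt.sum fun l _ => ?_)
  exact (inv_smooth hU hg hx k l).mul (((pd_smooth (g_smooth hU hg hx j l) i).add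
    (pd_smooth (g_smooth hU hg hx i l) j)).sub (pd_smooth (g_smooth hU hg hx i j) l))

theorem ricci_smooth (i j : Fin 3) : ContDiffAt ℝ ∞ (ricci g i j) x := by
  unfold ricci
  refine ContDiffAt.sum fun k _ => ?_
  refine ((pd_smooth (chr_smooth hU hg hx k i j) k).sub
    (pd_smooth (chr_smooth hU hg hx k i k) j)).add (ContDiffAt.sum fun l _ => ?_)
  exact ((chr_smooth hU hg hx k k l).mul (chr_smooth hU hg hx l i j)).sub
    ((chr_smooth hU hg hx k j l).mul (chr_smooth hU hg hx l i k))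

theorem scalar_smooth : ContDiffAt ℝ ∞ (scalarCurvature g) x := by
  unfold scalarCurvature
  exact ContDiffAt.sum fun i _ => ContDiffAt.sum fun j _ =>
    (inv_smooth hU hg hx i j).mul (ricci_smooth hU hg hx i j)

theorem volDen_smooth : ContDiffAt ℝ ∞ (volDen g) x := by
  unfold volDen
  exact (det_smooth (g_smooth hU hg hx)).sqrt (hg.posDef x hx).det_pos.ne'

omit hU in
theorem volDen_pos : 0 < volDen g x := Real.sqrt_pos.mpr (hg.posDef x hx).det_pos

theorem cov_smooth {T : TensorField} (hT : ∀ i j, ContDiffAt ℝ ∞ (fun y => T y i j) x)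
    (k i j : Fin 3) : ContDiffAt ℝ ∞ (covDeriv g T k i j) x := by
  unfold covDeriv
  refine (pd_smooth (hT i j) k).sub (ContDiffAt.sum fun l _ => ?_)
  exact ((chr_smooth hU hg hx l k i).mul (hT l j)).add ((chr_smooth hU hg hx l k j).mul (hT i l))

theorem div_smooth {T : TensorField} (hT : ∀ i j, ContDiffAt ℝ ∞ (fun y => T y i j) x)
    (j : Fin 3) : ContDiffAt ℝ ∞ (divergence g T j) x := by
  unfold divergence
  exact ContDiffAt.sum fun i _ => ContDiffAt.sum fun k _ =>
    (inv_smooth hU hg hx i k).mul (cov_smooth hU hg hx hT k i j)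

include hh

omit hg in
theorem h_smooth (i j : Fin 3) : ContDiffAt ℝ ∞ (fun y => h y i j) x :=
  (hh.smooth i j).contDiffAt (hU.mem_nhds hx)

theorem tr_smooth : ContDiffAt ℝ ∞ (traceWith g h) x := by
  unfold traceWith
  exact ContDiffAt.sum fun i _ => ContDiffAt.sum fun j _ =>
    (inv_smooth hU hg hx i j).mul (h_smooth hU hh hx i j)

theorem nsq_smooth : ContDiffAt ℝ ∞ (normSqWith g h) x := by
  unfold normSqWith
  exact ContDiffAt.sum fun i _ => ContDiffAt.sum fun j _ => ContDiffAt.sum fun k _ =>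
    ContDiffAt.sum fun l _ => (((inv_smooth hU hg hx i k).mul (inv_smooth hU hg hx j l)).mul
      (h_smooth hU hh hx i j)).mul (h_smooth hU hh hx k l)

theorem energy_smooth : ContDiffAt ℝ ∞ (energyDensity g h) x := by
  unfold energyDensity
  exact contDiffAt_const.mul (((scalar_smooth hU hg hx).sub (nsq_smooth hU hg hh hx)).add
    ((tr_smooth hU hg hh hx).pow 2))

theorem mom_smooth (j : Fin 3) : ContDiffAt ℝ ∞ (momentumDensity g h j) x := by
  unfold momentumDensity
  refine div_smooth hU hg hx (fun i k => ?_) j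
  simp only [Matrix.sub_apply, Matrix.smul_apply, smul_eq_mul]
  exact (h_smooth hU hh hx i k).sub ((tr_smooth hU hg hh hx).mul (g_smooth hU hg hx i k))

end Smooth

/-! ### Measurability -/

/-- The coefficients are measurable. -/
structure Coef (μ : Measure E3) (g h : TensorField) : Prop where
  inv : ∀ i j, AEMeasurable (fun x => (g x)⁻¹ i j) μ
  chr : ∀ k i j, AEMeasurable (fun x => christoffel g k i j x) μ
  ten : ∀ i j, AEMeasurable (fun x => h x i j) μ
  en : AEMeasurable (fun x => energyDensity g h x) μ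
  mom : ∀ j, AEMeasurable (fun x => momentumDensity g h j x) μ
  vol : AEMeasurable (fun x => volDen g x) μ

theorem aem_of_smooth {U K : Set E3} (hK : IsCompact K) (hKU : K ⊆ U) {f : E3 → ℝ}
    (hf : ∀ x ∈ U, ContDiffAt ℝ ∞ f x) : AEMeasurable f (volume.restrict K) :=
  (ContinuousOn.aestronglyMeasurable (fun x hx =>
    (hf x (hKU hx)).continuousAt.continuousWithinAt) hK.measurableSet).aemeasurable

theorem coef {U K : Set E3} {g h : TensorField} (hU : IsOpen U) (hg : MetricOn U g)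
    (hh : TensorOn U h) (hK : IsCompact K) (hKU : K ⊆ U) : Coef (volume.restrict K) g h where
  inv i j := aem_of_smooth hK hKU fun _ hx => inv_smooth hU hg hx i j
  chr k i j := aem_of_smooth hK hKU fun _ hx => chr_smooth hU hg hx k i j
  ten i j := aem_of_smooth hK hKU fun _ hx => h_smooth hU hh hx i j
  en := aem_of_smooth hK hKU fun _ hx => energy_smooth hU hg hh hx
  mom j := aem_of_smooth hK hKU fun _ hx => mom_smooth hU hg hh hx j
  vol := aem_of_smooth hK hKU fun _ hx => volDen_smooth hU hg hx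

section Meas

variable {μ : Measure E3} {g h : TensorField} (hc : Coef μ g h) {p q : E3 → Cov} {M : E3 → Bil}
  (hp : ∀ i, AEMeasurable (fun x => p x i) μ) (hq : ∀ i, AEMeasurable (fun x => q x i) μ)
  (hM : ∀ i j, AEMeasurable (fun x => M x i j) μ)

theorem m_sum {ι : Type*} (s : Finset ι) {f : ι → E3 → ℝ} (hf : ∀ i, AEMeasurable (f i) μ) :
    AEMeasurable (fun x => ∑ i ∈ s, f i x) μ :=
  Finset.aemeasurable_fun_sum s fun i _ => hf i

theorem m_sqrt {f : E3 → ℝ} (hf : AEMeasurable f μ) : AEMeasurable (fun x => √(f x)) μ :=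
  Real.continuous_sqrt.measurable.comp_aemeasurable hf

theorem m_ev {B : E3 → Bil} (hB : ∀ i j, AEMeasurable (fun x => B x i j) μ)
    (hp : ∀ i, AEMeasurable (fun x => p x i) μ) (hq : ∀ i, AEMeasurable (fun x => q x i) μ) :
    AEMeasurable (fun x => ev (B x) (p x) (q x)) μ :=
  m_sum _ fun i => m_sum _ fun j => ((hB i j).mul (hp i)).mul (hq j)

include hc

theorem m_trg (hM : ∀ i j, AEMeasurable (fun x => M x i j) μ) :
    AEMeasurable (fun x => trg g x (M x)) μ :=
  m_sum _ fun i => m_sum _ fun j => (hc.inv i j).mul (hM i j)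

theorem m_nsq (hM : ∀ i j, AEMeasurable (fun x => M x i j) μ) :
    AEMeasurable (fun x => nsq g x (M x)) μ :=
  m_sum _ fun i => m_sum _ fun j => m_sum _ fun k => m_sum _ fun l =>
    (((hc.inv i k).mul (hc.inv j l)).mul (hM i j)).mul (hM k l)

theorem m_raise (hp : ∀ i, AEMeasurable (fun x => p x i) μ) (i : Fin 3) :
    AEMeasurable (fun x => raise g x (p x) i) μ :=
  m_sum _ fun j => (hc.inv i j).mul (hp j)

theorem m_len (hp : ∀ i, AEMeasurable (fun x => p x i) μ) :
    AEMeasurable (fun x => len g x (p x)) μ :=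
  m_sqrt (m_ev hc.inv hp hp)

theorem m_nrm (hp : ∀ i, AEMeasurable (fun x => p x i) μ) (i : Fin 3) :
    AEMeasurable (fun x => nrm g x (p x) i) μ :=
  (m_raise hc hp i).div (m_len hc hp)

theorem m_bnn (hp : ∀ i, AEMeasurable (fun x => p x i) μ)
    (hM : ∀ i j, AEMeasurable (fun x => M x i j) μ) :
    AEMeasurable (fun x => bnn g x (p x) (M x)) μ :=
  m_ev hM (m_nrm hc hp) (m_nrm hc hp)

theorem m_btan (hp : ∀ i, AEMeasurable (fun x => p x i) μ)
    (hM : ∀ i j, AEMeasurable (fun x => M x i j) μ) :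
    AEMeasurable (fun x => btan g x (p x) (M x)) μ :=
  (m_trg hc hM).sub (m_bnn hc hp hM)

theorem m_cHess (hp : ∀ i, AEMeasurable (fun x => p x i) μ)
    (hM : ∀ i j, AEMeasurable (fun x => M x i j) μ) (i j : Fin 3) :
    AEMeasurable (fun x => cHess g x (p x) (M x) i j) μ :=
  (hM i j).sub (m_sum _ fun k => (hc.chr k i j).mul (hp k))

theorem m_tenB (hp : ∀ i, AEMeasurable (fun x => p x i) μ)
    (hM : ∀ i j, AEMeasurable (fun x => M x i j) μ) (i j : Fin 3) :
    AEMeasurable (fun x => tenB g h x (p x) (M x) i j) μ := by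
  unfold tenB
  simp only [Matrix.sub_apply, Matrix.smul_apply, smul_eq_mul]
  exact ((m_len hc hp).inv.mul (m_cHess hc hp hM i j)).sub (hc.ten i j)

theorem m_flux (ε : ℝ) (hp : ∀ i, AEMeasurable (fun x => p x i) μ)
    (hM : ∀ i j, AEMeasurable (fun x => M x i j) μ) :
    AEMeasurable (fun x => flux ε g h x (p x) (M x)) μ := by
  unfold flux
  exact (((m_len hc hp).mul (m_btan hc hp (m_cHess hc hp hM))).sub
    (((m_len hc hp).pow_const 3).div_const _)).sub
    ((((m_len hc hp).pow_const 2).mul (m_trg hc hc.ten)).sub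
      (m_ev hc.ten (m_raise hc hp) (m_raise hc hp)))

theorem m_matter (hp : ∀ i, AEMeasurable (fun x => p x i) μ) :
    AEMeasurable (fun x => matter g h x (p x)) μ := by
  unfold matter
  exact hc.en.sub (m_sum _ fun j => (hc.mom j).mul (m_nrm hc hp j))

theorem m_zed (ε : ℝ) (hp : ∀ i, AEMeasurable (fun x => p x i) μ)
    (hM : ∀ i j, AEMeasurable (fun x => M x i j) μ) :
    AEMeasurable (fun x => zed ε g h x (p x) (M x)) μ := by
  unfold zed
  exact (m_btan hc hp (m_tenB hc hp hM)).sub (((m_len hc hp).const_mul 2).div_const _)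

theorem m_dis0 (ε : ℝ) (hp : ∀ i, AEMeasurable (fun x => p x i) μ)
    (hM : ∀ i j, AEMeasurable (fun x => M x i j) μ) :
    AEMeasurable (fun x => dis0 ε g h x (p x) (M x)) μ := by
  unfold dis0
  exact ((((m_nsq hc (m_tenB hc hp hM)).div_const 2).sub
    (((m_bnn hc hp (m_tenB hc hp hM)).pow_const 2).div_const 2)).sub
    (((m_btan hc hp (m_tenB hc hp hM)).pow_const 2).div_const 4)).add
    (((m_zed hc ε hp hM).pow_const 2).const_mul _)

theorem m_diss (ε : ℝ) (hp : ∀ i, AEMeasurable (fun x => p x i) μ)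
    (hM : ∀ i j, AEMeasurable (fun x => M x i j) μ) :
    AEMeasurable (fun x => diss ε g h x (p x) (M x)) μ := by
  unfold diss
  exact (m_dis0 hc ε hp hM).add ((((m_bnn hc hp hc.ten).add
    ((m_btan hc hp hc.ten).div_const 2)).const_mul 2).mul (m_len hc hp) |>.div_const _)

end Meas

/-! ### Continuity in `(p, M)` -/

section Cont

variable {g h : TensorField} {x : E3} {p : ℕ → Cov} {p₀ : Cov} {M : ℕ → Bil} {M₀ : Bil}

theorem t_ev {B : ℕ → Bil} {B₀ : Bil} {v w : ℕ → Cov} {v₀ w₀ : Cov}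
    (hB : ∀ i j, Tendsto (fun n => B n i j) atTop (𝓝 (B₀ i j)))
    (hv : ∀ i, Tendsto (fun n => v n i) atTop (𝓝 (v₀ i)))
    (hw : ∀ i, Tendsto (fun n => w n i) atTop (𝓝 (w₀ i))) :
    Tendsto (fun n => ev (B n) (v n) (w n)) atTop (𝓝 (ev B₀ v₀ w₀)) :=
  tendsto_finsetSum _ fun i _ => tendsto_finsetSum _ fun j _ =>
    ((hB i j).mul (hv i)).mul (hw j)

theorem t_len (hp : ∀ i, Tendsto (fun n => p n i) atTop (𝓝 (p₀ i))) :
    Tendsto (fun n => len g x (p n)) atTop (𝓝 (len g x p₀)) :=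
  (Real.continuous_sqrt.tendsto _).comp (t_ev (fun _ _ => tendsto_const_nhds) hp hp)

theorem t_nrm (hp : ∀ i, Tendsto (fun n => p n i) atTop (𝓝 (p₀ i))) (h0 : len g x p₀ ≠ 0)
    (i : Fin 3) : Tendsto (fun n => nrm g x (p n) i) atTop (𝓝 (nrm g x p₀ i)) :=
  (tendsto_finsetSum _ fun j _ => tendsto_const_nhds.mul (hp j)).div (t_len hp) h0

theorem t_trg (hM : ∀ i j, Tendsto (fun n => M n i j) atTop (𝓝 (M₀ i j))) :
    Tendsto (fun n => trg g x (M n)) atTop (𝓝 (trg g x M₀)) :=
  tendsto_finsetSum _ fun i _ => tendsto_finsetSum _ fun j _ => tendsto_const_nhds.mul (hM i j)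

theorem t_nsq (hM : ∀ i j, Tendsto (fun n => M n i j) atTop (𝓝 (M₀ i j))) :
    Tendsto (fun n => nsq g x (M n)) atTop (𝓝 (nsq g x M₀)) :=
  tendsto_finsetSum _ fun i _ => tendsto_finsetSum _ fun j _ => tendsto_finsetSum _ fun k _ =>
    tendsto_finsetSum _ fun l _ => (tendsto_const_nhds.mul (hM i j)).mul (hM k l)

theorem t_bnn (hp : ∀ i, Tendsto (fun n => p n i) atTop (𝓝 (p₀ i))) (h0 : len g x p₀ ≠ 0)
    (hM : ∀ i j, Tendsto (fun n => M n i j) atTop (𝓝 (M₀ i j))) :
    Tendsto (fun n => bnn g x (p n) (M n)) atTop (𝓝 (bnn g x p₀ M₀)) :=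
  t_ev hM (t_nrm hp h0) (t_nrm hp h0)

theorem t_btan (hp : ∀ i, Tendsto (fun n => p n i) atTop (𝓝 (p₀ i))) (h0 : len g x p₀ ≠ 0)
    (hM : ∀ i j, Tendsto (fun n => M n i j) atTop (𝓝 (M₀ i j))) :
    Tendsto (fun n => btan g x (p n) (M n)) atTop (𝓝 (btan g x p₀ M₀)) :=
  (t_trg hM).sub (t_bnn hp h0 hM)

theorem t_cHess (hp : ∀ i, Tendsto (fun n => p n i) atTop (𝓝 (p₀ i)))
    (hM : ∀ i j, Tendsto (fun n => M n i j) atTop (𝓝 (M₀ i j))) (i j : Fin 3) :
    Tendsto (fun n => cHess g x (p n) (M n) i j) atTop (𝓝 (cHess g x p₀ M₀ i j)) :=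
  (hM i j).sub (tendsto_finsetSum _ fun k _ => tendsto_const_nhds.mul (hp k))

theorem t_tenB (hp : ∀ i, Tendsto (fun n => p n i) atTop (𝓝 (p₀ i))) (h0 : len g x p₀ ≠ 0)
    (hM : ∀ i j, Tendsto (fun n => M n i j) atTop (𝓝 (M₀ i j))) (i j : Fin 3) :
    Tendsto (fun n => tenB g h x (p n) (M n) i j) atTop (𝓝 (tenB g h x p₀ M₀ i j)) := by
  unfold tenB
  simp only [Matrix.sub_apply, Matrix.smul_apply, smul_eq_mul]
  exact (((t_len hp).inv₀ h0).mul (t_cHess hp hM i j)).sub tendsto_const_nhds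

theorem t_zed (ε : ℝ) (hp : ∀ i, Tendsto (fun n => p n i) atTop (𝓝 (p₀ i)))
    (h0 : len g x p₀ ≠ 0) (hM : ∀ i j, Tendsto (fun n => M n i j) atTop (𝓝 (M₀ i j))) :
    Tendsto (fun n => zed ε g h x (p n) (M n)) atTop (𝓝 (zed ε g h x p₀ M₀)) := by
  unfold zed
  exact (t_btan hp h0 (t_tenB hp h0 hM)).sub (((t_len hp).const_mul 2).div_const _)

theorem t_dis0 (ε : ℝ) (hp : ∀ i, Tendsto (fun n => p n i) atTop (𝓝 (p₀ i)))
    (h0 : len g x p₀ ≠ 0) (hM : ∀ i j, Tendsto (fun n => M n i j) atTop (𝓝 (M₀ i j))) :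
    Tendsto (fun n => dis0 ε g h x (p n) (M n)) atTop (𝓝 (dis0 ε g h x p₀ M₀)) := by
  unfold dis0
  exact ((((t_nsq (t_tenB hp h0 hM)).div_const 2).sub
    (((t_bnn hp h0 (t_tenB hp h0 hM)).pow 2).div_const 2)).sub
    (((t_btan hp h0 (t_tenB hp h0 hM)).pow 2).div_const 4)).add
    (((t_zed ε hp h0 hM).pow 2).const_mul _)

end Cont

end MCF

end Pool.Agent.PFlow
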