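import Pool.Agent.PFlow.StmtsM
import Pool.Agent.PenroseSph.Calc

/-!
# Gradients in `L⁴` (module L4)
-/

open MeasureTheory Filter Topology
open scoped ContDiff ENNReal Manifold

namespace Pool.Agent.PFlow

open Pool.Agent.PenroseSph

namespace ML4

theorem contDiff_pd {f : E3 → ℝ} (h : ContDiff ℝ ∞ f) (i : Fin 3) : ContDiff ℝ ∞ (pd i f) := by
  have h1 : ContDiff ℝ ∞ (fderiv ℝ f) := h.fderiv_right (m := ∞) (by simp)
  exact h1.clm_apply contDiff_const

/-- Symmetry of the second derivatives. -/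
theorem pd_comm {f : E3 → ℝ} {x : E3} (h : ContDiffAt ℝ ∞ f x) (i j : Fin 3) :
    pd i (pd j f) x = pd j (pd i f) x := by
  have hs : IsSymmSndFDerivAt ℝ f x := h.isSymmSndFDerivAt (by
    rw [minSmoothness_of_isRCLikeNormedField]
    exact WithTop.coe_le_coe.2 le_top)
  have hd : DifferentiableAt ℝ (fderiv ℝ f) x :=
    (h.fderiv_right (m := ∞) (by simp)).differentiableAt (by simp)
  have key : ∀ v w : E3, fderiv ℝ (fun y => fderiv ℝ f y v) x w = fderiv ℝ (fderiv ℝ f) x w v := by
    intro v w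
    have h1 : HasFDerivAt (fun y => fderiv ℝ f y v)
        ((ContinuousLinearMap.apply ℝ ℝ v).comp (fderiv ℝ (fderiv ℝ f) x)) x :=
      (ContinuousLinearMap.apply ℝ ℝ v).hasFDerivAt.comp x hd.hasFDerivAt
    rw [h1.fderiv]
    rfl
  unfold pd
  rw [key, key]
  exact hs _ _

theorem pd_pow {f : E3 → ℝ} {x : E3} (h : DifferentiableAt ℝ f x) (i : Fin 3) (n : ℕ) :
    pd i (fun y => f y ^ n) x = n * f x ^ (n - 1) * pd i f x := by
  unfold pd
  rw [(h.hasFDerivAt.pow n).fderiv]
  simp [smul_eq_mul, mul_assoc]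

theorem quart (y b : ℝ) (hy : 0 ≤ y) (hb : 0 ≤ b) :
    4 * y ^ 3 * b ≤ y ^ 4 / 4 + 1728 * b ^ 4 := by
  have h : y ^ 4 / 4 + 1728 * b ^ 4 - 4 * y ^ 3 * b
      = (1 / 4) * (y - 12 * b) ^ 2 * (y ^ 2 + 8 * y * b + 48 * b ^ 2) := by ring
  have : 0 ≤ (1 / 4) * (y - 12 * b) ^ 2 * (y ^ 2 + 8 * y * b + 48 * b ^ 2) := by positivity
  linarith

theorem young (f φ a m S u : ℝ) (hS : 0 ≤ S) (hu : f ≠ 0 → |u| ≤ S) :
    -((4 * f ^ 3 * φ * a ^ 3 + 3 * f ^ 4 * a ^ 2 * m) * u)
      ≤ f ^ 4 * a ^ 4 / 2 + 9 * S ^ 2 * (f ^ 4 * m ^ 2) + 1728 * S ^ 4 * φ ^ 4 := by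
  by_cases hf : f = 0
  · subst hf
    have : 0 ≤ 1728 * S ^ 4 * φ ^ 4 := by positivity
    simpa using this
  have hu' := hu hf
  have h1 : -(4 * f ^ 3 * φ * a ^ 3 * u) ≤ f ^ 4 * a ^ 4 / 4 + 1728 * S ^ 4 * φ ^ 4 := by
    have e1 : |4 * f ^ 3 * φ * a ^ 3 * u| = 4 * |f * a| ^ 3 * (|u| * |φ|) := by
      simp only [abs_mul, abs_pow, Nat.abs_ofNat]
      ring
    have e2 : 4 * |f * a| ^ 3 * (|u| * |φ|) ≤ 4 * |f * a| ^ 3 * (S * |φ|) := by gcongr
    have e3 := quart |f * a| (S * |φ|) (abs_nonneg _) (by positivity)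
    have e4 : |f * a| ^ 4 = f ^ 4 * a ^ 4 := by
      rw [show |f * a| ^ 4 = (|f * a| ^ 2) ^ 2 by ring, sq_abs]; ring
    have e5 : (S * |φ|) ^ 4 = S ^ 4 * φ ^ 4 := by
      rw [mul_pow, show |φ| ^ 4 = (|φ| ^ 2) ^ 2 by ring, sq_abs]; ring
    rw [e4, e5] at e3
    have e6 := neg_le_abs (4 * f ^ 3 * φ * a ^ 3 * u)
    rw [e1] at e6
    linarith
  have h2 : -(3 * f ^ 4 * a ^ 2 * m * u) ≤ f ^ 4 * a ^ 4 / 4 + 9 * S ^ 2 * (f ^ 4 * m ^ 2) := by
    have e1 : |3 * f ^ 4 * a ^ 2 * m * u| = f ^ 4 * (3 * |u| * |m| * a ^ 2) := by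
      simp only [abs_mul, abs_pow, Nat.abs_ofNat, sq_abs]
      rw [show |f| ^ 4 = (|f| ^ 2) ^ 2 by ring, sq_abs]
      ring
    have hf4 : 0 ≤ f ^ 4 := by positivity
    have e2 : 3 * |u| * |m| * a ^ 2 ≤ 3 * S * |m| * a ^ 2 := by gcongr
    have e3 : 3 * S * |m| * a ^ 2 ≤ a ^ 4 / 4 + 9 * S ^ 2 * m ^ 2 := by
      have : 0 ≤ (a ^ 2 / 2 - 3 * S * |m|) ^ 2 := sq_nonneg _
      have e4 : (a ^ 2 / 2 - 3 * S * |m|) ^ 2
          = a ^ 4 / 4 - 3 * S * |m| * a ^ 2 + 9 * S ^ 2 * |m| ^ 2 := by ring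
      rw [e4, sq_abs] at this
      linarith
    have e5 : f ^ 4 * (3 * |u| * |m| * a ^ 2) ≤ f ^ 4 * (a ^ 4 / 4 + 9 * S ^ 2 * m ^ 2) :=
      mul_le_mul_of_nonneg_left (e2.trans e3) hf4
    have e6 := neg_le_abs (3 * f ^ 4 * a ^ 2 * m * u)
    rw [e1] at e6
    nlinarith
  nlinarith

theorem key {f v : E3 → ℝ} (hf : ContDiff ℝ ∞ f) (hfc : HasCompactSupport f)
    (hv : ContDiff ℝ ∞ v) {S : ℝ} (hS0 : 0 ≤ S) (hS : ∀ x, f x ≠ 0 → |v x| ≤ S) (i : Fin 3) :
    ∫ x, f x ^ 4 * pd i v x ^ 4 ≤ 18 * S ^ 2 * (∫ x, f x ^ 4 * pd i (pd i v) x ^ 2)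
      + 3456 * S ^ 4 * ∫ x, pd i f x ^ 4 := by
  set a : E3 → ℝ := pd i v with ha
  set m : E3 → ℝ := pd i a with hm
  set φ : E3 → ℝ := pd i f with hφ
  have hac : ContDiff ℝ ∞ a := contDiff_pd hv i
  have hmc : ContDiff ℝ ∞ m := contDiff_pd hac i
  have hφc : ContDiff ℝ ∞ φ := contDiff_pd hf i
  have hφs : HasCompactSupport φ := by
    have h1 : HasCompactSupport (fderiv ℝ f) := hfc.fderiv (𝕜 := ℝ)
    exact h1.comp_left (g := fun L : E3 →L[ℝ] ℝ => L (EuclideanSpace.single i 1)) (by simp)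
  have hf4 : HasCompactSupport (fun x => f x ^ 4) :=
    hfc.comp_left (g := fun t : ℝ => t ^ 4) (by simp)
  have hφ4 : HasCompactSupport (fun x => φ x ^ 4) :=
    hφs.comp_left (g := fun t : ℝ => t ^ 4) (by simp)
  set F : E3 → ℝ := fun x => f x ^ 4 * a x ^ 3 with hF
  have hFc : ContDiff ℝ ∞ F := (hf.pow 4).mul (hac.pow 3)
  have hFs : HasCompactSupport F := hf4.mul_right
  have hpF : ∀ x, pd i F x = 4 * f x ^ 3 * φ x * a x ^ 3 + 3 * f x ^ 4 * a x ^ 2 * m x := by
    intro x
    have d1 : DifferentiableAt ℝ f x := hf.differentiable (by simp) x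
    have d2 : DifferentiableAt ℝ a x := hac.differentiable (by simp) x
    rw [hF, pd_mul (f := fun y => f y ^ 4) (f' := fun y => a y ^ 3) (d1.fun_pow 4) (d2.fun_pow 3),
      pd_pow d1 i 4, pd_pow d2 i 3]
    push_cast
    ring
  have hpFs : HasCompactSupport (pd i F) := by
    have h1 : HasCompactSupport (fderiv ℝ F) := hFs.fderiv (𝕜 := ℝ)
    exact h1.comp_left (g := fun L : E3 →L[ℝ] ℝ => L (EuclideanSpace.single i 1)) (by simp)
  have hpFc : Continuous (pd i F) := (contDiff_pd hFc i).continuous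
  have hparts : ∫ x, F x * a x = -∫ x, pd i F x * v x := by
    refine integral_mul_fderiv_eq_neg_fderiv_mul_of_integrable (f := F) (g := v)
      (v := EuclideanSpace.single i 1) ?_ ?_ ?_ ?_ ?_
    · exact (hpFc.mul hv.continuous).integrable_of_hasCompactSupport hpFs.mul_right
    · exact (hFc.continuous.mul hac.continuous).integrable_of_hasCompactSupport hFs.mul_right
    · exact (hFc.continuous.mul hv.continuous).integrable_of_hasCompactSupport hFs.mul_right
    · exact fun x _ => hFc.differentiable (by simp) x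
    · exact fun x _ => hv.differentiable (by simp) x
  have i1 : Integrable (fun x => f x ^ 4 * a x ^ 4) :=
    ((hf.continuous.pow 4).mul (hac.continuous.pow 4)).integrable_of_hasCompactSupport
      hf4.mul_right
  have i2 : Integrable (fun x => f x ^ 4 * m x ^ 2) :=
    ((hf.continuous.pow 4).mul (hmc.continuous.pow 2)).integrable_of_hasCompactSupport
      hf4.mul_right
  have i3 : Integrable (fun x => φ x ^ 4) :=
    (hφc.continuous.pow 4).integrable_of_hasCompactSupport hφ4
  have i4 : Integrable (fun x => -(pd i F x * v x)) :=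
    ((hpFc.mul hv.continuous).integrable_of_hasCompactSupport hpFs.mul_right).neg
  have e0 : ∫ x, f x ^ 4 * a x ^ 4 = ∫ x, -(pd i F x * v x) := by
    rw [integral_neg, ← hparts]
    refine integral_congr_ae (Eventually.of_forall fun x => ?_)
    simp only [hF]; ring
  have e1 : ∫ x, -(pd i F x * v x) ≤ ∫ x, (f x ^ 4 * a x ^ 4 / 2 + 9 * S ^ 2 * (f x ^ 4 * m x ^ 2)
      + 1728 * S ^ 4 * φ x ^ 4) := by
    refine integral_mono i4 (((i1.div_const 2).add (i2.const_mul _)).add (i3.const_mul _)) ?_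
    intro x
    simp only
    rw [hpF x]
    exact young (f x) (φ x) (a x) (m x) S (v x) hS0 (hS x)
  have e2 : ∫ x, (f x ^ 4 * a x ^ 4 / 2 + 9 * S ^ 2 * (f x ^ 4 * m x ^ 2)
      + 1728 * S ^ 4 * φ x ^ 4) = (∫ x, f x ^ 4 * a x ^ 4) / 2
        + 9 * S ^ 2 * (∫ x, f x ^ 4 * m x ^ 2) + 1728 * S ^ 4 * ∫ x, φ x ^ 4 := by
    rw [integral_add (f := fun x => f x ^ 4 * a x ^ 4 / 2 + 9 * S ^ 2 * (f x ^ 4 * m x ^ 2))
        (g := fun x => 1728 * S ^ 4 * φ x ^ 4) ((i1.div_const 2).add (i2.const_mul _))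
        (i3.const_mul _),
      integral_add (f := fun x => f x ^ 4 * a x ^ 4 / 2)
        (g := fun x => 9 * S ^ 2 * (f x ^ 4 * m x ^ 2)) (i1.div_const 2) (i2.const_mul _),
      integral_div, integral_const_mul, integral_const_mul]
  linarith

theorem main {K K' : Set E3} (hK : IsCompact K) (hK' : IsCompact K') (hKK : K ⊆ interior K') :
    ∃ C : ℝ, 0 ≤ C ∧ ∀ v : E3 → ℝ, ContDiff ℝ ∞ v → ∀ S : ℝ, 0 ≤ S → (∀ x ∈ K', |v x| ≤ S) →
      ∀ i, ∫ x in K, pd i v x ^ 4
        ≤ 18 * S ^ 2 * (∫ x in K', pd i (pd i v) x ^ 2) + C * S ^ 4 := by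
  obtain ⟨f, h1, h0, hf01⟩ := exists_contMDiffMap_one_nhds_of_subset_interior (𝓘(ℝ, E3))
    (n := ⊤) hK.isClosed hKK
  have hfs : ContDiff ℝ ∞ f := f.contMDiff.contDiff
  have hone : ∀ x ∈ K, f x = 1 := fun x hx =>
    ((eventually_nhdsSet_iff_forall.1 h1) x hx).self_of_nhds
  have hfc : HasCompactSupport (fun x => f x) := by
    refine HasCompactSupport.of_support_subset_isCompact hK' ?_
    intro x hx
    by_contra hxK
    exact hx (h0 x hxK)
  have hf4 : HasCompactSupport (fun x => f x ^ 4) :=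
    hfc.comp_left (g := fun t : ℝ => t ^ 4) (by simp)
  refine ⟨3456 * ∑ i, ∫ x, pd i (fun x => f x) x ^ 4, ?_, ?_⟩
  · have : ∀ i, 0 ≤ ∫ x, pd i (fun x => f x) x ^ 4 := fun i =>
      integral_nonneg (fun x => by positivity)
    have := Finset.sum_nonneg (fun i (_ : i ∈ Finset.univ) => this i)
    positivity
  intro v hv S hS0 hS i
  have hk := key (f := fun x => f x) hfs hfc hv hS0 (fun x hx => hS x (by
    by_contra hxK; exact hx (h0 x hxK))) i
  have i1 : Integrable (fun x => f x ^ 4 * pd i v x ^ 4) :=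
    ((hfs.continuous.pow 4).mul ((contDiff_pd hv i).continuous.pow 4)).integrable_of_hasCompactSupport
      hf4.mul_right
  have e1 : ∫ x in K, pd i v x ^ 4 ≤ ∫ x, f x ^ 4 * pd i v x ^ 4 := by
    have : ∫ x in K, pd i v x ^ 4 = ∫ x in K, f x ^ 4 * pd i v x ^ 4 := by
      refine setIntegral_congr_fun hK.measurableSet (fun x hx => ?_)
      simp only [hone x hx]; ring
    rw [this]
    exact setIntegral_le_integral i1 (Eventually.of_forall fun x => by positivity)
  have e2 : ∫ x, f x ^ 4 * pd i (pd i v) x ^ 2 ≤ ∫ x in K', pd i (pd i v) x ^ 2 := by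
    have hc : Continuous (fun x => pd i (pd i v) x ^ 2) :=
      (contDiff_pd (contDiff_pd hv i) i).continuous.pow 2
    have : ∫ x, f x ^ 4 * pd i (pd i v) x ^ 2 = ∫ x in K', f x ^ 4 * pd i (pd i v) x ^ 2 := by
      symm
      refine setIntegral_eq_integral_of_forall_compl_eq_zero (fun x hx => ?_)
      rw [h0 x hx]; ring
    rw [this]
    refine setIntegral_mono_on ?_ ?_ hK'.measurableSet (fun x hx => ?_)
    · exact (((hfs.continuous.pow 4).mul hc).continuousOn).integrableOn_compact hK'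
    · exact hc.continuousOn.integrableOn_compact hK'
    · have h3 : f x ^ 4 ≤ 1 := pow_le_one₀ (hf01 x).1 (hf01 x).2
      have h4 : 0 ≤ pd i (pd i v) x ^ 2 := sq_nonneg _
      nlinarith
  have e3 : ∫ x, pd i (fun x => f x) x ^ 4 ≤ ∑ i, ∫ x, pd i (fun x => f x) x ^ 4 :=
    Finset.single_le_sum (f := fun i => ∫ x, pd i (fun x => f x) x ^ 4)
      (fun j _ => integral_nonneg (fun x => by positivity)) (Finset.mem_univ i)
  have e4 : 18 * S ^ 2 * (∫ x, f x ^ 4 * pd i (pd i v) x ^ 2)
      ≤ 18 * S ^ 2 * (∫ x in K', pd i (pd i v) x ^ 2) :=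
    mul_le_mul_of_nonneg_left e2 (by positivity)
  have e5 : 3456 * S ^ 4 * (∫ x, pd i (fun x => f x) x ^ 4)
      ≤ 3456 * S ^ 4 * ∑ i, ∫ x, pd i (fun x => f x) x ^ 4 :=
    mul_le_mul_of_nonneg_left e3 (by positivity)
  have e6 : 3456 * S ^ 4 * ∑ i, ∫ x, pd i (fun x => f x) x ^ 4
      = (3456 * ∑ i, ∫ x, pd i (fun x => f x) x ^ 4) * S ^ 4 := by ring
  linarith

theorem memLp_cont {K : Set E3} (hK : IsCompact K) {f : E3 → ℝ} (hf : Continuous f) (p : ℝ≥0∞) :
    MemLp f p (volume.restrict K) := by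
  have : IsFiniteMeasure (volume.restrict K) := ⟨by simpa using hK.measure_lt_top⟩
  obtain ⟨C, hC⟩ := hK.exists_bound_of_continuousOn hf.continuousOn
  exact MemLp.of_bound hf.aestronglyMeasurable C
    ((ae_restrict_iff' hK.measurableSet).2 (Eventually.of_forall hC))

theorem eLp2 {μ : Measure E3} {f : E3 → ℝ} (hf : MemLp f 2 μ) :
    eLpNorm f 2 μ = ENNReal.ofReal (Real.sqrt (∫ x, f x ^ 2 ∂μ)) := by
  rw [hf.eLpNorm_eq_integral_rpow_norm (by norm_num) (by norm_num)]
  congr 1
  rw [Real.sqrt_eq_rpow]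
  simp only [ENNReal.toReal_ofNat, Real.rpow_two, Real.norm_eq_abs, sq_abs, one_div]

theorem eLp4 {μ : Measure E3} {f : E3 → ℝ} (hf : MemLp f 4 μ) :
    eLpNorm f 4 μ = ENNReal.ofReal ((∫ x, f x ^ 4 ∂μ) ^ (1 / 4 : ℝ)) := by
  rw [hf.eLpNorm_eq_integral_rpow_norm (by norm_num) (by norm_num)]
  congr 1
  simp only [ENNReal.toReal_ofNat, Real.norm_eq_abs, one_div]
  congr 1
  refine integral_congr_ae (Eventually.of_forall fun x => ?_)
  simp only
  rw [show (4 : ℝ) = ((4 : ℕ) : ℝ) by norm_num, Real.rpow_natCast]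
  rw [show |f x| ^ 4 = (|f x| ^ 2) ^ 2 by ring, sq_abs]; ring

theorem tend2 {μ : Measure E3} {F : ℕ → E3 → ℝ} (hF : ∀ n, MemLp (F n) 2 μ)
    (h : Tendsto (fun n => ∫ x, F n x ^ 2 ∂μ) atTop (𝓝 0)) :
    Tendsto (fun n => eLpNorm (F n) 2 μ) atTop (𝓝 0) := by
  have h1 : (fun n => eLpNorm (F n) 2 μ)
      = fun n => ENNReal.ofReal (Real.sqrt (∫ x, F n x ^ 2 ∂μ)) := funext fun n => eLp2 (hF n)
  rw [h1]
  have h2 : Tendsto (fun t : ℝ => ENNReal.ofReal (Real.sqrt t)) (𝓝 0) (𝓝 0) := by
    have : Continuous (fun t : ℝ => ENNReal.ofReal (Real.sqrt t)) :=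
      ENNReal.continuous_ofReal.comp Real.continuous_sqrt
    have h3 := this.tendsto 0
    simpa using h3
  exact h2.comp h

end ML4

open ML4

theorem L4 : Stmt_L4 := by
  intro U w G M hU hw
  -- the main step
  have step : ∀ K : Set E3, IsCompact K → K ⊆ U →
      (∀ i, MemLp (fun x => G x i) 4 (volume.restrict K)) ∧
      (∀ᵐ x ∂(volume.restrict K), (M x).IsSymm) ∧ ∃ v : ℕ → E3 → ℝ,
      (∀ n, ContDiff ℝ ∞ (v n)) ∧ TendstoUniformlyOn v w atTop K ∧
      (∀ i, Tendsto (fun n => eLpNorm (fun x => pd i (v n) x - G x i) 4 (volume.restrict K))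
        atTop (𝓝 0)) ∧
      (∀ i j, Tendsto (fun n => eLpNorm (fun x => pd i (pd j (v n)) x - M x i j) 2
        (volume.restrict K)) atTop (𝓝 0)) := by
    intro K hK hKU
    obtain ⟨K', hK', hKK, hK'U⟩ := exists_compact_between hK hU hKU
    have hsub : K ⊆ K' := hKK.trans interior_subset
    obtain ⟨v, hv, hvu, hvG, hvM⟩ := hw.approx K' hK' hK'U
    obtain ⟨C, hC0, hC⟩ := main hK hK' hKK
    have hmono : volume.restrict K ≤ volume.restrict K' := Measure.restrict_mono hsub le_rfl
    have hG2 : ∀ i n, MemLp (fun x => pd i (v n) x - G x i) 2 (volume.restrict K') := fun i n =>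
      (memLp_cont hK' (contDiff_pd (hv n) i).continuous 2).sub (hw.memG K' hK' hK'U i)
    have hM2 : ∀ i j n, MemLp (fun x => pd i (pd j (v n)) x - M x i j) 2 (volume.restrict K') :=
      fun i j n => (memLp_cont hK' (contDiff_pd (contDiff_pd (hv n) j) i).continuous 2).sub
        (hw.memM K' hK' hK'U i j)
    have tM : ∀ i j, Tendsto (fun n => eLpNorm (fun x => pd i (pd j (v n)) x - M x i j) 2
        (volume.restrict K)) atTop (𝓝 0) := by
      intro i j
      have h1 := tend2 (fun n => hM2 i j n) (hvM i j)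
      exact tendsto_of_tendsto_of_tendsto_of_le_of_le tendsto_const_nhds h1
        (fun n => zero_le) (fun n => eLpNorm_mono_measure _ hmono)
    have tG : ∀ i, Tendsto (fun n => eLpNorm (fun x => pd i (v n) x - G x i) 2
        (volume.restrict K)) atTop (𝓝 0) := by
      intro i
      have h1 := tend2 (fun n => hG2 i n) (hvG i)
      exact tendsto_of_tendsto_of_tendsto_of_le_of_le tendsto_const_nhds h1
        (fun n => zero_le) (fun n => eLpNorm_mono_measure _ hmono)
    -- a subsequence converges almost everywhere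
    have hsubseq : ∀ i, ∃ ns : ℕ → ℕ, StrictMono ns ∧ ∀ᵐ x ∂(volume.restrict K),
        Tendsto (fun k => pd i (v (ns k)) x) atTop (𝓝 (G x i)) := by
      intro i
      have h1 : TendstoInMeasure (volume.restrict K) (fun n => pd i (v n)) atTop
          (fun x => G x i) := by
        refine tendstoInMeasure_of_tendsto_eLpNorm (p := 2) (by norm_num)
          (fun n => (contDiff_pd (hv n) i).continuous.aestronglyMeasurable)
          (hw.memG K hK hKU i).aestronglyMeasurable ?_
        exact tG i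
      exact h1.exists_seq_tendsto_ae
    -- the Cauchy property
    have hcau : ∀ i, ∀ ε : ℝ≥0∞, 0 < ε → ∃ N, ∀ n ≥ N, ∀ k ≥ N,
        eLpNorm (fun x => pd i (v n) x - pd i (v k) x) 4 (volume.restrict K) ≤ ε := by
      intro i ε hε
      have hcont : Tendsto (fun δ : ℝ => ENNReal.ofReal
          ((18 * (2 * δ) ^ 2 * 4 + C * (2 * δ) ^ 4) ^ (1 / 4 : ℝ))) (𝓝[>] 0) (𝓝 0) := by
        have h1 : Continuous (fun δ : ℝ => ENNReal.ofReal
          ((18 * (2 * δ) ^ 2 * 4 + C * (2 * δ) ^ 4) ^ (1 / 4 : ℝ))) := by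
          refine ENNReal.continuous_ofReal.comp ?_
          refine Continuous.rpow_const (by fun_prop) (fun x => Or.inr (by norm_num))
        have h2 := h1.tendsto 0
        have h3 : ENNReal.ofReal ((18 * (2 * (0 : ℝ)) ^ 2 * 4 + C * (2 * 0) ^ 4) ^ (1 / 4 : ℝ))
            = 0 := by
          have : (18 * (2 * (0 : ℝ)) ^ 2 * 4 + C * (2 * 0) ^ 4) = 0 := by ring
          rw [this, Real.zero_rpow (by norm_num), ENNReal.ofReal_zero]
        rw [h3] at h2
        exact h2.mono_left nhdsWithin_le_nhds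
      have hev : ∀ᶠ δ : ℝ in 𝓝[>] 0, ENNReal.ofReal
          ((18 * (2 * δ) ^ 2 * 4 + C * (2 * δ) ^ 4) ^ (1 / 4 : ℝ)) ≤ ε :=
        (ENNReal.tendsto_nhds_zero.1 hcont) ε hε
      obtain ⟨δ, hδ, hδ0⟩ := (hev.and self_mem_nhdsWithin).exists
      have hδ0' : 0 < δ := hδ0
      obtain ⟨N1, hN1⟩ := eventually_atTop.1 ((Metric.tendstoUniformlyOn_iff.1 hvu) δ hδ0')
      obtain ⟨N2, hN2⟩ := eventually_atTop.1 ((hvM i i).eventually (gt_mem_nhds one_pos))
      refine ⟨max N1 N2, fun n hn k hk => ?_⟩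
      have hd : ∀ x, pd i (fun y => v n y - v k y) x = pd i (v n) x - pd i (v k) x := fun x =>
        pd_sub ((hv n).differentiable (by simp) x) ((hv k).differentiable (by simp) x)
      have hdf : pd i (fun y => v n y - v k y) = fun x => pd i (v n) x - pd i (v k) x :=
        funext hd
      have hdd : ∀ x, pd i (pd i (fun y => v n y - v k y)) x
          = pd i (pd i (v n)) x - pd i (pd i (v k)) x := by
        intro x
        rw [hdf]
        exact pd_sub ((contDiff_pd (hv n) i).differentiable (by simp) x)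
          ((contDiff_pd (hv k) i).differentiable (by simp) x)
      have hS : ∀ x ∈ K', |v n x - v k x| ≤ 2 * δ := by
        intro x hx
        have a1 := hN1 n (le_trans (le_max_left _ _) hn) x hx
        have a2 := hN1 k (le_trans (le_max_left _ _) hk) x hx
        rw [Real.dist_eq] at a1 a2
        have a3 : v n x - v k x = (w x - v k x) - (w x - v n x) := by ring
        rw [a3]
        have a4 := abs_sub (w x - v k x) (w x - v n x)
        linarith
      have hI : ∫ x in K', pd i (pd i (fun y => v n y - v k y)) x ^ 2 ≤ 4 := by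
        have b1 := hN2 n (le_trans (le_max_right _ _) hn)
        have b2 := hN2 k (le_trans (le_max_right _ _) hk)
        have j1 : IntegrableOn (fun x => (pd i (pd i (v n)) x - M x i i) ^ 2) K' :=
          (hM2 i i n).integrable_sq
        have j2 : IntegrableOn (fun x => (pd i (pd i (v k)) x - M x i i) ^ 2) K' :=
          (hM2 i i k).integrable_sq
        have j3 : ∫ x in K', pd i (pd i (fun y => v n y - v k y)) x ^ 2
            ≤ ∫ x in K', (2 * (pd i (pd i (v n)) x - M x i i) ^ 2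
              + 2 * (pd i (pd i (v k)) x - M x i i) ^ 2) := by
          refine setIntegral_mono_on ?_ ((j1.const_mul 2).add (j2.const_mul 2))
            hK'.measurableSet (fun x _ => ?_)
          · have hs : ContDiff ℝ ∞ (fun y => v n y - v k y) := (hv n).sub (hv k)
            exact ((contDiff_pd (contDiff_pd hs i) i).continuous.pow
              2).continuousOn.integrableOn_compact hK'
          · rw [hdd x]
            nlinarith [sq_nonneg ((pd i (pd i (v n)) x - M x i i)
              + (pd i (pd i (v k)) x - M x i i))]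
        rw [integral_add (j1.const_mul 2) (j2.const_mul 2), integral_const_mul,
          integral_const_mul] at j3
        linarith
      have hfin := hC (fun y => v n y - v k y) ((hv n).sub (hv k)) (2 * δ) (by positivity) hS i
      have hmem : MemLp (fun x => pd i (v n) x - pd i (v k) x) 4 (volume.restrict K) :=
        memLp_cont hK (((contDiff_pd (hv n) i).continuous).sub
          ((contDiff_pd (hv k) i).continuous)) 4
      rw [eLp4 hmem]
      refine le_trans (ENNReal.ofReal_le_ofReal ?_) hδ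
      refine Real.rpow_le_rpow (integral_nonneg (fun x => by positivity)) ?_ (by norm_num)
      rw [hdf] at hfin
      refine hfin.trans ?_
      rw [← hdf]
      have : 18 * (2 * δ) ^ 2 * (∫ x in K', pd i (pd i (fun y => v n y - v k y)) x ^ 2)
          ≤ 18 * (2 * δ) ^ 2 * 4 := mul_le_mul_of_nonneg_left hI (by positivity)
      linarith
    have t4 : ∀ i, Tendsto (fun n => eLpNorm (fun x => pd i (v n) x - G x i) 4
        (volume.restrict K)) atTop (𝓝 0) := by
      intro i
      obtain ⟨ns, hns, hae⟩ := hsubseq i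
      rw [ENNReal.tendsto_nhds_zero]
      intro ε hε
      obtain ⟨N, hN⟩ := hcau i ε hε
      filter_upwards [eventually_ge_atTop N] with n hn
      refine Lp.eLpNorm_le_of_ae_tendsto (u := atTop)
        (f := fun k x => pd i (v n) x - pd i (v (ns k)) x) ?_ ?_ ?_
      · filter_upwards [hns.tendsto_atTop.eventually_ge_atTop N] with k hk
        exact hN n hn (ns k) hk
      · intro k
        exact (((contDiff_pd (hv n) i).continuous).sub
          ((contDiff_pd (hv (ns k)) i).continuous)).aestronglyMeasurable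
      · filter_upwards [hae] with x hx
        exact tendsto_const_nhds.sub hx
    refine ⟨?_, ?_, v, hv, hvu.mono hsub, t4, tM⟩
    · intro i
      obtain ⟨N, hN⟩ := eventually_atTop.1 ((ENNReal.tendsto_nhds_zero.1 (t4 i)) 1 one_pos)
      have h1 : MemLp (fun x => pd i (v N) x - G x i) 4 (volume.restrict K) :=
        ⟨(contDiff_pd (hv N) i).continuous.aestronglyMeasurable.sub
          (hw.memG K hK hKU i).aestronglyMeasurable, lt_of_le_of_lt (hN N le_rfl) (by simp)⟩
      have h2 : MemLp (pd i (v N)) 4 (volume.restrict K) :=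
        memLp_cont hK (contDiff_pd (hv N) i).continuous 4
      have h3 := h2.sub h1
      refine h3.congr_norm (hw.memG K hK hKU i).aestronglyMeasurable
        (Eventually.of_forall fun x => ?_)
      simp
    · have hij : ∀ i j, ∀ᵐ x ∂(volume.restrict K), M x i j = M x j i := by
        intro i j
        have hm1 := (hw.memM K hK hKU i j).aestronglyMeasurable
        have hm2 := (hw.memM K hK hKU j i).aestronglyMeasurable
        have h0 : eLpNorm (fun x => M x i j - M x j i) 2 (volume.restrict K) = 0 := by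
          have hle : ∀ n, eLpNorm (fun x => M x i j - M x j i) 2 (volume.restrict K)
              ≤ eLpNorm (fun x => pd j (pd i (v n)) x - M x j i) 2 (volume.restrict K)
                + eLpNorm (fun x => pd i (pd j (v n)) x - M x i j) 2 (volume.restrict K) := by
            intro n
            have e1 : (fun x => M x i j - M x j i)
                = (fun x => pd j (pd i (v n)) x - M x j i)
                  - (fun x => pd i (pd j (v n)) x - M x i j) := by
              funext x
              simp only [Pi.sub_apply]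
              rw [pd_comm ((hv n).contDiffAt) i j]
              ring
            rw [e1]
            exact eLpNorm_sub_le
              ((contDiff_pd (contDiff_pd (hv n) i) j).continuous.aestronglyMeasurable.sub hm2)
              ((contDiff_pd (contDiff_pd (hv n) j) i).continuous.aestronglyMeasurable.sub hm1)
              (by norm_num)
          have hlim := (tM j i).add (tM i j)
          rw [add_zero] at hlim
          exact le_antisymm (ge_of_tendsto' hlim hle) (zero_le)
        have h1 := (eLpNorm_eq_zero_iff (hm1.sub hm2) (by norm_num)).1 h0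
        filter_upwards [h1] with x hx
        have : M x i j - M x j i = 0 := hx
        linarith
      have hall : ∀ᵐ x ∂(volume.restrict K), ∀ i j, M x i j = M x j i := by
        rw [ae_all_iff]; intro i
        rw [ae_all_iff]; intro j
        exact hij i j
      filter_upwards [hall] with x hx
      exact Matrix.IsSymm.ext (fun i j => hx j i)
  refine ⟨hw.cont, fun K hK hKU => (step K hK hKU).1, hw.memM, ?_,
    fun K hK hKU => (step K hK hKU).2.2⟩
  rw [ae_restrict_iff' hU.measurableSet, ae_iff]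
  refine measure_null_of_locally_null _ (fun x hx => ?_)
  have hxU : x ∈ U := by
    by_contra h
    exact hx (fun h' => absurd h' h)
  obtain ⟨K, hK, hxK, hKU⟩ := exists_compact_subset hU hxU
  refine ⟨K ∩ {y | ¬ (M y).IsSymm}, ?_, ?_⟩
  · rw [mem_nhdsWithin]
    refine ⟨interior K, isOpen_interior, hxK, ?_⟩
    rintro y ⟨hy1, hy2⟩
    refine ⟨interior_subset hy1, ?_⟩
    intro h
    exact hy2 (fun _ => h)
  · have h1 := (step K hK hKU).2.1
    rw [ae_restrict_iff' hK.measurableSet, ae_iff] at h1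
    refine measure_mono_null ?_ h1
    rintro y ⟨hy1, hy2⟩
    simp only [Set.mem_ofPred_eq, not_forall]
    exact ⟨hy1, hy2⟩

end Pool.Agent.PFlow
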