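import Pool.Agent.PFlow.Defs

/-!
# Leafwise calculus: definitions for the block GB

The leaves are the level sets of a function `W` without critical points. There are no surfaces in
the file: leafwise objects are expressed in the coordinates of `E3`, and integrals over the leaves
are integrals of `ψ (W x) * F x * dens g W x`.
-/

open MeasureTheory Filter Topology
open scoped ContDiff

namespace Pool.Agent.PFlow

open Pool.Agent.PenroseSph

/-- The covector `B(·, v)`. -/
def contr (B : Bil) (v : Cov) : Cov := fun i => ∑ j, B i j * v j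

/-- The Ricci tensor as a bilinear form. -/
noncomputable def ric (g : TensorField) (x : E3) : Bil := Matrix.of fun i j => ricci g i j x

/-- The Gauss curvature of the level set through `x` of a function with 2-jet `(p, M)`, `p ≠ 0`:
`R/2 - Ric(ν,ν) + (H² - |A|²)/2`, where `A = ∇²w / |∇w|` on the tangent plane and `H = tr A`; here
`|∇w|² (H² - |A|²) = (tr ∇²w)² - |∇²w|² - 2 ∇²w(ν,ν) tr ∇²w + 2 |∇²w(ν,·)|²`. -/
noncomputable def gaussK (g : TensorField) (x : E3) (p : Cov) (M : Bil) : ℝ :=
  scalarCurvature g x / 2 - bnn g x p (ric g x)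
    + (trg g x (cHess g x p M) ^ 2 - nsq g x (cHess g x p M)
        - 2 * bnn g x p (cHess g x p M) * trg g x (cHess g x p M)
        + 2 * ev (g x)⁻¹ (contr (cHess g x p M) (nrm g x p)) (contr (cHess g x p M) (nrm g x p)))
      / (2 * len g x p ^ 2)

/-- The Gauss curvature of the leaf of `W` through `x`. -/
noncomputable def curv (g : TensorField) (W : E3 → ℝ) (x : E3) : ℝ :=
  gaussK g x (grad W x) (hess2 W x)

/-- The density `m = |dW|_g √(det g)`: integration over the leaves and then over their values is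
integration against `m dx`. -/
noncomputable def dens (g : TensorField) (W : E3 → ℝ) (x : E3) : ℝ :=
  len g x (grad W x) * volDen g x

/-- The inner product of the restrictions of the covectors `A`, `B` to the plane orthogonal to `p`:
`g^{ij} A_i B_j - A(ν) B(ν)`. -/
noncomputable def lip (g : TensorField) (x : E3) (p : Cov) (A B : Cov) : ℝ :=
  ev (g x)⁻¹ A B - (∑ i, A i * nrm g x p i) * ∑ i, B i * nrm g x p i

/-- The leafwise inner product `⟨df, dh⟩` of two functions. -/
noncomputable def lin (g : TensorField) (W f h : E3 → ℝ) (x : E3) : ℝ :=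
  lip g x (grad W x) (grad f x) (grad h x)

/-- The leafwise gradient `(grad f)^i = P^{ij} ∂_j f = g^{ij} ∂_j f - ν^i ν(f)`. -/
noncomputable def lgrad (g : TensorField) (W f : E3 → ℝ) (x : E3) : Cov := fun i =>
  raise g x (grad f x) i - nrm g x (grad W x) i * ∑ j, grad f x j * nrm g x (grad W x) j

/-- The leafwise divergence `m⁻¹ ∂_i (m Y^i)` of a vector field tangent to the leaves. -/
noncomputable def ldiv (g : TensorField) (W : E3 → ℝ) (Y : E3 → Cov) (x : E3) : ℝ :=
  (∑ i, pd i (fun y => dens g W y * Y y i) x) / dens g W x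

/-- The leafwise Laplacian. -/
noncomputable def lap (g : TensorField) (W f : E3 → ℝ) (x : E3) : ℝ :=
  ldiv g W (lgrad g W f) x

/-- The part of `V` where `c < W < d`. -/
def slab (V : Set E3) (W : E3 → ℝ) (c d : ℝ) : Set E3 := V ∩ W ⁻¹' Set.Ioo c d

/-- The part of `V` where `c ≤ W ≤ d`. -/
def cslab (V : Set E3) (W : E3 → ℝ) (c d : ℝ) : Set E3 := V ∩ W ⁻¹' Set.Icc c d

/-- `W` is a smooth function without critical points on the open set `V`, with values in `(a, b)`
and compact level sets: `V ∩ {c ≤ W ≤ d}` is compact for `a < c ≤ d < b`. -/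
structure Fol (V : Set E3) (a b : ℝ) (g : TensorField) (W : E3 → ℝ) : Prop where
  isOpen : IsOpen V
  metric : MetricOn V g
  smooth : ContDiffOn ℝ ∞ W V
  mapsTo : ∀ x ∈ V, a < W x ∧ W x < b
  regular : ∀ x ∈ V, grad W x ≠ 0
  proper : ∀ c d : ℝ, a < c → d < b → IsCompact (cslab V W c d)

/-- `φ` is a smooth function with compact support in the open set `U`. -/
structure TestOn (U : Set E3) (φ : E3 → ℝ) : Prop where
  smooth : ContDiff ℝ ∞ φ
  compact : HasCompactSupport φ
  supp : tsupport φ ⊆ U

/-- `ψ` is a continuously differentiable function of one variable, nonnegative, with (compact)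
support in `(a, b)`. -/
structure BumpOn (a b : ℝ) (ψ : ℝ → ℝ) : Prop where
  smooth : ContDiff ℝ 1 ψ
  nonneg : ∀ s, 0 ≤ ψ s
  supp : tsupport ψ ⊆ Set.Ioo a b

/-- **(GB)** The Gauss-Bonnet inequality for connected leaves. -/
def Stmt_GB : Prop :=
  ∀ (V : Set E3) (a b : ℝ) (g : TensorField) (W : E3 → ℝ), Fol V a b g W →
    (∀ s : ℝ, IsPreconnected (V ∩ W ⁻¹' {s})) →
    ∀ ψ : ℝ → ℝ, BumpOn a b ψ →
      ∫ x in V, ψ (W x) * curv g W x * dens g W x ≤ 4 * Real.pi * ∫ s, ψ s

/-- **(UNIC)** A regular level set separating two connected sets of `E3` is connected. -/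
def Stmt_UNIC : Prop :=
  ∀ (f : E3 → ℝ) (c e : ℝ), Continuous f → 0 < e → IsCompact {x | |f x - c| ≤ e} →
    IsPreconnected {x | f x < c} → IsPreconnected {x | c < f x} →
    (∀ x, f x = c → ContDiffAt ℝ ∞ f x ∧ fderiv ℝ f x ≠ 0) →
    IsPreconnected {x | f x = c}

end Pool.Agent.PFlow
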