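import Pool.Agent.PFlow.Sol
import Pool.Agent.PFlow.DefsG

/-!
# Pointwise quantities of the level set inequality (block M)

The functions below depend on the inverse metric `P`, a covector `p` (the differential of a
function) and a symmetric matrix `H` (its Hessian). The definitions of `Defs.lean` are the case
`P = (g x)⁻¹`.
-/

open MeasureTheory Filter Topology
open scoped ContDiff

namespace Pool.Agent.PFlow

open Pool.Agent.PenroseSph

/-! ## Linear algebra at a point -/

/-- The vector `P p`. -/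
def up (P : Bil) (p : Cov) : Cov := fun i => ∑ j, P i j * p j

/-- The trace of `H`. -/
def tr2 (P H : Bil) : ℝ := ∑ i, ∑ j, P i j * H i j

/-- The inner product of `H` and `K`. -/
def dd (P H K : Bil) : ℝ := ∑ i, ∑ j, ∑ k, ∑ l, P i k * P j l * H i j * K k l

/-- The covector `H(P p, ·)`. -/
def app (P H : Bil) (p : Cov) : Cov := fun i => ∑ j, H i j * up P p j

/-- The number `H(P p, P p)`. -/
def qf (P H : Bil) (p : Cov) : ℝ := ev H (up P p) (up P p)

/-- The length of `p`. -/
noncomputable def lp (P : Bil) (p : Cov) : ℝ := Real.sqrt (ev P p p)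

/-- The normal component `H(ν, ν)`. -/
noncomputable def nn (P H : Bil) (p : Cov) : ℝ := qf P H p / ev P p p

/-- The tangential trace `tr H - H(ν, ν)`. -/
noncomputable def tn (P H : Bil) (p : Cov) : ℝ := tr2 P H - nn P H p

/-- The regularised length `√(|p|² + d²)`. -/
noncomputable def ld (P : Bil) (d : ℝ) (p : Cov) : ℝ := Real.sqrt (ev P p p + d ^ 2)

/-- Euclidean squared length of a covector. -/
def vsq (p : Cov) : ℝ := ∑ i, p i ^ 2

/-- Euclidean length of a covector. -/
noncomputable def vn (p : Cov) : ℝ := Real.sqrt (vsq p)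

/-- Euclidean squared length of a matrix. -/
def msq (M : Bil) : ℝ := ∑ i, ∑ j, M i j ^ 2

/-- The divergence of `(tr H p - H p) / √(|p|² + d²)`; `Rc` is the Ricci tensor. -/
noncomputable def Dd (P Rc : Bil) (d : ℝ) (p : Cov) (H : Bil) : ℝ :=
  (tr2 P H ^ 2 - dd P H H - qf P Rc p) / ld P d p
    - (qf P H p * tr2 P H - ev P (app P H p) (app P H p)) / ld P d p ^ 3

/-- The divergence of `(tr H p - H p) / √(|p|² + d²) - |p| p / (2 - ε) + h p - (tr h) p`; `J` is
the momentum density. -/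
noncomputable def DZ (ε : ℝ) (P Rc hh : Bil) (J : Cov) (d : ℝ) (p : Cov) (H : Bil) : ℝ :=
  Dd P Rc d p H - (nn P H p * lp P p + lp P p * tr2 P H) / (2 - ε)
    + ev P J p + dd P hh H - tr2 P hh * tr2 P H

/-- Transformation of covectors to a frame. -/
def plv (A : Bil) (p : Cov) : Cov := fun i => ∑ j, A j i * p j

/-- Transformation of bilinear forms to a frame. -/
def plm (A H : Bil) : Bil := A.transpose * H * A

/-! ## The geometry -/

/-- The momentum density as a covector. -/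
noncomputable def momV (g h : TensorField) (x : E3) : Cov := fun i => momentumDensity g h i x

/-- The residual of the equation of `w`. -/
noncomputable def resid (ε : ℝ) (g h : TensorField) (x : E3) (p : Cov) (M : Bil) : ℝ :=
  beps ε g x p (cHess g x p M) - len g x p ^ 2 - len g x p * beps ε g x p (h x)

/-- `|∇w|` times the Gauss curvature of the level set. -/
noncomputable def Kd (g : TensorField) (x : E3) (p : Cov) (M : Bil) : ℝ :=
  len g x p * gaussK g x p M

/-- `Dd` for the metric `g`. -/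
noncomputable def Ddx (g : TensorField) (d : ℝ) (x : E3) (p : Cov) (M : Bil) : ℝ :=
  Dd (g x)⁻¹ (ric g x) d p (cHess g x p M)

/-- `DZ` for the data `(g, h)`. -/
noncomputable def DZx (ε : ℝ) (g h : TensorField) (d : ℝ) (x : E3) (p : Cov) (M : Bil) : ℝ :=
  DZ ε (g x)⁻¹ (ric g x) (h x) (momV g h x) d p (cHess g x p M)

/-- The components of the vector `(tr H p - H p) / √(|p|² + d²)`, `H` the Hessian. -/
noncomputable def Yf (g : TensorField) (d : ℝ) (x : E3) (p : Cov) (M : Bil) (i : Fin 3) : ℝ :=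
  up (g x)⁻¹ (fun j => trg g x (cHess g x p M) * p j - app (g x)⁻¹ (cHess g x p M) p j) i
    / ld (g x)⁻¹ d p

/-- The components of the vector
`(tr H p - H p) / √(|p|² + d²) - |p| p / (2 - ε) + h p - (tr h) p`. -/
noncomputable def Zf (ε : ℝ) (g h : TensorField) (d : ℝ) (x : E3) (p : Cov) (M : Bil)
    (i : Fin 3) : ℝ :=
  Yf g d x p M i + up (g x)⁻¹ (fun j => - (len g x p / (2 - ε)) * p j
    + app (g x)⁻¹ (h x) p j - trg g x (h x) * p j) i

/-- The nonnegative part of the dissipation,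
`|B(ν,·)^T|² + |B_S°|²/2 + (1/ε - 1/4) z²`. -/
noncomputable def dis0 (ε : ℝ) (g h : TensorField) (x : E3) (p : Cov) (M : Bil) : ℝ :=
  nsq g x (tenB g h x p M) / 2 - bnn g x p (tenB g h x p M) ^ 2 / 2
    - btan g x p (tenB g h x p M) ^ 2 / 4
    + (1 / ε - 1 / 4) * zed ε g h x p M ^ 2

/-- The Euclidean quantity `(tr M - M(n, n))² / |p|`, `n = p / |p|`. -/
noncomputable def Wd (p : Cov) (M : Bil) : ℝ :=
  ((∑ i, M i i) - ev M p p / vsq p) ^ 2 / vn p

/-! ## Sobolev functions with gradients in `L⁴` -/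

/-- As `H2On`, with convergence in the norms `L⁴` (gradients) and `L²` (second derivatives), and
symmetric second derivatives. -/
structure H2s (U : Set E3) (w : E3 → ℝ) (G : E3 → Cov) (M : E3 → Bil) : Prop where
  cont : ContinuousOn w U
  memG : ∀ K : Set E3, IsCompact K → K ⊆ U → ∀ i, MemLp (fun x => G x i) 4 (volume.restrict K)
  memM : ∀ K : Set E3, IsCompact K → K ⊆ U → ∀ i j,
    MemLp (fun x => M x i j) 2 (volume.restrict K)
  symm : ∀ᵐ x ∂(volume.restrict U), (M x).IsSymm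
  approx : ∀ K : Set E3, IsCompact K → K ⊆ U → ∃ v : ℕ → E3 → ℝ,
    (∀ n, ContDiff ℝ ∞ (v n)) ∧ TendstoUniformlyOn v w atTop K ∧
    (∀ i, Tendsto (fun n => eLpNorm (fun x => pd i (v n) x - G x i) 4 (volume.restrict K))
      atTop (𝓝 0)) ∧
    (∀ i j, Tendsto (fun n => eLpNorm (fun x => pd i (pd j (v n)) x - M x i j) 2
      (volume.restrict K)) atTop (𝓝 0))

/-- The levels between `s₀` and `s₁` of `w` stay away from the boundary of the annulus, and `w` is
small near the inner and large near the outer boundary. -/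
def Sep (a b s₀ s₁ : ℝ) (w : E3 → ℝ) : Prop :=
  ∃ a' b', a < a' ∧ a' < b' ∧ b' < b ∧ (∀ x : E3, a < ‖x‖ → ‖x‖ ≤ a' → w x ≤ s₀) ∧
    ∀ x : E3, b' ≤ ‖x‖ → ‖x‖ < b → s₁ ≤ w x

/-! ## Filling -/

/-- `y` and `z` lie in a preconnected subset of `A`. -/
def Conn (A : Set E3) (y z : E3) : Prop := ∃ S ⊆ A, IsPreconnected S ∧ y ∈ S ∧ z ∈ S

/-- The largest level `c` such that `y` is connected with `z₁` in `{W ≥ c}`. -/
noncomputable def fillA (W : E3 → ℝ) (s₀ : ℝ) (z₁ : E3) (y : E3) : ℝ :=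
  sSup {c : ℝ | s₀ ≤ c ∧ Conn {z | c ≤ W z} y z₁}

/-- The smallest level `c` such that `y` is connected with `z₀` in `{W ≤ c}`. -/
noncomputable def fillB (W : E3 → ℝ) (s₁ : ℝ) (z₀ : E3) (y : E3) : ℝ :=
  sInf {c : ℝ | c ≤ s₁ ∧ Conn {z | W z ≤ c} y z₀}

/-- The filled function. -/
noncomputable def fill (W : E3 → ℝ) (s₀ s₁ : ℝ) (z₀ z₁ : E3) : E3 → ℝ :=
  fillB (fillA W s₀ z₁) s₁ z₀

/-- The set where filling changes nothing. -/
def good (W : E3 → ℝ) (s₀ s₁ : ℝ) (z₀ z₁ : E3) : Set E3 :=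
  {x | fillA W s₀ z₁ x = W x ∧ fill W s₀ s₁ z₀ z₁ x = fillA W s₀ z₁ x}

/-- The level `c` of `V` is topologically regular. -/
def RegLevel (V : E3 → ℝ) (c : ℝ) : Prop :=
  IsCompact {z | V z = c} ∧ ∀ z, V z = c → ∀ O' : Set E3, IsOpen O' → z ∈ O' →
    ∃ O : Set E3, IsOpen O ∧ z ∈ O ∧ O ⊆ O' ∧ IsPreconnected (O ∩ {y | c < V y}) ∧
      IsPreconnected (O ∩ {y | V y < c}) ∧ z ∈ closure {y | c < V y} ∧ z ∈ closure {y | V y < c}

/-- The function `w` on `a' < |x| < b'`, truncated at the levels `s₀` and `s₁`, and extended by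
`s₀` to the inside and by `s₁` to the outside. -/
noncomputable def trW (a' b' s₀ s₁ : ℝ) (w : E3 → ℝ) (x : E3) : ℝ :=
  if ‖x‖ ≤ a' then s₀ else if b' ≤ ‖x‖ then s₁ else max s₀ (min s₁ (w x))

/-- A truncated function: continuous, between `s₀` and `s₁`, equal to `s₀` on a ball about the
origin and to `s₁` outside a larger ball. -/
structure Trunc (a' b' s₀ s₁ : ℝ) (W : E3 → ℝ) : Prop where
  pos : 0 < a'
  lt : a' < b'
  lts : s₀ < s₁
  cont : Continuous W
  lower : ∀ x, s₀ ≤ W x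
  upper : ∀ x, W x ≤ s₁
  inner : ∀ x : E3, ‖x‖ ≤ a' → W x = s₀
  outer : ∀ x : E3, b' ≤ ‖x‖ → W x = s₁

end Pool.Agent.PFlow
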