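import Pool.Agent.PFlow.DefsF

/-!
# Statements of the modules of the energy block, part 2: levels, test functions, weight, area
-/

open MeasureTheory Filter Topology
open scoped ContDiff ENNReal

namespace Pool.Agent.PFlow

open Pool.Agent.PenroseSph

/-- PHI: the barrier integrals. -/
def Stmt_PHI : Prop :=
  ∀ ε C σ : ℝ, 0 < ε → ε ≤ 1 / 2 → 0 ≤ C → (σ = 1 ∨ σ = -1) →
    IntegrableOn (phiDen ε σ C) (Set.Ioi 0) ∧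
    (∀ r, 0 < r → 0 < phiDen ε σ C r ∧
      HasDerivAt (phiB ε σ C) (-phiDen ε σ C r) r ∧
      HasDerivAt (phiDen ε σ C)
        (-(phiDen ε σ C r * (bE ε r + σ * C / (1 + r ^ 2)) / ε)) r) ∧
    ContinuousOn (phiB ε σ C) (Set.Ici 0) ∧
    (∀ r, 1 ≤ r →
      2 ^ (-pe ε) * Real.exp (-(C * Real.pi / (2 * ε))) * r ^ (-pe ε) / pe ε ≤ phiB ε σ C r ∧
      phiB ε σ C r ≤ Real.exp (C * Real.pi / (2 * ε)) * r ^ (-pe ε) / pe ε) ∧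
    (∀ r₁ r₂, 0 ≤ r₁ → r₁ ≤ r₂ → r₂ ≤ 1 →
      2 ^ (-pe ε) * Real.exp (-(C * Real.pi / (2 * ε))) * (r₂ ^ pe ε - r₁ ^ pe ε) / pe ε
        ≤ phiB ε σ C r₁ - phiB ε σ C r₂ ∧
      phiB ε σ C r₁ - phiB ε σ C r₂
        ≤ Real.exp (C * Real.pi / (2 * ε)) * (r₂ ^ pe ε - r₁ ^ pe ε) / pe ε)

/-- BARR: the barriers are strict sub- and supersolutions. -/
def Stmt_BARR : Prop :=
  ∀ (ε C : ℝ) (g h : TensorField) (x : E3), 0 < ε → ε ≤ 1 / 2 → 0 ≤ C → x ≠ 0 →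
    (g x).PosDef → |barB ε g h x - bE ε ‖x‖| ≤ C / (1 + ‖x‖ ^ 2) →
    ∀ σ : ℝ, (σ = 1 ∨ σ = -1) →
      ContDiffAt ℝ 2 (fun y : E3 => phiB ε σ (C + 1) ‖y‖) x ∧
      grad (fun y : E3 => phiB ε σ (C + 1) ‖y‖) x ≠ 0 ∧
      (σ = 1 → ∀ k c : ℝ, 0 < k →
        0 < opN ε g h (fun y : E3 => k * (phiB ε σ (C + 1) ‖y‖ - c)) x) ∧
      (σ = -1 → ∀ k c : ℝ, 0 < k →
        opN ε g h (fun y : E3 => k * phiB ε σ (C + 1) ‖y‖ + c) x < 0)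

/-- LOC: location of the level sets. -/
def Stmt_LOC : Prop :=
  ∀ ε C : ℝ, 0 < ε → ε ≤ 1 / 2 → 0 < C →
    ∃ c C₂ γ κ l₀ : ℝ, 0 < c ∧ c ≤ 1 ∧ 0 < C₂ ∧ 0 < γ ∧ 0 < κ ∧ κ ≤ 1 / 8 ∧ 1 ≤ l₀ ∧
      ∀ l : ℝ, l₀ ≤ l → ∃ R₀ : ℝ, 16 * l ≤ R₀ ∧ ∀ R : ℝ, R₀ ≤ R →
        ∀ (η : ℝ) (g h : TensorField) (u : E3 → ℝ) (G : E3 → Cov) (M : E3 → Bil),
          0 < η → η ≤ R ^ (-pe ε - 1) → MetricOn Set.univ g →
          (∀ x : E3, 1 / (8 * R) ≤ ‖x‖ → |barB ε g h x - bE ε ‖x‖| ≤ C / (1 + ‖x‖ ^ 2)) →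
          Solution ε (1 / R) R η g h u G M → Located ε c C₂ γ κ l R u

/-- LOCU: location of the level sets, uniformly in `ε`. -/
def Stmt_LOCU : Prop :=
  ∀ C : ℝ, 0 < C → ∃ ρ r : ℝ, 0 < ρ ∧ ρ < 1 ∧ 1 < r ∧ ∀ ε : ℝ, 0 < ε → ε ≤ 1 / 2 →
    ∃ R₀ : ℝ, ∀ R : ℝ, R₀ ≤ R →
      ∀ (η : ℝ) (g h : TensorField) (u : E3 → ℝ) (G : E3 → Cov) (M : E3 → Bil),
        0 < η → η ≤ R ^ (-pe ε - 1) → MetricOn Set.univ g →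
        (∀ x : E3, 1 / (8 * R) ≤ ‖x‖ → |barB ε g h x - bE ε ‖x‖| ≤ C / (1 + ‖x‖ ^ 2)) →
        Solution ε (1 / R) R η g h u G M →
        ∀ x ∈ Ann (1 / R) R, (‖x‖ ≤ ρ → wOf ε u x < ε) ∧ (r ≤ ‖x‖ → 1 < wOf ε u x)

/-- HSYM: the second derivatives of an `H²` function are symmetric. -/
def Stmt_HSYM : Prop :=
  ∀ (U : Set E3) (w : E3 → ℝ) (G : E3 → Cov) (M : E3 → Bil), IsOpen U → H2On U w G M →
    ∀ᵐ x ∂(volume.restrict U), (M x).IsSymm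

/-- LE1: local bound of the second derivatives. -/
def Stmt_LE1 : Prop :=
  ∀ ε' C₁ a' a b b' : ℝ, 0 < ε' → ε' ≤ 1 → 0 ≤ C₁ → 0 < a' → a' < a → a < b → b < b' →
    ∃ C : ℝ, 0 < C ∧ ∀ (ρ S : ℝ) (v : E3 → ℝ) (G : E3 → Cov) (M : E3 → Bil), 0 < ρ → 0 ≤ S →
      H2On (Ann (a' * ρ) (b' * ρ)) v G M → (∀ x ∈ Ann (a' * ρ) (b' * ρ), |v x| ≤ S) →
      (∀ᵐ x ∂(volume.restrict (Ann (a' * ρ) (b' * ρ))),
        |∑ i, M x i i| ≤ (1 - ε') * msz (M x) + C₁ / ρ * vsz (G x)) →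
      (∫ x in cAnn (a * ρ) (b * ρ), msz (M x) ^ 2) ≤ C * S ^ 2 / ρ ∧
      (∫ x in cAnn (a * ρ) (b * ρ), vsz (G x) ^ 2) ≤ C * S ^ 2 * ρ

/-- LE2: local `L⁴` bound of the gradient. -/
def Stmt_LE2 : Prop :=
  ∀ C₁ a' a b b' : ℝ, 0 ≤ C₁ → 0 < a' → a' < a → a < b → b < b' →
    ∃ C : ℝ, 0 < C ∧ ∀ (ρ S : ℝ) (v : E3 → ℝ) (G : E3 → Cov) (M : E3 → Bil), 0 < ρ → 0 ≤ S →
      H2On (Ann (a' * ρ) (b' * ρ)) v G M → (∀ x ∈ Ann (a' * ρ) (b' * ρ), |v x| ≤ S) →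
      (∫ x in cAnn (a' * ρ) (b' * ρ), msz (M x) ^ 2) ≤ C₁ * S ^ 2 / ρ →
      (∫ x in cAnn (a' * ρ) (b' * ρ), vsz (G x) ^ 2) ≤ C₁ * S ^ 2 * ρ →
      IntegrableOn (fun x => msz (M x) ^ 2) (cAnn (a' * ρ) (b' * ρ)) →
      IntegrableOn (fun x => vsz (G x) ^ 2) (cAnn (a' * ρ) (b' * ρ)) →
      IntegrableOn (fun x => vsz (G x) ^ 4) (cAnn (a * ρ) (b * ρ)) ∧
      (∫ x in cAnn (a * ρ) (b * ρ), vsz (G x) ^ 4) ≤ C * S ^ 4 / ρ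

/-- LE: local `L³` bound of the gradient. -/
def Stmt_LE : Prop :=
  ∀ ε' C₁ a' a b b' : ℝ, 0 < ε' → ε' ≤ 1 → 0 ≤ C₁ → 0 < a' → a' < a → a < b → b < b' →
    ∃ C : ℝ, 0 < C ∧ ∀ (ρ S : ℝ) (v : E3 → ℝ) (G : E3 → Cov) (M : E3 → Bil), 0 < ρ → 0 ≤ S →
      H2On (Ann (a' * ρ) (b' * ρ)) v G M → (∀ x ∈ Ann (a' * ρ) (b' * ρ), |v x| ≤ S) →
      (∀ᵐ x ∂(volume.restrict (Ann (a' * ρ) (b' * ρ))),
        |∑ i, M x i i| ≤ (1 - ε') * msz (M x) + C₁ / ρ * vsz (G x)) →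
      IntegrableOn (fun x => vsz (G x) ^ 3) (cAnn (a * ρ) (b * ρ)) ∧
      (∫ x in cAnn (a * ρ) (b * ρ), vsz (G x) ^ 3) ≤ C * S ^ 3

/-- LEY: the local bound at the other end. -/
def Stmt_LEY : Prop :=
  ∀ ε C κ₁ κ₂ : ℝ, 0 < ε → ε ≤ 1 / 2 → 0 < C → 0 < κ₁ → κ₁ < κ₂ →
    ∃ C' l₀ : ℝ, 0 < C' ∧ 1 ≤ l₀ ∧ ∀ (l S : ℝ) (g g' h' : TensorField) (u : E3 → ℝ)
      (G : E3 → Cov) (M : E3 → Bil), l₀ ≤ l → 0 ≤ S → MetricOn {0}ᶜ g →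
      DecayFrom C 1 (inverted g) 0 →
      (∀ y : E3, 1 ≤ ‖y‖ → ∀ v : Cov,
        (∑ i, v i ^ 2) ≤ C * ev (inverted g y) v v ∧ ev (inverted g y) v v ≤ C * ∑ i, v i ^ 2) →
      (∀ x ∈ Ann (κ₁ / (2 * l)) (2 * κ₂ / l), g' x = g x ∧ (h' x).IsSymm ∧
        nsq g x (h' x) ≤ C * ‖x‖ ^ 4) →
      H2On (Ann (κ₁ / (2 * l)) (2 * κ₂ / l)) u G M →
      EqU (Ann (κ₁ / (2 * l)) (2 * κ₂ / l)) ε g' h' G M →
      (∀ x ∈ Ann (κ₁ / (2 * l)) (2 * κ₂ / l), |1 - u x| ≤ S) →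
      IntegrableOn (fun x => len g' x (G x) ^ 3 * volDen g' x) (cAnn (κ₁ / l) (κ₂ / l)) ∧
      (∫ x in cAnn (κ₁ / l) (κ₂ / l), len g' x (G x) ^ 3 * volDen g' x) ≤ C' * S ^ 3

/-- XID: the identity for the flux density. -/
def Stmt_XID : Prop :=
  ∀ (ε a b : ℝ) (g h : TensorField) (w : E3 → ℝ) (G : E3 → Cov) (M : E3 → Bil),
    0 < ε → ε < 1 → 0 < a → a < b → MetricOn (Ann a b) g → TensorOn (Ann a b) h →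
    H2On (Ann a b) w G M → EqW (Ann a b) ε g h G M →
    (∀ K : Set E3, IsCompact K → K ⊆ Ann a b → IntegrableOn (fun x => vsz (G x) ^ 4) K) →
    ∀ (ψ : ℝ → ℝ) (K : Set E3), ContDiff ℝ 1 ψ → IsCompact K → K ⊆ Ann a b →
      (∀ x ∈ Ann a b, w x ∈ tsupport ψ → x ∈ K) →
      ∫ x in Ann a b, ψ (w x) * flux ε g h x (G x) (M x) * volDen g x
        = 1 / (2 - ε) * (∫ x in Ann a b, (ψ (w x) + ε * deriv ψ (w x)) * len g x (G x) ^ 3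
            * volDen g x)
          + ∫ x in Ann a b, ψ (w x) * len g x (G x) ^ 2
              * (2 / (2 - ε) * beps ε g x (G x) (h x) - btan g x (G x) (h x)) * volDen g x

/-- FLX: the flux identity tested with a function of `u`. -/
def Stmt_FLX : Prop :=
  ∀ (ε a b : ℝ) (g h : TensorField) (u : E3 → ℝ) (G : E3 → Cov) (M : E3 → Bil),
    0 < ε → ε < 1 → 0 < a → a < b → MetricOn Set.univ g → TensorOn Set.univ h →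
    H2On (Ann a b) u G M →
    (∀ χ : E3 → ℝ, ContDiff ℝ 1 χ → HasCompactSupport χ → tsupport χ ⊆ Ann a b →
      ∫ x, len g x (G x) ^ (ε - 1) * ev (g x)⁻¹ (G x) (grad χ x) * volDen g x
        = ∫ x, len g x (G x) ^ ε * beps ε g x (G x) (h x) * χ x * volDen g x) →
    ∀ (ψ : ℝ → ℝ) (K : Set E3), ContDiff ℝ 1 ψ → IsCompact K → K ⊆ Ann a b →
      (∀ x ∈ Ann a b, u x ∈ tsupport ψ → x ∈ K) →
      ∫ x in Ann a b, deriv ψ (u x) * len g x (G x) ^ (1 + ε) * volDen g x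
        = ∫ x in Ann a b, len g x (G x) ^ ε * beps ε g x (G x) (h x) * ψ (u x) * volDen g x

/-- PTD: pointwise properties of the dissipation. -/
def Stmt_PTD : Prop :=
  ∀ ε : ℝ, 0 < ε → ε ≤ 1 / 2 → ∃ C : ℝ, 0 < C ∧
    ∀ (g h : TensorField) (x : E3) (p : Cov) (M : Bil), (g x).PosDef → (h x).IsSymm → M.IsSymm →
      (∀ k i j, christoffel g k i j x = christoffel g k j i x) → p ≠ 0 →
      (∀ v : Cov, ev (g x) v v = 1 → ev (h x) v v ≤ trg g x (h x)) →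
      beps ε g x p (cHess g x p M) = len g x p ^ 2 + len g x p * beps ε g x p (h x) →
      0 ≤ diss ε g h x p M ∧
      (∀ t : ℝ, 0 ≤ t → t ≤ 1 →
        ev (g x)⁻¹ (fun i => 1 / (2 - ε) * p i + t * (∑ j, cHess g x p M i j * nrm g x p j)
            / len g x p)
          (fun i => 1 / (2 - ε) * p i + t * (∑ j, cHess g x p M i j * nrm g x p j) / len g x p)
        ≤ C * t ^ 2 * (diss ε g h x p M + nsq g x (h x)) + 2 * (1 - t) ^ 2 * len g x p ^ 2) ∧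
      (h x = 0 →
        flux ε g h x p M = (2 - ε) / 4 * (btan g x p (cHess g x p M) ^ 2 / len g x p
          - len g x p * zed ε g h x p M ^ 2) ∧
        (2 - ε) / 4 * (len g x p * zed ε g h x p M ^ 2)
          ≤ 1 / lam ε * (len g x p * diss ε g h x p M))

/-- GRADL: the derivative of the squared length of the gradient. -/
def Stmt_GRADL : Prop :=
  ∀ (g : TensorField) (w : E3 → ℝ) (x : E3), (∀ᶠ y in 𝓝 x, (g y).IsSymm) → (g x).det ≠ 0 →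
    (∀ i j, ContDiffAt ℝ 1 (fun y => g y i j) x) → ContDiffAt ℝ 2 w x → ∀ k,
    pd k (fun y => ev (g y)⁻¹ (grad w y) (grad w y)) x
      = 2 * ∑ j, cHess g x (grad w x) (hess2 w x) k j * raise g x (grad w x) j

/-- POI: the Poincaré inequality on annuli. -/
def Stmt_POI : Prop :=
  ∀ a b : ℝ, 0 < a → a < b → ∃ C : ℝ, 0 < C ∧ ∀ (ρ : ℝ) (f : E3 → ℝ), 0 < ρ →
    (∀ x ∈ cAnn (a * ρ / 2) (b * ρ), ContDiffAt ℝ 1 f x) →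
    ∫ x in cAnn (a * ρ) (b * ρ), (f x - ⨍ y in cAnn (a * ρ) (b * ρ), f y) ^ 2
      ≤ C * ρ ^ 2 * ∫ x in cAnn (a * ρ / 2) (b * ρ), ‖fderiv ℝ f x‖ ^ 2

/-- WGT: the weight `e^{w/(2-ε)} |∇w|` is almost constant. -/
def Stmt_WGT : Prop :=
  ∀ ε a b Cg : ℝ, 0 < ε → ε ≤ 1 / 2 → 0 < a → a < b → 0 < Cg → ∃ C : ℝ, 0 < C ∧
    ∀ (ρ : ℝ) (U : Set E3) (g h : TensorField) (w : E3 → ℝ) (G : E3 → Cov) (M : E3 → Bil),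
      0 < ρ → IsOpen U → cAnn (a * ρ / 2) (b * ρ) ⊆ U → MetricOn U g → TensorOn U h →
      TwoNonneg U g h →
      (∀ x ∈ cAnn (a * ρ / 2) (b * ρ), ∀ v : Cov,
        (∑ i, v i ^ 2) ≤ Cg * ev (g x) v v ∧ ev (g x) v v ≤ Cg * ∑ i, v i ^ 2) →
      H2On U w G M → EqW U ε g h G M →
      IntegrableOn (fun x => Real.exp (w x / (2 - ε)) * len g x (G x)
        * (diss ε g h x (G x) (M x) + nsq g x (h x)) * volDen g x) (cAnn (a * ρ / 2) (b * ρ)) →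
      ∃ lm : ℝ, 0 ≤ lm ∧
        Real.sqrt lm * (∫ _x in cAnn (a * ρ) (b * ρ), (1 : ℝ))
          = (∫ x in cAnn (a * ρ) (b * ρ), Real.sqrt (Real.exp (w x / (2 - ε)) * len g x (G x))) ∧
        ∫ x in cAnn (a * ρ) (b * ρ),
          (Real.sqrt (Real.exp (w x / (2 - ε)) * len g x (G x)) - Real.sqrt lm) ^ 2
        ≤ C * ρ ^ 2 * ∫ x in cAnn (a * ρ / 2) (b * ρ),
            Real.exp (w x / (2 - ε)) * len g x (G x)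
              * (diss ε g h x (G x) (M x) + nsq g x (h x)) * volDen g x

/-- PERA: perimeter of the sublevel sets of a smooth function. -/
def Stmt_PERA : Prop :=
  ∀ (g : TensorField) (W : E3 → ℝ) (ρ r s₀ s₁ : ℝ), MetricOn {0}ᶜ g → 0 < ρ → ρ < r → s₀ < s₁ →
    ContDiff ℝ ∞ W → (∀ x ∈ cAnn ρ r, ‖x‖ = ρ → W x < s₀) →
    (∀ x ∈ cAnn ρ r, ‖x‖ = r → s₁ < W x) →
    Set.Finite {s : ℝ | s₀ ≤ s ∧ s ≤ s₁ ∧ ∃ x ∈ cAnn ρ r, W x = s ∧ fderiv ℝ W x = 0} →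
    ∀ A : ℝ, (∀ U : Set E3, Separates U → ENNReal.ofReal A ≤ perimeter g U) →
      A * (s₁ - s₀) ≤ ∫ x in cAnn ρ r ∩ {x | s₀ ≤ W x ∧ W x ≤ s₁},
        len g x (grad W x) * volDen g x

/-- PER: the infimum of the areas is at most the mean area of the level sets. -/
def Stmt_PER : Prop :=
  ∀ (g : TensorField) (w : E3 → ℝ) (G : E3 → Cov) (M : E3 → Bil) (α ρ r β s₀ s₁ : ℝ),
    MetricOn {0}ᶜ g → 0 < α → α < ρ → ρ < r → r < β → s₀ < s₁ →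
    H2On (Ann α β) w G M → (∀ x ∈ Ann α β, ‖x‖ ≤ ρ → w x < s₀) →
    (∀ x ∈ Ann α β, r ≤ ‖x‖ → s₁ < w x) →
    ∀ A : ℝ, (∀ U : Set E3, Separates U → ENNReal.ofReal A ≤ perimeter g U) →
      A * (s₁ - s₀) ≤ ∫ x in cAnn ρ r ∩ {x | s₀ ≤ w x ∧ w x ≤ s₁},
        len g x (G x) * volDen g x

/-- TSTA: the main test function. -/
def Stmt_TSTA : Prop :=
  ∀ ε : ℝ, 0 < ε → ε ≤ 1 / 2 → ∃ C : ℝ, 0 < C ∧
    ∀ (Ω : Set E3) (vol w X Φ D S : E3 → ℝ) (sb s₂ sM B₁ B₂ : ℝ),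
      Abs ε Ω vol w X Φ D S sb s₂ sM B₁ B₂ → 0 < sb → sb ≤ 1 → sb < s₂ → 0 ≤ B₁ → 0 ≤ B₂ →
      ∀ se : ℝ, s₂ + 1 ≤ se → se + 1 < sM → ∃ χ : ℝ → ℝ, Continuous χ ∧
        (∀ s, 0 ≤ χ s ∧ χ s ≤ 1) ∧ (∀ s, s ≤ sb / 2 → χ s = 0) ∧
        (∀ s, sb ≤ s → s ≤ s₂ → χ s = 1) ∧
        (∀ s, s₂ ≤ s → s ≤ se → Real.exp (-(lam ε / 2 * (s - s₂))) ≤ χ s) ∧
        (∀ s, se + 1 ≤ s → χ s = 0) ∧
        4 * Real.pi * (2 - ε)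
          + ∫ x in Ω, χ (w x) * Real.exp (w x / (2 - ε)) * (S x + D x / 2) * vol x
          ≤ C * (B₂ / sb ^ 2 + (1 + B₁) * Real.exp (s₂ / (2 - ε))
            * Real.exp (-((lam ε / 2 - 1 / (2 - ε)) * (se - s₂))))

/-- TSTB: the test function for the upper bound of the cubic integral. -/
def Stmt_TSTB : Prop :=
  ∀ (ε : ℝ) (β : ℝ → ℝ), 0 < ε → ε ≤ 1 / 2 → IsBump β → ∃ C : ℝ, 0 < C ∧
    ∀ (Ω : Set E3) (vol w X Φ D S : E3 → ℝ) (sb s₂ sM B₁ B₂ : ℝ),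
      Abs ε Ω vol w X Φ D S sb s₂ sM B₁ B₂ → 0 < sb → sb ≤ 1 → sb < s₂ → 0 ≤ B₁ → 0 ≤ B₂ →
      ∀ L N : ℝ, 1 ≤ L → s₂ + L + 1 < sM →
        (∫ x in Ω ∩ {x | sb / 2 < w x ∧ w x < s₂ + L + 1},
          Real.exp (w x / (2 - ε)) * max (-S x) 0 * vol x) ≤ N →
        ∫ x in Ω, β (w x - s₂) * X x ^ 3 * vol x ≤ 4 * Real.pi * (2 - ε) ^ 2
          + C * (Real.exp (-(s₂ / (2 - ε))) * (N + B₂ / sb ^ 2) + Real.exp (-(L / ε)) * B₁)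

/-- FLXA: monotonicity of the flux. -/
def Stmt_FLXA : Prop :=
  ∀ (ε : ℝ) (β : ℝ → ℝ), 0 < ε → ε ≤ 1 / 2 → IsBump β →
    ∀ (Ω : Set E3) (vol w X Φ D S : E3 → ℝ) (sb s₂ sM B₁ B₂ : ℝ),
      Abs ε Ω vol w X Φ D S sb s₂ sM B₁ B₂ → 0 < sb → sb < s₂ → s₂ + 1 < sM →
      0 ≤ jInf ε β Ω vol w X s₂ ∧
      ∀ σ₁ σ₂ : ℝ, sb / 4 < σ₁ → σ₁ ≤ σ₂ → σ₂ ≤ s₂ →
        ∫ x in Ω ∩ {x | σ₁ ≤ w x ∧ w x ≤ σ₂}, X x ^ (1 + ε) * vol x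
          ≤ jInf ε β Ω vol w X s₂ * (Real.exp σ₂ - Real.exp σ₁)

/-- HOLA: Hölder's inequality on level regions. -/
def Stmt_HOLA : Prop :=
  ∀ (ε : ℝ) (T : Set E3) (vol X : E3 → ℝ) (I V : ℝ), 0 < ε → ε ≤ 1 → MeasurableSet T →
    (∀ x, 0 ≤ vol x) → (∀ x, 0 ≤ X x) → IntegrableOn vol T →
    IntegrableOn (fun x => X x ^ (1 + ε) * vol x) T → AEStronglyMeasurable X (volume.restrict T) →
    (∫ x in T, X x ^ (1 + ε) * vol x) ≤ I → (∫ x in T, vol x) ≤ V →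
    IntegrableOn (fun x => X x * vol x) T ∧
    ∫ x in T, X x * vol x ≤ I ^ (1 / (1 + ε)) * V ^ (ε / (1 + ε))

/-- JUP: upper bound for the flux. -/
def Stmt_JUP : Prop :=
  ∀ (ε : ℝ) (β : ℝ → ℝ), 0 < ε → ε ≤ 1 / 2 → IsBump β → ∃ C : ℝ, 0 < C ∧
    ∀ (Ω : Set E3) (vol w X Φ D S : E3 → ℝ) (sb s₂ sM B₁ B₂ V : ℝ),
      Abs ε Ω vol w X Φ D S sb s₂ sM B₁ B₂ → 0 < sb → sb < s₂ → s₂ + 1 < sM →
      (∫ x in Ω ∩ {x | s₂ < w x ∧ w x < s₂ + 1}, vol x) ≤ V →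
      jInf ε β Ω vol w X s₂ ≤ C * Real.exp (-s₂) * B₁ ^ ((1 + ε) / 3) * V ^ ((2 - ε) / 3)

/-- JL: the flux and the constant value of the weight. -/
def Stmt_JL : Prop :=
  ∀ (ε θ : ℝ) (β : ℝ → ℝ), 0 < ε → ε ≤ 1 / 2 → 0 < θ → θ < 1 → IsBump β → ∃ C : ℝ, 0 < C ∧
    ∀ (Ω 𝒜 : Set E3) (vol w X : E3 → ℝ) (s₂ lm N : ℝ), MeasurableSet Ω → MeasurableSet 𝒜 →
      (∀ x, 0 ≤ vol x) → (∀ x, 0 ≤ X x) → Measurable w → Measurable vol →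
      AEStronglyMeasurable X (volume.restrict Ω) → 𝒜 ⊆ Ω →
      Ω ∩ {x | s₂ < w x ∧ w x < s₂ + 1} ⊆ 𝒜 → 0 ≤ lm → IntegrableOn vol 𝒜 →
      IntegrableOn (fun x => X x ^ 3 * vol x) 𝒜 →
      IntegrableOn (fun x => (Real.sqrt (Real.exp (w x / (2 - ε)) * X x) - Real.sqrt lm) ^ 2
        * vol x) 𝒜 →
      (∫ x in 𝒜, (Real.sqrt (Real.exp (w x / (2 - ε)) * X x) - Real.sqrt lm) ^ 2 * vol x) ≤ N →
      jInf ε β Ω vol w X s₂ * lm ^ (2 - ε)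
        ≤ θ ^ (-(2 * (2 - ε))) * (∫ x in Ω, β (w x - s₂) * X x ^ 3 * vol x)
          + C * Real.exp (-(3 * s₂ / (2 - ε))) * lm ^ 2 * N

/-- LIM: the limit `τ → 0`, `ε → 0`. -/
def Stmt_LIM : Prop :=
  ∀ (g : TensorField) (m V : ℝ), 0 < V →
    (∀ ε τ : ℝ, 0 < ε → ε ≤ 1 / 2 → 0 < τ → ∃ lm J : ℝ, 0 < lm ∧ 0 ≤ J ∧
      4 * Real.pi * (2 - ε) - τ ≤ 8 * Real.pi * m * lm ∧
      J * lm ^ (2 - ε) ≤ 4 * Real.pi * (2 - ε) ^ 2 + τ ∧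
      ∀ s₀ s₁ A : ℝ, ε ≤ s₀ → s₀ < s₁ → s₁ ≤ 1 →
        (∀ U : Set E3, Separates U → ENNReal.ofReal A ≤ perimeter g U) →
        A * (s₁ - s₀) ≤ (J * (Real.exp s₁ - Real.exp s₀)) ^ (1 / (1 + ε)) * V ^ (ε / (1 + ε))) →
    minArea g ≠ ⊤ ∧ Real.sqrt ((minArea g).toReal / (16 * Real.pi)) ≤ m

end Pool.Agent.PFlow
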