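import Pool.Agent.PFlow.DefsH
import Pool.Agent.PFlow.StmtsE2
import Pool.Agent.PFlow.Pt

/-!
# Statements of the modules of the energy block, part 3: assembly
-/

open MeasureTheory Filter Topology
open scoped ContDiff ENNReal

namespace Pool.Agent.PFlow

open Pool.Agent.PenroseSph

/-- MODM: the constant of the modified data may be increased. -/
def Stmt_MODM : Prop :=
  ∀ (g h : TensorField) (C C' l R : ℝ) (g' h' : TensorField) (e : E3 → ℝ), 0 < l → 0 < R → C ≤ C' →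
    Modified g h C l R g' h' e → Modified g h C' l R g' h' e

/-- SETW: the function `w` and its levels. -/
def Stmt_SETW : Prop :=
  ∀ (P : Par) (D : Dat), Setup P D →
    MetricOn D.Om D.g' ∧ TensorOn D.Om D.h' ∧ TwoNonneg D.Om D.g' D.h' ∧
    H2On D.Om (D.w P) (D.Gw P) (D.Mw P) ∧ EqW D.Om P.eps D.g' D.h' (D.Gw P) (D.Mw P) ∧
    NoIsland D.Om (D.w P) ∧ Measurable (D.w P) ∧
    Sep (1 / D.R) D.R (D.sb P / 4) (D.sM P) (D.w P) ∧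
    Sep (2 * D.l) D.R (D.s2 P) (D.sM P) (D.w P) ∧
    (∀ x ∈ D.Om, D.w P x < D.sM P → ‖x‖ < D.R / 2) ∧
    (∀ x ∈ D.Om, D.s2 P ≤ D.w P x → 4 * D.l ≤ ‖x‖) ∧
    (∀ x ∈ D.Om, 1 / (4 * D.l) < ‖x‖ → D.sb P < D.w P x) ∧
    (∀ x : E3, D.l / 4 ≤ ‖x‖ → ‖x‖ ≤ D.Kl P → D.w P x ≤ D.s2 P + 1 + 2 * P.gam) ∧
    (∀ x ∈ D.Om, D.w P x < D.s2 P + 1 → ‖x‖ ≤ D.Kl P) ∧
    (∀ s s', D.sb P / 4 < s → s' < D.sM P → ∃ K : Set E3, IsCompact K ∧ K ⊆ D.Om ∧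
      D.Om ∩ {x | s ≤ D.w P x ∧ D.w P x ≤ s'} ⊆ K) ∧
    0 < D.sb P ∧ D.sb P ≤ 1 ∧ D.sb P < P.eps ∧ 1 < D.s2 P ∧ D.s2 P + 4 + 4 * P.gam < D.sM P ∧
    2 * D.Kl P ≤ D.R ∧ 4 * D.l ≤ D.Kl P

/-- ABSI: integrability over the level regions. -/
def Stmt_ABSI : Prop :=
  ∀ (P : Par) (D : Dat), Setup P D →
    LvlInt P D D.vol ∧ LvlInt P D (fun x => D.X P x ^ 3 * D.vol x) ∧
    LvlInt P D (fun x => D.Phi P x * D.vol x) ∧ LvlInt P D (fun x => D.Di P x * D.vol x) ∧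
    LvlInt P D (fun x => D.Su P x * D.vol x) ∧
    LvlInt P D (fun x => D.X P x * matter D.g' D.h' x (D.Gw P x) * D.vol x) ∧
    (∀ᵐ x ∂(volume.restrict D.Om), 0 ≤ D.Di P x) ∧
    AEStronglyMeasurable (D.X P) (volume.restrict D.Om)

/-- ABSM: the level set inequality. -/
def Stmt_ABSM : Prop :=
  ∀ (P : Par) (D : Dat), Setup P D →
    ∀ ψ : ℝ → ℝ, ContDiff ℝ 1 ψ → (∀ s, 0 ≤ ψ s) → HasCompactSupport ψ →
      tsupport ψ ⊆ Set.Ioo (D.sb P / 4) (D.sM P) →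
      -(∫ x in D.Om, deriv ψ (D.w P x) * D.Phi P x * D.vol x) ≤ 4 * Real.pi * (∫ s, ψ s)
        - 1 / (2 - P.eps) * (∫ x in D.Om, ψ (D.w P x) * D.Phi P x * D.vol x)
        - ∫ x in D.Om, ψ (D.w P x) * (D.Su P x + D.Di P x) * D.vol x

/-- XWO: the cubic integral over the outer windows. -/
def Stmt_XWO : Prop :=
  ∀ P : Par, ∃ B : ℝ, 0 < B ∧ ∀ D : Dat, Setup P D →
    ∀ s, D.s2 P ≤ s → s + 1 ≤ D.sM P →
      ∫ x in D.Om ∩ {x | s < D.w P x ∧ D.w P x < s + 1}, D.X P x ^ 3 * D.vol x ≤ B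

/-- XWI: the flux density over the inner window. -/
def Stmt_XWI : Prop :=
  ∀ P : Par, ∃ B l₁ : ℝ, 0 < B ∧ 1 ≤ l₁ ∧ ∀ D : Dat, Setup P D → l₁ ≤ D.l →
    ∀ (ψ : ℝ → ℝ) (A : ℝ), ContDiff ℝ 1 ψ → HasCompactSupport ψ →
      tsupport ψ ⊆ Set.Ioo (D.sb P / 4) (D.sb P) → (∀ s, |ψ s| ≤ A ∧ |deriv ψ s| ≤ A) →
      |∫ x in D.Om, ψ (D.w P x) * D.Phi P x * D.vol x| ≤ B * D.l ^ (-(2 * pe P.eps + 1)) * A

/-- ABSX: the identity of the flux density in the flat region. -/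
def Stmt_ABSX : Prop :=
  ∀ (P : Par) (D : Dat), Setup P D →
    ∀ ψ : ℝ → ℝ, ContDiff ℝ 1 ψ → HasCompactSupport ψ →
      tsupport ψ ⊆ Set.Ioo (D.s2 P) (D.sM P) →
      ∫ x in D.Om, ψ (D.w P x) * D.Phi P x * D.vol x
        = 1 / (2 - P.eps) * ∫ x in D.Om, (ψ (D.w P x) + P.eps * deriv ψ (D.w P x))
            * D.X P x ^ 3 * D.vol x

/-- ABSW: Willmore's inequality in the flat region. -/
def Stmt_ABSW : Prop :=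
  ∀ (P : Par) (D : Dat), Setup P D →
    ∀ ψ : ℝ → ℝ, Continuous ψ → (∀ s, 0 ≤ ψ s) → HasCompactSupport ψ →
      tsupport ψ ⊆ Set.Ioo (D.s2 P) (D.sM P) →
      4 * Real.pi * (2 - P.eps) * (∫ s, ψ s) - ∫ x in D.Om, ψ (D.w P x) * D.Phi P x * D.vol x
        ≤ 1 / lam P.eps * ∫ x in D.Om, ψ (D.w P x) * D.Di P x * D.vol x

/-- ABSF: the flux inequality. -/
def Stmt_ABSF : Prop :=
  ∀ (P : Par) (D : Dat), Setup P D →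
    ∀ ψ : ℝ → ℝ, ContDiff ℝ 1 ψ → (∀ s, 0 ≤ ψ s) → HasCompactSupport ψ →
      tsupport ψ ⊆ Set.Ioo (D.sb P / 4) (D.sM P) →
      ∫ x in D.Om, deriv ψ (D.w P x) * (Real.exp (-D.w P x) * D.X P x ^ (1 + P.eps)) * D.vol x ≤ 0

/-- ABS: the abstract facts. -/
def Stmt_ABS : Prop :=
  ∀ P : Par, ∃ B l₁ : ℝ, 0 < B ∧ 1 ≤ l₁ ∧ ∀ D : Dat, Setup P D → l₁ ≤ D.l → AbsOf P D B

/-- UPH: upper bounds for the flux and the weight. -/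
def Stmt_UPH : Prop :=
  ∀ (P : Par) (B : ℝ) (β : ℝ → ℝ), IsBump β → ∃ B' : ℝ, 0 < B' ∧ ∀ D : Dat, Setup P D →
    AbsOf P D B →
    jInf P.eps β D.Om D.vol (D.w P) (D.X P) (D.s2 P) ≤ B' ∧
    IntegrableOn (D.ph P) (cAnn (D.l / 4) (D.Kl P)) ∧
    (∫ x in cAnn (D.l / 4) (D.Kl P), D.ph P x) ≤ B' * D.l ^ 3

/-- DEFE: the total defect is small. -/
def Stmt_DEFE : Prop :=
  ∀ (P : Par) (B : ℝ) (g : TensorField) (l : ℝ), ∃ B' : ℝ, 0 < B' ∧ ∀ D : Dat, Setup P D →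
    AbsOf P D B → D.g = g → D.l = l →
    IntegrableOn (fun x => D.ph P x * D.e x * D.vol x)
      (cAnn (P.kap / D.l) D.l ∩ {x | D.sb P / 2 ≤ D.w P x}) ∧
    0 ≤ D.Nd P ∧
    D.Nd P ≤ B' * (∫ x in cAnn (P.kap / D.l) D.l, D.e x ^ ((1 + P.eps) / P.eps))
      ^ (P.eps / (1 + P.eps))

/-- MATL: lower bound for the matter term. -/
def Stmt_MATL : Prop :=
  ∀ (P : Par) (B : ℝ), ∃ B' : ℝ, 0 < B' ∧ ∀ D : Dat, Setup P D → AbsOf P D B →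
    (∀ (χ : ℝ → ℝ) (se : ℝ), Continuous χ → (∀ s, 0 ≤ χ s ∧ χ s ≤ 1) →
      (∀ s, s ≤ D.sb P / 2 → χ s = 0) → (∀ s, D.sb P ≤ s → s ≤ D.s2 P → χ s = 1) →
      se + 1 < D.sM P → (∀ s, se + 1 ≤ s → χ s = 0) →
      -(D.Nd P) - B' * (∫ x in cAnn (D.l / 2) D.l,
            D.ph P x * (msz (D.h x) / D.l + msz (D.h x) ^ 2))
          + 1 / 2 * (∫ x in cAnn D.l (2 * D.l), D.ph P x * linR D.g' x)
          - B' / D.l ^ 4 * (∫ x in cAnn D.l (2 * D.l), D.ph P x)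
        ≤ ∫ x in D.Om, χ (D.w P x) * Real.exp (D.w P x / (2 - P.eps)) * D.Su P x * D.vol x) ∧
    (∀ t : ℝ, t < D.sM P →
      (∫ x in D.Om ∩ {x | D.sb P / 2 < D.w P x ∧ D.w P x < t},
        Real.exp (D.w P x / (2 - P.eps)) * max (-D.Su P x) 0 * D.vol x)
      ≤ D.Nd P + B' / D.l ^ 3 * ∫ x in cAnn (D.l / 2) (2 * D.l), D.ph P x)

/-- ENER: the energy bound. -/
def Stmt_ENER : Prop :=
  ∀ (P : Par) (B : ℝ), ∃ B' : ℝ, 0 < B' ∧ ∀ D : Dat, Setup P D → AbsOf P D B →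
    ∀ se : ℝ, Cut P D se →
      IntegrableOn (fun x => Real.exp (D.w P x / (2 - P.eps)) * D.Di P x * D.vol x)
        (cAnn (D.l / 4) (D.Kl P)) ∧
      (∫ x in cAnn (D.l / 4) (D.Kl P), Real.exp (D.w P x / (2 - P.eps)) * D.Di P x * D.vol x)
        ≤ B'

/-- WGTE: the weight is almost constant. -/
def Stmt_WGTE : Prop :=
  ∀ (P : Par) (B : ℝ), ∃ B' : ℝ, 0 < B' ∧ ∀ D : Dat, Setup P D → AbsOf P D B →
    ∀ se : ℝ, Cut P D se → ∃ lm : ℝ, Lam P D B' lm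

/-- MSI: the mass inequality (i). -/
def Stmt_MSI : Prop :=
  ∀ (P : Par) (B B₃ : ℝ), ∃ B' : ℝ, 0 < B' ∧ ∀ D : Dat, Setup P D → AbsOf P D B →
    ∀ se lm : ℝ, Cut P D se → Lam P D B₃ lm →
      4 * Real.pi * (2 - P.eps) ≤ 8 * Real.pi * massIntegral D.g D.l * lm
        + B' * (D.l ^ (-(1 / 2 : ℝ)) + D.th + D.Nd P + D.er P se)

/-- MSII: the inequality (ii) for the flux. -/
def Stmt_MSII : Prop :=
  ∀ (P : Par) (B B₃ θ : ℝ) (β : ℝ → ℝ), 0 < θ → θ < 1 → IsBump β → ∃ B' : ℝ, 0 < B' ∧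
    ∀ D : Dat, Setup P D → AbsOf P D B → ∀ se lm L : ℝ, Cut P D se → Lam P D B₃ lm → 1 ≤ L →
      D.s2 P + L + 1 < D.sM P →
      jInf P.eps β D.Om D.vol (D.w P) (D.X P) (D.s2 P) * lm ^ (2 - P.eps)
        ≤ θ ^ (-(2 * (2 - P.eps))) * (4 * Real.pi * (2 - P.eps) ^ 2)
          + B' * (1 / D.l + Real.exp (-(L / P.eps)))

/-- MSIII: the inequality (iii) for the area. -/
def Stmt_MSIII : Prop :=
  ∀ (P : Par) (B : ℝ) (β : ℝ → ℝ), IsBump β → ∀ D : Dat, Setup P D → AbsOf P D B →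
    ∀ ρ r : ℝ, 1 / D.R < ρ → 1 / (16 * D.R) < ρ → ρ < 1 → 1 < r → r < D.l →
      (∀ x ∈ D.Om, (‖x‖ ≤ ρ → D.w P x < P.eps) ∧ (r ≤ ‖x‖ → 1 < D.w P x)) →
      0 ≤ jInf P.eps β D.Om D.vol (D.w P) (D.X P) (D.s2 P) ∧
      ∀ s₀ s₁ A : ℝ, P.eps ≤ s₀ → s₀ < s₁ → s₁ ≤ 1 →
        (∀ U : Set E3, Separates U → ENNReal.ofReal A ≤ perimeter D.g U) →
        A * (s₁ - s₀) ≤
          (jInf P.eps β D.Om D.vol (D.w P) (D.X P) (D.s2 P) * (Real.exp s₁ - Real.exp s₀))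
              ^ (1 / (1 + P.eps))
            * (∫ x in cAnn ρ r, volDen D.g x) ^ (P.eps / (1 + P.eps))

/-- BETA: a bump function exists. -/
def Stmt_BETA : Prop := ∃ β : ℝ → ℝ, IsBump β

/-- EXI1: for given data, `ε` and small error, existence of a setup with a cut. -/
def Stmt_EXI1 : Prop :=
  ∀ g h : TensorField, TwoEnded g h → DominantEnergy 0 g h → PlaneSign g h →
    ∃ C ρ r : ℝ, 0 < C ∧ 0 < ρ ∧ ρ < 1 ∧ 1 < r ∧ ∀ ε : ℝ, 0 < ε → ε ≤ 1 / 2 →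
      ∃ (P : Par) (B l₀ : ℝ), P.eps = ε ∧ 0 < B ∧ 4 ≤ l₀ ∧ r < l₀ ∧
        ∀ l τ L : ℝ, l₀ ≤ l → 0 < τ → 1 ≤ L →
          ∃ (D : Dat) (se : ℝ), D.g = g ∧ D.h = h ∧ D.l = l ∧ Setup P D ∧ AbsOf P D B ∧
            Cut P D se ∧ D.Nd P ≤ τ ∧ D.er P se ≤ τ ∧ D.s2 P + L + 1 < D.sM P ∧
            1 / D.R < ρ ∧
            (∀ x ∈ D.Om, (‖x‖ ≤ ρ → D.w P x < P.eps) ∧ (r ≤ ‖x‖ → 1 < D.w P x))

/-- EPS: the three inequalities for fixed `ε`. -/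
def Stmt_EPS : Prop :=
  ∀ (g h : TensorField) (m : ℝ), TwoEnded g h → DominantEnergy 0 g h → PlaneSign g h →
    Tendsto (fun l : ℝ => ∫ x in cAnn (l / 2) l, msz (h x) / l) atTop (𝓝 0) →
    IsTotalMass g m → ∃ V : ℝ, 0 < V ∧
    ∀ ε τ : ℝ, 0 < ε → ε ≤ 1 / 2 → 0 < τ → ∃ lm J : ℝ, 0 < lm ∧ 0 ≤ J ∧
      4 * Real.pi * (2 - ε) - τ ≤ 8 * Real.pi * m * lm ∧
      J * lm ^ (2 - ε) ≤ 4 * Real.pi * (2 - ε) ^ 2 + τ ∧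
      ∀ s₀ s₁ A : ℝ, ε ≤ s₀ → s₀ < s₁ → s₁ ≤ 1 →
        (∀ U : Set E3, Separates U → ENNReal.ofReal A ≤ perimeter g U) →
        A * (s₁ - s₀) ≤ (J * (Real.exp s₁ - Real.exp s₀)) ^ (1 / (1 + ε)) * V ^ (ε / (1 + ε))

end Pool.Agent.PFlow
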