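import Pool.Agent.PFlow.StmtsM

/-!
# AP: approximation with small residual
-/

open MeasureTheory Filter Topology
open scoped ContDiff

namespace Pool.Agent.PFlow

open Pool.Agent.PenroseSph

namespace MAP

/-! ### Measurability -/

theorem contOn_entry {U : Set E3} {g : TensorField} (hg : ∀ i j, ContDiffOn ℝ ∞ (fun x => g x i j) U) :
    ContinuousOn (fun x => (g x : Bil)) U := by
  apply continuousOn_pi.mpr
  intro i
  apply continuousOn_pi.mpr
  intro j
  exact (hg i j).continuousOn

theorem contOn_inv {U : Set E3} {g : TensorField} (hg : MetricOn U g) (i j : Fin 3) :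
    ContinuousOn (fun x => (g x)⁻¹ i j) U := by
  have h0 := contOn_entry hg.smooth
  have h1 : ContinuousOn (fun x => (g x).adjugate) U :=
    (Continuous.matrix_adjugate continuous_id).comp_continuousOn h0
  have h2 : ContinuousOn (fun x => (g x).det) U :=
    (Continuous.matrix_det continuous_id).comp_continuousOn h0
  have h3 : ContinuousOn (fun x => ((g x).det)⁻¹ * (g x).adjugate i j) U := by
    refine (h2.inv₀ fun x hx => (hg.posDef x hx).det_pos.ne').mul ?_
    exact (continuousOn_pi.mp (continuousOn_pi.mp h1 i)) j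
  refine h3.congr fun x _ => ?_
  rw [Matrix.inv_def, Matrix.smul_apply, smul_eq_mul, Ring.inverse_eq_inv']

theorem contOn_pd {U : Set E3} (hU : IsOpen U) {f : E3 → ℝ} (hf : ContDiffOn ℝ ∞ f U)
    (i : Fin 3) : ContinuousOn (pd i f) U := by
  have h1 : ContinuousOn (fderiv ℝ f) U := hf.continuousOn_fderiv_of_isOpen hU (by simp)
  exact h1.clm_apply continuousOn_const

theorem contOn_chr {U : Set E3} (hU : IsOpen U) {g : TensorField} (hg : MetricOn U g)
    (k i j : Fin 3) : ContinuousOn (fun x => christoffel g k i j x) U := by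
  unfold christoffel
  refine continuousOn_const.mul (continuousOn_finsetSum _ fun l _ => ?_)
  refine (contOn_inv hg k l).mul ?_
  exact ((contOn_pd hU (hg.smooth j l) i).add (contOn_pd hU (hg.smooth i l) j)).sub
    (contOn_pd hU (hg.smooth i j) l)

section

variable {μ : Measure E3} {P B B' : E3 → Bil} {p q : E3 → Cov}

theorem am_sum {f : Fin 3 → E3 → ℝ} (hf : ∀ i, AEMeasurable (f i) μ) :
    AEMeasurable (fun x => ∑ i, f i x) μ :=
  Finset.aemeasurable_fun_sum _ fun i _ => hf i

theorem am_ev (hP : ∀ i j, AEMeasurable (fun x => P x i j) μ)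
    (hp : ∀ i, AEMeasurable (fun x => p x i) μ) (hq : ∀ i, AEMeasurable (fun x => q x i) μ) :
    AEMeasurable (fun x => ev (P x) (p x) (q x)) μ := by
  unfold ev
  exact am_sum fun i => am_sum fun j => ((hP i j).mul (hp i)).mul (hq j)

end

/-- The residual is measurable. -/
theorem am_resid {U : Set E3} {g h : TensorField} (ε : ℝ) (hU : IsOpen U) (hg : MetricOn U g)
    (hh : TensorOn U h) {K : Set E3} (hK : IsCompact K) (hKU : K ⊆ U) {p : E3 → Cov}
    {M : E3 → Bil} (hp : ∀ i, Continuous (fun x => p x i))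
    (hM : ∀ i j, Continuous (fun x => M x i j)) :
    AEMeasurable (fun x => resid ε g h x (p x) (M x)) (volume.restrict K) := by
  have tr : ∀ {f : E3 → ℝ}, ContinuousOn f U → AEMeasurable f (volume.restrict K) :=
    fun {f} hf => (hf.mono hKU).aemeasurable hK.measurableSet
  have hp' : ∀ i, AEMeasurable (fun x => p x i) (volume.restrict K) :=
    fun i => (hp i).measurable.aemeasurable
  have hM' : ∀ i j, AEMeasurable (fun x => M x i j) (volume.restrict K) :=
    fun i j => (hM i j).measurable.aemeasurable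
  have hP : ∀ i j, AEMeasurable (fun x => (g x)⁻¹ i j) (volume.restrict K) :=
    fun i j => tr (contOn_inv hg i j)
  have hG : ∀ k i j, AEMeasurable (fun x => christoffel g k i j x) (volume.restrict K) :=
    fun k i j => tr (contOn_chr hU hg k i j)
  have hH : ∀ i j, AEMeasurable (fun x => h x i j) (volume.restrict K) :=
    fun i j => tr (hh.smooth i j).continuousOn
  have hC : ∀ i j, AEMeasurable (fun x => cHess g x (p x) (M x) i j) (volume.restrict K) := by
    intro i j
    unfold cHess
    simp only [Matrix.of_apply]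
    exact (hM' i j).sub (am_sum fun k => (hG k i j).mul (hp' k))
  have hR : ∀ i, AEMeasurable (fun x => raise g x (p x) i) (volume.restrict K) := by
    intro i
    unfold raise
    exact am_sum fun j => (hP i j).mul (hp' j)
  have hL : AEMeasurable (fun x => len g x (p x)) (volume.restrict K) := by
    unfold len
    exact (am_ev hP hp' hp').sqrt
  have hN : ∀ i, AEMeasurable (fun x => nrm g x (p x) i) (volume.restrict K) := by
    intro i
    unfold nrm
    exact (hR i).div hL
  have hB : ∀ {B : E3 → Bil}, (∀ i j, AEMeasurable (fun x => B x i j) (volume.restrict K)) →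
      AEMeasurable (fun x => beps ε g x (p x) (B x)) (volume.restrict K) := by
    intro B hB
    unfold beps bnn trg
    exact (am_sum fun i => am_sum fun j => (hP i j).mul (hB i j)).sub
      ((am_ev hB hN hN).const_mul _)
  unfold resid
  exact ((hB hC).sub (hL.pow_const 2)).sub (hL.mul (hB hH))

theorem am_vn {μ : Measure E3} {p : E3 → Cov} (hp : ∀ i, AEMeasurable (fun x => p x i) μ) :
    AEMeasurable (fun x => vn (p x)) μ := by
  unfold vn vsq
  exact (am_sum fun i => (hp i).pow_const 2).sqrt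

/-! ### Linear perturbations -/

/-- The function `v + ⟨a, x⟩`. -/
noncomputable def pert (v : E3 → ℝ) (a : E3) (x : E3) : ℝ := v x + innerSL ℝ a x

theorem pert_smooth {v : E3 → ℝ} (hv : ContDiff ℝ ∞ v) (a : E3) : ContDiff ℝ ∞ (pert v a) :=
  hv.add (innerSL ℝ a).contDiff

theorem pd_pert {v : E3 → ℝ} (hv : ContDiff ℝ ∞ v) (a : E3) (i : Fin 3) (x : E3) :
    pd i (pert v a) x = pd i v x + a i := by
  have h1 : HasFDerivAt v (fderiv ℝ v x) x :=
    ((hv.differentiable (by simp)) x).hasFDerivAt
  have h2 : HasFDerivAt (pert v a) (fderiv ℝ v x + innerSL ℝ a) x :=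
    h1.add (innerSL ℝ a).hasFDerivAt
  unfold pd
  rw [h2.fderiv, add_apply, innerSL_apply_apply,
    EuclideanSpace.inner_single_right]
  simp

theorem pd2_pert {v : E3 → ℝ} (hv : ContDiff ℝ ∞ v) (a : E3) (i j : Fin 3) (x : E3) :
    pd i (pd j (pert v a)) x = pd i (pd j v) x := by
  have h1 : pd j (pert v a) = fun x => pd j v x + a j := by
    funext y
    exact pd_pert hv a j y
  rw [h1]
  unfold pd
  rw [fderiv_add_const]

theorem grad_pert {v : E3 → ℝ} (hv : ContDiff ℝ ∞ v) (a : E3) (x : E3) :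
    grad (pert v a) x = fun i => pd i v x + a i := by
  funext i
  exact pd_pert hv a i x

theorem hess2_pert {v : E3 → ℝ} (hv : ContDiff ℝ ∞ v) (a : E3) (x : E3) :
    hess2 (pert v a) x = hess2 v x := by
  ext i j
  exact pd2_pert hv a i j x

theorem cont_pd {v : E3 → ℝ} (hv : ContDiff ℝ ∞ v) (i : Fin 3) : Continuous (pd i v) := by
  have h1 := contOn_pd isOpen_univ (contDiffOn_univ.mpr hv) i
  exact continuousOn_univ.mp h1

theorem smooth_pd {v : E3 → ℝ} (hv : ContDiff ℝ ∞ v) (i : Fin 3) : ContDiff ℝ ∞ (pd i v) := by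
  have h1 : ContDiff ℝ ∞ (fderiv ℝ v) := hv.fderiv_right (by simp)
  exact h1.clm_apply contDiff_const

/-- Markov's inequality (no measurability needed). -/
theorem markov {V : Set E3} (hV0 : volume V ≠ 0) (hV1 : volume V ≠ ⊤) (hVm : MeasurableSet V)
    {F : E3 → ENNReal} {e : ℝ} (he : 0 < e)
    (h : ∫⁻ a in V, F a ≤ ENNReal.ofReal e * volume V) {Q : E3 → Prop} (hQ : ∀ᵐ a : E3, Q a) :
    ∃ a ∈ V, Q a ∧ F a ≤ ENNReal.ofReal (2 * e) := by
  by_contra hcon
  push Not at hcon
  have h1 : ∫⁻ _ in V, ENNReal.ofReal (2 * e) ≤ ∫⁻ a in V, F a := by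
    apply lintegral_mono_ae
    rw [ae_restrict_iff' hVm]
    filter_upwards [hQ] with a ha haV
    exact (hcon a haV ha).le
  rw [lintegral_const, Measure.restrict_apply_univ] at h1
  have h2 := h1.trans h
  rw [ENNReal.mul_le_mul_iff_left hV0 hV1, ENNReal.ofReal_le_ofReal_iff he.le] at h2
  linarith

/-- One step of the approximation. -/
theorem step (hAV : Stmt_AV) (hMO : Stmt_MO) (ε : ℝ) (U : Set E3) (g h : TensorField)
    (w : E3 → ℝ) (G : E3 → Cov) (M : E3 → Bil) (hε0 : 0 < ε) (hε1 : ε < 1) (hU : IsOpen U)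
    (hg : MetricOn U g) (hh : TensorOn U h) (hw : H2s U w G M) (hEq : EqW U ε g h G M)
    (hint : ∀ K : Set E3, IsCompact K → K ⊆ U → IntegrableOn (fun x => msq (M x) / vn (G x)) K)
    (K : Set E3) (hK : IsCompact K) (hKU : K ⊆ U) (e : ℝ) (he : 0 < e) :
    ∃ v : E3 → ℝ, ContDiff ℝ ∞ v ∧ (∀ x ∈ K, |v x - w x| < e) ∧
      (∀ i, eLpNorm (fun x => pd i v x - G x i) 4 (volume.restrict K) ≤ ENNReal.ofReal e) ∧
      (∀ i j, eLpNorm (fun x => pd i (pd j v) x - M x i j) 2 (volume.restrict K)
        ≤ ENNReal.ofReal e) ∧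
      {x ∈ K | grad v x = 0}.Finite ∧
      ∫⁻ x in K, ENNReal.ofReal (resid ε g h x (grad v x) (hess2 v x) ^ 2 / vn (grad v x))
        ≤ ENNReal.ofReal e := by
  obtain ⟨R, hR⟩ := hK.isBounded.exists_norm_le
  have hR' : ∀ x ∈ K, ‖x‖ ≤ |R| := fun x hx => (hR x hx).trans (le_abs_self R)
  obtain ⟨L, hL⟩ : ∃ L : ℝ, L = ((volume.restrict K) Set.univ).toReal ^ (1 / (4 : ENNReal).toReal) :=
    ⟨_, rfl⟩
  have hL0 : 0 ≤ L := by
    rw [hL]
    positivity
  have hR0 : 0 ≤ |R| := abs_nonneg R
  obtain ⟨e', he'⟩ : ∃ e' : ℝ, e' = e / (2 + |R| + L) := ⟨_, rfl⟩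
  have hden : 0 < 2 + |R| + L := by positivity
  have he'0 : 0 < e' := by
    rw [he']
    positivity
  have hsum : e' * (2 + |R| + L) = e := by
    rw [he', div_mul_cancel₀ _ hden.ne']
  have hLe : 0 ≤ e' * L := by positivity
  have hRe : 0 ≤ e' * |R| := by positivity
  obtain ⟨v, r, hv, hr0, hre, h1, h2, h3, h4⟩ :=
    hAV ε U g h w G M hε0 hε1 hU hg hh hw hEq hint K hK hKU e' he'0
  have hball0 : volume (Metric.ball (0 : E3) r) ≠ 0 :=
    (Metric.measure_ball_pos volume _ hr0).ne'
  obtain ⟨a, ha, hfin, hFa⟩ := markov hball0 measure_ball_lt_top.ne measurableSet_ball he'0 h4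
    (hMO v K hv hK)
  have hanorm : ‖a‖ < e' := by
    rw [mem_ball_zero_iff] at ha
    exact ha.trans hre
  refine ⟨pert v a, pert_smooth hv a, ?_, ?_, ?_, ?_, ?_⟩
  · intro x hx
    have h5 : pert v a x - w x = (v x - w x) + innerSL ℝ a x := by
      unfold pert
      ring
    have h6 : |innerSL ℝ a x| ≤ e' * |R| := by
      have h7 : |innerSL ℝ a x| ≤ ‖a‖ * ‖x‖ := by
        rw [innerSL_apply_apply]
        exact abs_real_inner_le_norm a x
      exact h7.trans (mul_le_mul hanorm.le (hR' x hx) (norm_nonneg _) he'0.le)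
    rw [h5]
    have h8 := abs_add_le (v x - w x) (innerSL ℝ a x)
    have h9 := h1 x hx
    nlinarith
  · intro i
    have h5 : (fun x => pd i (pert v a) x - G x i) =
        (fun x => pd i v x - G x i) + fun _ => a i := by
      funext x
      rw [pd_pert hv, Pi.add_apply]
      ring
    rw [h5]
    refine (eLpNorm_add_le ?_ aestronglyMeasurable_const (by norm_num)).trans ?_
    · exact (cont_pd hv i).aestronglyMeasurable.sub (hw.memG K hK hKU i).1
    · have h6 : eLpNorm (fun _ : E3 => a i) 4 (volume.restrict K) ≤ ENNReal.ofReal (e' * L) := by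
        rw [eLpNorm_const' _ (by norm_num) (by norm_num)]
        have h7 : ‖a i‖ₑ ≤ ENNReal.ofReal e' := by
          rw [← ofReal_norm]
          apply ENNReal.ofReal_le_ofReal
          exact (PiLp.norm_apply_le a i).trans hanorm.le
        have h8 : (volume.restrict K) Set.univ ^ (1 / (4 : ENNReal).toReal) =
            ENNReal.ofReal L := by
          rw [hL, ENNReal.toReal_rpow, ENNReal.ofReal_toReal]
          apply ENNReal.rpow_ne_top_of_nonneg (by positivity)
          rw [Measure.restrict_apply_univ]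
          exact hK.measure_lt_top.ne
        rw [h8, ENNReal.ofReal_mul he'0.le]
        gcongr
      refine (add_le_add (h2 i).le h6).trans ?_
      rw [← ENNReal.ofReal_add he'0.le hLe]
      apply ENNReal.ofReal_le_ofReal
      nlinarith
  · intro i j
    have h5 : (fun x => pd i (pd j (pert v a)) x - M x i j) =
        fun x => pd i (pd j v) x - M x i j := by
      funext x
      rw [pd2_pert hv]
    rw [h5]
    refine (h3 i j).le.trans ?_
    apply ENNReal.ofReal_le_ofReal
    nlinarith
  · refine hfin.subset ?_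
    rintro x ⟨hx, hx'⟩
    refine ⟨hx, fun i => ?_⟩
    rw [← pd_pert hv a i x]
    exact congrFun hx' i
  · simp only [grad_pert hv, hess2_pert hv]
    refine hFa.trans ?_
    apply ENNReal.ofReal_le_ofReal
    nlinarith

end MAP

theorem AP (hAV : Stmt_AV) (hMO : Stmt_MO) (_hCT : Stmt_CT) : Stmt_AP := by
  intro ε U g h w G M hε0 hε1 hU hg hh hw hEq hint K hK hKU
  have hstep := fun n : ℕ => MAP.step hAV hMO ε U g h w G M hε0 hε1 hU hg hh hw hEq hint K hK hKU
    (1 / ((n : ℝ) + 1)) (by positivity)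
  choose v hv h1 h2 h3 h4 h5 using hstep
  have hlim : Tendsto (fun n : ℕ => ENNReal.ofReal (1 / ((n : ℝ) + 1))) atTop (𝓝 0) := by
    rw [← ENNReal.ofReal_zero]
    exact ENNReal.tendsto_ofReal tendsto_one_div_add_atTop_nhds_zero_nat
  have hnn : ∀ n x, 0 ≤ resid ε g h x (grad (v n) x) (hess2 (v n) x) ^ 2
      / vn (grad (v n) x) := fun n x => div_nonneg (sq_nonneg _) (Real.sqrt_nonneg _)
  have hm : ∀ n, AEMeasurable (fun x => resid ε g h x (grad (v n) x) (hess2 (v n) x) ^ 2
      / vn (grad (v n) x)) (volume.restrict K) := by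
    intro n
    have hc1 : ∀ i, Continuous (fun x => grad (v n) x i) := fun i => MAP.cont_pd (hv n) i
    have hc2 : ∀ i j, Continuous (fun x => hess2 (v n) x i j) := fun i j =>
      MAP.cont_pd (MAP.smooth_pd (hv n) j) i
    exact ((MAP.am_resid ε hU hg hh hK hKU hc1 hc2).pow_const 2).div
      (MAP.am_vn fun i => (hc1 i).measurable.aemeasurable)
  refine ⟨v, hv, ?_, ?_, ?_, h4, ?_, ?_⟩
  · rw [Metric.tendstoUniformlyOn_iff]
    intro e he
    obtain ⟨N, hN⟩ := exists_nat_one_div_lt he
    filter_upwards [eventually_ge_atTop N] with n hn x hx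
    rw [dist_comm, Real.dist_eq]
    refine (h1 n x hx).trans_le (le_trans ?_ hN.le)
    exact Nat.one_div_le_one_div hn
  · intro i
    exact tendsto_of_tendsto_of_tendsto_of_le_of_le tendsto_const_nhds hlim
      (fun _ => bot_le) (fun n => h2 n i)
  · intro i j
    exact tendsto_of_tendsto_of_tendsto_of_le_of_le tendsto_const_nhds hlim
      (fun _ => bot_le) (fun n => h3 n i j)
  · intro n
    refine ⟨(hm n).aestronglyMeasurable, ?_⟩
    rw [hasFiniteIntegral_iff_ofReal (ae_of_all _ (hnn n))]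
    exact (h5 n).trans_lt ENNReal.ofReal_lt_top
  · have h6 : ∀ n : ℕ, ∫ x in K, resid ε g h x (grad (v n) x) (hess2 (v n) x) ^ 2
        / vn (grad (v n) x) ≤ 1 / ((n : ℝ) + 1) := by
      intro n
      rw [integral_eq_lintegral_of_nonneg_ae (ae_of_all _ (hnn n)) (hm n).aestronglyMeasurable]
      exact ENNReal.toReal_le_of_le_ofReal (by positivity) (h5 n)
    exact tendsto_of_tendsto_of_tendsto_of_le_of_le tendsto_const_nhds
      tendsto_one_div_add_atTop_nhds_zero_nat (fun n => integral_nonneg (hnn n)) h6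

end Pool.Agent.PFlow
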