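import Pool.Agent.PFlow.StmtsM

set_option autoImplicit false

namespace Pool.Agent.PFlow

open Pool.Agent.PenroseSph

private theorem fr_entry (A : Bil) (i j : Fin 3) :
    (A * A.transpose) i j = A i 0 * A j 0 + A i 1 * A j 1 + A i 2 * A j 2 := by
  rw [Matrix.mul_apply, Fin.sum_univ_three]
  rfl

private theorem plm_entry (A H : Bil) (i j : Fin 3) :
    plm A H i j = ∑ k, ∑ l, A k i * H k l * A l j := by
  unfold plm
  rw [Matrix.mul_apply]
  simp only [Matrix.mul_apply, Matrix.transpose_apply, Finset.sum_mul]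
  exact Finset.sum_comm

private theorem fr_dd (A H K : Bil) :
    dd (A * A.transpose) H K = ∑ i, ∑ j, plm A H i j * plm A K i j := by
  have h1 : ∀ i j k l : Fin 3, (A * A.transpose) i k * (A * A.transpose) j l * H i j * K k l
      = ∑ m, ∑ n, (A i m * H i j * A j n) * (A k m * K k l * A l n) := by
    intro i j k l
    simp only [fr_entry, Fin.sum_univ_three]
    ring
  unfold dd
  simp only [h1, plm_entry]
  have h2 : ∀ (F : Fin 3 → Fin 3 → Fin 3 → Fin 3 → Fin 3 → Fin 3 → ℝ),
      ∑ i, ∑ j, ∑ k, ∑ l, ∑ m, ∑ n, F i j k l m n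
        = ∑ m, ∑ n, ∑ i, ∑ j, ∑ k, ∑ l, F i j k l m n := by
    intro F
    calc ∑ i, ∑ j, ∑ k, ∑ l, ∑ m, ∑ n, F i j k l m n
        = ∑ i, ∑ j, ∑ k, ∑ m, ∑ l, ∑ n, F i j k l m n := by
          refine Finset.sum_congr rfl fun i _ => Finset.sum_congr rfl fun j _ =>
            Finset.sum_congr rfl fun k _ => Finset.sum_comm
      _ = ∑ i, ∑ j, ∑ m, ∑ k, ∑ l, ∑ n, F i j k l m n := by
          refine Finset.sum_congr rfl fun i _ => Finset.sum_congr rfl fun j _ => Finset.sum_comm
      _ = ∑ i, ∑ m, ∑ j, ∑ k, ∑ l, ∑ n, F i j k l m n := by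
          refine Finset.sum_congr rfl fun i _ => Finset.sum_comm
      _ = ∑ m, ∑ i, ∑ j, ∑ k, ∑ l, ∑ n, F i j k l m n := Finset.sum_comm
      _ = ∑ m, ∑ i, ∑ j, ∑ k, ∑ n, ∑ l, F i j k l m n := by
          refine Finset.sum_congr rfl fun m _ => Finset.sum_congr rfl fun i _ =>
            Finset.sum_congr rfl fun j _ => Finset.sum_congr rfl fun k _ => Finset.sum_comm
      _ = ∑ m, ∑ i, ∑ j, ∑ n, ∑ k, ∑ l, F i j k l m n := by
          refine Finset.sum_congr rfl fun m _ => Finset.sum_congr rfl fun i _ =>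
            Finset.sum_congr rfl fun j _ => Finset.sum_comm
      _ = ∑ m, ∑ i, ∑ n, ∑ j, ∑ k, ∑ l, F i j k l m n := by
          refine Finset.sum_congr rfl fun m _ => Finset.sum_congr rfl fun i _ => Finset.sum_comm
      _ = ∑ m, ∑ n, ∑ i, ∑ j, ∑ k, ∑ l, F i j k l m n := by
          refine Finset.sum_congr rfl fun m _ => Finset.sum_comm
  rw [h2]
  refine Finset.sum_congr rfl fun m _ => Finset.sum_congr rfl fun n _ => ?_
  have h3 : ∀ a b : Fin 3 → Fin 3 → ℝ, ∑ i, ∑ j, ∑ k, ∑ l, a i j * b k l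
      = (∑ i, ∑ j, a i j) * ∑ k, ∑ l, b k l := by
    intro a b
    rw [Finset.sum_mul]
    refine Finset.sum_congr rfl fun i _ => ?_
    rw [Finset.sum_mul]
    refine Finset.sum_congr rfl fun j _ => ?_
    rw [Finset.mul_sum]
    refine Finset.sum_congr rfl fun k _ => ?_
    rw [Finset.mul_sum]
  exact h3 (fun i j => A i m * H i j * A j n) (fun k l => A k m * K k l * A l n)

private theorem fr_up (A : Bil) (p : Cov) (i : Fin 3) :
    up (A * A.transpose) p i = ∑ m, A i m * plv A p m := by
  unfold up plv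
  simp only [fr_entry, Fin.sum_univ_three]
  ring

private theorem fr_ev (A : Bil) (p q : Cov) :
    ev (A * A.transpose) p q = ∑ i, plv A p i * plv A q i := by
  unfold ev plv
  simp only [fr_entry, Fin.sum_univ_three]
  ring

private theorem fr_tr (A H : Bil) :
    tr2 (A * A.transpose) H = ∑ i, plm A H i i := by
  unfold tr2
  simp only [fr_entry, plm_entry, Fin.sum_univ_three]
  ring

private theorem fr_qf (A H : Bil) (p : Cov) :
    qf (A * A.transpose) H p = ev (plm A H) (plv A p) (plv A p) := by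
  unfold qf ev
  simp only [fr_up, plm_entry]
  generalize plv A p = v
  simp only [Fin.sum_univ_three]
  ring

private theorem fr_app (A H : Bil) (p : Cov) :
    plv A (app (A * A.transpose) H p) = fun i => ∑ j, plm A H i j * plv A p j := by
  funext i
  unfold app
  show ∑ j, A j i * (∑ k, H j k * up (A * A.transpose) p k) = _
  simp only [fr_up, plm_entry]
  generalize plv A p = v
  simp only [Fin.sum_univ_three]
  ring

theorem FR : Stmt_FR := by
  intro P hP
  have hB : ∃ B : Bil, P = B.transpose * B := by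
    open scoped MatrixOrder in
    obtain ⟨B, hB⟩ := CStarAlgebra.nonneg_iff_eq_star_mul_self.mp hP.posSemidef.nonneg
    exact ⟨B, hB⟩
  obtain ⟨B, hB⟩ := hB
  refine ⟨B.transpose, ?_⟩
  have hP2 : P = B.transpose * B.transpose.transpose := by
    rw [Matrix.transpose_transpose]; exact hB
  have hdet : B.transpose.det ≠ 0 := by
    intro h0
    have h1 := hP.det_pos
    rw [hB, Matrix.det_mul, h0, zero_mul] at h1
    exact lt_irrefl _ h1
  generalize hA : B.transpose = A at *
  refine ⟨hdet, hP2, ?_, ?_, ?_, ?_, ?_, ?_, ?_⟩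
  · intro p q; rw [hP2]; exact fr_ev A p q
  · intro H; rw [hP2]; exact fr_tr A H
  · intro H K; rw [hP2]; exact fr_dd A H K
  · intro H p; rw [hP2]; exact fr_qf A H p
  · intro H p; rw [hP2]; exact fr_app A H p
  · intro H hH
    unfold plm
    show (A.transpose * H * A).transpose = _
    rw [Matrix.transpose_mul, Matrix.transpose_mul, Matrix.transpose_transpose, hH.eq,
      Matrix.mul_assoc]
  · intro p hp h0
    apply hp
    have h1 : A.transpose.mulVec p = 0 := by
      rw [← h0]
      rfl
    have h2 : A.transpose.det ≠ 0 := by rwa [Matrix.det_transpose]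
    exact Matrix.eq_zero_of_mulVec_eq_zero h2 h1

end Pool.Agent.PFlow
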