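import Pool.Agent.PFlow.StmtsM
import Pool.Agent.PenroseConvex.COVR
import Pool.Agent.PenroseConvex.XR3

/-!
# JD: the divergence of `h dw - (tr h) dw`
-/

open MeasureTheory Filter Topology
open scoped ContDiff

namespace Pool.Agent.PFlow

open Pool.Agent.PenroseSph

namespace MJD

open Pool.Agent.PenroseConvex (CovR.lower CovR.inv_symm CovR.differentiableAt_inv
  CovR.christoffel_symm CovR.contDiffAt_pd)
open Pool.Agent.PenroseConvex.XR3 (HP HP.of_diff HP.mul HP.add HP.sub)

/-! ### The metric at a point -/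

/-- The facts about a metric near a point that are needed. -/
structure Pt (g : TensorField) (x : E3) : Prop where
  diff : ∀ i j, DifferentiableAt ℝ (fun y => g y i j) x
  symm : ∀ᶠ y in 𝓝 x, (g y).IsSymm
  pos : ∀ᶠ y in 𝓝 x, 0 < (g y).det

variable {g : TensorField} {x : E3}

theorem pt_of {U : Set E3} (hU : IsOpen U) (hg : MetricOn U g) (hx : x ∈ U) : Pt g x where
  diff := fun i j =>
    ((hg.smooth i j).contDiffAt (hU.mem_nhds hx)).differentiableAt (by simp)
  symm := by
    filter_upwards [hU.mem_nhds hx] with y hy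
    have h := (hg.posDef y hy).isHermitian
    rw [Matrix.IsHermitian, Matrix.conjTranspose_eq_transpose_of_trivial] at h
    exact h
  pos := by
    filter_upwards [hU.mem_nhds hx] with y hy
    exact (hg.posDef y hy).det_pos

theorem Pt.det_ne (h : Pt g x) : (g x).det ≠ 0 := h.pos.self_of_nhds.ne'

theorem Pt.diffInv (h : Pt g x) (i j : Fin 3) : DifferentiableAt ℝ (fun y => (g y)⁻¹ i j) x :=
  CovR.differentiableAt_inv h.diff h.det_ne i j

theorem Pt.inv_symm (h : Pt g x) (i j : Fin 3) : (g x)⁻¹ i j = (g x)⁻¹ j i :=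
  CovR.inv_symm h.symm.self_of_nhds i j

theorem Pt.g_symm (h : Pt g x) (i j : Fin 3) : g x i j = g x j i :=
  (h.symm.self_of_nhds.apply i j).symm ▸ rfl

theorem Pt.inv_mul (h : Pt g x) (i j : Fin 3) :
    ∑ d, (g x)⁻¹ i d * g x d j = if i = j then 1 else 0 := by
  have h2 := congrFun (congrFun (Matrix.nonsing_inv_mul (g x) (Ne.isUnit h.det_ne)) i) j
  rw [Matrix.mul_apply, Matrix.one_apply] at h2
  exact h2

theorem Pt.mul_inv (h : Pt g x) (i j : Fin 3) :
    ∑ d, g x i d * (g x)⁻¹ d j = if i = j then 1 else 0 := by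
  have h2 := congrFun (congrFun (Matrix.mul_nonsing_inv (g x) (Ne.isUnit h.det_ne)) i) j
  rw [Matrix.mul_apply, Matrix.one_apply] at h2
  exact h2

theorem Pt.chr_symm (h : Pt g x) (a b c : Fin 3) :
    christoffel g a b c x = christoffel g a c b x :=
  CovR.christoffel_symm h.symm a b c

/-- `∇ g = 0` -/
theorem Pt.pd_g (h : Pt g x) (k i j : Fin 3) : pd k (fun y => g y i j) x =
    ∑ d, (g x i d * christoffel g d k j x + g x j d * christoffel g d k i x) := by
  have hs : ∀ l a b, pd l (fun y => g y a b) x = pd l (fun y => g y b a) x := by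
    intro l a b
    refine pd_congr ?_
    filter_upwards [h.symm] with y hy
    exact hy.apply b a
  rw [Finset.sum_add_distrib, CovR.lower g x h.det_ne i k j, CovR.lower g x h.det_ne j k i,
    hs k j i, hs i k j, hs j k i]
  rw [hs i j k, hs j i k]
  ring

/-- the derivative of the inverse metric -/
theorem Pt.pd_inv (h : Pt g x) (k i j : Fin 3) : pd k (fun y => (g y)⁻¹ i j) x =
    -∑ l, (christoffel g i k l x * (g x)⁻¹ l j + christoffel g j k l x * (g x)⁻¹ i l) := by
  -- differentiate `g⁻¹ g = 1`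
  have h1 : ∀ c, ∑ b, ((g x)⁻¹ i b * pd k (fun y => g y b c) x
      + g x b c * pd k (fun y => (g y)⁻¹ i b) x) = 0 := by
    intro c
    have e : (fun y => ∑ b, (g y)⁻¹ i b * g y b c) =ᶠ[𝓝 x] fun _ => if i = c then (1 : ℝ) else 0 := by
      filter_upwards [h.pos] with y hy
      have h2 := congrFun (congrFun (Matrix.nonsing_inv_mul (g y) (Ne.isUnit hy.ne')) i) c
      rw [Matrix.mul_apply, Matrix.one_apply] at h2
      exact h2
    have h3 := pd_congr (i := k) e
    rw [pd_const, pd_sum _ _ (fun b _ => (h.diffInv i b).fun_mul (h.diff b c))] at h3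
    rw [← h3]
    refine Finset.sum_congr rfl fun b _ => ?_
    rw [pd_mul (h.diffInv i b) (h.diff b c)]
  have h2 : pd k (fun y => (g y)⁻¹ i j) x =
      ∑ c, (∑ b, g x b c * pd k (fun y => (g y)⁻¹ i b) x) * (g x)⁻¹ c j := by
    have h3 : ∑ c, (∑ b, g x b c * pd k (fun y => (g y)⁻¹ i b) x) * (g x)⁻¹ c j =
        ∑ b, (∑ c, g x b c * (g x)⁻¹ c j) * pd k (fun y => (g y)⁻¹ i b) x := by
      simp only [Finset.sum_mul]
      rw [Finset.sum_comm]
      refine Finset.sum_congr rfl fun b _ => Finset.sum_congr rfl fun c _ => ?_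
      ring
    rw [h3]
    simp only [h.mul_inv]
    simp
  have h4 : ∀ c, ∑ b, g x b c * pd k (fun y => (g y)⁻¹ i b) x =
      -∑ b, (g x)⁻¹ i b * ∑ d, (g x b d * christoffel g d k c x
        + g x c d * christoffel g d k b x) := by
    intro c
    have h5 := h1 c
    rw [Finset.sum_add_distrib] at h5
    simp only [h.pd_g] at h5
    linarith
  have h6 : ∀ c, ∑ b, (g x)⁻¹ i b * ∑ d, (g x b d * christoffel g d k c x
        + g x c d * christoffel g d k b x) = christoffel g i k c x
        + ∑ b, (g x)⁻¹ i b * ∑ d, g x c d * christoffel g d k b x := by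
    intro c
    simp only [Finset.sum_add_distrib, mul_add]
    congr 1
    have h7 : ∑ b, (g x)⁻¹ i b * ∑ d, g x b d * christoffel g d k c x =
        ∑ d, (∑ b, (g x)⁻¹ i b * g x b d) * christoffel g d k c x := by
      simp only [Finset.mul_sum, Finset.sum_mul]
      rw [Finset.sum_comm]
      refine Finset.sum_congr rfl fun b _ => Finset.sum_congr rfl fun c _ => ?_
      ring
    rw [h7]
    simp only [h.inv_mul]
    simp
  rw [h2]
  simp only [h4, h6]
  have h8 : ∑ c, (∑ b, (g x)⁻¹ i b * ∑ d, g x c d * christoffel g d k b x) * (g x)⁻¹ c j =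
      ∑ b, (g x)⁻¹ i b * christoffel g j k b x := by
    have h9 : ∑ c, (∑ b, (g x)⁻¹ i b * ∑ d, g x c d * christoffel g d k b x) * (g x)⁻¹ c j =
        ∑ b, (g x)⁻¹ i b * ∑ d, (∑ c, (g x)⁻¹ j c * g x c d) * christoffel g d k b x := by
      simp only [Fin.sum_univ_three, h.inv_symm j 0, h.inv_symm j 1, h.inv_symm j 2]
      ring
    rw [h9]
    simp only [h.inv_mul]
    simp
  have h10 : ∑ c, -(christoffel g i k c x + ∑ b, (g x)⁻¹ i b *
      ∑ d, g x c d * christoffel g d k b x) * (g x)⁻¹ c j =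
      -(∑ c, christoffel g i k c x * (g x)⁻¹ c j) -
        ∑ c, (∑ b, (g x)⁻¹ i b * ∑ d, g x c d * christoffel g d k b x) * (g x)⁻¹ c j := by
    rw [← Finset.sum_neg_distrib, ← Finset.sum_sub_distrib]
    refine Finset.sum_congr rfl fun c _ => ?_
    ring
  rw [h10, h8, Finset.sum_add_distrib]
  have h11 : ∑ l, christoffel g j k l x * (g x)⁻¹ i l =
      ∑ b, (g x)⁻¹ i b * christoffel g j k b x :=
    Finset.sum_congr rfl fun l _ => mul_comm _ _
  rw [h11]
  ring

/-- the derivative of the determinant -/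
theorem Pt.pd_det (h : Pt g x) (k : Fin 3) : pd k (fun y => (g y).det) x =
    (g x).det * ∑ i, ∑ j, (g x)⁻¹ i j * pd k (fun y => g y j i) x := by
  have hadj : ∀ i j, (g x).det * (g x)⁻¹ i j = (g x).adjugate i j := by
    intro i j
    rw [Matrix.inv_def, Ring.inverse_eq_inv', Matrix.smul_apply, smul_eq_mul, ← mul_assoc,
      mul_inv_cancel₀ h.det_ne, one_mul]
  have h1 : (g x).det * ∑ i, ∑ j, (g x)⁻¹ i j * pd k (fun y => g y j i) x =
      ∑ i, ∑ j, (g x).adjugate i j * pd k (fun y => g y j i) x := by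
    simp only [Finset.mul_sum, ← mul_assoc, hadj]
  rw [h1]
  have d : ∀ i j, HP k (fun y => g y i j) (pd k (fun y => g y i j) x) x := fun i j =>
    HP.of_diff (h.diff i j)
  have h2 := ((((((((d 0 0).mul (d 1 1)).mul (d 2 2)).sub
    (((d 0 0).mul (d 1 2)).mul (d 2 1))).sub (((d 0 1).mul (d 1 0)).mul (d 2 2))).add
    (((d 0 1).mul (d 1 2)).mul (d 2 0))).add (((d 0 2).mul (d 1 0)).mul (d 2 1))).sub
    (((d 0 2).mul (d 1 1)).mul (d 2 0))).val
  simp only [Matrix.det_fin_three]
  rw [h2]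
  simp only [Matrix.adjugate_fin_three, Fin.sum_univ_three]
  simp
  ring

theorem Pt.diffDet (h : Pt g x) : DifferentiableAt ℝ (fun y => (g y).det) x := by
  have hd := h.diff
  simp only [Matrix.det_fin_three]
  fun_prop (disch := assumption)

theorem Pt.diffVol (h : Pt g x) : DifferentiableAt ℝ (volDen g) x :=
  h.diffDet.sqrt h.det_ne

/-- the derivative of the volume density -/
theorem Pt.pd_vol (h : Pt g x) (k : Fin 3) : pd k (volDen g) x =
    volDen g x * ∑ l, christoffel g l k l x := by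
  have hpos : 0 < (g x).det := h.pos.self_of_nhds
  have h1 : pd k (volDen g) x = 1 / (2 * Real.sqrt (g x).det) * pd k (fun y => (g y).det) x := by
    unfold pd
    have h2 := (h.diffDet.hasFDerivAt.sqrt h.det_ne).fderiv
    have h3 : fderiv ℝ (volDen g) x = (1 / (2 * Real.sqrt (g x).det)) •
        fderiv ℝ (fun y => (g y).det) x := h2
    rw [h3]
    rfl
  have h4 : ∑ i, ∑ j, (g x)⁻¹ i j * pd k (fun y => g y j i) x =
      2 * ∑ l, christoffel g l k l x := by
    have h5 : ∀ i j, (g x)⁻¹ i j * pd k (fun y => g y j i) x =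
        ∑ d, ((g x)⁻¹ i j * g x j d) * christoffel g d k i x
          + ∑ d, ((g x)⁻¹ i j * g x i d) * christoffel g d k j x := by
      intro i j
      rw [h.pd_g, Finset.mul_sum, ← Finset.sum_add_distrib]
      refine Finset.sum_congr rfl fun d _ => ?_
      ring
    simp only [h5, Finset.sum_add_distrib]
    have h6 : ∑ i, ∑ j, ∑ d, ((g x)⁻¹ i j * g x j d) * christoffel g d k i x =
        ∑ l, christoffel g l k l x := by
      refine Finset.sum_congr rfl fun i _ => ?_
      rw [Finset.sum_comm]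
      simp only [← Finset.sum_mul, h.inv_mul]
      simp
    have h7 : ∑ i, ∑ j, ∑ d, ((g x)⁻¹ i j * g x i d) * christoffel g d k j x =
        ∑ l, christoffel g l k l x := by
      rw [Finset.sum_comm, ← h6]
      refine Finset.sum_congr rfl fun i _ => Finset.sum_congr rfl fun j _ =>
        Finset.sum_congr rfl fun d _ => ?_
      rw [h.inv_symm j i]
    rw [h6, h7]
    ring
  rw [h1, h.pd_det, h4]
  unfold volDen
  have h8 : (g x).det = Real.sqrt (g x).det * Real.sqrt (g x).det :=
    (Real.mul_self_sqrt hpos.le).symm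
  have h9 : Real.sqrt (g x).det ≠ 0 := (Real.sqrt_pos.2 hpos).ne'
  conv_lhs =>
    rw [h8]
  rw [Real.sqrt_mul_self (Real.sqrt_nonneg _)]
  field_simp

/-! ### Divergence of a vector field, derivatives of contractions -/

/-- the divergence of `X^♯` -/
theorem Pt.div_up (h : Pt g x) (X : E3 → Cov) (hX : ∀ j, DifferentiableAt ℝ (fun y => X y j) x) :
    ∑ i, pd i (fun y => volDen g y * up (g y)⁻¹ (X y) i) x =
      volDen g x * ∑ i, ∑ j, (g x)⁻¹ i j *
        (pd i (fun y => X y j) x - ∑ m, christoffel g m i j x * X x m) := by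
  have hup : ∀ i, DifferentiableAt ℝ (fun y => up (g y)⁻¹ (X y) i) x := fun i =>
    DifferentiableAt.fun_sum fun j _ => (h.diffInv i j).fun_mul (hX j)
  have h1 : ∀ i, pd i (fun y => volDen g y * up (g y)⁻¹ (X y) i) x =
      volDen g x * ∑ j, ((g x)⁻¹ i j * pd i (fun y => X y j) x
        + X x j * -∑ l, (christoffel g i i l x * (g x)⁻¹ l j
          + christoffel g j i l x * (g x)⁻¹ i l))
      + (∑ j, (g x)⁻¹ i j * X x j) * (volDen g x * ∑ l, christoffel g l i l x) := by
    intro i
    rw [pd_mul h.diffVol (hup i), h.pd_vol]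
    congr 2
    have h2 : pd i (fun y => up (g y)⁻¹ (X y) i) x =
        pd i (fun y => ∑ j, (g y)⁻¹ i j * X y j) x := rfl
    rw [h2, pd_sum _ _ (fun j _ => (h.diffInv i j).fun_mul (hX j))]
    refine Finset.sum_congr rfl fun j _ => ?_
    rw [pd_mul (h.diffInv i j) (hX j), h.pd_inv]
  simp only [h1]
  have hc : ∀ a b c, christoffel g a b c x = christoffel g a c b x := h.chr_symm
  simp only [Fin.sum_univ_three]
  rw [hc 0 1 0, hc 0 2 0, hc 0 2 1, hc 1 1 0, hc 1 2 0, hc 1 2 1, hc 2 1 0, hc 2 2 0, hc 2 2 1]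
  ring

/-- the derivative of `X^♯` -/
theorem Pt.pd_up (h : Pt g x) (X : E3 → Cov) (hX : ∀ j, DifferentiableAt ℝ (fun y => X y j) x)
    (i k : Fin 3) : pd i (fun y => up (g y)⁻¹ (X y) k) x =
      ∑ l, (g x)⁻¹ k l * (pd i (fun y => X y l) x - ∑ m, christoffel g m i l x * X x m)
        - ∑ m, christoffel g k i m x * up (g x)⁻¹ (X x) m := by
  have h2 : pd i (fun y => up (g y)⁻¹ (X y) k) x =
      pd i (fun y => ∑ j, (g y)⁻¹ k j * X y j) x := rfl
  rw [h2, pd_sum _ _ (fun j _ => (h.diffInv k j).fun_mul (hX j))]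
  have h3 : ∀ j, pd i (fun y => (g y)⁻¹ k j * X y j) x = (g x)⁻¹ k j * pd i (fun y => X y j) x
      + X x j * -∑ l, (christoffel g k i l x * (g x)⁻¹ l j
        + christoffel g j i l x * (g x)⁻¹ k l) := by
    intro j
    rw [pd_mul (h.diffInv k j) (hX j), h.pd_inv]
  simp only [h3, up, Fin.sum_univ_three]
  ring

/-- the derivative of a trace -/
theorem Pt.pd_tr (h : Pt g x) (B : TensorField)
    (hB : ∀ i j, DifferentiableAt ℝ (fun y => B y i j) x) (i : Fin 3) :
    pd i (fun y => trg g y (B y)) x = ∑ a, ∑ b, (g x)⁻¹ a b * covDeriv g B i a b x := by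
  have h2 : pd i (fun y => trg g y (B y)) x =
      pd i (fun y => ∑ a, ∑ b, (g y)⁻¹ a b * B y a b) x := rfl
  rw [h2, pd_sum _ _ (fun a _ => DifferentiableAt.fun_sum fun b _ =>
    (h.diffInv a b).fun_mul (hB a b))]
  have h3 : ∀ a, pd i (fun y => ∑ b, (g y)⁻¹ a b * B y a b) x =
      ∑ b, ((g x)⁻¹ a b * pd i (fun y => B y a b) x
      + B x a b * -∑ l, (christoffel g a i l x * (g x)⁻¹ l b
        + christoffel g b i l x * (g x)⁻¹ a l)) := by
    intro a
    rw [pd_sum _ _ (fun b _ => (h.diffInv a b).fun_mul (hB a b))]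
    refine Finset.sum_congr rfl fun b _ => ?_
    rw [pd_mul (h.diffInv a b) (hB a b), h.pd_inv]
  simp only [h3]
  simp only [covDeriv, Fin.sum_univ_three]
  ring

theorem diffTr (h : Pt g x) (B : TensorField)
    (hB : ∀ i j, DifferentiableAt ℝ (fun y => B y i j) x) :
    DifferentiableAt ℝ (fun y => trg g y (B y)) x :=
  DifferentiableAt.fun_sum fun a _ => DifferentiableAt.fun_sum fun b _ =>
    (h.diffInv a b).fun_mul (hB a b)

/-- the momentum density -/
theorem Pt.mom (h : Pt g x) (B : TensorField)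
    (hB : ∀ i j, DifferentiableAt ℝ (fun y => B y i j) x) (j : Fin 3) :
    momentumDensity g B j x = ∑ i, ∑ k, (g x)⁻¹ i k * covDeriv g B k i j x
      - pd j (fun y => trg g y (B y)) x := by
  have ht : DifferentiableAt ℝ (fun y => traceWith g B y) x := diffTr h B hB
  have e : (fun y => trg g y (B y)) = fun y => traceWith g B y := rfl
  rw [e]
  have h1 : ∀ k i, covDeriv g (fun y => B y - traceWith g B y • g y) k i j x =
      covDeriv g B k i j x - g x i j * pd k (fun y => traceWith g B y) x := by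
    intro k i
    unfold covDeriv
    have h2 : pd k (fun y => (B y - traceWith g B y • g y) i j) x =
        pd k (fun y => B y i j) x - (traceWith g B x * pd k (fun y => g y i j) x
          + g x i j * pd k (fun y => traceWith g B y) x) := by
      have h3 : (fun y => (B y - traceWith g B y • g y) i j) =
          fun y => B y i j - traceWith g B y * g y i j := by
        funext y
        rw [Matrix.sub_apply, Matrix.smul_apply, smul_eq_mul]
      rw [h3, pd_sub (hB i j) (ht.fun_mul (h.diff i j)), pd_mul ht (h.diff i j)]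
    rw [h2, h.pd_g]
    simp only [Matrix.sub_apply, Matrix.smul_apply, smul_eq_mul, Fin.sum_univ_three]
    rw [h.g_symm j 0, h.g_symm j 1, h.g_symm j 2]
    ring
  unfold momentumDensity divergence
  simp only [h1, mul_sub, Finset.sum_sub_distrib]
  congr 1
  have h4 : ∑ i, ∑ k, (g x)⁻¹ i k * (g x i j * pd k (fun y => traceWith g B y) x) =
      ∑ k, (∑ i, (g x)⁻¹ k i * g x i j) * pd k (fun y => traceWith g B y) x := by
    simp only [Finset.sum_mul]
    rw [Finset.sum_comm]
    refine Finset.sum_congr rfl fun k _ => Finset.sum_congr rfl fun i _ => ?_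
    rw [h.inv_symm i k]
    ring
  rw [h4]
  simp only [h.inv_mul]
  simp

/-! ### The algebra -/

/-- the covariant derivative of `h dw - (tr h) dw` -/
theorem alg1 (Ga : Fin 3 → Fin 3 → Fin 3 → ℝ) (P H hh dw2 : Bil) (w p dt : Cov)
    (dh C : Fin 3 → Fin 3 → Fin 3 → ℝ) (t : ℝ)
    (hC : ∀ k i j, C k i j = dh k i j - ∑ l, (Ga l k i * hh l j + Ga l k j * hh i l))
    (hH : ∀ i j, H i j = dw2 i j - ∑ m, Ga m i j * w m) (i j : Fin 3) :
    (∑ k, (hh j k * (∑ l, P k l * H i l - ∑ m, Ga k i m * p m) + p k * dh i j k)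
        - (t * dw2 i j + w j * dt i))
      - ∑ m, Ga m i j * ((∑ k, hh m k * p k) - t * w m) =
    ∑ k, C i j k * p k + ∑ k, ∑ l, hh j k * P k l * H i l - w j * dt i - t * H i j := by
  have h1 : dw2 i j = H i j + ∑ m, Ga m i j * w m := by
    rw [hH]
    ring
  rw [h1]
  simp only [hC, Fin.sum_univ_three]
  ring

/-- the contraction -/
theorem alg2 (P H hh : Bil) (w dt : Cov) (C : Fin 3 → Fin 3 → Fin 3 → ℝ) (t : ℝ)
    (hP : ∀ i j, P i j = P j i) :
    ∑ i, ∑ j, P i j * (∑ k, C i j k * (∑ l, P k l * w l) + ∑ k, ∑ l, hh j k * P k l * H i l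
        - w j * dt i - t * H i j) =
      (∑ a, ∑ b, P a b * (∑ i, ∑ k, P i k * C k i a - dt a) * w b)
        + (∑ i, ∑ j, ∑ k, ∑ l, P i k * P j l * hh i j * H k l)
        - t * ∑ i, ∑ j, P i j * H i j := by
  simp only [Fin.sum_univ_three]
  rw [hP 1 0, hP 2 0, hP 2 1]
  ring

end MJD

open MJD in
theorem JD : Stmt_JD := by
  intro U g h w hU hg hh hw x hx
  have hp := pt_of hU hg hx
  have hwx : ContDiffAt ℝ ∞ w x := hw.contDiffAt (hU.mem_nhds hx)
  have hB : ∀ i j, DifferentiableAt ℝ (fun y => h y i j) x := fun i j =>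
    ((hh.smooth i j).contDiffAt (hU.mem_nhds hx)).differentiableAt (by simp)
  have hgr : ∀ j, DifferentiableAt ℝ (fun y => grad w y j) x := fun j =>
    (Pool.Agent.PenroseConvex.CovR.contDiffAt_pd (n := 1) hwx
      Pool.Agent.PenroseConvex.CovR.le2 j).differentiableAt (by norm_num)
  have hup : ∀ k, DifferentiableAt ℝ (fun y => up (g y)⁻¹ (grad w y) k) x := fun k =>
    DifferentiableAt.fun_sum fun j _ => (hp.diffInv k j).fun_mul (hgr j)
  have htr := diffTr hp h hB
  have hX1 : ∀ j, DifferentiableAt ℝ (fun y => app (g y)⁻¹ (h y) (grad w y) j) x := fun j =>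
    DifferentiableAt.fun_sum fun k _ => (hB j k).fun_mul (hup k)
  have hX2 : ∀ j, DifferentiableAt ℝ (fun y => trg g y (h y) * grad w y j) x := fun j =>
    htr.fun_mul (hgr j)
  rw [hp.div_up (fun y j => app (g y)⁻¹ (h y) (grad w y) j - trg g y (h y) * grad w y j)
    (fun j => (hX1 j).fun_sub (hX2 j))]
  congr 1
  -- the derivatives
  have hd : ∀ i j, pd i (fun y => app (g y)⁻¹ (h y) (grad w y) j - trg g y (h y) * grad w y j) x =
      ∑ k, (h x j k * (∑ l, (g x)⁻¹ k l * cHess g x (grad w x) (hess2 w x) i l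
          - ∑ m, christoffel g k i m x * up (g x)⁻¹ (grad w x) m)
        + up (g x)⁻¹ (grad w x) k * pd i (fun y => h y j k) x)
        - (trg g x (h x) * hess2 w x i j + grad w x j * pd i (fun y => trg g y (h y)) x) := by
    intro i j
    rw [pd_sub (hX1 j) (hX2 j), pd_mul htr (hgr j)]
    have h1 : pd i (fun y => app (g y)⁻¹ (h y) (grad w y) j) x =
        pd i (fun y => ∑ k, h y j k * up (g y)⁻¹ (grad w y) k) x := rfl
    rw [h1, pd_sum _ _ (fun k _ => (hB j k).fun_mul (hup k))]
    congr 1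
    refine Finset.sum_congr rfl fun k _ => ?_
    rw [pd_mul (hB j k) (hup k), hp.pd_up (grad w) hgr]
    rfl
  simp only [hd]
  have h2 := alg1 (fun k i j => christoffel g k i j x) (g x)⁻¹
    (cHess g x (grad w x) (hess2 w x)) (h x) (hess2 w x) (grad w x) (up (g x)⁻¹ (grad w x))
    (fun i => pd i (fun y => trg g y (h y)) x) (fun k i j => pd k (fun y => h y i j) x)
    (fun k i j => covDeriv g h k i j x) (trg g x (h x)) (fun k i j => rfl) (fun i j => rfl)
  have h3 : ∀ m, app (g x)⁻¹ (h x) (grad w x) m = ∑ k, h x m k * up (g x)⁻¹ (grad w x) k :=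
    fun m => rfl
  simp only [h3, h2]
  have h4 := alg2 (g x)⁻¹ (cHess g x (grad w x) (hess2 w x)) (h x) (grad w x)
    (fun i => pd i (fun y => trg g y (h y)) x) (fun k i j => covDeriv g h k i j x)
    (trg g x (h x)) hp.inv_symm
  have h5 : ∀ k, up (g x)⁻¹ (grad w x) k = ∑ l, (g x)⁻¹ k l * grad w x l := fun k => rfl
  simp only [h5]
  refine h4.trans ?_
  congr 1
  congr 1
  unfold ev momV
  refine Finset.sum_congr rfl fun a _ => Finset.sum_congr rfl fun b _ => ?_
  rw [hp.mom h hB a]

end Pool.Agent.PFlow
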