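import Pool.Agent.PFlow.Pt

/-!
# Statements of the modules of block M (level set inequality)

`MI`, `W`, `INT`, `LOGW` are the interface; everything else is internal. Proofs: `MI.md`.
-/

open MeasureTheory Filter Topology
open scoped ContDiff

namespace Pool.Agent.PFlow

open Pool.Agent.PenroseSph

/-! ## Interface -/

/-- The level set inequality. -/
def Stmt_MI : Prop := ∀ (ε a b s₀ s₁ : ℝ) (g h : TensorField) (w : E3 → ℝ) (G : E3 → Cov)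
  (M : E3 → Bil), 0 < ε → ε < 1 → 0 < a → a < b → s₀ < s₁ →
  MetricOn (Ann a b) g → TensorOn (Ann a b) h → H2On (Ann a b) w G M →
  EqW (Ann a b) ε g h G M → NoIsland (Ann a b) w → Sep a b s₀ s₁ w →
  ∀ ψ : ℝ → ℝ, ContDiff ℝ 1 ψ → HasCompactSupport ψ → tsupport ψ ⊆ Set.Ioo s₀ s₁ →
    (∀ s, 0 ≤ ψ s) →
  - ∫ x in Ann a b, deriv ψ (w x) * flux ε g h x (G x) (M x) * volDen g x
    ≤ 4 * Real.pi * (∫ s, ψ s)
      - 1 / (2 - ε) * (∫ x in Ann a b, ψ (w x) * flux ε g h x (G x) (M x) * volDen g x)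
      - ∫ x in Ann a b, ψ (w x) * (len g x (G x)
          * (matter g h x (G x) + diss ε g h x (G x) (M x))) * volDen g x

/-- Integrability on compact sets. -/
def Stmt_INT : Prop := ∀ (ε : ℝ) (U : Set E3) (g h : TensorField) (w : E3 → ℝ) (G : E3 → Cov)
  (M : E3 → Bil), 0 < ε → ε < 1 → IsOpen U → MetricOn U g → TensorOn U h → H2On U w G M →
  EqW U ε g h G M → ∀ K : Set E3, IsCompact K → K ⊆ U →
  IntegrableOn (fun x => vn (G x) ^ 4) K ∧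
  IntegrableOn (fun x => len g x (G x) ^ 4 * volDen g x) K ∧
  IntegrableOn (fun x => msq (M x)) K ∧
  IntegrableOn (fun x => msq (M x) / vn (G x)) K ∧
  IntegrableOn (fun x => flux ε g h x (G x) (M x) * volDen g x) K ∧
  IntegrableOn (fun x => len g x (G x) * diss ε g h x (G x) (M x) * volDen g x) K ∧
  IntegrableOn (fun x => len g x (G x) * matter g h x (G x) * volDen g x) K ∧
  IntegrableOn (fun x => Wd (G x) (M x)) K ∧
  IntegrableOn (fun x => len g x (G x) * dis0 ε g h x (G x) (M x) * volDen g x) K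

/-- Willmore's inequality, integrated over the levels (Euclidean, no equation, no metric). -/
def Stmt_W : Prop := ∀ (a b s₀ s₁ : ℝ) (w : E3 → ℝ) (G : E3 → Cov) (M : E3 → Bil),
  0 < a → a < b → s₀ < s₁ → H2On (Ann a b) w G M →
  (∀ᵐ x ∂(volume.restrict (Ann a b)), G x = 0 → M x = 0) →
  (∀ K : Set E3, IsCompact K → K ⊆ Ann a b →
    IntegrableOn (fun x => msq (M x) / vn (G x)) K) →
  Sep a b s₀ s₁ w →
  ∀ ψ : ℝ → ℝ, Continuous ψ → HasCompactSupport ψ → tsupport ψ ⊆ Set.Ioo s₀ s₁ →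
    (∀ s, 0 ≤ ψ s) →
  16 * Real.pi * (∫ s, ψ s) ≤ ∫ x in Ann a b, ψ (w x) * Wd (G x) (M x)

/-- The logarithm of the solution. -/
def Stmt_LOGW : Prop := ∀ (ε : ℝ) (U : Set E3) (g h : TensorField) (u : E3 → ℝ) (G : E3 → Cov)
  (M : E3 → Bil), 0 < ε → ε < 1 → IsOpen U → MetricOn U g → TensorOn U h → H2On U u G M →
  (∀ x ∈ U, 0 < u x) → EqU U ε g h G M →
  H2On U (fun x => - ε * Real.log (u x)) (fun x i => - ε * (G x i / u x))
    (fun x => Matrix.of fun i j => - ε * (M x i j / u x - G x i * G x j / u x ^ 2)) ∧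
  EqW U ε g h (fun x i => - ε * (G x i / u x))
    (fun x => Matrix.of fun i j => - ε * (M x i j / u x - G x i * G x j / u x ^ 2)) ∧
  (NoIsland U u → NoIsland U (fun x => - ε * Real.log (u x)))

/-! ## Algebra at a point -/

/-- A frame. -/
def Stmt_FR : Prop := ∀ P : Bil, P.PosDef → ∃ A : Bil, A.det ≠ 0 ∧ P = A * A.transpose ∧
  (∀ p q, ev P p q = ∑ i, plv A p i * plv A q i) ∧
  (∀ H, tr2 P H = ∑ i, plm A H i i) ∧
  (∀ H K, dd P H K = ∑ i, ∑ j, plm A H i j * plm A K i j) ∧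
  (∀ H p, qf P H p = ev (plm A H) (plv A p) (plv A p)) ∧
  (∀ H p, plv A (app P H p) = fun i => ∑ j, plm A H i j * plv A p j) ∧
  (∀ H : Bil, H.IsSymm → (plm A H).IsSymm) ∧ (∀ p, p ≠ 0 → plv A p ≠ 0)

/-- The crude inequality. -/
def Stmt_CR : Prop := ∀ (ε : ℝ) (P Rc H : Bil) (p : Cov) (d : ℝ), 0 < ε → ε ≤ 1 → P.PosDef →
  H.IsSymm → p ≠ 0 →
  Dd P Rc d p H ≤ 1 / ld P d p * (-(ε / 8) * dd P H H
    + 5 / ε * (tn P H p + ε * nn P H p) ^ 2 - qf P Rc p)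

/-- The identity at a point. -/
def Stmt_ID : Prop := ∀ (U : Set E3) (g h : TensorField), IsOpen U → MetricOn U g →
  TensorOn U h → ∀ x ∈ U, ∀ (ε : ℝ) (p : Cov) (M : Bil), 0 < ε → ε < 1 → p ≠ 0 → M.IsSymm →
  DZx ε g h 0 x p M = Kd g x p M - len g x p * (matter g h x p + diss ε g h x p M)
    - flux ε g h x p M / (2 - ε) + resid ε g h x p M * zed ε g h x p M / ε

/-- The nonnegative part of the dissipation is nonnegative. -/
def Stmt_POS : Prop := ∀ (U : Set E3) (g h : TensorField), IsOpen U → MetricOn U g →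
  TensorOn U h → ∀ x ∈ U, ∀ (ε : ℝ) (p : Cov) (M : Bil), 0 < ε → ε < 1 → p ≠ 0 → M.IsSymm →
  (1 / ε - 1 / 4) * zed ε g h x p M ^ 2 ≤ dis0 ε g h x p M

/-! ## Divergences (smooth functions) -/

/-- The contracted Bochner formula. -/
def Stmt_BO : Prop := ∀ (U : Set E3) (g : TensorField) (w : E3 → ℝ), IsOpen U → MetricOn U g →
  ContDiffOn ℝ ∞ w U → ∀ x ∈ U,
  ∑ i, pd i (fun y => volDen g y * up (g y)⁻¹ (fun j =>
      trg g y (cHess g y (grad w y) (hess2 w y)) * grad w y j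
        - app (g y)⁻¹ (cHess g y (grad w y) (hess2 w y)) (grad w y) j) i) x
    = volDen g x * (tr2 (g x)⁻¹ (cHess g x (grad w x) (hess2 w x)) ^ 2
      - dd (g x)⁻¹ (cHess g x (grad w x) (hess2 w x)) (cHess g x (grad w x) (hess2 w x))
      - qf (g x)⁻¹ (ric g x) (grad w x))

/-- The divergence of `h ∇w - (tr h) ∇w`. -/
def Stmt_JD : Prop := ∀ (U : Set E3) (g h : TensorField) (w : E3 → ℝ), IsOpen U →
  MetricOn U g → TensorOn U h → ContDiffOn ℝ ∞ w U → ∀ x ∈ U,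
  ∑ i, pd i (fun y => volDen g y * up (g y)⁻¹ (fun j => app (g y)⁻¹ (h y) (grad w y) j
      - trg g y (h y) * grad w y j) i) x
    = volDen g x * (ev (g x)⁻¹ (momV g h x) (grad w x)
      + dd (g x)⁻¹ (h x) (cHess g x (grad w x) (hess2 w x))
      - tr2 (g x)⁻¹ (h x) * tr2 (g x)⁻¹ (cHess g x (grad w x) (hess2 w x)))

/-- The divergence of `|∇w| ∇w`, also at the critical points. -/
def Stmt_LD : Prop := ∀ (U : Set E3) (g : TensorField) (w : E3 → ℝ), IsOpen U →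
  MetricOn U g → ContDiffOn ℝ ∞ w U → ∀ x ∈ U,
  ∑ i, pd i (fun y => volDen g y * up (g y)⁻¹ (fun j => len g y (grad w y) * grad w y j) i) x
    = volDen g x * (nn (g x)⁻¹ (cHess g x (grad w x) (hess2 w x)) (grad w x)
        * lp (g x)⁻¹ (grad w x)
      + lp (g x)⁻¹ (grad w x) * tr2 (g x)⁻¹ (cHess g x (grad w x) (hess2 w x)))

/-- The derivative of `√(|∇w|² + d²)`. -/
def Stmt_SD : Prop := ∀ (U : Set E3) (g : TensorField) (w : E3 → ℝ) (d : ℝ), IsOpen U →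
  MetricOn U g → ContDiffOn ℝ ∞ w U → 0 < d → ∀ x ∈ U, ∀ i,
  pd i (fun y => ld (g y)⁻¹ d (grad w y)) x
    = app (g x)⁻¹ (cHess g x (grad w x) (hess2 w x)) (grad w x) i / ld (g x)⁻¹ d (grad w x)

/-- The fields `Y_d`, `Z_d` are `C¹` and have the divergences `Ddx`, `DZx`. -/
def Stmt_ZD : Prop := ∀ (ε : ℝ) (U : Set E3) (g h : TensorField) (w : E3 → ℝ) (d : ℝ),
  0 < ε → ε < 1 → IsOpen U → MetricOn U g → TensorOn U h → ContDiffOn ℝ ∞ w U → 0 < d →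
  (∀ i, ContDiffOn ℝ 1 (fun y => volDen g y * Yf g d y (grad w y) (hess2 w y) i) U) ∧
  (∀ i, ContDiffOn ℝ 1 (fun y => volDen g y * Zf ε g h d y (grad w y) (hess2 w y) i) U) ∧
  (∀ x ∈ U, ∑ i, pd i (fun y => volDen g y * Yf g d y (grad w y) (hess2 w y) i) x
    = volDen g x * Ddx g d x (grad w x) (hess2 w x)) ∧
  (∀ x ∈ U, ∑ i, pd i (fun y => volDen g y * Zf ε g h d y (grad w y) (hess2 w y) i) x
    = volDen g x * DZx ε g h d x (grad w x) (hess2 w x))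

/-- Integration by parts with a Lipschitz function. -/
def Stmt_IB : Prop := ∀ (U : Set E3) (F : Fin 3 → E3 → ℝ) (f : E3 → ℝ) (C : NNReal),
  IsOpen U → (∀ i, ContDiffOn ℝ 1 (F i) U) → LipschitzWith C f → HasCompactSupport f →
  tsupport f ⊆ U →
  ∫ x, f x * ∑ i, pd i (F i) x = - ∫ x, ∑ i, pd i f x * F i x

/-! ## Bounds on compact sets -/

/-- Constants. -/
def Stmt_CT : Prop := ∀ (U : Set E3) (g h : TensorField), IsOpen U → MetricOn U g →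
  TensorOn U h → ∀ K : Set E3, IsCompact K → K ⊆ U → ∃ C : ℝ, 1 ≤ C ∧ ∀ x ∈ K,
  (∀ p, vsq p / C ≤ ev (g x)⁻¹ p p ∧ ev (g x)⁻¹ p p ≤ C * vsq p) ∧
  (∀ H : Bil, msq H / C ≤ nsq g x H ∧ nsq g x H ≤ C * msq H) ∧
  (∀ p, |qf (g x)⁻¹ (ric g x) p| ≤ C * vsq p) ∧
  (∀ k i j, |christoffel g k i j x| ≤ C) ∧ (∀ i j, |h x i j| ≤ C) ∧
  (∀ i, |momV g h x i| ≤ C) ∧ |energyDensity g h x| ≤ C ∧ |scalarCurvature g x| ≤ C ∧
  (∀ i j, |(g x)⁻¹ i j| ≤ C) ∧ 1 / C ≤ volDen g x ∧ volDen g x ≤ C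

/-- Upper bounds for the divergences. -/
def Stmt_UP : Prop := ∀ (ε : ℝ) (U : Set E3) (g h : TensorField), 0 < ε → ε < 1 → IsOpen U →
  MetricOn U g → TensorOn U h → ∀ K : Set E3, IsCompact K → K ⊆ U → ∃ C : ℝ, 1 ≤ C ∧ ∀ x ∈ K,
  ∀ (p : Cov) (M : Bil) (d : ℝ), p ≠ 0 → M.IsSymm → 0 ≤ d → d ≤ 1 →
  Ddx g d x p M ≤ 1 / ld (g x)⁻¹ d p * (- (msq M / C)
    + C * (resid ε g h x p M ^ 2 + vsq p * (1 + vsq p))) ∧
  DZx ε g h d x p M ≤ C * (resid ε g h x p M ^ 2 / vn p + (1 + vsq p) * (vn p + d))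

/-- The residual as a function of `p` and `M`. -/
def Stmt_CHD : Prop := ∀ (ε : ℝ) (U : Set E3) (g h : TensorField), 0 < ε → ε < 1 → IsOpen U →
  MetricOn U g → TensorOn U h → ∀ K : Set E3, IsCompact K → K ⊆ U → ∃ C : ℝ, 1 ≤ C ∧ ∀ x ∈ K,
  (∀ (p p' : Cov) (M : Bil), p ≠ 0 → p' ≠ 0 →
    |resid ε g h x p' M - resid ε g h x p M|
      ≤ C * (min 1 (vn (p' - p) / vn p) * Real.sqrt (msq M)
        + vn (p' - p) * (1 + vn p + vn p'))) ∧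
  (∀ (p : Cov) (M M' : Bil),
    |resid ε g h x p M - resid ε g h x p M'| ≤ C * Real.sqrt (msq (M - M'))) ∧
  (∀ (p : Cov) (M : Bil),
    |resid ε g h x p M| ≤ C * (Real.sqrt (msq M) + vn p * (1 + vn p)))

/-- The kernel estimate. -/
def Stmt_KER : Prop := ∃ C : ℝ, 0 < C ∧ ∀ (r : ℝ) (v : E3), 0 < r →
  ∫⁻ a in Metric.ball (0 : E3) r, ENNReal.ofReal (1 / ‖v + a‖)
    ≤ ENNReal.ofReal (C * r ^ 3 / max r ‖v‖)

/-! ## Sobolev functions -/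

/-- Gradients are in `L⁴`. -/
def Stmt_L4 : Prop := ∀ (U : Set E3) (w : E3 → ℝ) (G : E3 → Cov) (M : E3 → Bil), IsOpen U →
  H2On U w G M → H2s U w G M

/-- The divergence formula for `Y_d` and Sobolev functions. -/
def Stmt_H2I : Prop := ∀ (U : Set E3) (g : TensorField) (w : E3 → ℝ) (G : E3 → Cov)
  (M : E3 → Bil), IsOpen U → MetricOn U g → H2s U w G M →
  ∀ (f : E3 → ℝ) (d : ℝ), ContDiff ℝ ∞ f → HasCompactSupport f → tsupport f ⊆ U → 0 < d →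
  IntegrableOn (fun x => f x * Ddx g d x (G x) (M x) * volDen g x) U ∧
  IntegrableOn (fun x => (∑ i, pd i f x * Yf g d x (G x) (M x) i) * volDen g x) U ∧
  ∫ x in U, f x * Ddx g d x (G x) (M x) * volDen g x
    = - ∫ x in U, (∑ i, pd i f x * Yf g d x (G x) (M x) i) * volDen g x

/-- The a priori bound. -/
def Stmt_APB : Prop := ∀ (ε : ℝ) (U : Set E3) (g h : TensorField) (w : E3 → ℝ) (G : E3 → Cov)
  (M : E3 → Bil), 0 < ε → ε < 1 → IsOpen U → MetricOn U g → TensorOn U h → H2s U w G M →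
  EqW U ε g h G M → ∀ K : Set E3, IsCompact K → K ⊆ U →
  IntegrableOn (fun x => msq (M x) / vn (G x)) K

/-- Averages over linear perturbations. -/
def Stmt_AV : Prop := ∀ (ε : ℝ) (U : Set E3) (g h : TensorField) (w : E3 → ℝ) (G : E3 → Cov)
  (M : E3 → Bil), 0 < ε → ε < 1 → IsOpen U → MetricOn U g → TensorOn U h → H2s U w G M →
  EqW U ε g h G M →
  (∀ K : Set E3, IsCompact K → K ⊆ U → IntegrableOn (fun x => msq (M x) / vn (G x)) K) →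
  ∀ K : Set E3, IsCompact K → K ⊆ U → ∀ e : ℝ, 0 < e →
  ∃ (v : E3 → ℝ) (r : ℝ), ContDiff ℝ ∞ v ∧ 0 < r ∧ r < e ∧ (∀ x ∈ K, |v x - w x| < e) ∧
    (∀ i, eLpNorm (fun x => pd i v x - G x i) 4 (volume.restrict K) < ENNReal.ofReal e) ∧
    (∀ i j, eLpNorm (fun x => pd i (pd j v) x - M x i j) 2 (volume.restrict K)
      < ENNReal.ofReal e) ∧
    ∫⁻ a in Metric.ball (0 : E3) r, ∫⁻ x in K, ENNReal.ofReal
        (resid ε g h x (fun i => pd i v x + a i) (hess2 v x) ^ 2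
          / vn (fun i => pd i v x + a i))
      ≤ ENNReal.ofReal e * volume (Metric.ball (0 : E3) r)

/-- Almost every linear perturbation of a smooth function has finitely many critical points in a
compact set. -/
def Stmt_MO : Prop := ∀ (v : E3 → ℝ) (K : Set E3), ContDiff ℝ ∞ v → IsCompact K →
  ∀ᵐ a : E3, {x ∈ K | ∀ i, pd i v x + a i = 0}.Finite

/-- Approximation with small residual. -/
def Stmt_AP : Prop := ∀ (ε : ℝ) (U : Set E3) (g h : TensorField) (w : E3 → ℝ) (G : E3 → Cov)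
  (M : E3 → Bil), 0 < ε → ε < 1 → IsOpen U → MetricOn U g → TensorOn U h → H2s U w G M →
  EqW U ε g h G M →
  (∀ K : Set E3, IsCompact K → K ⊆ U → IntegrableOn (fun x => msq (M x) / vn (G x)) K) →
  ∀ K : Set E3, IsCompact K → K ⊆ U → ∃ v : ℕ → E3 → ℝ,
    (∀ n, ContDiff ℝ ∞ (v n)) ∧ TendstoUniformlyOn v w atTop K ∧
    (∀ i, Tendsto (fun n => eLpNorm (fun x => pd i (v n) x - G x i) 4 (volume.restrict K))
      atTop (𝓝 0)) ∧
    (∀ i j, Tendsto (fun n => eLpNorm (fun x => pd i (pd j (v n)) x - M x i j) 2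
      (volume.restrict K)) atTop (𝓝 0)) ∧
    (∀ n, {x ∈ K | grad (v n) x = 0}.Finite) ∧
    (∀ n, IntegrableOn (fun x => resid ε g h x (grad (v n) x) (hess2 (v n) x) ^ 2
      / vn (grad (v n) x)) K) ∧
    Tendsto (fun n => ∫ x in K, resid ε g h x (grad (v n) x) (hess2 (v n) x) ^ 2
      / vn (grad (v n) x)) atTop (𝓝 0)

/-- Approximation for Willmore's inequality. -/
def Stmt_APW : Prop := ∀ (U : Set E3) (w : E3 → ℝ) (G : E3 → Cov) (M : E3 → Bil), IsOpen U →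
  H2s U w G M → (∀ᵐ x ∂(volume.restrict U), G x = 0 → M x = 0) →
  (∀ K : Set E3, IsCompact K → K ⊆ U → IntegrableOn (fun x => msq (M x) / vn (G x)) K) →
  ∀ K : Set E3, IsCompact K → K ⊆ U → ∃ v : ℕ → E3 → ℝ,
    (∀ n, ContDiff ℝ ∞ (v n)) ∧ TendstoUniformlyOn v w atTop K ∧
    (∀ n, {x ∈ K | grad (v n) x = 0}.Finite) ∧
    (∀ n, IntegrableOn (fun x => Wd (grad (v n) x) (hess2 (v n) x)) K) ∧
    IntegrableOn (fun x => Wd (G x) (M x)) K ∧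
    Tendsto (fun n => ∫ x in K, |Wd (grad (v n) x) (hess2 (v n) x) - Wd (G x) (M x)|)
      atTop (𝓝 0)

/-! ## Filling -/

/-- The filled functions are Lipschitz and truncated. -/
def Stmt_FA : Prop := ∀ (a' b' s₀ s₁ : ℝ) (W : E3 → ℝ) (C : NNReal) (z₁ : E3),
  Trunc a' b' s₀ s₁ W → LipschitzWith C W → b' ≤ ‖z₁‖ →
  LipschitzWith C (fillA W s₀ z₁) ∧ LipschitzWith C (fill W s₀ s₁ 0 z₁) ∧
  (∀ x, fillA W s₀ z₁ x ≤ W x) ∧ (∀ x, fillA W s₀ z₁ x ≤ fill W s₀ s₁ 0 z₁ x) ∧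
  Trunc a' b' s₀ s₁ (fillA W s₀ z₁) ∧ Trunc a' b' s₀ s₁ (fill W s₀ s₁ 0 z₁)

/-- The filled function depends on the function in a Lipschitz way. -/
def Stmt_FM : Prop := ∀ (a' b' s₀ s₁ e : ℝ) (W W' : E3 → ℝ) (z₁ : E3),
  Trunc a' b' s₀ s₁ W → Trunc a' b' s₀ s₁ W' → b' ≤ ‖z₁‖ → (∀ x, |W x - W' x| ≤ e) →
  ∀ x, |fill W s₀ s₁ 0 z₁ x - fill W' s₀ s₁ 0 z₁ x| ≤ e

/-- The filled functions are locally constant where something was filled. -/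
def Stmt_FB : Prop := ∀ (a' b' s₀ s₁ : ℝ) (W : E3 → ℝ) (C : NNReal) (z₁ : E3),
  Trunc a' b' s₀ s₁ W → LipschitzWith C W → b' ≤ ‖z₁‖ →
  (∀ x, fillA W s₀ z₁ x ≠ W x → ∀ᶠ y in 𝓝 x, fillA W s₀ z₁ y = fillA W s₀ z₁ x) ∧
  (∀ x, fill W s₀ s₁ 0 z₁ x ≠ fillA W s₀ z₁ x →
    ∀ᶠ y in 𝓝 x, fill W s₀ s₁ 0 z₁ y = fill W s₀ s₁ 0 z₁ x)

/-- Sublevel and superlevel sets of the filled function are connected. -/
def Stmt_FC : Prop := ∀ (a' b' s₀ s₁ : ℝ) (W : E3 → ℝ) (C : NNReal) (z₁ : E3),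
  Trunc a' b' s₀ s₁ W → LipschitzWith C W → b' ≤ ‖z₁‖ → ∀ c : ℝ,
  IsPreconnected {x | fill W s₀ s₁ 0 z₁ x < c} ∧ IsPreconnected {x | c < fill W s₀ s₁ 0 z₁ x}

/-- Regular levels of a smooth function are topologically regular. -/
def Stmt_SM : Prop := ∀ (W : E3 → ℝ) (c : ℝ), Continuous W → IsCompact {z | W z = c} →
  (∀ z, W z = c → ContDiffAt ℝ 1 W z ∧ grad W z ≠ 0) → RegLevel W c

/-- Nothing is filled at regular levels (one step: if the component of `z₁` in the superlevel sets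
does not contain `y` at a regular level, then it does not at slightly smaller levels). -/
def Stmt_FD1 : Prop := ∀ (W : E3 → ℝ) (c : ℝ) (y z : E3), Continuous W → RegLevel W c →
  c < W y → c < W z → ¬ Conn {x | c < W x} y z → ∃ e > 0, ¬ Conn {x | c - e < W x} y z

/-- Nothing is filled at regular levels. -/
def Stmt_FD : Prop := ∀ (a' b' s₀ s₁ : ℝ) (W : E3 → ℝ) (C : NNReal) (z₁ : E3),
  Trunc a' b' s₀ s₁ W → LipschitzWith C W → b' ≤ ‖z₁‖ → ∀ α β : ℝ, s₀ ≤ α → α < β → β ≤ s₁ →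
  (∀ c ∈ Set.Ioo α β, RegLevel W c) →
  ∀ x, fill W s₀ s₁ 0 z₁ x ∈ Set.Ioo α β → x ∈ good W s₀ s₁ 0 z₁

/-- The derivative of the filled function. -/
def Stmt_AEG : Prop := ∀ (a' b' s₀ s₁ : ℝ) (W : E3 → ℝ) (C : NNReal) (z₁ : E3),
  Trunc a' b' s₀ s₁ W → LipschitzWith C W → b' ≤ ‖z₁‖ →
  IsClosed (good W s₀ s₁ 0 z₁) ∧
  ∀ᵐ x : E3, (x ∈ good W s₀ s₁ 0 z₁ → fderiv ℝ (fill W s₀ s₁ 0 z₁) x = fderiv ℝ W x) ∧
    (x ∉ good W s₀ s₁ 0 z₁ → fderiv ℝ (fill W s₀ s₁ 0 z₁) x = 0)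

/-- A function without islands is not changed by filling. -/
def Stmt_FX : Prop := ∀ (a b a' b' s₀ s₁ : ℝ) (w : E3 → ℝ) (z₁ : E3),
  0 < a → a < a' → a' < b' → b' < b → s₀ < s₁ → ContinuousOn w (Ann a b) →
  NoIsland (Ann a b) w → (∀ x : E3, a < ‖x‖ → ‖x‖ ≤ a' → w x ≤ s₀) →
  (∀ x : E3, b' ≤ ‖x‖ → ‖x‖ < b → s₁ ≤ w x) → b' ≤ ‖z₁‖ →
  Trunc a' b' s₀ s₁ (trW a' b' s₀ s₁ w) ∧
  ∀ x, fill (trW a' b' s₀ s₁ w) s₀ s₁ 0 z₁ x = trW a' b' s₀ s₁ w x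

/-- Truncation of an approximation. -/
def Stmt_TR : Prop := ∀ (a b a' b' s₀ s₁ η e : ℝ) (w v : E3 → ℝ),
  0 < a → a < a' → a' < b' → b' < b → s₀ < s₁ → 0 < e → e < η → ContinuousOn w (Ann a b) →
  (∀ x : E3, a < ‖x‖ → ‖x‖ ≤ a' → w x ≤ s₀ - η) →
  (∀ x : E3, b' ≤ ‖x‖ → ‖x‖ < b → s₁ + η ≤ w x) → ContDiff ℝ ∞ v →
  (∀ x ∈ Ann a b, s₀ - η ≤ w x → w x ≤ s₁ + η → |v x - w x| ≤ e) →
  ∃ (W : E3 → ℝ) (C : NNReal), Trunc a' b' s₀ s₁ W ∧ LipschitzWith C W ∧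
    (∀ x, |W x - trW a' b' s₀ s₁ w x| ≤ e) ∧
    (∀ x ∈ Ann a b, s₀ + e < w x → w x < s₁ - e → ∀ᶠ y in 𝓝 x, W y = v y)

/-! ## The inequality for a smooth function -/

/-- The hypotheses of the level set inequality for a smooth function: `W` is a truncated Lipschitz
function which is equal to the smooth function `v` near the compact set `K`, and `K` contains the
points where `W` or the filled function take values in `[t₀, t₁]`. -/
structure LSData (U : Set E3) (g h : TensorField) (a' b' s₀ s₁ t₀ t₁ : ℝ) (W v : E3 → ℝ)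
    (C : NNReal) (z₁ : E3) (K : Set E3) (ψ : ℝ → ℝ) : Prop where
  openU : IsOpen U
  met : MetricOn U g
  ten : TensorOn U h
  trunc : Trunc a' b' s₀ s₁ W
  lip : LipschitzWith C W
  far : b' ≤ ‖z₁‖
  smooth : ContDiff ℝ ∞ v
  compact : IsCompact K
  sub : K ⊆ U
  agree : ∀ x ∈ K, ∀ᶠ y in 𝓝 x, W y = v y
  lt₀ : s₀ < t₀
  lt : t₀ < t₁
  lt₁ : t₁ < s₁
  diff : ContDiff ℝ 1 ψ
  nonneg : ∀ s, 0 ≤ ψ s
  supp : tsupport ψ ⊆ Set.Ioo t₀ t₁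
  levels : ∀ x, fill W s₀ s₁ 0 z₁ x ∈ Set.Icc t₀ t₁ → x ∈ K
  levelsW : ∀ x, W x ∈ Set.Icc t₀ t₁ → x ∈ K

/-- The part of the levels in the support of `ψ` where something was filled. -/
def badset (W : E3 → ℝ) (s₀ s₁ : ℝ) (z₁ : E3) (ψ : ℝ → ℝ) : Set E3 :=
  {x | fill W s₀ s₁ 0 z₁ x ∈ tsupport ψ} \ good W s₀ s₁ 0 z₁

/-- Integration by parts with `ψ` of the filled function. -/
def Stmt_LSA : Prop := ∀ (ε : ℝ) (U : Set E3) (g h : TensorField) (a' b' s₀ s₁ t₀ t₁ : ℝ)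
  (W v : E3 → ℝ) (C : NNReal) (z₁ : E3) (K : Set E3) (ψ : ℝ → ℝ), 0 < ε → ε < 1 →
  LSData U g h a' b' s₀ s₁ t₀ t₁ W v C z₁ K ψ → ∀ d : ℝ, 0 < d →
  - ∫ x in K ∩ good W s₀ s₁ 0 z₁,
      deriv ψ (v x) * (∑ i, pd i v x * Zf ε g h d x (grad v x) (hess2 v x) i) * volDen g x
    = ∫ x in K, ψ (fill W s₀ s₁ 0 z₁ x) * DZx ε g h d x (grad v x) (hess2 v x) * volDen g x

/-- The limit `d → 0` and the crude bound where something was filled. -/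
def Stmt_LSB : Prop := ∀ (ε : ℝ) (U : Set E3) (g h : TensorField) (K : Set E3), 0 < ε → ε < 1 →
  IsOpen U → MetricOn U g → TensorOn U h → IsCompact K → K ⊆ U → ∃ C₀ : ℝ, 0 ≤ C₀ ∧
  ∀ (a' b' s₀ s₁ t₀ t₁ : ℝ) (W v : E3 → ℝ) (C : NNReal) (z₁ : E3) (ψ : ℝ → ℝ) (B : ℝ),
  LSData U g h a' b' s₀ s₁ t₀ t₁ W v C z₁ K ψ → (∀ s, ψ s ≤ B) →
  {x ∈ K | grad v x = 0}.Finite →
  IntegrableOn (fun x => resid ε g h x (grad v x) (hess2 v x) ^ 2 / vn (grad v x)) K →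
  IntegrableOn (fun x => ψ (v x) * (msq (hess2 v x) / vn (grad v x)))
    (K ∩ good W s₀ s₁ 0 z₁) ∧
  IntegrableOn (fun x => ψ (v x) * DZx ε g h 0 x (grad v x) (hess2 v x) * volDen g x)
    (K ∩ good W s₀ s₁ 0 z₁) ∧
  - ∫ x in K ∩ good W s₀ s₁ 0 z₁,
      deriv ψ (v x) * flux ε g h x (grad v x) (hess2 v x) * volDen g x
    ≤ (∫ x in K ∩ good W s₀ s₁ 0 z₁,
        ψ (v x) * DZx ε g h 0 x (grad v x) (hess2 v x) * volDen g x)
      + C₀ * B * ∫ x in badset W s₀ s₁ z₁ ψ,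
        (resid ε g h x (grad v x) (hess2 v x) ^ 2 / vn (grad v x)
          + (1 + vsq (grad v x)) * vn (grad v x))

/-- The Gauss-Bonnet inequality for the filled levels of a smooth function, away from finitely many
critical values. -/
def Stmt_LSG : Prop := ∀ (U : Set E3) (g h : TensorField) (a' b' s₀ s₁ t₀ t₁ : ℝ)
  (W v : E3 → ℝ) (C : NNReal) (z₁ : E3) (K : Set E3) (ψ χ : ℝ → ℝ),
  LSData U g h a' b' s₀ s₁ t₀ t₁ W v C z₁ K ψ → BumpOn t₀ t₁ χ →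
  {x ∈ K | grad v x = 0}.Finite → (∀ x ∈ K, grad v x = 0 → v x ∉ tsupport χ) →
  ∫ x in K ∩ good W s₀ s₁ 0 z₁, χ (v x) * Kd g x (grad v x) (hess2 v x) * volDen g x
    ≤ 4 * Real.pi * ∫ s, χ s

/-- The level set inequality for a smooth function with small residual. -/
def Stmt_LS : Prop := ∀ (ε θ : ℝ) (U : Set E3) (g h : TensorField) (K : Set E3), 0 < ε →
  ε < 1 → 0 < θ → θ < 1 → IsOpen U → MetricOn U g → TensorOn U h → IsCompact K → K ⊆ U →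
  ∃ C₀ : ℝ, 0 ≤ C₀ ∧
  ∀ (a' b' s₀ s₁ t₀ t₁ : ℝ) (W v : E3 → ℝ) (C : NNReal) (z₁ : E3) (ψ : ℝ → ℝ) (B : ℝ),
  LSData U g h a' b' s₀ s₁ t₀ t₁ W v C z₁ K ψ → (∀ s, ψ s ≤ B) →
  {x ∈ K | grad v x = 0}.Finite →
  IntegrableOn (fun x => resid ε g h x (grad v x) (hess2 v x) ^ 2 / vn (grad v x)) K →
  IntegrableOn (fun x => ψ (v x) * (len g x (grad v x) * dis0 ε g h x (grad v x) (hess2 v x))
    * volDen g x) (K ∩ good W s₀ s₁ 0 z₁) ∧
  - (∫ x in K ∩ good W s₀ s₁ 0 z₁,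
      deriv ψ (v x) * flux ε g h x (grad v x) (hess2 v x) * volDen g x)
    ≤ 4 * Real.pi * (∫ s, ψ s)
      - 1 / (2 - ε) * (∫ x in K ∩ good W s₀ s₁ 0 z₁,
        ψ (v x) * flux ε g h x (grad v x) (hess2 v x) * volDen g x)
      - (∫ x in K ∩ good W s₀ s₁ 0 z₁, ψ (v x) * (len g x (grad v x)
          * (matter g h x (grad v x) + diss ε g h x (grad v x) (hess2 v x)
            - dis0 ε g h x (grad v x) (hess2 v x))) * volDen g x)
      - (1 - θ) * (∫ x in K ∩ good W s₀ s₁ 0 z₁, ψ (v x) * (len g x (grad v x)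
          * dis0 ε g h x (grad v x) (hess2 v x)) * volDen g x)
      + C₀ * B * ((∫ x in K, resid ε g h x (grad v x) (hess2 v x) ^ 2 / vn (grad v x))
        + ∫ x in badset W s₀ s₁ z₁ ψ, (1 + vsq (grad v x)) * vn (grad v x))

/-! ## Passage to the limit -/

/-- The filled regions disappear in the limit. -/
def Stmt_BAD : Prop := ∀ (a b a' b' s₀ s₁ : ℝ) (w : E3 → ℝ) (G : E3 → Cov)
  (M : E3 → Bil) (K : Set E3) (z₁ : E3) (v W : ℕ → E3 → ℝ) (C : ℕ → NNReal) (e : ℕ → ℝ)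
  (f : E3 → ℝ), 0 < a → a < a' → a' < b' → b' < b → s₀ < s₁ →
  H2s (Ann a b) w G M → IsCompact K → K ⊆ Ann a b →
  (∀ x ∈ K, s₀ < w x ∧ w x < s₁) → (∀ x ∈ K, a' < ‖x‖ ∧ ‖x‖ < b') → b' ≤ ‖z₁‖ →
  Trunc a' b' s₀ s₁ (trW a' b' s₀ s₁ w) →
  (∀ x, fill (trW a' b' s₀ s₁ w) s₀ s₁ 0 z₁ x = trW a' b' s₀ s₁ w x) →
  (∀ n, Trunc a' b' s₀ s₁ (W n)) → (∀ n, LipschitzWith (C n) (W n)) →
  (∀ n, ContDiff ℝ ∞ (v n)) → (∀ n, ∀ x ∈ K, ∀ᶠ y in 𝓝 x, W n y = v n y) →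
  Tendsto e atTop (𝓝 0) → (∀ n x, |W n x - trW a' b' s₀ s₁ w x| ≤ e n) →
  (∀ i, Tendsto (fun n => eLpNorm (fun x => pd i (v n) x - G x i) 4 (volume.restrict K))
    atTop (𝓝 0)) →
  ContDiff ℝ ∞ f → tsupport f ⊆ K → (∀ x, 0 ≤ f x) → (∀ x, f x ≤ 1) →
  Tendsto (fun n => ∫ x in K \ good (W n) s₀ s₁ 0 z₁, f x * vsq (G x)) atTop (𝓝 0)

/-- The hypotheses of the limit: everything about the approximating sequence. -/
structure SeqData (ε a b : ℝ) (g h : TensorField) (w : E3 → ℝ) (G : E3 → Cov) (M : E3 → Bil)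
    (ψ : ℝ → ℝ) (a' b' s₀ s₁ t₀ t₁ : ℝ) (z₁ : E3) (K K' : Set E3) (v W : ℕ → E3 → ℝ)
    (C : ℕ → NNReal) : Prop where
  ls : ∀ n, LSData (Ann a b) g h a' b' s₀ s₁ t₀ t₁ (W n) (v n) (C n) z₁ K ψ
  sub : K' ⊆ K
  compact' : IsCompact K'
  levels : ∀ x ∈ Ann a b, w x ∈ tsupport ψ → x ∈ K'
  levelsn : ∀ n, ∀ x ∈ K, fill (W n) s₀ s₁ 0 z₁ x ∈ tsupport ψ → x ∈ K'
  levelsv : ∀ n, ∀ x ∈ K, v n x ∈ tsupport ψ → x ∈ K'
  unif : TendstoUniformlyOn v w atTop K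
  conv1 : ∀ i, Tendsto (fun n => eLpNorm (fun x => pd i (v n) x - G x i) 4 (volume.restrict K))
    atTop (𝓝 0)
  conv2 : ∀ i j, Tendsto (fun n => eLpNorm (fun x => pd i (pd j (v n)) x - M x i j) 2
    (volume.restrict K)) atTop (𝓝 0)
  crit : ∀ n, {x ∈ K | grad (v n) x = 0}.Finite
  int : ∀ n, IntegrableOn (fun x => resid ε g h x (grad (v n) x) (hess2 (v n) x) ^ 2
    / vn (grad (v n) x)) K
  conv3 : Tendsto (fun n => ∫ x in K, resid ε g h x (grad (v n) x) (hess2 (v n) x) ^ 2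
    / vn (grad (v n) x)) atTop (𝓝 0)
  bad : Tendsto (fun n => ∫ x in K' \ good (W n) s₀ s₁ 0 z₁, vsq (G x)) atTop (𝓝 0)

/-- Existence of the approximating sequence. -/
def Stmt_SEQ : Prop := ∀ (ε a b s₀ s₁ : ℝ) (g h : TensorField) (w : E3 → ℝ) (G : E3 → Cov)
  (M : E3 → Bil), 0 < ε → ε < 1 → 0 < a → a < b → s₀ < s₁ →
  MetricOn (Ann a b) g → TensorOn (Ann a b) h → H2s (Ann a b) w G M →
  EqW (Ann a b) ε g h G M → NoIsland (Ann a b) w → Sep a b s₀ s₁ w →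
  (∀ K : Set E3, IsCompact K → K ⊆ Ann a b →
    IntegrableOn (fun x => msq (M x) / vn (G x)) K) →
  ∀ ψ : ℝ → ℝ, ContDiff ℝ 1 ψ → HasCompactSupport ψ → tsupport ψ ⊆ Set.Ioo s₀ s₁ →
    (∀ s, 0 ≤ ψ s) →
  ∃ (a' b' σ₀ σ₁ t₀ t₁ : ℝ) (z₁ : E3) (K K' : Set E3) (v W : ℕ → E3 → ℝ) (C : ℕ → NNReal),
    SeqData ε a b g h w G M ψ a' b' σ₀ σ₁ t₀ t₁ z₁ K K' v W C

/-- Convergence of the terms which are continuous. -/
def Stmt_CV : Prop := ∀ (ε : ℝ) (U : Set E3) (g h : TensorField) (w : E3 → ℝ) (G : E3 → Cov)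
  (M : E3 → Bil) (K : Set E3) (v : ℕ → E3 → ℝ), 0 < ε → ε < 1 → IsOpen U → MetricOn U g →
  TensorOn U h → H2s U w G M → EqW U ε g h G M → IsCompact K → K ⊆ U →
  (∀ n, ContDiff ℝ ∞ (v n)) →
  (∀ i, Tendsto (fun n => eLpNorm (fun x => pd i (v n) x - G x i) 4 (volume.restrict K))
    atTop (𝓝 0)) →
  (∀ i j, Tendsto (fun n => eLpNorm (fun x => pd i (pd j (v n)) x - M x i j) 2
    (volume.restrict K)) atTop (𝓝 0)) →
  Tendsto (fun n => ∫ x in K, |flux ε g h x (grad (v n) x) (hess2 (v n) x)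
    - flux ε g h x (G x) (M x)|) atTop (𝓝 0) ∧
  Tendsto (fun n => ∫ x in K, |len g x (grad (v n) x) * (matter g h x (grad (v n) x)
      + diss ε g h x (grad (v n) x) (hess2 (v n) x) - dis0 ε g h x (grad (v n) x) (hess2 (v n) x))
    - len g x (G x) * (matter g h x (G x) + diss ε g h x (G x) (M x)
      - dis0 ε g h x (G x) (M x))|) atTop (𝓝 0) ∧
  Tendsto (fun n => ∫ x in K, |(1 + vsq (grad (v n) x)) * vn (grad (v n) x)
    - (1 + vsq (G x)) * vn (G x)|) atTop (𝓝 0)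

/-- The limit inequality for fixed `θ`. -/
def Stmt_MIT : Prop := ∀ (ε θ a b : ℝ) (g h : TensorField) (w : E3 → ℝ) (G : E3 → Cov)
  (M : E3 → Bil) (ψ : ℝ → ℝ) (a' b' s₀ s₁ t₀ t₁ : ℝ) (z₁ : E3) (K K' : Set E3)
  (v W : ℕ → E3 → ℝ) (C : ℕ → NNReal), 0 < ε → ε < 1 → 0 < θ → θ < 1 → 0 < a → a < b →
  MetricOn (Ann a b) g → TensorOn (Ann a b) h → H2s (Ann a b) w G M →
  EqW (Ann a b) ε g h G M →
  (∀ K : Set E3, IsCompact K → K ⊆ Ann a b →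
    IntegrableOn (fun x => msq (M x) / vn (G x)) K) →
  SeqData ε a b g h w G M ψ a' b' s₀ s₁ t₀ t₁ z₁ K K' v W C →
  - ∫ x in K, deriv ψ (w x) * flux ε g h x (G x) (M x) * volDen g x
    ≤ 4 * Real.pi * (∫ s, ψ s)
      - 1 / (2 - ε) * (∫ x in K, ψ (w x) * flux ε g h x (G x) (M x) * volDen g x)
      - (∫ x in K, ψ (w x) * (len g x (G x)
          * (matter g h x (G x) + diss ε g h x (G x) (M x) - dis0 ε g h x (G x) (M x)))
          * volDen g x)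
      - (1 - θ) * ∫ x in K, ψ (w x) * (len g x (G x) * dis0 ε g h x (G x) (M x))
          * volDen g x

/-! ## Willmore's inequality for a smooth function -/

/-- The Gauss image of the part of the level sets with nonnegative second fundamental form. -/
def Stmt_GAU : Prop := ∀ (a' b' s₀ s₁ : ℝ) (W v : E3 → ℝ) (K : Set E3) (ψ : ℝ → ℝ),
  Trunc a' b' s₀ s₁ W → ContDiff ℝ ∞ v → IsCompact K →
  (∀ x ∈ K, ∀ᶠ y in 𝓝 x, W y = v y) → {x ∈ K | grad v x = 0}.Finite →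
  Continuous ψ → (∀ s, 0 ≤ ψ s) → tsupport ψ ⊆ Set.Ioo s₀ s₁ →
  (∀ x, W x ∈ tsupport ψ → x ∈ K) →
  ENNReal.ofReal (16 * Real.pi * ∫ s, ψ s)
    ≤ ∫⁻ x in K, ENNReal.ofReal (ψ (v x) * Wd (grad v x) (hess2 v x))

end Pool.Agent.PFlow
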