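import Pool.Agent.PFlow.StmtsM

/-!
# MO: almost every linear perturbation of a smooth function has finitely many critical points
-/

open MeasureTheory Filter Topology
open scoped ContDiff

namespace Pool.Agent.PFlow

open Pool.Agent.PenroseSph

namespace MMO

theorem contDiff_pd (i : Fin 3) {v : E3 → ℝ} (hv : ContDiff ℝ ∞ v) : ContDiff ℝ ∞ (pd i v) := by
  unfold pd
  have h : ContDiff ℝ ∞ (fderiv ℝ v) := hv.fderiv_right (m := ∞) (by simp)
  exact h.clm_apply contDiff_const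

/-- minus the gradient, as a vector field -/
noncomputable def F (v : E3 → ℝ) (x : E3) : E3 := WithLp.toLp 2 (fun i => - pd i v x)

theorem F_apply (v : E3 → ℝ) (x : E3) (i : Fin 3) : F v x i = - pd i v x := rfl

theorem contDiff_F {v : E3 → ℝ} (hv : ContDiff ℝ ∞ v) : ContDiff ℝ ∞ (F v) := by
  rw [contDiff_euclidean]
  intro i
  exact (contDiff_pd i hv).neg

theorem F_eq_iff (v : E3 → ℝ) (x a : E3) : F v x = a ↔ ∀ i, pd i v x + a i = 0 := by
  constructor
  · rintro rfl i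
    rw [F_apply, add_neg_cancel]
  · intro h
    ext i
    rw [F_apply]
    have := h i
    linarith

end MMO

theorem MO : Stmt_MO := by
  intro v K hv hK
  have hF := MMO.contDiff_F hv
  have hd : Differentiable ℝ (MMO.F v) := hF.differentiable (by simp)
  have h0 : volume (MMO.F v '' {x | (fderiv ℝ (MMO.F v) x).det = 0}) = 0 :=
    addHaar_image_eq_zero_of_det_fderivWithin_eq_zero volume
      (fun x _ => (hd x).hasFDerivAt.hasFDerivWithinAt) (fun x hx => hx)
  have h1 : ∀ᵐ a : E3, a ∉ MMO.F v '' {x | (fderiv ℝ (MMO.F v) x).det = 0} :=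
    measure_eq_zero_iff_ae_notMem.mp h0
  filter_upwards [h1] with a ha
  by_contra hinf
  have hT : {x | x ∈ K ∧ ∀ i, pd i v x + a i = 0} = K ∩ (MMO.F v) ⁻¹' {a} := by
    ext x
    simp only [Set.mem_ofPred_eq, Set.mem_inter_iff, Set.mem_preimage, Set.mem_singleton_iff,
      MMO.F_eq_iff]
  rw [hT] at hinf
  have hc : IsCompact (K ∩ (MMO.F v) ⁻¹' {a}) :=
    hK.inter_right (isClosed_singleton.preimage hF.continuous)
  obtain ⟨z, hz, hz2⟩ := exists_nhds_ne_inf_principal_neBot hc hinf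
  have hza : MMO.F v z = a := hz.2
  have hdet : (fderiv ℝ (MMO.F v) z).det ≠ 0 := fun h => ha ⟨z, h, hza⟩
  have h2 : ∀ᶠ y in 𝓝[≠] z, MMO.F v y ≠ a := by
    refine (hd z).hasFDerivAt.eventually_ne ?_
    exact ⟨_, (ContinuousLinearMap.toContinuousLinearEquivOfDetNeZero _ hdet).antilipschitz⟩
  have h3 : ∀ᶠ y in 𝓝[≠] z ⊓ 𝓟 (K ∩ (MMO.F v) ⁻¹' {a}), False := by
    have h4 : ∀ᶠ y in 𝓝[≠] z ⊓ 𝓟 (K ∩ (MMO.F v) ⁻¹' {a}), y ∈ K ∩ (MMO.F v) ⁻¹' {a} :=
      mem_inf_of_right (mem_principal_self _)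
    filter_upwards [h4, h2.filter_mono inf_le_left] with y hy1 hy2
    exact hy2 hy1.2
  obtain ⟨y, hy⟩ := h3.exists
  exact hy

end Pool.Agent.PFlow
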