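import Pool.Agent.PFlow.DefsXH
import Pool.Agent.PFlow.StmtsE3
import Pool.Agent.PFlow.StmtsM

/-!
# Exterior regions: statements, part 2 (levels, energy, mass, area, assembly)

Adaptations of the modules of the energy block; the name of the model is given in square brackets.
See `E2.md`, sections L, M, N.
-/

open MeasureTheory Filter Topology
open scoped ContDiff ENNReal

namespace Pool.Agent.PFlow

open Pool.Agent.PenroseSph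

/-- XMODM [MODM]: the constant of the modified data may be increased. -/
def Stmt_XMODM : Prop :=
  ∀ (g k : TensorField) (C C' l τ κ : ℝ) (g' h' : TensorField) (e : E3 → ℝ), 0 < C → 0 < l →
    0 < τ → C ≤ C' → ModifiedX g k C l τ κ g' h' e → ModifiedX g k C' l τ κ g' h' e

/-- XLOC [LOC]: location of the level sets. -/
def Stmt_XLOC : Prop :=
  ∀ ε C : ℝ, 0 < ε → ε ≤ 1 / 2 → 0 < C →
    ∃ c γ τ₀ : ℝ, 0 < c ∧ 2 ≤ γ ∧ 0 < τ₀ ∧ τ₀ ≤ 1 / 10 ∧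
      ∀ l : ℝ, 8 ≤ l → ∃ R₀ : ℝ, 16 * l ≤ R₀ ∧ ∀ τ R : ℝ, 0 < τ → τ ≤ τ₀ → R₀ ≤ R →
        ∀ (g h : TensorField) (u : E3 → ℝ) (G : E3 → Cov) (M : E3 → Bil),
          MetricOn Set.univ g →
          (∀ x : E3, 1 ≤ ‖x‖ → |barB ε g h x - bE ε ‖x‖| ≤ C / (1 + ‖x‖ ^ 2)) →
          SolX ε R g h u G M → LocatedX ε c γ τ l R u

/-- XLOCU [LOCU]: location of the level sets, uniformly in `ε`. -/
def Stmt_XLOCU : Prop :=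
  ∀ C : ℝ, 0 < C → ∃ r : ℝ, 1 < r ∧ ∀ ε : ℝ, 0 < ε → ε ≤ 1 / 2 →
    ∃ R₀ : ℝ, ∀ R : ℝ, R₀ ≤ R →
      ∀ (g h : TensorField) (u : E3 → ℝ) (G : E3 → Cov) (M : E3 → Bil),
        MetricOn Set.univ g →
        (∀ x : E3, 1 ≤ ‖x‖ → |barB ε g h x - bE ε ‖x‖| ≤ C / (1 + ‖x‖ ^ 2)) →
        SolX ε R g h u G M → ∀ x : E3, r ≤ ‖x‖ → ‖x‖ < R → 1 < wOf ε u x

/-- XSETW [SETW]: the function `w` and its levels. -/
def Stmt_XSETW : Prop :=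
  ∀ (P : ParX) (D : DatX), SetupX P D →
    MetricOn (Ann (1 / 2) D.R) D.g' ∧ TensorOn (Ann (1 / 2) D.R) D.h' ∧
    TwoNonneg D.Om D.g' D.h' ∧
    H2On (Ann (1 / 2) D.R) (D.w P) (D.Gw P) (D.Mw P) ∧
    EqW (Ann (1 / 2) D.R) P.eps D.g' D.h' (D.Gw P) (D.Mw P) ∧
    NoIsland (Ann (1 / 2) D.R) (D.w P) ∧ Measurable (D.w P) ∧
    (∃ c : ℝ, 0 < c ∧ Sep (1 / 2) D.R (P.eps / 4 - c) (D.sM P) (D.w P)) ∧
    Sep (2 * D.l) D.R (D.s2 P) (D.sM P) (D.w P) ∧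
    (∀ x ∈ D.Om, P.eps / 4 < D.w P x) ∧
    (∀ x : E3, 1 ≤ ‖x‖ → ‖x‖ ≤ Real.exp D.tau → D.w P x < 3 * P.eps / 4) ∧
    (∀ x ∈ D.Om, D.w P x < D.sM P → ‖x‖ < D.R / 2) ∧
    (∀ x ∈ D.Om, D.s2 P ≤ D.w P x → 4 * D.l ≤ ‖x‖) ∧
    (∀ x : E3, D.l / 4 ≤ ‖x‖ → ‖x‖ ≤ D.Kl P → D.w P x ≤ D.s2 P + 1 + 2 * P.gam) ∧
    (∀ x ∈ D.Om, D.w P x < D.s2 P + 1 → ‖x‖ ≤ D.Kl P) ∧
    (∀ s', s' < D.sM P → ∃ K : Set E3, IsCompact K ∧ K ⊆ Ann (1 / 2) D.R ∧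
      D.Om ∩ {x | D.w P x ≤ s'} ⊆ K) ∧
    1 < D.s2 P ∧ D.s2 P + 4 + 4 * P.gam < D.sM P ∧ 2 * D.Kl P ≤ D.R ∧ 4 * D.l ≤ D.Kl P

/-- XABSI [ABSI]: integrability over the level regions. -/
def Stmt_XABSI : Prop :=
  ∀ (P : ParX) (D : DatX), SetupX P D →
    LvlIntX P D D.vol ∧ LvlIntX P D (fun x => D.X P x ^ 3 * D.vol x) ∧
    LvlIntX P D (fun x => D.Phi P x * D.vol x) ∧ LvlIntX P D (fun x => D.Di P x * D.vol x) ∧
    LvlIntX P D (fun x => D.Su P x * D.vol x) ∧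
    LvlIntX P D (fun x => D.X P x * matter D.g' D.h' x (D.Gw P x) * D.vol x) ∧
    (∀ᵐ x ∂(volume.restrict D.Om), 0 ≤ D.Di P x) ∧
    (∀ x ∈ D.Om, D.Su P x ≤ D.X P x * matter D.g' D.h' x (D.Gw P x)) ∧
    AEStronglyMeasurable (D.X P) (volume.restrict D.Om)

/-- MIX: the level set inequality up to the boundary (block HX). -/
def Stmt_MIX : Prop :=
  ∀ (ε R c s₁ : ℝ) (g h : TensorField) (u : E3 → ℝ) (G : E3 → Cov) (M : E3 → Bil),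
    0 < ε → ε ≤ 1 / 2 → 8 ≤ R → 0 < c → 0 < s₁ → MetricOn Set.univ g → TensorOn Set.univ h →
    Mirror g h → SolX ε R g h u G M → (∀ x ∈ Ann (1 / 2) R, 0 < u x) →
    (∀ x : E3, 1 < ‖x‖ → ‖x‖ < R → u x < 1) →
    (∀ x : E3, 1 / 2 < ‖x‖ → ‖x‖ ≤ 2 / 3 → 1 + c ≤ u x) →
    (∃ r : ℝ, 1 < r ∧ r < R ∧ ∀ x : E3, r ≤ ‖x‖ → ‖x‖ < R → s₁ < wOf ε u x) →
    ∀ ψ : ℝ → ℝ, ContDiff ℝ 1 ψ → (∀ s, 0 ≤ ψ s) → HasCompactSupport ψ →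
      tsupport ψ ⊆ Set.Iio s₁ →
      -(∫ x in Ann 1 R, deriv ψ (wOf ε u x) *
          flux ε g h x (gOf ε u G x) (mOf ε u G M x) * volDen g x)
        ≤ 4 * Real.pi * (∫ s in Set.Ioi 0, ψ s)
          - 1 / (2 - ε) * (∫ x in Ann 1 R, ψ (wOf ε u x) *
              flux ε g h x (gOf ε u G x) (mOf ε u G M x) * volDen g x)
          - ∫ x in Ann 1 R, ψ (wOf ε u x) * (len g x (gOf ε u G x)
              * (matter g h x (gOf ε u G x) + diss ε g h x (gOf ε u G x) (mOf ε u G M x)))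
              * volDen g x

/-- XABSM [ABSM]: the level set inequality. -/
def Stmt_XABSM : Prop :=
  ∀ (P : ParX) (D : DatX), SetupX P D →
    ∀ ψ : ℝ → ℝ, ContDiff ℝ 1 ψ → (∀ s, 0 ≤ ψ s) → HasCompactSupport ψ →
      tsupport ψ ⊆ Set.Iio (D.sM P) →
      -(∫ x in D.Om, deriv ψ (D.w P x) * D.Phi P x * D.vol x)
        ≤ 4 * Real.pi * (∫ s in Set.Ioi (P.eps / 4), ψ s)
        - 1 / (2 - P.eps) * (∫ x in D.Om, ψ (D.w P x) * D.Phi P x * D.vol x)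
        - ∫ x in D.Om, ψ (D.w P x) * (D.Su P x + D.Di P x) * D.vol x

/-- XXWO [XWO]: the cubic integral over the outer windows. -/
def Stmt_XXWO : Prop :=
  ∀ P : ParX, ∃ B : ℝ, 0 < B ∧ ∀ D : DatX, SetupX P D →
    ∀ s, D.s2 P ≤ s → s + 1 ≤ D.sM P →
      ∫ x in D.Om ∩ {x | s < D.w P x ∧ D.w P x < s + 1}, D.X P x ^ 3 * D.vol x ≤ B

/-- XABSX [ABSX]: the identity of the flux density in the flat region. -/
def Stmt_XABSX : Prop :=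
  ∀ (P : ParX) (D : DatX), SetupX P D →
    ∀ ψ : ℝ → ℝ, ContDiff ℝ 1 ψ → HasCompactSupport ψ →
      tsupport ψ ⊆ Set.Ioo (D.s2 P) (D.sM P) →
      ∫ x in D.Om, ψ (D.w P x) * D.Phi P x * D.vol x
        = 1 / (2 - P.eps) * ∫ x in D.Om, (ψ (D.w P x) + P.eps * deriv ψ (D.w P x))
            * D.X P x ^ 3 * D.vol x

/-- XABSW [ABSW]: Willmore's inequality in the flat region. -/
def Stmt_XABSW : Prop :=
  ∀ (P : ParX) (D : DatX), SetupX P D →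
    ∀ ψ : ℝ → ℝ, Continuous ψ → (∀ s, 0 ≤ ψ s) → HasCompactSupport ψ →
      tsupport ψ ⊆ Set.Ioo (D.s2 P) (D.sM P) →
      4 * Real.pi * (2 - P.eps) * (∫ s, ψ s) - ∫ x in D.Om, ψ (D.w P x) * D.Phi P x * D.vol x
        ≤ 1 / lam P.eps * ∫ x in D.Om, ψ (D.w P x) * D.Di P x * D.vol x

/-- XABSF [ABSF]: the flux inequality (no condition on `ψ` at the level of the boundary). -/
def Stmt_XABSF : Prop :=
  ∀ (P : ParX) (D : DatX), SetupX P D →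
    ∀ ψ : ℝ → ℝ, ContDiff ℝ 1 ψ → (∀ s, 0 ≤ ψ s) → HasCompactSupport ψ →
      tsupport ψ ⊆ Set.Iio (D.sM P) →
      ∫ x in D.Om, deriv ψ (D.w P x) * (Real.exp (-D.w P x) * D.X P x ^ (1 + P.eps)) * D.vol x ≤ 0

/-- XABS [ABS]: the abstract facts. -/
def Stmt_XABS : Prop :=
  ∀ P : ParX, ∃ B : ℝ, 0 < B ∧ ∀ D : DatX, SetupX P D → AbsOfX P D B

/-- XUPH [UPH]: upper bounds for the flux and the weight. -/
def Stmt_XUPH : Prop :=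
  ∀ (P : ParX) (B : ℝ) (β : ℝ → ℝ), IsBump β → ∃ B' : ℝ, 0 < B' ∧ ∀ D : DatX, SetupX P D →
    AbsOfX P D B →
    jInf P.eps β D.Om D.vol (D.w P) (D.X P) (D.s2 P) ≤ B' ∧
    IntegrableOn (D.ph P) (cAnn (D.l / 4) (D.Kl P)) ∧
    (∫ x in cAnn (D.l / 4) (D.Kl P), D.ph P x) ≤ B' * D.l ^ 3

/-- XDEFE [DEFE]: the total defect is small. -/
def Stmt_XDEFE : Prop :=
  ∀ (P : ParX) (B : ℝ) (g : TensorField) (l : ℝ), ∃ B' : ℝ, 0 < B' ∧ ∀ D : DatX, SetupX P D →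
    AbsOfX P D B → D.g = g → D.l = l →
    IntegrableOn (fun x => D.ph P x * D.e x * D.vol x) (cAnn 1 D.l) ∧
    0 ≤ D.Nd P ∧
    D.Nd P ≤ B' * (∫ x in cAnn 1 D.l, D.e x ^ ((1 + P.eps) / P.eps)) ^ (P.eps / (1 + P.eps))

/-- XCOLE: the collar error is small (from LEG and COLE). -/
def Stmt_XCOLE : Prop :=
  ∀ P : ParX, ∃ B' : ℝ, 0 < B' ∧ ∀ D : DatX, SetupX P D →
    IntegrableOn (fun x => Real.exp (D.w P x / (2 - P.eps)) * |D.Su P x| * D.vol x)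
      (cAnn 1 (Real.exp D.tau)) ∧
    0 ≤ D.Cl P ∧ D.Cl P ≤ B' * (D.kap + Real.sqrt D.tau)

/-- XMATL [MATL]: lower bound for the matter term. -/
def Stmt_XMATL : Prop :=
  ∀ (P : ParX) (B : ℝ), ∃ B' : ℝ, 0 < B' ∧ ∀ D : DatX, SetupX P D → AbsOfX P D B →
    (∀ (χ : ℝ → ℝ) (se : ℝ), Continuous χ → (∀ s, 0 ≤ χ s ∧ χ s ≤ 1) →
      (∀ s, P.eps / 4 ≤ s → s ≤ D.s2 P → χ s = 1) →
      se + 1 < D.sM P → (∀ s, se + 1 ≤ s → χ s = 0) →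
      -(D.Nd P) - D.Cl P - B' * (∫ x in cAnn (D.l / 2) D.l,
            D.ph P x * (msz (D.k x) / D.l + msz (D.k x) ^ 2))
          + 1 / 2 * (∫ x in cAnn D.l (2 * D.l), D.ph P x * linR D.g' x)
          - B' / D.l ^ 4 * (∫ x in cAnn D.l (2 * D.l), D.ph P x)
        ≤ ∫ x in D.Om, χ (D.w P x) * Real.exp (D.w P x / (2 - P.eps)) * D.Su P x * D.vol x) ∧
    (∀ t : ℝ, t < D.sM P →
      (∫ x in D.Om ∩ {x | P.eps / 8 < D.w P x ∧ D.w P x < t},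
        Real.exp (D.w P x / (2 - P.eps)) * max (-D.Su P x) 0 * D.vol x)
      ≤ D.Nd P + D.Cl P + B' / D.l ^ 3 * ∫ x in cAnn (D.l / 2) (2 * D.l), D.ph P x)

/-- XENER [ENER]: the energy bound. -/
def Stmt_XENER : Prop :=
  ∀ (P : ParX) (B : ℝ), ∃ B' : ℝ, 0 < B' ∧ ∀ D : DatX, SetupX P D → AbsOfX P D B →
    ∀ se : ℝ, CutX P D se →
      IntegrableOn (fun x => Real.exp (D.w P x / (2 - P.eps)) * D.Di P x * D.vol x)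
        (cAnn (D.l / 4) (D.Kl P)) ∧
      (∫ x in cAnn (D.l / 4) (D.Kl P), Real.exp (D.w P x / (2 - P.eps)) * D.Di P x * D.vol x)
        ≤ B'

/-- XWGTE [WGTE]: the weight is almost constant. -/
def Stmt_XWGTE : Prop :=
  ∀ (P : ParX) (B : ℝ), ∃ B' : ℝ, 0 < B' ∧ ∀ D : DatX, SetupX P D → AbsOfX P D B →
    ∀ se : ℝ, CutX P D se → ∃ lm : ℝ, LamX P D B' lm

/-- XMSI [MSI]: the mass inequality (i). -/
def Stmt_XMSI : Prop :=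
  ∀ (P : ParX) (B B₃ : ℝ), ∃ B' : ℝ, 0 < B' ∧ ∀ D : DatX, SetupX P D → AbsOfX P D B →
    ∀ se lm : ℝ, CutX P D se → LamX P D B₃ lm →
      4 * Real.pi * (2 - P.eps) ≤ 8 * Real.pi * massIntegral D.g D.l * lm
        + B' * (D.l ^ (-(1 / 2 : ℝ)) + D.th + D.Nd P + D.Cl P + D.er P se)

/-- XMSII [MSII]: the inequality (ii) for the flux. -/
def Stmt_XMSII : Prop :=
  ∀ (P : ParX) (B B₃ θ : ℝ) (β : ℝ → ℝ), 0 < θ → θ < 1 → IsBump β → ∃ B' : ℝ, 0 < B' ∧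
    ∀ D : DatX, SetupX P D → AbsOfX P D B → ∀ se lm L : ℝ, CutX P D se → LamX P D B₃ lm →
      1 ≤ L → D.s2 P + L + 1 < D.sM P →
      jInf P.eps β D.Om D.vol (D.w P) (D.X P) (D.s2 P) * lm ^ (2 - P.eps)
        ≤ θ ^ (-(2 * (2 - P.eps))) * (4 * Real.pi * (2 - P.eps) ^ 2)
          + B' * (1 / D.l + Real.exp (-(L / P.eps)))

/-- XPERA [PERA]: perimeter of the sublevel sets of a smooth function. -/
def Stmt_XPERA : Prop :=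
  ∀ (g : TensorField) (W : E3 → ℝ) (ρ r s₀ s₁ : ℝ), MetricOn {x : E3 | 1 < ‖x‖} g → 1 < ρ →
    ρ < r → s₀ < s₁ → ContDiff ℝ ∞ W → (∀ x ∈ cAnn ρ r, ‖x‖ = ρ → W x < s₀) →
    (∀ x ∈ cAnn ρ r, ‖x‖ = r → s₁ < W x) →
    Set.Finite {s : ℝ | s₀ ≤ s ∧ s ≤ s₁ ∧ ∃ x ∈ cAnn ρ r, W x = s ∧ fderiv ℝ W x = 0} →
    ∀ A : ℝ, (∀ U : Set E3, Encloses U → ENNReal.ofReal A ≤ perimeterX g U) →
      A * (s₁ - s₀) ≤ ∫ x in cAnn ρ r ∩ {x | s₀ ≤ W x ∧ W x ≤ s₁},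
        len g x (grad W x) * volDen g x

/-- XPER [PER]: the infimum of the areas is at most the mean area of the level sets. -/
def Stmt_XPER : Prop :=
  ∀ (g : TensorField) (w : E3 → ℝ) (G : E3 → Cov) (M : E3 → Bil) (α ρ r β s₀ s₁ : ℝ),
    MetricOn {x : E3 | 1 < ‖x‖} g → 1 ≤ α → α < ρ → ρ < r → r < β → s₀ < s₁ →
    H2On (Ann α β) w G M → (∀ x ∈ Ann α β, ‖x‖ ≤ ρ → w x < s₀) →
    (∀ x ∈ Ann α β, r ≤ ‖x‖ → s₁ < w x) →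
    ∀ A : ℝ, (∀ U : Set E3, Encloses U → ENNReal.ofReal A ≤ perimeterX g U) →
      A * (s₁ - s₀) ≤ ∫ x in cAnn ρ r ∩ {x | s₀ ≤ w x ∧ w x ≤ s₁},
        len g x (G x) * volDen g x

/-- XMSIII [MSIII]: the inequality (iii) for the area. -/
def Stmt_XMSIII : Prop :=
  ∀ (P : ParX) (B : ℝ) (β : ℝ → ℝ), IsBump β → ∀ D : DatX, SetupX P D → AbsOfX P D B →
    ∀ r : ℝ, 2 < r → r < D.l → (∀ x ∈ D.Om, r ≤ ‖x‖ → 1 < D.w P x) →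
      0 ≤ jInf P.eps β D.Om D.vol (D.w P) (D.X P) (D.s2 P) ∧
      ∀ s₀ s₁ A : ℝ, P.eps ≤ s₀ → s₀ < s₁ → s₁ ≤ 1 →
        (∀ U : Set E3, Encloses U → ENNReal.ofReal A ≤ perimeterX D.g U) →
        A * (s₁ - s₀) ≤ (1 + P.C * D.tau) *
          ((jInf P.eps β D.Om D.vol (D.w P) (D.X P) (D.s2 P) * (Real.exp s₁ - Real.exp s₀))
              ^ (1 / (1 + P.eps))
            * (∫ x in cAnn 1 r, volDen D.g' x) ^ (P.eps / (1 + P.eps)))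

/-- XEXI1 [EXI1]: for given data, `ε` and small error, existence of a setup with a cut. -/
def Stmt_XEXI1 : Prop :=
  ∀ g k : TensorField, (∃ δ : ℝ, 0 < δ ∧ MetricOn (Outside δ) g ∧ TensorOn (Outside δ) k ∧
      Shiftless δ g) → (∃ C R : ℝ, DecayFrom C R g k) → PlaneSignX g k →
    (∀ x : E3, 1 < ‖x‖ → 0 ≤ surplus g k x) →
    (∀ x : E3, ‖x‖ = 1 → sphereMean g x ≤ |sphereTr g k x|) →
    ∃ C r V : ℝ, 0 < C ∧ 2 < r ∧ 0 < V ∧ ∀ ε : ℝ, 0 < ε → ε ≤ 1 / 2 →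
      ∃ (P : ParX) (B l₀ : ℝ), P.eps = ε ∧ 0 < B ∧ 8 ≤ l₀ ∧ r < l₀ ∧
        ∀ l σ L : ℝ, l₀ ≤ l → 0 < σ → 1 ≤ L →
          ∃ (D : DatX) (se : ℝ), D.g = g ∧ D.k = k ∧ D.l = l ∧ SetupX P D ∧ AbsOfX P D B ∧
            CutX P D se ∧ D.Nd P ≤ σ ∧ D.Cl P ≤ σ ∧ D.er P se ≤ σ ∧ P.C * D.tau ≤ σ ∧
            D.s2 P + L + 1 < D.sM P ∧ (∀ x ∈ D.Om, r ≤ ‖x‖ → 1 < D.w P x) ∧
            (∫ x in cAnn 1 r, volDen D.g' x) ≤ V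

/-- XEPS [EPS]: the three inequalities for fixed `ε`. -/
def Stmt_XEPS : Prop :=
  ∀ (g k : TensorField) (m : ℝ), (∃ δ : ℝ, 0 < δ ∧ MetricOn (Outside δ) g ∧
      TensorOn (Outside δ) k ∧ Shiftless δ g) → (∃ C R : ℝ, DecayFrom C R g k) →
    PlaneSignX g k → (∀ x : E3, 1 < ‖x‖ → 0 ≤ surplus g k x) →
    (∀ x : E3, ‖x‖ = 1 → sphereMean g x ≤ |sphereTr g k x|) →
    Tendsto (fun l : ℝ => ∫ x in cAnn (l / 2) l, msz (k x) / l) atTop (𝓝 0) →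
    IsTotalMass g m → ∃ V : ℝ, 0 < V ∧
    ∀ ε τ : ℝ, 0 < ε → ε ≤ 1 / 2 → 0 < τ → ∃ lm J : ℝ, 0 < lm ∧ 0 ≤ J ∧
      4 * Real.pi * (2 - ε) - τ ≤ 8 * Real.pi * m * lm ∧
      J * lm ^ (2 - ε) ≤ 4 * Real.pi * (2 - ε) ^ 2 + τ ∧
      ∀ s₀ s₁ A : ℝ, ε ≤ s₀ → s₀ < s₁ → s₁ ≤ 1 →
        (∀ U : Set E3, Encloses U → ENNReal.ofReal A ≤ perimeterX g U) →
        A * (s₁ - s₀) ≤ (1 + τ) *
          ((J * (Real.exp s₁ - Real.exp s₀)) ^ (1 / (1 + ε)) * V ^ (ε / (1 + ε)))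

/-- XLIM [LIM]: the limit `τ → 0`, `ε → 0`. -/
def Stmt_XLIM : Prop :=
  ∀ (g : TensorField) (m V : ℝ), 0 < V →
    (∀ ε τ : ℝ, 0 < ε → ε ≤ 1 / 2 → 0 < τ → ∃ lm J : ℝ, 0 < lm ∧ 0 ≤ J ∧
      4 * Real.pi * (2 - ε) - τ ≤ 8 * Real.pi * m * lm ∧
      J * lm ^ (2 - ε) ≤ 4 * Real.pi * (2 - ε) ^ 2 + τ ∧
      ∀ s₀ s₁ A : ℝ, ε ≤ s₀ → s₀ < s₁ → s₁ ≤ 1 →
        (∀ U : Set E3, Encloses U → ENNReal.ofReal A ≤ perimeterX g U) →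
        A * (s₁ - s₀) ≤ (1 + τ) *
          ((J * (Real.exp s₁ - Real.exp s₀)) ^ (1 / (1 + ε)) * V ^ (ε / (1 + ε)))) →
    minAreaX g ≠ ⊤ ∧ Real.sqrt ((minAreaX g).toReal / (16 * Real.pi)) ≤ m

/-- XJINT [JINT]: the momentum density is integrable. -/
def Stmt_XJINT : Prop :=
  ∀ (g k : TensorField) (δ₀ : ℝ), 0 < δ₀ → MetricOn (Outside δ₀) g → TensorOn (Outside δ₀) k →
    (∃ C R : ℝ, DecayFrom C R g k) → (∀ x : E3, 1 < ‖x‖ → 0 ≤ surplus g k x) →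
    ∃ C : ℝ, ∀ R : ℝ, 1 ≤ R → ∫ x in cAnn 1 R, jlen g k x ≤ C

/-- XTINT [TINT]: the trace divided by the radius is integrable. -/
def Stmt_XTINT : Prop :=
  ∀ (g k : TensorField) (δ₀ : ℝ), 0 < δ₀ → MetricOn (Outside δ₀) g → TensorOn (Outside δ₀) k →
    (∃ C R : ℝ, DecayFrom C R g k) → (∀ x : E3, 1 < ‖x‖ → 0 ≤ surplus g k x) →
    PlaneSignX g k → FarStrict g k →
    IntegrableOn (fun x => |trg g x (k x)| / ‖x‖) {x : E3 | 1 ≤ ‖x‖}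

/-- XLIMK [LIMK2]: the mean of `|k|` over large shells. -/
def Stmt_XLIMK : Prop :=
  ∀ (g k : TensorField) (δ₀ : ℝ), 0 < δ₀ → MetricOn (Outside δ₀) g → TensorOn (Outside δ₀) k →
    (∃ C R : ℝ, DecayFrom C R g k) → (∀ x : E3, 1 < ‖x‖ → 0 ≤ surplus g k x) →
    PlaneSignX g k → FarCondition g k →
    Tendsto (fun l : ℝ => ∫ x in cAnn (l / 2) l, msz (k x) / l) atTop (𝓝 0)

/-- The trace of `h` is dominated in the exterior region. -/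
def TraceDominatedX (g h : TensorField) : Prop :=
  ∀ x : E3, 1 < ‖x‖ → 4 / 3 * len g x (grad (fun y => trg g y (h y)) x)
    ≤ nsq g x (h x) - trg g x (h x) ^ 2 / 3 + 2 * jlen g h x

/-- XTRD [TRD]: competitors in the trace-dominated case. -/
def Stmt_XTRD : Prop :=
  ∀ g h : TensorField, Exterior g h → TraceDominatedX g h →
    (∀ x : E3, ‖x‖ = 1 → sphereMean g x ≤ 2 / 3 * |trg g x (h x)|) →
    CompetitorX g h (traceTensor g h)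

/-- XTFD [TFD]: if the trace-free part of `h` is divergence-free then `h` is trace-dominated. -/
def Stmt_XTFD : Prop :=
  ∀ g h : TensorField, Exterior g h →
    (∀ x : E3, 1 < ‖x‖ → ∀ j, divergence g (fun y => h y - traceTensor g h y) j x = 0) →
    TraceDominatedX g h

end Pool.Agent.PFlow
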