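import Pool.Agent.PFlow.DefsE

/-!
# Statements of the modules of the energy block, part 1: the modified data
-/

open MeasureTheory Filter Topology
open scoped ContDiff ENNReal

namespace Pool.Agent.PFlow

open Pool.Agent.PenroseSph

/-- AFD: uniform constants for both ends, from radius one on. -/
def Stmt_AFD : Prop :=
  ∀ g h : TensorField, TwoEnded g h → ∃ C : ℝ, 0 < C ∧
    DecayFrom C 1 g h ∧ DecayFrom C 1 (inverted g) (inverted h) ∧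
    (∀ x : E3, 1 ≤ ‖x‖ → ∀ v : Cov,
      (∑ i, v i ^ 2) ≤ C * ev (g x) v v ∧ ev (g x) v v ≤ C * ∑ i, v i ^ 2) ∧
    (∀ x : E3, 1 ≤ ‖x‖ → ∀ v : Cov,
      (∑ i, v i ^ 2) ≤ C * ev (inverted g x) v v ∧ ev (inverted g x) v v ≤ C * ∑ i, v i ^ 2)

/-- HATA: if all sums of two eigenvalues of `B` are nonnegative then `|B|² ≤ 3 (tr B)²`. -/
def Stmt_HATA : Prop :=
  ∀ (g : TensorField) (x : E3) (B : Bil), (g x).PosDef → B.IsSymm →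
    (∀ v : Cov, ev (g x) v v = 1 → ev B v v ≤ trg g x B) →
    0 ≤ trg g x B ∧ nsq g x B ≤ 3 * trg g x B ^ 2

/-- HATB: smoothness, 2-nonnegativity and size of `ĥ`. -/
def Stmt_HATB : Prop :=
  ∀ (g h : TensorField) (η : ℝ), 0 < η → MetricOn {0}ᶜ g → TensorOn {0}ᶜ h → PlaneSign g h →
    TensorOn {0}ᶜ (hat η g h) ∧ TwoNonneg {0}ᶜ g (hat η g h) ∧
    (∀ x : E3, x ≠ 0 → nsq g x (hat η g h x) ≤ nsq g x (h x)) ∧
    (∀ (x : E3) (i j : Fin 3), |hat η g h x i j| ≤ |h x i j|)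

/-- JPROD: the momentum density of `f h`. -/
def Stmt_JPROD : Prop :=
  ∀ (U : Set E3) (g h : TensorField) (f : E3 → ℝ), IsOpen U → MetricOn U g → TensorOn U h →
    ContDiffOn ℝ ∞ f U → ∀ x ∈ U,
    (∀ j, momentumDensity g (fun y => f y • h y) j x = f x * momentumDensity g h j x
      + ∑ i, ∑ k, (g x)⁻¹ i k * pd k f x * (h x i j - trg g x (h x) * g x i j)) ∧
    jlen g (fun y => f y • h y) x ≤ |f x| * jlen g h x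
      + Real.sqrt (nsq g x (h x) + trg g x (h x) ^ 2) * len g x (grad f x)

/-- HATC: the surplus of `ĥ`. -/
def Stmt_HATC : Prop :=
  ∀ (g h : TensorField) (η : ℝ), 0 < η → MetricOn {0}ᶜ g → TensorOn {0}ᶜ h → PlaneSign g h →
    ∀ x : E3, x ≠ 0 → surplus g h x - eEta η g h x ≤ surplus g (hat η g h) x ∧
      jlen g (hat η g h) x ≤ jlen g h x + eEta η g h x

/-- EETA: the defect is continuous, nonnegative and small in `L^q` for small `η`. -/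
def Stmt_EETA : Prop :=
  ∀ g h : TensorField, MetricOn {0}ᶜ g → TensorOn {0}ᶜ h →
    (∀ η : ℝ, 0 < η → ContinuousOn (eEta η g h) {0}ᶜ ∧ ∀ x : E3, x ≠ 0 → 0 ≤ eEta η g h x) ∧
    ∀ r₀ l q τ : ℝ, 0 < r₀ → 1 ≤ q → 0 < τ → ∃ η : ℝ, 0 < η ∧ η ≤ 1 ∧
      ∫ x in cAnn r₀ l, eEta η g h x ^ q ≤ τ

/-- KAP: the cut-off function. -/
def Stmt_KAP : Prop :=
  ContDiff ℝ ∞ kap ∧ (∀ s, 0 ≤ kap s ∧ kap s ≤ 1) ∧ (∀ s, s ≤ 1 → kap s = 1) ∧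
    (∀ s, 2 ≤ s → kap s = 0) ∧
    (∃ C : ℝ, 0 < C ∧ ∀ l : ℝ, 0 < l → ∀ x : E3,
      (∀ k, |pd k (fun y => kap (‖y‖ / l)) x| ≤ C / l) ∧
      (∀ k m, |pd k (pd m (fun y => kap (‖y‖ / l))) x| ≤ C / l ^ 2)) ∧
    (∀ l : ℝ, 0 < l → ContDiff ℝ ∞ (fun y : E3 => kap (‖y‖ / l))) ∧
    (∀ R : ℝ, 0 < R → ContDiff ℝ ∞ (kin R))

/-- CUTM: the modified metric and tensor. -/
def Stmt_CUTM : Prop :=
  ∀ (g h : TensorField) (η l R : ℝ), 0 < η → 1 ≤ l → 4 * l ≤ R → MetricOn {0}ᶜ g →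
    TensorOn {0}ᶜ h → PlaneSign g h →
    MetricOn Set.univ (modG l R g) ∧ TensorOn Set.univ (modH η l R g h) ∧
    TwoNonneg Set.univ (modG l R g) (modH η l R g h) ∧
    (∀ x : E3, 1 / (16 * R) < ‖x‖ → ‖x‖ < l → modG l R g x = g x) ∧
    (∀ x : E3, 2 * l ≤ ‖x‖ → modG l R g x = 1) ∧
    (∀ x : E3, l ≤ ‖x‖ → modH η l R g h x = 0) ∧
    (∀ x : E3, 1 / (8 * R) ≤ ‖x‖ → ‖x‖ ≤ l / 2 → modH η l R g h x = hat η g h x)

/-- CUTD: uniform decay and ellipticity of the modified metric for `|x| ≥ 1`. -/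
def Stmt_CUTD : Prop :=
  ∀ (g h : TensorField) (C : ℝ), MetricOn {0}ᶜ g → DecayFrom C 1 g h →
    (∀ x : E3, 1 ≤ ‖x‖ → ∀ v : Cov,
      (∑ i, v i ^ 2) ≤ C * ev (g x) v v ∧ ev (g x) v v ≤ C * ∑ i, v i ^ 2) →
    ∃ C' : ℝ, 0 < C' ∧ ∀ l R : ℝ, 1 ≤ l → 4 * l ≤ R →
      DecayFrom C' 1 (modG l R g) 0 ∧
      (∀ x : E3, 1 ≤ ‖x‖ → ∀ v : Cov, (∑ i, v i ^ 2) ≤ C' * ev (modG l R g x) v v ∧
        ev (modG l R g x) v v ≤ C' * ∑ i, v i ^ 2)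

/-- SHELL: the surplus in the region `ℓ/2 ≤ |x| ≤ ℓ` where the tensor is cut off. -/
def Stmt_SHELL : Prop :=
  ∀ (g h : TensorField) (C : ℝ), MetricOn {0}ᶜ g → TensorOn {0}ᶜ h → PlaneSign g h →
    DominantEnergy 0 g h → DecayFrom C 1 g h →
    (∀ x : E3, 1 ≤ ‖x‖ → ∀ v : Cov,
      (∑ i, v i ^ 2) ≤ C * ev (g x) v v ∧ ev (g x) v v ≤ C * ∑ i, v i ^ 2) →
    ∃ C' : ℝ, 0 < C' ∧ ∀ η l R : ℝ, 0 < η → 2 ≤ l → 4 * l ≤ R → ∀ x : E3, l / 2 < ‖x‖ → ‖x‖ < l →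
      -eEta η g h x - C' * (msz (h x) / l + msz (h x) ^ 2)
        ≤ surplus (modG l R g) (modH η l R g h) x

/-- SCAL: the scalar curvature in the linear approximation. -/
def Stmt_SCAL : Prop :=
  ∀ C : ℝ, ∃ C' r₀ : ℝ, 0 < C' ∧ 1 ≤ r₀ ∧ ∀ (g : TensorField) (x : E3), r₀ ≤ ‖x‖ →
    (∀ᶠ y in 𝓝 x, (g y).IsSymm) → (∀ i j, ContDiffAt ℝ ∞ (fun y => g y i j) x) →
    (∀ i j, |g x i j - (1 : Bil) i j| ≤ C / ‖x‖ ∧
      (∀ k, |pd k (fun y => g y i j) x| ≤ C / ‖x‖ ^ 2) ∧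
      (∀ k l, |pd k (pd l (fun y => g y i j)) x| ≤ C / ‖x‖ ^ 3)) →
    |scalarCurvature g x * volDen g x - linR g x| ≤ C' / ‖x‖ ^ 4 ∧ |linR g x| ≤ C' / ‖x‖ ^ 3

/-- DIVG: the divergence theorem on an annulus. -/
def Stmt_DIVG : Prop :=
  ∀ (V : E3 → Fin 3 → ℝ) (a b : ℝ), 0 < a → a ≤ b →
    (∀ x ∈ cAnn a b, ∀ i, ContDiffAt ℝ 1 (fun y => V y i) x) →
    ∫ x in cAnn a b, ∑ i, pd i (fun y => V y i) x
      = (∫ θ : Metric.sphere (0 : E3) 1, (∑ i, V (b • (θ : E3)) i * (θ : E3) i) * b ^ 2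
          ∂((volume : Measure E3).toSphere))
        - ∫ θ : Metric.sphere (0 : E3) 1, (∑ i, V (a • (θ : E3)) i * (θ : E3) i) * a ^ 2
          ∂((volume : Measure E3).toSphere)

/-- DIVA: the divergence theorem on the annulus `l ≤ |x| ≤ 2l` for the mass integrand. -/
def Stmt_DIVA : Prop :=
  ∀ (g : TensorField) (l : ℝ), 0 < l →
    (∀ x : E3, l / 2 < ‖x‖ → ∀ i j, ContDiffAt ℝ ∞ (fun y => g y i j) x) →
    (∀ x : E3, 2 * l ≤ ‖x‖ → g x = 1) →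
    ∫ x in cAnn l (2 * l), linR g x = -(16 * Real.pi * massIntegral g l)

/-- RADN: the operator on radial functions. -/
def Stmt_RADN : Prop :=
  ∀ (ε : ℝ) (g h : TensorField) (F : ℝ → ℝ) (x : E3), x ≠ 0 → (g x).PosDef →
    ContDiffAt ℝ 2 F ‖x‖ → deriv F ‖x‖ < 0 →
    grad (fun y => F ‖y‖) x ≠ 0 ∧ 0 < len g x (grad rad x) ∧
    opN ε g h (fun y => F ‖y‖) x = len g x (grad rad x) ^ 2 *
      (ε * deriv (deriv F) ‖x‖ + barB ε g h x * deriv F ‖x‖)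

/-- BARA: the coefficient of the radial equation at the special end. -/
def Stmt_BARA : Prop :=
  ∀ C : ℝ, ∃ C' : ℝ, 0 < C' ∧ ∀ (g h : TensorField) (x : E3), 1 ≤ ‖x‖ →
    (∀ i j, ContDiffAt ℝ ∞ (fun y => g y i j) x) → (g x).PosDef → (h x).IsSymm →
    (∀ v : Cov, (∑ i, v i ^ 2) ≤ C * ev (g x) v v ∧ ev (g x) v v ≤ C * ∑ i, v i ^ 2) →
    (∀ i j, |g x i j - (1 : Bil) i j| ≤ C / ‖x‖ ∧
      (∀ k, |pd k (fun y => g y i j) x| ≤ C / ‖x‖ ^ 2) ∧ |h x i j| ≤ C / ‖x‖ ^ 2) →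
    ∀ ε : ℝ, 0 < ε → ε ≤ 1 → |barB ε g h x - 2 / ‖x‖| ≤ C' / ‖x‖ ^ 2

/-- BARB: the coefficient of the radial equation at the other end. -/
def Stmt_BARB : Prop :=
  ∀ C : ℝ, ∃ C' : ℝ, 0 < C' ∧ ∀ (g h : TensorField) (x : E3), x ≠ 0 → ‖x‖ ≤ 1 →
    MetricOn {0}ᶜ g → (h x).IsSymm → DecayFrom C 1 (inverted g) 0 →
    (∀ y : E3, 1 ≤ ‖y‖ → ∀ v : Cov,
      (∑ i, v i ^ 2) ≤ C * ev (inverted g y) v v ∧ ev (inverted g y) v v ≤ C * ∑ i, v i ^ 2) →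
    nsq g x (h x) ≤ C * ‖x‖ ^ 4 →
    ∀ ε : ℝ, 0 < ε → ε ≤ 1 → |barB ε g h x + 2 * (1 - ε) / ‖x‖| ≤ C'

/-- HSM2: the size of `h` at the other end. -/
def Stmt_HSM2 : Prop :=
  ∀ (g h : TensorField) (C : ℝ), MetricOn {0}ᶜ g → TensorOn {0}ᶜ h →
    DecayFrom C 1 (inverted g) (inverted h) →
    (∀ y : E3, 1 ≤ ‖y‖ → ∀ v : Cov,
      (∑ i, v i ^ 2) ≤ C * ev (inverted g y) v v ∧ ev (inverted g y) v v ≤ C * ∑ i, v i ^ 2) →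
    ∃ C' : ℝ, 0 < C' ∧ ∀ x : E3, x ≠ 0 → ‖x‖ ≤ 1 → nsq g x (h x) ≤ C' * ‖x‖ ^ 4

/-- MOD: existence of the modified data. -/
def Stmt_MOD : Prop :=
  ∀ g h : TensorField, TwoEnded g h → DominantEnergy 0 g h → PlaneSign g h →
    ∃ C l₀ : ℝ, 0 < C ∧ 2 ≤ l₀ ∧ ∀ l R : ℝ, l₀ ≤ l → 4 * l ≤ R →
      ∀ r₀ q τ : ℝ, 0 < r₀ → 1 ≤ q → 0 < τ →
        ∃ (g' h' : TensorField) (e : E3 → ℝ), Modified g h C l R g' h' e ∧
          ∫ x in cAnn r₀ l, e x ^ q ≤ τ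

/-- LIMK: the mean of `|h|` over large shells tends to zero faster than the inverse square. -/
def Stmt_LIMK : Prop :=
  ∀ (g h : TensorField) (m : ℝ), TwoEnded g h → DominantEnergy 0 g h → PureTraceOrFast g h →
    IsTotalMass g m →
    Tendsto (fun l : ℝ => ∫ x in cAnn (l / 2) l, msz (h x) / l) atTop (𝓝 0)

end Pool.Agent.PFlow
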