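import Pool.Agent.PFlow.StmtsM

/-!
AEG: the derivative of the filled function, almost everywhere.
-/

open MeasureTheory Set Filter Topology

namespace Pool.Agent.PFlow

open Pool.Agent.PenroseSph

namespace MAEG

/-- The derivative of a Lipschitz function vanishes at almost every zero. -/
theorem ae_fderiv_zero {h : E3 → ℝ} {C : NNReal} (hh : LipschitzWith C h) :
    ∀ᵐ x : E3, h x = 0 → fderiv ℝ h x = 0 := by
  set s : Set E3 := {x | h x = 0} ∩ {x | DifferentiableAt ℝ h x} with hs
  have hcl : IsClosed {x | h x = 0} := isClosed_eq hh.continuous continuous_const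
  have hsm : MeasurableSet s := hcl.measurableSet.inter (measurableSet_of_differentiableAt ℝ h)
  have hne : ∃ v : E3, v ≠ 0 := by
    refine ⟨EuclideanSpace.single 0 1, ?_⟩
    intro h0
    have h1 := congrArg (fun w : E3 => w 0) h0
    simp at h1
  obtain ⟨v, hv⟩ := hne
  have hA : ApproximatesLinearOn (fun x => h x • v) (0 : E3 →L[ℝ] E3) s 0 := by
    intro x hx y hy
    have hx1 : h x = 0 := hx.1
    have hy1 : h y = 0 := hy.1
    simp [hx1, hy1]
  have h3 := hA.norm_fderiv_sub_le (volume : Measure E3) hsm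
    (fun x => (fderiv ℝ h x).smulRight v)
    (fun x hx => ((hx.2.hasFDerivAt).smul_const v).hasFDerivWithinAt)
  rw [ae_restrict_iff' hsm] at h3
  filter_upwards [h3, hh.ae_differentiableAt] with x hx hd h0
  have h4 := hx ⟨h0, hd⟩
  rw [sub_zero, nonpos_iff_eq_zero, nnnorm_eq_zero] at h4
  ext w
  have h5 := congrArg (fun L : E3 →L[ℝ] E3 => L w) h4
  simp only [ContinuousLinearMap.smulRight_apply, zero_apply, smul_eq_zero]
    at h5
  rcases h5 with h5 | h5
  · rw [h5]
    rfl
  · exact (hv h5).elim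

/-- Two Lipschitz functions have equal derivatives at almost every point where they agree. -/
theorem ae_fderiv_eq {f g : E3 → ℝ} {C D : NNReal} (hf : LipschitzWith C f)
    (hg : LipschitzWith D g) : ∀ᵐ x : E3, f x = g x → fderiv ℝ f x = fderiv ℝ g x := by
  have h1 := ae_fderiv_zero (hf.sub hg)
  filter_upwards [h1, hf.ae_differentiableAt, hg.ae_differentiableAt] with x hx hdf hdg h0
  have h2 := hx (by rw [h0, sub_self])
  rw [fderiv_fun_sub hdf hdg, sub_eq_zero] at h2
  exact h2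

theorem fderiv_of_const {f : E3 → ℝ} {x : E3} (h : ∀ᶠ y in 𝓝 x, f y = f x) :
    fderiv ℝ f x = 0 := by
  have h1 : f =ᶠ[𝓝 x] fun _ => f x := h
  rw [h1.fderiv_eq]
  exact fderiv_const_apply _

end MAEG

open MAEG in
theorem AEG (hFA : Stmt_FA) (hFB : Stmt_FB) : Stmt_AEG := by
  intro a' b' s₀ s₁ W C z₁ hT hL hz
  obtain ⟨hA, hF, -, -, -, -⟩ := hFA a' b' s₀ s₁ W C z₁ hT hL hz
  obtain ⟨hB1, hB2⟩ := hFB a' b' s₀ s₁ W C z₁ hT hL hz
  refine ⟨(isClosed_eq hA.continuous hL.continuous).inter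
    (isClosed_eq hF.continuous hA.continuous), ?_⟩
  filter_upwards [ae_fderiv_eq hF hA, ae_fderiv_eq hA hL] with x h1 h2
  constructor
  · rintro ⟨h3, h4⟩
    rw [h1 h4, h2 h3]
  · intro h3
    by_cases h4 : fill W s₀ s₁ 0 z₁ x = fillA W s₀ z₁ x
    · have h5 : fillA W s₀ z₁ x ≠ W x := fun h5 => h3 ⟨h5, h4⟩
      rw [h1 h4]
      exact fderiv_of_const (hB1 x h5)
    · exact fderiv_of_const (hB2 x h4)

end Pool.Agent.PFlow
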