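import Pool.Agent.PFlow.StmtsM

/-!
# IB: integration by parts with a Lipschitz function
-/

open MeasureTheory Filter Topology
open scoped ContDiff Manifold

namespace Pool.Agent.PFlow

open Pool.Agent.PenroseSph

namespace MIB

/-- A smooth cut-off function. -/
theorem exists_cutoff {K U : Set E3} (hK : IsCompact K) (hU : IsOpen U) (hKU : K ⊆ U) :
    ∃ χ : E3 → ℝ, ContDiff ℝ ∞ χ ∧ HasCompactSupport χ ∧ tsupport χ ⊆ U ∧
      ∀ᶠ x in 𝓝ˢ K, χ x = 1 := by
  obtain ⟨L, hL, hKL, hLU⟩ := exists_compact_between hK hU hKU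
  obtain ⟨f, hf1, hf0, -⟩ := exists_contMDiffMap_one_nhds_of_subset_interior
    (n := (⊤ : ℕ∞)) (I := 𝓘(ℝ, E3)) hK.isClosed hKL
  have hsup : tsupport (f : E3 → ℝ) ⊆ L := by
    refine closure_minimal ?_ hL.isClosed
    intro x hx
    by_contra hxL
    exact hx (hf0 x hxL)
  refine ⟨f, f.contMDiff.contDiff, ?_, hsup.trans hLU, hf1⟩
  exact hL.of_isClosed_subset (isClosed_tsupport _) hsup

theorem one_direction (U : Set E3) (F : E3 → ℝ) (f : E3 → ℝ) (C : NNReal) (i : Fin 3)
    (hU : IsOpen U) (hF : ContDiffOn ℝ 1 F U) (hf : LipschitzWith C f) (hc : HasCompactSupport f)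
    (hs : tsupport f ⊆ U) :
    Integrable (fun x => f x * pd i F x) ∧ Integrable (fun x => pd i f x * F x) ∧
      ∫ x, f x * pd i F x = - ∫ x, pd i f x * F x := by
  obtain ⟨χ, hχ, hχc, hχs, hχ1⟩ := exists_cutoff hc hU hs
  set G : E3 → ℝ := fun x => χ x * F x with hG
  have hGc : HasCompactSupport G := hχc.mul_right
  have hG1 : ContDiff ℝ 1 G := by
    rw [contDiff_iff_contDiffAt]
    intro x
    by_cases hx : x ∈ tsupport χ
    · exact (hχ.of_le (by exact_mod_cast le_top)).contDiffAt.mul
        (hF.contDiffAt (hU.mem_nhds (hχs hx)))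
    · have h0 : G =ᶠ[𝓝 x] fun _ => 0 := by
        have : (tsupport χ)ᶜ ∈ 𝓝 x := (isClosed_tsupport χ).isOpen_compl.mem_nhds hx
        filter_upwards [this] with y hy
        have : χ y = 0 := image_eq_zero_of_notMem_tsupport hy
        simp [hG, this]
      exact contDiffAt_const.congr_of_eventuallyEq h0
  obtain ⟨D, hD⟩ := ContDiff.lipschitzWith_of_hasCompactSupport hGc hG1 one_ne_zero
  -- near the support of `f` the functions agree
  have hloc : ∀ x ∈ tsupport f, G =ᶠ[𝓝 x] F := by
    intro x hx
    have := (eventually_nhdsSet_iff_forall.1 hχ1) x hx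
    filter_upwards [this] with y hy
    simp [hG, hy]
  have e1 : ∀ x, f x * pd i F x = f x * pd i G x := by
    intro x
    by_cases hx : x ∈ tsupport f
    · unfold pd
      rw [(hloc x hx).fderiv_eq]
    · rw [image_eq_zero_of_notMem_tsupport hx, zero_mul, zero_mul]
  have hpd0 : ∀ x, x ∉ tsupport f → pd i f x = 0 := by
    intro x hx
    have h0 : f =ᶠ[𝓝 x] fun _ => 0 := by
      have : (tsupport f)ᶜ ∈ 𝓝 x := (isClosed_tsupport f).isOpen_compl.mem_nhds hx
      filter_upwards [this] with y hy
      exact image_eq_zero_of_notMem_tsupport hy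
    unfold pd
    rw [h0.fderiv_eq]
    simp
  have e2 : ∀ x, pd i f x * F x = pd i f x * G x := by
    intro x
    by_cases hx : x ∈ tsupport f
    · rw [(hloc x hx).eq_of_nhds]
    · rw [hpd0 x hx, zero_mul, zero_mul]
  have hpdc : Continuous (pd i G) := by
    unfold pd
    exact (hG1.continuous_fderiv one_ne_zero).clm_apply continuous_const
  have hae : ∀ᵐ x : E3, lineDeriv ℝ f x (EuclideanSpace.single i 1) = pd i f x := by
    filter_upwards [hf.ae_differentiableAt_of_real (μ := volume)] with x hx
    exact hx.lineDeriv_eq_fderiv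
  have key := hD.integral_lineDeriv_mul_eq (μ := volume) hf hc (EuclideanSpace.single i 1)
  have k1 : ∫ x, lineDeriv ℝ G x (EuclideanSpace.single i 1) * f x = ∫ x, f x * pd i G x := by
    refine integral_congr_ae (Eventually.of_forall fun x => ?_)
    change lineDeriv ℝ G x (EuclideanSpace.single i 1) * f x = f x * pd i G x
    rw [((hG1.differentiable one_ne_zero) x).lineDeriv_eq_fderiv, mul_comm]
    rfl
  have k2 : ∫ x, lineDeriv ℝ f x (-(EuclideanSpace.single i 1)) * G x =
      - ∫ x, pd i f x * G x := by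
    rw [← integral_neg]
    refine integral_congr_ae ?_
    filter_upwards [hae] with x hx
    rw [lineDeriv_neg, hx, neg_mul]
  rw [k1, k2] at key
  refine ⟨?_, ?_, ?_⟩
  · simp only [e1]
    exact (hf.continuous.mul hpdc).integrable_of_hasCompactSupport hc.mul_right
  · simp only [e2]
    have hGi : Integrable G := hG1.continuous.integrable_of_hasCompactSupport hGc
    refine hGi.bdd_mul (c := C * ‖(EuclideanSpace.single i (1 : ℝ) : E3)‖) ?_ ?_
    · exact (measurable_fderiv_apply_const ℝ f _).aestronglyMeasurable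
    · refine Eventually.of_forall fun x => ?_
      exact (ContinuousLinearMap.le_opNorm _ _).trans
        (mul_le_mul_of_nonneg_right (norm_fderiv_le_of_lipschitz ℝ hf) (norm_nonneg _))
  · simp only [e1, e2]
    exact key

end MIB

theorem IB : Stmt_IB := by
  intro U F f C hU hF hf hc hs
  have h := fun i => MIB.one_direction U (F i) f C i hU (hF i) hf hc hs
  simp only [Finset.mul_sum]
  rw [integral_finsetSum _ fun i _ => (h i).1, integral_finsetSum _ fun i _ => (h i).2.1,
    ← Finset.sum_neg_distrib]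
  exact Finset.sum_congr rfl fun i _ => (h i).2.2

end Pool.Agent.PFlow
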