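import Pool.Agent.PFlow.StmtsM

/-!
# Module TR: truncation of a smooth approximation
-/

open MeasureTheory Filter Topology
open scoped ContDiff

namespace Pool.Agent.PFlow

open Pool.Agent.PenroseSph

namespace MTR

/-- The truncated approximation. -/
noncomputable def WT (a' b' s₀ s₁ η : ℝ) (w v : E3 → ℝ) (x : E3) : ℝ :=
  if ‖x‖ ≤ a' then s₀ else if b' ≤ ‖x‖ then s₁ else
    if w x < s₀ - η then s₀ else if s₁ + η < w x then s₁ else max s₀ (min s₁ (v x))

theorem clamp_sub (s₀ s₁ p q e : ℝ) (h : |p - q| ≤ e) :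
    |max s₀ (min s₁ p) - max s₀ (min s₁ q)| ≤ e := by
  have h1 : |max s₀ (min s₁ p) - max s₀ (min s₁ q)| ≤ |min s₁ p - min s₁ q| := by
    have := abs_max_sub_max_le_abs (min s₁ p) (min s₁ q) s₀
    rwa [max_comm (min s₁ p) s₀, max_comm (min s₁ q) s₀] at this
  have h2 : |min s₁ p - min s₁ q| ≤ |p - q| := by
    have := abs_min_sub_min_le_max s₁ p s₁ q
    simpa using this
  linarith

variable {a b a' b' s₀ s₁ η e : ℝ} {w v : E3 → ℝ}

theorem isOpen_Ann : IsOpen (Ann a b) := by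
  have : Ann a b = (fun x : E3 => ‖x‖) ⁻¹' Set.Ioo a b := rfl
  rw [this]
  exact isOpen_Ioo.preimage continuous_norm

theorem WT_low (hs : s₀ < s₁) (he : 0 < e) (heη : e < η)
    (hout : ∀ x : E3, b' ≤ ‖x‖ → ‖x‖ < b → s₁ + η ≤ w x)
    (hv : ∀ x ∈ Ann a b, s₀ - η ≤ w x → w x ≤ s₁ + η → |v x - w x| ≤ e)
    (y : E3) (hy : y ∈ Ann a b) (hw : w y < s₀ - e) : WT a' b' s₀ s₁ η w v y = s₀ := by
  unfold WT
  by_cases h1 : ‖y‖ ≤ a'
  · rw [if_pos h1]
  rw [if_neg h1]
  by_cases h2 : b' ≤ ‖y‖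
  · exfalso
    have := hout y h2 hy.2
    linarith
  rw [if_neg h2]
  by_cases h3 : w y < s₀ - η
  · rw [if_pos h3]
  rw [if_neg h3, if_neg (by linarith)]
  push Not at h3
  have h4 := hv y hy h3 (by linarith)
  have h5 := (abs_le.mp h4).2
  rw [min_eq_right (by linarith), max_eq_left (by linarith)]

theorem WT_high (hs : s₀ < s₁) (he : 0 < e) (heη : e < η)
    (hin : ∀ x : E3, a < ‖x‖ → ‖x‖ ≤ a' → w x ≤ s₀ - η)
    (hv : ∀ x ∈ Ann a b, s₀ - η ≤ w x → w x ≤ s₁ + η → |v x - w x| ≤ e)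
    (y : E3) (hy : y ∈ Ann a b) (hw : s₁ + e < w y) : WT a' b' s₀ s₁ η w v y = s₁ := by
  unfold WT
  by_cases h1 : ‖y‖ ≤ a'
  · exfalso
    have := hin y hy.1 h1
    linarith
  rw [if_neg h1]
  by_cases h2 : b' ≤ ‖y‖
  · rw [if_pos h2]
  rw [if_neg h2, if_neg (by linarith)]
  by_cases h3 : s₁ + η < w y
  · rw [if_pos h3]
  rw [if_neg h3]
  push Not at h3
  have h4 := hv y hy (by linarith) h3
  have h5 := (abs_le.mp h4).1
  rw [min_eq_left (by linarith), max_eq_right (by linarith)]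

theorem WT_mid (hin : ∀ x : E3, a < ‖x‖ → ‖x‖ ≤ a' → w x ≤ s₀ - η)
    (hout : ∀ x : E3, b' ≤ ‖x‖ → ‖x‖ < b → s₁ + η ≤ w x)
    (y : E3) (hy : y ∈ Ann a b) (hw : s₀ - η < w y) (hw' : w y < s₁ + η) :
    WT a' b' s₀ s₁ η w v y = max s₀ (min s₁ (v y)) := by
  unfold WT
  rw [if_neg (fun h1 => by have := hin y hy.1 h1; linarith),
    if_neg (fun h1 => by have := hout y h1 hy.2; linarith), if_neg (by linarith),
    if_neg (by linarith)]

theorem WT_cases (ha : a < a') (hb : b' < b) (hs : s₀ < s₁) (he : 0 < e) (heη : e < η)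
    (hcont : ContinuousOn w (Ann a b))
    (hin : ∀ x : E3, a < ‖x‖ → ‖x‖ ≤ a' → w x ≤ s₀ - η)
    (hout : ∀ x : E3, b' ≤ ‖x‖ → ‖x‖ < b → s₁ + η ≤ w x)
    (hv : ∀ x ∈ Ann a b, s₀ - η ≤ w x → w x ≤ s₁ + η → |v x - w x| ≤ e) (hab : a' < b')
    (x : E3) :
    (∀ᶠ y in 𝓝 x, WT a' b' s₀ s₁ η w v y = s₀) ∨ (∀ᶠ y in 𝓝 x, WT a' b' s₀ s₁ η w v y = s₁) ∨
    (∀ᶠ y in 𝓝 x, WT a' b' s₀ s₁ η w v y = max s₀ (min s₁ (v y))) := by
  by_cases hx1 : ‖x‖ < a'
  · left
    have : ∀ᶠ y in 𝓝 x, ‖y‖ < a' := continuous_norm.continuousAt.eventually_lt_const hx1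
    filter_upwards [this] with y hy
    unfold WT
    rw [if_pos hy.le]
  by_cases hx2 : b' < ‖x‖
  · right; left
    have : ∀ᶠ y in 𝓝 x, b' < ‖y‖ := continuous_norm.continuousAt.eventually_const_lt hx2
    filter_upwards [this] with y hy
    unfold WT
    rw [if_neg (by linarith), if_pos hy.le]
  push Not at hx1 hx2
  have hxA : x ∈ Ann a b := ⟨by linarith, by linarith⟩
  have hA : ∀ᶠ y in 𝓝 x, y ∈ Ann a b := isOpen_Ann.mem_nhds hxA
  have hwc : ContinuousAt w x := hcont.continuousAt (isOpen_Ann.mem_nhds hxA)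
  rcases lt_or_ge (w x) (s₀ - e) with h | h
  · left
    filter_upwards [hA, hwc.eventually_lt_const h] with y hy hy2
    exact WT_low hs he heη hout hv y hy hy2
  rcases lt_or_ge (s₁ + e) (w x) with h' | h'
  · right; left
    filter_upwards [hA, hwc.eventually_const_lt h'] with y hy hy2
    exact WT_high hs he heη hin hv y hy hy2
  · right; right
    filter_upwards [hA, hwc.eventually_const_lt (show s₀ - η < w x by linarith),
      hwc.eventually_lt_const (show w x < s₁ + η by linarith)] with y hy hy2 hy3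
    exact WT_mid hin hout y hy hy2 hy3

theorem locLip (hv : ContDiff ℝ ∞ v) (W : E3 → ℝ)
    (h : ∀ x, (∀ᶠ y in 𝓝 x, W y = s₀) ∨ (∀ᶠ y in 𝓝 x, W y = s₁) ∨
      (∀ᶠ y in 𝓝 x, W y = max s₀ (min s₁ (v y)))) : LocallyLipschitz W := by
  have hcl : LocallyLipschitz (fun y => max s₀ (min s₁ (v y))) := by
    have h1 : LocallyLipschitz v := (hv.of_le (by norm_cast)).locallyLipschitz
    exact (h1.const_min s₁).const_max s₀
  have key : ∀ (x : E3) (f : E3 → ℝ), LocallyLipschitz f → (∀ᶠ y in 𝓝 x, W y = f y) →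
      ∃ K, ∃ t ∈ 𝓝 x, LipschitzOnWith K W t := by
    intro x f hf hx
    obtain ⟨K, t, ht, hK⟩ := hf x
    refine ⟨K, t ∩ {y | W y = f y}, inter_mem ht hx, ?_⟩
    intro y hy z hz
    have h1 := hK hy.1 hz.1
    have h2 : W y = f y := hy.2
    have h3 : W z = f z := hz.2
    rw [h2, h3]
    exact h1
  intro x
  rcases h x with h1 | h1 | h1
  · exact key x (fun _ => s₀) (LipschitzWith.const s₀).locallyLipschitz h1
  · exact key x (fun _ => s₁) (LipschitzWith.const s₁).locallyLipschitz h1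
  · exact key x _ hcl h1

theorem globLip (W : E3 → ℝ) (hW : LocallyLipschitz W) (hs : s₀ < s₁) (hlow : ∀ x, s₀ ≤ W x)
    (hup : ∀ x, W x ≤ s₁) (hout : ∀ x : E3, b' ≤ ‖x‖ → W x = s₁) :
    ∃ C : NNReal, LipschitzWith C W := by
  obtain ⟨K, hK⟩ := (hW.locallyLipschitzOn (s := Metric.closedBall (0 : E3) (b' + 1))
    ).exists_lipschitzOnWith_of_compact (isCompact_closedBall _ _)
  have hd : 0 ≤ s₁ - s₀ := by linarith
  refine ⟨K + NNReal.mk (s₁ - s₀) hd, ?_⟩
  have main : ∀ x y : E3, b' + 1 < ‖x‖ → |W x - W y| ≤ (K + (s₁ - s₀)) * dist x y := by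
    intro x y hx
    have hx1 := hout x (by linarith)
    by_cases hy : b' ≤ ‖y‖
    · rw [hx1, hout y hy, sub_self, abs_zero]
      have : (0 : ℝ) ≤ K := K.2
      positivity
    · push Not at hy
      have h1 : 1 ≤ dist x y := by
        rw [dist_eq_norm]
        have := norm_sub_norm_le x y
        linarith
      have h2 : |W x - W y| ≤ s₁ - s₀ := by
        rw [abs_le]
        constructor <;> linarith [hlow x, hup x, hlow y, hup y]
      have h3 : (0 : ℝ) ≤ K := K.2
      have h4 : (s₁ - s₀) * 1 ≤ (K + (s₁ - s₀)) * dist x y := by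
        apply mul_le_mul _ h1 zero_le_one (by positivity)
        linarith
      linarith
  apply LipschitzWith.of_dist_le_mul
  intro x y
  rw [Real.dist_eq, NNReal.coe_add, NNReal.coe_mk]
  by_cases hx : b' + 1 < ‖x‖
  · exact main x y hx
  by_cases hy : b' + 1 < ‖y‖
  · rw [abs_sub_comm, dist_comm]
    exact main y x hy
  push Not at hx hy
  have h1 := hK.dist_le_mul x (by simpa using hx) y (by simpa using hy)
  rw [Real.dist_eq] at h1
  have h2 : (0 : ℝ) ≤ (s₁ - s₀) * dist x y := by positivity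
  linarith [add_mul (K : ℝ) (s₁ - s₀) (dist x y)]

end MTR

open MTR in
theorem TR : Stmt_TR := by
  intro a b a' b' s₀ s₁ η e w v ha0 ha hab hb hs he heη hcont hin hout hsm hv
  have hcases := WT_cases (v := v) ha hb hs he heη hcont hin hout hv hab
  have hloc := locLip hsm _ hcases
  have hlow : ∀ x, s₀ ≤ WT a' b' s₀ s₁ η w v x := by
    intro x
    unfold WT
    split_ifs <;> first | exact le_refl _ | exact hs.le | exact le_max_left _ _
  have hup : ∀ x, WT a' b' s₀ s₁ η w v x ≤ s₁ := by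
    intro x
    unfold WT
    split_ifs <;> first | exact le_refl _ | exact hs.le | exact max_le hs.le (min_le_left _ _)
  have hinner : ∀ x : E3, ‖x‖ ≤ a' → WT a' b' s₀ s₁ η w v x = s₀ := by
    intro x hx
    unfold WT
    rw [if_pos hx]
  have houter : ∀ x : E3, b' ≤ ‖x‖ → WT a' b' s₀ s₁ η w v x = s₁ := by
    intro x hx
    unfold WT
    rw [if_neg (by linarith), if_pos hx]
  obtain ⟨C, hC⟩ := globLip _ hloc hs hlow hup houter
  refine ⟨WT a' b' s₀ s₁ η w v, C, ⟨by linarith, hab, hs, hloc.continuous, hlow, hup, hinner,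
    houter⟩, hC, ?_, ?_⟩
  · intro x
    unfold WT trW
    by_cases h1 : ‖x‖ ≤ a'
    · rw [if_pos h1, if_pos h1, sub_self, abs_zero]
      exact he.le
    rw [if_neg h1, if_neg h1]
    by_cases h2 : b' ≤ ‖x‖
    · rw [if_pos h2, if_pos h2, sub_self, abs_zero]
      exact he.le
    rw [if_neg h2, if_neg h2]
    push Not at h1 h2
    by_cases h3 : w x < s₀ - η
    · rw [if_pos h3, min_eq_right (by linarith), max_eq_left (by linarith), sub_self, abs_zero]
      exact he.le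
    rw [if_neg h3]
    by_cases h4 : s₁ + η < w x
    · rw [if_pos h4, min_eq_left (by linarith), max_eq_right (by linarith), sub_self, abs_zero]
      exact he.le
    rw [if_neg h4]
    push Not at h3 h4
    exact clamp_sub _ _ _ _ _ (hv x ⟨by linarith, by linarith⟩ h3 h4)
  · intro x hx h1 h2
    have hA : ∀ᶠ y in 𝓝 x, y ∈ Ann a b := isOpen_Ann.mem_nhds hx
    have hwc : ContinuousAt w x := hcont.continuousAt (isOpen_Ann.mem_nhds hx)
    filter_upwards [hA, hwc.eventually_const_lt h1, hwc.eventually_lt_const h2] with y hy hy2 hy3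
    rw [WT_mid hin hout y hy (by linarith) (by linarith)]
    have h4 := abs_le.mp (hv y hy (by linarith) (by linarith))
    rw [min_eq_right (by linarith [h4.2]), max_eq_right (by linarith [h4.1])]

end Pool.Agent.PFlow
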