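import Pool.Agent.PFlow.StmtsE5

/-!
# Exterior regions: definitions
-/

open MeasureTheory Filter Topology
open scoped ContDiff ENNReal

namespace Pool.Agent.PFlow

open Pool.Agent.PenroseSph

/-! ### The theorem -/

/-- Asymptotically flat initial data on the exterior region `|x| ≥ 1`, smooth up to the boundary
`|x| = 1` (that is, on `|x| > 1 - δ`), in coordinates such that close to the boundary the radial
direction is orthogonal to the spheres `|x| = const`. -/
structure Exterior (g h : TensorField) : Prop where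
  smooth : ∃ δ : ℝ, 0 < δ ∧ MetricOn {x : E3 | 1 - δ < ‖x‖} g ∧ TensorOn {x : E3 | 1 - δ < ‖x‖} h ∧
    ∀ x : E3, 1 - δ < ‖x‖ → ‖x‖ < 1 + δ → ∀ v : Cov, ∑ i, x i * v i = 0 →
      ∑ i, ∑ j, g x i j * x i * v j = 0
  decay : ∃ C R : ℝ, DecayFrom C R g h

/-- The mean curvature, with respect to the outward normal, of the sphere `|y| = |x|` at `x`. -/
noncomputable def sphereMean (g : TensorField) (x : E3) : ℝ :=
  btan g x (grad rad x) (cHess g x (grad rad x) (hess2 rad x)) / len g x (grad rad x)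

/-- The trace of `h` over the tangent plane of the sphere `|y| = |x|` at `x`. -/
noncomputable def sphereTr (g h : TensorField) (x : E3) : ℝ := btan g x (grad rad x) (h x)

/-- `k` is a plane-signed asymptotically flat tensor on the exterior region which requires at most
as much scalar curvature as `h`, and the boundary `|x| = 1` is weakly trapped with respect to `k`:
its mean curvature is at most the absolute value of the trace of `k` over its tangent plane. -/
structure CompetitorX (g h k : TensorField) : Prop where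
  smooth : ∃ δ : ℝ, 0 < δ ∧ TensorOn {x : E3 | 1 - δ < ‖x‖} k
  decay : ∃ C R : ℝ, DecayFrom C R g k
  plane : ∀ x : E3, 1 ≤ ‖x‖ →
    (∀ v : Cov, ev (g x) v v = 1 → ev (k x) v v ≤ trg g x (k x)) ∨
    (∀ v : Cov, ev (g x) v v = 1 → trg g x (k x) ≤ ev (k x) v v)
  far : FarCondition g k
  energy : ∀ x : E3, 1 < ‖x‖ → required g k x ≤ required g h x
  trapped : ∀ x : E3, ‖x‖ = 1 → sphereMean g x ≤ |sphereTr g k x|

/-- The vector fields admitted in the definition of the perimeter in the exterior region. -/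
structure TestFieldX (g : TensorField) (X : E3 → Cov) : Prop where
  smooth : ∀ i, ContDiff ℝ ∞ (fun x => X x i)
  compact : HasCompactSupport X
  outside : tsupport X ⊆ {x : E3 | 1 < ‖x‖}
  short : ∀ x, 1 < ‖x‖ → ev (g x) (X x) (X x) ≤ 1

/-- The perimeter in the exterior region of an open set with respect to `g`. For an open set which
contains the closed unit ball and has a smooth boundary it is the `g`-area of its boundary. -/
noncomputable def perimeterX (g : TensorField) (U : Set E3) : ℝ≥0∞ :=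
  ⨆ (X : E3 → Cov) (_ : TestFieldX g X),
    ENNReal.ofReal (∫ x in U, ∑ i, pd i (fun y => volDen g y * X y i) x)

/-- `U` is a bounded open set with smooth boundary which contains the closed unit ball. -/
structure Encloses (U : Set E3) : Prop where
  isOpen : IsOpen U
  contains : ∀ x : E3, ‖x‖ ≤ 1 → x ∈ U
  bounded : ∃ b : ℝ, ∀ x ∈ U, ‖x‖ < b
  smooth : ∀ x ∈ frontier U, ∃ f : E3 → ℝ, ContDiffAt ℝ ∞ f x ∧ fderiv ℝ f x ≠ 0 ∧
    ∀ᶠ y in 𝓝 x, (y ∈ U ↔ f y < 0)

/-- The infimum of the areas of the smooth closed surfaces which enclose the boundary. -/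
noncomputable def minAreaX (g : TensorField) : ℝ≥0∞ :=
  ⨅ (U : Set E3) (_ : Encloses U), perimeterX g U

/-- **The theorem for exterior regions.** -/
def Stmt_XMAIN : Prop :=
  ∀ (g h : TensorField) (m : ℝ), Exterior g h → DominantEnergy 1 g h →
    (∃ k : TensorField, CompetitorX g h k) → IsTotalMass g m →
    minAreaX g ≠ ⊤ ∧ Real.sqrt ((minAreaX g).toReal / (16 * Real.pi)) ≤ m

/-! ### The solution -/

/-- The data are symmetric under the inversion `x ↦ x/|x|²` near the unit sphere, `g ↦ g`,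
`h ↦ -h`. -/
def Mirror (g h : TensorField) : Prop :=
  ∀ x : E3, 1 / 4 < ‖x‖ → ‖x‖ < 4 → inverted g x = g x ∧ inverted h x = -h x

/-- The solution of the Dirichlet problem `u = 1` on `|x| = 1`, `u = 0` on `|x| = 2R`, continued by
the reflection `u(x/|x|²) = 2 - u(x)` to the annulus `1/2 < |x| < R`. -/
structure SolX (ε R : ℝ) (g h : TensorField) (u : E3 → ℝ) (G : E3 → Cov) (M : E3 → Bil) :
    Prop where
  cont : Continuous u
  refl : ∀ x ∈ Ann (1 / 2) 2, u (inversion x) = 2 - u x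
  nonneg : ∀ x : E3, 1 ≤ ‖x‖ → ‖x‖ < R → 0 ≤ u x
  le_one : ∀ x : E3, 1 ≤ ‖x‖ → ‖x‖ < R → u x ≤ 1
  h2 : H2On (Ann (1 / 2) R) u G M
  eq : EqU (Ann (1 / 2) R) ε g h G M
  flux : ∀ χ : E3 → ℝ, ContDiff ℝ 1 χ → HasCompactSupport χ → tsupport χ ⊆ Ann (1 / 2) R →
    ∫ x, len g x (G x) ^ (ε - 1) * ev (g x)⁻¹ (G x) (grad χ x) * volDen g x
      = ∫ x, len g x (G x) ^ ε * beps ε g x (G x) (h x) * χ x * volDen g x
  /-- comparison with strict subsolutions -/
  sub : ∀ f : E3 → ℝ, (∀ x : E3, 1 ≤ ‖x‖ → ‖x‖ ≤ 2 * R → ContDiffAt ℝ 2 f x ∧ grad f x ≠ 0 ∧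
      0 < opN ε g h f x) → (∀ x : E3, ‖x‖ = 1 → f x ≤ 1) → (∀ x : E3, ‖x‖ = 2 * R → f x ≤ 0) →
    ∀ x : E3, 1 ≤ ‖x‖ → ‖x‖ < R → f x ≤ u x
  /-- comparison with strict supersolutions -/
  super : ∀ f : E3 → ℝ, (∀ x : E3, 1 ≤ ‖x‖ → ‖x‖ ≤ 2 * R → ContDiffAt ℝ 2 f x ∧ grad f x ≠ 0 ∧
      opN ε g h f x < 0) → (∀ x : E3, ‖x‖ = 1 → 1 ≤ f x) → (∀ x : E3, ‖x‖ = 2 * R → 0 ≤ f x) →
    ∀ x : E3, 1 ≤ ‖x‖ → ‖x‖ < R → u x ≤ f x
  noIsland : NoIsland (Ann (1 / 2) R) u

/-- **Main theorem of the block PX.** -/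
def Stmt_PX : Prop :=
  ∀ (ε R : ℝ) (g h : TensorField), 0 < ε → ε < 1 → 8 ≤ R →
    MetricOn Set.univ g → TensorOn Set.univ h → Mirror g h →
    (∀ x : E3, R / 2 ≤ ‖x‖ → g x = 1 ∧ h x = 0) →
    ∃ (u : E3 → ℝ) (G : E3 → Cov) (M : E3 → Bil), SolX ε R g h u G M

end Pool.Agent.PFlow
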