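import Pool.Agent.PFlow.DefsX

/-!
# Exterior regions: the modified data and the setup
-/

open MeasureTheory Filter Topology
open scoped ContDiff ENNReal

namespace Pool.Agent.PFlow

open Pool.Agent.PenroseSph

/-! ### Collar modification -/

/-- The region `|x| > 1 - δ`. -/
def Outside (δ : ℝ) : Set E3 := {x : E3 | 1 - δ < ‖x‖}

/-- The radial direction is orthogonal to the spheres for `1 - δ < |x| < 1 + δ`. -/
def Shiftless (δ : ℝ) (g : TensorField) : Prop :=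
  ∀ x : E3, 1 - δ < ‖x‖ → ‖x‖ < 1 + δ → ∀ v : Cov, ∑ i, x i * v i = 0 →
    ∑ i, ∑ j, g x i j * x i * v j = 0

/-- The Lie derivative of `g` along the field `x`: `2g + x^m ∂_m g`. -/
noncomputable def eulG (g : TensorField) (x : E3) : Bil :=
  Matrix.of fun i j => 2 * g x i j + ∑ m, x m * pd m (fun y => g y i j) x

/-- `k` is plane-signed on `|x| ≥ 1`. -/
def PlaneSignX (g k : TensorField) : Prop :=
  ∀ x : E3, 1 ≤ ‖x‖ →
    (∀ v : Cov, ev (g x) v v = 1 → ev (k x) v v ≤ trg g x (k x)) ∨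
    (∀ v : Cov, ev (g x) v v = 1 → trg g x (k x) ≤ ev (k x) v v)

/-- `Θ(s) = ∫_0^s S(2v-1) dv`, `S` the smooth transition: `0` for `s ≤ 1/2`, `s - 3/4` for `s ≥ 1`. -/
noncomputable def thX (s : ℝ) : ℝ := ∫ v in (0 : ℝ)..s, Real.smoothTransition (2 * v - 1)

/-- The profile `φ(t) = τ Θ(t/τ) + (3τ/4) S(2t/δ - 1)`. -/
noncomputable def phX (τ δ t : ℝ) : ℝ :=
  τ * thX (t / τ) + 3 * τ / 4 * Real.smoothTransition (2 * t / δ - 1)

/-- The factor `ρ/r`, `ρ = exp (φ (log r))`. -/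
noncomputable def facX (τ δ : ℝ) (x : E3) : ℝ := Real.exp (phX τ δ (Real.log ‖x‖)) / ‖x‖

/-- The collar metric: `(ρ/r)² g(ρν)` for `|x| ≥ 1` and its inversion for `|x| < 1`. -/
noncomputable def colG (τ δ : ℝ) (g : TensorField) : TensorField := fun x =>
  if 1 ≤ ‖x‖ then facX τ δ x ^ 2 • g (facX τ δ x • x)
  else inverted (fun y => facX τ δ y ^ 2 • g (facX τ δ y • y)) x

/-- The collar tensor: `φ'(log r) (ρ/r)² k(ρν)` for `|x| ≥ 1` and minus its inversion for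
`|x| < 1`. -/
noncomputable def colH (τ δ : ℝ) (k : TensorField) : TensorField := fun x =>
  if 1 ≤ ‖x‖ then (deriv (phX τ δ) (Real.log ‖x‖) * facX τ δ x ^ 2) • k (facX τ δ x • x)
  else -inverted (fun y => (deriv (phX τ δ) (Real.log ‖y‖) * facX τ δ y ^ 2) •
    k (facX τ δ y • y)) x

/-- The tangential part of the covector `p` at `x`: its Euclidean length. -/
noncomputable def tanP (x : E3) (p : Cov) : ℝ :=
  vsz (fun i => p i - (∑ j, p j * x j) / ‖x‖ ^ 2 * x i)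

/-- The negative part of the radial component of `p`. -/
noncomputable def negP (x : E3) (p : Cov) : ℝ := max (-((∑ j, p j * x j) / ‖x‖)) 0

/-- The modified data in the exterior case: `C` is a constant independent of `ℓ`, `τ`, `κ` and of
the defect `e`. -/
structure ModifiedX (g k : TensorField) (C l τ κ : ℝ) (g' h' : TensorField) (e : E3 → ℝ) :
    Prop where
  metric : MetricOn Set.univ g'
  tensor : TensorOn Set.univ h'
  mirror : Mirror g' h'
  twoNonneg : TwoNonneg {x : E3 | 1 ≤ ‖x‖} g' h'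
  bounds : ∀ x : E3, 1 / 2 < ‖x‖ → ‖x‖ < 2 → ∀ i j,
    |g' x i j| ≤ C ∧ (∀ m, |pd m (fun y => g' y i j) x| ≤ C) ∧ |h' x i j| ≤ C
  elliptic : ∀ x : E3, 1 / 2 < ‖x‖ → ∀ v : Cov, (∑ i, v i ^ 2) ≤ C * ev (g' x) v v ∧
    ev (g' x) v v ≤ C * ∑ i, v i ^ 2
  area : ∀ x : E3, 1 ≤ ‖x‖ → ‖x‖ < l → ∀ p : Cov,
    len g x p * volDen g x ≤ (1 + C * τ) * (len g' x p * volDen g' x)
  same : ∀ x : E3, 2 ≤ ‖x‖ → ‖x‖ < l → g' x = g x
  flat : ∀ x : E3, 2 * l ≤ ‖x‖ → g' x = 1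
  supp : ∀ x : E3, l ≤ ‖x‖ → h' x = 0
  barrier : ∀ ε : ℝ, 0 < ε → ε ≤ 1 → ∀ x : E3, 1 ≤ ‖x‖ →
    |barB ε g' h' x - bE ε ‖x‖| ≤ C / (1 + ‖x‖ ^ 2)
  decay : DecayFrom C 2 g' 0
  hsmall : ∀ x : E3, 1 ≤ ‖x‖ → ∀ i j, |h' x i j| ≤ C / ‖x‖ ^ 2
  defect_cont : Continuous e
  defect_nonneg : ∀ x, 0 ≤ e x
  collar : ∀ x : E3, 1 < ‖x‖ → ‖x‖ ≤ Real.exp τ → ∀ p : Cov,
    -(C / τ * (tanP x p + negP x p) + κ / τ * vsz p) ≤ len g' x p * matter g' h' x p
  core : ∀ x : E3, Real.exp τ < ‖x‖ → ‖x‖ < l / 2 → -e x ≤ surplus g' h' x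
  shell : ∀ x : E3, l / 2 < ‖x‖ → ‖x‖ < l → -e x - C * (msz (k x) / l + msz (k x) ^ 2)
    ≤ surplus g' h' x
  trans : ∀ x : E3, l < ‖x‖ → ‖x‖ < 2 * l →
    |surplus g' h' x * volDen g' x - linR g' x / 2| ≤ C / l ^ 4
  trans_sup : ∀ x : E3, l < ‖x‖ → ‖x‖ < 2 * l → |linR g' x| ≤ C / l ^ 3
  flat_surplus : ∀ x : E3, 2 * l < ‖x‖ → surplus g' h' x = 0
  mass : ∫ x in cAnn l (2 * l), linR g' x = -(16 * Real.pi * massIntegral g l)

/-! ### Levels -/

/-- The location of the level sets of `-ε log u` in the exterior case. -/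
structure LocatedX (ε c γ τ l R : ℝ) (u : E3 → ℝ) : Prop where
  pos : ∀ x ∈ Ann (1 / 2) R, 0 < u x
  outer : ∀ x : E3, 1 ≤ ‖x‖ → ‖x‖ ≤ R / 2 → |wOf ε u x - (2 - ε) * Real.log ‖x‖| ≤ γ - 1
  outer_low : ∀ x : E3, 1 ≤ ‖x‖ → ‖x‖ < R → (2 - ε) * Real.log ‖x‖ - (γ - 1) ≤ wOf ε u x
  strict : ∀ x : E3, 1 < ‖x‖ → ‖x‖ < R → u x < 1
  inner : ∀ x : E3, 1 / 2 < ‖x‖ → ‖x‖ ≤ 2 / 3 → 1 + c ≤ u x
  near : ∀ x : E3, 1 ≤ ‖x‖ → ‖x‖ ≤ Real.exp τ → wOf ε u x < ε / 2
  mid : ∀ x : E3, 1 ≤ ‖x‖ → ‖x‖ < 4 * l → wOf ε u x + ε / 4 < s2E ε γ l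

/-- The parameters which do not depend on `ℓ`, `R`, `τ`, `κ`. -/
structure ParX where
  /-- the exponent `ε` -/
  eps : ℝ
  /-- the constant of the modified data -/
  C : ℝ
  /-- the constant `c` of `LocatedX` -/
  c : ℝ
  /-- the constant `γ` of `LocatedX` -/
  gam : ℝ

/-- The parameters `ℓ`, `R`, `τ`, `κ`, the data, the modified data and the solution. -/
structure DatX where
  /-- the radius `ℓ` of the cut-off -/
  l : ℝ
  /-- the radius `R` of the annulus -/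
  R : ℝ
  /-- the width of the collar -/
  tau : ℝ
  /-- the error in the collar -/
  kap : ℝ
  /-- the metric -/
  g : TensorField
  /-- the tensor -/
  k : TensorField
  /-- the modified metric -/
  g' : TensorField
  /-- the modified tensor -/
  h' : TensorField
  /-- the defect -/
  e : E3 → ℝ
  /-- the solution -/
  u : E3 → ℝ
  /-- its first derivatives -/
  G : E3 → Cov
  /-- its second derivatives -/
  M : E3 → Bil

/-- All hypotheses on the modified data and the solution. -/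
structure SetupX (P : ParX) (D : DatX) : Prop where
  eps_pos : 0 < P.eps
  eps_le : P.eps ≤ 1 / 2
  C_pos : 0 < P.C
  c_pos : 0 < P.c
  gam_ge : 2 ≤ P.gam
  l_ge : 8 ≤ D.l
  R_ge : kE P.eps P.gam ^ 4 * D.l ≤ D.R
  tau_pos : 0 < D.tau
  tau_le : D.tau ≤ 1 / 10
  kap_pos : 0 < D.kap
  kap_le : D.kap ≤ 1
  smooth0 : ∃ δ : ℝ, 0 < δ ∧ MetricOn (Outside δ) D.g ∧ TensorOn (Outside δ) D.k
  hdecay : ∀ x : E3, 1 ≤ ‖x‖ → ∀ i j, |D.k x i j| ≤ P.C / ‖x‖ ^ 2
  modified : ModifiedX D.g D.k P.C D.l D.tau D.kap D.g' D.h' D.e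
  sol : SolX P.eps D.R D.g' D.h' D.u D.G D.M
  located : LocatedX P.eps P.c P.gam D.tau D.l D.R D.u

namespace DatX

variable (D : DatX) (P : ParX)

/-- The annulus `1 < |x| < R`. -/
def Om : Set E3 := Ann 1 D.R

/-- The volume density of the modified metric. -/
noncomputable def vol (x : E3) : ℝ := volDen D.g' x

/-- `w = -ε log u + ε/4`. -/
noncomputable def w (x : E3) : ℝ := wOf P.eps D.u x + P.eps / 4

/-- The first derivatives of `w`. -/
noncomputable def Gw (x : E3) : Cov := gOf P.eps D.u D.G x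

/-- The second derivatives of `w`. -/
noncomputable def Mw (x : E3) : Bil := mOf P.eps D.u D.G D.M x

/-- `|∇w|`. -/
noncomputable def X (x : E3) : ℝ := len D.g' x (D.Gw P x)

/-- The flux density. -/
noncomputable def Phi (x : E3) : ℝ := flux P.eps D.g' D.h' x (D.Gw P x) (D.Mw P x)

/-- `|∇w|` times the dissipation. -/
noncomputable def Di (x : E3) : ℝ := D.X P x * diss P.eps D.g' D.h' x (D.Gw P x) (D.Mw P x)

/-- `|∇w|` times the energy surplus outside the collar, a lower bound for `|∇w|` times the matter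
term in the collar. -/
noncomputable def Su (x : E3) : ℝ :=
  if ‖x‖ ≤ Real.exp D.tau then
    -(P.C / D.tau * (tanP x (D.Gw P x) + negP x (D.Gw P x)) + D.kap / D.tau * vsz (D.Gw P x))
  else D.X P x * surplus D.g' D.h' x

/-- The weight `φ = e^{w/(2-ε)} |∇w|`. -/
noncomputable def ph (x : E3) : ℝ := Real.exp (D.w P x / (2 - P.eps)) * D.X P x

/-- The level `s₂`. -/
noncomputable def s2 : ℝ := s2E P.eps P.gam D.l

/-- The level `s_M`. -/
noncomputable def sM : ℝ := sME P.eps P.gam D.R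

/-- The radius `K ℓ`. -/
noncomputable def Kl : ℝ := kE P.eps P.gam * D.l

/-- The total defect `∫ φ e dV`. -/
noncomputable def Nd : ℝ := ∫ x in cAnn 1 D.l, D.ph P x * D.e x * D.vol x

/-- The collar error. -/
noncomputable def Cl : ℝ :=
  ∫ x in cAnn 1 (Real.exp D.tau), Real.exp (D.w P x / (2 - P.eps)) * |D.Su P x| * D.vol x

/-- The mean of `|k|`. -/
noncomputable def th : ℝ := ∫ x in cAnn (D.l / 2) D.l, msz (D.k x) / D.l

/-- The error of the cut-off at the level `se`. -/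
noncomputable def er (se : ℝ) : ℝ := Real.exp (D.s2 P / (2 - P.eps)) *
  Real.exp (-((lam P.eps / 2 - 1 / (2 - P.eps)) * (se - D.s2 P)))

end DatX

/-- Integrability over the regions below a level. -/
def LvlIntX (P : ParX) (D : DatX) (f : E3 → ℝ) : Prop :=
  ∀ s', s' < D.sM P → IntegrableOn f (D.Om ∩ {x | D.w P x ≤ s'})

/-- The abstract facts for the solution: `s_b = ε/4`, `B₂ = 0`. -/
def AbsOfX (P : ParX) (D : DatX) (B : ℝ) : Prop :=
  Abs P.eps D.Om D.vol (D.w P) (D.X P) (D.Phi P) (D.Di P) (D.Su P) (P.eps / 4) (D.s2 P) (D.sM P)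
    B 0

/-- The level `se` where the test function is cut off, together with the smallness of the errors. -/
structure CutX (P : ParX) (D : DatX) (se : ℝ) : Prop where
  lower : D.s2 P + 1 + 2 * P.gam ≤ se
  upper : se + 1 < D.sM P
  err : D.er P se ≤ 1
  def_le : D.Nd P ≤ 1
  col_le : D.Cl P ≤ 1

/-- The weight is almost equal to the constant `lm` on `ℓ/2 ≤ |x| ≤ K ℓ`. -/
structure LamX (P : ParX) (D : DatX) (B₃ lm : ℝ) : Prop where
  nonneg : 0 ≤ lm
  le : lm ≤ B₃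
  int : IntegrableOn (fun x => (Real.sqrt (D.ph P x) - Real.sqrt lm) ^ 2) (cAnn (D.l / 2) (D.Kl P))
  close : (∫ x in cAnn (D.l / 2) (D.Kl P), (Real.sqrt (D.ph P x) - Real.sqrt lm) ^ 2)
    ≤ B₃ * D.l ^ 2

end Pool.Agent.PFlow
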