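import Pool.Agent.PFlow.StmtsM

/-!
# The a priori bound

`|D²w|² / |dw|` is locally integrable.
-/

open MeasureTheory Filter Topology
open scoped ContDiff Manifold

namespace Pool.Agent.PFlow

open Pool.Agent.PenroseSph

namespace MAPB

/-- A cut-off function. -/
theorem cutoff {U K : Set E3} (hU : IsOpen U) (hK : IsCompact K) (hKU : K ⊆ U) :
    ∃ f : E3 → ℝ, ContDiff ℝ ∞ f ∧ HasCompactSupport f ∧ tsupport f ⊆ U ∧ (∀ x ∈ K, f x = 1) ∧
      (∀ x, 0 ≤ f x) ∧ ∀ x, f x ≤ 1 := by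
  obtain ⟨K', hK', hKK', hK'U⟩ := exists_compact_between hK hU hKU
  obtain ⟨f, hf1, hf2, hf3⟩ := exists_contMDiffMap_one_nhds_of_subset_interior (n := (⊤ : ℕ∞))
    𝓘(ℝ, E3) hK.isClosed hKK'
  have hfs : ContDiff ℝ ∞ (f : E3 → ℝ) := f.contMDiff.contDiff
  have hsupp : Function.support (fun z => f z) ⊆ K' := by
    intro z hz
    by_contra h
    exact hz (hf2 z h)
  have hts : tsupport (fun z => f z) ⊆ K' :=
    closure_minimal hsupp hK'.isClosed
  refine ⟨fun z => f z, hfs, hK'.of_isClosed_subset (isClosed_tsupport _) hts, hts.trans hK'U,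
    ?_, fun x => (hf3 x).1, fun x => (hf3 x).2⟩
  intro z hz
  exact (hf1.filter_mono (nhds_le_nhdsSet hz)).self_of_nhds

theorem vsq_nonneg (p : Cov) : 0 ≤ vsq p := Finset.sum_nonneg fun i _ => sq_nonneg (p i)

theorem msq_nonneg (M : Bil) : 0 ≤ msq M :=
  Finset.sum_nonneg fun i _ => Finset.sum_nonneg fun j _ => sq_nonneg (M i j)

theorem vn_nonneg (p : Cov) : 0 ≤ vn p := Real.sqrt_nonneg _

theorem abs_le_vn (p : Cov) (i : Fin 3) : |p i| ≤ vn p := by
  unfold vn vsq
  apply Real.abs_le_sqrt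
  exact Finset.single_le_sum (f := fun j => p j ^ 2) (fun j _ => sq_nonneg (p j))
    (Finset.mem_univ i)

theorem Ddx_zero (g : TensorField) (d : ℝ) (x : E3) : Ddx g d x 0 0 = 0 := by
  have h : cHess g x 0 0 = 0 := by
    ext i j
    simp [cHess]
  unfold Ddx
  rw [h]
  simp [Dd, tr2, dd, qf, ev, up, app]

/-- `|p| ≤ C √(|p|_P² + d²)`. -/
theorem vn_le_ld (P : Bil) (p : Cov) (d C : ℝ) (hC : 1 ≤ C) (h : vsq p / C ≤ ev P p p) :
    vn p ≤ C * ld P d p := by
  have hC0 : 0 < C := by linarith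
  have h1 : vsq p ≤ C * ev P p p := by
    rw [div_le_iff₀ hC0] at h
    linarith
  have h0 : 0 ≤ ev P p p := le_trans (div_nonneg (vsq_nonneg p) hC0.le) h
  have h2 : vsq p ≤ C ^ 2 * (ev P p p + d ^ 2) := by
    nlinarith [sq_nonneg d, mul_nonneg (by linarith : (0 : ℝ) ≤ C - 1) h0, sq_nonneg (C * d),
      mul_nonneg (mul_nonneg hC0.le (by linarith : (0 : ℝ) ≤ C - 1)) h0]
  unfold vn ld
  calc √(vsq p) ≤ √(C ^ 2 * (ev P p p + d ^ 2)) := Real.sqrt_le_sqrt h2
    _ = C * √(ev P p p + d ^ 2) := by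
        rw [Real.sqrt_mul (sq_nonneg C), Real.sqrt_sq hC0.le]

/-- `√(|p|_P² + d²) ≤ C √(|p|² + d²)`. -/
theorem ld_le (P : Bil) (p : Cov) (d C : ℝ) (hC : 1 ≤ C) (h : ev P p p ≤ C * vsq p) :
    ld P d p ≤ C * √(vsq p + d ^ 2) := by
  have hC0 : 0 < C := by linarith
  have h2 : ev P p p + d ^ 2 ≤ C ^ 2 * (vsq p + d ^ 2) := by
    have h3 : 0 ≤ (C - 1) * vsq p := mul_nonneg (by linarith) (vsq_nonneg p)
    have h4 : 0 ≤ (C ^ 2 - 1) * d ^ 2 := mul_nonneg (by nlinarith) (sq_nonneg d)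
    have h5 : 0 ≤ C * ((C - 1) * vsq p) := mul_nonneg hC0.le h3
    nlinarith
  unfold ld
  calc √(ev P p p + d ^ 2) ≤ √(C ^ 2 * (vsq p + d ^ 2)) := Real.sqrt_le_sqrt h2
    _ = C * √(vsq p + d ^ 2) := by
        rw [Real.sqrt_mul (sq_nonneg C), Real.sqrt_sq hC0.le]

/-- The size of the 2-jet. -/
noncomputable def sz (p : Cov) (M : Bil) : ℝ := (∑ i, ∑ j, |M i j|) + ∑ k, |p k|

theorem sz_nonneg (p : Cov) (M : Bil) : 0 ≤ sz p M :=
  add_nonneg (Finset.sum_nonneg fun _ _ => Finset.sum_nonneg fun _ _ => abs_nonneg _)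
    (Finset.sum_nonneg fun _ _ => abs_nonneg _)

theorem cHess_le (g : TensorField) (x : E3) (p : Cov) (M : Bil) (C : ℝ) (hC : 1 ≤ C)
    (hΓ : ∀ k i j, |christoffel g k i j x| ≤ C) (i j : Fin 3) :
    |cHess g x p M i j| ≤ C * sz p M := by
  have h1 : |M i j| ≤ ∑ i, ∑ j, |M i j| :=
    le_trans (Finset.single_le_sum (f := fun j => |M i j|) (fun _ _ => abs_nonneg _)
      (Finset.mem_univ j))
      (Finset.single_le_sum (f := fun i => ∑ j, |M i j|)
        (fun _ _ => Finset.sum_nonneg fun _ _ => abs_nonneg _) (Finset.mem_univ i))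
  have h2 : |∑ k, christoffel g k i j x * p k| ≤ C * ∑ k, |p k| := by
    rw [Finset.mul_sum]
    refine (Finset.abs_sum_le_sum_abs _ _).trans (Finset.sum_le_sum fun k _ => ?_)
    rw [abs_mul]
    exact mul_le_mul_of_nonneg_right (hΓ k i j) (abs_nonneg _)
  have h0 : 0 ≤ ∑ i, ∑ j, |M i j| :=
    Finset.sum_nonneg fun _ _ => Finset.sum_nonneg fun _ _ => abs_nonneg _
  calc |cHess g x p M i j| = |M i j - ∑ k, christoffel g k i j x * p k| := rfl
    _ ≤ |M i j| + |∑ k, christoffel g k i j x * p k| := abs_sub _ _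
    _ ≤ C * sz p M := by
        unfold sz
        nlinarith

theorem sum_abs_le {a : Fin 3 → ℝ} {B : ℝ} (h : ∀ i, |a i| ≤ B) : |∑ i, a i| ≤ 3 * B := by
  refine (Finset.abs_sum_le_sum_abs _ _).trans ?_
  calc ∑ i, |a i| ≤ ∑ _i : Fin 3, B := Finset.sum_le_sum fun i _ => h i
    _ = 3 * B := by simp

theorem up_le (P : Bil) (q : Cov) (C B : ℝ) (hP : ∀ i j, |P i j| ≤ C)
    (hq : ∀ i, |q i| ≤ B) (i : Fin 3) : |up P q i| ≤ 3 * (C * B) := by
  refine sum_abs_le fun j => ?_
  rw [abs_mul]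
  exact mul_le_mul (hP i j) (hq j) (abs_nonneg _) ((abs_nonneg _).trans (hP i j))

theorem Yf_le (g : TensorField) (x : E3) (p : Cov) (M : Bil) (d C : ℝ) (hC : 1 ≤ C) (hd : 0 < d)
    (hP : ∀ i j, |(g x)⁻¹ i j| ≤ C) (hΓ : ∀ k i j, |christoffel g k i j x| ≤ C)
    (hev : vsq p / C ≤ ev (g x)⁻¹ p p) (i : Fin 3) :
    |Yf g d x p M i| ≤ 54 * C ^ 4 * sz p M := by
  have hC0 : 0 < C := by linarith
  have hH := cHess_le g x p M C hC hΓ
  have hs := sz_nonneg p M
  have hv := vn_nonneg p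
  have htr : |trg g x (cHess g x p M)| ≤ 3 * (3 * (C * (C * sz p M))) := by
    refine sum_abs_le fun i => sum_abs_le fun j => ?_
    rw [abs_mul]
    exact mul_le_mul (hP i j) (hH i j) (abs_nonneg _) hC0.le
  have hup : ∀ j, |up (g x)⁻¹ p j| ≤ 3 * (C * vn p) :=
    up_le _ _ _ _ hP (abs_le_vn p)
  have happ : ∀ j, |app (g x)⁻¹ (cHess g x p M) p j| ≤ 3 * (C * sz p M * (3 * (C * vn p))) := by
    intro j
    refine sum_abs_le fun k => ?_
    rw [abs_mul]
    exact mul_le_mul (hH j k) (hup k) (abs_nonneg _) (mul_nonneg hC0.le hs)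
  have hq : ∀ j, |trg g x (cHess g x p M) * p j - app (g x)⁻¹ (cHess g x p M) p j| ≤
      18 * C ^ 2 * sz p M * vn p := by
    intro j
    refine (abs_sub _ _).trans ?_
    rw [abs_mul]
    have h1 : |trg g x (cHess g x p M)| * |p j| ≤ 3 * (3 * (C * (C * sz p M))) * vn p :=
      mul_le_mul htr (abs_le_vn p j) (abs_nonneg _) (by positivity)
    have h2 := happ j
    nlinarith
  have h1 : |up (g x)⁻¹ (fun j => trg g x (cHess g x p M) * p j
      - app (g x)⁻¹ (cHess g x p M) p j) i| ≤ 3 * (C * (18 * C ^ 2 * sz p M * vn p)) :=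
    up_le _ _ _ _ hP hq i
  have hld : 0 < ld (g x)⁻¹ d p := by
    unfold ld
    apply Real.sqrt_pos.2
    have : 0 ≤ ev (g x)⁻¹ p p := le_trans (div_nonneg (vsq_nonneg p) hC0.le) hev
    positivity
  have h2 := vn_le_ld (g x)⁻¹ p d C hC hev
  unfold Yf
  rw [abs_div, abs_of_pos hld, div_le_iff₀ hld]
  refine h1.trans ?_
  calc 3 * (C * (18 * C ^ 2 * sz p M * vn p)) = 54 * C ^ 3 * sz p M * vn p := by ring
    _ ≤ 54 * C ^ 3 * sz p M * (C * ld (g x)⁻¹ d p) :=
        mul_le_mul_of_nonneg_left h2 (by positivity)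
    _ = _ := by ring

/-- The pointwise inequality. -/
theorem point (ε : ℝ) (g h : TensorField) (x : E3) (p : Cov) (M : Bil) (d C₁ C₂ : ℝ)
    (hC₁ : 1 ≤ C₁) (hC₂ : 1 ≤ C₂) (hd : 0 < d) (hres : resid ε g h x p M = 0)
    (hup : Ddx g d x p M ≤ 1 / ld (g x)⁻¹ d p * (- (msq M / C₁)
      + C₁ * (resid ε g h x p M ^ 2 + vsq p * (1 + vsq p))))
    (hev : vsq p / C₂ ≤ ev (g x)⁻¹ p p ∧ ev (g x)⁻¹ p p ≤ C₂ * vsq p) :
    msq M / √(vsq p + d ^ 2) ≤
      C₁ * C₂ * (- Ddx g d x p M + C₁ * C₂ * (vn p * (1 + vsq p))) := by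
  have h10 : 0 < C₁ := by linarith
  have h20 : 0 < C₂ := by linarith
  have hv := vsq_nonneg p
  have hm := msq_nonneg M
  have hld : 0 < ld (g x)⁻¹ d p := by
    unfold ld
    apply Real.sqrt_pos.2
    have : 0 ≤ ev (g x)⁻¹ p p := le_trans (div_nonneg hv h20.le) hev.1
    positivity
  have hlm : 0 < √(vsq p + d ^ 2) := Real.sqrt_pos.2 (by positivity)
  have h1 := ld_le (g x)⁻¹ p d C₂ hC₂ hev.2
  have h2 := vn_le_ld (g x)⁻¹ p d C₂ hC₂ hev.1
  have h3 : msq M / √(vsq p + d ^ 2) ≤ C₂ * (msq M / ld (g x)⁻¹ d p) := by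
    rw [← mul_div_assoc, div_le_div_iff₀ hlm hld]
    calc msq M * ld (g x)⁻¹ d p ≤ msq M * (C₂ * √(vsq p + d ^ 2)) :=
          mul_le_mul_of_nonneg_left h1 hm
      _ = _ := by ring
  rw [hres] at hup
  have h4 : msq M / ld (g x)⁻¹ d p ≤
      C₁ * (- Ddx g d x p M + C₁ * (vsq p * (1 + vsq p) / ld (g x)⁻¹ d p)) := by
    have e : 1 / ld (g x)⁻¹ d p * (- (msq M / C₁) + C₁ * ((0 : ℝ) ^ 2 + vsq p * (1 + vsq p))) =
        - (msq M / ld (g x)⁻¹ d p) / C₁ + C₁ * (vsq p * (1 + vsq p) / ld (g x)⁻¹ d p) := by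
      field_simp
      ring
    rw [e] at hup
    have h5 : (msq M / ld (g x)⁻¹ d p) / C₁ ≤
        - Ddx g d x p M + C₁ * (vsq p * (1 + vsq p) / ld (g x)⁻¹ d p) := by
      have : - (msq M / ld (g x)⁻¹ d p) / C₁ = - ((msq M / ld (g x)⁻¹ d p) / C₁) := by ring
      linarith
    rw [div_le_iff₀ h10] at h5
    linarith
  have h6 : vsq p * (1 + vsq p) / ld (g x)⁻¹ d p ≤ C₂ * (vn p * (1 + vsq p)) := by
    rw [div_le_iff₀ hld]
    have e : vsq p = vn p * vn p := (Real.mul_self_sqrt hv).symm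
    calc vsq p * (1 + vsq p) = vn p * (1 + vsq p) * vn p := by
          rw [show vsq p * (1 + vsq p) = vn p * vn p * (1 + vsq p) by rw [← e]]
          ring
      _ ≤ vn p * (1 + vsq p) * (C₂ * ld (g x)⁻¹ d p) :=
          mul_le_mul_of_nonneg_left h2 (mul_nonneg (vn_nonneg p) (by linarith))
      _ = _ := by ring
  calc msq M / √(vsq p + d ^ 2) ≤ C₂ * (msq M / ld (g x)⁻¹ d p) := h3
    _ ≤ C₂ * (C₁ * (- Ddx g d x p M + C₁ * (vsq p * (1 + vsq p) / ld (g x)⁻¹ d p))) :=
        mul_le_mul_of_nonneg_left h4 h20.le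
    _ ≤ C₂ * (C₁ * (- Ddx g d x p M + C₁ * (C₂ * (vn p * (1 + vsq p))))) := by
        refine mul_le_mul_of_nonneg_left (mul_le_mul_of_nonneg_left ?_ h10.le) h20.le
        linarith [mul_le_mul_of_nonneg_left h6 h10.le]
    _ = _ := by ring

/-- The majorant of `|p| (1 + |p|²)`. -/
noncomputable def maj (p : Cov) : ℝ := 2 * (1 + 3 * ∑ i, ‖p i‖ ^ 4)

theorem maj_nonneg (p : Cov) : 0 ≤ maj p := by
  unfold maj
  have : 0 ≤ ∑ i, ‖p i‖ ^ 4 := Finset.sum_nonneg fun _ _ => by positivity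
  positivity

theorem le_maj (p : Cov) : vn p * (1 + vsq p) ≤ maj p := by
  have hv := vn_nonneg p
  have e : vsq p = vn p ^ 2 := (Real.sq_sqrt (vsq_nonneg p)).symm
  have h1 : vn p * (1 + vsq p) ≤ 2 * (1 + vsq p ^ 2) := by
    rw [e]
    nlinarith [sq_nonneg (vn p - 1), sq_nonneg (vn p ^ 2 - vn p), sq_nonneg (vn p ^ 2 - 1),
      sq_nonneg (vn p ^ 2), pow_nonneg hv 3]
  have h2 : vsq p ^ 2 ≤ 3 * ∑ i, ‖p i‖ ^ 4 := by
    have e1 : ∀ i, ‖p i‖ ^ 4 = (p i ^ 2) ^ 2 := by
      intro i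
      rw [Real.norm_eq_abs, show |p i| ^ 4 = (|p i| ^ 2) ^ 2 by ring, sq_abs]
    simp only [e1]
    unfold vsq
    simp only [Fin.sum_univ_three]
    nlinarith [sq_nonneg (p 0 ^ 2 - p 1 ^ 2), sq_nonneg (p 0 ^ 2 - p 2 ^ 2),
      sq_nonneg (p 1 ^ 2 - p 2 ^ 2)]
  unfold maj
  linarith

theorem int_of {U K' : Set E3} (hK' : IsCompact K') (ψ : E3 → ℝ)
    (hψ : Continuous ψ) (hψ0 : ∀ x, x ∉ K' → ψ x = 0) (S : E3 → ℝ)
    (hS : IntegrableOn S K') : IntegrableOn (fun x => ψ x * S x) U := by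
  have h1 : IntegrableOn (fun x => ψ x * S x) K' := hS.continuousOn_mul hψ.continuousOn hK'
  have h2 : Function.support (fun x => ψ x * S x) ⊆ K' := by
    intro x hx
    by_contra h
    exact hx (by simp [hψ0 x h])
  exact ((integrableOn_iff_integrable_of_support_subset h2).1 h1).integrableOn

theorem sz_int {K : Set E3} (hK : IsCompact K) (G : E3 → Cov) (M : E3 → Bil)
    (hG : ∀ i, MemLp (fun x => G x i) 4 (volume.restrict K))
    (hM : ∀ i j, MemLp (fun x => M x i j) 2 (volume.restrict K)) :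
    IntegrableOn (fun x => sz (G x) (M x)) K := by
  have : IsFiniteMeasure (volume.restrict K) := ⟨by simpa using hK.measure_lt_top⟩
  have h1 : ∀ i, Integrable (fun x => |G x i|) (volume.restrict K) := fun i =>
    ((hG i).integrable (by norm_num)).abs
  have h2 : ∀ i j, Integrable (fun x => |M x i j|) (volume.restrict K) := fun i j =>
    ((hM i j).integrable (by norm_num)).abs
  unfold sz
  exact (integrable_finsetSum _ fun i _ => integrable_finsetSum _ fun j _ => h2 i j).add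
    (integrable_finsetSum _ fun i _ => h1 i)

theorem maj_int {K : Set E3} (hK : IsCompact K) (G : E3 → Cov)
    (hG : ∀ i, MemLp (fun x => G x i) 4 (volume.restrict K)) :
    IntegrableOn (fun x => maj (G x)) K := by
  have : IsFiniteMeasure (volume.restrict K) := ⟨by simpa using hK.measure_lt_top⟩
  have h1 : ∀ i, Integrable (fun x => ‖G x i‖ ^ 4) (volume.restrict K) := fun i => by
    have := (hG i).integrable_norm_pow (p := 4) (by norm_num)
    exact this
  unfold maj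
  exact ((integrable_const _).add
    ((integrable_finsetSum _ fun i _ => h1 i).const_mul 3)).const_mul 2

/-- The key bound, uniform in `d`. -/
theorem key (hUP : Stmt_UP) (hH2I : Stmt_H2I) (hCT : Stmt_CT) (ε : ℝ) (U : Set E3)
    (g h : TensorField) (w : E3 → ℝ) (G : E3 → Cov) (M : E3 → Bil) (hε : 0 < ε) (hε1 : ε < 1)
    (hU : IsOpen U) (hg : MetricOn U g) (hh : TensorOn U h) (hw : H2s U w G M)
    (hE : EqW U ε g h G M) (K : Set E3) (hK : IsCompact K) (hKU : K ⊆ U) :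
    ∃ R : ℝ, ∀ d : ℝ, 0 < d → d ≤ 1 →
      ∫⁻ x in K, ENNReal.ofReal (msq (M x) / √(vsq (G x) + d ^ 2)) ≤ ENNReal.ofReal R := by
  obtain ⟨f, hf, hfc, hfU, hf1, hf0, hfl⟩ := cutoff hU hK hKU
  have hK' : IsCompact (tsupport f) := hfc
  obtain ⟨C₁, hC₁, h1⟩ := hUP ε U g h hε hε1 hU hg hh (tsupport f) hK' hfU
  obtain ⟨C₂, hC₂, h2⟩ := hCT U g h hU hg hh (tsupport f) hK' hfU
  have h10 : 0 < C₁ := by linarith
  have h20 : 0 < C₂ := by linarith
  have hfz : ∀ x, x ∉ tsupport f → f x = 0 := fun x hx => image_eq_zero_of_notMem_tsupport hx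
  -- the derivative of the cut-off
  have hpc : ∀ i, Continuous (pd i f) := by
    intro i
    unfold pd
    exact (hf.continuous_fderiv (by simp)).clm_apply continuous_const
  have hpz : ∀ i x, x ∉ tsupport f → pd i f x = 0 := by
    intro i x hx
    unfold pd
    have : fderiv ℝ f x = 0 := by
      by_contra hne
      exact hx (support_fderiv_subset ℝ hne)
    rw [this]
    rfl
  have hsz := sz_int hK' G M (hw.memG _ hK' hfU) (hw.memM _ hK' hfU)
  have hmj := maj_int hK' G (hw.memG _ hK' hfU)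
  have hQ : IntegrableOn (fun x => (∑ i, |pd i f x|) * sz (G x) (M x)) U := by
    refine int_of hK' (fun x => ∑ i, |pd i f x|) ?_ ?_ _ hsz
    · exact continuous_finsetSum _ fun i _ => (hpc i).abs
    · intro x hx
      exact Finset.sum_eq_zero fun i _ => by rw [hpz i x hx, abs_zero]
  have hT : IntegrableOn (fun x => f x * maj (G x)) U :=
    int_of hK' f hf.continuous hfz _ hmj
  refine ⟨C₁ * C₂ ^ 2 * (∫ x in U, 54 * C₂ ^ 5 * ((∑ i, |pd i f x|) * sz (G x) (M x)))
    + C₁ ^ 2 * C₂ ^ 4 * ∫ x in U, f x * maj (G x), ?_⟩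
  intro d hd hd1
  obtain ⟨hI1, hI2, hI3⟩ := hH2I U g w G M hU hg hw f d hf hfc hfU hd
  have hR : IntegrableOn (fun x => C₁ * C₂ ^ 2 * (- (f x * Ddx g d x (G x) (M x) * volDen g x))
      + C₁ ^ 2 * C₂ ^ 4 * (f x * maj (G x))) U :=
    (hI1.neg.const_mul _).add (hT.const_mul _)
  have hpt : ∀ᵐ x ∂(volume.restrict U), f x * (msq (M x) / √(vsq (G x) + d ^ 2)) ≤
      C₁ * C₂ ^ 2 * (- (f x * Ddx g d x (G x) (M x) * volDen g x))
      + C₁ ^ 2 * C₂ ^ 4 * (f x * maj (G x)) := by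
    filter_upwards [hE, hw.symm] with x hx hs
    by_cases hxf : x ∈ tsupport f
    · have hmaj := maj_nonneg (G x)
      by_cases hG : G x = 0
      · have hM := hx.2 hG
        rw [hG, hM, Ddx_zero]
        have : msq (0 : Bil) = 0 := by simp [msq]
        rw [this, zero_div]
        simp only [mul_zero, zero_mul, neg_zero, zero_add]
        have h3 := maj_nonneg (0 : Cov)
        have h4 := hf0 x
        positivity
      · have hres : resid ε g h x (G x) (M x) = 0 := by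
          unfold resid
          rw [hx.1 hG]
          ring
        have hA := h2 x hxf
        have hB := point ε g h x (G x) (M x) d C₁ C₂ hC₁ hC₂ hd hres
          (h1 x hxf (G x) (M x) d hG hs hd.le hd1).1 (hA.1 (G x))
        have hv1 : 1 / C₂ ≤ volDen g x := hA.2.2.2.2.2.2.2.2.2.1
        have hv2 : volDen g x ≤ C₂ := hA.2.2.2.2.2.2.2.2.2.2
        have hv3 : 1 ≤ C₂ * volDen g x := by
          rw [div_le_iff₀ h20] at hv1
          linarith
        have hv0 : 0 ≤ volDen g x := Real.sqrt_nonneg _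
        have hq : 0 ≤ msq (M x) / √(vsq (G x) + d ^ 2) :=
          div_nonneg (msq_nonneg _) (Real.sqrt_nonneg _)
        have hfx := hf0 x
        have hlm := le_maj (G x)
        calc f x * (msq (M x) / √(vsq (G x) + d ^ 2))
            ≤ (C₂ * volDen g x) * (f x * (msq (M x) / √(vsq (G x) + d ^ 2))) :=
              le_mul_of_one_le_left (mul_nonneg hfx hq) hv3
          _ ≤ (C₂ * volDen g x) * (f x * (C₁ * C₂ * (- Ddx g d x (G x) (M x)
                + C₁ * C₂ * (vn (G x) * (1 + vsq (G x)))))) :=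
              mul_le_mul_of_nonneg_left (mul_le_mul_of_nonneg_left hB hfx)
                (mul_nonneg h20.le hv0)
          _ = C₁ * C₂ ^ 2 * (- (f x * Ddx g d x (G x) (M x) * volDen g x))
                + C₁ ^ 2 * C₂ ^ 3 * volDen g x * (f x * (vn (G x) * (1 + vsq (G x)))) := by ring
          _ ≤ C₁ * C₂ ^ 2 * (- (f x * Ddx g d x (G x) (M x) * volDen g x))
                + C₁ ^ 2 * C₂ ^ 3 * C₂ * (f x * maj (G x)) := by
              have e1 : C₁ ^ 2 * C₂ ^ 3 * volDen g x ≤ C₁ ^ 2 * C₂ ^ 3 * C₂ :=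
                mul_le_mul_of_nonneg_left hv2 (by positivity)
              have e2 : f x * (vn (G x) * (1 + vsq (G x))) ≤ f x * maj (G x) :=
                mul_le_mul_of_nonneg_left hlm hfx
              have e3 : 0 ≤ f x * (vn (G x) * (1 + vsq (G x))) :=
                mul_nonneg hfx (mul_nonneg (vn_nonneg _) (by linarith [vsq_nonneg (G x)]))
              linarith [mul_le_mul e1 e2 e3 (by positivity)]
          _ = _ := by ring
    · rw [hfz x hxf]
      simp
  have hnn : 0 ≤ᵐ[volume.restrict U] fun x =>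
      C₁ * C₂ ^ 2 * (- (f x * Ddx g d x (G x) (M x) * volDen g x))
      + C₁ ^ 2 * C₂ ^ 4 * (f x * maj (G x)) := by
    filter_upwards [hpt] with x hx
    exact le_trans (mul_nonneg (hf0 x) (div_nonneg (msq_nonneg _) (Real.sqrt_nonneg _))) hx
  have hint : ∫ x in U, (C₁ * C₂ ^ 2 * (- (f x * Ddx g d x (G x) (M x) * volDen g x))
      + C₁ ^ 2 * C₂ ^ 4 * (f x * maj (G x))) ≤
      C₁ * C₂ ^ 2 * (∫ x in U, 54 * C₂ ^ 5 * ((∑ i, |pd i f x|) * sz (G x) (M x)))
      + C₁ ^ 2 * C₂ ^ 4 * ∫ x in U, f x * maj (G x) := by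
    have hadd : ∫ x in U, (C₁ * C₂ ^ 2 * (- (f x * Ddx g d x (G x) (M x) * volDen g x))
        + C₁ ^ 2 * C₂ ^ 4 * (f x * maj (G x))) =
        (∫ x in U, C₁ * C₂ ^ 2 * (- (f x * Ddx g d x (G x) (M x) * volDen g x)))
        + ∫ x in U, C₁ ^ 2 * C₂ ^ 4 * (f x * maj (G x)) :=
      integral_add (hI1.neg.const_mul _) (hT.const_mul _)
    rw [hadd, integral_const_mul, integral_const_mul, integral_neg, hI3, neg_neg]
    have hle : ∫ x in U, (∑ i, pd i f x * Yf g d x (G x) (M x) i) * volDen g x ≤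
        ∫ x in U, 54 * C₂ ^ 5 * ((∑ i, |pd i f x|) * sz (G x) (M x)) := by
      refine integral_mono hI2 (hQ.const_mul _) fun x => ?_
      show (∑ i, pd i f x * Yf g d x (G x) (M x) i) * volDen g x ≤
        54 * C₂ ^ 5 * ((∑ i, |pd i f x|) * sz (G x) (M x))
      by_cases hxf : x ∈ tsupport f
      · have hA := h2 x hxf
        have hΓ := hA.2.2.2.1
        have hP := hA.2.2.2.2.2.2.2.2.1
        have hv2 : volDen g x ≤ C₂ := hA.2.2.2.2.2.2.2.2.2.2
        have hv0 : 0 ≤ volDen g x := Real.sqrt_nonneg _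
        have hY := Yf_le g x (G x) (M x) d C₂ hC₂ hd hP hΓ (hA.1 (G x)).1
        have hs := sz_nonneg (G x) (M x)
        have e1 : ∑ i, pd i f x * Yf g d x (G x) (M x) i ≤
            ∑ i, |pd i f x| * (54 * C₂ ^ 4 * sz (G x) (M x)) := by
          refine Finset.sum_le_sum fun i _ => ?_
          refine (le_abs_self _).trans ?_
          rw [abs_mul]
          exact mul_le_mul_of_nonneg_left (hY i) (abs_nonneg _)
        have e2 : 0 ≤ ∑ i, |pd i f x| * (54 * C₂ ^ 4 * sz (G x) (M x)) :=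
          Finset.sum_nonneg fun i _ => by positivity
        calc (∑ i, pd i f x * Yf g d x (G x) (M x) i) * volDen g x
            ≤ (∑ i, |pd i f x| * (54 * C₂ ^ 4 * sz (G x) (M x))) * volDen g x :=
              mul_le_mul_of_nonneg_right e1 hv0
          _ ≤ (∑ i, |pd i f x| * (54 * C₂ ^ 4 * sz (G x) (M x))) * C₂ :=
              mul_le_mul_of_nonneg_left hv2 e2
          _ = _ := by
              rw [← Finset.sum_mul]
              ring
      · have e1 : ∑ i, pd i f x * Yf g d x (G x) (M x) i = 0 :=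
          Finset.sum_eq_zero fun i _ => by rw [hpz i x hxf, zero_mul]
        have e2 : ∑ i, |pd i f x| = 0 :=
          Finset.sum_eq_zero fun i _ => by rw [hpz i x hxf, abs_zero]
        rw [e1, e2]
        simp
    have hc : 0 ≤ C₁ * C₂ ^ 2 := by positivity
    linarith [mul_le_mul_of_nonneg_left hle hc]
  calc ∫⁻ x in K, ENNReal.ofReal (msq (M x) / √(vsq (G x) + d ^ 2))
      = ∫⁻ x in K, ENNReal.ofReal (f x * (msq (M x) / √(vsq (G x) + d ^ 2))) := by
        refine setLIntegral_congr_fun hK.measurableSet fun x hx => ?_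
        show ENNReal.ofReal _ = ENNReal.ofReal _
        rw [hf1 x hx, one_mul]
    _ ≤ ∫⁻ x in U, ENNReal.ofReal (f x * (msq (M x) / √(vsq (G x) + d ^ 2))) :=
        lintegral_mono_set hKU
    _ ≤ ∫⁻ x in U, ENNReal.ofReal
          (C₁ * C₂ ^ 2 * (- (f x * Ddx g d x (G x) (M x) * volDen g x))
            + C₁ ^ 2 * C₂ ^ 4 * (f x * maj (G x))) :=
        lintegral_mono_ae (hpt.mono fun x hx => ENNReal.ofReal_le_ofReal hx)
    _ = ENNReal.ofReal (∫ x in U, (C₁ * C₂ ^ 2 * (- (f x * Ddx g d x (G x) (M x) * volDen g x))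
            + C₁ ^ 2 * C₂ ^ 4 * (f x * maj (G x)))) :=
        (ofReal_integral_eq_lintegral_ofReal hR hnn).symm
    _ ≤ _ := ENNReal.ofReal_le_ofReal hint

end MAPB

/-- **The a priori bound.** -/
theorem APB (hUP : Stmt_UP) (hH2I : Stmt_H2I) (hCT : Stmt_CT) : Stmt_APB := by
  intro ε U g h w G M hε hε1 hU hg hh hw hE K hK hKU
  obtain ⟨R, hR⟩ := MAPB.key hUP hH2I hCT ε U g h w G M hε hε1 hU hg hh hw hE K hK hKU
  have hGm : ∀ i, AEMeasurable (fun x => G x i) (volume.restrict K) := fun i =>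
    (hw.memG K hK hKU i).aestronglyMeasurable.aemeasurable
  have hMm : ∀ i j, AEMeasurable (fun x => M x i j) (volume.restrict K) := fun i j =>
    (hw.memM K hK hKU i j).aestronglyMeasurable.aemeasurable
  have hms : AEMeasurable (fun x => msq (M x)) (volume.restrict K) := by
    unfold msq
    exact Finset.aemeasurable_fun_sum _ fun i _ => Finset.aemeasurable_fun_sum _ fun j _ =>
      (hMm i j).pow_const 2
  have hvs : AEMeasurable (fun x => vsq (G x)) (volume.restrict K) := by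
    unfold vsq
    exact Finset.aemeasurable_fun_sum _ fun i _ => (hGm i).pow_const 2
  have hmeas : AEMeasurable (fun x => msq (M x) / vn (G x)) (volume.restrict K) :=
    hms.div hvs.sqrt
  refine ⟨hmeas.aestronglyMeasurable, ?_⟩
  rw [hasFiniteIntegral_iff_ofReal (Eventually.of_forall fun x =>
    div_nonneg (MAPB.msq_nonneg _) (MAPB.vn_nonneg _))]
  refine lt_of_le_of_lt ?_ (ENNReal.ofReal_lt_top (r := R))
  have hd : Tendsto (fun n : ℕ => (1 : ℝ) / (n + 1)) atTop (𝓝 0) :=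
    tendsto_one_div_add_atTop_nhds_zero_nat
  calc ∫⁻ x in K, ENNReal.ofReal (msq (M x) / vn (G x))
      ≤ ∫⁻ x in K, liminf (fun n : ℕ => ENNReal.ofReal
          (msq (M x) / √(vsq (G x) + ((1 : ℝ) / (n + 1)) ^ 2))) atTop := by
        refine lintegral_mono fun x => ?_
        by_cases hG : vn (G x) = 0
        · rw [hG, div_zero, ENNReal.ofReal_zero]
          exact zero_le
        · have ht : Tendsto (fun n : ℕ => ENNReal.ofReal
              (msq (M x) / √(vsq (G x) + ((1 : ℝ) / (n + 1)) ^ 2))) atTop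
              (𝓝 (ENNReal.ofReal (msq (M x) / vn (G x)))) := by
            refine ENNReal.tendsto_ofReal ?_
            refine tendsto_const_nhds.div ?_ hG
            have h1 : Tendsto (fun n : ℕ => vsq (G x) + ((1 : ℝ) / (n + 1)) ^ 2) atTop
                (𝓝 (vsq (G x) + 0 ^ 2)) := tendsto_const_nhds.add (hd.pow 2)
            have h2 := (Real.continuous_sqrt.tendsto _).comp h1
            have h3 : √(vsq (G x) + 0 ^ 2) = vn (G x) := by simp [vn]
            rw [h3] at h2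
            exact h2
          rw [ht.liminf_eq]
    _ ≤ liminf (fun n : ℕ => ∫⁻ x in K, ENNReal.ofReal
          (msq (M x) / √(vsq (G x) + ((1 : ℝ) / (n + 1)) ^ 2))) atTop := by
        refine lintegral_liminf_le' fun n => ?_
        exact (hms.div (hvs.add_const _).sqrt).ennreal_ofReal
    _ ≤ liminf (fun _ : ℕ => ENNReal.ofReal R) atTop := by
        refine liminf_le_liminf (Eventually.of_forall fun n => ?_)
        refine hR _ (by positivity) ?_
        rw [div_le_one (by positivity)]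
        linarith [(Nat.cast_nonneg n : (0 : ℝ) ≤ n)]
    _ = ENNReal.ofReal R := liminf_const _

end Pool.Agent.PFlow
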