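import Pool.Agent.PFlow.StmtsM
import Pool.Agent.PenroseSph.Calc

set_option autoImplicit false

open MeasureTheory Filter Topology
open scoped ContDiff ENNReal

namespace Pool.Agent.PFlow.MAPW

open Pool.Agent.PenroseSph

/-- The bound of the averaged kernel. -/
noncomputable def bk (C r : ℝ) (p : Cov) : ℝ := 1 / max (r / C) (vn p - r)

theorem vsq_nonneg (p : Cov) : 0 ≤ vsq p := Finset.sum_nonneg fun _ _ => sq_nonneg _

theorem vn_nonneg (p : Cov) : 0 ≤ vn p := Real.sqrt_nonneg _

theorem msq_nonneg (M : Bil) : 0 ≤ msq M :=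
  Finset.sum_nonneg fun _ _ => Finset.sum_nonneg fun _ _ => sq_nonneg _

theorem continuous_vn : Continuous vn := by
  unfold vn vsq
  fun_prop

theorem vn_eq_zero {p : Cov} : vn p = 0 ↔ p = 0 := by
  unfold vn
  rw [Real.sqrt_eq_zero (vsq_nonneg p)]
  constructor
  · intro h
    funext i
    have := (Finset.sum_eq_zero_iff_of_nonneg (fun i _ => sq_nonneg (p i))).1 h i (Finset.mem_univ i)
    simpa using this
  · rintro rfl
    simp [vsq]

theorem vn_pos {p : Cov} (h : p ≠ 0) : 0 < vn p :=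
  lt_of_le_of_ne (vn_nonneg p) (fun h0 => h (vn_eq_zero.1 h0.symm))

theorem vn_eq_norm (v : E3) : vn (fun i => v i) = ‖v‖ := by
  unfold vn vsq
  rw [EuclideanSpace.norm_eq]
  simp only [Real.norm_eq_abs, sq_abs]

theorem vn_add (p : Cov) (a : E3) : vn (fun i => p i + a i) = ‖WithLp.toLp 2 p + a‖ := by
  rw [← vn_eq_norm]
  rfl

theorem vn_toLp (p : Cov) : ‖WithLp.toLp 2 p‖ = vn p := by
  rw [← vn_eq_norm]

theorem bk_den_pos {C r : ℝ} (hC : 0 < C) (hr : 0 < r) (p : Cov) :
    0 < max (r / C) (vn p - r) := lt_max_of_lt_left (by positivity)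

theorem bk_nonneg {C r : ℝ} (hC : 0 < C) (hr : 0 < r) (p : Cov) : 0 ≤ bk C r p := by
  unfold bk
  have := bk_den_pos hC hr p
  positivity

theorem bk_le {C r : ℝ} (hC : 0 < C) (hr : 0 < r) (p : Cov) : bk C r p ≤ C / r := by
  unfold bk
  rw [div_le_div_iff₀ (bk_den_pos hC hr p) hr]
  have h := le_max_left (r / C) (vn p - r)
  rw [div_le_iff₀ hC] at h
  linarith

theorem continuous_bk {C r : ℝ} (hC : 0 < C) (hr : 0 < r) : Continuous (bk C r) := by
  unfold bk
  refine continuous_const.div (continuous_const.max (continuous_vn.sub continuous_const)) ?_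
  intro p
  exact (bk_den_pos hC hr p).ne'

theorem vol_ball (r : ℝ) (hr : 0 < r) : (volume (Metric.ball (0 : E3) r)).toReal
    = (volume (Metric.ball (0 : E3) 1)).toReal * r ^ 3 := by
  rw [Measure.addHaar_ball volume (0 : E3) hr.le]
  rw [ENNReal.toReal_mul, ENNReal.toReal_ofReal (by positivity)]
  simp only [finrank_euclideanSpace, Fintype.card_fin]
  ring

theorem ker_bound (hKER : Stmt_KER) : ∃ C : ℝ, 0 < C ∧ ∀ (r : ℝ) (p : Cov), 0 < r →
    ∫⁻ a in Metric.ball (0 : E3) r, ENNReal.ofReal (1 / vn (fun i => p i + a i))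
      ≤ volume (Metric.ball (0 : E3) r) * ENNReal.ofReal (bk C r p) := by
  obtain ⟨C₀, hC₀, hK⟩ := hKER
  set om : ℝ := (volume (Metric.ball (0 : E3) 1)).toReal with hom
  have hompos : 0 < om := by
    refine ENNReal.toReal_pos ?_ ?_
    · exact (Metric.measure_ball_pos volume (0 : E3) one_pos).ne'
    · exact measure_ball_lt_top.ne
  refine ⟨C₀ / om, by positivity, ?_⟩
  intro r p hr
  have hvol : volume (Metric.ball (0 : E3) r) = ENNReal.ofReal (om * r ^ 3) := by
    rw [← vol_ball r hr, ENNReal.ofReal_toReal measure_ball_lt_top.ne]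
  by_cases hcase : vn p - r ≤ r / (C₀ / om)
  · have h1 := hK r (WithLp.toLp 2 p) hr
    have h2 : ∀ a : E3, 1 / ‖WithLp.toLp 2 p + a‖ = 1 / vn (fun i => p i + a i) := by
      intro a; rw [vn_add]
    simp only [h2] at h1
    refine h1.trans ?_
    rw [hvol, ← ENNReal.ofReal_mul (by positivity)]
    apply ENNReal.ofReal_le_ofReal
    unfold bk
    rw [max_eq_left hcase]
    have h3 : C₀ * r ^ 3 / max r ‖WithLp.toLp 2 p‖ ≤ C₀ * r ^ 3 / r := by
      apply div_le_div_of_nonneg_left (by positivity) hr (le_max_left _ _)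
    refine h3.trans (le_of_eq ?_)
    field_simp
  · push Not at hcase
    have hpos : 0 < vn p - r := lt_trans (by positivity) hcase
    have h4 : ∀ a ∈ Metric.ball (0 : E3) r, ENNReal.ofReal (1 / vn (fun i => p i + a i))
        ≤ ENNReal.ofReal (bk (C₀ / om) r p) := by
      intro a ha
      rw [Metric.mem_ball, dist_zero_right] at ha
      apply ENNReal.ofReal_le_ofReal
      unfold bk
      rw [max_eq_right hcase.le, vn_add]
      apply one_div_le_one_div_of_le hpos
      have h5 : ‖WithLp.toLp 2 p‖ ≤ ‖WithLp.toLp 2 p + a‖ + ‖a‖ := by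
        have := norm_sub_le (WithLp.toLp 2 p + a) a
        rwa [add_sub_cancel_right] at this
      rw [vn_toLp] at h5
      linarith
    calc ∫⁻ a in Metric.ball (0 : E3) r, ENNReal.ofReal (1 / vn (fun i => p i + a i))
        ≤ ∫⁻ _ in Metric.ball (0 : E3) r, ENNReal.ofReal (bk (C₀ / om) r p) :=
          setLIntegral_mono measurable_const h4
      _ = _ := by rw [setLIntegral_const, mul_comm]

theorem continuous_pd {v : E3 → ℝ} (hv : ContDiff ℝ ∞ v) (i : Fin 3) : Continuous (pd i v) := by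
  unfold pd
  exact (hv.continuous_fderiv (by simp)).clm_apply continuous_const

theorem contDiff_pd {v : E3 → ℝ} (hv : ContDiff ℝ ∞ v) (i : Fin 3) : ContDiff ℝ ∞ (pd i v) := by
  unfold pd
  exact (hv.fderiv_right (m := ∞) (by simp)).clm_apply contDiff_const

theorem continuous_grad {v : E3 → ℝ} (hv : ContDiff ℝ ∞ v) : Continuous (grad v) := by
  unfold grad
  exact continuous_pi fun i => continuous_pd hv i

theorem continuous_hess2 {v : E3 → ℝ} (hv : ContDiff ℝ ∞ v) : Continuous (hess2 v) := by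
  unfold hess2
  exact continuous_matrix fun i j => continuous_pd (contDiff_pd hv j) i

theorem continuous_msq : Continuous msq := by
  unfold msq
  fun_prop

/-- The choice of a small linear perturbation. -/
theorem exists_a (hMO : Stmt_MO) {C : ℝ} (hker : ∀ (r : ℝ) (p : Cov), 0 < r →
    ∫⁻ a in Metric.ball (0 : E3) r, ENNReal.ofReal (1 / vn (fun i => p i + a i))
      ≤ volume (Metric.ball (0 : E3) r) * ENNReal.ofReal (bk C r p))
    {v : E3 → ℝ} (hv : ContDiff ℝ ∞ v) {K : Set E3} (hK : IsCompact K) {r : ℝ} (hr : 0 < r) :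
    ∃ a : E3, ‖a‖ < r ∧ {x ∈ K | ∀ i, pd i v x + a i = 0}.Finite ∧
      ∫⁻ x in K, ENNReal.ofReal (msq (hess2 v x) / vn (fun i => grad v x i + a i))
        ≤ ∫⁻ x in K, ENNReal.ofReal (msq (hess2 v x) * bk C r (grad v x)) := by
  have hmo := hMO v K hv hK
  set B := Metric.ball (0 : E3) r with hB
  have hBpos : volume B ≠ 0 := (Metric.measure_ball_pos volume (0 : E3) hr).ne'
  have hBfin : volume B ≠ ⊤ := measure_ball_lt_top.ne
  set F : E3 → E3 → ℝ≥0∞ := fun a x =>
    ENNReal.ofReal (msq (hess2 v x) / vn (fun i => grad v x i + a i)) with hF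
  have hFm : Measurable (Function.uncurry F) := by
    apply ENNReal.measurable_ofReal.comp
    apply Measurable.div
    · exact ((continuous_msq.comp (continuous_hess2 hv)).comp continuous_snd).measurable
    · refine (continuous_vn.comp ?_).measurable
      refine continuous_pi fun i => ?_
      refine Continuous.add ?_ ?_
      · exact (continuous_pd hv i).comp continuous_snd
      · exact (EuclideanSpace.proj i : E3 →L[ℝ] ℝ).continuous.comp continuous_fst
  have hN : (volume.restrict B) ({a : E3 | ¬ {x ∈ K | ∀ i, pd i v x + a i = 0}.Finite} ∪ Bᶜ) = 0 := by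
    refine le_antisymm ((measure_union_le _ _).trans ?_) zero_le
    have h1 : (volume.restrict B) {a : E3 | ¬ {x ∈ K | ∀ i, pd i v x + a i = 0}.Finite} = 0 :=
      Measure.absolutelyContinuous_of_le Measure.restrict_le_self hmo
    rw [h1, Measure.restrict_apply Metric.isOpen_ball.measurableSet.compl, ← hB,
      Set.compl_inter_self, measure_empty, add_zero]
  have hμ : volume.restrict B ≠ 0 := by
    rw [Ne, Measure.restrict_eq_zero]
    exact hBpos
  have : IsFiniteMeasure (volume.restrict B) :=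
    ⟨by rw [Measure.restrict_apply_univ]; exact measure_ball_lt_top⟩
  obtain ⟨a, ha, hle⟩ := exists_notMem_null_le_laverage (f := fun a => ∫⁻ x in K, F a x) hμ
    (hFm.lintegral_prod_right').aemeasurable hN
  rw [Set.mem_union, not_or] at ha
  refine ⟨a, ?_, ?_, ?_⟩
  · have := ha.2
    rw [Set.mem_compl_iff, not_not, hB, Metric.mem_ball, dist_zero_right] at this
    exact this
  · have := ha.1
    rw [Set.mem_ofPred_eq, not_not] at this
    exact this
  · refine hle.trans ?_
    rw [laverage_eq, Measure.restrict_apply_univ]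
    rw [ENNReal.div_le_iff hBpos hBfin]
    rw [lintegral_lintegral_swap hFm.aemeasurable]
    rw [← lintegral_mul_const' _ _ hBfin]
    refine lintegral_mono fun x => ?_
    have h2 : ∀ a : E3, F a x = ENNReal.ofReal (msq (hess2 v x))
        * ENNReal.ofReal (1 / vn (fun i => grad v x i + a i)) := by
      intro a
      rw [← ENNReal.ofReal_mul (msq_nonneg _)]
      rw [hF]
      simp only
      congr 1
      ring
    simp only [h2]
    rw [lintegral_const_mul' _ _ ENNReal.ofReal_ne_top]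
    rw [ENNReal.ofReal_mul (msq_nonneg _), mul_assoc]
    gcongr
    rw [mul_comm]
    exact hker r (grad v x) hr

/-- Common subsequence with convergence almost everywhere. -/
theorem subseq_ae {ι α : Type} {mα : MeasurableSpace α} {μ : Measure α} (s : Finset ι)
    (f : ι → ℕ → α → ℝ) (g : ι → α → ℝ) (h : ∀ i, TendstoInMeasure μ (f i) atTop (g i)) :
    ∃ ns : ℕ → ℕ, StrictMono ns ∧ ∀ i ∈ s,
      ∀ᵐ x ∂μ, Tendsto (fun k => f i (ns k) x) atTop (𝓝 (g i x)) := by
  classical
  induction s using Finset.induction_on with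
  | empty => exact ⟨id, strictMono_id, by simp⟩
  | insert a s ha ih =>
    obtain ⟨ns, hns, hs⟩ := ih
    have h1 : TendstoInMeasure μ (fun k => f a (ns k)) atTop (g a) := by
      intro e he
      exact (h a e he).comp hns.tendsto_atTop
    obtain ⟨ms, hms, h2⟩ := h1.exists_seq_tendsto_ae
    refine ⟨ns ∘ ms, hns.comp hms, ?_⟩
    intro i hi
    rcases Finset.mem_insert.1 hi with rfl | hi
    · exact h2
    · filter_upwards [hs i hi] with x hx
      exact hx.comp hms.tendsto_atTop

theorem tim_of_lp {α : Type} {mα : MeasurableSpace α} {μ : Measure α} {f : ℕ → α → ℝ}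
    {g : α → ℝ} {p : ℝ≥0∞} (hp : p ≠ 0) (hf : ∀ n, AEStronglyMeasurable (f n) μ)
    (hg : AEStronglyMeasurable g μ)
    (h : Tendsto (fun n => eLpNorm (fun x => f n x - g x) p μ) atTop (𝓝 0)) :
    TendstoInMeasure μ f atTop g :=
  tendstoInMeasure_of_tendsto_eLpNorm hp hf hg h

theorem lint_sq {α : Type} {mα : MeasurableSpace α} {μ : Measure α} (f : α → ℝ) :
    ∫⁻ x, ENNReal.ofReal (f x ^ 2) ∂μ = eLpNorm f 2 μ ^ 2 := by
  rw [eLpNorm_eq_lintegral_rpow_enorm_toReal (by norm_num) (by norm_num)]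
  rw [← ENNReal.rpow_natCast, ← ENNReal.rpow_mul]
  norm_num
  refine lintegral_congr fun x => ?_
  rw [← Real.enorm_eq_ofReal (sq_nonneg _), enorm_pow]

theorem lint_msq {α : Type} {mα : MeasurableSpace α} {μ : Measure α} (N : α → Bil)
    (hN : ∀ i j, AEStronglyMeasurable (fun x => N x i j) μ) :
    ∫⁻ x, ENNReal.ofReal (msq (N x)) ∂μ = ∑ i, ∑ j, eLpNorm (fun x => N x i j) 2 μ ^ 2 := by
  simp only [← lint_sq]
  unfold msq
  have hm : ∀ i j, AEMeasurable (fun x => ENNReal.ofReal (N x i j ^ 2)) μ := by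
    intro i j
    exact ((hN i j).aemeasurable.pow_const 2).ennreal_ofReal
  have h1 : ∀ x, ENNReal.ofReal (∑ i, ∑ j, N x i j ^ 2)
      = ∑ i, ∑ j, ENNReal.ofReal (N x i j ^ 2) := by
    intro x
    rw [ENNReal.ofReal_sum_of_nonneg
      (fun i _ => Finset.sum_nonneg fun j _ => sq_nonneg (N x i j))]
    refine Finset.sum_congr rfl fun i _ => ?_
    rw [ENNReal.ofReal_sum_of_nonneg (fun j _ => sq_nonneg (N x i j))]
  simp only [h1]
  rw [lintegral_finsetSum' _ (fun i _ => Finset.aemeasurable_fun_sum _ (fun j _ => hm i j))]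
  refine Finset.sum_congr rfl fun i _ => ?_
  rw [lintegral_finsetSum' _ (fun j _ => hm i j)]

theorem msq_split (H M : Bil) {s : ℝ} (hs : 0 < s) :
    msq H ≤ (1 + s) * msq M + (1 + 1 / s) * msq (H - M) := by
  unfold msq
  simp only [Finset.mul_sum, ← Finset.sum_add_distrib]
  refine Finset.sum_le_sum fun i _ => Finset.sum_le_sum fun j _ => ?_
  rw [Matrix.sub_apply]
  have h1 : (1 + s) * M i j ^ 2 + (1 + 1 / s) * (H i j - M i j) ^ 2 - H i j ^ 2
      = (s * M i j - (H i j - M i j)) ^ 2 / s := by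
    field_simp
    ring
  have h2 : 0 ≤ (s * M i j - (H i j - M i j)) ^ 2 / s := by positivity
  linarith

theorem bk_le_div {C r : ℝ} (hC : 0 < C) (hr : 0 < r) {p : Cov} (hp : p ≠ 0) :
    bk C r p ≤ (2 + 2 * C) / vn p := by
  unfold bk
  have hv := vn_pos hp
  rw [div_le_div_iff₀ (bk_den_pos hC hr p) hv, one_mul]
  by_cases h : 2 * r ≤ vn p
  · have h1 := le_max_right (r / C) (vn p - r)
    have h2 := (bk_den_pos hC hr p).le
    nlinarith
  · push Not at h
    have h1 := le_max_left (r / C) (vn p - r)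
    have h2 := (bk_den_pos hC hr p).le
    rw [div_le_iff₀ hC] at h1
    nlinarith

theorem bk_tendsto (C : ℝ) {p : Cov} (hp : p ≠ 0) :
    Tendsto (fun k : ℕ => bk C (1 / ((k : ℝ) + 1)) p) atTop (𝓝 (1 / vn p)) := by
  unfold bk
  have h0 : Tendsto (fun k : ℕ => 1 / ((k : ℝ) + 1)) atTop (𝓝 0) :=
    tendsto_one_div_add_atTop_nhds_zero_nat
  have h1 : Tendsto (fun k : ℕ => max (1 / ((k : ℝ) + 1) / C) (vn p - 1 / ((k : ℝ) + 1))) atTop
      (𝓝 (max (0 / C) (vn p - 0))) :=
    (h0.div_const C).max (tendsto_const_nhds.sub h0)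
  rw [zero_div, sub_zero, max_eq_right (vn_nonneg p)] at h1
  exact tendsto_const_nhds.div h1 (vn_pos hp).ne'

section step1

variable {K : Set E3} {G : E3 → Cov} {M : E3 → Bil}

theorem limB {C : ℝ} (hC : 0 < C) (hG : AEMeasurable G (volume.restrict K))
    (hM : AEMeasurable (fun x => msq (M x)) (volume.restrict K))
    (h0 : ∀ᵐ x ∂(volume.restrict K), G x = 0 → M x = 0)
    (hfin : ∫⁻ x in K, ENNReal.ofReal (msq (M x) / vn (G x)) ≠ ⊤) :
    Tendsto (fun k : ℕ => ∫⁻ x in K, ENNReal.ofReal (msq (M x) * bk C (1 / ((k : ℝ) + 1)) (G x)))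
      atTop (𝓝 (∫⁻ x in K, ENNReal.ofReal (msq (M x) / vn (G x)))) := by
  refine tendsto_lintegral_of_dominated_convergence'
    (fun x => ENNReal.ofReal (2 + 2 * C) * ENNReal.ofReal (msq (M x) / vn (G x))) ?_ ?_ ?_ ?_
  · intro k
    have hr : 0 < 1 / ((k : ℝ) + 1) := by positivity
    exact (hM.mul
      ((continuous_bk hC hr).measurable.comp_aemeasurable hG)).ennreal_ofReal
  · intro k
    have hr : 0 < 1 / ((k : ℝ) + 1) := by positivity
    filter_upwards [h0] with x hx
    rw [← ENNReal.ofReal_mul (by positivity)]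
    apply ENNReal.ofReal_le_ofReal
    by_cases hGx : G x = 0
    · rw [hx hGx]
      simp [msq]
    · have h1 := bk_le_div hC hr hGx
      calc msq (M x) * bk C (1 / ((k : ℝ) + 1)) (G x)
          ≤ msq (M x) * ((2 + 2 * C) / vn (G x)) := by
            gcongr
            exact msq_nonneg _
        _ = _ := by ring
  · rw [lintegral_const_mul' _ _ ENNReal.ofReal_ne_top]
    exact ENNReal.mul_ne_top ENNReal.ofReal_ne_top hfin
  · filter_upwards [h0] with x hx
    by_cases hGx : G x = 0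
    · rw [hx hGx]
      simp [msq]
    · refine (ENNReal.continuous_ofReal.tendsto _).comp ?_
      rw [div_eq_mul_one_div]
      exact tendsto_const_nhds.mul (bk_tendsto C hGx)

theorem limA {C r : ℝ} (hC : 0 < C) (hr : 0 < r)
    (hM : AEMeasurable (fun x => msq (M x)) (volume.restrict K))
    (hMfin : ∫⁻ x in K, ENNReal.ofReal (msq (M x)) ≠ ⊤) {p : ℕ → E3 → Cov}
    (hp : ∀ n, AEMeasurable (p n) (volume.restrict K))
    (hlim : ∀ᵐ x ∂(volume.restrict K), Tendsto (fun n => p n x) atTop (𝓝 (G x))) :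
    Tendsto (fun n : ℕ => ∫⁻ x in K, ENNReal.ofReal (msq (M x) * bk C r (p n x)))
      atTop (𝓝 (∫⁻ x in K, ENNReal.ofReal (msq (M x) * bk C r (G x)))) := by
  refine tendsto_lintegral_of_dominated_convergence'
    (fun x => ENNReal.ofReal (C / r) * ENNReal.ofReal (msq (M x))) ?_ ?_ ?_ ?_
  · intro n
    exact (hM.mul
      ((continuous_bk hC hr).measurable.comp_aemeasurable (hp n))).ennreal_ofReal
  · intro n
    refine Eventually.of_forall fun x => ?_
    show ENNReal.ofReal (msq (M x) * bk C r (p n x))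
      ≤ ENNReal.ofReal (C / r) * ENNReal.ofReal (msq (M x))
    rw [← ENNReal.ofReal_mul (by positivity)]
    apply ENNReal.ofReal_le_ofReal
    rw [mul_comm]
    gcongr
    · exact msq_nonneg _
    · exact bk_le hC hr _
  · rw [lintegral_const_mul' _ _ ENNReal.ofReal_ne_top]
    exact ENNReal.mul_ne_top ENNReal.ofReal_ne_top hMfin
  · filter_upwards [hlim] with x hx
    refine (ENNReal.continuous_ofReal.tendsto _).comp ?_
    exact tendsto_const_nhds.mul (((continuous_bk hC hr).tendsto _).comp hx)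

theorem step1 (hMO : Stmt_MO) {C : ℝ} (hC : 0 < C) (hker : ∀ (r : ℝ) (p : Cov), 0 < r →
    ∫⁻ a in Metric.ball (0 : E3) r, ENNReal.ofReal (1 / vn (fun i => p i + a i))
      ≤ volume (Metric.ball (0 : E3) r) * ENNReal.ofReal (bk C r p))
    (hK : IsCompact K) (hG : AEMeasurable G (volume.restrict K))
    (hM : AEMeasurable (fun x => msq (M x)) (volume.restrict K))
    (hMfin : ∫⁻ x in K, ENNReal.ofReal (msq (M x)) ≠ ⊤)
    (h0 : ∀ᵐ x ∂(volume.restrict K), G x = 0 → M x = 0)
    {I : ℝ} (hI0 : 0 ≤ I)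
    (hI : ∫⁻ x in K, ENNReal.ofReal (msq (M x) / vn (G x)) = ENNReal.ofReal I)
    {v : ℕ → E3 → ℝ} (hv : ∀ n, ContDiff ℝ ∞ (v n))
    (hlim : ∀ᵐ x ∂(volume.restrict K), Tendsto (fun n => grad (v n) x) atTop (𝓝 (G x)))
    (hL2 : Tendsto (fun n => ∫⁻ x in K, ENNReal.ofReal (msq (hess2 (v n) x - M x))) atTop (𝓝 0))
    {e : ℝ} (he : 0 < e) (n0 : ℕ) :
    ∃ n, n0 ≤ n ∧ ∃ a : E3, ‖a‖ < e ∧ {x ∈ K | ∀ i, pd i (v n) x + a i = 0}.Finite ∧
      ∫⁻ x in K, ENNReal.ofReal (msq (hess2 (v n) x) / vn (fun i => grad (v n) x i + a i))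
        ≤ ENNReal.ofReal (I + e) := by
  have hB := limB hC hG hM h0 (by rw [hI]; exact ENNReal.ofReal_ne_top)
  rw [hI] at hB
  have h1 : ∀ᶠ k : ℕ in atTop, ∫⁻ x in K, ENNReal.ofReal
      (msq (M x) * bk C (1 / ((k : ℝ) + 1)) (G x)) < ENNReal.ofReal (I + e / 4) := by
    apply hB.eventually_lt_const
    rw [ENNReal.ofReal_lt_ofReal_iff (by positivity)]
    linarith
  have h2 : ∀ᶠ k : ℕ in atTop, 1 / ((k : ℝ) + 1) < e :=
    tendsto_one_div_add_atTop_nhds_zero_nat.eventually_lt_const he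
  obtain ⟨k, hk1, hk2⟩ := (h1.and h2).exists
  set r : ℝ := 1 / ((k : ℝ) + 1) with hrdef
  have hr : 0 < r := by positivity
  have hA := limA hC hr hM hMfin (p := fun n => grad (v n))
    (fun n => (continuous_grad (hv n)).measurable.aemeasurable) hlim
  have h3 : ∀ᶠ n : ℕ in atTop, ∫⁻ x in K, ENNReal.ofReal
      (msq (M x) * bk C r (grad (v n) x)) < ENNReal.ofReal (I + e / 2) := by
    apply hA.eventually_lt_const
    refine hk1.trans ?_
    rw [ENNReal.ofReal_lt_ofReal_iff (by positivity)]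
    linarith
  set s : ℝ := e / (4 * (I + e / 2)) with hsdef
  have hs : 0 < s := by positivity
  have h4 : Tendsto (fun n => ENNReal.ofReal ((1 + 1 / s) * (C / r))
      * ∫⁻ x in K, ENNReal.ofReal (msq (hess2 (v n) x - M x))) atTop (𝓝 0) := by
    have := ENNReal.Tendsto.const_mul (a := ENNReal.ofReal ((1 + 1 / s) * (C / r))) hL2
      (Or.inr ENNReal.ofReal_ne_top)
    rwa [mul_zero] at this
  have h5 : ∀ᶠ n : ℕ in atTop, ENNReal.ofReal ((1 + 1 / s) * (C / r))
      * ∫⁻ x in K, ENNReal.ofReal (msq (hess2 (v n) x - M x)) < ENNReal.ofReal (e / 4) := by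
    apply h4.eventually_lt_const
    rw [ENNReal.ofReal_pos]
    positivity
  obtain ⟨n, hn3, hn5, hn0⟩ := (h3.and (h5.and (eventually_ge_atTop n0))).exists
  obtain ⟨a, ha, hfin, hle⟩ := exists_a hMO hker (hv n) hK hr
  refine ⟨n, hn0, a, ha.trans hk2, hfin, hle.trans ?_⟩
  have hm1 : AEMeasurable (fun x => ENNReal.ofReal (msq (M x) * bk C r (grad (v n) x)))
      (volume.restrict K) :=
    (hM.mul
      ((continuous_bk hC hr).measurable.comp_aemeasurable
        (continuous_grad (hv n)).measurable.aemeasurable)).ennreal_ofReal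
  calc ∫⁻ x in K, ENNReal.ofReal (msq (hess2 (v n) x) * bk C r (grad (v n) x))
      ≤ ∫⁻ x in K, (ENNReal.ofReal (1 + s) * ENNReal.ofReal (msq (M x) * bk C r (grad (v n) x))
          + ENNReal.ofReal ((1 + 1 / s) * (C / r))
            * ENNReal.ofReal (msq (hess2 (v n) x - M x))) := by
        refine lintegral_mono fun x => ?_
        rw [← ENNReal.ofReal_mul (by positivity), ← ENNReal.ofReal_mul (by positivity),
          ← ENNReal.ofReal_add]
        · apply ENNReal.ofReal_le_ofReal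
          have hb0 := bk_nonneg hC hr (grad (v n) x)
          have hb1 := bk_le hC hr (grad (v n) x)
          have hd := msq_nonneg (hess2 (v n) x - M x)
          have hsp := msq_split (hess2 (v n) x) (M x) hs
          calc msq (hess2 (v n) x) * bk C r (grad (v n) x)
              ≤ ((1 + s) * msq (M x) + (1 + 1 / s) * msq (hess2 (v n) x - M x))
                * bk C r (grad (v n) x) := mul_le_mul_of_nonneg_right hsp hb0
            _ = (1 + s) * (msq (M x) * bk C r (grad (v n) x))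
                + (1 + 1 / s) * msq (hess2 (v n) x - M x) * bk C r (grad (v n) x) := by ring
            _ ≤ (1 + s) * (msq (M x) * bk C r (grad (v n) x))
                + (1 + 1 / s) * msq (hess2 (v n) x - M x) * (C / r) := by
                gcongr
            _ = _ := by ring
        · exact mul_nonneg (by positivity) (mul_nonneg (msq_nonneg _) (bk_nonneg hC hr _))
        · exact mul_nonneg (by positivity) (msq_nonneg _)
    _ = ENNReal.ofReal (1 + s)
            * (∫⁻ x in K, ENNReal.ofReal (msq (M x) * bk C r (grad (v n) x)))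
          + ENNReal.ofReal ((1 + 1 / s) * (C / r))
            * (∫⁻ x in K, ENNReal.ofReal (msq (hess2 (v n) x - M x))) := by
        rw [lintegral_add_left' (hm1.const_mul _), lintegral_const_mul' _ _ ENNReal.ofReal_ne_top,
          lintegral_const_mul' _ _ ENNReal.ofReal_ne_top]
    _ ≤ ENNReal.ofReal (1 + s) * ENNReal.ofReal (I + e / 2) + ENNReal.ofReal (e / 4) := by
        gcongr
    _ = ENNReal.ofReal ((1 + s) * (I + e / 2) + e / 4) := by
        rw [← ENNReal.ofReal_mul (by positivity), ← ENNReal.ofReal_add (by positivity)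
          (by positivity)]
    _ ≤ ENNReal.ofReal (I + e) := by
        apply ENNReal.ofReal_le_ofReal
        have : s * (I + e / 2) = e / 4 := by
          rw [hsdef]
          field_simp
        nlinarith

end step1

theorem ev_sq_le (M : Bil) (p : Cov) : ev M p p ^ 2 ≤ msq M * vsq p ^ 2 := by
  have h := Finset.sum_mul_sq_le_sq_mul_sq (Finset.univ : Finset (Fin 3 × Fin 3))
    (fun q => M q.1 q.2) (fun q => p q.1 * p q.2)
  have h1 : ∑ q : Fin 3 × Fin 3, M q.1 q.2 * (p q.1 * p q.2) = ev M p p := by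
    rw [Fintype.sum_prod_type]
    unfold ev
    exact Finset.sum_congr rfl fun i _ => Finset.sum_congr rfl fun j _ => by ring
  have h2 : ∑ q : Fin 3 × Fin 3, M q.1 q.2 ^ 2 = msq M := by
    rw [Fintype.sum_prod_type]
    rfl
  have h3 : ∑ q : Fin 3 × Fin 3, (p q.1 * p q.2) ^ 2 = vsq p ^ 2 := by
    rw [Fintype.sum_prod_type]
    unfold vsq
    simp only [Fin.sum_univ_three]
    ring
  rw [h1, h2, h3] at h
  exact h

theorem tr_sq_le (M : Bil) : (∑ i, M i i) ^ 2 ≤ 3 * msq M := by
  unfold msq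
  simp only [Fin.sum_univ_three]
  nlinarith [sq_nonneg (M 0 0 - M 1 1), sq_nonneg (M 0 0 - M 2 2), sq_nonneg (M 1 1 - M 2 2),
    sq_nonneg (M 0 1), sq_nonneg (M 0 2), sq_nonneg (M 1 0), sq_nonneg (M 1 2),
    sq_nonneg (M 2 0), sq_nonneg (M 2 1)]

theorem Wd_nonneg (p : Cov) (M : Bil) : 0 ≤ Wd p M := by
  unfold Wd
  have := vn_nonneg p
  positivity

theorem Wd_le (p : Cov) (M : Bil) : Wd p M ≤ 8 * (msq M / vn p) := by
  by_cases hp : p = 0
  · subst hp
    have h0 : vn (0 : Cov) = 0 := vn_eq_zero.2 rfl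
    unfold Wd
    rw [h0, div_zero, div_zero, mul_zero]
  · have hv := vn_pos hp
    have hq : 0 < vsq p := by
      have := Real.sqrt_pos.1 (show 0 < Real.sqrt (vsq p) from hv)
      exact this
    unfold Wd
    rw [← mul_div_assoc]
    apply div_le_div_of_nonneg_right _ hv.le
    have h1 : (ev M p p / vsq p) ^ 2 ≤ msq M := by
      rw [div_pow, div_le_iff₀ (by positivity)]
      exact ev_sq_le M p
    have h2 := tr_sq_le M
    nlinarith [sq_nonneg ((∑ i, M i i) + ev M p p / vsq p)]

theorem continuous_vsq : Continuous vsq := by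
  unfold vsq
  fun_prop

theorem ff_tendsto {p : Cov} {M : Bil} (hp : p ≠ 0) {P : ℕ → Cov} {H : ℕ → Bil}
    (hP : Tendsto P atTop (𝓝 p)) (hH : Tendsto H atTop (𝓝 M)) :
    Tendsto (fun n => msq (H n) / vn (P n)) atTop (𝓝 (msq M / vn p)) :=
  ((continuous_msq.tendsto M).comp hH).div ((continuous_vn.tendsto p).comp hP) (vn_pos hp).ne'

theorem Wd_tendsto {p : Cov} {M : Bil} (hp : p ≠ 0) {P : ℕ → Cov} {H : ℕ → Bil}
    (hP : Tendsto P atTop (𝓝 p)) (hH : Tendsto H atTop (𝓝 M)) :
    Tendsto (fun n => Wd (P n) (H n)) atTop (𝓝 (Wd p M)) := by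
  have hv := vn_pos hp
  have hq : 0 < vsq p := Real.sqrt_pos.1 (show 0 < Real.sqrt (vsq p) from hv)
  have hPi : ∀ i, Tendsto (fun n => P n i) atTop (𝓝 (p i)) := fun i => (tendsto_pi_nhds.1 hP) i
  have hHi : ∀ i j, Tendsto (fun n => H n i j) atTop (𝓝 (M i j)) := fun i j =>
    (tendsto_pi_nhds.1 ((tendsto_pi_nhds.1 hH) i)) j
  have h1 : Tendsto (fun n => ∑ i, H n i i) atTop (𝓝 (∑ i, M i i)) :=
    tendsto_finsetSum _ fun i _ => hHi i i
  have h2 : Tendsto (fun n => ev (H n) (P n) (P n)) atTop (𝓝 (ev M p p)) := by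
    unfold ev
    exact tendsto_finsetSum _ fun i _ => tendsto_finsetSum _ fun j _ =>
      ((hHi i j).mul (hPi i)).mul (hPi j)
  have h3 : Tendsto (fun n => vsq (P n)) atTop (𝓝 (vsq p)) := (continuous_vsq.tendsto p).comp hP
  have h4 : Tendsto (fun n => vn (P n)) atTop (𝓝 (vn p)) := (continuous_vn.tendsto p).comp hP
  unfold Wd
  exact ((h1.sub (h2.div h3 hq.ne')).pow 2).div h4 hv.ne'

section meas

variable {μ : Measure E3} {G : E3 → Cov} {M : E3 → Bil}

theorem aem_vsq (hG : ∀ i, AEMeasurable (fun x => G x i) μ) :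
    AEMeasurable (fun x => vsq (G x)) μ := by
  unfold vsq
  exact Finset.aemeasurable_fun_sum _ fun i _ => (hG i).pow_const 2

theorem aem_vn (hG : ∀ i, AEMeasurable (fun x => G x i) μ) :
    AEMeasurable (fun x => vn (G x)) μ := (aem_vsq hG).sqrt

theorem aem_msq (hM : ∀ i j, AEMeasurable (fun x => M x i j) μ) :
    AEMeasurable (fun x => msq (M x)) μ := by
  unfold msq
  exact Finset.aemeasurable_fun_sum _ fun i _ => Finset.aemeasurable_fun_sum _ fun j _ =>
    (hM i j).pow_const 2

theorem aem_Wd (hG : ∀ i, AEMeasurable (fun x => G x i) μ)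
    (hM : ∀ i j, AEMeasurable (fun x => M x i j) μ) :
    AEMeasurable (fun x => Wd (G x) (M x)) μ := by
  unfold Wd ev
  refine AEMeasurable.div (AEMeasurable.pow_const (AEMeasurable.sub ?_
    (AEMeasurable.div ?_ (aem_vsq hG))) 2) (aem_vn hG)
  · exact Finset.aemeasurable_fun_sum _ fun i _ => hM i i
  · exact Finset.aemeasurable_fun_sum _ fun i _ => Finset.aemeasurable_fun_sum _ fun j _ =>
      ((hM i j).mul (hG i)).mul (hG j)

theorem step2 (hG : ∀ i, AEMeasurable (fun x => G x i) μ)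
    (hM : ∀ i j, AEMeasurable (fun x => M x i j) μ) {P : ℕ → E3 → Cov} {H : ℕ → E3 → Bil}
    (hP : ∀ n i, AEMeasurable (fun x => P n x i) μ)
    (hH : ∀ n i j, AEMeasurable (fun x => H n x i j) μ)
    (h0 : ∀ᵐ x ∂μ, G x = 0 → M x = 0)
    (hPl : ∀ᵐ x ∂μ, Tendsto (fun n => P n x) atTop (𝓝 (G x)))
    (hHl : ∀ᵐ x ∂μ, Tendsto (fun n => H n x) atTop (𝓝 (M x)))
    {I : ℝ} (hI0 : 0 ≤ I) (hI : ∫⁻ x, ENNReal.ofReal (msq (M x) / vn (G x)) ∂μ = ENNReal.ofReal I)
    (hb : ∀ n : ℕ, ∫⁻ x, ENNReal.ofReal (msq (H n x) / vn (P n x)) ∂μ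
      ≤ ENNReal.ofReal (I + 1 / ((n : ℝ) + 1))) :
    (∀ n, Integrable (fun x => Wd (P n x) (H n x)) μ) ∧
    Integrable (fun x => Wd (G x) (M x)) μ ∧
    Tendsto (fun n => ∫ x, |Wd (P n x) (H n x) - Wd (G x) (M x)| ∂μ) atTop (𝓝 0) := by
  set f : ℕ → E3 → ℝ := fun n x => msq (H n x) / vn (P n x) with hf
  set F : E3 → ℝ := fun x => msq (M x) / vn (G x) with hFd
  have hf0 : ∀ n x, 0 ≤ f n x := fun n x => div_nonneg (msq_nonneg _) (vn_nonneg _)
  have hF0 : ∀ x, 0 ≤ F x := fun x => div_nonneg (msq_nonneg _) (vn_nonneg _)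
  have hfm : ∀ n, AEMeasurable (f n) μ := fun n => (aem_msq (hH n)).div (aem_vn (hP n))
  have hFm : AEMeasurable F μ := (aem_msq hM).div (aem_vn hG)
  have hfi : ∀ n, Integrable (f n) μ := by
    intro n
    rw [← lintegral_ofReal_ne_top_iff_integrable (hfm n).aestronglyMeasurable
      (Eventually.of_forall (hf0 n))]
    exact ne_top_of_le_ne_top ENNReal.ofReal_ne_top (hb n)
  have hFi : Integrable F μ := by
    rw [← lintegral_ofReal_ne_top_iff_integrable hFm.aestronglyMeasurable
      (Eventually.of_forall hF0)]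
    rw [hI]
    exact ENNReal.ofReal_ne_top
  have hWm : ∀ n, AEMeasurable (fun x => Wd (P n x) (H n x)) μ := fun n => aem_Wd (hP n) (hH n)
  have hWm' : AEMeasurable (fun x => Wd (G x) (M x)) μ := aem_Wd hG hM
  have hWi : ∀ n, Integrable (fun x => Wd (P n x) (H n x)) μ := by
    intro n
    refine ((hfi n).const_mul 8).mono' (hWm n).aestronglyMeasurable
      (Eventually.of_forall fun x => ?_)
    rw [Real.norm_of_nonneg (Wd_nonneg _ _)]
    exact Wd_le _ _
  have hWi' : Integrable (fun x => Wd (G x) (M x)) μ := by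
    refine (hFi.const_mul 8).mono' hWm'.aestronglyMeasurable (Eventually.of_forall fun x => ?_)
    rw [Real.norm_of_nonneg (Wd_nonneg _ _)]
    exact Wd_le _ _
  refine ⟨hWi, hWi', ?_⟩
  have hJi : ∀ n, Integrable (fun x => |Wd (P n x) (H n x) - Wd (G x) (M x)|) μ :=
    fun n => ((hWi n).sub hWi').abs
  set J : ℕ → ℝ := fun n => ∫ x, |Wd (P n x) (H n x) - Wd (G x) (M x)| ∂μ with hJ
  set h : ℕ → E3 → ℝ := fun n x => 8 * f n x + 8 * F x
    - |Wd (P n x) (H n x) - Wd (G x) (M x)| with hh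
  have hh0 : ∀ n x, 0 ≤ h n x := by
    intro n x
    have h1 : |Wd (P n x) (H n x) - Wd (G x) (M x)| ≤ Wd (P n x) (H n x) + Wd (G x) (M x) := by
      rw [abs_le]
      have := Wd_nonneg (P n x) (H n x)
      have := Wd_nonneg (G x) (M x)
      constructor <;> linarith
    have h2 : Wd (P n x) (H n x) ≤ 8 * f n x := Wd_le _ _
    have h3 : Wd (G x) (M x) ≤ 8 * F x := Wd_le _ _
    show 0 ≤ 8 * f n x + 8 * F x - |Wd (P n x) (H n x) - Wd (G x) (M x)|
    linarith
  have hhi : ∀ n, Integrable (h n) μ := fun n =>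
    (((hfi n).const_mul 8).add (hFi.const_mul 8)).sub (hJi n)
  have hIf : ∫ x, F x ∂μ = I := by
    have h1 := ofReal_integral_eq_lintegral_ofReal hFi (Eventually.of_forall hF0)
    rw [hI] at h1
    exact (ENNReal.ofReal_eq_ofReal_iff (integral_nonneg hF0) hI0).1 h1
  have hfb : ∀ n : ℕ, ∫ x, f n x ∂μ ≤ I + 1 / ((n : ℝ) + 1) := by
    intro n
    have h1 := ofReal_integral_eq_lintegral_ofReal (hfi n) (Eventually.of_forall (hf0 n))
    have h2 := hb n
    rw [← h1] at h2
    exact (ENNReal.ofReal_le_ofReal_iff (by positivity)).1 h2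
  have hd : ∀ n, ∫ x, h n x ∂μ = 8 * ∫ x, f n x ∂μ + 8 * I - J n := by
    intro n
    have e1 : ∫ x, h n x ∂μ = ∫ x, (8 * f n x + 8 * F x) ∂μ - J n :=
      integral_sub (((hfi n).const_mul 8).add (hFi.const_mul 8)) (hJi n)
    have e2 : ∫ x, (8 * f n x + 8 * F x) ∂μ = ∫ x, 8 * f n x ∂μ + ∫ x, 8 * F x ∂μ :=
      integral_add ((hfi n).const_mul 8) (hFi.const_mul 8)
    rw [e1, e2, integral_const_mul, integral_const_mul, hIf]
  have hfatou : ENNReal.ofReal (16 * I) ≤ liminf (fun n => ENNReal.ofReal (∫ x, h n x ∂μ)) atTop := by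
    have h1 : ∀ n, ENNReal.ofReal (∫ x, h n x ∂μ) = ∫⁻ x, ENNReal.ofReal (h n x) ∂μ :=
      fun n => ofReal_integral_eq_lintegral_ofReal (hhi n) (Eventually.of_forall (hh0 n))
    simp only [h1]
    have h2 : ENNReal.ofReal (16 * I) = ∫⁻ x, ENNReal.ofReal (16 * F x) ∂μ := by
      rw [← ofReal_integral_eq_lintegral_ofReal (hFi.const_mul 16)
        (Eventually.of_forall fun x => mul_nonneg (by norm_num) (hF0 x)), integral_const_mul, hIf]
    rw [h2]
    refine le_trans ?_ (lintegral_liminf_le' fun n => (hhi n).aemeasurable.ennreal_ofReal)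
    apply lintegral_mono_ae
    filter_upwards [h0, hPl, hHl] with x hx hxP hxH
    by_cases hGx : G x = 0
    · have : F x = 0 := by
        rw [hFd]
        simp [hx hGx, msq]
      rw [this]
      simp
    · have hl1 : Tendsto (fun n => f n x) atTop (𝓝 (F x)) := ff_tendsto hGx hxP hxH
      have hl2 : Tendsto (fun n => Wd (P n x) (H n x)) atTop (𝓝 (Wd (G x) (M x))) :=
        Wd_tendsto hGx hxP hxH
      have hl3 : Tendsto (fun n => h n x) atTop
          (𝓝 (8 * F x + 8 * F x - |Wd (G x) (M x) - Wd (G x) (M x)|)) :=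
        ((hl1.const_mul 8).add_const (8 * F x)).sub ((hl2.sub_const (Wd (G x) (M x))).abs)
      rw [sub_self, abs_zero, sub_zero, show 8 * F x + 8 * F x = 16 * F x by ring] at hl3
      exact ((ENNReal.continuous_ofReal.tendsto _).comp hl3).liminf_eq.ge
  have hd0 : ∀ n, 0 ≤ ∫ x, h n x ∂μ := fun n => integral_nonneg (hh0 n)
  have hJ0 : ∀ n, 0 ≤ J n := fun n => integral_nonneg fun x => abs_nonneg _
  rw [tendsto_order]
  constructor
  · intro a ha
    exact Eventually.of_forall fun n => lt_of_lt_of_le ha (hJ0 n)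
  · intro e he
    have h1 : ∀ᶠ n : ℕ in atTop, 8 * (1 / ((n : ℝ) + 1)) < e / 2 := by
      have : Tendsto (fun n : ℕ => 8 * (1 / ((n : ℝ) + 1))) atTop (𝓝 (8 * 0)) :=
        tendsto_one_div_add_atTop_nhds_zero_nat.const_mul 8
      rw [mul_zero] at this
      exact this.eventually_lt_const (by positivity)
    have h2 : ∀ᶠ n : ℕ in atTop, 16 * I - e / 2 < ∫ x, h n x ∂μ := by
      by_cases hc : 16 * I - e / 2 < 0
      · exact Eventually.of_forall fun n => lt_of_lt_of_le hc (hd0 n)
      · push Not at hc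
        have h3 : ENNReal.ofReal (16 * I - e / 2)
            < liminf (fun n => ENNReal.ofReal (∫ x, h n x ∂μ)) atTop := by
          refine lt_of_lt_of_le ?_ hfatou
          rw [ENNReal.ofReal_lt_ofReal_iff (by linarith)]
          linarith
        have h4 := eventually_lt_of_lt_liminf h3
        filter_upwards [h4] with n hn
        exact (ENNReal.ofReal_lt_ofReal_iff_of_nonneg hc).1 hn
    filter_upwards [h1, h2] with n hn1 hn2
    rw [hd n] at hn2
    have := hfb n
    linarith

end meas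

/-- The linear perturbation. -/
noncomputable def pert (u : E3 → ℝ) (a : E3) (x : E3) : ℝ := u x + ∑ j, a j * x j

theorem contDiff_pert {u : E3 → ℝ} (hu : ContDiff ℝ ∞ u) (a : E3) : ContDiff ℝ ∞ (pert u a) := by
  unfold pert
  refine hu.add (ContDiff.sum fun j _ => contDiff_const.mul ?_)
  exact (EuclideanSpace.proj j : E3 →L[ℝ] ℝ).contDiff

theorem pd_pert {u : E3 → ℝ} (hu : ContDiff ℝ ∞ u) (a : E3) (i : Fin 3) :
    pd i (pert u a) = fun x => pd i u x + a i := by
  funext x
  have hd : DifferentiableAt ℝ u x := (hu.differentiable (by simp)) x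
  have hd2 : ∀ j ∈ (Finset.univ : Finset (Fin 3)),
      DifferentiableAt ℝ (fun y : E3 => a j * y j) x := by
    intro j _
    exact (differentiableAt_coord j).const_mul (a j)
  show pd i (fun y => u y + ∑ j, a j * y j) x = _
  rw [pd_add hd (DifferentiableAt.fun_sum hd2), pd_sum _ _ hd2]
  congr 1
  have : ∀ j : Fin 3, pd i (fun y : E3 => a j * y j) x = a j * (if i = j then 1 else 0) := by
    intro j
    rw [pd_const_mul _ (differentiableAt_coord j), pd_coord]
  simp only [this]
  simp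

theorem pd_pd_pert {u : E3 → ℝ} (hu : ContDiff ℝ ∞ u) (a : E3) (i j : Fin 3) (x : E3) :
    pd i (pd j (pert u a)) x = pd i (pd j u) x := by
  rw [pd_pert hu a j]
  have hd : DifferentiableAt ℝ (pd j u) x := ((contDiff_pd hu j).differentiable (by simp)) x
  rw [pd_add hd (differentiableAt_const _), pd_const, add_zero]

theorem grad_pert {u : E3 → ℝ} (hu : ContDiff ℝ ∞ u) (a : E3) (x : E3) :
    grad (pert u a) x = fun i => grad u x i + a i := by
  funext i
  unfold grad
  rw [pd_pert hu a i]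

theorem hess2_pert {u : E3 → ℝ} (hu : ContDiff ℝ ∞ u) (a : E3) (x : E3) :
    hess2 (pert u a) x = hess2 u x := by
  ext i j
  unfold hess2
  rw [Matrix.of_apply, Matrix.of_apply, pd_pd_pert hu]

theorem lin_bound (a x : E3) : |∑ j, a j * x j| ≤ 3 * (‖a‖ * ‖x‖) := by
  have h1 : ∀ (y : E3) (j : Fin 3), |y j| ≤ ‖y‖ := fun y j => by
    have := PiLp.norm_apply_le y j
    rwa [Real.norm_eq_abs] at this
  calc |∑ j, a j * x j| ≤ ∑ j, |a j * x j| := Finset.abs_sum_le_sum_abs _ _
    _ ≤ ∑ _j : Fin 3, ‖a‖ * ‖x‖ := by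
        refine Finset.sum_le_sum fun j _ => ?_
        rw [abs_mul]
        exact mul_le_mul (h1 a j) (h1 x j) (abs_nonneg _) (norm_nonneg _)
    _ = 3 * (‖a‖ * ‖x‖) := by simp

end Pool.Agent.PFlow.MAPW

namespace Pool.Agent.PFlow

open Pool.Agent.PenroseSph MAPW

theorem APW (hKER : Stmt_KER) (hMO : Stmt_MO) : Stmt_APW := by
  intro U w G M _ hs h0 hint K hK hKU
  obtain ⟨C, hC, hker⟩ := ker_bound hKER
  have hGm : ∀ i, AEStronglyMeasurable (fun x => G x i) (volume.restrict K) := fun i =>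
    (hs.memG K hK hKU i).1
  have hMm : ∀ i j, AEStronglyMeasurable (fun x => M x i j) (volume.restrict K) := fun i j =>
    (hs.memM K hK hKU i j).1
  obtain ⟨v, hvs, hvu, hv4, hv2⟩ := hs.approx K hK hKU
  -- a subsequence converging almost everywhere
  let f : Fin 3 ⊕ (Fin 3 × Fin 3) → ℕ → E3 → ℝ :=
    Sum.elim (fun i n x => pd i (v n) x) (fun q n x => pd q.1 (pd q.2 (v n)) x)
  let g : Fin 3 ⊕ (Fin 3 × Fin 3) → E3 → ℝ :=
    Sum.elim (fun i x => G x i) (fun q x => M x q.1 q.2)
  have hfg : ∀ i, TendstoInMeasure (volume.restrict K) (f i) atTop (g i) := by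
    rintro (i | ⟨i, j⟩)
    · exact tim_of_lp (by norm_num) (fun n => (continuous_pd (hvs n) i).aestronglyMeasurable)
        (hGm i) (hv4 i)
    · exact tim_of_lp (by norm_num)
        (fun n => (continuous_pd (contDiff_pd (hvs n) j) i).aestronglyMeasurable)
        (hMm i j) (hv2 i j)
  obtain ⟨ns, hns, hae⟩ := subseq_ae Finset.univ f g hfg
  have haeG : ∀ᵐ x ∂(volume.restrict K), Tendsto (fun k => grad (v (ns k)) x) atTop (𝓝 (G x)) := by
    have h1 : ∀ᵐ x ∂(volume.restrict K), ∀ i : Fin 3,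
        Tendsto (fun k => pd i (v (ns k)) x) atTop (𝓝 (G x i)) :=
      ae_all_iff.2 fun i => hae (Sum.inl i) (Finset.mem_univ _)
    filter_upwards [h1] with x hx
    exact tendsto_pi_nhds.2 hx
  have haeM : ∀ᵐ x ∂(volume.restrict K),
      Tendsto (fun k => hess2 (v (ns k)) x) atTop (𝓝 (M x)) := by
    have h1 : ∀ᵐ x ∂(volume.restrict K), ∀ q : Fin 3 × Fin 3,
        Tendsto (fun k => pd q.1 (pd q.2 (v (ns k))) x) atTop (𝓝 (M x q.1 q.2)) :=
      ae_all_iff.2 fun q => hae (Sum.inr q) (Finset.mem_univ _)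
    filter_upwards [h1] with x hx
    exact tendsto_pi_nhds.2 fun i => tendsto_pi_nhds.2 fun j => hx (i, j)
  have hL2 : Tendsto (fun k => ∫⁻ x in K, ENNReal.ofReal (msq (hess2 (v (ns k)) x - M x)))
      atTop (𝓝 0) := by
    have h1 : ∀ k, ∫⁻ x in K, ENNReal.ofReal (msq (hess2 (v (ns k)) x - M x))
        = ∑ i, ∑ j, eLpNorm (fun x => pd i (pd j (v (ns k))) x - M x i j) 2
          (volume.restrict K) ^ 2 := by
      intro k
      exact lint_msq (fun x => hess2 (v (ns k)) x - M x) (fun i j =>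
        (continuous_pd (contDiff_pd (hvs (ns k)) j) i).aestronglyMeasurable.sub (hMm i j))
    simp only [h1]
    have h2 : ∀ i j : Fin 3, Tendsto (fun k => eLpNorm (fun x => pd i (pd j (v (ns k))) x - M x i j)
        2 (volume.restrict K) ^ 2) atTop (𝓝 0) := by
      intro i j
      have := ENNReal.Tendsto.pow (n := 2) ((hv2 i j).comp hns.tendsto_atTop)
      simpa using this
    have h3 : Tendsto (fun k => ∑ i, ∑ j, eLpNorm (fun x => pd i (pd j (v (ns k))) x - M x i j) 2
          (volume.restrict K) ^ 2) atTop (𝓝 (∑ _i : Fin 3, ∑ _j : Fin 3, (0 : ℝ≥0∞))) :=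
      tendsto_finsetSum _ fun i _ => tendsto_finsetSum _ fun j _ => h2 i j
    simpa using h3
  have hMfin : ∫⁻ x in K, ENNReal.ofReal (msq (M x)) ≠ ⊤ := by
    rw [lint_msq M hMm]
    refine ENNReal.sum_ne_top.2 fun i _ => ENNReal.sum_ne_top.2 fun j _ => ?_
    exact ENNReal.pow_ne_top (hs.memM K hK hKU i j).2.ne
  have h0K : ∀ᵐ x ∂(volume.restrict K), G x = 0 → M x = 0 :=
    ae_restrict_of_ae_restrict_of_subset hKU h0
  have hFi := hint K hK hKU
  have hF0 : ∀ x, 0 ≤ msq (M x) / vn (G x) := fun x => div_nonneg (msq_nonneg _) (vn_nonneg _)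
  set I : ℝ := ∫ x in K, msq (M x) / vn (G x) with hIdef
  have hI0 : 0 ≤ I := integral_nonneg hF0
  have hI : ∫⁻ x in K, ENNReal.ofReal (msq (M x) / vn (G x)) = ENNReal.ofReal I :=
    (ofReal_integral_eq_lintegral_ofReal hFi (Eventually.of_forall hF0)).symm
  have hGa : AEMeasurable G (volume.restrict K) :=
    aemeasurable_pi_lambda _ fun i => (hGm i).aemeasurable
  have hMa : AEMeasurable (fun x => msq (M x)) (volume.restrict K) :=
    aem_msq fun i j => (hMm i j).aemeasurable
  have hst := fun k : ℕ => step1 hMO hC hker hK hGa hMa hMfin h0K hI0 hI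
    (v := fun k => v (ns k)) (fun k => hvs (ns k)) haeG hL2
    (e := 1 / ((k : ℝ) + 1)) (by positivity) k
  choose n hn a ha hfin hle using hst
  have hnt : Tendsto n atTop atTop := tendsto_atTop_mono hn tendsto_id
  have hat : Tendsto (fun k => ‖a k‖) atTop (𝓝 0) :=
    squeeze_zero (fun k => norm_nonneg _) (fun k => (ha k).le)
      tendsto_one_div_add_atTop_nhds_zero_nat
  have ha0 : Tendsto a atTop (𝓝 0) := tendsto_zero_iff_norm_tendsto_zero.2 hat
  refine ⟨fun k => pert (v (ns (n k))) (a k), fun k => contDiff_pert (hvs _) _, ?_, ?_, ?_⟩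
  · -- uniform convergence
    obtain ⟨R, hR⟩ := hK.isBounded.subset_closedBall (0 : E3)
    rw [Metric.tendstoUniformlyOn_iff] at hvu ⊢
    intro e he
    have h1 := (hns.tendsto_atTop.comp hnt).eventually (hvu (e / 2) (by positivity))
    have h2 : Tendsto (fun k => 3 * (‖a k‖ * |R|)) atTop (𝓝 (3 * (0 * |R|))) :=
      (hat.mul_const |R|).const_mul 3
    rw [zero_mul, mul_zero] at h2
    filter_upwards [h1, h2.eventually_lt_const (show (0 : ℝ) < e / 2 by positivity)]
      with k hk1 hk2 x hx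
    have h3 := hk1 x hx
    have h4 : ‖x‖ ≤ |R| := by
      have := hR hx
      rw [Metric.mem_closedBall, dist_zero_right] at this
      exact this.trans (le_abs_self R)
    have h5 := lin_bound (a k) x
    have h6 : 3 * (‖a k‖ * ‖x‖) ≤ 3 * (‖a k‖ * |R|) := by gcongr
    rw [Real.dist_eq] at h3 ⊢
    unfold pert
    calc |w x - (v (ns (n k)) x + ∑ j, a k j * x j)|
        = |(w x - v (ns (n k)) x) - ∑ j, a k j * x j| := by ring_nf
      _ ≤ |w x - v (ns (n k)) x| + |∑ j, a k j * x j| := abs_sub _ _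
      _ < e := by
          have h3' : |w x - v (ns (n k)) x| < e / 2 := h3
          linarith
  · -- critical points
    intro k
    refine (hfin k).subset ?_
    rintro x ⟨hx1, hx2⟩
    refine ⟨hx1, fun i => ?_⟩
    have := congrFun hx2 i
    rw [grad_pert (hvs _)] at this
    exact this
  · have key := step2 (μ := volume.restrict K) (G := G) (M := M)
      (P := fun k => grad (pert (v (ns (n k))) (a k)))
      (H := fun k => hess2 (pert (v (ns (n k))) (a k)))
      (fun i => (hGm i).aemeasurable) (fun i j => (hMm i j).aemeasurable)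
      (fun k i => (continuous_pd (contDiff_pert (hvs _) _) i).aemeasurable)
      (fun k i j => (continuous_pd (contDiff_pd (contDiff_pert (hvs _) _) j) i).aemeasurable)
      h0K ?_ ?_ hI0 hI ?_
    · exact key
    · filter_upwards [haeG] with x hx
      simp only [grad_pert (hvs _)]
      refine tendsto_pi_nhds.2 fun i => ?_
      have h1 := (tendsto_pi_nhds.1 (hx.comp hnt)) i
      have h2 : Tendsto (fun k => a k i) atTop (𝓝 0) :=
        ((EuclideanSpace.proj i : E3 →L[ℝ] ℝ).continuous.tendsto 0).comp ha0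
      have h3 := h1.add h2
      rw [add_zero] at h3
      exact h3
    · filter_upwards [haeM] with x hx
      simp only [hess2_pert (hvs _)]
      exact hx.comp hnt
    · intro k
      simp only [hess2_pert (hvs _), grad_pert (hvs _)]
      exact hle k

end Pool.Agent.PFlow
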