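import Pool.Agent.PFlow.StmtsM

open MeasureTheory Filter Topology
open scoped ContDiff

namespace Pool.Agent.PFlow

open Pool.Agent.PenroseSph

namespace MAV

/-- A covector as a point of the Euclidean space. -/
noncomputable def tE (p : Cov) : E3 := WithLp.toLp 2 p

theorem tE_apply (p : Cov) (i : Fin 3) : tE p i = p i := rfl

theorem vn_eq (p : Cov) : vn p = ‖tE p‖ := by
  unfold vn vsq
  rw [EuclideanSpace.norm_eq]
  congr 1
  refine Finset.sum_congr rfl fun i _ => ?_
  rw [Real.norm_eq_abs, sq_abs, tE_apply]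

theorem tE_add (p q : Cov) : tE (p + q) = tE p + tE q := rfl

theorem tE_sub (p q : Cov) : tE (p - q) = tE p - tE q := rfl

theorem vn_nonneg (p : Cov) : 0 ≤ vn p := by
  rw [vn_eq]
  exact norm_nonneg _

theorem vn_add_le (p q : Cov) : vn (p + q) ≤ vn p + vn q := by
  rw [vn_eq, vn_eq, vn_eq, tE_add]
  exact norm_add_le _ _

theorem vn_pos {p : Cov} (hp : p ≠ 0) : 0 < vn p := by
  rw [vn_eq, norm_pos_iff]
  intro h
  apply hp
  funext i
  have := congrArg (fun z : E3 => z i) h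
  exact this

theorem vn_zero : vn 0 = 0 := by
  rw [vn_eq]
  show ‖(0 : E3)‖ = 0
  exact norm_zero

theorem vn_coe (a : E3) : vn (fun i => a i) = ‖a‖ := by
  rw [vn_eq]
  rfl

theorem msq_nonneg (M : Bil) : 0 ≤ msq M :=
  Finset.sum_nonneg fun _ _ => Finset.sum_nonneg fun _ _ => sq_nonneg _

theorem ineq2 {r L Γ E m X : ℝ} (hr : 0 < r) (hL : 0 ≤ L) (hΓ : 0 ≤ Γ) (hE : 0 ≤ E)
    (hm : 0 ≤ m) (hm0 : Γ = 0 → m = 0) (hX : r ≤ X) (hX2 : Γ - E ≤ X) :
    (min 1 ((E + r) / Γ)) ^ 2 * m / X ≤ 1 / r * (max (m - L) 0 + L * (E ^ 4 / r ^ 4))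
      + 4 * ((min 1 (4 * r / Γ)) ^ 2 * (m / Γ)) := by
  have hX0 : 0 < X := lt_of_lt_of_le hr hX
  have hA : 0 ≤ 1 / r * (max (m - L) 0 + L * (E ^ 4 / r ^ 4)) := by positivity
  have hB : 0 ≤ 4 * ((min 1 (4 * r / Γ)) ^ 2 * (m / Γ)) := by positivity
  have hmin0 : 0 ≤ min 1 ((E + r) / Γ) := le_min zero_le_one (by positivity)
  have hmin : (min 1 ((E + r) / Γ)) ^ 2 ≤ 1 := pow_le_one₀ hmin0 (min_le_left _ _)
  rcases eq_or_lt_of_le hΓ with h0 | hΓ0
  · rw [hm0 h0.symm, mul_zero, zero_div]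
    positivity
  rcases lt_or_ge r E with hEr | hEr
  · -- `E` large
    refine le_trans ?_ (le_add_of_nonneg_right hB)
    have h1 : (min 1 ((E + r) / Γ)) ^ 2 * m / X ≤ m / r := by
      rw [div_le_div_iff₀ hX0 hr]
      have : (min 1 ((E + r) / Γ)) ^ 2 * m ≤ m := by nlinarith
      nlinarith
    refine h1.trans ?_
    rw [div_eq_mul_inv, mul_comm, ← one_div]
    refine mul_le_mul_of_nonneg_left ?_ (by positivity)
    have h2 : 1 ≤ E ^ 4 / r ^ 4 := by
      rw [one_le_div (by positivity)]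
      exact pow_le_pow_left₀ hr.le hEr.le 4
    have h3 : m - L ≤ max (m - L) 0 := le_max_left _ _
    nlinarith
  · refine le_trans ?_ (le_add_of_nonneg_left hA)
    rcases le_or_gt (4 * r) Γ with hΓr | hΓr
    · -- `Γ` large
      have h1 : min 1 (4 * r / Γ) = 4 * r / Γ := min_eq_right (by rw [div_le_one hΓ0]; exact hΓr)
      rw [h1]
      have h2 : (min 1 ((E + r) / Γ)) ^ 2 ≤ (2 * r / Γ) ^ 2 := by
        refine pow_le_pow_left₀ hmin0 ((min_le_right _ _).trans ?_) 2
        rw [div_le_div_iff_of_pos_right hΓ0]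
        linarith
      have h3 : Γ / 2 ≤ X := by linarith
      calc (min 1 ((E + r) / Γ)) ^ 2 * m / X ≤ (2 * r / Γ) ^ 2 * m / (Γ / 2) := by
            refine div_le_div₀ (by positivity) ?_ (by positivity) h3
            exact mul_le_mul_of_nonneg_right h2 hm
        _ ≤ 4 * ((4 * r / Γ) ^ 2 * (m / Γ)) := by
            have : 0 ≤ (r / Γ) ^ 2 * (m / Γ) := by positivity
            have e1 : (2 * r / Γ) ^ 2 * m / (Γ / 2) = 8 * ((r / Γ) ^ 2 * (m / Γ)) := by
              field_simp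
              ring
            have e2 : 4 * ((4 * r / Γ) ^ 2 * (m / Γ)) = 64 * ((r / Γ) ^ 2 * (m / Γ)) := by
              field_simp
              ring
            rw [e1, e2]
            linarith
    · have h1 : min 1 (4 * r / Γ) = 1 := min_eq_left (by rw [le_div_iff₀ hΓ0]; linarith)
      rw [h1, one_pow, one_mul]
      have h2 : (min 1 ((E + r) / Γ)) ^ 2 * m ≤ m := by nlinarith
      calc (min 1 ((E + r) / Γ)) ^ 2 * m / X ≤ m / (Γ / 4) := by
            refine div_le_div₀ hm h2 (by positivity) (by linarith)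
        _ = 4 * (m / Γ) := by
            field_simp

theorem ineq3 {r Γ E X : ℝ} (hr : 0 < r) (hr1 : r ≤ 1) (hΓ : 0 ≤ Γ) (hE : 0 ≤ E) (hX : r ≤ X) :
    (E + r) ^ 2 * (1 + 2 * Γ + E + r) ^ 2 / X ≤ 144 * r * (1 + Γ ^ 4) + 36 * (E ^ 4 / r ^ 3) := by
  have hX0 : 0 < X := lt_of_lt_of_le hr hX
  have h1 : (E + r) ^ 2 ≤ 2 * (r ^ 2 + E ^ 2) := by nlinarith [sq_nonneg (E - r)]
  have h2 : (1 + 2 * Γ + E + r) ^ 2 ≤ 12 * (1 + Γ ^ 2 + E ^ 2) := by
    have h3 : (1 + 2 * Γ + E + r) ^ 2 ≤ (2 + 2 * Γ + E) ^ 2 :=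
      pow_le_pow_left₀ (by positivity) (by linarith) 2
    nlinarith [sq_nonneg (2 - 2 * Γ), sq_nonneg (2 - E), sq_nonneg (2 * Γ - E)]
  have h3 : (E + r) ^ 2 * (1 + 2 * Γ + E + r) ^ 2
      ≤ 24 * ((r ^ 2 + E ^ 2) * (1 + Γ ^ 2 + E ^ 2)) := by
    calc (E + r) ^ 2 * (1 + 2 * Γ + E + r) ^ 2
        ≤ (2 * (r ^ 2 + E ^ 2)) * (12 * (1 + Γ ^ 2 + E ^ 2)) :=
          mul_le_mul h1 h2 (by positivity) (by positivity)
      _ = _ := by ring
  have h4 : (r ^ 2 + E ^ 2) * (1 + Γ ^ 2 + E ^ 2)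
      ≤ 6 * r ^ 2 * (1 + Γ ^ 4) + 3 / 2 * (E ^ 4 / r ^ 2) := by
    have hr2 : r ^ 2 ≤ 1 := pow_le_one₀ hr.le hr1
    have a1 : E ^ 2 * (2 + Γ ^ 2) ≤ r ^ 2 * (2 + Γ ^ 2) ^ 2 / 2 + E ^ 4 / r ^ 2 / 2 := by
      have e1 : E ^ 2 * (2 + Γ ^ 2) = (r * (2 + Γ ^ 2)) * (E ^ 2 / r) := by
        field_simp
      have e2 : E ^ 4 / r ^ 2 = (E ^ 2 / r) ^ 2 := by
        rw [div_pow]
        ring
      rw [e1, e2]
      nlinarith [sq_nonneg (r * (2 + Γ ^ 2) - E ^ 2 / r)]
    have a2 : E ^ 4 ≤ E ^ 4 / r ^ 2 := by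
      rw [le_div_iff₀ (by positivity)]
      have : 0 ≤ E ^ 4 := by positivity
      nlinarith
    have a3 : r ^ 2 * E ^ 2 ≤ E ^ 2 := by nlinarith [sq_nonneg E]
    have a4 : r ^ 2 * (1 + Γ ^ 2) ≤ r ^ 2 * (2 * (1 + Γ ^ 4)) := by
      refine mul_le_mul_of_nonneg_left ?_ (by positivity)
      nlinarith [sq_nonneg (Γ ^ 2 - 1), sq_nonneg (Γ ^ 2)]
    have a5 : r ^ 2 * (2 + Γ ^ 2) ^ 2 / 2 ≤ r ^ 2 * (4 * (1 + Γ ^ 4)) := by
      rw [mul_div_assoc]
      refine mul_le_mul_of_nonneg_left ?_ (by positivity)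
      nlinarith [sq_nonneg (Γ ^ 2 - 2), sq_nonneg (Γ ^ 2)]
    nlinarith
  calc (E + r) ^ 2 * (1 + 2 * Γ + E + r) ^ 2 / X
      ≤ 24 * ((r ^ 2 + E ^ 2) * (1 + Γ ^ 2 + E ^ 2)) / r :=
        div_le_div₀ (by positivity) h3 hr hX
    _ ≤ 24 * (6 * r ^ 2 * (1 + Γ ^ 4) + 3 / 2 * (E ^ 4 / r ^ 2)) / r := by
        rw [div_le_div_iff_of_pos_right hr]
        linarith
    _ = 144 * r * (1 + Γ ^ 4) + 36 * (E ^ 4 / r ^ 3) := by
        field_simp
        ring


/-- The bound of the squared residual, without the factor `1 / |p'|`. -/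
noncomputable def QQ (C r : ℝ) (q : Cov) (H : Bil) (G : Cov) (M : Bil) : ℝ :=
  2 * C ^ 2 * msq (H - M) + 4 * C ^ 2 * ((min 1 ((vn (q - G) + r) / vn G)) ^ 2 * msq M)
    + 4 * C ^ 2 * ((vn (q - G) + r) ^ 2 * (1 + 2 * vn G + vn (q - G) + r) ^ 2)

theorem QQ_nonneg (C r : ℝ) (q : Cov) (H : Bil) (G : Cov) (M : Bil) : 0 ≤ QQ C r q H G M := by
  unfold QQ
  have := msq_nonneg (H - M)
  have := msq_nonneg M
  positivity

/-- the residual at one point -/
theorem resid_bound {ε C r : ℝ} {g h : TensorField} {x : E3} (hC : 1 ≤ C) (hr : 0 < r)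
    (h1 : ∀ (p p' : Cov) (M : Bil), p ≠ 0 → p' ≠ 0 →
      |resid ε g h x p' M - resid ε g h x p M|
        ≤ C * (min 1 (vn (p' - p) / vn p) * Real.sqrt (msq M)
          + vn (p' - p) * (1 + vn p + vn p')))
    (h2 : ∀ (p : Cov) (M M' : Bil),
      |resid ε g h x p M - resid ε g h x p M'| ≤ C * Real.sqrt (msq (M - M')))
    (h3 : ∀ (p : Cov) (M : Bil),
      |resid ε g h x p M| ≤ C * (Real.sqrt (msq M) + vn p * (1 + vn p)))
    {G : Cov} {M : Bil} (hG : G ≠ 0 → resid ε g h x G M = 0) (hG0 : G = 0 → M = 0)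
    (q : Cov) (H : Bil) (a : Cov) (ha : vn a ≤ r) (hp : q + a ≠ 0) :
    resid ε g h x (q + a) H ^ 2 ≤ QQ C r q H G M := by
  have hC0 : 0 < C := lt_of_lt_of_le one_pos hC
  set E := vn (q - G) with hE
  have hE0 : 0 ≤ E := vn_nonneg _
  have hΓ0 : 0 ≤ vn G := vn_nonneg _
  have hd : vn (q + a - G) ≤ E + r := by
    have : q + a - G = (q - G) + a := by abel
    rw [this]
    exact (vn_add_le _ _).trans (by linarith)
  have hp' : vn (q + a) ≤ vn G + E + r := by
    have : q + a = G + (q + a - G) := by abel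
    rw [this]
    exact (vn_add_le _ _).trans (by linarith)
  have hd0 : 0 ≤ vn (q + a - G) := vn_nonneg _
  have hsq : 0 ≤ Real.sqrt (msq M) := Real.sqrt_nonneg _
  -- the second difference
  have key : |resid ε g h x (q + a) M| ≤ C * (min 1 ((E + r) / vn G) * Real.sqrt (msq M)
      + (E + r) * (1 + 2 * vn G + E + r)) := by
    by_cases hz : G = 0
    · have hM := hG0 hz
      have hv : vn G = 0 := by rw [hz]; exact vn_zero
      have hm : msq M = 0 := by
        rw [hM]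
        simp [msq]
      rw [hm, Real.sqrt_zero, mul_zero, zero_add, hv]
      refine (h3 _ _).trans ?_
      rw [hm, Real.sqrt_zero, zero_add]
      refine mul_le_mul_of_nonneg_left ?_ hC0.le
      rw [hv] at hp'
      have h5 : 0 ≤ vn (q + a) := vn_nonneg _
      refine mul_le_mul (by linarith) (by linarith) (by linarith) (by linarith)
    · have h4 := h1 G (q + a) M hz hp
      rw [hG hz, sub_zero] at h4
      refine h4.trans ?_
      refine mul_le_mul_of_nonneg_left ?_ hC0.le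
      have hv : 0 < vn G := vn_pos hz
      refine add_le_add ?_ ?_
      · refine mul_le_mul_of_nonneg_right ?_ hsq
        exact min_le_min le_rfl ((div_le_div_iff_of_pos_right hv).mpr hd)
      · have h5 : 0 ≤ vn (q + a) := vn_nonneg _
        refine mul_le_mul hd (by linarith) (by linarith) (by linarith)
  have hfirst := h2 (q + a) H M
  set u := resid ε g h x (q + a) H with hu
  set v := resid ε g h x (q + a) M with hv
  set A := min 1 ((E + r) / vn G) with hA
  set B := (E + r) * (1 + 2 * vn G + E + r) with hB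
  have hA0 : 0 ≤ A := le_min zero_le_one (by positivity)
  have hB0 : 0 ≤ B := by positivity
  have hw : u ^ 2 ≤ 2 * (u - v) ^ 2 + 2 * v ^ 2 := by nlinarith [sq_nonneg (u - 2 * v)]
  have hw1 : (u - v) ^ 2 ≤ C ^ 2 * msq (H - M) := by
    have : (u - v) ^ 2 ≤ (C * Real.sqrt (msq (H - M))) ^ 2 := by
      rw [← sq_abs (u - v)]
      exact pow_le_pow_left₀ (abs_nonneg _) hfirst 2
    rwa [mul_pow, Real.sq_sqrt (msq_nonneg _)] at this
  have hw2 : v ^ 2 ≤ C ^ 2 * (2 * (A ^ 2 * msq M) + 2 * B ^ 2) := by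
    have h6 : v ^ 2 ≤ (C * (A * Real.sqrt (msq M) + B)) ^ 2 := by
      rw [← sq_abs v]
      exact pow_le_pow_left₀ (abs_nonneg _) key 2
    have h7 : (A * Real.sqrt (msq M) + B) ^ 2 ≤ 2 * (A ^ 2 * msq M) + 2 * B ^ 2 := by
      have h8 : (A * Real.sqrt (msq M)) ^ 2 = A ^ 2 * msq M := by
        rw [mul_pow, Real.sq_sqrt (msq_nonneg _)]
      nlinarith [sq_nonneg (A * Real.sqrt (msq M) - B)]
    rw [mul_pow] at h6
    exact h6.trans (mul_le_mul_of_nonneg_left h7 (by positivity))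
  have hB2 : B ^ 2 = (E + r) ^ 2 * (1 + 2 * vn G + E + r) ^ 2 := by
    rw [hB, mul_pow]
  unfold QQ
  rw [← hE, ← hA, ← hB2]
  nlinarith

/-- the pointwise bound of `Q / max r |q|` -/
theorem QQ_bound {C r L : ℝ} {q : Cov} {H : Bil} {G : Cov} {M : Bil} (hr : 0 < r) (hr1 : r ≤ 1)
    (hL : 0 ≤ L) (hG0 : G = 0 → M = 0) :
    QQ C r q H G M / max r (vn q) ≤ 2 * C ^ 2 / r * msq (H - M)
      + 4 * C ^ 2 / r * max (msq M - L) 0
      + 16 * C ^ 2 * ((min 1 (4 * r / vn G)) ^ 2 * (msq M / vn G))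
      + 576 * C ^ 2 * r * (1 + vn G ^ 4)
      + (4 * C ^ 2 * L / r ^ 5 + 144 * C ^ 2 / r ^ 3) * vn (q - G) ^ 4 := by
  set X := max r (vn q) with hX
  have hXr : r ≤ X := le_max_left _ _
  have hX0 : 0 < X := lt_of_lt_of_le hr hXr
  set E := vn (q - G) with hE
  have hE0 : 0 ≤ E := vn_nonneg _
  have hΓ0 : 0 ≤ vn G := vn_nonneg _
  have hX2 : vn G - E ≤ X := by
    have h1 : vn G ≤ vn q + E := by
      have : G = q + (-(q - G)) := by abel
      have h2 : vn (-(q - G)) = vn (q - G) := by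
        rw [vn_eq, vn_eq]
        exact norm_neg (tE (q - G))
      calc vn G = vn (q + (-(q - G))) := by rw [← this]
        _ ≤ vn q + vn (-(q - G)) := vn_add_le _ _
        _ = vn q + E := by rw [h2]
    have h2 : vn q ≤ X := le_max_right _ _
    linarith
  have i2 := ineq2 (r := r) (L := L) (Γ := vn G) (E := E) (m := msq M) (X := X) hr hL hΓ0 hE0
    (msq_nonneg M) (fun h0 => by
      have : G = 0 := by
        by_contra h
        exact absurd h0 (vn_pos h).ne'
      rw [hG0 this]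
      simp [msq]) hXr hX2
  have i3 := ineq3 (r := r) (Γ := vn G) (E := E) (X := X) hr hr1 hΓ0 hE0 hXr
  have i1 : msq (H - M) / X ≤ msq (H - M) / r :=
    div_le_div_of_nonneg_left (msq_nonneg _) hr hXr
  have e0 : QQ C r q H G M / X = 2 * C ^ 2 * (msq (H - M) / X)
      + 4 * C ^ 2 * ((min 1 ((E + r) / vn G)) ^ 2 * msq M / X)
      + 4 * C ^ 2 * ((E + r) ^ 2 * (1 + 2 * vn G + E + r) ^ 2 / X) := by
    unfold QQ
    rw [← hE]
    ring
  have e1 : 2 * C ^ 2 / r * msq (H - M)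
      + 4 * C ^ 2 / r * max (msq M - L) 0
      + 16 * C ^ 2 * ((min 1 (4 * r / vn G)) ^ 2 * (msq M / vn G))
      + 576 * C ^ 2 * r * (1 + vn G ^ 4)
      + (4 * C ^ 2 * L / r ^ 5 + 144 * C ^ 2 / r ^ 3) * E ^ 4
      = 2 * C ^ 2 * (msq (H - M) / r)
      + 4 * C ^ 2 * (1 / r * (max (msq M - L) 0 + L * (E ^ 4 / r ^ 4))
        + 4 * ((min 1 (4 * r / vn G)) ^ 2 * (msq M / vn G)))
      + 4 * C ^ 2 * (144 * r * (1 + vn G ^ 4) + 36 * (E ^ 4 / r ^ 3)) := by
    generalize min 1 (4 * r / vn G) = t1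
    generalize msq M / vn G = t2
    generalize max (msq M - L) 0 = t3
    field_simp
    ring
  rw [e0, e1]
  have hC2 : 0 ≤ C ^ 2 := sq_nonneg C
  refine add_le_add (add_le_add ?_ ?_) ?_
  · exact mul_le_mul_of_nonneg_left i1 (by positivity)
  · exact mul_le_mul_of_nonneg_left i2 (by positivity)
  · exact mul_le_mul_of_nonneg_left i3 (by positivity)

/-! ### Integrals -/

variable {μ : Measure E3}

theorem lint_sq {f : E3 → ℝ} :
    ∫⁻ x, ENNReal.ofReal (f x ^ 2) ∂μ = eLpNorm f 2 μ ^ 2 := by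
  have h := eLpNorm_nnreal_pow_eq_lintegral (f := f) (μ := μ) (p := 2) (by norm_num)
  have e1 : ((2 : NNReal) : ENNReal) = 2 := rfl
  have e2 : ((2 : NNReal) : ℝ) = ((2 : ℕ) : ℝ) := by norm_num
  rw [e1, e2, ENNReal.rpow_natCast] at h
  rw [h]
  refine lintegral_congr fun x => ?_
  rw [ENNReal.rpow_natCast, Real.enorm_eq_ofReal_abs, ← ENNReal.ofReal_pow (abs_nonneg _), sq_abs]

theorem lint_four {f : E3 → ℝ} :
    ∫⁻ x, ENNReal.ofReal (f x ^ 4) ∂μ = eLpNorm f 4 μ ^ 4 := by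
  have h := eLpNorm_nnreal_pow_eq_lintegral (f := f) (μ := μ) (p := 4) (by norm_num)
  have e1 : ((4 : NNReal) : ENNReal) = 4 := rfl
  have e2 : ((4 : NNReal) : ℝ) = ((4 : ℕ) : ℝ) := by norm_num
  rw [e1, e2, ENNReal.rpow_natCast] at h
  rw [h]
  refine lintegral_congr fun x => ?_
  rw [ENNReal.rpow_natCast, Real.enorm_eq_ofReal_abs, ← ENNReal.ofReal_pow (abs_nonneg _)]
  congr 1
  exact (Even.pow_abs (by decide) _).symm

theorem vn_four (p : Cov) : vn p ^ 4 ≤ 3 * ∑ i, p i ^ 4 := by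
  have h1 : vn p ^ 2 = ∑ i, p i ^ 2 := by
    unfold vn vsq
    exact Real.sq_sqrt (Finset.sum_nonneg fun _ _ => sq_nonneg _)
  have h2 : vn p ^ 4 = (∑ i, p i ^ 2) ^ 2 := by
    rw [← h1]
    ring
  rw [h2]
  simp only [Fin.sum_univ_three]
  nlinarith [sq_nonneg (p 0 ^ 2 - p 1 ^ 2), sq_nonneg (p 1 ^ 2 - p 2 ^ 2),
    sq_nonneg (p 0 ^ 2 - p 2 ^ 2)]

/-- the components of `F` are measurable -/
def MC (μ : Measure E3) (F : E3 → Cov) : Prop := ∀ i, AEMeasurable (fun x => F x i) μ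

/-- the entries of `F` are measurable -/
def MB (μ : Measure E3) (F : E3 → Bil) : Prop := ∀ i j, AEMeasurable (fun x => F x i j) μ

theorem MC.vn {F : E3 → Cov} (h : MC μ F) : AEMeasurable (fun x => vn (F x)) μ := by
  unfold PFlow.vn vsq
  refine Real.continuous_sqrt.measurable.comp_aemeasurable ?_
  exact Finset.aemeasurable_fun_sum _ fun i _ => (h i).pow_const 2

theorem MB.msq {F : E3 → Bil} (h : MB μ F) : AEMeasurable (fun x => msq (F x)) μ := by
  unfold PFlow.msq
  exact Finset.aemeasurable_fun_sum _ fun i _ => Finset.aemeasurable_fun_sum _ fun j _ =>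
    (h i j).pow_const 2

theorem MC.sub {F F' : E3 → Cov} (h : MC μ F) (h' : MC μ F') : MC μ (fun x => F x - F' x) :=
  fun i => (h i).sub (h' i)

theorem MB.sub {F F' : E3 → Bil} (h : MB μ F) (h' : MB μ F') : MB μ (fun x => F x - F' x) :=
  fun i j => (h i j).sub (h' i j)

/-- convergence of the second derivatives -/
theorem tendsto_msq {H : ℕ → E3 → Bil} {M : E3 → Bil} (hH : ∀ n, MB μ (H n)) (hM : MB μ M)
    (h : ∀ i j, Tendsto (fun n => eLpNorm (fun x => H n x i j - M x i j) 2 μ) atTop (𝓝 0)) :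
    Tendsto (fun n => ∫⁻ x, ENNReal.ofReal (msq (H n x - M x)) ∂μ) atTop (𝓝 0) := by
  have e : ∀ n, ∫⁻ x, ENNReal.ofReal (msq (H n x - M x)) ∂μ
      = ∑ i : Fin 3, ∑ j : Fin 3, eLpNorm (fun x => H n x i j - M x i j) 2 μ ^ 2 := by
    intro n
    have m1 : ∀ i j, AEMeasurable (fun x => ENNReal.ofReal ((H n x i j - M x i j) ^ 2)) μ :=
      fun i j => ((((hH n).sub hM) i j).pow_const 2).ennreal_ofReal
    calc ∫⁻ x, ENNReal.ofReal (msq (H n x - M x)) ∂μ
        = ∫⁻ x, ∑ i : Fin 3, ∑ j : Fin 3, ENNReal.ofReal ((H n x i j - M x i j) ^ 2) ∂μ := by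
          refine lintegral_congr fun x => ?_
          have e2 : msq (H n x - M x) = ∑ i : Fin 3, ∑ j : Fin 3, (H n x i j - M x i j) ^ 2 := rfl
          rw [e2, ENNReal.ofReal_sum_of_nonneg fun i _ => Finset.sum_nonneg fun j _ => sq_nonneg _]
          refine Finset.sum_congr rfl fun i _ => ?_
          rw [ENNReal.ofReal_sum_of_nonneg fun j _ => sq_nonneg _]
      _ = _ := by
          rw [lintegral_finsetSum' _ fun i _ => Finset.aemeasurable_fun_sum _ fun j _ => m1 i j]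
          refine Finset.sum_congr rfl fun i _ => ?_
          rw [lintegral_finsetSum' _ fun j _ => m1 i j]
          refine Finset.sum_congr rfl fun j _ => ?_
          exact lint_sq
  simp only [e]
  have : (0 : ENNReal) = ∑ i : Fin 3, ∑ j : Fin 3, 0 := by simp
  rw [this]
  refine tendsto_finsetSum _ fun i _ => tendsto_finsetSum _ fun j _ => ?_
  have := ENNReal.Tendsto.pow (n := 2) (h i j)
  rwa [zero_pow (by norm_num)] at this

theorem lint_vn_four {F : E3 → Cov} (hF : MC μ F) :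
    ∫⁻ x, ENNReal.ofReal (vn (F x) ^ 4) ∂μ ≤ 3 * ∑ i, eLpNorm (fun x => F x i) 4 μ ^ 4 := by
  have m1 : ∀ i, AEMeasurable (fun x => ENNReal.ofReal (F x i ^ 4)) μ :=
    fun i => ((hF i).pow_const 4).ennreal_ofReal
  calc ∫⁻ x, ENNReal.ofReal (vn (F x) ^ 4) ∂μ
      ≤ ∫⁻ x, 3 * ∑ i, ENNReal.ofReal (F x i ^ 4) ∂μ := by
        refine lintegral_mono fun x => ?_
        refine (ENNReal.ofReal_le_ofReal (vn_four (F x))).trans ?_
        rw [ENNReal.ofReal_mul (by norm_num), ENNReal.ofReal_sum_of_nonneg fun i _ => by positivity]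
        rw [ENNReal.ofReal_ofNat]
    _ = _ := by
        rw [lintegral_const_mul'' _ (Finset.aemeasurable_fun_sum _ fun i _ => m1 i),
          lintegral_finsetSum' _ fun i _ => m1 i]
        congr 1
        exact Finset.sum_congr rfl fun i _ => lint_four

theorem tendsto_vn {q : ℕ → E3 → Cov} {G : E3 → Cov} (hq : ∀ n, MC μ (q n)) (hG : MC μ G)
    (h : ∀ i, Tendsto (fun n => eLpNorm (fun x => q n x i - G x i) 4 μ) atTop (𝓝 0)) :
    Tendsto (fun n => ∫⁻ x, ENNReal.ofReal (vn (q n x - G x) ^ 4) ∂μ) atTop (𝓝 0) := by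
  refine tendsto_of_tendsto_of_tendsto_of_le_of_le tendsto_const_nhds ?_ (fun n => zero_le)
    (fun n => lint_vn_four ((hq n).sub hG))
  have h0 : (0 : ENNReal) = 3 * ∑ i : Fin 3, 0 := by simp
  rw [h0]
  refine ENNReal.Tendsto.const_mul (tendsto_finsetSum _ fun i _ => ?_) (Or.inr (by norm_num))
  have := ENNReal.Tendsto.pow (n := 4) (h i)
  rwa [zero_pow (by norm_num)] at this

/-- the truncated part of `m` -/
theorem tendsto_trunc {m : E3 → ℝ} (hm : AEMeasurable m μ)
    (hfin : ∫⁻ x, ENNReal.ofReal (m x) ∂μ ≠ ⊤) :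
    Tendsto (fun L : ℕ => ∫⁻ x, ENNReal.ofReal (max (m x - L) 0) ∂μ) atTop (𝓝 0) := by
  have := tendsto_lintegral_of_dominated_convergence' (μ := μ)
    (F := fun (L : ℕ) x => ENNReal.ofReal (max (m x - L) 0)) (f := fun _ => 0)
    (fun x => ENNReal.ofReal (m x))
    (fun L => ((hm.sub_const _).max aemeasurable_const).ennreal_ofReal) ?_ hfin ?_
  · rwa [lintegral_zero] at this
  · intro L
    refine ae_of_all _ fun x => ?_
    show ENNReal.ofReal (max (m x - L) 0) ≤ ENNReal.ofReal (m x)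
    have hL : (0 : ℝ) ≤ L := Nat.cast_nonneg L
    rcases le_or_gt (m x - L) 0 with h | h
    · rw [max_eq_right h, ENNReal.ofReal_zero]
      exact zero_le
    · rw [max_eq_left h.le]
      exact ENNReal.ofReal_le_ofReal (by linarith)
  · refine ae_of_all _ fun x => ?_
    refine tendsto_const_nhds.congr' ?_
    obtain ⟨N, hN⟩ := exists_nat_ge (m x)
    filter_upwards [eventually_ge_atTop N] with L hL
    have : (N : ℝ) ≤ L := Nat.cast_le.mpr hL
    rw [max_eq_right (by linarith), ENNReal.ofReal_zero]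

/-- the part where `Γ` is small -/
theorem tendsto_small {m Γ : E3 → ℝ} (hm : AEMeasurable m μ) (hΓ : AEMeasurable Γ μ)
    (hm0 : ∀ x, 0 ≤ m x) (hΓ0 : ∀ x, 0 ≤ Γ x)
    (hfin : ∫⁻ x, ENNReal.ofReal (m x / Γ x) ∂μ ≠ ⊤) :
    Tendsto (fun k : ℕ => ∫⁻ x, ENNReal.ofReal
      ((min 1 (4 * (1 / ((k : ℝ) + 1)) / Γ x)) ^ 2 * (m x / Γ x)) ∂μ) atTop (𝓝 0) := by
  have := tendsto_lintegral_of_dominated_convergence' (μ := μ)
    (F := fun (k : ℕ) x => ENNReal.ofReal
      ((min 1 (4 * (1 / ((k : ℝ) + 1)) / Γ x)) ^ 2 * (m x / Γ x))) (f := fun _ => 0)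
    (fun x => ENNReal.ofReal (m x / Γ x))
    (fun k => (((aemeasurable_const.min (aemeasurable_const.div hΓ)).pow_const 2).mul
      (hm.div hΓ)).ennreal_ofReal) ?_ hfin ?_
  · rwa [lintegral_zero] at this
  · intro k
    refine ae_of_all _ fun x => ?_
    refine ENNReal.ofReal_le_ofReal ?_
    have h1 : 0 ≤ m x / Γ x := div_nonneg (hm0 x) (hΓ0 x)
    have h2 : 0 ≤ min 1 (4 * (1 / ((k : ℝ) + 1)) / Γ x) :=
      le_min zero_le_one (div_nonneg (by positivity) (hΓ0 x))
    have h3 : (min 1 (4 * (1 / ((k : ℝ) + 1)) / Γ x)) ^ 2 ≤ 1 :=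
      pow_le_one₀ h2 (min_le_left _ _)
    nlinarith
  · refine ae_of_all _ fun x => ?_
    have h1 : Tendsto (fun k : ℕ => 4 * (1 / ((k : ℝ) + 1)) / Γ x) atTop (𝓝 0) := by
      have := (tendsto_one_div_add_atTop_nhds_zero_nat (𝕜 := ℝ)).const_mul (4 : ℝ)
      have := this.div_const (Γ x)
      simpa using this
    have h2 : Tendsto (fun k : ℕ => (min 1 (4 * (1 / ((k : ℝ) + 1)) / Γ x)) ^ 2 * (m x / Γ x))
        atTop (𝓝 0) := by
      have h3 := ((tendsto_const_nhds (x := (1 : ℝ))).min h1).pow 2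
      have h4 := h3.mul_const (m x / Γ x)
      have e : min (1 : ℝ) 0 ^ 2 * (m x / Γ x) = 0 := by
        rw [min_eq_right zero_le_one]
        ring
      rwa [e] at h4
    have := ENNReal.tendsto_ofReal h2
    rwa [ENNReal.ofReal_zero] at this

/-- the average over the perturbations -/
theorem average {ε C Ck r : ℝ} {g h : TensorField} {K : Set E3} {q : E3 → Cov} {H : E3 → Bil}
    {G : E3 → Cov} {M : E3 → Bil} (hC : 1 ≤ C) (hCk : 0 < Ck) (hr : 0 < r)
    (hker : ∀ (v : E3), ∫⁻ a in Metric.ball (0 : E3) r, ENNReal.ofReal (1 / ‖v + a‖)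
      ≤ ENNReal.ofReal (Ck * r ^ 3 / max r ‖v‖))
    (hx : ∀ᵐ x ∂(volume.restrict K), (∀ (p p' : Cov) (M : Bil), p ≠ 0 → p' ≠ 0 →
        |resid ε g h x p' M - resid ε g h x p M|
          ≤ C * (min 1 (vn (p' - p) / vn p) * Real.sqrt (msq M)
            + vn (p' - p) * (1 + vn p + vn p'))) ∧
      (∀ (p : Cov) (M M' : Bil),
        |resid ε g h x p M - resid ε g h x p M'| ≤ C * Real.sqrt (msq (M - M'))) ∧
      (∀ (p : Cov) (M : Bil),
        |resid ε g h x p M| ≤ C * (Real.sqrt (msq M) + vn p * (1 + vn p))) ∧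
      (G x ≠ 0 → resid ε g h x (G x) (M x) = 0) ∧ (G x = 0 → M x = 0))
    (hq : Continuous fun x => tE (q x)) (hH : MB (volume.restrict K) H)
    (hG : MC (volume.restrict K) G) (hM : MB (volume.restrict K) M) :
    ∫⁻ a in Metric.ball (0 : E3) r, ∫⁻ x in K, ENNReal.ofReal
        (resid ε g h x (fun i => q x i + a i) (H x) ^ 2 / vn (fun i => q x i + a i))
      ≤ ENNReal.ofReal (Ck * r ^ 3) *
        ∫⁻ x in K, ENNReal.ofReal (QQ C r (q x) (H x) (G x) (M x) / max r (vn (q x))) := by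
  have hqm : MC (volume.restrict K) q := by
    intro i
    have h1 : Continuous fun x => tE (q x) i := (EuclideanSpace.proj i).continuous.comp hq
    exact h1.aemeasurable
  have hQm : AEMeasurable (fun x => ENNReal.ofReal (QQ C r (q x) (H x) (G x) (M x)))
      (volume.restrict K) := by
    have m1 := (hH.sub hM).msq
    have m2 := hM.msq
    have m3 := hG.vn
    have m4 := (hqm.sub hG).vn
    refine AEMeasurable.ennreal_ofReal ?_
    unfold QQ
    exact ((m1.const_mul _).add ((((aemeasurable_const.min ((m4.add_const r).div m3)).pow_const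
      2).mul m2).const_mul _)).add ((((m4.add_const r).pow_const 2).mul
        (((((m3.const_mul 2).const_add 1).add m4).add_const r).pow_const 2)).const_mul _)
  calc ∫⁻ a in Metric.ball (0 : E3) r, ∫⁻ x in K, ENNReal.ofReal
        (resid ε g h x (fun i => q x i + a i) (H x) ^ 2 / vn (fun i => q x i + a i))
      ≤ ∫⁻ a in Metric.ball (0 : E3) r, ∫⁻ x in K,
          ENNReal.ofReal (QQ C r (q x) (H x) (G x) (M x)) *
            ENNReal.ofReal (1 / ‖tE (q x) + a‖) := by
        refine setLIntegral_mono' Metric.isOpen_ball.measurableSet fun a ha => ?_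
        refine lintegral_mono_ae ?_
        filter_upwards [hx] with x hx
        obtain ⟨h1, h2, h3, h4, h5⟩ := hx
        rw [← ENNReal.ofReal_mul (QQ_nonneg _ _ _ _ _ _)]
        refine ENNReal.ofReal_le_ofReal ?_
        have e1 : (fun i => q x i + a i) = q x + (fun i => a i) := rfl
        have e2 : vn (fun i => q x i + a i) = ‖tE (q x) + a‖ := by
          rw [e1, vn_eq]
          rfl
        have ha' : vn (fun i => a i) ≤ r := by
          rw [vn_coe]
          rw [Metric.mem_ball, dist_zero_right] at ha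
          exact ha.le
        rw [← e2, e1, mul_one_div]
        by_cases hp : q x + (fun i => a i) = 0
        · rw [hp, vn_zero, div_zero, div_zero]
        · exact div_le_div_of_nonneg_right
            (resid_bound hC hr h1 h2 h3 h4 h5 (q x) (H x) (fun i => a i) ha' hp) (vn_nonneg _)
    _ = ∫⁻ x in K, ∫⁻ a in Metric.ball (0 : E3) r,
          ENNReal.ofReal (QQ C r (q x) (H x) (G x) (M x)) *
            ENNReal.ofReal (1 / ‖tE (q x) + a‖) := by
        refine lintegral_lintegral_swap ?_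
        refine AEMeasurable.mul (hQm.comp_snd) ?_
        refine Measurable.aemeasurable ?_
        refine Measurable.ennreal_ofReal ?_
        have hc : Continuous fun z : E3 × E3 => tE (q z.2) + z.1 :=
          (hq.comp continuous_snd).add continuous_fst
        exact measurable_const.div hc.norm.measurable
    _ ≤ ∫⁻ x in K, ENNReal.ofReal (Ck * r ^ 3) *
          ENNReal.ofReal (QQ C r (q x) (H x) (G x) (M x) / max r (vn (q x))) := by
        refine lintegral_mono fun x => ?_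
        rw [lintegral_const_mul' _ _ ENNReal.ofReal_ne_top]
        refine (mul_le_mul_right (hker (tE (q x))) _).trans ?_
        rw [← ENNReal.ofReal_mul (QQ_nonneg _ _ _ _ _ _), ← ENNReal.ofReal_mul (by positivity),
          ← vn_eq]
        refine ENNReal.ofReal_le_ofReal (le_of_eq ?_)
        ring
    _ = _ := by
        rw [lintegral_const_mul' _ _ ENNReal.ofReal_ne_top]

/-- the sum of the five terms -/
theorem five {C r L : ℝ} {K : Set E3} {q : E3 → Cov} {H : E3 → Bil}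
    {G : E3 → Cov} {M : E3 → Bil} (hr : 0 < r) (hr1 : r ≤ 1) (hL : 0 ≤ L)
    (hx : ∀ᵐ x ∂(volume.restrict K), G x = 0 → M x = 0)
    (hq : MC (volume.restrict K) q) (hH : MB (volume.restrict K) H)
    (hG : MC (volume.restrict K) G) (hM : MB (volume.restrict K) M) :
    ∫⁻ x in K, ENNReal.ofReal (QQ C r (q x) (H x) (G x) (M x) / max r (vn (q x)))
      ≤ ENNReal.ofReal (2 * C ^ 2 / r) * (∫⁻ x in K, ENNReal.ofReal (msq (H x - M x)))
      + ENNReal.ofReal (4 * C ^ 2 / r) * (∫⁻ x in K, ENNReal.ofReal (max (msq (M x) - L) 0))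
      + ENNReal.ofReal (16 * C ^ 2) * (∫⁻ x in K, ENNReal.ofReal
          ((min 1 (4 * r / vn (G x))) ^ 2 * (msq (M x) / vn (G x))))
      + ENNReal.ofReal (576 * C ^ 2 * r) * (∫⁻ x in K, ENNReal.ofReal (1 + vn (G x) ^ 4))
      + ENNReal.ofReal (4 * C ^ 2 * L / r ^ 5 + 144 * C ^ 2 / r ^ 3) *
          (∫⁻ x in K, ENNReal.ofReal (vn (q x - G x) ^ 4)) := by
  have m1 : AEMeasurable (fun x => ENNReal.ofReal (msq (H x - M x))) (volume.restrict K) :=
    (hH.sub hM).msq.ennreal_ofReal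
  have m2 : AEMeasurable (fun x => ENNReal.ofReal (max (msq (M x) - L) 0)) (volume.restrict K) :=
    ((hM.msq.sub_const _).max aemeasurable_const).ennreal_ofReal
  have m3 : AEMeasurable (fun x => ENNReal.ofReal
      ((min 1 (4 * r / vn (G x))) ^ 2 * (msq (M x) / vn (G x)))) (volume.restrict K) :=
    (((aemeasurable_const.min (aemeasurable_const.div hG.vn)).pow_const 2).mul
      (hM.msq.div hG.vn)).ennreal_ofReal
  have m4 : AEMeasurable (fun x => ENNReal.ofReal (1 + vn (G x) ^ 4)) (volume.restrict K) :=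
    ((hG.vn.pow_const 4).const_add 1).ennreal_ofReal
  have m5 : AEMeasurable (fun x => ENNReal.ofReal (vn (q x - G x) ^ 4)) (volume.restrict K) :=
    ((hq.sub hG).vn.pow_const 4).ennreal_ofReal
  set c1 := ENNReal.ofReal (2 * C ^ 2 / r) with hc1
  set c2 := ENNReal.ofReal (4 * C ^ 2 / r) with hc2
  set c3 := ENNReal.ofReal (16 * C ^ 2) with hc3
  set c4 := ENNReal.ofReal (576 * C ^ 2 * r) with hc4
  set c5 := ENNReal.ofReal (4 * C ^ 2 * L / r ^ 5 + 144 * C ^ 2 / r ^ 3) with hc5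
  have k1 := m1.const_mul c1
  have k2 : AEMeasurable (fun x => c1 * ENNReal.ofReal (msq (H x - M x))
      + c2 * ENNReal.ofReal (max (msq (M x) - L) 0)) (volume.restrict K) :=
    k1.add (m2.const_mul c2)
  have k3 : AEMeasurable (fun x => c1 * ENNReal.ofReal (msq (H x - M x))
      + c2 * ENNReal.ofReal (max (msq (M x) - L) 0)
      + c3 * ENNReal.ofReal ((min 1 (4 * r / vn (G x))) ^ 2 * (msq (M x) / vn (G x))))
      (volume.restrict K) :=
    k2.add (m3.const_mul c3)
  have k4 : AEMeasurable (fun x => c1 * ENNReal.ofReal (msq (H x - M x))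
      + c2 * ENNReal.ofReal (max (msq (M x) - L) 0)
      + c3 * ENNReal.ofReal ((min 1 (4 * r / vn (G x))) ^ 2 * (msq (M x) / vn (G x)))
      + c4 * ENNReal.ofReal (1 + vn (G x) ^ 4))
      (volume.restrict K) :=
    k3.add (m4.const_mul c4)
  rw [← lintegral_const_mul'' _ m1, ← lintegral_const_mul'' _ m2, ← lintegral_const_mul'' _ m3,
    ← lintegral_const_mul'' _ m4, ← lintegral_const_mul'' _ m5,
    ← lintegral_add_left' k1, ← lintegral_add_left' k2, ← lintegral_add_left' k3,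
    ← lintegral_add_left' k4]
  refine lintegral_mono_ae ?_
  filter_upwards [hx] with x hx
  have n1 := msq_nonneg (H x - M x)
  have n2 := msq_nonneg (M x)
  have n3 := vn_nonneg (G x)
  have n4 := vn_nonneg (q x - G x)
  have p1 : 0 ≤ 2 * C ^ 2 / r := by positivity
  have p2 : 0 ≤ 4 * C ^ 2 / r := by positivity
  have p3 : 0 ≤ 16 * C ^ 2 := by positivity
  have p4 : 0 ≤ 576 * C ^ 2 * r := by positivity
  have p5 : 0 ≤ 4 * C ^ 2 * L / r ^ 5 + 144 * C ^ 2 / r ^ 3 := by positivity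
  refine (ENNReal.ofReal_le_ofReal (QQ_bound (C := C) hr hr1 hL hx)).trans (le_of_eq ?_)
  rw [ENNReal.ofReal_add (by positivity) (by positivity),
    ENNReal.ofReal_add (by positivity) (by positivity),
    ENNReal.ofReal_add (by positivity) (by positivity),
    ENNReal.ofReal_add (by positivity) (by positivity),
    ENNReal.ofReal_mul p1, ENNReal.ofReal_mul p2,
    ENNReal.ofReal_mul p3, ENNReal.ofReal_mul p4,
    ENNReal.ofReal_mul p5]

/-- a small term -/
theorem ev_small {I : ℕ → ENNReal} {c : ENNReal} (hI : Tendsto I atTop (𝓝 0)) (hc : c ≠ ⊤)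
    {t : ENNReal} (ht : 0 < t) : ∀ᶠ n in atTop, c * I n ≤ t := by
  have h := ENNReal.Tendsto.const_mul (a := c) hI (Or.inr hc)
  rw [mul_zero] at h
  exact h.eventually_le_const ht

end MAV

open MAV in
theorem AV (hKER : Stmt_KER) (hCHD : Stmt_CHD) : Stmt_AV := by
  intro ε U g h w G M hε hε1 hU hg hh hw heq hint K hK hKU e he
  obtain ⟨Ck, hCk, hker⟩ := hKER
  obtain ⟨C, hC, hchd⟩ := hCHD ε U g h hε hε1 hU hg hh K hK hKU
  obtain ⟨v, hv, hunif, h4, h2⟩ := hw.approx K hK hKU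
  have hKm : MeasurableSet K := hK.measurableSet
  have hC0 : 0 < C := lt_of_lt_of_le one_pos hC
  -- measurability
  have hG : MC (volume.restrict K) G := fun i => (hw.memG K hK hKU i).aestronglyMeasurable.aemeasurable
  have hM : MB (volume.restrict K) M :=
    fun i j => (hw.memM K hK hKU i j).aestronglyMeasurable.aemeasurable
  have hpd : ∀ (f : E3 → ℝ) (i : Fin 3), ContDiff ℝ ∞ f → ContDiff ℝ ∞ (pd i f) := by
    intro f i hf
    have h1 : ContDiff ℝ ∞ (fderiv ℝ f) := hf.fderiv_right (by norm_num)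
    exact h1.clm_apply contDiff_const
  have hqc : ∀ n, Continuous fun x => tE (grad (v n) x) := by
    intro n
    refine (PiLp.continuous_toLp 2 _).comp ?_
    exact continuous_pi fun i => (hpd _ i (hv n)).continuous
  have hqm : ∀ n, MC (volume.restrict K) (grad (v n)) :=
    fun n i => (hpd _ i (hv n)).continuous.aemeasurable
  have hHm : ∀ n, MB (volume.restrict K) (hess2 (v n)) :=
    fun n i j => (hpd _ i (hpd _ j (hv n))).continuous.aemeasurable
  -- the almost everywhere hypotheses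
  have hae : ∀ᵐ x ∂(volume.restrict K), (∀ (p p' : Cov) (M : Bil), p ≠ 0 → p' ≠ 0 →
        |resid ε g h x p' M - resid ε g h x p M|
          ≤ C * (min 1 (vn (p' - p) / vn p) * Real.sqrt (msq M)
            + vn (p' - p) * (1 + vn p + vn p'))) ∧
      (∀ (p : Cov) (M M' : Bil),
        |resid ε g h x p M - resid ε g h x p M'| ≤ C * Real.sqrt (msq (M - M'))) ∧
      (∀ (p : Cov) (M : Bil),
        |resid ε g h x p M| ≤ C * (Real.sqrt (msq M) + vn p * (1 + vn p))) ∧
      (G x ≠ 0 → resid ε g h x (G x) (M x) = 0) ∧ (G x = 0 → M x = 0) := by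
    have h1 : ∀ᵐ x ∂(volume.restrict K), (G x ≠ 0 → beps ε g x (G x) (cHess g x (G x) (M x))
      = len g x (G x) ^ 2 + len g x (G x) * beps ε g x (G x) (h x)) ∧ (G x = 0 → M x = 0) :=
      ae_mono (Measure.restrict_mono hKU le_rfl) heq
    filter_upwards [h1, ae_restrict_mem hKm] with x h1 hxK
    obtain ⟨a1, a2, a3⟩ := hchd x hxK
    refine ⟨a1, a2, a3, fun h0 => ?_, h1.2⟩
    unfold resid
    rw [h1.1 h0]
    ring
  have hae0 : ∀ᵐ x ∂(volume.restrict K), G x = 0 → M x = 0 := by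
    filter_upwards [hae] with x hx
    exact hx.2.2.2.2
  -- the volume of the ball
  set β : ℝ := (volume (Metric.ball (0 : E3) 1)).toReal with hβ
  have hβ1 : volume (Metric.ball (0 : E3) 1) = ENNReal.ofReal β := by
    rw [hβ, ENNReal.ofReal_toReal]
    exact measure_ball_lt_top.ne
  have hβ0 : 0 < β := by
    rw [hβ]
    exact ENNReal.toReal_pos (Metric.measure_ball_pos _ _ one_pos).ne' measure_ball_lt_top.ne
  have hball : ∀ r : ℝ, 0 < r → volume (Metric.ball (0 : E3) r) = ENNReal.ofReal (r ^ 3 * β) := by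
    intro r hr
    rw [Measure.addHaar_ball volume _ hr.le, hβ1, ← ENNReal.ofReal_mul (by positivity)]
    congr 2
    rw [finrank_euclideanSpace, Fintype.card_fin]
  -- the target for the integral
  set t : ENNReal := ENNReal.ofReal (e * β / Ck / 5) with ht
  have ht0 : 0 < t := ENNReal.ofReal_pos.mpr (by positivity)
  -- finite integrals
  have f4 : ∫⁻ x in K, ENNReal.ofReal (1 + vn (G x) ^ 4) ≠ ⊤ := by
    have h1 : ∫⁻ x in K, ENNReal.ofReal (1 + vn (G x) ^ 4)
        = ∫⁻ x in K, 1 + ENNReal.ofReal (vn (G x) ^ 4) := by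
      refine lintegral_congr fun x => ?_
      rw [ENNReal.ofReal_add zero_le_one (by have := vn_nonneg (G x); positivity),
        ENNReal.ofReal_one]
    rw [h1, lintegral_add_left' aemeasurable_const, lintegral_one, Measure.restrict_apply_univ]
    refine ENNReal.add_ne_top.mpr ⟨hK.measure_lt_top.ne, ?_⟩
    refine ne_top_of_le_ne_top ?_ (lint_vn_four hG)
    refine ENNReal.mul_ne_top (by norm_num) (ENNReal.sum_ne_top.mpr fun i _ => ?_)
    exact ENNReal.pow_ne_top (hw.memG K hK hKU i).2.ne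
  have f3 : ∫⁻ x in K, ENNReal.ofReal (msq (M x) / vn (G x)) ≠ ⊤ :=
    ((hasFiniteIntegral_iff_ofReal (ae_of_all _ fun x =>
      div_nonneg (msq_nonneg _) (vn_nonneg _))).mp (hint K hK hKU).2).ne
  have f2 : ∫⁻ x in K, ENNReal.ofReal (msq (M x)) ≠ ⊤ := by
    have h1 : ∫⁻ x in K, ENNReal.ofReal (msq (M x))
        = ∑ i : Fin 3, ∑ j : Fin 3, eLpNorm (fun x => M x i j) 2 (volume.restrict K) ^ 2 := by
      have m1 : ∀ i j, AEMeasurable (fun x => ENNReal.ofReal ((M x i j) ^ 2)) (volume.restrict K) :=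
        fun i j => ((hM i j).pow_const 2).ennreal_ofReal
      calc ∫⁻ x in K, ENNReal.ofReal (msq (M x))
          = ∫⁻ x in K, ∑ i : Fin 3, ∑ j : Fin 3, ENNReal.ofReal ((M x i j) ^ 2) := by
            refine lintegral_congr fun x => ?_
            have e2 : msq (M x) = ∑ i : Fin 3, ∑ j : Fin 3, (M x i j) ^ 2 := rfl
            rw [e2, ENNReal.ofReal_sum_of_nonneg (f := fun i => ∑ j : Fin 3, (M x i j) ^ 2)
              fun i _ => Finset.sum_nonneg fun j _ => sq_nonneg _]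
            refine Finset.sum_congr rfl fun i _ => ?_
            rw [ENNReal.ofReal_sum_of_nonneg (f := fun j => (M x i j) ^ 2)
              fun j _ => sq_nonneg _]
        _ = _ := by
            rw [lintegral_finsetSum' _ fun i _ => Finset.aemeasurable_fun_sum _ fun j _ => m1 i j]
            refine Finset.sum_congr rfl fun i _ => ?_
            rw [lintegral_finsetSum' _ fun j _ => m1 i j]
            exact Finset.sum_congr rfl fun j _ => lint_sq
    rw [h1]
    refine ENNReal.sum_ne_top.mpr fun i _ => ENNReal.sum_ne_top.mpr fun j _ => ?_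
    exact ENNReal.pow_ne_top (hw.memM K hK hKU i j).2.ne
  -- choice of the radius
  have hinv := tendsto_one_div_add_atTop_nhds_zero_nat (𝕜 := ℝ)
  have ev3 := ev_small (c := ENNReal.ofReal (16 * C ^ 2))
    (tendsto_small hM.msq hG.vn (fun x => msq_nonneg _) (fun x => vn_nonneg _) f3)
    ENNReal.ofReal_ne_top ht0
  have ev4 : ∀ᶠ k : ℕ in atTop, ENNReal.ofReal (576 * C ^ 2 * (1 / ((k : ℝ) + 1))) *
      (∫⁻ x in K, ENNReal.ofReal (1 + vn (G x) ^ 4)) ≤ t := by
    have h1 : Tendsto (fun k : ℕ => ENNReal.ofReal (576 * C ^ 2 * (1 / ((k : ℝ) + 1)))) atTop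
        (𝓝 0) := by
      have := ENNReal.tendsto_ofReal (hinv.const_mul (576 * C ^ 2))
      rwa [mul_zero, ENNReal.ofReal_zero] at this
    have := ev_small h1 f4 ht0
    filter_upwards [this] with k hk
    rwa [mul_comm]
  have evr : ∀ᶠ k : ℕ in atTop, 1 / ((k : ℝ) + 1) < e := (tendsto_order.1 hinv).2 e he
  obtain ⟨k, hk3, hk4, hke⟩ := (ev3.and (ev4.and evr)).exists
  set r : ℝ := 1 / ((k : ℝ) + 1) with hr
  have hr0 : 0 < r := by positivity
  have hr1 : r ≤ 1 := by
    rw [hr, div_le_one (by positivity)]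
    have : (0 : ℝ) ≤ k := Nat.cast_nonneg k
    linarith
  -- choice of `L`
  obtain ⟨L, hL⟩ := (ev_small (c := ENNReal.ofReal (4 * C ^ 2 / r)) (tendsto_trunc hM.msq f2)
    ENNReal.ofReal_ne_top ht0).exists
  -- choice of `n`
  have ev1 := ev_small (c := ENNReal.ofReal (2 * C ^ 2 / r)) (tendsto_msq hHm hM h2)
    ENNReal.ofReal_ne_top ht0
  have ev5 := ev_small (c := ENNReal.ofReal (4 * C ^ 2 * L / r ^ 5 + 144 * C ^ 2 / r ^ 3))
    (tendsto_vn hqm hG h4) ENNReal.ofReal_ne_top ht0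
  have evu : ∀ᶠ n in atTop, ∀ x ∈ K, |v n x - w x| < e := by
    have := Metric.tendstoUniformlyOn_iff.mp hunif e he
    filter_upwards [this] with n hn x hx
    have := hn x hx
    rwa [dist_comm, Real.dist_eq] at this
  have ev6 : ∀ᶠ n in atTop, ∀ i, eLpNorm (fun x => pd i (v n) x - G x i) 4 (volume.restrict K)
      < ENNReal.ofReal e := by
    rw [eventually_all]
    exact fun i => (tendsto_order.1 (h4 i)).2 _ (ENNReal.ofReal_pos.mpr he)
  have ev7 : ∀ᶠ n in atTop, ∀ i j, eLpNorm (fun x => pd i (pd j (v n)) x - M x i j) 2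
      (volume.restrict K) < ENNReal.ofReal e := by
    rw [eventually_all]
    intro i
    rw [eventually_all]
    exact fun j => (tendsto_order.1 (h2 i j)).2 _ (ENNReal.ofReal_pos.mpr he)
  obtain ⟨n, hn1, hn5, hnu, hn6, hn7⟩ := (ev1.and (ev5.and (evu.and (ev6.and ev7)))).exists
  refine ⟨v n, r, hv n, hr0, hke, hnu, hn6, hn7, ?_⟩
  -- the average
  refine (average hC hCk hr0 (fun z => hker r z hr0) hae (hqc n) (hHm n) hG hM).trans ?_
  have hfive := five (C := C) (L := (L : ℝ)) hr0 hr1 (Nat.cast_nonneg L) hae0 (hqm n) (hHm n)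
    hG hM
  have hsum : ∫⁻ x in K, ENNReal.ofReal (QQ C r (grad (v n) x) (hess2 (v n) x) (G x) (M x)
      / max r (vn (grad (v n) x))) ≤ ENNReal.ofReal (e * β / Ck) := by
    refine hfive.trans ?_
    have e5 : ENNReal.ofReal (e * β / Ck) = t + t + t + t + t := by
      have h0 : 0 ≤ e * β / Ck / 5 := by positivity
      rw [ht, ← ENNReal.ofReal_add h0 h0, ← ENNReal.ofReal_add (by positivity) h0,
        ← ENNReal.ofReal_add (by positivity) h0, ← ENNReal.ofReal_add (by positivity) h0]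
      congr 1
      ring
    rw [e5]
    exact add_le_add (add_le_add (add_le_add (add_le_add hn1 hL) hk3) hk4) hn5
  refine (mul_le_mul_right hsum _).trans (le_of_eq ?_)
  rw [hball r hr0, ← ENNReal.ofReal_mul (by positivity), ← ENNReal.ofReal_mul he.le]
  congr 1
  field_simp

end Pool.Agent.PFlow
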