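import Pool.Agent.PFlow.StmtsM

/-!
# The filled regions disappear in the limit
-/

open MeasureTheory Filter Topology
open scoped ContDiff ENNReal

namespace Pool.Agent.PFlow

open Pool.Agent.PenroseSph

namespace MBAD

/-- The `L²` norm. -/
noncomputable def N (μ : Measure E3) (φ : E3 → ℝ) : ℝ := (eLpNorm φ 2 μ).toReal

variable {μ : Measure E3}

lemma N_nonneg (φ : E3 → ℝ) : 0 ≤ N μ φ := ENNReal.toReal_nonneg

lemma N_add {φ ψ : E3 → ℝ} (hφ : MemLp φ 2 μ) (hψ : MemLp ψ 2 μ) :
    N μ (fun x => φ x + ψ x) ≤ N μ φ + N μ ψ := by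
  unfold N
  rw [← ENNReal.toReal_add hφ.2.ne hψ.2.ne]
  refine ENNReal.toReal_mono (ENNReal.add_ne_top.2 ⟨hφ.2.ne, hψ.2.ne⟩) ?_
  exact eLpNorm_add_le hφ.1 hψ.1 (by norm_num)

lemma N_mono {φ ψ : E3 → ℝ} (hψ : MemLp ψ 2 μ) (h : ∀ᵐ x ∂μ, |φ x| ≤ |ψ x|) :
    N μ φ ≤ N μ ψ := by
  unfold N
  refine ENNReal.toReal_mono hψ.2.ne ?_
  exact eLpNorm_mono_ae h

lemma cs {φ ψ : E3 → ℝ} (hφ : MemLp φ 2 μ) (hψ : MemLp ψ 2 μ) :
    Integrable (fun x => φ x * ψ x) μ ∧ ∫ x, |φ x * ψ x| ∂μ ≤ N μ φ * N μ ψ := by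
  have h1 : eLpNorm (fun x => φ x * ψ x) 1 μ ≤ eLpNorm φ 2 μ * eLpNorm ψ 2 μ := by
    have h := eLpNorm_le_eLpNorm_mul_eLpNorm_of_nnnorm (p := 2) (q := 2) (r := 1) hφ.1 hψ.1
      (fun a b : ℝ => a * b) 1 (Eventually.of_forall fun x => by
        rw [one_mul, nnnorm_mul])
    rw [ENNReal.coe_one, one_mul] at h
    exact h
  have hfin : eLpNorm φ 2 μ * eLpNorm ψ 2 μ ≠ ⊤ := ENNReal.mul_ne_top hφ.2.ne hψ.2.ne
  have hm : AEStronglyMeasurable (fun x => φ x * ψ x) μ := hφ.1.mul hψ.1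
  have hint : Integrable (fun x => φ x * ψ x) μ := by
    rw [← memLp_one_iff_integrable]
    exact ⟨hm, lt_of_le_of_lt h1 (lt_top_iff_ne_top.2 hfin)⟩
  refine ⟨hint, ?_⟩
  have h2 : ∫ x, |φ x * ψ x| ∂μ = (eLpNorm (fun x => φ x * ψ x) 1 μ).toReal := by
    rw [eLpNorm_one_eq_lintegral_enorm]
    exact integral_norm_eq_lintegral_enorm hm
  rw [h2]
  unfold N
  rw [← ENNReal.toReal_mul]
  exact ENNReal.toReal_mono hfin h1

/-- Cauchy-Schwarz with a bounded factor. -/
lemma cs3 {c φ ψ : E3 → ℝ} (hφ : MemLp φ 2 μ) (hψ : MemLp ψ 2 μ)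
    (hc : AEStronglyMeasurable c μ) (hc1 : ∀ x, |c x| ≤ 1) :
    Integrable (fun x => c x * φ x * ψ x) μ ∧ |∫ x, c x * φ x * ψ x ∂μ| ≤ N μ φ * N μ ψ := by
  have hle : ∀ x, |c x * φ x| ≤ |φ x| := fun x => by
    rw [abs_mul]
    exact mul_le_of_le_one_left (abs_nonneg _) (hc1 x)
  have h1 : MemLp (fun x => c x * φ x) 2 μ :=
    hφ.mono (hc.mul hφ.1) (Eventually.of_forall hle)
  obtain ⟨h2, h3⟩ := cs h1 hψ
  refine ⟨h2, ?_⟩
  calc |∫ x, c x * φ x * ψ x ∂μ| ≤ ∫ x, |c x * φ x * ψ x| ∂μ := abs_integral_le_integral_abs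
    _ ≤ N μ (fun x => c x * φ x) * N μ ψ := h3
    _ ≤ N μ φ * N μ ψ :=
      mul_le_mul_of_nonneg_right (N_mono hφ (Eventually.of_forall hle)) (N_nonneg _)

lemma memLp_cont {K : Set E3} (hK : IsCompact K) {φ : E3 → ℝ} (hφ : Continuous φ) :
    MemLp φ 2 (volume.restrict K) := by
  have : IsFiniteMeasure (volume.restrict K) := ⟨by
    rw [Measure.restrict_apply_univ]; exact hK.measure_lt_top⟩
  obtain ⟨C, hC⟩ := hK.exists_bound_of_continuousOn hφ.continuousOn
  refine MemLp.of_bound hφ.aestronglyMeasurable C ?_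
  exact (ae_restrict_iff' hK.measurableSet).2 (Eventually.of_forall hC)

/-- `L⁴` convergence implies `L²` convergence. -/
lemma l2_of_l4 {K : Set E3} (hK : IsCompact K) (φ : ℕ → E3 → ℝ)
    (hφ : ∀ n, AEStronglyMeasurable (φ n) (volume.restrict K))
    (h : Tendsto (fun n => eLpNorm (φ n) 4 (volume.restrict K)) atTop (𝓝 0)) :
    Tendsto (fun n => N (volume.restrict K) (φ n)) atTop (𝓝 0) := by
  have hK' : volume.restrict K Set.univ ≠ ⊤ := by
    rw [Measure.restrict_apply_univ]; exact hK.measure_lt_top.ne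
  set c : ℝ≥0∞ := (volume.restrict K Set.univ) ^ (1 / (2 : ℝ≥0∞).toReal - 1 / (4 : ℝ≥0∞).toReal)
  have hc : c ≠ ⊤ := by
    refine ENNReal.rpow_ne_top_of_nonneg ?_ hK'
    norm_num
  have h1 : Tendsto (fun n => eLpNorm (φ n) 4 (volume.restrict K) * c) atTop (𝓝 0) := by
    have := ENNReal.Tendsto.mul_const h (Or.inr hc)
    rwa [zero_mul] at this
  have h2 : Tendsto (fun n => eLpNorm (φ n) 2 (volume.restrict K)) atTop (𝓝 0) := by
    refine tendsto_of_tendsto_of_tendsto_of_le_of_le tendsto_const_nhds h1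
      (fun n => bot_le) (fun n => ?_)
    exact eLpNorm_le_eLpNorm_mul_rpow_measure_univ (by norm_num) (hφ n)
  have h3 := (ENNReal.tendsto_toReal ENNReal.zero_ne_top).comp h2
  rw [ENNReal.toReal_zero] at h3
  exact h3

lemma toReal_tendsto {K : Set E3} (φ : ℕ → E3 → ℝ)
    (h : Tendsto (fun n => eLpNorm (φ n) 2 (volume.restrict K)) atTop (𝓝 0)) :
    Tendsto (fun n => N (volume.restrict K) (φ n)) atTop (𝓝 0) := by
  have h3 := (ENNReal.tendsto_toReal ENNReal.zero_ne_top).comp h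
  rw [ENNReal.toReal_zero] at h3
  exact h3

lemma contDiff_pd {u : E3 → ℝ} (hu : ContDiff ℝ ∞ u) (i : Fin 3) : ContDiff ℝ ∞ (pd i u) := by
  unfold pd
  exact (hu.fderiv_right (m := ∞) (by simp)).clm_apply contDiff_const

/-- Integration by parts against a Lipschitz function. -/
lemma ibp {k u F : E3 → ℝ} {C : NNReal} (hk : ContDiff ℝ ∞ k) (hkc : HasCompactSupport k)
    (hu : ContDiff ℝ ∞ u) (hF : LipschitzWith C F) (i : Fin 3) :
    ∫ x, k x * (pd i u x - pd i F x) = - ∫ x, pd i k x * (u x - F x) := by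
  have hk1 : ContDiff ℝ 1 k := hk.of_le (by simp)
  obtain ⟨D, hD⟩ := hk1.lipschitzWith_of_hasCompactSupport hkc (by simp)
  have hdk : HasCompactSupport (pd i k) := hkc.fderiv_apply ℝ _
  have hcdk : Continuous (pd i k) := (contDiff_pd hk i).continuous
  have hcdu : Continuous (pd i u) := (contDiff_pd hu i).continuous
  have i1 : Integrable (fun x => pd i k x * u x) :=
    (hcdk.mul hu.continuous).integrable_of_hasCompactSupport hdk.mul_right
  have i2 : Integrable (fun x => k x * pd i u x) :=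
    (hk.continuous.mul hcdu).integrable_of_hasCompactSupport hkc.mul_right
  have i3 : Integrable (fun x => k x * u x) :=
    (hk.continuous.mul hu.continuous).integrable_of_hasCompactSupport hkc.mul_right
  have i4 : Integrable (fun x => pd i k x * F x) :=
    (hcdk.mul hF.continuous).integrable_of_hasCompactSupport hdk.mul_right
  have e1 : ∫ x, k x * pd i u x = - ∫ x, pd i k x * u x := by
    unfold pd
    exact integral_mul_fderiv_eq_neg_fderiv_mul_of_integrable i1 i2 i3
      (fun x _ => hk1.differentiable (by simp) x)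
      (fun x _ => hu.differentiable (by simp) x)
  have hae : ∀ᵐ x : E3, lineDeriv ℝ F x (EuclideanSpace.single i 1) = pd i F x := by
    filter_upwards [hF.ae_differentiableAt] with x hx
    exact hx.lineDeriv_eq_fderiv
  have e2 : ∫ x, k x * pd i F x = - ∫ x, pd i k x * F x := by
    have h1 := LipschitzWith.integral_lineDeriv_mul_eq (μ := (volume : Measure E3)) hF hD hkc
      (EuclideanSpace.single i 1)
    have h2 : ∫ x, lineDeriv ℝ F x (EuclideanSpace.single i 1) * k x = ∫ x, k x * pd i F x := by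
      refine integral_congr_ae ?_
      filter_upwards [hae] with x hx
      rw [hx, mul_comm]
    have h3 : ∀ x, lineDeriv ℝ k x (-(EuclideanSpace.single i 1)) * F x = -(pd i k x * F x) := by
      intro x
      rw [(hk1.differentiable (by simp) x).lineDeriv_eq_fderiv, map_neg, neg_mul]
      rfl
    rw [← h2, h1]
    simp_rw [h3]
    rw [integral_neg]
  have i5 : Integrable (fun x => k x * pd i F x) := by
    have h4 : Integrable (fun x => lineDeriv ℝ F x (EuclideanSpace.single i 1) * k x) := by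
      have h5 : Integrable (fun x => (C : ℝ) * ‖(EuclideanSpace.single i 1 : E3)‖ * ‖k x‖) :=
        ((hk.continuous.integrable_of_hasCompactSupport hkc).norm).const_mul _
      refine h5.mono ?_ ?_
      · exact (measurable_lineDeriv hF.continuous).aestronglyMeasurable.mul
          hk.continuous.aestronglyMeasurable
      · refine Eventually.of_forall fun x => ?_
        rw [norm_mul, norm_mul, norm_mul, norm_norm, norm_norm, Real.norm_eq_abs (C : ℝ),
          abs_of_nonneg (NNReal.coe_nonneg C)]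
        exact mul_le_mul_of_nonneg_right (norm_lineDeriv_le_of_lipschitz ℝ hF) (norm_nonneg _)
    refine h4.congr ?_
    filter_upwards [hae] with x hx
    rw [hx, mul_comm]
  simp_rw [mul_sub]
  rw [integral_sub i2 i5, integral_sub i1 i4, e1, e2]
  ring

lemma N_le_add {φ G : E3 → ℝ} (hφ : MemLp φ 2 μ) (hG : MemLp G 2 μ) :
    N μ φ ≤ N μ G + N μ (fun x => φ x - G x) := by
  have h := N_add hG (hφ.sub hG)
  have e : (fun x => G x + (φ - G) x) = φ := by
    funext x
    simp
  rw [e] at h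
  exact h

/-- The term with the integration by parts. -/
lemma T1_bound {K S : Set E3} (hK : IsCompact K) {f u v F w : E3 → ℝ} {C : NNReal}
    (hf : ContDiff ℝ ∞ f) (hfK : tsupport f ⊆ K) (hf0 : ∀ x, 0 ≤ f x) (hf1 : ∀ x, f x ≤ 1)
    (hu : ContDiff ℝ ∞ u) (hF : LipschitzWith C F) (i : Fin 3)
    (hFS : ∀ᵐ x ∂(volume.restrict K), pd i F x = S.indicator (pd i v) x)
    (η e Cf : ℝ) (hη : ∀ x ∈ K, |u x - w x| ≤ η) (he : ∀ x ∈ K, |w x - F x| ≤ e)
    (he0 : 0 ≤ η + e) (hCf0 : 0 ≤ Cf) (hCf : ∀ x ∈ K, |pd i f x| ≤ Cf) :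
    |∫ x in K, f x * (pd i u x - S.indicator (pd i v) x) * pd i u x| ≤
      (η + e) * ((Cf * N (volume.restrict K) (pd i u) +
        N (volume.restrict K) (pd i (pd i u))) * N (volume.restrict K) (fun _ => 1)) := by
  have hcs : HasCompactSupport f := hK.of_isClosed_subset (isClosed_tsupport f) hfK
  set k : E3 → ℝ := fun x => f x * pd i u x with hk
  have hg : ContDiff ℝ ∞ (pd i u) := contDiff_pd hu i
  have hks : ContDiff ℝ ∞ k := hf.mul hg
  have hkc : HasCompactSupport k := hcs.mul_right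
  have hkt : tsupport k ⊆ K := (tsupport_mul_subset_left).trans hfK
  have hk0 : ∀ x, x ∉ K → k x = 0 := fun x hx => image_eq_zero_of_notMem_tsupport
    (fun h => hx (hkt h))
  have hdk0 : ∀ x, x ∉ K → pd i k x = 0 := by
    intro x hx
    have h1 : x ∉ tsupport k := fun h => hx (hkt h)
    have h2 : fderiv ℝ k x = 0 := by
      have h3 : x ∉ tsupport (fderiv ℝ k) := fun h => h1 (tsupport_fderiv_subset ℝ h)
      exact image_eq_zero_of_notMem_tsupport h3
    unfold pd
    rw [h2]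
    rfl
  have e1 : ∫ x in K, f x * (pd i u x - S.indicator (pd i v) x) * pd i u x =
      ∫ x in K, k x * (pd i u x - pd i F x) := by
    refine integral_congr_ae ?_
    filter_upwards [hFS] with x hx
    rw [hx, hk]
    ring
  have e2 : ∫ x in K, k x * (pd i u x - pd i F x) = ∫ x, k x * (pd i u x - pd i F x) :=
    setIntegral_eq_integral_of_forall_compl_eq_zero fun x hx => by rw [hk0 x hx, zero_mul]
  have e3 : ∫ x in K, pd i k x * (u x - F x) = ∫ x, pd i k x * (u x - F x) :=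
    setIntegral_eq_integral_of_forall_compl_eq_zero fun x hx => by rw [hdk0 x hx, zero_mul]
  rw [e1, e2, ibp hks hkc hu hF i, ← e3, abs_neg]
  have hdk : ∀ x, pd i k x = pd i f x * pd i u x + f x * pd i (pd i u) x := by
    intro x
    have hfd : DifferentiableAt ℝ f x := hf.differentiable (by simp) x
    have hgd : DifferentiableAt ℝ (pd i u) x := hg.differentiable (by simp) x
    have h1 : fderiv ℝ k x = f x • fderiv ℝ (pd i u) x + pd i u x • fderiv ℝ f x :=
      fderiv_fun_mul hfd hgd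
    unfold pd at h1 ⊢
    rw [h1]
    simp only [add_apply, smul_apply, smul_eq_mul]
    ring
  have cdk : Continuous (pd i k) := (contDiff_pd hks i).continuous
  have m1 : MemLp (pd i u) 2 (volume.restrict K) := memLp_cont hK hg.continuous
  have m2 : MemLp (pd i (pd i u)) 2 (volume.restrict K) :=
    memLp_cont hK (contDiff_pd hg i).continuous
  have m3 : MemLp (fun _ : E3 => (1 : ℝ)) 2 (volume.restrict K) := memLp_cont hK continuous_const
  obtain ⟨c1, c2⟩ := cs m1 m3
  obtain ⟨c3, c4⟩ := cs m2 m3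
  have b1 : ∀ x ∈ K, |pd i k x * (u x - F x)| ≤
      (η + e) * (Cf * |pd i u x * 1| + |pd i (pd i u) x * 1|) := by
    intro x hx
    have h1 : |u x - F x| ≤ η + e := by
      have h2 : u x - F x = (u x - w x) + (w x - F x) := by ring
      rw [h2]
      exact (abs_add_le _ _).trans (add_le_add (hη x hx) (he x hx))
    have h3 : |pd i k x| ≤ Cf * |pd i u x| + |pd i (pd i u) x| := by
      rw [hdk]
      refine (abs_add_le _ _).trans (add_le_add ?_ ?_)
      · rw [abs_mul]
        exact mul_le_mul_of_nonneg_right (hCf x hx) (abs_nonneg _)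
      · rw [abs_mul, abs_of_nonneg (hf0 x)]
        exact mul_le_of_le_one_left (abs_nonneg _) (hf1 x)
    rw [abs_mul, mul_one, mul_one, mul_comm]
    exact mul_le_mul h1 h3 (abs_nonneg _) he0
  have ib : Integrable (fun x => (η + e) * (Cf * |pd i u x * 1| + |pd i (pd i u) x * 1|))
      (volume.restrict K) := ((c1.abs.const_mul Cf).add c3.abs).const_mul _
  calc |∫ x in K, pd i k x * (u x - F x)| ≤ ∫ x in K, |pd i k x * (u x - F x)| :=
        abs_integral_le_integral_abs
    _ ≤ ∫ x in K, (η + e) * (Cf * |pd i u x * 1| + |pd i (pd i u) x * 1|) := by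
        refine setIntegral_mono_on ?_ ib hK.measurableSet b1
        have hc : Continuous fun x => |pd i k x * (u x - F x)| :=
          (cdk.mul (hu.continuous.sub hF.continuous)).abs
        exact hc.continuousOn.integrableOn_compact hK
    _ = (η + e) * (Cf * (∫ x in K, |pd i u x * 1|) + ∫ x in K, |pd i (pd i u) x * 1|) := by
        rw [integral_const_mul, integral_add (c1.abs.const_mul Cf) c3.abs, integral_const_mul]
    _ ≤ _ := by
        refine mul_le_mul_of_nonneg_left ?_ he0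
        rw [add_mul, mul_assoc]
        exact add_le_add (mul_le_mul_of_nonneg_left c2 hCf0) c4

/-- The estimate for one coordinate. -/
lemma coord {K S : Set E3} (hK : IsCompact K) (hS : MeasurableSet S) {f u v F w : E3 → ℝ}
    {C : NNReal} (hf : ContDiff ℝ ∞ f) (hfK : tsupport f ⊆ K) (hf0 : ∀ x, 0 ≤ f x)
    (hf1 : ∀ x, f x ≤ 1) (hu : ContDiff ℝ ∞ u) (hv : ContDiff ℝ ∞ v) (hF : LipschitzWith C F)
    (i : Fin 3) {G M : E3 → ℝ} (hG : MemLp G 2 (volume.restrict K))
    (hM : MemLp M 2 (volume.restrict K))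
    (hFS : ∀ᵐ x ∂(volume.restrict K), pd i F x = S.indicator (pd i v) x)
    {η e Cf δ δ' b : ℝ} (hη : ∀ x ∈ K, |u x - w x| ≤ η) (he : ∀ x ∈ K, |w x - F x| ≤ e)
    (he0 : 0 ≤ η + e) (hCf0 : 0 ≤ Cf) (hCf : ∀ x ∈ K, |pd i f x| ≤ Cf)
    (hδ : N (volume.restrict K) (fun x => pd i u x - G x) ≤ δ)
    (hδ' : N (volume.restrict K) (fun x => pd i (pd i u) x - M x) ≤ δ')
    (hb : N (volume.restrict K) (fun x => pd i v x - G x) ≤ b) :
    IntegrableOn (fun x => f x * G x ^ 2) (K \ S) ∧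
    ∫ x in K \ S, f x * G x ^ 2 ≤
      (η + e) * ((Cf * (N (volume.restrict K) G + δ) + (N (volume.restrict K) M + δ')) *
        N (volume.restrict K) (fun _ => 1)) +
      δ * (3 * N (volume.restrict K) G + δ + b) + b * N (volume.restrict K) G := by
  set ν := volume.restrict K with hν
  have hg : ContDiff ℝ ∞ (pd i u) := contDiff_pd hu i
  have m1 : MemLp (pd i u) 2 ν := memLp_cont hK hg.continuous
  have m2 : MemLp (pd i (pd i u)) 2 ν := memLp_cont hK (contDiff_pd hg i).continuous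
  have m3 : MemLp (pd i v) 2 ν := memLp_cont hK (contDiff_pd hv i).continuous
  have mD : MemLp (S.indicator (pd i v)) 2 ν := m3.indicator hS
  have hfa : ∀ x, |f x| ≤ 1 := fun x => by rw [abs_of_nonneg (hf0 x)]; exact hf1 x
  have hfm : AEStronglyMeasurable f ν := hf.continuous.aestronglyMeasurable
  have hδ0 : 0 ≤ δ := (N_nonneg _).trans hδ
  have hδ'0 : 0 ≤ δ' := (N_nonneg _).trans hδ'
  have hb0 : 0 ≤ b := (N_nonneg _).trans hb
  -- the three terms
  obtain ⟨j1, -⟩ := cs3 (m1.sub mD) m1 hfm hfa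
  obtain ⟨j2, k2⟩ := cs3 (hG.sub m1) ((hG.add m1).sub mD) hfm hfa
  obtain ⟨j3, k3⟩ := cs3 (c := S.indicator f) (m3.sub hG) hG (hfm.indicator hS) (fun x => by
    by_cases hx : x ∈ S
    · rw [Set.indicator_of_mem hx]; exact hfa x
    · rw [Set.indicator_of_notMem hx, abs_zero]; exact zero_le_one)
  have hpt : ∀ x, (Sᶜ).indicator (fun x => f x * G x ^ 2) x =
      f x * (pd i u - S.indicator (pd i v)) x * pd i u x +
      f x * (G - pd i u) x * (G + pd i u - S.indicator (pd i v)) x +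
      S.indicator f x * (pd i v - G) x * G x := by
    intro x
    simp only [Pi.sub_apply, Pi.add_apply]
    by_cases hx : x ∈ S
    · rw [Set.indicator_of_notMem (by simpa using hx), Set.indicator_of_mem hx,
        Set.indicator_of_mem hx]
      ring
    · rw [Set.indicator_of_mem (by simpa using hx), Set.indicator_of_notMem hx,
        Set.indicator_of_notMem hx]
      ring
  have hint : Integrable ((Sᶜ).indicator (fun x => f x * G x ^ 2)) ν :=
    ((j1.add j2).add j3).congr (Eventually.of_forall fun x => (hpt x).symm)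
  have hintS : IntegrableOn (fun x => f x * G x ^ 2) (K \ S) := by
    rw [Set.sdiff_eq, Set.inter_comm, IntegrableOn, ← Measure.restrict_restrict hS.compl]
    exact (integrable_indicator_iff hS.compl).1 hint
  refine ⟨hintS, ?_⟩
  have hI : ∫ x in K \ S, f x * G x ^ 2 = ∫ x, (Sᶜ).indicator (fun x => f x * G x ^ 2) x ∂ν := by
    rw [hν, setIntegral_indicator hS.compl, Set.sdiff_eq]
  have hsum : ∫ x, (Sᶜ).indicator (fun x => f x * G x ^ 2) x ∂ν =
      (∫ x, f x * (pd i u - S.indicator (pd i v)) x * pd i u x ∂ν) +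
      (∫ x, f x * (G - pd i u) x * (G + pd i u - S.indicator (pd i v)) x ∂ν) +
      (∫ x, S.indicator f x * (pd i v - G) x * G x ∂ν) := by
    refine (integral_congr_ae (Eventually.of_forall hpt)).trans ?_
    refine (integral_add (j1.add j2) j3).trans ?_
    exact congrArg (· + _) (integral_add j1 j2)
  have t1 := T1_bound hK hf hfK hf0 hf1 hu hF i hFS η e Cf hη he he0 hCf0 hCf
  have n1 : N ν (pd i u) ≤ N ν G + δ := (N_le_add m1 hG).trans (by linarith)
  have n2 : N ν (pd i (pd i u)) ≤ N ν M + δ' := (N_le_add m2 hM).trans (by linarith)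
  have n3 : N ν (pd i v) ≤ N ν G + b := (N_le_add m3 hG).trans (by linarith)
  have n4 : N ν (S.indicator (pd i v)) ≤ N ν G + b := by
    refine (N_mono m3 (Eventually.of_forall fun x => ?_)).trans n3
    by_cases hx : x ∈ S
    · rw [Set.indicator_of_mem hx]
    · rw [Set.indicator_of_notMem hx, abs_zero]; exact abs_nonneg _
  have n5 : N ν (G - pd i u) ≤ δ := by
    refine (N_mono (m1.sub hG) (Eventually.of_forall fun x => ?_)).trans hδ
    rw [Pi.sub_apply, Pi.sub_apply, abs_sub_comm]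
  have n6 : N ν (G + pd i u - S.indicator (pd i v)) ≤ 3 * N ν G + δ + b := by
    have h1 := N_add (hG.add m1) mD.neg
    have h2 := N_add hG m1
    have h3 : N ν (-S.indicator (pd i v)) ≤ N ν (S.indicator (pd i v)) :=
      N_mono mD (Eventually.of_forall fun x => by rw [Pi.neg_apply, abs_neg])
    have h4 : (fun x => (G + pd i u) x + (-S.indicator (pd i v)) x) =
        G + pd i u - S.indicator (pd i v) := by
      funext x
      simp only [Pi.sub_apply, Pi.add_apply, Pi.neg_apply]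
      ring
    rw [h4] at h1
    have h5 : (fun x => G x + pd i u x) = G + pd i u := rfl
    rw [h5] at h2
    linarith
  have q2 : N ν (G - pd i u) * N ν (G + pd i u - S.indicator (pd i v)) ≤
      δ * (3 * N ν G + δ + b) := mul_le_mul n5 n6 (N_nonneg _) hδ0
  have q3 : N ν (pd i v - G) * N ν G ≤ b * N ν G :=
    mul_le_mul_of_nonneg_right hb (N_nonneg _)
  have q1 : (η + e) * ((Cf * N ν (pd i u) + N ν (pd i (pd i u))) * N ν (fun _ => 1)) ≤
      (η + e) * ((Cf * (N ν G + δ) + (N ν M + δ')) * N ν (fun _ => 1)) := by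
    refine mul_le_mul_of_nonneg_left ?_ he0
    refine mul_le_mul_of_nonneg_right ?_ (N_nonneg _)
    exact add_le_add (mul_le_mul_of_nonneg_left n1 hCf0) n2
  rw [hI, hsum]
  have r1 := le_of_abs_le (t1.trans q1)
  have r2 := le_of_abs_le (k2.trans q2)
  have r3 := le_of_abs_le (k3.trans q3)
  exact add_le_add (add_le_add r1 r2) r3

end MBAD

theorem BAD (hFA : Stmt_FA) (hFM : Stmt_FM) (hAEG : Stmt_AEG) : Stmt_BAD := by
  intro a b a' b' s₀ s₁ w G M K z₁ v W C e f _ _ _ _ _ hH hK hKU hKw hKx hz₁ hTr hfix hWT hWL hv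
    hag he hWe hvG hf hfK hf0 hf1
  set ν := volume.restrict K with hν
  set F : ℕ → E3 → ℝ := fun n => fill (W n) s₀ s₁ 0 z₁ with hFdef
  set S : ℕ → Set E3 := fun n => good (W n) s₀ s₁ 0 z₁ with hSdef
  have hFL : ∀ n, LipschitzWith (C n) (F n) := fun n =>
    (hFA a' b' s₀ s₁ (W n) (C n) z₁ (hWT n) (hWL n) hz₁).2.1
  have htr : ∀ x ∈ K, trW a' b' s₀ s₁ w x = w x := by
    intro x hx
    obtain ⟨h1, h2⟩ := hKx x hx
    obtain ⟨h3, h4⟩ := hKw x hx
    unfold trW
    rw [if_neg (not_le.2 h1), if_neg (not_le.2 h2), min_eq_right h4.le, max_eq_right h3.le]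
  have hFw : ∀ n, ∀ x ∈ K, |w x - F n x| ≤ e n := by
    intro n x hx
    have h1 := hFM a' b' s₀ s₁ (e n) (W n) (trW a' b' s₀ s₁ w) z₁ (hWT n) hTr hz₁ (hWe n) x
    rw [hfix, htr x hx, abs_sub_comm] at h1
    exact h1
  have hSc : ∀ n, IsClosed (S n) := fun n =>
    (hAEG a' b' s₀ s₁ (W n) (C n) z₁ (hWT n) (hWL n) hz₁).1
  have hFS : ∀ n i, ∀ᵐ x ∂ν, pd i (F n) x = (S n).indicator (pd i (v n)) x := by
    intro n i
    have h1 := (hAEG a' b' s₀ s₁ (W n) (C n) z₁ (hWT n) (hWL n) hz₁).2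
    filter_upwards [ae_restrict_of_ae h1, ae_restrict_mem hK.measurableSet] with x hx hxK
    by_cases hxS : x ∈ S n
    · rw [Set.indicator_of_mem hxS]
      unfold pd
      rw [hx.1 hxS, Filter.EventuallyEq.fderiv_eq (hag n x hxK)]
    · rw [Set.indicator_of_notMem hxS]
      unfold pd
      rw [hx.2 hxS]
      rfl
  obtain ⟨u, hu, huw, huG, huM⟩ := hH.approx K hK hKU
  have : IsFiniteMeasure ν := ⟨by rw [hν, Measure.restrict_apply_univ]; exact hK.measure_lt_top⟩
  have hG : ∀ i, MemLp (fun x => G x i) 2 ν := fun i =>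
    (hH.memG K hK hKU i).mono_exponent (by norm_num)
  have hM : ∀ i, MemLp (fun x => M x i i) 2 ν := fun i => hH.memM K hK hKU i i
  have mu : ∀ m i, MemLp (pd i (u m)) 2 ν := fun m i =>
    MBAD.memLp_cont hK (MBAD.contDiff_pd (hu m) i).continuous
  have mv : ∀ n i, MemLp (pd i (v n)) 2 ν := fun n i =>
    MBAD.memLp_cont hK (MBAD.contDiff_pd (hv n) i).continuous
  have c1 : ∀ i, Tendsto (fun m => MBAD.N ν (fun x => pd i (u m) x - G x i)) atTop (𝓝 0) :=
    fun i => MBAD.l2_of_l4 hK _ (fun m => (mu m i).1.sub (hG i).1) (huG i)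
  have c2 : ∀ i, Tendsto (fun m => MBAD.N ν (fun x => pd i (pd i (u m)) x - M x i i)) atTop
      (𝓝 0) := fun i => MBAD.toReal_tendsto _ (huM i i)
  have c3 : ∀ i, Tendsto (fun n => MBAD.N ν (fun x => pd i (v n) x - G x i)) atTop (𝓝 0) :=
    fun i => MBAD.l2_of_l4 hK _ (fun n => (mv n i).1.sub (hG i).1) (hvG i)
  have hCf : ∀ i, ∃ c : ℝ, 0 ≤ c ∧ ∀ x ∈ K, |pd i f x| ≤ c := by
    intro i
    obtain ⟨c, hc⟩ := hK.exists_bound_of_continuousOn
      (MBAD.contDiff_pd hf i).continuous.continuousOn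
    exact ⟨max c 0, le_max_right _ _, fun x hx => (hc x hx).trans (le_max_left _ _)⟩
  choose cf hcf0 hcf using hCf
  set Q : ℝ := ∑ i : Fin 3, (2 * ((cf i * (MBAD.N ν (fun x => G x i) + 1) +
    (MBAD.N ν (fun x => M x i i) + 1)) * MBAD.N ν (fun _ => 1)) +
    (3 * MBAD.N ν (fun x => G x i) + 2) + MBAD.N ν (fun x => G x i)) with hQ
  have hQ0 : 0 ≤ Q := by
    refine Finset.sum_nonneg fun i _ => ?_
    have h1 := MBAD.N_nonneg (μ := ν) (fun x => G x i)
    have h2 := MBAD.N_nonneg (μ := ν) (fun x => M x i i)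
    have h3 := MBAD.N_nonneg (μ := ν) (fun _ => 1)
    have h4 := hcf0 i
    positivity
  have main : ∀ κ : ℝ, 0 < κ → κ ≤ 1 → ∀ᶠ n in atTop,
      ∫ x in K \ S n, f x * vsq (G x) ≤ κ * Q := by
    intro κ hκ hκ1
    have d1 : ∀ᶠ m in atTop, ∀ i, MBAD.N ν (fun x => pd i (u m) x - G x i) ≤ κ :=
      eventually_all.2 fun i => (c1 i).eventually_le_const hκ
    have d2 : ∀ᶠ m in atTop, ∀ i, MBAD.N ν (fun x => pd i (pd i (u m)) x - M x i i) ≤ 1 :=
      eventually_all.2 fun i => (c2 i).eventually_le_const one_pos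
    have d3 : ∀ᶠ m in atTop, ∀ x ∈ K, dist (w x) (u m x) < κ :=
      Metric.tendstoUniformlyOn_iff.1 huw κ hκ
    obtain ⟨m, hm1, hm2, hm3⟩ := (d1.and (d2.and d3)).exists
    have d4 : ∀ᶠ n in atTop, ∀ i, MBAD.N ν (fun x => pd i (v n) x - G x i) ≤ κ :=
      eventually_all.2 fun i => (c3 i).eventually_le_const hκ
    have d5 : ∀ᶠ n in atTop, e n ≤ κ := he.eventually_le_const hκ
    filter_upwards [d4, d5] with n hn4 hn5
    have hc := fun i => MBAD.coord (w := w) (η := κ) (e := κ) (δ := κ) (δ' := 1) (b := κ) hK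
      (hSc n).measurableSet hf hfK hf0 hf1 (hu m) (hv n) (hFL n) i (hG i) (hM i) (hFS n i)
      (fun x hx => by
        have := hm3 x hx
        rw [dist_comm, Real.dist_eq] at this
        exact this.le)
      (fun x hx => (hFw n x hx).trans hn5) (by linarith) (hcf0 i) (hcf i) (hm1 i) (hm2 i) (hn4 i)
    have e1 : ∫ x in K \ S n, f x * vsq (G x) = ∑ i, ∫ x in K \ S n, f x * G x i ^ 2 := by
      rw [← integral_finsetSum _ (fun i _ => (hc i).1)]
      refine integral_congr_ae (Eventually.of_forall fun x => ?_)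
      show f x * vsq (G x) = ∑ i, f x * G x i ^ 2
      unfold vsq
      rw [Finset.mul_sum]
    rw [e1, hQ, Finset.mul_sum]
    refine Finset.sum_le_sum fun i _ => (hc i).2.trans ?_
    have h1 := MBAD.N_nonneg (μ := ν) (fun x => G x i)
    have h2 := MBAD.N_nonneg (μ := ν) (fun x => M x i i)
    have h3 := MBAD.N_nonneg (μ := ν) (fun _ => 1)
    have h4 := hcf0 i
    have h5 : (cf i * (MBAD.N ν (fun x => G x i) + κ) + (MBAD.N ν (fun x => M x i i) + 1)) *
        MBAD.N ν (fun _ => 1) ≤ (cf i * (MBAD.N ν (fun x => G x i) + 1) +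
        (MBAD.N ν (fun x => M x i i) + 1)) * MBAD.N ν (fun _ => 1) := by
      refine mul_le_mul_of_nonneg_right ?_ h3
      have := mul_le_mul_of_nonneg_left (add_le_add_right hκ1 (MBAD.N ν (fun x => G x i))) h4
      linarith
    have h6 : κ * (3 * MBAD.N ν (fun x => G x i) + κ + κ) ≤
        κ * (3 * MBAD.N ν (fun x => G x i) + 2) :=
      mul_le_mul_of_nonneg_left (by linarith) hκ.le
    have h7 := mul_le_mul_of_nonneg_left h5 (show 0 ≤ κ + κ by linarith)
    calc _ ≤ (κ + κ) * ((cf i * (MBAD.N ν (fun x => G x i) + 1) +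
        (MBAD.N ν (fun x => M x i i) + 1)) * MBAD.N ν (fun _ => 1)) +
        κ * (3 * MBAD.N ν (fun x => G x i) + 2) + κ * MBAD.N ν (fun x => G x i) :=
          add_le_add (add_le_add h7 h6) le_rfl
      _ = _ := by ring
  rw [Metric.tendsto_nhds]
  intro ε hε
  have hκ : 0 < min 1 (ε / (2 * (Q + 1))) := lt_min one_pos (by positivity)
  filter_upwards [main _ hκ (min_le_left _ _)] with n hn
  have h0 : 0 ≤ ∫ x in K \ S n, f x * vsq (G x) := by
    refine integral_nonneg fun x => mul_nonneg (hf0 x) ?_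
    unfold vsq
    exact Finset.sum_nonneg fun i _ => sq_nonneg _
  rw [Real.dist_eq, sub_zero, abs_of_nonneg h0]
  have h1 : min 1 (ε / (2 * (Q + 1))) * Q ≤ ε / (2 * (Q + 1)) * Q :=
    mul_le_mul_of_nonneg_right (min_le_right _ _) hQ0
  have h2 : ε / (2 * (Q + 1)) * Q < ε := by
    rw [div_mul_eq_mul_div, div_lt_iff₀ (by positivity)]
    nlinarith
  exact (hn.trans h1).trans_lt h2

end Pool.Agent.PFlow
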