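import Pool.Agent.PFlow.StmtsM
import Pool.Agent.PenroseSph.Calc

/-!
# Module BO: the contracted Bochner formula in coordinates
-/

open MeasureTheory Filter Topology
open scoped ContDiff

namespace Pool.Agent.PFlow

open Pool.Agent.PenroseSph

namespace MBO

/-! ### Calculus -/

theorem cd_pd {f : E3 → ℝ} {x : E3} (h : ContDiffAt ℝ ∞ f x) (i : Fin 3) :
    ContDiffAt ℝ ∞ (pd i f) x := by
  have h1 : ContDiffAt ℝ ∞ (fderiv ℝ f) x := h.fderiv_right (m := ∞) (by simp)
  exact h1.clm_apply contDiffAt_const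

theorem df {f : E3 → ℝ} {x : E3} (h : ContDiffAt ℝ ∞ f x) : DifferentiableAt ℝ f x :=
  h.differentiableAt (by simp)

/-- Symmetry of the second derivatives. -/
theorem pd_comm {f : E3 → ℝ} {x : E3} (h : ContDiffAt ℝ ∞ f x) (i j : Fin 3) :
    pd i (pd j f) x = pd j (pd i f) x := by
  have hs : IsSymmSndFDerivAt ℝ f x := h.isSymmSndFDerivAt (by
    rw [minSmoothness_of_isRCLikeNormedField]
    exact WithTop.coe_le_coe.2 le_top)
  have hd : DifferentiableAt ℝ (fderiv ℝ f) x :=
    (h.fderiv_right (m := ∞) (by simp)).differentiableAt (by simp)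
  have key : ∀ v w : E3, fderiv ℝ (fun y => fderiv ℝ f y v) x w = fderiv ℝ (fderiv ℝ f) x w v := by
    intro v w
    have h1 : HasFDerivAt (fun y => fderiv ℝ f y v)
        ((ContinuousLinearMap.apply ℝ ℝ v).comp (fderiv ℝ (fderiv ℝ f) x)) x :=
      (ContinuousLinearMap.apply ℝ ℝ v).hasFDerivAt.comp x hd.hasFDerivAt
    rw [h1.fderiv]
    rfl
  unfold pd
  rw [key, key]
  exact hs _ _

/-- `f` is differentiable at `x` with `∂_l f = f'`. -/
structure HP (l : Fin 3) (f : E3 → ℝ) (f' : ℝ) (x : E3) : Prop where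
  diff : DifferentiableAt ℝ f x
  val : pd l f x = f'

section HP

variable {l : Fin 3} {f g : E3 → ℝ} {f' g' : ℝ} {x : E3}

theorem HP.add (hf : HP l f f' x) (hg : HP l g g' x) :
    HP l (fun y => f y + g y) (f' + g') x :=
  ⟨hf.diff.add hg.diff, by rw [pd_add hf.diff hg.diff, hf.val, hg.val]⟩

theorem HP.sub (hf : HP l f f' x) (hg : HP l g g' x) :
    HP l (fun y => f y - g y) (f' - g') x :=
  ⟨hf.diff.sub hg.diff, by rw [pd_sub hf.diff hg.diff, hf.val, hg.val]⟩

theorem HP.mul (hf : HP l f f' x) (hg : HP l g g' x) :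
    HP l (fun y => f y * g y) (f x * g' + g x * f') x :=
  ⟨hf.diff.mul hg.diff, by rw [pd_mul hf.diff hg.diff, hf.val, hg.val]⟩

theorem HP.of_diff (h : DifferentiableAt ℝ f x) : HP l f (pd l f x) x := ⟨h, rfl⟩

theorem HP.sum {F : Fin 3 → E3 → ℝ} {F' : Fin 3 → ℝ} (h : ∀ a, HP l (F a) (F' a) x) :
    HP l (fun y => ∑ a, F a y) (∑ a, F' a) x := by
  refine ⟨DifferentiableAt.fun_sum fun a _ => (h a).diff, ?_⟩
  rw [pd_sum _ F fun a _ => (h a).diff]
  exact Finset.sum_congr rfl fun a _ => (h a).val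

end HP

/-- Entries of the inverse metric. -/
noncomputable def iv (g : TensorField) (i j : Fin 3) (y : E3) : ℝ := (g y)⁻¹ i j

section Metric

variable {U : Set E3} {g : TensorField} (hU : IsOpen U) (hg : MetricOn U g)

include hU hg

theorem cd_g {x : E3} (hx : x ∈ U) (i j : Fin 3) : ContDiffAt ℝ ∞ (fun y => g y i j) x :=
  (hg.smooth i j).contDiffAt (hU.mem_nhds hx)

omit hU in
theorem det_pos {x : E3} (hx : x ∈ U) : 0 < (g x).det := (hg.posDef x hx).det_pos

omit hU in
theorem symm_g {x : E3} (hx : x ∈ U) (i j : Fin 3) : g x i j = g x j i := by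
  have h := (hg.posDef x hx).isHermitian
  have h1 : (g x).conjTranspose = g x := h
  rw [Matrix.conjTranspose_eq_transpose_of_trivial] at h1
  conv_lhs => rw [← h1]
  rfl

omit hU in
theorem symm_iv {x : E3} (hx : x ∈ U) (i j : Fin 3) : iv g i j x = iv g j i x := by
  have h := (hg.posDef x hx).isHermitian
  have h1 : (g x).conjTranspose = g x := h
  rw [Matrix.conjTranspose_eq_transpose_of_trivial] at h1
  have h2 : (g x)⁻¹.transpose = (g x)⁻¹ := by
    rw [Matrix.transpose_nonsing_inv, h1]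
  unfold iv
  conv_lhs => rw [← h2]
  rfl

theorem cd_det {x : E3} (hx : x ∈ U) : ContDiffAt ℝ ∞ (fun y => (g y).det) x := by
  have h := cd_g hU hg hx
  simp only [Matrix.det_fin_three]
  fun_prop

theorem cd_iv {x : E3} (hx : x ∈ U) (i j : Fin 3) : ContDiffAt ℝ ∞ (iv g i j) x := by
  have h := cd_g hU hg hx
  have ha : ContDiffAt ℝ ∞ (fun y => (g y).adjugate i j) x := by
    simp only [Matrix.adjugate_fin_three]
    fin_cases i <;> fin_cases j <;>
      simp <;> fun_prop
  have h1 : iv g i j = fun y => ((g y).det)⁻¹ * (g y).adjugate i j := by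
    funext y
    unfold iv
    rw [Matrix.inv_def, Ring.inverse_eq_inv', Matrix.smul_apply, smul_eq_mul]
  rw [h1]
  exact ((cd_det hU hg hx).inv (det_pos hg hx).ne').mul ha

theorem cd_chr {x : E3} (hx : x ∈ U) (k i j : Fin 3) :
    ContDiffAt ℝ ∞ (christoffel g k i j) x := by
  have h := cd_g hU hg hx
  have h1 : ∀ l, ContDiffAt ℝ ∞ (fun y => iv g k l y * (pd i (fun y => g y j l) y
      + pd j (fun y => g y i l) y - pd l (fun y => g y i j) y)) x := fun l =>
    (cd_iv hU hg hx k l).mul (((cd_pd (h j l) i).add (cd_pd (h i l) j)).sub (cd_pd (h i j) l))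
  have h2 : ContDiffAt ℝ ∞ (fun y => ∑ l, iv g k l y * (pd i (fun y => g y j l) y
      + pd j (fun y => g y i l) y - pd l (fun y => g y i j) y)) x :=
    ContDiffAt.sum fun l _ => h1 l
  exact contDiffAt_const.mul h2

/-- Christoffel symbols are symmetric. -/
theorem symm_chr {x : E3} (hx : x ∈ U) (k i j : Fin 3) :
    christoffel g k i j x = christoffel g k j i x := by
  unfold christoffel
  congr 1
  refine Finset.sum_congr rfl fun l _ => ?_
  have h1 : pd l (fun y => g y i j) x = pd l (fun y => g y j i) x := by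
    refine pd_congr ?_
    filter_upwards [hU.mem_nhds hx] with y hy
    exact symm_g hg hy i j
  rw [h1]
  ring

theorem symm_pd_chr {x : E3} (hx : x ∈ U) (l k i j : Fin 3) :
    pd l (christoffel g k i j) x = pd l (christoffel g k j i) x := by
  refine pd_congr ?_
  filter_upwards [hU.mem_nhds hx] with y hy
  exact symm_chr hU hg hy k i j

omit hU in
theorem mul_iv {x : E3} (hx : x ∈ U) (c l : Fin 3) :
    ∑ d, g x c d * iv g d l x = if c = l then 1 else 0 := by
  have h2 := congrFun (congrFun (Matrix.mul_nonsing_inv (g x)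
    (Ne.isUnit (det_pos hg hx).ne')) c) l
  rw [Matrix.mul_apply, Matrix.one_apply] at h2
  exact h2

omit hU in
theorem iv_mul {x : E3} (hx : x ∈ U) (c l : Fin 3) :
    ∑ d, iv g c d x * g x d l = if c = l then 1 else 0 := by
  have h2 := congrFun (congrFun (Matrix.nonsing_inv_mul (g x)
    (Ne.isUnit (det_pos hg hx).ne')) c) l
  rw [Matrix.mul_apply, Matrix.one_apply] at h2
  exact h2

omit hU in
/-- Lowering the index of a Christoffel symbol. -/
theorem lower {x : E3} (hx : x ∈ U) (c a b : Fin 3) :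
    ∑ d, g x c d * christoffel g d a b x = (1 / 2) * (pd a (fun y => g y b c) x
      + pd b (fun y => g y a c) x - pd c (fun y => g y a b) x) := by
  have h1 := mul_iv hg hx c
  unfold christoffel
  have h3 : ∑ d, g x c d * (1 / 2 * ∑ l, (g x)⁻¹ d l * (pd a (fun y => g y b l) x
      + pd b (fun y => g y a l) x - pd l (fun y => g y a b) x)) =
      1 / 2 * ∑ l, (∑ d, g x c d * iv g d l x) * (pd a (fun y => g y b l) x
      + pd b (fun y => g y a l) x - pd l (fun y => g y a b) x) := by
    simp only [Finset.mul_sum, Finset.sum_mul, iv]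
    rw [Finset.sum_comm]
    refine Finset.sum_congr rfl fun l _ => Finset.sum_congr rfl fun d _ => ?_
    ring
  rw [h3]
  simp only [h1]
  simp

/-- The metric is parallel. -/
theorem pd_g {x : E3} (hx : x ∈ U) (k a b : Fin 3) :
    pd k (fun y => g y a b) x =
      ∑ d, g x b d * christoffel g d k a x + ∑ d, g x a d * christoffel g d k b x := by
  rw [lower hg hx, lower hg hx]
  have h1 : ∀ l i j, pd l (fun y => g y i j) x = pd l (fun y => g y j i) x := by
    intro l i j
    refine pd_congr ?_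
    filter_upwards [hU.mem_nhds hx] with y hy
    exact symm_g hg hy i j
  rw [h1 k b a, h1 a k b, h1 b k a]
  ring

/-- The inverse metric is parallel. -/
theorem pd_iv {x : E3} (hx : x ∈ U) (k i j : Fin 3) :
    pd k (iv g i j) x = - (∑ l, christoffel g i k l x * iv g l j x)
      - ∑ l, christoffel g j k l x * iv g i l x := by
  have hd : ∀ i j, DifferentiableAt ℝ (fun y => g y i j) x := fun i j => df (cd_g hU hg hx i j)
  have hd' : ∀ i j, DifferentiableAt ℝ (iv g i j) x := fun i j => df (cd_iv hU hg hx i j)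
  -- differentiate `P g = 1`
  have h1 : ∀ b, ∑ a, (iv g i a x * pd k (fun y => g y a b) x + g x a b * pd k (iv g i a) x) =
      0 := by
    intro b
    have h2 : pd k (fun y => ∑ a, iv g i a y * g y a b) x =
        ∑ a, (iv g i a x * pd k (fun y => g y a b) x + g x a b * pd k (iv g i a) x) := by
      rw [pd_sum _ (fun a y => iv g i a y * g y a b) fun a _ => (hd' i a).mul (hd a b)]
      refine Finset.sum_congr rfl fun a _ => ?_
      rw [pd_mul (hd' i a) (hd a b)]
    rw [← h2]
    have h3 : pd k (fun y => ∑ a, iv g i a y * g y a b) x =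
        pd k (fun _ => if i = b then (1 : ℝ) else 0) x := by
      refine pd_congr ?_
      filter_upwards [hU.mem_nhds hx] with y hy
      exact iv_mul hg hy i b
    rw [h3, pd_const]
  have h4 : ∑ b, (∑ a, (iv g i a x * pd k (fun y => g y a b) x +
      g x a b * pd k (iv g i a) x)) * iv g b j x = 0 := by
    simp only [h1, zero_mul, Finset.sum_const_zero]
  have h5 : ∑ b, (∑ a, (iv g i a x * pd k (fun y => g y a b) x +
      g x a b * pd k (iv g i a) x)) * iv g b j x =
      ∑ b, ∑ a, iv g i a x * pd k (fun y => g y a b) x * iv g b j x +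
        ∑ a, pd k (iv g i a) x * ∑ b, g x a b * iv g b j x := by
    simp only [Finset.sum_mul, Finset.mul_sum, add_mul, Finset.sum_add_distrib]
    congr 1
    rw [Finset.sum_comm]
    refine Finset.sum_congr rfl fun a _ => Finset.sum_congr rfl fun b _ => ?_
    ring
  have h6 : ∑ a, pd k (iv g i a) x * ∑ b, g x a b * iv g b j x = pd k (iv g i j) x := by
    simp only [mul_iv hg hx]
    simp
  have h7 : ∑ b, ∑ a, iv g i a x * pd k (fun y => g y a b) x * iv g b j x =
      (∑ l, christoffel g i k l x * iv g l j x) + ∑ l, christoffel g j k l x * iv g i l x := by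
    simp only [pd_g hU hg hx]
    have e1 : ∀ a b : Fin 3, iv g i a x * (∑ d, g x b d * christoffel g d k a x +
        ∑ d, g x a d * christoffel g d k b x) * iv g b j x =
        ∑ d, iv g i a x * christoffel g d k a x * (iv g j b x * g x b d) +
          ∑ d, (iv g i a x * g x a d) * (christoffel g d k b x * iv g b j x) := by
      intro a b
      rw [symm_iv hg hx j b, mul_add, add_mul, Finset.mul_sum, Finset.mul_sum, Finset.sum_mul,
        Finset.sum_mul]
      congr 1
      · refine Finset.sum_congr rfl fun d _ => ?_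
        ring
      · refine Finset.sum_congr rfl fun d _ => ?_
        ring
    simp only [e1, Finset.sum_add_distrib]
    rw [add_comm]
    congr 1
    · have e2 : ∑ b, ∑ a, ∑ d, (iv g i a x * g x a d) *
          (christoffel g d k b x * iv g b j x) =
          ∑ b, ∑ d, (∑ a, iv g i a x * g x a d) * (christoffel g d k b x * iv g b j x) := by
        refine Finset.sum_congr rfl fun b _ => ?_
        rw [Finset.sum_comm]
        refine Finset.sum_congr rfl fun d _ => ?_
        rw [Finset.sum_mul]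
      rw [e2]
      simp only [iv_mul hg hx]
      simp
    · have e2 : ∑ b, ∑ a, ∑ d, iv g i a x * christoffel g d k a x * (iv g j b x * g x b d) =
          ∑ a, ∑ d, iv g i a x * christoffel g d k a x * (∑ b, iv g j b x * g x b d) := by
        rw [Finset.sum_comm]
        refine Finset.sum_congr rfl fun a _ => ?_
        rw [Finset.sum_comm]
        refine Finset.sum_congr rfl fun d _ => ?_
        rw [Finset.mul_sum]
      rw [e2]
      simp only [iv_mul hg hx]
      simp only [mul_ite, mul_one, mul_zero, Finset.sum_ite_eq, Finset.mem_univ, if_true]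
      refine Finset.sum_congr rfl fun a _ => ?_
      ring
  rw [h5, h6, h7] at h4
  linarith

/-- The derivative of the determinant. -/
theorem pd_det {x : E3} (hx : x ∈ U) (k : Fin 3) :
    pd k (fun y => (g y).det) x = (g x).det * (2 * ∑ l, christoffel g l l k x) := by
  have hd : ∀ i j, DifferentiableAt ℝ (fun y => g y i j) x := fun i j => df (cd_g hU hg hx i j)
  have h1 : pd k (fun y => (g y).det) x =
      ∑ i, ∑ j, (g x).adjugate j i * pd k (fun y => g y i j) x := by
    simp only [Matrix.det_fin_three]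
    have t : ∀ a b c d e f : Fin 3, HP k (fun y => g y a b * g y c d * g y e f)
        (g x a b * g x c d * pd k (fun y => g y e f) x +
          g x e f * (g x a b * pd k (fun y => g y c d) x + g x c d * pd k (fun y => g y a b) x))
          x := fun a b c d e f =>
      ((HP.of_diff (hd a b)).mul (HP.of_diff (hd c d))).mul (HP.of_diff (hd e f))
    have t2 := ((((((t 0 0 1 1 2 2).sub (t 0 0 1 2 2 1)).sub (t 0 1 1 0 2 2)).add
      (t 0 1 1 2 2 0)).add (t 0 2 1 0 2 1)).sub (t 0 2 1 1 2 0)).val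
    rw [t2]
    clear t2 t
    simp only [Matrix.adjugate_fin_three, Fin.sum_univ_three]
    simp only [Matrix.of_apply, Matrix.cons_val', Matrix.cons_val_zero, Matrix.cons_val_one,
      Matrix.cons_val, Matrix.cons_val_fin_one]
    ring
  have h2 : ∀ i j, (g x).adjugate j i = (g x).det * iv g j i x := by
    intro i j
    unfold iv
    rw [Matrix.inv_def, Ring.inverse_eq_inv', Matrix.smul_apply, smul_eq_mul,
      mul_inv_cancel_left₀ (det_pos hg hx).ne']
  rw [h1]
  simp only [h2, pd_g hU hg hx]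
  have h3 : ∀ i j : Fin 3, (g x).det * iv g j i x * (∑ d, g x j d * christoffel g d k i x +
      ∑ d, g x i d * christoffel g d k j x) =
      (g x).det * (∑ d, (iv g i j x * g x j d) * christoffel g d k i x) +
        (g x).det * ∑ d, (iv g j i x * g x i d) * christoffel g d k j x := by
    intro i j
    rw [symm_iv hg hx i j, mul_add]
    congr 1
    · rw [mul_assoc, Finset.mul_sum]
      congr 1
      refine Finset.sum_congr rfl fun d _ => ?_
      ring
    · rw [mul_assoc, Finset.mul_sum]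
      congr 1
      refine Finset.sum_congr rfl fun d _ => ?_
      ring
  simp only [h3, Finset.sum_add_distrib]
  have h4 : ∑ i, ∑ j, (g x).det * ∑ d, (iv g i j x * g x j d) * christoffel g d k i x =
      (g x).det * ∑ l, christoffel g l l k x := by
    simp only [← Finset.mul_sum]
    congr 1
    refine Finset.sum_congr rfl fun i _ => ?_
    rw [Finset.sum_comm]
    simp only [← Finset.sum_mul, iv_mul hg hx]
    simp only [ite_mul, one_mul, zero_mul, Finset.sum_ite_eq, Finset.mem_univ, if_true]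
    exact symm_chr hU hg hx i k i
  have h5 : ∑ i, ∑ j, (g x).det * ∑ d, (iv g j i x * g x i d) * christoffel g d k j x =
      (g x).det * ∑ l, christoffel g l l k x := by
    rw [Finset.sum_comm]
    exact h4
  rw [h4, h5]
  ring

/-- The derivative of the volume density. -/
theorem pd_vol {x : E3} (hx : x ∈ U) (k : Fin 3) :
    pd k (volDen g) x = volDen g x * ∑ l, christoffel g l l k x := by
  have hp := det_pos hg hx
  have h1 : HasFDerivAt (fun y => Real.sqrt ((g y).det))
      ((1 / (2 * Real.sqrt (g x).det)) • fderiv ℝ (fun y => (g y).det) x) x :=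
    (df (cd_det hU hg hx)).hasFDerivAt.sqrt hp.ne'
  have h2 : pd k (volDen g) x = 1 / (2 * Real.sqrt (g x).det) *
      pd k (fun y => (g y).det) x := by
    unfold pd volDen
    rw [h1.fderiv]
    rfl
  rw [h2, pd_det hU hg hx]
  unfold volDen
  have h3 : Real.sqrt (g x).det ≠ 0 := (Real.sqrt_pos.mpr hp).ne'
  have h4 : (g x).det = Real.sqrt (g x).det * Real.sqrt (g x).det :=
    (Real.mul_self_sqrt hp.le).symm
  field_simp
  rw [Real.sq_sqrt hp.le]

theorem diff_vol {x : E3} (hx : x ∈ U) : DifferentiableAt ℝ (volDen g) x :=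
  (df (cd_det hU hg hx)).sqrt (det_pos hg hx).ne'

/-- The divergence of a vector field. -/
theorem div_eq {x : E3} (hx : x ∈ U) (Y : Fin 3 → E3 → ℝ)
    (hY : ∀ a, DifferentiableAt ℝ (Y a) x) :
    ∑ i, pd i (fun y => volDen g y * ∑ a, iv g i a y * Y a y) x =
      volDen g x * ∑ i, ∑ a, iv g i a x * (pd i (Y a) x - ∑ l, christoffel g l i a x * Y l x) := by
  have hP : ∀ i j, DifferentiableAt ℝ (iv g i j) x := fun i j => df (cd_iv hU hg hx i j)
  have h1 : ∀ i, pd i (fun y => volDen g y * ∑ a, iv g i a y * Y a y) x =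
      volDen g x * (∑ a, (iv g i a x * pd i (Y a) x + Y a x * (- (∑ l, christoffel g i i l x *
        iv g l a x) - ∑ l, christoffel g a i l x * iv g i l x))) +
      (∑ a, iv g i a x * Y a x) * (volDen g x * ∑ l, christoffel g l l i x) := by
    intro i
    have h2 : ∀ a, HP i (iv g i a) (- (∑ l, christoffel g i i l x *
        iv g l a x) - ∑ l, christoffel g a i l x * iv g i l x) x := fun a =>
      ⟨hP i a, pd_iv hU hg hx i i a⟩
    exact ((⟨diff_vol hU hg hx, pd_vol hU hg hx i⟩ : HP i (volDen g) _ x).mul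
      (HP.sum fun a => (h2 a).mul (HP.of_diff (hY a)))).val
  simp only [h1]
  have s := symm_chr hU hg hx
  have s1 : ∀ k, christoffel g k 1 0 x = christoffel g k 0 1 x := fun k => s k 1 0
  have s2 : ∀ k, christoffel g k 2 0 x = christoffel g k 0 2 x := fun k => s k 2 0
  have s3 : ∀ k, christoffel g k 2 1 x = christoffel g k 1 2 x := fun k => s k 2 1
  simp only [Fin.sum_univ_three, s1, s2, s3]
  ring

/-- The derivative of the trace of a tensor field. -/
theorem hp_tr {x : E3} (hx : x ∈ U) (S : Fin 3 → Fin 3 → E3 → ℝ)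
    (hS : ∀ j k, DifferentiableAt ℝ (S j k) x) (i : Fin 3) :
    HP i (fun y => ∑ j, ∑ k, iv g j k y * S j k y)
      (∑ j, ∑ k, iv g j k x * (pd i (S j k) x - ∑ l, christoffel g l i j x * S l k x
        - ∑ l, christoffel g l i k x * S j l x)) x := by
  have h2 : ∀ j k, HP i (iv g j k) (- (∑ l, christoffel g j i l x *
        iv g l k x) - ∑ l, christoffel g k i l x * iv g j l x) x := fun j k =>
      ⟨df (cd_iv hU hg hx j k), pd_iv hU hg hx i j k⟩
  have h3 := HP.sum fun j => HP.sum fun k => (h2 j k).mul (HP.of_diff (hS j k))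
  refine ⟨h3.diff, h3.val.trans ?_⟩
  simp only [Fin.sum_univ_three]
  ring

/-- The derivative of a raised covector field. -/
theorem hp_up {x : E3} (hx : x ∈ U) (Y : Fin 3 → E3 → ℝ)
    (hY : ∀ a, DifferentiableAt ℝ (Y a) x) (i b : Fin 3) :
    HP i (fun y => ∑ c, iv g b c y * Y c y)
      (∑ c, iv g b c x * (pd i (Y c) x - ∑ l, christoffel g l i c x * Y l x)
        - ∑ l, christoffel g b i l x * ∑ c, iv g l c x * Y c x) x := by
  have h2 : ∀ j k, HP i (iv g j k) (- (∑ l, christoffel g j i l x *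
        iv g l k x) - ∑ l, christoffel g k i l x * iv g j l x) x := fun j k =>
      ⟨df (cd_iv hU hg hx j k), pd_iv hU hg hx i j k⟩
  have h3 := HP.sum fun c => (h2 b c).mul (HP.of_diff (hY c))
  refine ⟨h3.diff, h3.val.trans ?_⟩
  simp only [Fin.sum_univ_three]
  ring

/-- The second derivatives of the inverse metric. -/
theorem pd_pd_iv {x : E3} (hx : x ∈ U) (b i k a : Fin 3) :
    pd b (pd i (iv g k a)) x =
      (-1) * (∑ l, (christoffel g k i l x * (- (∑ m, christoffel g l b m x * iv g m a x)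
          - ∑ m, christoffel g a b m x * iv g l m x)
        + iv g l a x * pd b (christoffel g k i l) x)) -
      ∑ l, (christoffel g a i l x * (- (∑ m, christoffel g k b m x * iv g m l x)
          - ∑ m, christoffel g l b m x * iv g k m x)
        + iv g k l x * pd b (christoffel g a i l) x) := by
  have h1 : pd b (pd i (iv g k a)) x = pd b (fun y => (-1 : ℝ) *
      (∑ l, christoffel g k i l y * iv g l a y) - ∑ l, christoffel g a i l y * iv g k l y) x := by
    refine pd_congr ?_
    filter_upwards [hU.mem_nhds hx] with y hy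
    rw [pd_iv hU hg hy]
    ring
  have h2 : ∀ j k, HP b (iv g j k) (- (∑ l, christoffel g j b l x *
        iv g l k x) - ∑ l, christoffel g k b l x * iv g j l x) x := fun j k =>
      ⟨df (cd_iv hU hg hx j k), pd_iv hU hg hx b j k⟩
  have h3 : ∀ k i j, HP b (christoffel g k i j) (pd b (christoffel g k i j) x) x := fun k i j =>
    HP.of_diff (df (cd_chr hU hg hx k i j))
  have h4 : HP b (fun _ => (-1 : ℝ)) 0 x := ⟨differentiableAt_const _, pd_const _⟩
  have h5 := ((h4.mul (HP.sum fun l => (h3 k i l).mul (h2 l a))).sub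
    (HP.sum fun l => (h3 a i l).mul (h2 k l))).val
  rw [h1, h5]
  ring

end Metric

/-! ### Algebra -/

/-- The curvature tensor. -/
def Rm (Γ : Fin 3 → Fin 3 → Fin 3 → ℝ) (D : Fin 3 → Fin 3 → Fin 3 → Fin 3 → ℝ)
    (k m b i : Fin 3) : ℝ :=
  D b k i m - D i k b m + (∑ l, Γ k b l * Γ l i m) - ∑ l, Γ k i l * Γ l b m

theorem Rm_anti (Γ : Fin 3 → Fin 3 → Fin 3 → ℝ) (D : Fin 3 → Fin 3 → Fin 3 → Fin 3 → ℝ)
    (k m b i : Fin 3) : Rm Γ D k m b i = - Rm Γ D k m i b := by
  unfold Rm
  ring

theorem comm_alg (Γ : Fin 3 → Fin 3 → Fin 3 → ℝ) (D : Fin 3 → Fin 3 → Fin 3 → Fin 3 → ℝ)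
    (w1 : Fin 3 → ℝ) (w2 : Fin 3 → Fin 3 → ℝ) (w3 : Fin 3 → Fin 3 → Fin 3 → ℝ)
    (H : Fin 3 → Fin 3 → ℝ) (hΓ : ∀ k i j, Γ k i j = Γ k j i)
    (hD : ∀ l k i j, D l k i j = D l k j i)
    (hH : ∀ a b, H a b = w2 a b - ∑ k, Γ k a b * w1 k) (hHs : ∀ a b, H a b = H b a)
    (b i a : Fin 3) (h3 : w3 b i a = w3 i a b) :
    (w3 b i a - ∑ k, (Γ k i a * w2 b k + w1 k * D b k i a) - ∑ l, Γ l b i * H l a
        - ∑ l, Γ l b a * H i l)
      - (w3 i a b - ∑ k, (Γ k a b * w2 i k + w1 k * D i k a b) - ∑ l, Γ l i a * H l b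
        - ∑ l, Γ l i b * H a l) = - ∑ k, w1 k * Rm Γ D k a b i := by
  have e1 : ∑ l, Γ l b i * H l a = ∑ l, Γ l i b * H a l := by
    refine Finset.sum_congr rfl fun l _ => ?_
    rw [hΓ l b i, hHs l a]
  have e2 : ∑ l, Γ l i a * H l b = ∑ l, Γ l i a * (w2 b l - ∑ k, Γ k b l * w1 k) := by
    refine Finset.sum_congr rfl fun l _ => ?_
    rw [hHs l b, hH]
  have e3 : ∑ l, Γ l b a * H i l = ∑ l, Γ l b a * (w2 i l - ∑ k, Γ k i l * w1 k) := by
    refine Finset.sum_congr rfl fun l _ => ?_
    rw [hH i l]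
  have e4 : ∑ k, (Γ k a b * w2 i k + w1 k * D i k a b) =
      ∑ k, (Γ k b a * w2 i k + w1 k * D i k b a) := by
    refine Finset.sum_congr rfl fun k _ => ?_
    rw [hΓ k a b, hD i k a b]
  rw [h3, e1, e2, e3, e4]
  unfold Rm
  simp only [Fin.sum_univ_three]
  ring

theorem id_alg (P : Fin 3 → Fin 3 → ℝ) (Γ : Fin 3 → Fin 3 → Fin 3 → ℝ)
    (D : Fin 3 → Fin 3 → Fin 3 → Fin 3 → ℝ) (k a b i : Fin 3)
    (h : (-1) * (∑ l, (Γ k i l * (- (∑ m, Γ l b m * P m a) - ∑ m, Γ a b m * P l m)
        + P l a * D b k i l)) -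
      ∑ l, (Γ a i l * (- (∑ m, Γ k b m * P m l) - ∑ m, Γ l b m * P k m) + P k l * D b a i l) =
      (-1) * (∑ l, (Γ k b l * (- (∑ m, Γ l i m * P m a) - ∑ m, Γ a i m * P l m)
        + P l a * D i k b l)) -
      ∑ l, (Γ a b l * (- (∑ m, Γ k i m * P m l) - ∑ m, Γ l i m * P k m) + P k l * D i a b l)) :
    ∑ m, (P m a * Rm Γ D k m b i + P k m * Rm Γ D a m b i) = 0 := by
  unfold Rm
  simp only [Fin.sum_univ_three] at h ⊢
  linear_combination (-1) * h

theorem ric_alg (P : Fin 3 → Fin 3 → ℝ) (Γ : Fin 3 → Fin 3 → Fin 3 → ℝ)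
    (D : Fin 3 → Fin 3 → Fin 3 → Fin 3 → ℝ) (hΓ : ∀ k i j, Γ k i j = Γ k j i)
    (hD : ∀ l k i j, D l k i j = D l k j i)
    (h : ∀ k a b i, ∑ m, (P m a * Rm Γ D k m b i + P k m * Rm Γ D a m b i) = 0) (k b : Fin 3) :
    ∑ i, ∑ m, P m i * Rm Γ D k m b i = ∑ m, P k m * ∑ l, (D l l m b - D b l m l +
      ∑ n, (Γ l l n * Γ n m b - Γ l b n * Γ n m l)) := by
  have h1 : ∀ m, ∑ l, (D l l m b - D b l m l +
      ∑ n, (Γ l l n * Γ n m b - Γ l b n * Γ n m l)) = ∑ l, Rm Γ D l m l b := by
    intro m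
    refine Finset.sum_congr rfl fun l _ => ?_
    unfold Rm
    rw [hD l l m b, hD b l m l, Finset.sum_sub_distrib]
    have e1 : ∑ n, Γ l l n * Γ n m b = ∑ n, Γ l l n * Γ n b m := by
      refine Finset.sum_congr rfl fun n _ => ?_
      rw [hΓ n m b]
    have e2 : ∑ n, Γ l b n * Γ n m l = ∑ n, Γ l b n * Γ n l m := by
      refine Finset.sum_congr rfl fun n _ => ?_
      rw [hΓ n m l]
    rw [e1, e2]
    ring
  simp only [h1]
  have h2 : ∑ i, ∑ m, (P m i * Rm Γ D k m b i + P k m * Rm Γ D i m b i) = 0 := by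
    simp only [h, Finset.sum_const_zero]
  simp only [Finset.sum_add_distrib] at h2
  have h3 : ∑ i, ∑ m, P k m * Rm Γ D i m b i = - ∑ m, P k m * ∑ l, Rm Γ D l m l b := by
    rw [Finset.sum_comm, ← Finset.sum_neg_distrib]
    refine Finset.sum_congr rfl fun m _ => ?_
    rw [Finset.mul_sum, ← Finset.sum_neg_distrib]
    refine Finset.sum_congr rfl fun l _ => ?_
    rw [Rm_anti Γ D l m b l]
    ring
  rw [h3] at h2
  linarith

theorem main_alg1 (P : Fin 3 → Fin 3 → ℝ) (Γ : Fin 3 → Fin 3 → Fin 3 → ℝ)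
    (w1 W : Fin 3 → ℝ) (w2 H : Fin 3 → Fin 3 → ℝ) (DH : Fin 3 → Fin 3 → Fin 3 → ℝ)
    (T : ℝ) (dT : Fin 3 → ℝ) (hH : ∀ a b, H a b = w2 a b - ∑ k, Γ k a b * w1 k) :
    ∑ i, ∑ a, P i a * ((T * w2 i a + w1 a * dT i)
      - (∑ b, (H a b * (∑ c, P b c * (w2 i c - ∑ l, Γ l i c * w1 l) - ∑ l, Γ b i l * W l)
        + W b * DH i a b)) - ∑ l, Γ l i a * (T * w1 l - ∑ b, H l b * W b)) =
      ∑ i, ∑ a, P i a * w1 a * dT i + T * ∑ i, ∑ a, P i a * H i a
      - ∑ i, ∑ a, ∑ b, P i a * H a b * (∑ c, P b c * H i c)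
      - ∑ i, ∑ a, ∑ b, P i a * W b * (DH i a b - ∑ l, Γ l i a * H l b
        - ∑ l, Γ l i b * H a l) := by
  have hw : ∀ a b, w2 a b = H a b + ∑ k, Γ k a b * w1 k := by
    intro a b
    rw [hH]
    ring
  simp only [hw]
  simp only [Fin.sum_univ_three]
  ring

theorem main_alg2 (P : Fin 3 → Fin 3 → ℝ) (w1 W : Fin 3 → ℝ)
    (ND : Fin 3 → Fin 3 → Fin 3 → ℝ) (R : Fin 3 → Fin 3 → Fin 3 → Fin 3 → ℝ)
    (Ric : Fin 3 → Fin 3 → ℝ) (hP : ∀ i j, P i j = P j i) (hW : ∀ b, W b = ∑ c, P b c * w1 c)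
    (hc : ∀ b i a, ND b i a - ND i a b = - ∑ k, w1 k * R k a b i)
    (hR : ∀ k b, ∑ i, ∑ m, P m i * R k m b i = ∑ m, P k m * Ric m b) :
    ∑ i, ∑ a, P i a * w1 a * (∑ j, ∑ k, P j k * ND i j k)
      - ∑ i, ∑ a, ∑ b, P i a * W b * ND i a b = - ∑ m, ∑ b, Ric m b * W m * W b := by
  have e1 : ∑ i, ∑ a, P i a * w1 a * (∑ j, ∑ k, P j k * ND i j k) =
      ∑ b, W b * ∑ i, ∑ a, P i a * ND b i a := by
    refine Finset.sum_congr rfl fun i _ => ?_
    rw [← Finset.sum_mul, hW]
  have e2 : ∑ b, W b * (∑ i, ∑ a, P i a * ND b i a) - ∑ i, ∑ a, ∑ b, P i a * W b * ND i a b =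
      ∑ b, W b * ∑ i, ∑ a, P i a * (ND b i a - ND i a b) := by
    simp only [Fin.sum_univ_three]
    ring
  rw [e1, e2]
  simp only [hc]
  have e4 : ∀ b, ∑ i, ∑ a, P i a * (- ∑ k, w1 k * R k a b i) =
      - ∑ k, w1 k * ∑ i, ∑ m, P m i * R k m b i := by
    intro b
    have : ∑ i, ∑ a, P i a * (- ∑ k, w1 k * R k a b i) =
        ∑ i, ∑ a, P a i * (- ∑ k, w1 k * R k a b i) := by
      refine Finset.sum_congr rfl fun i _ => Finset.sum_congr rfl fun a _ => ?_
      rw [hP i a]
    rw [this]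
    simp only [Fin.sum_univ_three]
    ring
  simp only [e4, hR]
  have e5 : ∀ b, ∑ k, w1 k * ∑ m, P k m * Ric m b = ∑ m, W m * Ric m b := by
    intro b
    have : ∑ k, w1 k * ∑ m, P k m * Ric m b = ∑ k, w1 k * ∑ m, P m k * Ric m b := by
      refine Finset.sum_congr rfl fun k _ => ?_
      congr 1
      refine Finset.sum_congr rfl fun m _ => ?_
      rw [hP k m]
    rw [this]
    simp only [hW, Fin.sum_univ_three]
    ring
  simp only [e5]
  simp only [Fin.sum_univ_three]
  ring

end MBO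

open MBO

/-- **(BO)** The contracted Bochner formula. -/
theorem BO : Stmt_BO := by
  intro U g w hU hg hw x hx
  have hwx : ∀ y ∈ U, ContDiffAt ℝ ∞ w y := fun y hy => hw.contDiffAt (hU.mem_nhds hy)
  have hw1 : ∀ y ∈ U, ∀ a, ContDiffAt ℝ ∞ (pd a w) y := fun y hy a => cd_pd (hwx y hy) a
  have hw2 : ∀ y ∈ U, ∀ a b, ContDiffAt ℝ ∞ (pd a (pd b w)) y := fun y hy a b =>
    cd_pd (hw1 y hy b) a
  let H : Fin 3 → Fin 3 → E3 → ℝ := fun a b y =>
    pd a (pd b w) y - ∑ k, christoffel g k a b y * pd k w y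
  let T : E3 → ℝ := fun y => ∑ j, ∑ k, iv g j k y * H j k y
  let W : Fin 3 → E3 → ℝ := fun b y => ∑ c, iv g b c y * pd c w y
  let Y : Fin 3 → E3 → ℝ := fun a y => T y * pd a w y - ∑ b, H a b y * W b y
  change ∑ i, pd i (fun y => volDen g y * ∑ a, iv g i a y * Y a y) x =
    volDen g x * (T x ^ 2 - (∑ i, ∑ j, ∑ k, ∑ l, iv g i k x * iv g j l x * H i j x * H k l x)
      - ∑ i, ∑ j, ricci g i j x * W i x * W j x)
  -- derivatives
  have dH : ∀ i a b, HP i (H a b) (pd i (pd a (pd b w)) x -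
      ∑ k, (christoffel g k a b x * pd i (pd k w) x + pd k w x * pd i (christoffel g k a b) x))
      x := fun i a b =>
    (HP.of_diff (df (hw2 x hx a b))).sub (HP.sum fun k =>
      (HP.of_diff (df (cd_chr hU hg hx k a b))).mul (HP.of_diff (df (hw1 x hx k))))
  have dT : ∀ i, HP i T _ x := fun i => hp_tr hU hg hx H (fun j k => (dH i j k).diff) i
  have dW : ∀ i b, HP i (W b) _ x := fun i b =>
    hp_up hU hg hx (fun c => pd c w) (fun c => df (hw1 x hx c)) i b
  have dY := fun i a => ((dT i).mul (HP.of_diff (df (hw1 x hx a)))).sub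
    (HP.sum fun b => (HP.of_diff (dH i a b).diff).mul (dW i b))
  have hdiv := div_eq hU hg hx Y (fun a => (dY 0 a).diff)
  rw [hdiv]
  have e0 : ∀ i a, pd i (Y a) x = _ := fun i a => (dY i a).val
  simp only [e0]
  congr 1
  have hs2 : ∀ y ∈ U, ∀ a b, pd a (pd b w) y = pd b (pd a w) y := fun y hy a b =>
    MBO.pd_comm (hwx y hy) a b
  have hH : ∀ a b, H a b x = pd a (pd b w) x - ∑ k, christoffel g k a b x * pd k w x :=
    fun _ _ => rfl
  have hHs : ∀ a b, H a b x = H b a x := by
    intro a b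
    rw [hH, hH, hs2 x hx a b]
    congr 1
    refine Finset.sum_congr rfl fun k _ => ?_
    rw [symm_chr hU hg hx k a b]
  have key := main_alg1 (fun i j => iv g i j x) (fun k i j => christoffel g k i j x)
    (fun a => pd a w x) (fun a => W a x) (fun a b => pd a (pd b w) x) (fun a b => H a b x)
    (fun i a b => pd i (H a b) x) (T x)
    (fun i => ∑ j, ∑ k, iv g j k x * (pd i (H j k) x - ∑ l, christoffel g l i j x * H l k x
        - ∑ l, christoffel g l i k x * H j l x)) hH
  refine Eq.trans ?_ (key.trans ?_)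
  · rfl
  -- third derivatives
  have h3 : ∀ b i a, pd b (pd i (pd a w)) x = pd i (pd a (pd b w)) x := by
    intro b i a
    rw [MBO.pd_comm (hw1 x hx a) b i]
    refine pd_congr ?_
    filter_upwards [hU.mem_nhds hx] with y hy
    exact hs2 y hy b a
  have hcomm : ∀ b i a, (pd b (H i a) x - ∑ l, christoffel g l b i x * H l a x
        - ∑ l, christoffel g l b a x * H i l x)
      - (pd i (H a b) x - ∑ l, christoffel g l i a x * H l b x
        - ∑ l, christoffel g l i b x * H a l x) =
      - ∑ k, pd k w x * Rm (fun k i j => christoffel g k i j x)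
        (fun l k i j => pd l (christoffel g k i j) x) k a b i := by
    intro b i a
    rw [(dH b i a).val, (dH i a b).val]
    exact comm_alg (fun k i j => christoffel g k i j x)
      (fun l k i j => pd l (christoffel g k i j) x) (fun a => pd a w x)
      (fun a b => pd a (pd b w) x) (fun i j k => pd i (pd j (pd k w)) x) (fun a b => H a b x)
      (symm_chr hU hg hx) (symm_pd_chr hU hg hx) hH hHs b i a (h3 b i a)
  have hid : ∀ k a b i, ∑ m, (iv g m a x * Rm (fun k i j => christoffel g k i j x)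
        (fun l k i j => pd l (christoffel g k i j) x) k m b i +
      iv g k m x * Rm (fun k i j => christoffel g k i j x)
        (fun l k i j => pd l (christoffel g k i j) x) a m b i) = 0 := by
    intro k a b i
    apply id_alg (fun i j => iv g i j x) (fun k i j => christoffel g k i j x)
      (fun l k i j => pd l (christoffel g k i j) x) k a b i
    have h4 := MBO.pd_comm (cd_iv hU hg hx k a) b i
    rw [pd_pd_iv hU hg hx, pd_pd_iv hU hg hx] at h4
    exact h4
  have hric := ric_alg (fun i j => iv g i j x) (fun k i j => christoffel g k i j x)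
    (fun l k i j => pd l (christoffel g k i j) x) (symm_chr hU hg hx) (symm_pd_chr hU hg hx) hid
  have key2 := main_alg2 (fun i j => iv g i j x) (fun a => pd a w x) (fun a => W a x)
    (fun i a b => pd i (H a b) x - ∑ l, christoffel g l i a x * H l b x
        - ∑ l, christoffel g l i b x * H a l x)
    (Rm (fun k i j => christoffel g k i j x) (fun l k i j => pd l (christoffel g k i j) x))
    (fun i j => ricci g i j x) (symm_iv hg hx) (fun _ => rfl) hcomm hric
  have hdd : ∑ i, ∑ a, ∑ b, iv g i a x * H a b x * (∑ c, iv g b c x * H i c x) =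
      ∑ i, ∑ j, ∑ k, ∑ l, iv g i k x * iv g j l x * H i j x * H k l x := by
    have : ∑ i, ∑ a, ∑ b, iv g i a x * H a b x * (∑ c, iv g b c x * H i c x) =
        ∑ i, ∑ a, ∑ b, iv g a i x * H a b x * (∑ c, iv g b c x * H i c x) := by
      refine Finset.sum_congr rfl fun i _ => Finset.sum_congr rfl fun a _ => ?_
      rw [symm_iv hg hx i a]
    rw [this]
    generalize hp : (fun i j => iv g i j x) = P
    generalize hh : (fun i j => H i j x) = K
    have p1 : ∀ i j, iv g i j x = P i j := fun i j => congrFun (congrFun hp i) j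
    have p2 : ∀ i j, H i j x = K i j := fun i j => congrFun (congrFun hh i) j
    simp only [p1, p2]
    simp only [Fin.sum_univ_three]
    ring
  have hT : ∑ i, ∑ a, iv g i a x * H i a x = T x := rfl
  rw [hdd, hT]
  linarith [key2]

end Pool.Agent.PFlow
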