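import Pool.Agent.PFlow.StmtsM

/-!
# The residual as a function of the gradient and the Hessian
-/

set_option autoImplicit false

namespace Pool.Agent.PFlow

open Pool.Agent.PenroseSph

namespace MCHD

theorem vn_nonneg (p : Cov) : 0 ≤ vn p := Real.sqrt_nonneg _

theorem vsq_nonneg (p : Cov) : 0 ≤ vsq p := Finset.sum_nonneg fun _ _ => sq_nonneg _

theorem vn_sq (p : Cov) : vn p ^ 2 = vsq p := Real.sq_sqrt (vsq_nonneg p)

theorem abs_le_vn (p : Cov) (i : Fin 3) : |p i| ≤ vn p := by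
  unfold vn
  apply Real.abs_le_sqrt
  exact Finset.single_le_sum (f := fun i => p i ^ 2) (fun i _ => sq_nonneg _) (Finset.mem_univ i)

theorem vn_pos (p : Cov) (hp : p ≠ 0) : 0 < vn p := by
  obtain ⟨i, hi⟩ := Function.ne_iff.mp hp
  have h1 : 0 < |p i| := abs_pos.mpr hi
  exact lt_of_lt_of_le h1 (abs_le_vn p i)

theorem abs_le_msq (M : Bil) (i j : Fin 3) : |M i j| ≤ Real.sqrt (msq M) := by
  apply Real.abs_le_sqrt
  calc M i j ^ 2 ≤ ∑ j, M i j ^ 2 :=
        Finset.single_le_sum (f := fun j => M i j ^ 2) (fun i _ => sq_nonneg _)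
          (Finset.mem_univ j)
    _ ≤ ∑ i, ∑ j, M i j ^ 2 :=
        Finset.single_le_sum (f := fun i => ∑ j, M i j ^ 2)
          (fun i _ => Finset.sum_nonneg fun j _ => sq_nonneg _) (Finset.mem_univ i)

theorem sum3 (f : Fin 3 → ℝ) (b : ℝ) (h : ∀ i, |f i| ≤ b) : |∑ i, f i| ≤ 3 * b := by
  calc |∑ i, f i| ≤ ∑ i, |f i| := Finset.abs_sum_le_sum_abs _ _
    _ ≤ ∑ _i : Fin 3, b := Finset.sum_le_sum fun i _ => h i
    _ = 3 * b := by simp

theorem sum9 (f : Fin 3 → Fin 3 → ℝ) (b : ℝ) (h : ∀ i j, |f i j| ≤ b) :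
    |∑ i, ∑ j, f i j| ≤ 9 * b := by
  have := sum3 (fun i => ∑ j, f i j) (3 * b) (fun i => sum3 _ _ (h i))
  linarith

theorem mul_bd {a b A B : ℝ} (ha : |a| ≤ A) (hb : |b| ≤ B) : |a * b| ≤ A * B := by
  rw [abs_mul]
  exact mul_le_mul ha hb (abs_nonneg _) (le_trans (abs_nonneg _) ha)

/-- The bounds at a point. -/
structure Bd (C : ℝ) (g h : TensorField) (x : E3) : Prop where
  one : 1 ≤ C
  lo : ∀ p, vsq p / C ≤ ev (g x)⁻¹ p p
  hi : ∀ p, ev (g x)⁻¹ p p ≤ C * vsq p
  ch : ∀ k i j, |christoffel g k i j x| ≤ C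
  hh : ∀ i j, |h x i j| ≤ C
  inv : ∀ i j, |(g x)⁻¹ i j| ≤ C

/-- The lower order part of the Hessian. -/
noncomputable def gam (g : TensorField) (x : E3) (p : Cov) : Bil :=
  Matrix.of fun i j => ∑ k, christoffel g k i j x * p k

theorem cHess_eq (g : TensorField) (x : E3) (p : Cov) (M : Bil) :
    cHess g x p M = M - gam g x p := by
  ext i j
  simp [cHess, gam]

theorem gam_sub (g : TensorField) (x : E3) (p q : Cov) :
    gam g x (p - q) = gam g x p - gam g x q := by
  ext i j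
  simp [gam, mul_sub, Finset.sum_sub_distrib]

theorem ev_sub (A B : Bil) (v w : Cov) : ev (A - B) v w = ev A v w - ev B v w := by
  simp [ev, sub_mul, Finset.sum_sub_distrib]

theorem trg_sub (g : TensorField) (x : E3) (A B : Bil) :
    trg g x (A - B) = trg g x A - trg g x B := by
  simp [trg, mul_sub, Finset.sum_sub_distrib]

theorem bnn_sub (g : TensorField) (x : E3) (p : Cov) (A B : Bil) :
    bnn g x p (A - B) = bnn g x p A - bnn g x p B := ev_sub _ _ _ _

theorem beps_sub (ε : ℝ) (g : TensorField) (x : E3) (p : Cov) (A B : Bil) :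
    beps ε g x p (A - B) = beps ε g x p A - beps ε g x p B := by
  simp only [beps, trg_sub, bnn_sub]
  ring

theorem ev_bd (B : Bil) (v w : Cov) (β a b : ℝ) (hB : ∀ i j, |B i j| ≤ β) (hv : ∀ i, |v i| ≤ a)
    (hw : ∀ i, |w i| ≤ b) : |ev B v w| ≤ 9 * (β * a * b) :=
  sum9 _ _ fun i j => mul_bd (mul_bd (hB i j) (hv i)) (hw j)

theorem ev_diff (B : Bil) (v w : Cov) (β a d : ℝ) (hB : ∀ i j, |B i j| ≤ β)
    (hv : ∀ i, |v i| ≤ a) (hw : ∀ i, |w i| ≤ a) (hd : ∀ i, |v i - w i| ≤ d) :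
    |ev B v v - ev B w w| ≤ 18 * (β * a * d) := by
  have h1 : ev B v v - ev B w w = ev B (v - w) v + ev B w (v - w) := by
    simp only [ev, ← Finset.sum_sub_distrib, ← Finset.sum_add_distrib, Pi.sub_apply]
    refine Finset.sum_congr rfl fun i _ => Finset.sum_congr rfl fun j _ => ?_
    ring
  rw [h1]
  have h2 := ev_bd B (v - w) v β d a hB (fun i => hd i) hv
  have h3 := ev_bd B w (v - w) β a d hB hw (fun i => hd i)
  have h4 := abs_add_le (ev B (v - w) v) (ev B w (v - w))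
  have h5 : β * d * a = β * a * d := by ring
  rw [h5] at h2
  linarith

section Point

variable {C ε : ℝ} {g h : TensorField} {x : E3}

theorem len_nonneg (g : TensorField) (x : E3) (p : Cov) : 0 ≤ len g x p := Real.sqrt_nonneg _

theorem len_sq (B : Bd C g h x) (p : Cov) : len g x p ^ 2 = ev (g x)⁻¹ p p := by
  apply Real.sq_sqrt
  have h1 := B.lo p
  have h2 : 0 ≤ vsq p / C := div_nonneg (vsq_nonneg p) (by linarith [B.one])
  linarith

theorem len_le (B : Bd C g h x) (p : Cov) : len g x p ≤ C * vn p := by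
  have hC := B.one
  have hv := vn_nonneg p
  have h0 : 0 ≤ C * vn p := by positivity
  refine (pow_le_pow_iff_left₀ (len_nonneg g x p) h0 two_ne_zero).mp ?_
  rw [len_sq B]
  have h1 := B.hi p
  rw [← vn_sq] at h1
  have h2 : 0 ≤ C * (C - 1) * vn p ^ 2 := by
    have : 0 ≤ C - 1 := by linarith
    positivity
  nlinarith

theorem vn_le (B : Bd C g h x) (p : Cov) : vn p ≤ C * len g x p := by
  have hC := B.one
  have hC0 : 0 < C := by linarith
  have hl := len_nonneg g x p
  have h0 : 0 ≤ C * len g x p := by positivity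
  refine (pow_le_pow_iff_left₀ (vn_nonneg p) h0 two_ne_zero).mp ?_
  have h1 := B.lo p
  rw [← len_sq B, ← vn_sq, div_le_iff₀ hC0] at h1
  have h2 : 0 ≤ C * (C - 1) * len g x p ^ 2 := by
    have : 0 ≤ C - 1 := by linarith
    positivity
  nlinarith

theorem len_pos (B : Bd C g h x) (p : Cov) (hp : p ≠ 0) : 0 < len g x p := by
  have h1 := vn_le B p
  have h2 := vn_pos p hp
  have hC := B.one
  by_contra h3
  have h4 : len g x p ≤ 0 := not_lt.mp h3
  have h5 : C * len g x p ≤ 0 := mul_nonpos_of_nonneg_of_nonpos (by linarith) h4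
  linarith

theorem raise_bd (B : Bd C g h x) (p : Cov) (i : Fin 3) : |raise g x p i| ≤ 3 * (C * vn p) :=
  sum3 _ _ fun j => mul_bd (B.inv i j) (abs_le_vn p j)

theorem raise_sub (g : TensorField) (x : E3) (p q : Cov) (i : Fin 3) :
    raise g x (p - q) i = raise g x p i - raise g x q i := by
  simp [raise, mul_sub, Finset.sum_sub_distrib]

theorem nrm_bd (B : Bd C g h x) (p : Cov) (i : Fin 3) : |nrm g x p i| ≤ 3 * C ^ 2 := by
  have hC := B.one
  have hC0 : 0 < C := by linarith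
  by_cases hp : p = 0
  · subst hp
    have : nrm g x 0 i = 0 := by simp [nrm, raise]
    rw [this, abs_zero]
    positivity
  · have hl := len_pos B p hp
    unfold nrm
    rw [abs_div, abs_of_pos hl, div_le_iff₀ hl]
    have h1 := raise_bd B p i
    have h2 := vn_le B p
    have h3 : C * vn p ≤ C * (C * len g x p) := mul_le_mul_of_nonneg_left h2 hC0.le
    nlinarith

theorem len_diff (B : Bd C g h x) (p q : Cov) :
    |len g x q - len g x p| ≤ 9 * C ^ 2 * vn (q - p) := by
  have hC := B.one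
  have hC0 : 0 < C := by linarith
  have hp := len_nonneg g x p
  have hq := len_nonneg g x q
  have hd := vn_nonneg (q - p)
  have h1 : len g x q ^ 2 - len g x p ^ 2 = ev (g x)⁻¹ (q - p) q + ev (g x)⁻¹ p (q - p) := by
    rw [len_sq B, len_sq B]
    simp only [ev, ← Finset.sum_sub_distrib, ← Finset.sum_add_distrib, Pi.sub_apply]
    refine Finset.sum_congr rfl fun i _ => Finset.sum_congr rfl fun j _ => ?_
    ring
  have h2 := ev_bd (g x)⁻¹ (q - p) q C (vn (q - p)) (vn q) B.inv (abs_le_vn _) (abs_le_vn _)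
  have h3 := ev_bd (g x)⁻¹ p (q - p) C (vn p) (vn (q - p)) B.inv (abs_le_vn _) (abs_le_vn _)
  have h4 := abs_add_le (ev (g x)⁻¹ (q - p) q) (ev (g x)⁻¹ p (q - p))
  rw [← h1] at h4
  have h5 := vn_le B p
  have h6 := vn_le B q
  rcases eq_or_lt_of_le (add_nonneg hp hq) with h0 | h0
  · have e1 : len g x p = 0 := by linarith
    have e2 : len g x q = 0 := by linarith
    rw [e1, e2, sub_zero, abs_zero]
    positivity
  · have h7 : |len g x q - len g x p| * (len g x p + len g x q)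
        ≤ 9 * C ^ 2 * vn (q - p) * (len g x p + len g x q) := by
      have h8 : |len g x q - len g x p| * (len g x p + len g x q)
          = |len g x q ^ 2 - len g x p ^ 2| := by
        have e3 : len g x q ^ 2 - len g x p ^ 2
            = (len g x q - len g x p) * (len g x p + len g x q) := by ring
        rw [e3, abs_mul, abs_of_pos h0]
      rw [h8]
      have h9 : C * vn (q - p) * vn q ≤ C * vn (q - p) * (C * len g x q) :=
        mul_le_mul_of_nonneg_left h6 (by positivity)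
      have h10 : C * vn (q - p) * vn p ≤ C * vn (q - p) * (C * len g x p) :=
        mul_le_mul_of_nonneg_left h5 (by positivity)
      have h11 : C * vn p * vn (q - p) = C * vn (q - p) * vn p := by ring
      rw [h11] at h3
      nlinarith
    exact le_of_mul_le_mul_right h7 h0

theorem len_sq_diff (B : Bd C g h x) (p q : Cov) :
    |len g x q ^ 2 - len g x p ^ 2| ≤ 9 * C * (vn (q - p) * (vn p + vn q)) := by
  have h1 : len g x q ^ 2 - len g x p ^ 2 = ev (g x)⁻¹ (q - p) q + ev (g x)⁻¹ p (q - p) := by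
    rw [len_sq B, len_sq B]
    simp only [ev, ← Finset.sum_sub_distrib, ← Finset.sum_add_distrib, Pi.sub_apply]
    refine Finset.sum_congr rfl fun i _ => Finset.sum_congr rfl fun j _ => ?_
    ring
  have h2 := ev_bd (g x)⁻¹ (q - p) q C (vn (q - p)) (vn q) B.inv (abs_le_vn _) (abs_le_vn _)
  have h3 := ev_bd (g x)⁻¹ p (q - p) C (vn p) (vn (q - p)) B.inv (abs_le_vn _) (abs_le_vn _)
  have h4 := abs_add_le (ev (g x)⁻¹ (q - p) q) (ev (g x)⁻¹ p (q - p))
  rw [← h1] at h4
  nlinarith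

/-- `|p| |ν' - ν| ≤ C |p' - p|`. -/
theorem nrm_diff (B : Bd C g h x) (p q : Cov) (hp : p ≠ 0) (hq : q ≠ 0) (i : Fin 3) :
    vn p * |nrm g x q i - nrm g x p i| ≤ 30 * C ^ 5 * vn (q - p) := by
  have hC := B.one
  have hC0 : 0 < C := by linarith
  have hlp := len_pos B p hp
  have hlq := len_pos B q hq
  have hd := vn_nonneg (q - p)
  have h1 : len g x p * (nrm g x q i - nrm g x p i)
      = raise g x (q - p) i + nrm g x q i * (len g x p - len g x q) := by
    rw [raise_sub]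
    unfold nrm
    field_simp
    ring
  have h2 := raise_bd B (q - p) i
  have h3 : |len g x p - len g x q| ≤ 9 * C ^ 2 * vn (q - p) := by
    rw [abs_sub_comm]
    exact len_diff B p q
  have h4 := mul_bd (nrm_bd B q i) h3
  have h5 := abs_add_le (raise g x (q - p) i) (nrm g x q i * (len g x p - len g x q))
  rw [← h1, abs_mul, abs_of_pos hlp] at h5
  have h6 : len g x p * |nrm g x q i - nrm g x p i|
      ≤ 30 * C ^ 4 * vn (q - p) := by
    have h7 : 3 * (C * vn (q - p)) ≤ 3 * (C ^ 4 * vn (q - p)) := by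
      have : C ≤ C ^ 4 := le_self_pow₀ hC (by norm_num)
      have := mul_le_mul_of_nonneg_right this hd
      linarith
    have h8 : 3 * C ^ 2 * (9 * C ^ 2 * vn (q - p)) = 27 * (C ^ 4 * vn (q - p)) := by ring
    rw [h8] at h4
    linarith
  calc vn p * |nrm g x q i - nrm g x p i|
      ≤ C * len g x p * |nrm g x q i - nrm g x p i| :=
        mul_le_mul_of_nonneg_right (vn_le B p) (abs_nonneg _)
    _ = C * (len g x p * |nrm g x q i - nrm g x p i|) := by ring
    _ ≤ C * (30 * C ^ 4 * vn (q - p)) := mul_le_mul_of_nonneg_left h6 hC0.le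
    _ = 30 * C ^ 5 * vn (q - p) := by ring

/-- `|ν' - ν| ≤ C min(1, |p' - p| / |p|)`. -/
theorem nrm_min (B : Bd C g h x) (p q : Cov) (hp : p ≠ 0) (hq : q ≠ 0) (i : Fin 3) :
    |nrm g x q i - nrm g x p i| ≤ 30 * C ^ 5 * min 1 (vn (q - p) / vn p) := by
  have hC := B.one
  have hC0 : 0 < C := by linarith
  have hv := vn_pos p hp
  rw [mul_min_of_nonneg _ _ (by positivity : (0 : ℝ) ≤ 30 * C ^ 5)]
  apply le_min
  · have h1 := nrm_bd B p i
    have h2 := nrm_bd B q i
    have h3 := abs_sub (nrm g x q i) (nrm g x p i)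
    have h4 : C ^ 2 ≤ C ^ 5 := pow_le_pow_right₀ hC (by norm_num)
    have h5 : 0 < C ^ 2 := by positivity
    linarith
  · rw [← mul_div_assoc, le_div_iff₀ hv, mul_comm]
    exact nrm_diff B p q hp hq i

theorem trg_bd (B : Bd C g h x) (A : Bil) (β : ℝ) (hA : ∀ i j, |A i j| ≤ β) :
    |trg g x A| ≤ 9 * (C * β) :=
  sum9 _ _ fun i j => mul_bd (B.inv i j) (hA i j)

theorem bnn_bd (B : Bd C g h x) (p : Cov) (A : Bil) (β : ℝ) (hA : ∀ i j, |A i j| ≤ β) :
    |bnn g x p A| ≤ 81 * (C ^ 4 * β) := by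
  have h1 := ev_bd A (nrm g x p) (nrm g x p) β (3 * C ^ 2) (3 * C ^ 2) hA (nrm_bd B p)
    (nrm_bd B p)
  calc |bnn g x p A| ≤ _ := h1
    _ = 81 * (C ^ 4 * β) := by ring

theorem beps_bd (B : Bd C g h x) (h0 : 0 < ε) (h1 : ε < 1) (p : Cov) (A : Bil) (β : ℝ)
    (hA : ∀ i j, |A i j| ≤ β) : |beps ε g x p A| ≤ 90 * (C ^ 4 * β) := by
  have hC := B.one
  have hβ : 0 ≤ β := le_trans (abs_nonneg _) (hA 0 0)
  have h2 := trg_bd B A β hA
  have h3 := bnn_bd B p A β hA
  have h4 : |(1 - ε) * bnn g x p A| ≤ 1 * (81 * (C ^ 4 * β)) :=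
    mul_bd (by rw [abs_le]; constructor <;> linarith) h3
  have h5 := abs_sub (trg g x A) ((1 - ε) * bnn g x p A)
  have h6 : C * β ≤ C ^ 4 * β :=
    mul_le_mul_of_nonneg_right (le_self_pow₀ hC (by norm_num)) hβ
  unfold beps
  linarith

/-- The weighted trace as a function of `p`. -/
theorem beps_diff (B : Bd C g h x) (h0 : 0 < ε) (h1 : ε < 1) (p q : Cov) (A : Bil) (β d : ℝ)
    (hA : ∀ i j, |A i j| ≤ β) (hd : ∀ i, |nrm g x q i - nrm g x p i| ≤ d) :
    |beps ε g x q A - beps ε g x p A| ≤ 54 * (C ^ 2 * β * d) := by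
  have h2 := ev_diff A (nrm g x q) (nrm g x p) β (3 * C ^ 2) d hA (nrm_bd B q) (nrm_bd B p) hd
  have h3 : beps ε g x q A - beps ε g x p A
      = (-(1 - ε)) * (ev A (nrm g x q) (nrm g x q) - ev A (nrm g x p) (nrm g x p)) := by
    simp only [beps, bnn]
    ring
  rw [h3]
  have h4 : |(-(1 - ε)) * (ev A (nrm g x q) (nrm g x q) - ev A (nrm g x p) (nrm g x p))|
      ≤ 1 * (18 * (β * (3 * C ^ 2) * d)) :=
    mul_bd (by rw [abs_le]; constructor <;> linarith) h2
  calc _ ≤ _ := h4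
    _ = 54 * (C ^ 2 * β * d) := by ring

theorem gam_bd (B : Bd C g h x) (p : Cov) (i j : Fin 3) : |gam g x p i j| ≤ 3 * (C * vn p) :=
  sum3 _ _ fun k => mul_bd (B.ch k i j) (abs_le_vn p k)

/-- Second part. -/
theorem part2 (B : Bd C g h x) (h0 : 0 < ε) (h1 : ε < 1) (p : Cov) (M M' : Bil) :
    |resid ε g h x p M - resid ε g h x p M'| ≤ 90 * C ^ 4 * Real.sqrt (msq (M - M')) := by
  have h2 := beps_bd B h0 h1 p (M - M') _ (abs_le_msq _)
  have h3 : resid ε g h x p M - resid ε g h x p M' = beps ε g x p (M - M') := by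
    simp only [resid, cHess_eq, beps_sub]
    ring
  rw [h3]
  linarith

theorem nrm_div (B : Bd C g h x) (p q : Cov) (hp : p ≠ 0) (hq : q ≠ 0) (i : Fin 3) :
    |nrm g x q i - nrm g x p i| ≤ 30 * C ^ 5 * vn (q - p) / vn p := by
  rw [le_div_iff₀ (vn_pos p hp), mul_comm]
  exact nrm_diff B p q hp hq i

/-- The term with the tensor `h`. -/
theorem part1h (B : Bd C g h x) (h0 : 0 < ε) (h1 : ε < 1) (p q : Cov) (hp : p ≠ 0)
    (hq : q ≠ 0) :
    |len g x q * beps ε g x q (h x) - len g x p * beps ε g x p (h x)|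
      ≤ 3000 * C ^ 9 * vn (q - p) := by
  have hC := B.one
  have hC0 : 0 < C := by linarith
  have hv := vn_pos p hp
  have hd := vn_nonneg (q - p)
  have h2 : len g x q * beps ε g x q (h x) - len g x p * beps ε g x p (h x)
      = (len g x q - len g x p) * beps ε g x q (h x)
        + len g x p * (beps ε g x q (h x) - beps ε g x p (h x)) := by ring
  have h3 := mul_bd (len_diff B p q) (beps_bd B h0 h1 q (h x) C B.hh)
  have h4 := beps_diff B h0 h1 p q (h x) C _ B.hh (nrm_div B p q hp hq)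
  have h5 : |len g x p| ≤ C * vn p := by
    rw [abs_of_nonneg (len_nonneg g x p)]
    exact len_le B p
  have h6 := mul_bd h5 h4
  have h7 : C * vn p * (54 * (C ^ 2 * C * (30 * C ^ 5 * vn (q - p) / vn p)))
      = 1620 * C ^ 9 * vn (q - p) := by
    field_simp
    ring
  rw [h7] at h6
  have h8 : 9 * C ^ 2 * vn (q - p) * (90 * (C ^ 4 * C)) = 810 * (C ^ 7 * vn (q - p)) := by ring
  rw [h8] at h3
  have h9 : C ^ 7 * vn (q - p) ≤ C ^ 9 * vn (q - p) :=
    mul_le_mul_of_nonneg_right (pow_le_pow_right₀ hC (by norm_num)) hd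
  have h10 : 0 ≤ C ^ 9 * vn (q - p) := by positivity
  rw [h2]
  have h11 := abs_add_le ((len g x q - len g x p) * beps ε g x q (h x))
    (len g x p * (beps ε g x q (h x) - beps ε g x p (h x)))
  linarith

/-- The term with the Christoffel symbols. -/
theorem part1g (B : Bd C g h x) (h0 : 0 < ε) (h1 : ε < 1) (p q : Cov) (hp : p ≠ 0)
    (hq : q ≠ 0) :
    |beps ε g x q (gam g x q) - beps ε g x p (gam g x p)|
      ≤ 6000 * C ^ 9 * vn (q - p) := by
  have hC := B.one
  have hC0 : 0 < C := by linarith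
  have hv := vn_pos p hp
  have hd := vn_nonneg (q - p)
  have h2 : beps ε g x q (gam g x q) - beps ε g x p (gam g x p)
      = beps ε g x q (gam g x (q - p))
        + (beps ε g x q (gam g x p) - beps ε g x p (gam g x p)) := by
    rw [gam_sub, beps_sub]
    ring
  have h3 := beps_bd B h0 h1 q (gam g x (q - p)) _ (gam_bd B (q - p))
  have h4 := beps_diff B h0 h1 p q (gam g x p) _ _ (gam_bd B p) (nrm_div B p q hp hq)
  have h7 : 54 * (C ^ 2 * (3 * (C * vn p)) * (30 * C ^ 5 * vn (q - p) / vn p))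
      = 4860 * (C ^ 8 * vn (q - p)) := by
    field_simp
    ring
  rw [h7] at h4
  have h8 : 90 * (C ^ 4 * (3 * (C * vn (q - p)))) = 270 * (C ^ 5 * vn (q - p)) := by ring
  rw [h8] at h3
  have h9 : C ^ 5 * vn (q - p) ≤ C ^ 9 * vn (q - p) :=
    mul_le_mul_of_nonneg_right (pow_le_pow_right₀ hC (by norm_num)) hd
  have h12 : C ^ 8 * vn (q - p) ≤ C ^ 9 * vn (q - p) :=
    mul_le_mul_of_nonneg_right (pow_le_pow_right₀ hC (by norm_num)) hd
  have h10 : 0 ≤ C ^ 9 * vn (q - p) := by positivity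
  rw [h2]
  have h11 := abs_add_le (beps ε g x q (gam g x (q - p)))
    (beps ε g x q (gam g x p) - beps ε g x p (gam g x p))
  linarith

/-- The term with `M`. -/
theorem part1m (B : Bd C g h x) (h0 : 0 < ε) (h1 : ε < 1) (p q : Cov) (M : Bil) (hp : p ≠ 0)
    (hq : q ≠ 0) :
    |beps ε g x q M - beps ε g x p M|
      ≤ 1620 * C ^ 9 * (min 1 (vn (q - p) / vn p) * Real.sqrt (msq M)) := by
  have hC := B.one
  have hC0 : 0 < C := by linarith
  have h2 := beps_diff B h0 h1 p q M _ _ (abs_le_msq M) (nrm_min B p q hp hq)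
  have h3 : 54 * (C ^ 2 * Real.sqrt (msq M) * (30 * C ^ 5 * min 1 (vn (q - p) / vn p)))
      = 1620 * (C ^ 7 * (min 1 (vn (q - p) / vn p) * Real.sqrt (msq M))) := by ring
  rw [h3] at h2
  have h4 : 0 ≤ min 1 (vn (q - p) / vn p) * Real.sqrt (msq M) :=
    mul_nonneg (le_min zero_le_one (div_nonneg (vn_nonneg _) (vn_nonneg _)))
      (Real.sqrt_nonneg _)
  have h5 : C ^ 7 * (min 1 (vn (q - p) / vn p) * Real.sqrt (msq M))
      ≤ C ^ 9 * (min 1 (vn (q - p) / vn p) * Real.sqrt (msq M)) :=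
    mul_le_mul_of_nonneg_right (pow_le_pow_right₀ hC (by norm_num)) h4
  linarith

/-- First part. -/
theorem part1 (B : Bd C g h x) (h0 : 0 < ε) (h1 : ε < 1) (p q : Cov) (M : Bil) (hp : p ≠ 0)
    (hq : q ≠ 0) :
    |resid ε g h x q M - resid ε g h x p M|
      ≤ 10000 * C ^ 9 * (min 1 (vn (q - p) / vn p) * Real.sqrt (msq M)
        + vn (q - p) * (1 + vn p + vn q)) := by
  have hC := B.one
  have hC0 : 0 < C := by linarith
  have hd := vn_nonneg (q - p)
  have hvp := vn_nonneg p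
  have hvq := vn_nonneg q
  have h2 := part1m B h0 h1 p q M hp hq
  have h3 := part1g B h0 h1 p q hp hq
  have h4 := part1h B h0 h1 p q hp hq
  have h5 := len_sq_diff B p q
  have h6 : 0 ≤ C ^ 9 * (min 1 (vn (q - p) / vn p) * Real.sqrt (msq M)) :=
    mul_nonneg (by positivity) (mul_nonneg
      (le_min zero_le_one (div_nonneg (vn_nonneg _) (vn_nonneg _))) (Real.sqrt_nonneg _))
  have h7 : C * (vn (q - p) * (vn p + vn q)) ≤ C ^ 9 * (vn (q - p) * (vn p + vn q)) :=
    mul_le_mul_of_nonneg_right (le_self_pow₀ hC (by norm_num)) (by positivity)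
  have h8 : 0 ≤ C ^ 9 * (vn (q - p) * (vn p + vn q)) := by positivity
  have h9 : 0 ≤ C ^ 9 * vn (q - p) := by positivity
  have h10 : resid ε g h x q M - resid ε g h x p M
      = (beps ε g x q M - beps ε g x p M)
        - (beps ε g x q (gam g x q) - beps ε g x p (gam g x p))
        - (len g x q ^ 2 - len g x p ^ 2)
        - (len g x q * beps ε g x q (h x) - len g x p * beps ε g x p (h x)) := by
    simp only [resid, cHess_eq, beps_sub]
    ring
  rw [h10]
  rw [abs_le] at h2 h3 h4 h5 ⊢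
  constructor <;> nlinarith

/-- Third part. -/
theorem part3 (B : Bd C g h x) (h0 : 0 < ε) (h1 : ε < 1) (p : Cov) (M : Bil) :
    |resid ε g h x p M| ≤ 1000 * C ^ 9 * (Real.sqrt (msq M) + vn p * (1 + vn p)) := by
  have hC := B.one
  have hC0 : 0 < C := by linarith
  have hvp := vn_nonneg p
  have hm := Real.sqrt_nonneg (msq M)
  have h2 := beps_bd B h0 h1 p M _ (abs_le_msq M)
  have h3 := beps_bd B h0 h1 p (gam g x p) _ (gam_bd B p)
  have h5 : |len g x p| ≤ C * vn p := by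
    rw [abs_of_nonneg (len_nonneg g x p)]
    exact len_le B p
  have h4 := mul_bd h5 (beps_bd B h0 h1 p (h x) C B.hh)
  have h6 := mul_bd h5 h5
  have h7 : resid ε g h x p M = beps ε g x p M - beps ε g x p (gam g x p)
      - len g x p * len g x p - len g x p * beps ε g x p (h x) := by
    simp only [resid, cHess_eq, beps_sub]
    ring
  have e1 : C ^ 4 * Real.sqrt (msq M) ≤ C ^ 9 * Real.sqrt (msq M) :=
    mul_le_mul_of_nonneg_right (pow_le_pow_right₀ hC (by norm_num)) hm
  have e2 : C ^ 5 * vn p ≤ C ^ 9 * vn p :=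
    mul_le_mul_of_nonneg_right (pow_le_pow_right₀ hC (by norm_num)) hvp
  have e3 : C ^ 6 * vn p ≤ C ^ 9 * vn p :=
    mul_le_mul_of_nonneg_right (pow_le_pow_right₀ hC (by norm_num)) hvp
  have e4 : C ^ 2 * (vn p * vn p) ≤ C ^ 9 * (vn p * vn p) :=
    mul_le_mul_of_nonneg_right (pow_le_pow_right₀ hC (by norm_num)) (by positivity)
  have f1 : 0 ≤ C ^ 9 * Real.sqrt (msq M) := by positivity
  have f2 : 0 ≤ C ^ 9 * vn p := by positivity
  have f3 : 0 ≤ C ^ 9 * (vn p * vn p) := by positivity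
  rw [h7]
  rw [abs_le] at h2 h3 h4 h6 ⊢
  constructor <;> nlinarith

end Point

end MCHD

/-- The residual as a function of `p` and `M`. -/
theorem CHD (hCT : Stmt_CT) : Stmt_CHD := by
  intro ε U g h h0 h1 hU hg hh K hK hKU
  obtain ⟨C, hC, H⟩ := hCT U g h hU hg hh K hK hKU
  have hC9 : (1 : ℝ) ≤ C ^ 9 := one_le_pow₀ hC
  refine ⟨10000 * C ^ 9, by linarith, fun x hx => ?_⟩
  obtain ⟨H1, _, _, H4, H5, _, _, _, H9, _⟩ := H x hx
  have B : MCHD.Bd C g h x := ⟨hC, fun p => (H1 p).1, fun p => (H1 p).2, H4, H5, H9⟩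
  refine ⟨fun p p' M hp hp' => MCHD.part1 B h0 h1 p p' M hp hp', fun p M M' => ?_,
    fun p M => ?_⟩
  · refine (MCHD.part2 B h0 h1 p M M').trans ?_
    refine mul_le_mul_of_nonneg_right ?_ (Real.sqrt_nonneg _)
    have : C ^ 4 ≤ C ^ 9 := pow_le_pow_right₀ hC (by norm_num)
    linarith
  · refine (MCHD.part3 B h0 h1 p M).trans ?_
    refine mul_le_mul_of_nonneg_right (by linarith) ?_
    have := MCHD.vn_nonneg p
    positivity

end Pool.Agent.PFlow
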