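import Pool.Agent.PFlow.StmtsM

/-!
# Module CV: convergence of the continuous terms
-/

open MeasureTheory Filter Topology
open scoped ContDiff ENNReal

namespace Pool.Agent.PFlow

open Pool.Agent.PenroseSph

namespace MCV

/-- The sum of the absolute values of the components of a covector. -/
def l1 (p : Cov) : ℝ := ∑ i, |p i|

/-- The sum of the absolute values of the components of a matrix. -/
def m1 (M : Bil) : ℝ := ∑ i, ∑ j, |M i j|

theorem l1_nonneg (p : Cov) : 0 ≤ l1 p := Finset.sum_nonneg fun _ _ => abs_nonneg _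

theorem m1_nonneg (M : Bil) : 0 ≤ m1 M :=
  Finset.sum_nonneg fun _ _ => Finset.sum_nonneg fun _ _ => abs_nonneg _

theorem abs_le_l1 (p : Cov) (i : Fin 3) : |p i| ≤ l1 p :=
  Finset.single_le_sum (f := fun i => |p i|) (fun _ _ => abs_nonneg _) (Finset.mem_univ i)

theorem abs_le_m1 (M : Bil) (i j : Fin 3) : |M i j| ≤ m1 M :=
  (Finset.single_le_sum (f := fun j => |M i j|) (fun _ _ => abs_nonneg _)
    (Finset.mem_univ j)).trans
    (Finset.single_le_sum (f := fun i => ∑ j, |M i j|)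
      (fun _ _ => Finset.sum_nonneg fun _ _ => abs_nonneg _) (Finset.mem_univ i))

theorem l1_le_add (p q : Cov) : l1 p ≤ l1 q + l1 (p - q) := by
  unfold l1
  rw [← Finset.sum_add_distrib]
  refine Finset.sum_le_sum fun i _ => ?_
  have := abs_add_le (q i) (p i - q i)
  simpa using this

theorem l1_zero_of (p : Cov) (h : l1 p = 0) : p = 0 := by
  funext i
  have := abs_le_l1 p i
  rw [h] at this
  simpa using abs_nonpos_iff.mp this

/-- Bounded coefficients. -/
def UBd (S : Set E3) (c : E3 → ℝ) : Prop := ∃ K : ℝ, 0 ≤ K ∧ ∀ x ∈ S, |c x| ≤ K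

/-- Uniformly Lipschitz functions of the covector, vanishing at zero. -/
def ULip (S : Set E3) (f : E3 → Cov → ℝ) : Prop := ∃ K : ℝ, 0 ≤ K ∧ ∀ x ∈ S,
  (∀ p, |f x p| ≤ K * l1 p) ∧ ∀ p q, |f x p - f x q| ≤ K * l1 (p - q)

/-- The controlled functions of the 2-jet. -/
def UGood (S : Set E3) (F : E3 → Cov → Bil → ℝ) : Prop := ∃ K : ℝ, 0 ≤ K ∧ ∀ x ∈ S,
  ∀ (p q : Cov) (M N : Bil), |F x p M - F x q N|
    ≤ K * ((l1 (p - q) + m1 (M - N)) * (1 + m1 N + l1 q ^ 2 + l1 (p - q) ^ 2))

variable {S : Set E3}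

theorem UBd.add {c c' : E3 → ℝ} (h : UBd S c) (h' : UBd S c') : UBd S fun x => c x + c' x := by
  obtain ⟨K, hK, h⟩ := h
  obtain ⟨K', hK', h'⟩ := h'
  exact ⟨K + K', by positivity, fun x hx => (abs_add_le _ _).trans (add_le_add (h x hx) (h' x hx))⟩

theorem UBd.mul {c c' : E3 → ℝ} (h : UBd S c) (h' : UBd S c') : UBd S fun x => c x * c' x := by
  obtain ⟨K, hK, h⟩ := h
  obtain ⟨K', hK', h'⟩ := h'
  refine ⟨K * K', by positivity, fun x hx => ?_⟩
  rw [abs_mul]
  exact mul_le_mul (h x hx) (h' x hx) (abs_nonneg _) hK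

theorem UBd.const (c : ℝ) : UBd S fun _ => c := ⟨|c|, abs_nonneg _, fun _ _ => le_rfl⟩

theorem UBd.sum {ι : Type*} (s : Finset ι) {c : ι → E3 → ℝ} (h : ∀ i ∈ s, UBd S (c i)) :
    UBd S fun x => ∑ i ∈ s, c i x := by
  classical
  induction s using Finset.induction_on with
  | empty => simpa using UBd.const (S := S) 0
  | insert a s ha ih =>
    simp only [Finset.sum_insert ha]
    exact (h a (Finset.mem_insert_self _ _)).add
      (ih fun i hi => h i (Finset.mem_insert_of_mem hi))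

theorem ULip.coord (i : Fin 3) : ULip S fun _ p => p i :=
  ⟨1, zero_le_one, fun _ _ => ⟨fun p => by simpa using abs_le_l1 p i,
    fun p q => by simpa using abs_le_l1 (p - q) i⟩⟩

theorem ULip.zero : ULip S fun _ _ => 0 :=
  ⟨0, le_rfl, fun _ _ => ⟨fun _ => by simp, fun _ _ => by simp⟩⟩

theorem ULip.add {f f' : E3 → Cov → ℝ} (h : ULip S f) (h' : ULip S f') :
    ULip S fun x p => f x p + f' x p := by
  obtain ⟨K, hK, h⟩ := h
  obtain ⟨K', hK', h'⟩ := h'
  refine ⟨K + K', by positivity, fun x hx => ⟨fun p => ?_, fun p q => ?_⟩⟩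
  · rw [add_mul]
    exact (abs_add_le _ _).trans (add_le_add ((h x hx).1 p) ((h' x hx).1 p))
  · rw [add_mul, show f x p + f' x p - (f x q + f' x q) = (f x p - f x q) + (f' x p - f' x q) by
      ring]
    exact (abs_add_le _ _).trans (add_le_add ((h x hx).2 p q) ((h' x hx).2 p q))

theorem ULip.coef {c : E3 → ℝ} {f : E3 → Cov → ℝ} (hc : UBd S c) (h : ULip S f) :
    ULip S fun x p => c x * f x p := by
  obtain ⟨K, hK, h⟩ := h
  obtain ⟨K', hK', hc⟩ := hc
  refine ⟨K' * K, by positivity, fun x hx => ⟨fun p => ?_, fun p q => ?_⟩⟩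
  · rw [abs_mul, mul_assoc]
    exact mul_le_mul (hc x hx) ((h x hx).1 p) (abs_nonneg _) hK'
  · rw [← mul_sub, abs_mul, mul_assoc]
    exact mul_le_mul (hc x hx) ((h x hx).2 p q) (abs_nonneg _) hK'

theorem ULip.neg {f : E3 → Cov → ℝ} (h : ULip S f) : ULip S fun x p => - f x p := by
  simpa using ULip.coef (UBd.const (-1)) h

theorem ULip.sub {f f' : E3 → Cov → ℝ} (h : ULip S f) (h' : ULip S f') :
    ULip S fun x p => f x p - f' x p := by
  simpa [sub_eq_add_neg] using h.add h'.neg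

theorem ULip.sum {ι : Type*} (s : Finset ι) {f : ι → E3 → Cov → ℝ}
    (h : ∀ i ∈ s, ULip S (f i)) : ULip S fun x p => ∑ i ∈ s, f i x p := by
  classical
  induction s using Finset.induction_on with
  | empty => simpa using ULip.zero (S := S)
  | insert a s ha ih =>
    simp only [Finset.sum_insert ha]
    exact (h a (Finset.mem_insert_self _ _)).add
      (ih fun i hi => h i (Finset.mem_insert_of_mem hi))

theorem UGood.zero : UGood S fun _ _ _ => 0 :=
  ⟨0, le_rfl, fun _ _ _ _ _ _ => by simp⟩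

theorem UGood.add {F F' : E3 → Cov → Bil → ℝ} (h : UGood S F) (h' : UGood S F') :
    UGood S fun x p M => F x p M + F' x p M := by
  obtain ⟨K, hK, h⟩ := h
  obtain ⟨K', hK', h'⟩ := h'
  refine ⟨K + K', by positivity, fun x hx p q M N => ?_⟩
  rw [add_mul, show F x p M + F' x p M - (F x q N + F' x q N)
    = (F x p M - F x q N) + (F' x p M - F' x q N) by ring]
  exact (abs_add_le _ _).trans (add_le_add (h x hx p q M N) (h' x hx p q M N))

theorem UGood.coef {c : E3 → ℝ} {F : E3 → Cov → Bil → ℝ} (hc : UBd S c) (h : UGood S F) :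
    UGood S fun x p M => c x * F x p M := by
  obtain ⟨K, hK, h⟩ := h
  obtain ⟨K', hK', hc⟩ := hc
  refine ⟨K' * K, by positivity, fun x hx p q M N => ?_⟩
  rw [← mul_sub, abs_mul, mul_assoc]
  exact mul_le_mul (hc x hx) (h x hx p q M N) (abs_nonneg _) hK'

theorem UGood.neg {F : E3 → Cov → Bil → ℝ} (h : UGood S F) :
    UGood S fun x p M => - F x p M := by
  simpa using UGood.coef (UBd.const (-1)) h

theorem UGood.sub {F F' : E3 → Cov → Bil → ℝ} (h : UGood S F) (h' : UGood S F') :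
    UGood S fun x p M => F x p M - F' x p M := by
  simpa [sub_eq_add_neg] using h.add h'.neg

theorem UGood.sum {ι : Type*} (s : Finset ι) {F : ι → E3 → Cov → Bil → ℝ}
    (h : ∀ i ∈ s, UGood S (F i)) : UGood S fun x p M => ∑ i ∈ s, F i x p M := by
  classical
  induction s using Finset.induction_on with
  | empty => simpa using UGood.zero (S := S)
  | insert a s ha ih =>
    simp only [Finset.sum_insert ha]
    exact (h a (Finset.mem_insert_self _ _)).add
      (ih fun i hi => h i (Finset.mem_insert_of_mem hi))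

theorem UGood.ofLip {f : E3 → Cov → ℝ} (h : ULip S f) : UGood S fun x p _ => f x p := by
  obtain ⟨K, hK, h⟩ := h
  refine ⟨K, hK, fun x hx p q M N => ((h x hx).2 p q).trans ?_⟩
  refine mul_le_mul_of_nonneg_left ?_ hK
  have h1 := l1_nonneg (p - q)
  have h2 := m1_nonneg (M - N)
  have h3 := m1_nonneg N
  nlinarith [mul_nonneg (add_nonneg h1 h2) h3, mul_nonneg (add_nonneg h1 h2) (sq_nonneg (l1 q)),
    mul_nonneg (add_nonneg h1 h2) (sq_nonneg (l1 (p - q)))]

theorem UGood.mul {f f' : E3 → Cov → ℝ} (h : ULip S f) (h' : ULip S f') :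
    UGood S fun x p _ => f x p * f' x p := by
  obtain ⟨K, hK, h⟩ := h
  obtain ⟨K', hK', h'⟩ := h'
  refine ⟨3 * (K * K'), by positivity, fun x hx p q M N => ?_⟩
  have a1 := (h x hx).2 p q
  have a2 := (h x hx).1 q
  have a3 := (h' x hx).1 p
  have a4 := (h' x hx).2 p q
  set a := l1 (p - q) with ha
  have ha0 : 0 ≤ a := l1_nonneg _
  have hb0 : 0 ≤ m1 (M - N) := m1_nonneg _
  have hB0 : 0 ≤ m1 N := m1_nonneg _
  have hq0 : 0 ≤ l1 q := l1_nonneg _
  have hp : l1 p ≤ l1 q + a := l1_le_add p q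
  have e : f x p * f' x p - f x q * f' x q
      = (f x p - f x q) * f' x p + f x q * (f' x p - f' x q) := by ring
  rw [e]
  refine (abs_add_le _ _).trans ?_
  rw [abs_mul, abs_mul]
  have b1 : |f x p - f x q| * |f' x p| ≤ (K * a) * (K' * (l1 q + a)) :=
    mul_le_mul a1 (a3.trans (mul_le_mul_of_nonneg_left hp hK')) (abs_nonneg _) (by positivity)
  have b2 : |f x q| * |f' x p - f' x q| ≤ (K * l1 q) * (K' * a) :=
    mul_le_mul a2 a4 (abs_nonneg _) (by positivity)
  refine (add_le_add b1 b2).trans ?_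
  have e2 : (K * a) * (K' * (l1 q + a)) + (K * l1 q) * (K' * a)
      = K * K' * (a * (2 * l1 q + a)) := by ring
  rw [e2, show 3 * (K * K') * ((a + m1 (M - N)) * (1 + m1 N + l1 q ^ 2 + a ^ 2))
    = K * K' * (3 * ((a + m1 (M - N)) * (1 + m1 N + l1 q ^ 2 + a ^ 2))) by ring]
  refine mul_le_mul_of_nonneg_left ?_ (by positivity)
  have c1 : 2 * l1 q + a ≤ 3 * (1 + m1 N + l1 q ^ 2 + a ^ 2) := by
    nlinarith [sq_nonneg (l1 q - 1), sq_nonneg (a - 1)]
  have c2 : a * (2 * l1 q + a) ≤ a * (3 * (1 + m1 N + l1 q ^ 2 + a ^ 2)) :=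
    mul_le_mul_of_nonneg_left c1 ha0
  have c3 : 0 ≤ m1 (M - N) * (3 * (1 + m1 N + l1 q ^ 2 + a ^ 2)) := by positivity
  nlinarith [c2, c3]

theorem UGood.cube {f : E3 → Cov → ℝ} (h : ULip S f) :
    UGood S fun x p _ => f x p ^ 3 := by
  obtain ⟨K, hK, h⟩ := h
  refine ⟨6 * K ^ 3, by positivity, fun x hx p q M N => ?_⟩
  have a1 := (h x hx).2 p q
  have a2 := (h x hx).1 q
  have a3 := (h x hx).1 p
  set a := l1 (p - q) with ha
  have ha0 : 0 ≤ a := l1_nonneg _
  have hb0 : 0 ≤ m1 (M - N) := m1_nonneg _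
  have hB0 : 0 ≤ m1 N := m1_nonneg _
  have hq0 : 0 ≤ l1 q := l1_nonneg _
  have hp : l1 p ≤ l1 q + a := l1_le_add p q
  have e : f x p ^ 3 - f x q ^ 3
      = (f x p - f x q) * (f x p ^ 2 + f x p * f x q + f x q ^ 2) := by ring
  rw [e, abs_mul]
  have a3' : |f x p| ≤ K * (l1 q + a) := a3.trans (mul_le_mul_of_nonneg_left hp hK)
  have a2' : |f x q| ≤ K * (l1 q + a) := a2.trans (mul_le_mul_of_nonneg_left (by linarith) hK)
  have b : |f x p ^ 2 + f x p * f x q + f x q ^ 2| ≤ 3 * (K * (l1 q + a)) ^ 2 := by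
    have d1 : |f x p ^ 2| ≤ (K * (l1 q + a)) ^ 2 := by
      rw [abs_pow]; exact pow_le_pow_left₀ (abs_nonneg _) a3' 2
    have d2 : |f x q ^ 2| ≤ (K * (l1 q + a)) ^ 2 := by
      rw [abs_pow]; exact pow_le_pow_left₀ (abs_nonneg _) a2' 2
    have d3 : |f x p * f x q| ≤ (K * (l1 q + a)) ^ 2 := by
      rw [abs_mul, sq]; exact mul_le_mul a3' a2' (abs_nonneg _) (by positivity)
    have := abs_add_three (f x p ^ 2) (f x p * f x q) (f x q ^ 2)
    linarith
  refine (mul_le_mul a1 b (abs_nonneg _) (by positivity)).trans ?_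
  have e2 : K * a * (3 * (K * (l1 q + a)) ^ 2) = K ^ 3 * (a * (3 * (l1 q + a) ^ 2)) := by ring
  rw [e2, show 6 * K ^ 3 * ((a + m1 (M - N)) * (1 + m1 N + l1 q ^ 2 + a ^ 2))
    = K ^ 3 * (6 * ((a + m1 (M - N)) * (1 + m1 N + l1 q ^ 2 + a ^ 2))) by ring]
  refine mul_le_mul_of_nonneg_left ?_ (by positivity)
  have c1 : 3 * (l1 q + a) ^ 2 ≤ 6 * (1 + m1 N + l1 q ^ 2 + a ^ 2) := by
    nlinarith [sq_nonneg (l1 q - a)]
  have c2 : a * (3 * (l1 q + a) ^ 2) ≤ a * (6 * (1 + m1 N + l1 q ^ 2 + a ^ 2)) :=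
    mul_le_mul_of_nonneg_left c1 ha0
  have c3 : 0 ≤ m1 (M - N) * (6 * (1 + m1 N + l1 q ^ 2 + a ^ 2)) := by positivity
  nlinarith [c2, c3]

theorem UGood.entry {f : E3 → Cov → ℝ} (i j : Fin 3) (h : ULip S f) :
    UGood S fun x p M => M i j * f x p := by
  obtain ⟨K, hK, h⟩ := h
  refine ⟨2 * K, by positivity, fun x hx p q M N => ?_⟩
  have a1 := (h x hx).2 p q
  have a3 := (h x hx).1 p
  set a := l1 (p - q) with ha
  have ha0 : 0 ≤ a := l1_nonneg _
  have hb0 : 0 ≤ m1 (M - N) := m1_nonneg _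
  have hB0 : 0 ≤ m1 N := m1_nonneg _
  have hq0 : 0 ≤ l1 q := l1_nonneg _
  have hp : l1 p ≤ l1 q + a := l1_le_add p q
  have hM : |M i j - N i j| ≤ m1 (M - N) := by simpa using abs_le_m1 (M - N) i j
  have hN : |N i j| ≤ m1 N := abs_le_m1 N i j
  have e : M i j * f x p - N i j * f x q
      = (M i j - N i j) * f x p + N i j * (f x p - f x q) := by ring
  rw [e]
  refine (abs_add_le _ _).trans ?_
  rw [abs_mul, abs_mul]
  have b1 : |M i j - N i j| * |f x p| ≤ m1 (M - N) * (K * (l1 q + a)) :=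
    mul_le_mul hM (a3.trans (mul_le_mul_of_nonneg_left hp hK)) (abs_nonneg _) hb0
  have b2 : |N i j| * |f x p - f x q| ≤ m1 N * (K * a) :=
    mul_le_mul hN a1 (abs_nonneg _) hB0
  refine (add_le_add b1 b2).trans ?_
  rw [show m1 (M - N) * (K * (l1 q + a)) + m1 N * (K * a)
    = K * (m1 (M - N) * (l1 q + a) + m1 N * a) by ring,
    show 2 * K * ((a + m1 (M - N)) * (1 + m1 N + l1 q ^ 2 + a ^ 2))
    = K * (2 * ((a + m1 (M - N)) * (1 + m1 N + l1 q ^ 2 + a ^ 2))) by ring]
  refine mul_le_mul_of_nonneg_left ?_ hK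
  have c1 : l1 q + a ≤ 2 * (1 + m1 N + l1 q ^ 2 + a ^ 2) := by
    nlinarith [sq_nonneg (l1 q - 1), sq_nonneg (a - 1)]
  have c2 := mul_le_mul_of_nonneg_left c1 hb0
  have c3 : m1 N ≤ 2 * (1 + m1 N + l1 q ^ 2 + a ^ 2) := by
    nlinarith [sq_nonneg (l1 q), sq_nonneg a]
  have c4 := mul_le_mul_of_nonneg_right c3 ha0
  nlinarith [c2, c4]

theorem vsq_nonneg (p : Cov) : 0 ≤ vsq p := Finset.sum_nonneg fun _ _ => sq_nonneg _

theorem vsq_le (p : Cov) : vsq p ≤ l1 p ^ 2 := by
  unfold vsq l1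
  simp only [Fin.sum_univ_three]
  rw [← sq_abs (p 0), ← sq_abs (p 1), ← sq_abs (p 2)]
  nlinarith [mul_nonneg (abs_nonneg (p 0)) (abs_nonneg (p 1)),
    mul_nonneg (abs_nonneg (p 0)) (abs_nonneg (p 2)),
    mul_nonneg (abs_nonneg (p 1)) (abs_nonneg (p 2))]

theorem le_vsq (p : Cov) : l1 p ^ 2 ≤ 3 * vsq p := by
  unfold vsq l1
  simp only [Fin.sum_univ_three]
  rw [← sq_abs (p 0), ← sq_abs (p 1), ← sq_abs (p 2)]
  nlinarith [sq_nonneg (|p 0| - |p 1|), sq_nonneg (|p 0| - |p 2|), sq_nonneg (|p 1| - |p 2|)]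

theorem bil_bound (P : Bil) (C : ℝ) (hP : ∀ i j, |P i j| ≤ C) (u w : Cov) :
    |ev P u w| ≤ C * (l1 u * l1 w) := by
  unfold ev
  refine (Finset.abs_sum_le_sum_abs _ _).trans ?_
  have h1 : ∀ i, |∑ j, P i j * u i * w j| ≤ C * (|u i| * l1 w) := by
    intro i
    refine (Finset.abs_sum_le_sum_abs _ _).trans ?_
    have : C * (|u i| * l1 w) = ∑ j, C * (|u i| * |w j|) := by
      unfold l1
      rw [Finset.mul_sum, Finset.mul_sum]
    rw [this]
    refine Finset.sum_le_sum fun j _ => ?_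
    rw [abs_mul, abs_mul, mul_assoc]
    exact mul_le_mul_of_nonneg_right (hP i j) (by positivity)
  refine (Finset.sum_le_sum fun i _ => h1 i).trans ?_
  rw [← Finset.mul_sum, ← Finset.sum_mul]
  exact le_rfl

theorem ev_sub (P : Bil) (p q : Cov) :
    ev P p p - ev P q q = ev P (p - q) p + ev P q (p - q) := by
  unfold ev
  simp only [Fin.sum_univ_three, Pi.sub_apply]
  ring

/-- Division of an inequality. -/
theorem cancel {X T K₁ K₂ a s : ℝ} (hX : 0 ≤ X) (hs : 0 < s) (hK : 0 ≤ K₁) (hT : s ≤ K₁ * T)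
    (h : X * T ≤ K₂ * (a * s)) : X ≤ K₁ * K₂ * a := by
  have h1 : X * s ≤ X * (K₁ * T) := mul_le_mul_of_nonneg_left hT hX
  have h2 : X * (K₁ * T) ≤ K₁ * (K₂ * (a * s)) := by
    calc X * (K₁ * T) = K₁ * (X * T) := by ring
      _ ≤ _ := mul_le_mul_of_nonneg_left h hK
  have h3 : X * s ≤ (K₁ * K₂ * a) * s := by
    calc X * s ≤ K₁ * (K₂ * (a * s)) := h1.trans h2
      _ = _ := by ring
  exact le_of_mul_le_mul_right h3 hs

/-- The square root of a positive definite quadratic form. -/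
theorem sqrt_props (P : Bil) (C : ℝ) (hC : 1 ≤ C) (hP : ∀ i j, |P i j| ≤ C)
    (h : ∀ p, vsq p / C ≤ ev P p p ∧ ev P p p ≤ C * vsq p) :
    (∀ p, l1 p ≤ 3 * C * lp P p) ∧ (∀ p, lp P p ≤ C * l1 p) ∧
    (∀ p q, |lp P p - lp P q| ≤ 3 * C * C * l1 (p - q)) := by
  have hC0 : 0 < C := lt_of_lt_of_le one_pos hC
  have hev : ∀ p, 0 ≤ ev P p p := fun p =>
    (div_nonneg (vsq_nonneg p) hC0.le).trans (h p).1
  have h1 : ∀ p, l1 p ≤ 3 * C * lp P p := by
    intro p
    have : l1 p / (3 * C) ≤ lp P p := by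
      unfold lp
      refine (le_abs_self _).trans (Real.abs_le_sqrt ?_)
      refine le_trans ?_ (h p).1
      rw [div_pow, div_le_div_iff₀ (by positivity) hC0]
      have := le_vsq p
      have hv := vsq_nonneg p
      nlinarith [mul_nonneg hv (mul_nonneg hC0.le (sub_nonneg.mpr hC)), mul_le_mul_of_nonneg_right this hC0.le]
    rw [div_le_iff₀ (by positivity)] at this
    linarith
  have h2 : ∀ p, lp P p ≤ C * l1 p := by
    intro p
    unfold lp
    rw [Real.sqrt_le_iff]
    refine ⟨mul_nonneg hC0.le (l1_nonneg p), (h p).2.trans ?_⟩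
    have := vsq_le p
    have hv := vsq_nonneg p
    nlinarith [mul_nonneg (mul_nonneg hC0.le (sub_nonneg.mpr hC)) (sq_nonneg (l1 p)), mul_le_mul_of_nonneg_left this hC0.le]
  refine ⟨h1, h2, fun p q => ?_⟩
  have hs0 : 0 ≤ l1 p + l1 q := add_nonneg (l1_nonneg _) (l1_nonneg _)
  rcases hs0.eq_or_lt with hs | hs
  · have hp : l1 p = 0 := by linarith [l1_nonneg p, l1_nonneg q]
    have hq : l1 q = 0 := by linarith [l1_nonneg p, l1_nonneg q]
    rw [l1_zero_of p hp, l1_zero_of q hq]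
    simp [l1]
  · refine cancel (T := lp P p + lp P q) (abs_nonneg _) hs (by positivity) ?_ ?_
    · have := h1 p
      have := h1 q
      linarith
    · have e : |lp P p - lp P q| * (lp P p + lp P q) = |ev P p p - ev P q q| := by
        have e0 : 0 ≤ lp P p + lp P q := add_nonneg (Real.sqrt_nonneg _) (Real.sqrt_nonneg _)
        have e1 : lp P p ^ 2 = ev P p p := Real.sq_sqrt (hev p)
        have e2 : lp P q ^ 2 = ev P q q := Real.sq_sqrt (hev q)
        have e3 : ev P p p - ev P q q = (lp P p - lp P q) * (lp P p + lp P q) := by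
          rw [← e1, ← e2]
          ring
        rw [e3, abs_mul, abs_of_nonneg e0]
      rw [e, ev_sub]
      refine (abs_add_le _ _).trans ?_
      have b1 := bil_bound P C hP (p - q) p
      have b2 := bil_bound P C hP q (p - q)
      nlinarith [b1, b2]

/-- The function `r_i r_j / |p|`. -/
theorem quot_props (P : Bil) (C : ℝ) (hC : 1 ≤ C)
    (h : (∀ p, l1 p ≤ 3 * C * lp P p) ∧ (∀ p, lp P p ≤ C * l1 p) ∧
      (∀ p q, |lp P p - lp P q| ≤ 3 * C * C * l1 (p - q)))
    (r r' : Cov → ℝ) (D : ℝ) (hD : 0 ≤ D)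
    (hr : (∀ p, |r p| ≤ D * l1 p) ∧ ∀ p q, |r p - r q| ≤ D * l1 (p - q))
    (hr' : (∀ p, |r' p| ≤ D * l1 p) ∧ ∀ p q, |r' p - r' q| ≤ D * l1 (p - q)) :
    (∀ p, |r p * r' p / lp P p| ≤ 3 * C * (D * D) * l1 p) ∧
    ∀ p q, |r p * r' p / lp P p - r q * r' q / lp P q|
      ≤ 3 * C * (2 * (D * D) + 3 * C * (D * D) * (3 * C * C)) * l1 (p - q) := by
  obtain ⟨h1, h2, h3⟩ := h
  have hC0 : 0 < C := lt_of_lt_of_le one_pos hC
  have hL : ∀ p, 0 ≤ lp P p := fun p => Real.sqrt_nonneg _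
  have hmul : ∀ p, r p * r' p / lp P p * lp P p = r p * r' p := by
    intro p
    by_cases h0 : lp P p = 0
    · have : l1 p = 0 := le_antisymm (by simpa [h0] using h1 p) (l1_nonneg p)
      have hz := hr.1 p
      rw [this, mul_zero] at hz
      have hz' : r p = 0 := abs_nonpos_iff.mp hz
      simp [h0, hz']
    · exact div_mul_cancel₀ _ h0
  have hb : ∀ p, |r p * r' p / lp P p| ≤ 3 * C * (D * D) * l1 p := by
    intro p
    rcases (l1_nonneg p).eq_or_lt with hs | hs
    · have hz := hr.1 p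
      rw [← hs, mul_zero] at hz
      have hz' : r p = 0 := abs_nonpos_iff.mp hz
      rw [← hs]
      simp [hz']
    · refine cancel (T := lp P p) (abs_nonneg _) hs (by positivity) (h1 p) ?_
      have : |r p * r' p / lp P p| * lp P p = |r p * r' p| := by
        have e := congrArg abs (hmul p)
        rwa [abs_mul, abs_of_nonneg (hL p)] at e
      rw [this, abs_mul]
      calc |r p| * |r' p| ≤ (D * l1 p) * (D * l1 p) :=
            mul_le_mul (hr.1 p) (hr'.1 p) (abs_nonneg _) (by positivity)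
        _ = D * D * (l1 p * l1 p) := by ring
  refine ⟨hb, fun p q => ?_⟩
  have hs0 : 0 ≤ l1 p + l1 q := add_nonneg (l1_nonneg _) (l1_nonneg _)
  rcases hs0.eq_or_lt with hs | hs
  · have hp : l1 p = 0 := by linarith [l1_nonneg p, l1_nonneg q]
    have hq : l1 q = 0 := by linarith [l1_nonneg p, l1_nonneg q]
    rw [l1_zero_of p hp, l1_zero_of q hq]
    simp [l1]
  · refine cancel (T := lp P p + lp P q) (abs_nonneg _) hs (by positivity) ?_ ?_
    · have := h1 p
      have := h1 q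
      linarith
    · set a := l1 (p - q) with ha
      have ha0 : 0 ≤ a := l1_nonneg _
      set n := r p * r' p / lp P p with hn
      set n' := r q * r' q / lp P q with hn'
      have hpq : |r p * r' p - r q * r' q| ≤ D * D * (a * (l1 p + l1 q)) := by
        have e : r p * r' p - r q * r' q = (r p - r q) * r' p + r q * (r' p - r' q) := by ring
        rw [e]
        refine (abs_add_le _ _).trans ?_
        rw [abs_mul, abs_mul]
        have c1 : |r p - r q| * |r' p| ≤ (D * a) * (D * l1 p) :=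
          mul_le_mul (hr.2 p q) (hr'.1 p) (abs_nonneg _) (by positivity)
        have c2 : |r q| * |r' p - r' q| ≤ (D * l1 q) * (D * a) :=
          mul_le_mul (hr.1 q) (hr'.2 p q) (abs_nonneg _) (mul_nonneg hD (l1_nonneg _))
        nlinarith [c1, c2]
      have e1 : (n - n') * lp P p = (r p * r' p - r q * r' q) + n' * (lp P q - lp P p) := by
        have := hmul p
        have := hmul q
        rw [← hn] at *
        rw [← hn'] at *
        linear_combination hmul p - hmul q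
      have e2 : (n - n') * lp P q = (r p * r' p - r q * r' q) + n * (lp P q - lp P p) := by
        linear_combination hmul p - hmul q
      have hLL : |lp P q - lp P p| ≤ 3 * C * C * a := by
        rw [abs_sub_comm]
        exact h3 p q
      have f1 : |n - n'| * lp P p ≤ D * D * (a * (l1 p + l1 q))
          + 3 * C * (D * D) * l1 q * (3 * C * C * a) := by
        have e3 : |n - n'| * lp P p = |(n - n') * lp P p| := by rw [abs_mul, abs_of_nonneg (hL p)]
        rw [e3, e1]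
        refine (abs_add_le _ _).trans (add_le_add hpq ?_)
        rw [abs_mul]
        exact mul_le_mul (hb q) hLL (abs_nonneg _) (by have := l1_nonneg q; positivity)
      have f2 : |n - n'| * lp P q ≤ D * D * (a * (l1 p + l1 q))
          + 3 * C * (D * D) * l1 p * (3 * C * C * a) := by
        have e3 : |n - n'| * lp P q = |(n - n') * lp P q| := by rw [abs_mul, abs_of_nonneg (hL q)]
        rw [e3, e2]
        refine (abs_add_le _ _).trans (add_le_add hpq ?_)
        rw [abs_mul]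
        exact mul_le_mul (hb p) hLL (abs_nonneg _) (by have := l1_nonneg p; positivity)
      rw [mul_add]
      refine (add_le_add f1 f2).trans (le_of_eq ?_)
      ring


theorem ULip.raise {g : TensorField} (hP : ∀ i j, UBd S fun x => (g x)⁻¹ i j) (i : Fin 3) :
    ULip S fun x p => raise g x p i :=
  ULip.sum Finset.univ fun j _ => ULip.coef (hP i j) (ULip.coord j)

theorem ULip.len {g : TensorField} {C : ℝ} (hC : 1 ≤ C) (hP : ∀ x ∈ S, ∀ i j, |(g x)⁻¹ i j| ≤ C)
    (hv : ∀ x ∈ S, ∀ p, vsq p / C ≤ ev (g x)⁻¹ p p ∧ ev (g x)⁻¹ p p ≤ C * vsq p) :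
    ULip S fun x p => len g x p := by
  refine ⟨3 * C * C, by positivity, fun x hx => ?_⟩
  obtain ⟨h1, h2, h3⟩ := sqrt_props (g x)⁻¹ C hC (hP x hx) (hv x hx)
  refine ⟨fun p => ?_, h3⟩
  have e : |PFlow.len g x p| = lp (g x)⁻¹ p := abs_of_nonneg (Real.sqrt_nonneg _)
  rw [e]
  refine (h2 p).trans (mul_le_mul_of_nonneg_right ?_ (l1_nonneg p))
  nlinarith

theorem ULip.quot {g : TensorField} {C : ℝ} (hC : 1 ≤ C)
    (hP : ∀ x ∈ S, ∀ i j, |(g x)⁻¹ i j| ≤ C)
    (hv : ∀ x ∈ S, ∀ p, vsq p / C ≤ ev (g x)⁻¹ p p ∧ ev (g x)⁻¹ p p ≤ C * vsq p)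
    {r r' : E3 → Cov → ℝ} (hr : ULip S r) (hr' : ULip S r') :
    ULip S fun x p => r x p * r' x p / PFlow.len g x p := by
  obtain ⟨D, hD, hr⟩ := hr
  obtain ⟨D', hD', hr'⟩ := hr'
  have hC0 : 0 < C := lt_of_lt_of_le one_pos hC
  refine ⟨3 * C * (2 * ((D + D') * (D + D')) + 3 * C * ((D + D') * (D + D')) * (3 * C * C)),
    by positivity, fun x hx => ?_⟩
  have h := sqrt_props (g x)⁻¹ C hC (hP x hx) (hv x hx)
  have q := quot_props (g x)⁻¹ C hC h (r x) (r' x) (D + D') (by positivity)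
    ⟨fun p => ((hr x hx).1 p).trans (mul_le_mul_of_nonneg_right (by linarith) (l1_nonneg p)),
      fun p q => ((hr x hx).2 p q).trans
        (mul_le_mul_of_nonneg_right (by linarith) (l1_nonneg (p - q)))⟩
    ⟨fun p => ((hr' x hx).1 p).trans (mul_le_mul_of_nonneg_right (by linarith) (l1_nonneg p)),
      fun p q => ((hr' x hx).2 p q).trans
        (mul_le_mul_of_nonneg_right (by linarith) (l1_nonneg (p - q)))⟩
  refine ⟨fun p => (q.1 p).trans (mul_le_mul_of_nonneg_right ?_ (l1_nonneg p)), q.2⟩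
  have hDD : 0 ≤ (D + D') * (D + D') := by positivity
  have : 0 ≤ 3 * C * ((D + D') * (D + D')) * (3 * C * C) := by positivity
  refine mul_le_mul_of_nonneg_left ?_ (by positivity)
  linarith

theorem ULip.vn : ULip S fun _ p => vn p := by
  have hev : ∀ p, ev (1 : Bil) p p = vsq p := by
    intro p
    unfold ev vsq
    simp [Fin.sum_univ_three, Matrix.one_apply]
    ring
  have h := sqrt_props (1 : Bil) 1 le_rfl (fun i j => by
    by_cases hij : i = j
    · subst hij
      simp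
    · simp [hij]) (fun p => by simp [hev])
  have e : ∀ p, lp (1 : Bil) p = PFlow.vn p := fun p => by
    unfold lp PFlow.vn
    rw [hev]
  refine ⟨3, by norm_num, fun x _ => ⟨fun p => ?_, fun p q => ?_⟩⟩
  · show |PFlow.vn p| ≤ _
    rw [← e p]
    have := h.2.1 p
    have h0 : 0 ≤ lp (1 : Bil) p := Real.sqrt_nonneg _
    rw [abs_of_nonneg h0]
    nlinarith [l1_nonneg p]
  · show |PFlow.vn p - PFlow.vn q| ≤ _
    rw [← e p, ← e q]
    simpa using h.2.2 p q

theorem UGood.congr {F F' : E3 → Cov → Bil → ℝ} (h : UGood S F)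
    (he : ∀ x ∈ S, ∀ p M, F' x p M = F x p M) : UGood S F' := by
  obtain ⟨K, hK, h⟩ := h
  exact ⟨K, hK, fun x hx p q M N => by rw [he x hx, he x hx]; exact h x hx p q M N⟩

theorem len_quot (L a b : ℝ) : L * (a / L * (b / L)) = a * b / L := by
  by_cases h : L = 0
  · simp [h]
  · field_simp

/-- The matrix `|p| P - r r / |p|`. -/
noncomputable def tm (g : TensorField) (i j : Fin 3) (x : E3) (p : Cov) : ℝ :=
  (g x)⁻¹ i j * len g x p - raise g x p i * raise g x p j / len g x p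

theorem len_btan (g : TensorField) (x : E3) (p : Cov) (B : Bil) :
    len g x p * btan g x p B = ∑ i, ∑ j, B i j * tm g i j x p := by
  have h1 : len g x p * bnn g x p B
      = ∑ i, ∑ j, B i j * (raise g x p i * raise g x p j / len g x p) := by
    unfold bnn ev
    rw [Finset.mul_sum]
    refine Finset.sum_congr rfl fun i _ => ?_
    rw [Finset.mul_sum]
    refine Finset.sum_congr rfl fun j _ => ?_
    rw [← len_quot]
    unfold nrm
    ring
  unfold btan
  rw [mul_sub, h1]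
  unfold trg tm
  rw [Finset.mul_sum, ← Finset.sum_sub_distrib]
  refine Finset.sum_congr rfl fun i _ => ?_
  rw [Finset.mul_sum, ← Finset.sum_sub_distrib]
  refine Finset.sum_congr rfl fun j _ => ?_
  ring

theorem flux_eq (ε : ℝ) (g h : TensorField) (x : E3) (p : Cov) (M : Bil) :
    flux ε g h x p M = (∑ i, ∑ j, M i j * tm g i j x p)
      - (∑ i, ∑ j, ∑ k, christoffel g k i j x * (p k * tm g i j x p))
      - (1 / (2 - ε)) * len g x p ^ 3
      - ((∑ i, ∑ j, (g x)⁻¹ i j * h x i j) * (len g x p * len g x p)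
        - ∑ i, ∑ j, h x i j * (raise g x p i * raise g x p j)) := by
  unfold flux
  rw [len_btan]
  have h1 : ∑ i, ∑ j, cHess g x p M i j * tm g i j x p
      = (∑ i, ∑ j, M i j * tm g i j x p)
      - ∑ i, ∑ j, ∑ k, christoffel g k i j x * (p k * tm g i j x p) := by
    rw [← Finset.sum_sub_distrib]
    refine Finset.sum_congr rfl fun i _ => ?_
    rw [← Finset.sum_sub_distrib]
    refine Finset.sum_congr rfl fun j _ => ?_
    unfold cHess
    rw [Matrix.of_apply, sub_mul, Finset.sum_mul]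
    congr 1
    refine Finset.sum_congr rfl fun k _ => ?_
    ring
  rw [h1]
  have h2 : ev (h x) (raise g x p) (raise g x p)
      = ∑ i, ∑ j, h x i j * (raise g x p i * raise g x p j) := by
    unfold ev
    refine Finset.sum_congr rfl fun i _ => Finset.sum_congr rfl fun j _ => ?_
    ring
  rw [h2]
  unfold trg
  ring

theorem second_eq (ε : ℝ) (g h : TensorField) (x : E3) (p : Cov) (M : Bil)
    (h0 : len g x p = 0 → ∀ i, raise g x p i = 0) :
    len g x p * (matter g h x p + diss ε g h x p M - dis0 ε g h x p M)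
      = energyDensity g h x * len g x p - (∑ j, momV g h x j * raise g x p j)
      + (1 / (2 - ε)) * ((∑ i, ∑ j, (g x)⁻¹ i j * h x i j) * (len g x p * len g x p)
        + ∑ i, ∑ j, h x i j * (raise g x p i * raise g x p j)) := by
  have hd : diss ε g h x p M - dis0 ε g h x p M
      = 2 * (bnn g x p (h x) + btan g x p (h x) / 2) * len g x p / (2 - ε) := by
    unfold diss dis0
    ring
  have hn : ∀ j, len g x p * nrm g x p j = raise g x p j := by
    intro j
    unfold nrm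
    by_cases hl : len g x p = 0
    · rw [h0 hl j]
      simp
    · field_simp
  have hb : len g x p * len g x p * bnn g x p (h x)
      = ∑ i, ∑ j, h x i j * (raise g x p i * raise g x p j) := by
    unfold bnn ev
    rw [Finset.mul_sum]
    refine Finset.sum_congr rfl fun i _ => ?_
    rw [Finset.mul_sum]
    refine Finset.sum_congr rfl fun j _ => ?_
    rw [← hn i, ← hn j]
    ring
  have hm : len g x p * matter g h x p
      = energyDensity g h x * len g x p - ∑ j, momV g h x j * raise g x p j := by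
    unfold matter momV
    rw [mul_sub, Finset.mul_sum]
    congr 1
    · ring
    · refine Finset.sum_congr rfl fun j _ => ?_
      rw [← hn j]
      ring
  rw [show matter g h x p + diss ε g h x p M - dis0 ε g h x p M
    = matter g h x p + (diss ε g h x p M - dis0 ε g h x p M) by ring, hd, mul_add, hm, ← hb]
  unfold btan trg
  ring

theorem third_eq (p : Cov) : (1 + vsq p) * vn p = vn p + vn p ^ 3 := by
  have : vn p ^ 2 = vsq p := Real.sq_sqrt (vsq_nonneg p)
  rw [← this]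
  ring

/-! ## Convergence -/

theorem tendsto_sum_abs {ι : Type*} (s : Finset ι) {μ : Measure E3} {q : ℝ≥0∞} (hq : 1 ≤ q)
    {f : ℕ → ι → E3 → ℝ} (hm : ∀ n, ∀ i ∈ s, AEStronglyMeasurable (f n i) μ)
    (h : ∀ i ∈ s, Tendsto (fun n => eLpNorm (f n i) q μ) atTop (𝓝 0)) :
    Tendsto (fun n => eLpNorm (fun x => ∑ i ∈ s, |f n i x|) q μ) atTop (𝓝 0) := by
  have h0 : Tendsto (fun n => ∑ i ∈ s, eLpNorm (f n i) q μ) atTop (𝓝 0) := by
    simpa using tendsto_finsetSum s h
  refine tendsto_of_tendsto_of_tendsto_of_le_of_le tendsto_const_nhds h0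
    (fun n => zero_le) (fun n => ?_)
  have e : (fun x => ∑ i ∈ s, |f n i x|) = ∑ i ∈ s, (fun x => ‖f n i x‖) := by
    funext x
    simp [Finset.sum_apply, Real.norm_eq_abs]
  simp only [e]
  refine (eLpNorm_sum_le (fun i hi => (hm n i hi).norm) hq).trans ?_
  refine Finset.sum_le_sum fun i _ => ?_
  rw [eLpNorm_norm]

theorem holder442 : ENNReal.HolderTriple 4 4 2 where
  inv_add_inv_eq_inv := by
    rw [← two_mul, show (4 : ℝ≥0∞) = 2 * 2 by norm_num,
      ENNReal.mul_inv (Or.inl (by norm_num)) (Or.inl (by norm_num)), ← mul_assoc,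
      ENNReal.mul_inv_cancel (by norm_num) (by norm_num), one_mul]

theorem conv_abs {μ : Measure E3} [IsFiniteMeasure μ] (a b : ℕ → E3 → ℝ) (A B : E3 → ℝ)
    (ma : ∀ n, AEStronglyMeasurable (a n) μ) (mb : ∀ n, AEStronglyMeasurable (b n) μ)
    (ta : Tendsto (fun n => eLpNorm (a n) 4 μ) atTop (𝓝 0))
    (tb : Tendsto (fun n => eLpNorm (b n) 2 μ) atTop (𝓝 0))
    (mA : MemLp A 4 μ) (mB : MemLp B 2 μ) (a0 : ∀ n x, 0 ≤ a n x) (b0 : ∀ n x, 0 ≤ b n x)
    (B0 : ∀ x, 0 ≤ B x) (Δ : ℕ → E3 → ℝ) (K₀ : ℝ)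
    (hΔ : ∀ n, ∀ᵐ x ∂μ, |Δ n x| ≤ K₀ * ((a n x + b n x) * (1 + B x + A x ^ 2 + a n x ^ 2))) :
    Tendsto (fun n => ∫ x, |Δ n x| ∂μ) atTop (𝓝 0) := by
  have := holder442
  have ta2 : Tendsto (fun n => eLpNorm (a n) 2 μ) atTop (𝓝 0) := by
    have h1 : Tendsto (fun n => eLpNorm (a n) 4 μ
        * μ Set.univ ^ (1 / (2 : ℝ≥0∞).toReal - 1 / (4 : ℝ≥0∞).toReal)) atTop (𝓝 0) := by
      have := ENNReal.Tendsto.mul_const
        (b := μ Set.univ ^ (1 / (2 : ℝ≥0∞).toReal - 1 / (4 : ℝ≥0∞).toReal)) ta (Or.inr ?_)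
      · simpa using this
      · refine ENNReal.rpow_ne_top_of_nonneg ?_ (measure_ne_top _ _)
        norm_num
    refine tendsto_of_tendsto_of_tendsto_of_le_of_le tendsto_const_nhds h1
      (fun n => zero_le) (fun n => ?_)
    exact eLpNorm_le_eLpNorm_mul_rpow_measure_univ (by norm_num) (ma n)
  -- the first factor
  have tE : Tendsto (fun n => eLpNorm (fun x => a n x + b n x) 2 μ) atTop (𝓝 0) := by
    have h1 : Tendsto (fun n => eLpNorm (a n) 2 μ + eLpNorm (b n) 2 μ) atTop (𝓝 0) := by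
      simpa using ta2.add tb
    refine tendsto_of_tendsto_of_tendsto_of_le_of_le tendsto_const_nhds h1
      (fun n => zero_le) (fun n => ?_)
    exact eLpNorm_add_le (ma n) (mb n) (by norm_num)
  -- the second factor
  have mA2 : MemLp (fun x => A x ^ 2) 2 μ := by
    have : (fun x => A x ^ 2) = fun x => A x * A x := by
      funext x
      ring
    rw [this]
    exact MemLp.mul' mA mA
  have m1 : MemLp (fun _ : E3 => (1 : ℝ)) 2 μ := memLp_const (1 : ℝ)
  have m2 : MemLp (fun x => 1 + B x) 2 μ := m1.add mB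
  have mS : MemLp (fun x => 1 + B x + A x ^ 2) 2 μ := m2.add mA2
  have tW : Tendsto (fun n => eLpNorm (fun x => 1 + B x + A x ^ 2) 2 μ
      + eLpNorm (a n) 4 μ * eLpNorm (a n) 4 μ) atTop
      (𝓝 (eLpNorm (fun x => 1 + B x + A x ^ 2) 2 μ + 0 * 0)) := by
    refine tendsto_const_nhds.add ?_
    exact ENNReal.Tendsto.mul ta (Or.inr (by simp)) ta (Or.inr (by simp))
  have mW : ∀ n, AEStronglyMeasurable (fun x => 1 + B x + A x ^ 2 + a n x ^ 2) μ :=
    fun n => mS.1.add ((ma n).pow 2)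
  have hW : ∀ n, eLpNorm (fun x => 1 + B x + A x ^ 2 + a n x ^ 2) 2 μ
      ≤ eLpNorm (fun x => 1 + B x + A x ^ 2) 2 μ
        + eLpNorm (a n) 4 μ * eLpNorm (a n) 4 μ := by
    intro n
    have h1 : eLpNorm (fun x => 1 + B x + A x ^ 2 + a n x ^ 2) 2 μ
        ≤ eLpNorm (fun x => 1 + B x + A x ^ 2) 2 μ
          + eLpNorm (fun x => a n x ^ 2) 2 μ :=
      eLpNorm_add_le mS.1 ((ma n).pow 2) (by norm_num)
    refine h1.trans (add_le_add le_rfl ?_)
    have e : (fun x => a n x ^ 2) = (a n) • (a n) := by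
      funext x
      simp [sq]
    rw [e]
    exact eLpNorm_smul_le_mul_eLpNorm (ma n) (ma n)
  -- the product
  have mE : ∀ n, AEStronglyMeasurable (fun x => a n x + b n x) μ := fun n => (ma n).add (mb n)
  obtain ⟨D, hD⟩ : ∃ D : ℕ → E3 → ℝ, ∀ n x, D n x =
    (a n x + b n x) * (1 + B x + A x ^ 2 + a n x ^ 2) := ⟨_, fun _ _ => rfl⟩
  have eD : ∀ n, D n = (fun x => a n x + b n x) •
        (fun x => 1 + B x + A x ^ 2 + a n x ^ 2) := by
    intro n
    funext x
    simp [hD]
  have tD : Tendsto (fun n => eLpNorm (D n) 1 μ) atTop (𝓝 0) := by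
    have h1 : Tendsto (fun n => eLpNorm (fun x => a n x + b n x) 2 μ
        * (eLpNorm (fun x => 1 + B x + A x ^ 2) 2 μ
          + eLpNorm (a n) 4 μ * eLpNorm (a n) 4 μ)) atTop (𝓝 0) := by
      have := ENNReal.Tendsto.mul tE (Or.inr ?_) tW (Or.inr (by simp))
      · simpa using this
      · simpa using mS.2.ne
    refine tendsto_of_tendsto_of_tendsto_of_le_of_le tendsto_const_nhds h1
      (fun n => zero_le) (fun n => ?_)
    refine le_trans ?_ (mul_le_mul' le_rfl (hW n))
    rw [eD n]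
    exact eLpNorm_smul_le_mul_eLpNorm (mW n) (mE n)
  have mD : ∀ n, AEStronglyMeasurable (D n) μ := fun n => by
    rw [eD n]
    exact (mE n).smul (mW n)
  have hD0 : ∀ n x, 0 ≤ D n x := by
    intro n x
    rw [hD]
    have h1 := a0 n x
    have h2 := b0 n x
    have h3 := B0 x
    positivity
  have tI : Tendsto (fun n => ∫ x, D n x ∂μ) atTop (𝓝 0) := by
    have e : ∀ n, ∫ x, D n x ∂μ = (eLpNorm (D n) 1 μ).toReal := by
      intro n
      rw [eLpNorm_one_eq_lintegral_enorm, ← integral_norm_eq_lintegral_enorm (mD n)]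
      refine integral_congr_ae (Eventually.of_forall fun x => ?_)
      simp only [Real.norm_eq_abs]
      rw [abs_of_nonneg (hD0 n x)]
    simp only [e]
    have := (ENNReal.tendsto_toReal ENNReal.zero_ne_top).comp tD
    rw [ENNReal.toReal_zero] at this
    exact this
  have fin : ∀ᶠ n in atTop, Integrable (D n) μ := by
    have h1 : ∀ᶠ n in atTop, eLpNorm (D n) 1 μ < 1 :=
      (tendsto_order.1 tD).2 1 zero_lt_one
    filter_upwards [h1] with n hn
    exact memLp_one_iff_integrable.mp ⟨mD n, hn.trans ENNReal.one_lt_top⟩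
  refine squeeze_zero' (g := fun n => K₀ * ∫ x, D n x ∂μ)
    (Eventually.of_forall fun n => integral_nonneg fun x => abs_nonneg _) ?_ ?_
  · filter_upwards [fin] with n hn
    rw [← integral_const_mul]
    refine integral_mono_of_nonneg (Eventually.of_forall fun x => abs_nonneg _)
      (hn.const_mul K₀) ?_
    filter_upwards [hΔ n] with x hx
    rw [hD]
    exact hx
  · simpa using tI.const_mul K₀

theorem contDiff_pd {f : E3 → ℝ} (hf : ContDiff ℝ ∞ f) (i : Fin 3) : ContDiff ℝ ∞ (pd i f) := by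
  unfold pd
  exact (hf.fderiv_right (m := ∞) (by norm_cast)).clm_apply contDiff_const

theorem conv_of_good {K : Set E3} (hK : IsCompact K) {F : E3 → Cov → Bil → ℝ}
    (hF : UGood K F) (G : E3 → Cov) (M : E3 → Bil) (v : ℕ → E3 → ℝ)
    (hv : ∀ n, ContDiff ℝ ∞ (v n))
    (hG : ∀ i, MemLp (fun x => G x i) 4 (volume.restrict K))
    (hM : ∀ i j, MemLp (fun x => M x i j) 2 (volume.restrict K))
    (c1 : ∀ i, Tendsto (fun n => eLpNorm (fun x => pd i (v n) x - G x i) 4 (volume.restrict K))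
      atTop (𝓝 0))
    (c2 : ∀ i j, Tendsto (fun n => eLpNorm (fun x => pd i (pd j (v n)) x - M x i j) 2
      (volume.restrict K)) atTop (𝓝 0)) :
    Tendsto (fun n => ∫ x in K, |F x (grad (v n) x) (hess2 (v n) x) - F x (G x) (M x)|)
      atTop (𝓝 0) := by
  have fin : IsFiniteMeasure (volume.restrict K) := ⟨by
    rw [Measure.restrict_apply_univ]
    exact hK.measure_lt_top⟩
  obtain ⟨K₀, hK₀, hF⟩ := hF
  have mp : ∀ n i, AEStronglyMeasurable (fun x => pd i (v n) x - G x i) (volume.restrict K) :=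
    fun n i => ((contDiff_pd (hv n) i).continuous.aestronglyMeasurable).sub (hG i).1
  have mh : ∀ n i j, AEStronglyMeasurable (fun x => pd i (pd j (v n)) x - M x i j)
      (volume.restrict K) :=
    fun n i j => ((contDiff_pd (contDiff_pd (hv n) j) i).continuous.aestronglyMeasurable).sub
      (hM i j).1
  have ea : ∀ n x, l1 (grad (v n) x - G x) = ∑ i : Fin 3, |pd i (v n) x - G x i| :=
    fun n x => rfl
  have eb : ∀ n x, m1 (hess2 (v n) x - M x) = ∑ ij : Fin 3 × Fin 3,
      |pd ij.1 (pd ij.2 (v n)) x - M x ij.1 ij.2| := by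
    intro n x
    rw [Fintype.sum_prod_type]
    rfl
  have ma : ∀ n, AEStronglyMeasurable (fun x => ∑ i : Fin 3, |pd i (v n) x - G x i|)
      (volume.restrict K) := by
    intro n
    exact Finset.aestronglyMeasurable_fun_sum Finset.univ fun i _ => (mp n i).norm
  have mb : ∀ n, AEStronglyMeasurable (fun x => ∑ ij : Fin 3 × Fin 3,
      |pd ij.1 (pd ij.2 (v n)) x - M x ij.1 ij.2|) (volume.restrict K) := by
    intro n
    exact Finset.aestronglyMeasurable_fun_sum Finset.univ fun i _ => (mh n i.1 i.2).norm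
  have ta := tendsto_sum_abs (q := 4) (f := fun n i x => pd i (v n) x - G x i) Finset.univ
    (by norm_num) (fun n i _ => mp n i) (fun i _ => c1 i)
  have tb := tendsto_sum_abs (ι := Fin 3 × Fin 3) (q := 2)
    (f := fun n ij x => pd ij.1 (pd ij.2 (v n)) x - M x ij.1 ij.2) Finset.univ (by norm_num)
    (fun n i _ => mh n i.1 i.2) (fun i _ => c2 i.1 i.2)
  have mA : MemLp (fun x => l1 (G x)) 4 (volume.restrict K) := by
    have : (fun x => l1 (G x)) = fun x => ∑ i : Fin 3, ‖G x i‖ := rfl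
    rw [this]
    exact memLp_finsetSum Finset.univ fun i _ => (hG i).norm
  have mB : MemLp (fun x => m1 (M x)) 2 (volume.restrict K) := by
    have : (fun x => m1 (M x)) = fun x => ∑ i : Fin 3, ∑ j : Fin 3, ‖M x i j‖ := rfl
    rw [this]
    exact memLp_finsetSum Finset.univ fun i _ =>
      memLp_finsetSum Finset.univ fun j _ => (hM i j).norm
  refine conv_abs _ _ (fun x => l1 (G x)) (fun x => m1 (M x)) ma mb ta tb mA mB
    (fun n x => Finset.sum_nonneg fun _ _ => abs_nonneg _)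
    (fun n x => Finset.sum_nonneg fun _ _ => abs_nonneg _) (fun x => m1_nonneg _) _ K₀ ?_
  intro n
  filter_upwards [ae_restrict_mem hK.measurableSet] with x hx
  have := hF x hx (grad (v n) x) (G x) (hess2 (v n) x) (M x)
  rw [ea, eb] at this
  exact this

end MCV

theorem CV (hCT : Stmt_CT) : Stmt_CV := by
  intro ε U g h w G M K v hε hε1 hU hg hh hw _ hK hKU hv c1 c2
  obtain ⟨C, hC, hb⟩ := hCT U g h hU hg hh K hK hKU
  have hP : ∀ x ∈ K, ∀ i j, |(g x)⁻¹ i j| ≤ C := fun x hx =>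
    (hb x hx).2.2.2.2.2.2.2.2.1
  have hvs : ∀ x ∈ K, ∀ p, vsq p / C ≤ ev (g x)⁻¹ p p ∧ ev (g x)⁻¹ p p ≤ C * vsq p :=
    fun x hx => (hb x hx).1
  have hC0 : 0 ≤ C := zero_le_one.trans hC
  have bP : ∀ i j, MCV.UBd K fun x => (g x)⁻¹ i j := fun i j =>
    ⟨C, hC0, fun x hx => hP x hx i j⟩
  have bΓ : ∀ k i j, MCV.UBd K fun x => christoffel g k i j x := fun k i j =>
    ⟨C, hC0, fun x hx => (hb x hx).2.2.2.1 k i j⟩
  have bh : ∀ i j, MCV.UBd K fun x => h x i j := fun i j =>
    ⟨C, hC0, fun x hx => (hb x hx).2.2.2.2.1 i j⟩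
  have bm : ∀ i, MCV.UBd K fun x => momV g h x i := fun i =>
    ⟨C, hC0, fun x hx => (hb x hx).2.2.2.2.2.1 i⟩
  have be : MCV.UBd K fun x => energyDensity g h x :=
    ⟨C, hC0, fun x hx => (hb x hx).2.2.2.2.2.2.1⟩
  have bt : MCV.UBd K fun x => ∑ i, ∑ j, (g x)⁻¹ i j * h x i j :=
    MCV.UBd.sum Finset.univ fun i _ => MCV.UBd.sum Finset.univ fun j _ => (bP i j).mul (bh i j)
  have lr : ∀ i, MCV.ULip K fun x p => raise g x p i := fun i => MCV.ULip.raise bP i
  have ll : MCV.ULip K fun x p => len g x p := MCV.ULip.len hC hP hvs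
  have lt : ∀ i j, MCV.ULip K fun x p => MCV.tm g i j x p := fun i j =>
    (MCV.ULip.coef (bP i j) ll).sub (MCV.ULip.quot hC hP hvs (lr i) (lr j))
  have hG : ∀ i, MemLp (fun x => G x i) 4 (volume.restrict K) := hw.memG K hK hKU
  have hM : ∀ i j, MemLp (fun x => M x i j) 2 (volume.restrict K) := hw.memM K hK hKU
  have z0 : ∀ x ∈ K, ∀ p, len g x p = 0 → ∀ i, raise g x p i = 0 := by
    intro x hx p hl i
    have h1 := (MCV.sqrt_props (g x)⁻¹ C hC (hP x hx) (hvs x hx)).1 p
    have h2 : lp (g x)⁻¹ p = 0 := hl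
    rw [h2, mul_zero] at h1
    have h3 := MCV.l1_zero_of p (le_antisymm h1 (MCV.l1_nonneg p))
    rw [h3]
    simp [raise]
  refine ⟨?_, ?_, ?_⟩
  · refine MCV.conv_of_good hK (F := fun x p M => flux ε g h x p M) ?_ G M v hv hG hM c1 c2
    refine MCV.UGood.congr ?_ fun x _ p M => MCV.flux_eq ε g h x p M
    refine ((MCV.UGood.sub ?_ ?_).sub ?_).sub (MCV.UGood.sub ?_ ?_)
    · exact MCV.UGood.sum Finset.univ fun i _ => MCV.UGood.sum Finset.univ fun j _ =>
        MCV.UGood.entry i j (lt i j)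
    · exact MCV.UGood.sum Finset.univ fun i _ => MCV.UGood.sum Finset.univ fun j _ =>
        MCV.UGood.sum Finset.univ fun k _ => MCV.UGood.coef (bΓ k i j)
          (MCV.UGood.mul (MCV.ULip.coord k) (lt i j))
    · exact MCV.UGood.coef (MCV.UBd.const _) (MCV.UGood.cube ll)
    · exact MCV.UGood.coef bt (MCV.UGood.mul ll ll)
    · exact MCV.UGood.sum Finset.univ fun i _ => MCV.UGood.sum Finset.univ fun j _ =>
        MCV.UGood.coef (bh i j) (MCV.UGood.mul (lr i) (lr j))
  · refine MCV.conv_of_good hK (F := fun x p M => len g x p * (matter g h x p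
      + diss ε g h x p M - dis0 ε g h x p M)) ?_ G M v hv hG hM c1 c2
    refine MCV.UGood.congr ?_ fun x hx p M => MCV.second_eq ε g h x p M (z0 x hx p)
    refine (MCV.UGood.sub ?_ ?_).add (MCV.UGood.coef (MCV.UBd.const _) (MCV.UGood.add ?_ ?_))
    · exact MCV.UGood.coef be (MCV.UGood.ofLip ll)
    · exact MCV.UGood.sum Finset.univ fun j _ => MCV.UGood.coef (bm j)
        (MCV.UGood.ofLip (lr j))
    · exact MCV.UGood.coef bt (MCV.UGood.mul ll ll)
    · exact MCV.UGood.sum Finset.univ fun i _ => MCV.UGood.sum Finset.univ fun j _ =>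
        MCV.UGood.coef (bh i j) (MCV.UGood.mul (lr i) (lr j))
  · refine MCV.conv_of_good hK (F := fun _ p _ => (1 + vsq p) * vn p) ?_ G M v hv hG hM c1 c2
    refine MCV.UGood.congr ?_ fun x _ p _ => MCV.third_eq p
    exact (MCV.UGood.ofLip MCV.ULip.vn).add (MCV.UGood.cube MCV.ULip.vn)

end Pool.Agent.PFlow
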