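import Pool.Agent.PFlow.StmtsM

/-!
# FA: the filled functions are Lipschitz and truncated
-/

open MeasureTheory Filter Topology

namespace Pool.Agent.PFlow

open Pool.Agent.PenroseSph

namespace MFA

theorem rank_E3 : 1 < Module.rank ℝ E3 := by
  rw [← Module.finrank_eq_rank, finrank_euclideanSpace, Fintype.card_fin]
  norm_num

/-- The outside of a ball is preconnected. -/
theorem outside_preconnected {b : ℝ} (hb : 0 < b) : IsPreconnected {x : E3 | b ≤ ‖x‖} := by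
  have h1 : IsPreconnected ((Metric.sphere (0 : E3) 1) ×ˢ (Set.Ici b)) :=
    (isPreconnected_sphere rank_E3 0 1).prod isPreconnected_Ici
  have h2 : Continuous fun p : E3 × ℝ => p.2 • p.1 := continuous_snd.smul continuous_fst
  have h3 := h1.image _ h2.continuousOn
  have h4 : (fun p : E3 × ℝ => p.2 • p.1) '' ((Metric.sphere (0 : E3) 1) ×ˢ (Set.Ici b)) =
      {x : E3 | b ≤ ‖x‖} := by
    ext x
    constructor
    · rintro ⟨⟨u, t⟩, ⟨hu, ht⟩, rfl⟩
      have hu' : ‖u‖ = 1 := by simpa using hu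
      have ht' : b ≤ t := ht
      show b ≤ ‖t • u‖
      rw [norm_smul, hu', mul_one, Real.norm_of_nonneg (by linarith)]
      exact ht'
    · intro hx
      have hx' : b ≤ ‖x‖ := hx
      have h0 : 0 < ‖x‖ := by linarith
      refine ⟨(‖x‖⁻¹ • x, ‖x‖), ⟨?_, hx'⟩, ?_⟩
      · show ‖x‖⁻¹ • x ∈ Metric.sphere (0 : E3) 1
        rw [mem_sphere_zero_iff_norm, norm_smul, norm_inv, norm_norm, inv_mul_cancel₀ h0.ne']
      · show ‖x‖ • (‖x‖⁻¹ • x) = x
        rw [smul_smul, mul_inv_cancel₀ h0.ne', one_smul]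
  rwa [h4] at h3

/-- Adding a segment. -/
theorem conn_segment {A A' : Set E3} {y y' z : E3} (h : Conn A y z) (hA : A ⊆ A')
    (hs : segment ℝ y y' ⊆ A') : Conn A' y' z := by
  obtain ⟨S, hS, hp, hy, hz⟩ := h
  exact ⟨S ∪ segment ℝ y y', Set.union_subset (hS.trans hA) hs,
    IsPreconnected.union y hy (left_mem_segment ℝ y y') hp (convex_segment y y').isPreconnected,
    Or.inr (right_mem_segment ℝ y y'), Or.inl hz⟩

theorem lip_segment {W : E3 → ℝ} {C : NNReal} (h : LipschitzWith C W) {y y' z : E3}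
    (hz : z ∈ segment ℝ y y') : |W z - W y| ≤ C * ‖y' - y‖ := by
  have h1 := h.dist_le_mul z y
  rw [Real.dist_eq, dist_eq_norm] at h1
  exact h1.trans (mul_le_mul_of_nonneg_left (norm_sub_le_of_mem_segment hz) C.2)

section A

variable {a' b' s₀ s₁ : ℝ} {W : E3 → ℝ} {C : NNReal} {z₁ : E3}

theorem setA_s0 (hT : Trunc a' b' s₀ s₁ W) (y : E3) :
    s₀ ∈ {c : ℝ | s₀ ≤ c ∧ Conn {z | c ≤ W z} y z₁} :=
  ⟨le_rfl, Set.univ, fun z _ => hT.lower z, isPreconnected_univ, Set.mem_univ _, Set.mem_univ _⟩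

theorem setA_le {c : ℝ} {y : E3} (h : Conn {z | c ≤ W z} y z₁) : c ≤ W y := by
  obtain ⟨S, hS, _, hy, _⟩ := h
  exact hS hy

theorem setA_bdd (y : E3) : BddAbove {c : ℝ | s₀ ≤ c ∧ Conn {z | c ≤ W z} y z₁} :=
  ⟨W y, fun _ hc => setA_le hc.2⟩

theorem fillA_le (hT : Trunc a' b' s₀ s₁ W) (y : E3) : fillA W s₀ z₁ y ≤ W y :=
  csSup_le ⟨s₀, setA_s0 hT y⟩ fun _ hc => setA_le hc.2

theorem le_fillA {c : ℝ} {y : E3} (h : s₀ ≤ c ∧ Conn {z | c ≤ W z} y z₁) :
    c ≤ fillA W s₀ z₁ y := le_csSup (setA_bdd y) h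

theorem s0_le_fillA (hT : Trunc a' b' s₀ s₁ W) (y : E3) : s₀ ≤ fillA W s₀ z₁ y :=
  le_fillA (setA_s0 hT y)

theorem fillA_lip1 (hT : Trunc a' b' s₀ s₁ W) (hL : LipschitzWith C W) (y y' : E3) :
    fillA W s₀ z₁ y - C * ‖y' - y‖ ≤ fillA W s₀ z₁ y' := by
  rw [sub_le_iff_le_add]
  refine csSup_le ⟨s₀, setA_s0 hT y⟩ ?_
  rintro c ⟨hc, hconn⟩
  have h0 : 0 ≤ C * ‖y' - y‖ := mul_nonneg C.2 (norm_nonneg _)
  have h1 : max s₀ (c - C * ‖y' - y‖) ≤ fillA W s₀ z₁ y' := by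
    refine le_fillA ⟨le_max_left _ _, conn_segment hconn ?_ ?_⟩
    · intro z hz
      have hz' : c ≤ W z := hz
      exact max_le (hc.trans hz') (by linarith)
    · intro z hz
      have h2 := lip_segment hL hz
      have h3 := setA_le hconn
      have h4 := (abs_le.1 h2).1
      exact max_le (hT.lower z) (by linarith)
  have h2 := (le_max_right s₀ (c - C * ‖y' - y‖)).trans h1
  linarith

theorem fillA_lip (hT : Trunc a' b' s₀ s₁ W) (hL : LipschitzWith C W) :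
    LipschitzWith C (fillA W s₀ z₁) := by
  refine LipschitzWith.of_dist_le_mul fun y y' => ?_
  rw [Real.dist_eq, dist_eq_norm, abs_le]
  have h1 := fillA_lip1 (z₁ := z₁) hT hL y y'
  have h2 := fillA_lip1 (z₁ := z₁) hT hL y' y
  have h3 : ‖y' - y‖ = ‖y - y'‖ := norm_sub_rev _ _
  rw [h3] at h1
  constructor <;> linarith

theorem fillA_trunc (hT : Trunc a' b' s₀ s₁ W) (hL : LipschitzWith C W) (hz : b' ≤ ‖z₁‖) :
    Trunc a' b' s₀ s₁ (fillA W s₀ z₁) where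
  pos := hT.pos
  lt := hT.lt
  lts := hT.lts
  cont := (fillA_lip hT hL).continuous
  lower := s0_le_fillA hT
  upper := fun x => (fillA_le hT x).trans (hT.upper x)
  inner := fun x hx => le_antisymm ((fillA_le hT x).trans (hT.inner x hx).le) (s0_le_fillA hT x)
  outer := fun x hx => by
    refine le_antisymm ((fillA_le hT x).trans (hT.upper x)) (le_fillA ⟨hT.lts.le, ?_⟩)
    exact ⟨{x | b' ≤ ‖x‖}, fun z hz => (hT.outer z hz).ge,
      outside_preconnected (hT.pos.trans hT.lt), hx, hz⟩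

end A

section B

variable {a' b' s₀ s₁ : ℝ} {W : E3 → ℝ} {C : NNReal}

theorem setB_s1 {z₀ : E3} (hT : Trunc a' b' s₀ s₁ W) (y : E3) :
    s₁ ∈ {c : ℝ | c ≤ s₁ ∧ Conn {z | W z ≤ c} y z₀} :=
  ⟨le_rfl, Set.univ, fun z _ => hT.upper z, isPreconnected_univ, Set.mem_univ _, Set.mem_univ _⟩

theorem setB_ge {z₀ : E3} {c : ℝ} {y : E3} (h : Conn {z | W z ≤ c} y z₀) : W y ≤ c := by
  obtain ⟨S, hS, _, hy, _⟩ := h
  exact hS hy

theorem setB_bdd {z₀ : E3} (y : E3) : BddBelow {c : ℝ | c ≤ s₁ ∧ Conn {z | W z ≤ c} y z₀} :=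
  ⟨W y, fun _ hc => setB_ge hc.2⟩

theorem le_fillB {z₀ : E3} (hT : Trunc a' b' s₀ s₁ W) (y : E3) : W y ≤ fillB W s₁ z₀ y :=
  le_csInf ⟨s₁, setB_s1 hT y⟩ fun _ hc => setB_ge hc.2

theorem fillB_le {z₀ : E3} {c : ℝ} {y : E3} (h : c ≤ s₁ ∧ Conn {z | W z ≤ c} y z₀) :
    fillB W s₁ z₀ y ≤ c := csInf_le (setB_bdd y) h

theorem fillB_le_s1 {z₀ : E3} (hT : Trunc a' b' s₀ s₁ W) (y : E3) : fillB W s₁ z₀ y ≤ s₁ :=
  fillB_le (setB_s1 hT y)

theorem fillB_lip1 {z₀ : E3} (hT : Trunc a' b' s₀ s₁ W) (hL : LipschitzWith C W) (y y' : E3) :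
    fillB W s₁ z₀ y' ≤ fillB W s₁ z₀ y + C * ‖y' - y‖ := by
  rw [← sub_le_iff_le_add]
  refine le_csInf ⟨s₁, setB_s1 hT y⟩ ?_
  rintro c ⟨hc, hconn⟩
  have h0 : 0 ≤ C * ‖y' - y‖ := mul_nonneg C.2 (norm_nonneg _)
  have h1 : fillB W s₁ z₀ y' ≤ min s₁ (c + C * ‖y' - y‖) := by
    refine fillB_le ⟨min_le_left _ _, conn_segment hconn ?_ ?_⟩
    · intro z hz
      have hz' : W z ≤ c := hz
      exact le_min (hz'.trans hc) (by linarith)
    · intro z hz
      have h2 := lip_segment hL hz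
      have h3 := setB_ge hconn
      have h4 := (abs_le.1 h2).2
      exact le_min (hT.upper z) (by linarith)
  have h2 := h1.trans (min_le_right s₁ (c + C * ‖y' - y‖))
  linarith

theorem fillB_lip {z₀ : E3} (hT : Trunc a' b' s₀ s₁ W) (hL : LipschitzWith C W) :
    LipschitzWith C (fillB W s₁ z₀) := by
  refine LipschitzWith.of_dist_le_mul fun y y' => ?_
  rw [Real.dist_eq, dist_eq_norm, abs_le]
  have h1 := fillB_lip1 (z₀ := z₀) hT hL y y'
  have h2 := fillB_lip1 (z₀ := z₀) hT hL y' y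
  have h3 : ‖y' - y‖ = ‖y - y'‖ := norm_sub_rev _ _
  rw [h3] at h1
  constructor <;> linarith

theorem fillB_trunc (hT : Trunc a' b' s₀ s₁ W) (hL : LipschitzWith C W) :
    Trunc a' b' s₀ s₁ (fillB W s₁ 0) where
  pos := hT.pos
  lt := hT.lt
  lts := hT.lts
  cont := (fillB_lip hT hL).continuous
  lower := fun x => (hT.lower x).trans (le_fillB hT x)
  upper := fillB_le_s1 hT
  inner := fun x hx => by
    refine le_antisymm (fillB_le ⟨hT.lts.le, ?_⟩) ((hT.lower x).trans (le_fillB hT x))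
    refine ⟨Metric.closedBall 0 a', fun z hz => ?_, (convex_closedBall 0 a').isPreconnected,
      mem_closedBall_zero_iff.2 hx, Metric.mem_closedBall_self hT.pos.le⟩
    exact (hT.inner z (mem_closedBall_zero_iff.1 hz)).le
  outer := fun x hx => le_antisymm (fillB_le_s1 hT x) ((hT.outer x hx).ge.trans (le_fillB hT x))

end B

end MFA

theorem FA : Stmt_FA := by
  intro a' b' s₀ s₁ W C z₁ hT hL hz
  have h1 := MFA.fillA_lip (z₁ := z₁) hT hL
  have h2 := MFA.fillA_trunc hT hL hz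
  exact ⟨h1, MFA.fillB_lip h2 h1, MFA.fillA_le hT, MFA.le_fillB h2, h2, MFA.fillB_trunc h2 h1⟩

end Pool.Agent.PFlow
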