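import Pool.Agent.PFlow.StmtsM

/-!
# The filled functions are locally constant where something was filled
-/

open MeasureTheory Filter Topology

namespace Pool.Agent.PFlow

open Pool.Agent.PenroseSph

namespace MFB

/-- Moving the first point inside a preconnected set. -/
theorem conn_move {A B : Set E3} {x y z : E3} (hB : IsPreconnected B) (hx : x ∈ B) (hy : y ∈ B)
    (hBA : B ⊆ A) (h : Conn A x z) : Conn A y z := by
  obtain ⟨S, hSA, hS, hxS, hzS⟩ := h
  exact ⟨S ∪ B, Set.union_subset hSA hBA, hS.union x hxS hx hB, Or.inr hy, Or.inl hzS⟩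

/-- Comparison of the values of `fillA` at two points of a preconnected set. -/
theorem fillA_le {W : E3 → ℝ} {s₀ m : ℝ} {z₁ : E3} (hlow : ∀ x, s₀ ≤ W x) {B : Set E3}
    (hB : IsPreconnected B) (hm : ∀ z ∈ B, m ≤ W z) {x y : E3} (hx : x ∈ B) (hy : y ∈ B)
    (hxm : fillA W s₀ z₁ x ≤ m) : fillA W s₀ z₁ x ≤ fillA W s₀ z₁ y := by
  have hbdd : ∀ u : E3, BddAbove {c : ℝ | s₀ ≤ c ∧ Conn {z | c ≤ W z} u z₁} := by
    intro u
    refine ⟨W z₁, ?_⟩
    rintro c ⟨-, S, hS, -, -, hz⟩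
    exact hS hz
  have hne : {c : ℝ | s₀ ≤ c ∧ Conn {z | c ≤ W z} x z₁}.Nonempty :=
    ⟨s₀, le_rfl, Set.univ, fun z _ => hlow z, isPreconnected_univ, Set.mem_univ _,
      Set.mem_univ _⟩
  refine csSup_le hne ?_
  rintro c ⟨hc0, hc⟩
  have hcx : c ≤ fillA W s₀ z₁ x := le_csSup (hbdd x) ⟨hc0, hc⟩
  refine le_csSup (hbdd y) ⟨hc0, conn_move hB hx hy ?_ hc⟩
  intro z hz
  exact (hcx.trans hxm).trans (hm z hz)

/-- Comparison of the values of `fillB` at two points of a preconnected set. -/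
theorem fillB_le {V : E3 → ℝ} {s₁ m : ℝ} {z₀ : E3} (hup : ∀ x, V x ≤ s₁) {B : Set E3}
    (hB : IsPreconnected B) (hm : ∀ z ∈ B, V z ≤ m) {x y : E3} (hx : x ∈ B) (hy : y ∈ B)
    (hxm : m ≤ fillB V s₁ z₀ x) : fillB V s₁ z₀ y ≤ fillB V s₁ z₀ x := by
  have hbdd : ∀ u : E3, BddBelow {c : ℝ | c ≤ s₁ ∧ Conn {z | V z ≤ c} u z₀} := by
    intro u
    refine ⟨V z₀, ?_⟩
    rintro c ⟨-, S, hS, -, -, hz⟩
    exact hS hz
  have hne : {c : ℝ | c ≤ s₁ ∧ Conn {z | V z ≤ c} x z₀}.Nonempty :=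
    ⟨s₁, le_rfl, Set.univ, fun z _ => hup z, isPreconnected_univ, Set.mem_univ _,
      Set.mem_univ _⟩
  refine le_csInf hne ?_
  rintro c ⟨hc0, hc⟩
  have hcx : fillB V s₁ z₀ x ≤ c := csInf_le (hbdd x) ⟨hc0, hc⟩
  refine csInf_le (hbdd y) ⟨hc0, conn_move hB hx hy ?_ hc⟩
  intro z hz
  exact (hm z hz).trans (hxm.trans hcx)

end MFB

theorem FB (hFA : Stmt_FA) : Stmt_FB := by
  intro a' b' s₀ s₁ W C z₁ hT hC hz
  obtain ⟨hL1, hL2, hAW, hAF, hT1, hT2⟩ := hFA a' b' s₀ s₁ W C z₁ hT hC hz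
  refine ⟨?_, ?_⟩
  · intro x hx
    have hlt : fillA W s₀ z₁ x < W x := lt_of_le_of_ne (hAW x) hx
    obtain ⟨m, hm1, hm2⟩ := exists_between hlt
    have h1 : ∀ᶠ y in 𝓝 x, fillA W s₀ z₁ y < m :=
      hL1.continuous.continuousAt.eventually_lt continuousAt_const hm1
    have h2 : ∀ᶠ y in 𝓝 x, m < W y :=
      continuousAt_const.eventually_lt hT.cont.continuousAt hm2
    obtain ⟨r, hr, hball⟩ := Metric.eventually_nhds_iff_ball.mp (h1.and h2)
    refine Metric.eventually_nhds_iff_ball.mpr ⟨r, hr, fun y hy => ?_⟩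
    have hB : IsPreconnected (Metric.ball x r) := (convex_ball x r).isPreconnected
    have hmB : ∀ z ∈ Metric.ball x r, m ≤ W z := fun z hz => (hball z hz).2.le
    have hxB : x ∈ Metric.ball x r := Metric.mem_ball_self hr
    exact le_antisymm (MFB.fillA_le hT.lower hB hmB hy hxB (hball y hy).1.le)
      (MFB.fillA_le hT.lower hB hmB hxB hy hm1.le)
  · intro x hx
    have hlt : fillA W s₀ z₁ x < fill W s₀ s₁ 0 z₁ x := lt_of_le_of_ne (hAF x) (Ne.symm hx)
    obtain ⟨m, hm1, hm2⟩ := exists_between hlt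
    have h1 : ∀ᶠ y in 𝓝 x, fillA W s₀ z₁ y < m :=
      hL1.continuous.continuousAt.eventually_lt continuousAt_const hm1
    have h2 : ∀ᶠ y in 𝓝 x, m < fill W s₀ s₁ 0 z₁ y :=
      continuousAt_const.eventually_lt hL2.continuous.continuousAt hm2
    obtain ⟨r, hr, hball⟩ := Metric.eventually_nhds_iff_ball.mp (h1.and h2)
    refine Metric.eventually_nhds_iff_ball.mpr ⟨r, hr, fun y hy => ?_⟩
    have hB : IsPreconnected (Metric.ball x r) := (convex_ball x r).isPreconnected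
    have hmB : ∀ z ∈ Metric.ball x r, fillA W s₀ z₁ z ≤ m := fun z hz => (hball z hz).1.le
    have hxB : x ∈ Metric.ball x r := Metric.mem_ball_self hr
    exact le_antisymm (MFB.fillB_le hT1.upper hB hmB hxB hy hm2.le)
      (MFB.fillB_le hT1.upper hB hmB hy hxB (hball y hy).2.le)

end Pool.Agent.PFlow
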