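import Pool.Agent.PFlow.StmtsM

/-!
FC: sub- and superlevel sets of the filled function are preconnected.
-/

open MeasureTheory Filter Topology
open scoped ContDiff

namespace Pool.Agent.PFlow.MFC

open Pool.Agent.PenroseSph Pool.Agent.PFlow

theorem Conn.mono {A A' : Set E3} (h : A ⊆ A') {y z : E3} (hc : Conn A y z) : Conn A' y z := by
  obtain ⟨S, h1, h2, h3, h4⟩ := hc
  exact ⟨S, h1.trans h, h2, h3, h4⟩

theorem conn_univ {A : Set E3} (h : ∀ x, x ∈ A) (y z : E3) : Conn A y z :=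
  ⟨Set.univ, fun x _ => h x, isPreconnected_univ, trivial, trivial⟩

/-- an admissible level of `fillB` is an upper bound for its value -/
theorem fillB_le {V : E3 → ℝ} {s₁ : ℝ} {z₀ y : E3} {c : ℝ} (hc : c ≤ s₁)
    (h : Conn {z | V z ≤ c} y z₀) : fillB V s₁ z₀ y ≤ c := by
  refine csInf_le ⟨V y, ?_⟩ ⟨hc, h⟩
  rintro d ⟨_, S, hS, _, hy, _⟩
  exact hS hy

theorem exists_of_fillB_lt {V : E3 → ℝ} {s₁ : ℝ} {z₀ y : E3} {c : ℝ} (hV : ∀ x, V x ≤ s₁)
    (h : fillB V s₁ z₀ y < c) : ∃ d < c, d ≤ s₁ ∧ Conn {z | V z ≤ d} y z₀ := by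
  have hne : {c : ℝ | c ≤ s₁ ∧ Conn {z | V z ≤ c} y z₀}.Nonempty :=
    ⟨s₁, le_refl _, conn_univ hV y z₀⟩
  obtain ⟨d, ⟨hd1, hd2⟩, hd3⟩ := exists_lt_of_csInf_lt hne h
  exact ⟨d, hd3, hd1, hd2⟩

theorem le_fillA {W : E3 → ℝ} {s₀ : ℝ} {z₁ y : E3} {c : ℝ} (hc : s₀ ≤ c)
    (h : Conn {z | c ≤ W z} y z₁) : c ≤ fillA W s₀ z₁ y := by
  refine le_csSup ⟨W y, ?_⟩ ⟨hc, h⟩
  rintro d ⟨_, S, hS, _, hy, _⟩
  exact hS hy

theorem exists_of_lt_fillA {W : E3 → ℝ} {s₀ : ℝ} {z₁ y : E3} {c : ℝ} (hW : ∀ x, s₀ ≤ W x)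
    (h : c < fillA W s₀ z₁ y) : ∃ d, c < d ∧ s₀ ≤ d ∧ Conn {z | d ≤ W z} y z₁ := by
  have hne : {c : ℝ | s₀ ≤ c ∧ Conn {z | c ≤ W z} y z₁}.Nonempty :=
    ⟨s₀, le_refl _, conn_univ hW y z₁⟩
  obtain ⟨d, ⟨hd1, hd2⟩, hd3⟩ := exists_lt_of_lt_csSup hne h
  exact ⟨d, hd3, hd1, hd2⟩

/-- the sublevel sets -/
theorem sub {V : E3 → ℝ} {s₁ : ℝ} {z₀ : E3} (hV : ∀ x, V x ≤ s₁) (c : ℝ) :
    IsPreconnected {x | fillB V s₁ z₀ x < c} := by
  refine isPreconnected_of_forall z₀ fun y hy => ?_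
  obtain ⟨d, hdc, hd, S, hS, hSp, hyS, hzS⟩ := exists_of_fillB_lt hV hy
  exact ⟨S, fun z hz => lt_of_le_of_lt (fillB_le hd ⟨S, hS, hSp, hz, hzS⟩) hdc, hzS, hyS, hSp⟩

/-- the superlevel sets of `fillA`, seen from a point -/
theorem super_aux {W V F : E3 → ℝ} {s₀ : ℝ} {z₁ : E3} (hVdef : V = fillA W s₀ z₁)
    (hW : ∀ x, s₀ ≤ W x) (hVF : ∀ x, V x ≤ F x) {c : ℝ} {y : E3} (hy : c < V y) :
    ∃ T ⊆ {x | c < F x}, z₁ ∈ T ∧ y ∈ T ∧ IsPreconnected T := by
  subst hVdef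
  obtain ⟨d, hcd, hd, S, hS, hSp, hyS, hzS⟩ := exists_of_lt_fillA hW hy
  exact ⟨S, fun z hz => lt_of_lt_of_le (lt_of_lt_of_le hcd
    (le_fillA hd ⟨S, hS, hSp, hz, hzS⟩)) (hVF z), hzS, hyS, hSp⟩

/-- two points of a component of a strict sublevel set: `fillB` is at least the level -/
theorem low {V : E3 → ℝ} {s₁ : ℝ} {z₀ y z : E3} (hVc : Continuous V) (hV : ∀ x, V x ≤ s₁)
    {D : Set E3} (hDo : IsOpen D) (hDp : IsPreconnected D)
    (hD : D ⊆ {x | V x < fillB V s₁ z₀ y}) (hy : y ∈ D) (hz : z ∈ D) :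
    fillB V s₁ z₀ y ≤ fillB V s₁ z₀ z := by
  by_contra hlt
  push Not at hlt
  obtain ⟨d, hdb, hd, S, hS, hSp, hzS, hz0⟩ := exists_of_fillB_lt hV hlt
  have hpath : IsPathConnected D := (hDo.isConnected_iff_isPathConnected).mp ⟨⟨y, hy⟩, hDp⟩
  obtain ⟨γ, hγ⟩ := hpath.joinedIn y hy z hz
  have hK : IsCompact (Set.range γ) := isCompact_range γ.continuous
  have hKne : (Set.range γ).Nonempty := Set.range_nonempty _
  obtain ⟨x, hx, hmax⟩ := hK.exists_isMaxOn hKne hVc.continuousOn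
  have hKp : IsPreconnected (Set.range γ) := isPreconnected_range γ.continuous
  have hxD : x ∈ D := by
    obtain ⟨t, rfl⟩ := hx
    exact hγ t
  have hVx : V x < fillB V s₁ z₀ y := hD hxD
  have h1 : Conn {w | V w ≤ max d (V x)} y z₀ := by
    refine ⟨Set.range γ ∪ S, ?_, ?_, ?_, ?_⟩
    · rintro w (hw | hw)
      · have h2 : V w ≤ V x := hmax hw
        exact le_trans h2 (le_max_right _ _)
      · have h2 : V w ≤ d := hS hw
        exact le_trans h2 (le_max_left _ _)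
    · exact IsPreconnected.union z ⟨1, γ.target⟩ hzS hKp hSp
    · exact Or.inl ⟨0, γ.source⟩
    · exact Or.inr hz0
  have h2 := fillB_le (max_le hd (hV x)) h1
  exact absurd h2 (not_le.mpr (max_lt hdb hVx))

/-- the superlevel sets -/
theorem super {W V F : E3 → ℝ} {s₀ s₁ : ℝ} {z₀ z₁ : E3} (hVdef : V = fillA W s₀ z₁)
    (hFdef : F = fillB V s₁ z₀) (hW : ∀ x, s₀ ≤ W x) (hVc : Continuous V) (hV : ∀ x, V x ≤ s₁)
    (hVF : ∀ x, V x ≤ F x) (hz1 : V z₁ = s₁) (c : ℝ) :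
    IsPreconnected {x | c < F x} := by
  refine isPreconnected_of_forall z₁ fun y hy => ?_
  by_cases hcy : c < V y
  · exact super_aux hVdef hW hVF hcy
  · push Not at hcy
    have hyb : y ∈ {x | V x < F y} := lt_of_le_of_lt hcy hy
    have hopen : IsOpen {x | V x < F y} := isOpen_lt hVc continuous_const
    obtain ⟨D, hDdef⟩ : ∃ D, D = connectedComponentIn {x | V x < F y} y := ⟨_, rfl⟩
    have hDo : IsOpen D := hDdef ▸ hopen.connectedComponentIn
    have hDp : IsPreconnected D := hDdef ▸ isPreconnected_connectedComponentIn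
    have hDs : D ⊆ {x | V x < F y} := hDdef ▸ connectedComponentIn_subset _ _
    have hyD : y ∈ D := hDdef ▸ mem_connectedComponentIn hyb
    have hFle : F y ≤ s₁ := by
      rw [hFdef]
      exact fillB_le (le_refl _) (conn_univ hV y z₀)
    have hzD : z₁ ∉ D := by
      intro h
      have h1 : V z₁ < F y := hDs h
      rw [hz1] at h1
      exact absurd hFle (not_le.mpr h1)
    have hfr : (frontier D).Nonempty := by
      rw [nonempty_frontier_iff]
      exact ⟨⟨y, hyD⟩, fun h => hzD (h ▸ Set.mem_univ z₁)⟩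
    obtain ⟨y0, hy0⟩ := hfr
    have hy0c : y0 ∈ closure D := hy0.1
    have hy0D : y0 ∉ D := by
      have h1 := hy0.2
      rwa [hDo.interior_eq] at h1
    have hins : IsPreconnected (insert y0 D) :=
      hDp.subset_closure (Set.subset_insert _ _)
        (Set.insert_subset_iff.mpr ⟨hy0c, subset_closure⟩)
    have hVy0 : F y ≤ V y0 := by
      by_contra hlt
      push Not at hlt
      apply hy0D
      have h2 : insert y0 D ⊆ {x | V x < F y} := Set.insert_subset_iff.mpr ⟨hlt, hDs⟩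
      have h3 := hins.subset_connectedComponentIn (Set.mem_insert_of_mem y0 hyD) h2
      rw [← hDdef] at h3
      exact h3 (Set.mem_insert _ _)
    have hcy0 : c < V y0 := lt_of_lt_of_le hy hVy0
    obtain ⟨T, hT, hT1, hT2, hT3⟩ := super_aux hVdef hW hVF hcy0
    refine ⟨insert y0 D ∪ T, ?_, Or.inr hT1, Or.inl (Set.mem_insert_of_mem y0 hyD),
      IsPreconnected.union y0 (Set.mem_insert _ _) hT2 hins hT3⟩
    rintro w (hw | hw)
    · rcases hw with rfl | hw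
      · exact lt_of_lt_of_le hcy0 (hVF _)
      · have h4 : F y ≤ F w := by
          rw [hFdef]
          rw [hFdef] at hDs
          exact low hVc hV hDo hDp hDs hyD hw
        exact lt_of_lt_of_le hy h4
    · exact hT hw

end Pool.Agent.PFlow.MFC

namespace Pool.Agent.PFlow

open Pool.Agent.PenroseSph

theorem FC (hFA : Stmt_FA) : Stmt_FC := by
  intro a' b' s₀ s₁ W C z₁ hW hL hz c
  obtain ⟨hA, hF, hAW, hAF, hTA, hTF⟩ := hFA a' b' s₀ s₁ W C z₁ hW hL hz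
  exact ⟨MFC.sub hTA.upper c, MFC.super rfl rfl hW.lower hTA.cont hTA.upper hAF
    (hTA.outer z₁ hz) c⟩

end Pool.Agent.PFlow
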