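import Pool.Agent.PFlow.StmtsM

/-!
# Module FD: nothing is filled at regular levels
-/

open MeasureTheory Filter Topology
open scoped ContDiff

namespace Pool.Agent.PFlow

open Pool.Agent.PenroseSph

namespace MFD

theorem conn_mono {A B : Set E3} {y z : E3} (h : Conn A y z) (hAB : A ⊆ B) : Conn B y z := by
  obtain ⟨S, hS, h1, h2, h3⟩ := h
  exact ⟨S, hS.trans hAB, h1, h2, h3⟩

/-- Points connected in an open superlevel set are connected in a smaller closed one. -/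
theorem conn_closed {U : E3 → ℝ} (hU : Continuous U) {c : ℝ} {y z : E3}
    (h : Conn {x | c < U x} y z) : ∃ c', c < c' ∧ Conn {x | c' ≤ U x} y z := by
  obtain ⟨S, hS, h1, hy, hz⟩ := h
  have hop : IsOpen {x | c < U x} := isOpen_lt continuous_const hU
  have hyA : y ∈ {x | c < U x} := hS hy
  have hD : IsOpen (connectedComponentIn {x | c < U x} y) := hop.connectedComponentIn
  have hyD : y ∈ connectedComponentIn {x | c < U x} y := mem_connectedComponentIn hyA
  have hzD : z ∈ connectedComponentIn {x | c < U x} y :=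
    h1.subset_connectedComponentIn hy hS hz
  have hcon : IsConnected (connectedComponentIn {x | c < U x} y) :=
    ⟨⟨y, hyD⟩, isPreconnected_connectedComponentIn⟩
  have hpath := hD.isConnected_iff_isPathConnected.mp hcon
  obtain ⟨γ, hγ⟩ := hpath.joinedIn y hyD z hzD
  have hcomp : IsCompact (Set.range γ) := isCompact_range γ.continuous
  obtain ⟨m, hm, hmin⟩ := hcomp.exists_isMinOn (Set.range_nonempty γ) hU.continuousOn
  refine ⟨U m, ?_, Set.range γ, ?_, ?_, ?_, ?_⟩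
  · obtain ⟨t, rfl⟩ := hm
    exact connectedComponentIn_subset {x | c < U x} y (hγ t)
  · intro x hx
    exact hmin hx
  · exact isPreconnected_range γ.continuous
  · exact ⟨0, γ.source⟩
  · exact ⟨1, γ.target⟩

theorem conn_univ {A : Set E3} (hA : A = Set.univ) (y z : E3) : Conn A y z :=
  ⟨Set.univ, by rw [hA], isPreconnected_univ, Set.mem_univ _, Set.mem_univ _⟩

section

variable {a' b' s₀ s₁ : ℝ} {W : E3 → ℝ} {z₁ : E3}

/-- One step: no filling at a regular level. -/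
theorem stepA (hFD1 : Stmt_FD1) (hT : Trunc a' b' s₀ s₁ W) (hz : b' ≤ ‖z₁‖) {x : E3}
    (hle : fillA W s₀ z₁ x ≤ W x) (h0 : s₀ < fillA W s₀ z₁ x) (h1 : fillA W s₀ z₁ x < s₁)
    (hreg : RegLevel W (fillA W s₀ z₁ x)) : fillA W s₀ z₁ x = W x := by
  by_contra hne
  have hlt : fillA W s₀ z₁ x < W x := lt_of_le_of_ne hle hne
  set c := fillA W s₀ z₁ x with hc
  have hbdd : BddAbove {c : ℝ | s₀ ≤ c ∧ Conn {z | c ≤ W z} x z₁} := by
    refine ⟨W x, ?_⟩
    rintro d ⟨-, S, hS, -, hx, -⟩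
    exact hS hx
  have hnon : {c : ℝ | s₀ ≤ c ∧ Conn {z | c ≤ W z} x z₁}.Nonempty :=
    ⟨s₀, le_rfl, conn_univ (Set.eq_univ_of_forall fun z => hT.lower z) _ _⟩
  have hnot : ¬ Conn {z | c < W z} x z₁ := by
    intro hcon
    obtain ⟨c', hc', hcon'⟩ := conn_closed hT.cont hcon
    have h2 : c' ≤ fillA W s₀ z₁ x := le_csSup hbdd ⟨by linarith, hcon'⟩
    linarith
  have hz1 : c < W z₁ := by
    rw [hT.outer z₁ hz]
    exact h1
  obtain ⟨e, he, hnot'⟩ := hFD1 W c x z₁ hT.cont hreg hlt hz1 hnot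
  obtain ⟨d, ⟨-, hd⟩, hcd⟩ := exists_lt_of_lt_csSup hnon
    (show c - e < sSup {c : ℝ | s₀ ≤ c ∧ Conn {z | c ≤ W z} x z₁} by
      change c - e < fillA W s₀ z₁ x
      linarith)
  apply hnot'
  refine conn_mono hd ?_
  intro z hz
  exact lt_of_lt_of_le hcd hz

/-- The same for the second filling. -/
theorem stepB (hFD1 : Stmt_FD1) (hT : Trunc a' b' s₀ s₁ W) {x : E3}
    (hle : W x ≤ fillB W s₁ 0 x) (h0 : s₀ < fillB W s₁ 0 x) (h1 : fillB W s₁ 0 x < s₁)
    (hreg : RegLevel (fun z => - W z) (- fillB W s₁ 0 x)) : fillB W s₁ 0 x = W x := by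
  by_contra hne
  have hlt : W x < fillB W s₁ 0 x := lt_of_le_of_ne hle (Ne.symm hne)
  set c := fillB W s₁ 0 x with hc
  have hbdd : BddBelow {c : ℝ | c ≤ s₁ ∧ Conn {z | W z ≤ c} x 0} := by
    refine ⟨W x, ?_⟩
    rintro d ⟨-, S, hS, -, hx, -⟩
    exact hS hx
  have hnon : {c : ℝ | c ≤ s₁ ∧ Conn {z | W z ≤ c} x 0}.Nonempty :=
    ⟨s₁, le_rfl, conn_univ (Set.eq_univ_of_forall fun z => hT.upper z) _ _⟩
  have hnot : ¬ Conn {z | - c < - W z} x 0 := by
    intro hcon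
    obtain ⟨c', hc', hcon'⟩ := conn_closed hT.cont.neg hcon
    have h2 : fillB W s₁ 0 x ≤ - c' := by
      refine csInf_le hbdd ⟨by linarith, conn_mono hcon' ?_⟩
      intro z hz
      have hz' : c' ≤ - W z := hz
      change W z ≤ - c'
      linarith
    linarith
  have hz1 : - c < - W 0 := by
    rw [hT.inner 0 (by rw [norm_zero]; exact hT.pos.le)]
    linarith
  obtain ⟨e, he, hnot'⟩ := hFD1 (fun z => - W z) (- c) x 0 hT.cont.neg hreg
    (by linarith) hz1 hnot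
  obtain ⟨d, ⟨-, hd⟩, hcd⟩ := exists_lt_of_csInf_lt hnon
    (show sInf {c : ℝ | c ≤ s₁ ∧ Conn {z | W z ≤ c} x 0} < c + e by
      change fillB W s₁ 0 x < c + e
      linarith)
  apply hnot'
  refine conn_mono hd ?_
  intro z hz
  have hz' : W z ≤ d := hz
  change - c - e < - W z
  linarith

end

/-- Regularity of a level is local. -/
theorem regLevel_congr {U V : E3 → ℝ} {c : ℝ} (hV : RegLevel U c) (hcomp : IsCompact {z | V z = c})
    (h : ∀ z, V z = c → ∀ᶠ y in 𝓝 z, V y = U y) : RegLevel V c := by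
  refine ⟨hcomp, ?_⟩
  intro z hz O' hO' hzO'
  have h1 := h z hz
  have hUz : U z = c := by
    rw [← hz]
    exact h1.self_of_nhds.symm
  obtain ⟨N, hN, hNo, hzN⟩ := eventually_nhds_iff.mp h1
  obtain ⟨O, hO, hzO, hOO', p1, p2, p3, p4⟩ := hV.2 z hUz (O' ∩ N) (hO'.inter hNo) ⟨hzO', hzN⟩
  have e1 : O ∩ {y | c < V y} = O ∩ {y | c < U y} := by
    ext y
    constructor
    · rintro ⟨hy, hy'⟩
      refine ⟨hy, ?_⟩
      rw [Set.mem_setOf_eq, ← hN y (hOO' hy).2]
      exact hy'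
    · rintro ⟨hy, hy'⟩
      refine ⟨hy, ?_⟩
      rw [Set.mem_setOf_eq, hN y (hOO' hy).2]
      exact hy'
  have e2 : O ∩ {y | V y < c} = O ∩ {y | U y < c} := by
    ext y
    constructor
    · rintro ⟨hy, hy'⟩
      refine ⟨hy, ?_⟩
      rw [Set.mem_setOf_eq, ← hN y (hOO' hy).2]
      exact hy'
    · rintro ⟨hy, hy'⟩
      refine ⟨hy, ?_⟩
      rw [Set.mem_setOf_eq, hN y (hOO' hy).2]
      exact hy'
  refine ⟨O, hO, hzO, fun y hy => (hOO' hy).1, ?_, ?_, ?_, ?_⟩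
  · rw [e1]
    exact p1
  · rw [e2]
    exact p2
  · rw [mem_closure_iff] at p3 ⊢
    intro Q hQ hzQ
    obtain ⟨y, ⟨hyQ, hyN⟩, hy⟩ := p3 (Q ∩ N) (hQ.inter hNo) ⟨hzQ, hzN⟩
    exact ⟨y, hyQ, by rw [Set.mem_setOf_eq, hN y hyN]; exact hy⟩
  · rw [mem_closure_iff] at p4 ⊢
    intro Q hQ hzQ
    obtain ⟨y, ⟨hyQ, hyN⟩, hy⟩ := p4 (Q ∩ N) (hQ.inter hNo) ⟨hzQ, hzN⟩
    exact ⟨y, hyQ, by rw [Set.mem_setOf_eq, hN y hyN]; exact hy⟩

theorem regLevel_neg {V : E3 → ℝ} {c : ℝ} (h : RegLevel V c) : RegLevel (fun z => - V z) (- c) := by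
  have e0 : {z | - V z = - c} = {z | V z = c} := by
    ext z
    simp
  have e1 : {y | - c < - V y} = {y | V y < c} := by
    ext y
    simp
  have e2 : {y | - V y < - c} = {y | c < V y} := by
    ext y
    simp
  refine ⟨?_, ?_⟩
  · rw [e0]
    exact h.1
  · intro z hz O' hO' hzO'
    obtain ⟨O, hO, hzO, hOO', p1, p2, p3, p4⟩ := h.2 z (by linarith) O' hO' hzO'
    refine ⟨O, hO, hzO, hOO', ?_, ?_, ?_, ?_⟩
    · rw [e1]
      exact p2
    · rw [e2]
      exact p1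
    · rw [e1]
      exact p4
    · rw [e2]
      exact p3

end MFD

open MFD in
theorem FD (hFA : Stmt_FA) (hFB : Stmt_FB) (hFD1 : Stmt_FD1) : Stmt_FD := by
  have _ := hFB
  intro a' b' s₀ s₁ W C z₁ hT hL hz α β hα hαβ hβ hreg x hx
  obtain ⟨f1, f2, f3, f4, f5, f6⟩ := hFA a' b' s₀ s₁ W C z₁ hT hL hz
  set V := fillA W s₀ z₁ with hV
  have hA : ∀ y, V y ∈ Set.Ioo α β → V y = W y := by
    intro y hy
    exact stepA hFD1 hT hz (f3 y) (lt_of_le_of_lt hα hy.1) (lt_of_lt_of_le hy.2 hβ)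
      (hreg _ hy)
  have hregV : ∀ c ∈ Set.Ioo α β, RegLevel V c := by
    intro c hc
    refine regLevel_congr (hreg c hc) ?_ ?_
    · refine Metric.isCompact_of_isClosed_isBounded (isClosed_eq f5.cont continuous_const) ?_
      refine (Metric.isBounded_closedBall (x := (0 : E3)) (r := b')).subset ?_
      intro z hz'
      rw [mem_closedBall_zero_iff]
      by_contra hcon
      push Not at hcon
      have h2 := f5.outer z hcon.le
      have h3 : V z = c := hz'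
      rw [h2] at h3
      rw [← h3] at hc
      exact absurd hc.2 (not_lt.mpr hβ)
    · intro z hz'
      have h2 : ∀ᶠ y in 𝓝 z, V y ∈ Set.Ioo α β := by
        have h3 : Tendsto V (𝓝 z) (𝓝 (V z)) := f5.cont.continuousAt
        rw [hz'] at h3
        exact h3 (Ioo_mem_nhds hc.1 hc.2)
      filter_upwards [h2] with y hy
      exact hA y hy
  have h4 : fillB V s₁ 0 x = V x :=
    stepB hFD1 f5 (f4 x) (lt_of_le_of_lt hα hx.1) (lt_of_lt_of_le hx.2 hβ)
      (regLevel_neg (hregV _ hx))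
  have h5 : fill W s₀ s₁ 0 z₁ x = V x := h4
  refine ⟨?_, h5⟩
  rw [h5] at hx
  exact hA x hx

end Pool.Agent.PFlow
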