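import Pool.Agent.PFlow.StmtsM

/-!
# Components at a regular level are stable (module FD1)
-/

open Filter Topology

namespace Pool.Agent.PFlow

open Pool.Agent.PenroseSph

theorem FD1 : Stmt_FD1 := by
  intro W c y z hW hR hy hz hn
  obtain ⟨hK, hreg⟩ := hR
  set A : Set E3 := {x | c < W x} with hA
  have hAo : IsOpen A := isOpen_lt continuous_const hW
  set U : Set E3 := connectedComponentIn A y with hU
  have hyA : y ∈ A := hy
  have hUo : IsOpen U := hAo.connectedComponentIn
  have hUA : U ⊆ A := connectedComponentIn_subset A y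
  have hUc : IsPreconnected U := isPreconnected_connectedComponentIn
  have hyU : y ∈ U := mem_connectedComponentIn hyA
  have hzU : z ∉ U := fun h => hn ⟨U, hUA, hUc, hyU, h⟩
  -- maximality of the component
  have hmax : ∀ S : Set E3, IsPreconnected S → S ⊆ A → (S ∩ U).Nonempty → S ⊆ U := by
    rintro S hS hSA ⟨x, hxS, hxU⟩
    have h1 : S ⊆ connectedComponentIn A x := hS.subset_connectedComponentIn hxS hSA
    have h2 : connectedComponentIn A y = connectedComponentIn A x := connectedComponentIn_eq hxU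
    rw [← h2] at h1
    exact h1
  -- the frontier of the component lies in the level set
  have hcl : closure U ⊆ {x | c ≤ W x} := by
    apply closure_minimal _ (isClosed_le continuous_const hW)
    intro x hx
    have h1 : c < W x := hUA hx
    exact h1.le
  have hclU : ∀ x ∈ closure U, x ∉ U → W x = c := by
    intro x hx hxU
    by_contra hne
    have hxA : x ∈ A := lt_of_le_of_ne (hcl hx) (Ne.symm hne)
    have hxo : IsOpen (connectedComponentIn A x) := hAo.connectedComponentIn
    have hxm : x ∈ connectedComponentIn A x := mem_connectedComponentIn hxA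
    obtain ⟨v, hv1, hv2⟩ := mem_closure_iff.mp hx _ hxo hxm
    exact hxU (hmax _ isPreconnected_connectedComponentIn (connectedComponentIn_subset A x)
      ⟨v, hv1, hv2⟩ hxm)
  have hFr : IsCompact (closure U \ U) := by
    apply hK.of_isClosed_subset (isClosed_closure.sdiff hUo)
    rintro x ⟨hx1, hx2⟩
    exact hclU x hx1 hx2
  -- neighbourhoods
  have hO : ∀ x ∈ closure U \ U, ∃ O : Set E3, IsOpen O ∧ x ∈ O ∧ z ∉ O ∧ O ∩ A ⊆ U := by
    rintro x ⟨hx1, hx2⟩
    have hxc := hclU x hx1 hx2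
    have hxz : x ∈ ({z}ᶜ : Set E3) := by
      intro h
      have h' : x = z := h
      rw [h'] at hxc
      linarith
    obtain ⟨O, hO1, hO2, hO3, hO4, -⟩ := hreg x hxc {z}ᶜ isOpen_compl_singleton hxz
    refine ⟨O, hO1, hO2, fun h => hO3 h rfl, ?_⟩
    obtain ⟨v, hv1, hv2⟩ := mem_closure_iff.mp hx1 _ hO1 hO2
    exact hmax _ hO4 Set.inter_subset_right ⟨v, ⟨hv1, hUA hv2⟩, hv2⟩
  choose! O hO1 hO2 hO3 hO4 using hO
  set N : Set E3 := ⋃ x ∈ closure U \ U, O x with hN
  have hNo : IsOpen N := isOpen_biUnion fun x hx => hO1 x hx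
  have hFN : closure U \ U ⊆ N := by
    intro x hx
    exact Set.mem_biUnion hx (hO2 x hx)
  have hzN : z ∉ N := by
    intro h
    obtain ⟨x, hx, hxz⟩ := Set.mem_iUnion₂.mp h
    exact hO3 x hx hxz
  have hNA : N ∩ A ⊆ U := by
    rintro v ⟨hv1, hv2⟩
    obtain ⟨x, hx, hxv⟩ := Set.mem_iUnion₂.mp hv1
    exact hO4 x hx ⟨hxv, hv2⟩
  obtain ⟨N', hN'o, hFN', hclN', hcomp⟩ := exists_open_between_and_isCompact_closure hFr hNo hFN
  -- on the frontier of the smaller neighbourhood
  have hlt : ∀ x ∈ (closure N' \ N') \ U, W x < c := by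
    rintro x ⟨⟨hx1, hx2⟩, hx3⟩
    have hxN : x ∈ N := hclN' hx1
    have hle : W x ≤ c := by
      by_contra h
      exact hx3 (hNA ⟨hxN, not_le.mp h⟩)
    refine lt_of_le_of_ne hle ?_
    intro heq
    obtain ⟨-, -, -, -, -, -, hc1, -⟩ := hreg x heq Set.univ isOpen_univ (Set.mem_univ x)
    have hxU : x ∈ closure U := by
      rw [mem_closure_iff]
      intro P hP hxP
      obtain ⟨v, hv1, hv2⟩ := mem_closure_iff.mp hc1 _ (hP.inter hNo) ⟨hxP, hxN⟩
      exact ⟨v, hv1.1, hNA ⟨hv1.2, hv2⟩⟩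
    exact hx2 (hFN' ⟨hxU, hx3⟩)
  have hcompF : IsCompact ((closure N' \ N') \ U) := by
    apply hcomp.of_isClosed_subset ((isClosed_closure.sdiff hN'o).sdiff hUo)
    intro x hx
    exact hx.1.1
  obtain ⟨e, he, hle⟩ : ∃ e > 0, ∀ x ∈ (closure N' \ N') \ U, W x ≤ c - e := by
    rcases Set.eq_empty_or_nonempty ((closure N' \ N') \ U) with h | h
    · refine ⟨1, one_pos, ?_⟩
      intro x hx
      rw [h] at hx
      exact absurd hx (Set.notMem_empty x)
    · obtain ⟨m, hm1, hm2⟩ := hcompF.exists_isMaxOn h hW.continuousOn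
      refine ⟨c - W m, sub_pos.mpr (hlt m hm1), ?_⟩
      intro x hx
      have h1 : W x ≤ W m := hm2 hx
      linarith
  refine ⟨e, he, ?_⟩
  rintro ⟨S, hSB, hSc, hyS, hzS⟩
  have hBo : IsOpen {x | c - e < W x} := isOpen_lt continuous_const hW
  set V : Set E3 := U ∪ (N' ∩ {x | c - e < W x}) with hV
  have hVo : IsOpen V := hUo.union (hN'o.inter hBo)
  have hVc : ∀ x ∈ closure V, c - e < W x → x ∈ V := by
    intro x hx hxB
    rw [hV, closure_union] at hx
    rcases hx with hx | hx
    · by_cases hxU : x ∈ U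
      · exact Or.inl hxU
      · exact Or.inr ⟨hFN' ⟨hx, hxU⟩, hxB⟩
    · have hxN : x ∈ closure N' := closure_mono Set.inter_subset_left hx
      by_cases hxN' : x ∈ N'
      · exact Or.inr ⟨hxN', hxB⟩
      · by_cases hxU : x ∈ U
        · exact Or.inl hxU
        · exact absurd (hle x ⟨⟨hxN, hxN'⟩, hxU⟩) (not_le.mpr hxB)
  have hzV : z ∉ V := by
    rintro (h | h)
    · exact hzU h
    · exact hzN (hclN' (subset_closure h.1))
  have hzcV : z ∉ closure V := fun h => hzV (hVc z h (hSB hzS))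
  obtain ⟨v, -, hv1, hv2⟩ := hSc V (closure V)ᶜ hVo isClosed_closure.isOpen_compl
    (fun x hx => by
      by_cases hxV : x ∈ V
      · exact Or.inl hxV
      · exact Or.inr fun h => hxV (hVc x h (hSB hx)))
    ⟨y, hyS, Or.inl hyU⟩ ⟨z, hzS, hzcV⟩
  exact hv2 (subset_closure hv1)

end Pool.Agent.PFlow
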