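import Pool.Agent.PFlow.StmtsM

/-!
# FM: the filled function depends on the function in a Lipschitz way
-/

open MeasureTheory Filter Topology
open scoped ContDiff

namespace Pool.Agent.PFlow

open Pool.Agent.PenroseSph

namespace MFM

lemma conn_mono {A B : Set E3} (h : A ⊆ B) {y z : E3} (hc : Conn A y z) : Conn B y z := by
  obtain ⟨S, hS, hp, hy, hz⟩ := hc
  exact ⟨S, hS.trans h, hp, hy, hz⟩

lemma conn_univ {A : Set E3} (h : ∀ x, x ∈ A) (y z : E3) : Conn A y z :=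
  ⟨Set.univ, fun x _ => h x, isPreconnected_univ, Set.mem_univ y, Set.mem_univ z⟩

lemma conn_left {A : Set E3} {y z : E3} (hc : Conn A y z) : y ∈ A := by
  obtain ⟨S, hS, -, hy, -⟩ := hc
  exact hS hy

lemma memA {W : E3 → ℝ} {s₀ : ℝ} (h0 : ∀ x, s₀ ≤ W x) (z₁ y : E3) :
    s₀ ∈ {c : ℝ | s₀ ≤ c ∧ Conn {z | c ≤ W z} y z₁} :=
  ⟨le_refl s₀, conn_univ h0 y z₁⟩

lemma bddA {W : E3 → ℝ} {s₀ : ℝ} (z₁ y : E3) :
    BddAbove {c : ℝ | s₀ ≤ c ∧ Conn {z | c ≤ W z} y z₁} :=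
  ⟨W y, fun _ hc => conn_left hc.2⟩

lemma fillA_ge {W : E3 → ℝ} {s₀ : ℝ} (h0 : ∀ x, s₀ ≤ W x) (z₁ y : E3) :
    s₀ ≤ fillA W s₀ z₁ y :=
  le_csSup (bddA z₁ y) (memA h0 z₁ y)

lemma fillA_le {W : E3 → ℝ} {s₀ : ℝ} (h0 : ∀ x, s₀ ≤ W x) (z₁ y : E3) :
    fillA W s₀ z₁ y ≤ W y :=
  csSup_le ⟨s₀, memA h0 z₁ y⟩ fun _ hc => conn_left hc.2

/-- One half of the estimate for `fillA`. -/
lemma fillA_sub {W W' : E3 → ℝ} {s₀ e : ℝ} (h0 : ∀ x, s₀ ≤ W x) (h0' : ∀ x, s₀ ≤ W' x)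
    (he : ∀ x, W x - W' x ≤ e) (z₁ y : E3) : fillA W s₀ z₁ y - e ≤ fillA W' s₀ z₁ y := by
  rw [sub_le_iff_le_add]
  refine csSup_le ⟨s₀, memA h0 z₁ y⟩ fun c hc => ?_
  rw [← sub_le_iff_le_add]
  refine (le_max_right s₀ (c - e)).trans (le_csSup (bddA z₁ y) ⟨le_max_left _ _, ?_⟩)
  refine conn_mono (fun z hz => ?_) hc.2
  refine max_le (h0' z) ?_
  have h1 : c ≤ W z := hz
  have h2 := he z
  linarith

lemma memB {V : E3 → ℝ} {s₁ : ℝ} (h1 : ∀ x, V x ≤ s₁) (z₀ y : E3) :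
    s₁ ∈ {c : ℝ | c ≤ s₁ ∧ Conn {z | V z ≤ c} y z₀} :=
  ⟨le_refl s₁, conn_univ h1 y z₀⟩

lemma bddB {V : E3 → ℝ} {s₁ : ℝ} (z₀ y : E3) :
    BddBelow {c : ℝ | c ≤ s₁ ∧ Conn {z | V z ≤ c} y z₀} :=
  ⟨V y, fun _ hc => conn_left hc.2⟩

/-- One half of the estimate for `fillB`. -/
lemma fillB_sub {V V' : E3 → ℝ} {s₁ e : ℝ} (h1 : ∀ x, V x ≤ s₁) (h1' : ∀ x, V' x ≤ s₁)
    (he : ∀ x, V' x - V x ≤ e) (z₀ y : E3) : fillB V' s₁ z₀ y ≤ fillB V s₁ z₀ y + e := by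
  rw [← sub_le_iff_le_add]
  refine le_csInf ⟨s₁, memB h1 z₀ y⟩ fun c hc => ?_
  rw [sub_le_iff_le_add]
  refine le_trans (csInf_le (bddB z₀ y) ⟨min_le_left _ _, ?_⟩) (min_le_right s₁ (c + e))
  refine conn_mono (fun z hz => ?_) hc.2
  refine le_min (h1' z) ?_
  have h2 : V z ≤ c := hz
  have h3 := he z
  linarith

/-- The estimate for `fill`, one half. -/
lemma fill_sub {W W' : E3 → ℝ} {s₀ s₁ e : ℝ} (h0 : ∀ x, s₀ ≤ W x) (h0' : ∀ x, s₀ ≤ W' x)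
    (h1 : ∀ x, W x ≤ s₁) (h1' : ∀ x, W' x ≤ s₁) (he : ∀ x, W' x - W x ≤ e) (z₀ z₁ y : E3) :
    fill W' s₀ s₁ z₀ z₁ y ≤ fill W s₀ s₁ z₀ z₁ y + e := by
  refine fillB_sub (fun x => (fillA_le h0 z₁ x).trans (h1 x))
    (fun x => (fillA_le h0' z₁ x).trans (h1' x)) (fun x => ?_) z₀ y
  have := fillA_sub h0' h0 he z₁ x
  linarith

end MFM

open MFM in
/-- The filled function depends on the function in a Lipschitz way. -/
theorem FM : Stmt_FM := by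
  intro a' b' s₀ s₁ e W W' z₁ hW hW' _ he x
  have h1 := fill_sub hW.lower hW'.lower hW.upper hW'.upper (e := e)
    (fun x => by have := abs_le.1 (he x); linarith) 0 z₁ x
  have h2 := fill_sub hW'.lower hW.lower hW'.upper hW.upper (e := e)
    (fun x => by have := abs_le.1 (he x); linarith) 0 z₁ x
  rw [abs_le]
  constructor <;> linarith

end Pool.Agent.PFlow
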