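import Pool.Agent.PFlow.StmtsM

/-!
# Module GAU of block M

The map `r(v) grad v / |grad v|` covers the shell `{|y| - 1 + s₀ in supp}`; the area formula
inequality and polar coordinates give the Willmore inequality integrated over the levels.
-/

open MeasureTheory Filter Topology
open scoped ContDiff

namespace Pool.Agent.PFlow

open Pool.Agent.PenroseSph

namespace MGAU

/-- The quadratic form of the cofactor matrix. -/
def cofq (p : Cov) (M : Bil) : ℝ :=
  p 0 * p 0 * (M 1 1 * M 2 2 - M 1 2 * M 1 2) + p 1 * p 1 * (M 0 0 * M 2 2 - M 0 2 * M 0 2)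
    + p 2 * p 2 * (M 0 0 * M 1 1 - M 0 1 * M 0 1)
    + 2 * (p 0 * p 1 * (M 0 2 * M 1 2 - M 0 1 * M 2 2)
      + p 0 * p 2 * (M 0 1 * M 1 2 - M 0 2 * M 1 1)
      + p 1 * p 2 * (M 0 1 * M 0 2 - M 0 0 * M 1 2))

/-- The discriminant inequality for a positive semidefinite pair. -/
theorem disc (A B C : ℝ) (h : ∀ s t : ℝ, 0 ≤ A * s * s + 2 * B * s * t + C * t * t) :
    0 ≤ A * C - B * B := by
  have h1 : discrim A (2 * B) C ≤ 0 := by
    refine discrim_le_zero fun x => ?_
    have := h x 1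
    nlinarith [this]
  unfold discrim at h1
  nlinarith [h1]

/-- Quadratic form written out. -/
theorem ev_explicit (M : Bil) (v w : Cov) : ev M v w =
    M 0 0 * v 0 * w 0 + M 0 1 * v 0 * w 1 + M 0 2 * v 0 * w 2
    + (M 1 0 * v 1 * w 0 + M 1 1 * v 1 * w 1 + M 1 2 * v 1 * w 2)
    + (M 2 0 * v 2 * w 0 + M 2 1 * v 2 * w 1 + M 2 2 * v 2 * w 2) := by
  simp only [ev, Fin.sum_univ_three]

theorem cof_nonneg (p : Cov) (M : Bil) (h01 : M 1 0 = M 0 1) (h02 : M 2 0 = M 0 2)
    (h12 : M 2 1 = M 1 2) (hp : 0 < vsq p)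
    (h : ∀ t : Cov, p 0 * t 0 + p 1 * t 1 + p 2 * t 2 = 0 → 0 ≤ ev M t t) :
    0 ≤ cofq p M := by
  have key : ∀ f f' : Cov, p 0 * f 0 + p 1 * f 1 + p 2 * f 2 = 0 →
      p 0 * f' 0 + p 1 * f' 1 + p 2 * f' 2 = 0 →
      0 ≤ ev M f f * ev M f' f' - ev M f f' * ev M f f' := by
    intro f f' hf hf'
    refine disc _ _ _ fun s t => ?_
    have h1 := h (fun i => s * f i + t * f' i) (by
      linear_combination s * hf + t * hf')
    have h2 : ev M (fun i => s * f i + t * f' i) (fun i => s * f i + t * f' i)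
        = ev M f f * s * s + 2 * ev M f f' * s * t + ev M f' f' * t * t := by
      simp only [ev_explicit, h01, h02, h12]
      ring
    rw [h2] at h1
    exact h1
  have k0 := key ![p 2, 0, - p 0] ![- p 1, p 0, 0] (by simp; ring) (by simp; ring)
  have k1 := key ![0, - p 2, p 1] ![- p 1, p 0, 0] (by simp; ring) (by simp; ring)
  have k2 := key ![0, - p 2, p 1] ![p 2, 0, - p 0] (by simp; ring) (by simp; ring)
  have e : vsq p * cofq p M
      = (ev M ![p 2, 0, - p 0] ![p 2, 0, - p 0] * ev M ![- p 1, p 0, 0] ![- p 1, p 0, 0]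
        - ev M ![p 2, 0, - p 0] ![- p 1, p 0, 0] * ev M ![p 2, 0, - p 0] ![- p 1, p 0, 0])
      + (ev M ![0, - p 2, p 1] ![0, - p 2, p 1] * ev M ![- p 1, p 0, 0] ![- p 1, p 0, 0]
        - ev M ![0, - p 2, p 1] ![- p 1, p 0, 0] * ev M ![0, - p 2, p 1] ![- p 1, p 0, 0])
      + (ev M ![0, - p 2, p 1] ![0, - p 2, p 1] * ev M ![p 2, 0, - p 0] ![p 2, 0, - p 0]
        - ev M ![0, - p 2, p 1] ![p 2, 0, - p 0] * ev M ![0, - p 2, p 1] ![p 2, 0, - p 0]) := by
    simp only [ev_explicit, h01, h02, h12, vsq, cofq, Fin.sum_univ_three]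
    simp
    ring
  have : 0 ≤ vsq p * cofq p M := by rw [e]; linarith
  exact (mul_nonneg_iff_of_pos_left hp).mp this

theorem cof_le (p : Cov) (M : Bil) (h01 : M 1 0 = M 0 1) (h02 : M 2 0 = M 0 2)
    (h12 : M 2 1 = M 1 2) (hp : 0 < vsq p) :
    4 * (vsq p * cofq p M) ≤ (vsq p * (∑ i, M i i) - ev M p p) ^ 2 := by
  have e : vsq p ^ 2 * ((vsq p * (∑ i, M i i) - ev M p p) ^ 2 - 4 * (vsq p * cofq p M))
      = 2 * (∑ i, ∑ j, ((∑ k, ∑ l, (vsq p * (if i = k then 1 else 0) - p i * p k) * M k l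
          * (vsq p * (if l = j then 1 else 0) - p l * p j))
          - 1 / 2 * (vsq p * (∑ i, M i i) - ev M p p)
            * (vsq p * (if i = j then 1 else 0) - p i * p j)) ^ 2) := by
    simp only [ev_explicit, vsq, cofq, Fin.sum_univ_three, h01, h02, h12]
    simp
    ring
  have h1 : 0 ≤ vsq p ^ 2 * ((vsq p * (∑ i, M i i) - ev M p p) ^ 2
      - 4 * (vsq p * cofq p M)) := by
    rw [e]
    positivity
  have h2 : 0 < vsq p ^ 2 := by positivity
  have h3 := (mul_nonneg_iff_of_pos_left h2).mp h1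
  linarith

theorem det_formula (p c : Cov) (M : Bil) (φ : ℝ) (h01 : M 1 0 = M 0 1) (h02 : M 2 0 = M 0 2)
    (h12 : M 2 1 = M 1 2) (α β : ℝ) (q : ℝ) (hq : q = vsq p)
    (hc : ∀ j, c j = α * p j - β * (∑ i, M j i * p i)) (hb : β * q = φ) :
    (Matrix.of fun i j => φ * M j i + p i * c j : Bil).det = φ ^ 2 * α * cofq p M := by
  rw [Matrix.det_fin_three]
  have c0 := hc 0
  have c1 := hc 1
  have c2 := hc 2
  simp only [Fin.sum_univ_three, h01, h02, h12] at c0 c1 c2
  simp only [Matrix.of_apply, c0, c1, c2, h01, h02, h12, cofq]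
  subst hq
  rw [← hb]
  simp only [vsq, Fin.sum_univ_three]
  ring

/-! ### Integrals over images -/

theorem lintegral_image_le (f : E3 → E3) (f' : E3 → E3 →L[ℝ] E3) (S : Set E3)
    (hS : MeasurableSet S) (hf : ∀ x ∈ S, HasFDerivWithinAt f (f' x) S x) (g : E3 → ENNReal)
    (hg : Measurable g) :
    ∫⁻ y in f '' S, g y ≤ ∫⁻ x in S, ENNReal.ofReal |(f' x).det| * g (f x) := by
  have hcont : ContinuousOn f S := fun x hx => (hf x hx).continuousWithinAt
  have hdet := aemeasurable_ofReal_abs_det_fderivWithin volume hS hf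
  set d : E3 → ENNReal := fun x => ENNReal.ofReal |(f' x).det| with hd
  have hfm : AEMeasurable f (volume.restrict S) := hcont.aemeasurable hS
  have hfm' : AEMeasurable f ((volume.restrict S).withDensity d) :=
    hfm.mono_ac (withDensity_absolutelyContinuous _ _)
  have hle : volume.restrict (f '' S) ≤ Measure.map f ((volume.restrict S).withDensity d) := by
    refine Measure.le_iff.mpr fun A hA => ?_
    rw [Measure.map_apply_of_aemeasurable hfm' hA, Measure.restrict_apply hA]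
    have hmS : MeasurableSet (S ∩ f ⁻¹' A) := by
      have h1 : Measurable (S.domRestrict f) := (continuousOn_iff_continuous_domRestrict.mp hcont).measurable
      have h2 : MeasurableSet ((S.domRestrict f) ⁻¹' A) := h1 hA
      have h3 := hS.subtype_image h2
      have h5 : S ∩ f ⁻¹' A = Subtype.val '' ((S.domRestrict f) ⁻¹' A) := by
        ext x
        constructor
        · rintro ⟨hx, hy⟩
          exact ⟨⟨x, hx⟩, hy, rfl⟩
        · rintro ⟨⟨y, hy⟩, hy', rfl⟩
          exact ⟨hy, hy'⟩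
      rw [h5]
      exact h3
    have h4 : A ∩ f '' S = f '' (S ∩ f ⁻¹' A) := by
      ext y
      constructor
      · rintro ⟨hy, x, hx, rfl⟩
        exact ⟨x, ⟨hx, hy⟩, rfl⟩
      · rintro ⟨x, ⟨hx, hy⟩, rfl⟩
        exact ⟨hy, x, hx, rfl⟩
    rw [h4]
    calc volume (f '' (S ∩ f ⁻¹' A))
        ≤ ∫⁻ x in S ∩ f ⁻¹' A, ENNReal.ofReal |(f' x).det| :=
          addHaar_image_le_lintegral_abs_det_fderiv volume hmS
            fun x hx => (hf x hx.1).mono Set.inter_subset_left
      _ = ((volume.restrict S).withDensity d) (S ∩ f ⁻¹' A) := by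
          rw [withDensity_apply _ hmS, Measure.restrict_restrict hmS]
          congr 2
          rw [Set.inter_right_comm, Set.inter_self]
      _ ≤ ((volume.restrict S).withDensity d) (f ⁻¹' A) := measure_mono Set.inter_subset_right
  calc ∫⁻ y in f '' S, g y ≤ ∫⁻ y, g y ∂(Measure.map f ((volume.restrict S).withDensity d)) :=
        lintegral_mono' hle le_rfl
    _ = ∫⁻ x, g (f x) ∂((volume.restrict S).withDensity d) :=
        lintegral_map' hg.aemeasurable hfm'
    _ = ∫⁻ x, (d * fun x => g (f x)) x ∂(volume.restrict S) :=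
        lintegral_withDensity_eq_lintegral_mul₀ hdet (hg.comp_aemeasurable hfm)
    _ = ∫⁻ x in S, ENNReal.ofReal |(f' x).det| * g (f x) := rfl

/-! ### Polar coordinates -/

/-- The radial profile. -/
noncomputable def prof (s₀ : ℝ) (ψ : ℝ → ℝ) (ρ : ℝ) : ℝ := ψ (ρ - 1 + s₀) / (max ρ 1) ^ 2

theorem prof_cont (s₀ : ℝ) (ψ : ℝ → ℝ) (h : Continuous ψ) : Continuous (prof s₀ ψ) := by
  unfold prof
  refine Continuous.div (h.comp (by fun_prop)) (by fun_prop) fun x => ?_
  have : (1 : ℝ) ≤ max x 1 := le_max_right _ _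
  positivity

theorem polar (s₀ s₁ : ℝ) (ψ : ℝ → ℝ) (h : Continuous ψ) (h0 : ∀ s, 0 ≤ ψ s)
    (hsupp : tsupport ψ ⊆ Set.Ioo s₀ s₁) :
    ENNReal.ofReal (16 * Real.pi * ∫ s, ψ s)
      = 4 * ∫⁻ y : E3, ENNReal.ofReal (prof s₀ ψ ‖y‖) := by
  have hz : ∀ s, s ∉ Set.Ioo s₀ s₁ → ψ s = 0 := fun s hs' =>
    image_eq_zero_of_notMem_tsupport fun h' => hs' (hsupp h')
  have hnn : ∀ y : E3, 0 ≤ prof s₀ ψ ‖y‖ := fun y => div_nonneg (h0 _) (by positivity)
  have hcs : HasCompactSupport (fun y : E3 => prof s₀ ψ ‖y‖) := by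
    refine HasCompactSupport.of_support_subset_isCompact
      (isCompact_closedBall (0 : E3) (s₁ - s₀ + 1)) fun y hy => ?_
    rw [mem_closedBall_zero_iff]
    by_contra hc
    push Not at hc
    apply hy
    show prof s₀ ψ ‖y‖ = 0
    unfold prof
    rw [hz _ (fun h' => by linarith [h'.2]), zero_div]
  have hint : Integrable (fun y : E3 => prof s₀ ψ ‖y‖) :=
    ((prof_cont s₀ ψ h).comp continuous_norm).integrable_of_hasCompactSupport hcs
  have h1 := integral_fun_norm_addHaar (volume : Measure E3) (prof s₀ ψ)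
  have h2 : ∫ y in Set.Ioi (0 : ℝ), y ^ (Module.finrank ℝ E3 - 1) • prof s₀ ψ y = ∫ s, ψ s := by
    have e1 : ∀ y : ℝ, (Set.Ioi (0 : ℝ)).indicator
        (fun y => y ^ (Module.finrank ℝ E3 - 1) • prof s₀ ψ y) y = ψ (y + (s₀ - 1)) := by
      intro y
      by_cases hy : 0 < y
      · rw [Set.indicator_of_mem (Set.mem_Ioi.mpr hy)]
        have : Module.finrank ℝ E3 - 1 = 2 := by simp
        rw [this, smul_eq_mul]
        unfold prof
        rw [show y - 1 + s₀ = y + (s₀ - 1) by ring]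
        by_cases hy1 : 1 < y
        · rw [max_eq_left hy1.le]
          field_simp
        · rw [hz (y + (s₀ - 1)) (fun h' => by linarith [h'.1])]
          simp
      · rw [Set.indicator_of_notMem (by simpa using hy),
          hz (y + (s₀ - 1)) (fun h' => by linarith [h'.1])]
    rw [← integral_indicator measurableSet_Ioi]
    simp_rw [e1]
    exact integral_add_right_eq_self ψ (s₀ - 1)
  rw [h2] at h1
  have h3 : (volume : Measure E3).real (Metric.ball 0 1) = Real.pi * 4 / 3 := by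
    rw [Measure.real, EuclideanSpace.volume_ball_fin_three]
    simp only [ENNReal.ofReal_one, one_pow, one_mul]
    exact ENNReal.toReal_ofReal (by positivity)
  rw [h3] at h1
  have h4 : Module.finrank ℝ E3 = 3 := by simp
  rw [h4] at h1
  have h5 : 16 * Real.pi * ∫ s, ψ s = 4 * ∫ y : E3, prof s₀ ψ ‖y‖ := by
    rw [h1]
    simp only [nsmul_eq_mul, smul_eq_mul]
    push_cast
    ring
  rw [h5, ENNReal.ofReal_mul (by norm_num),
    ofReal_integral_eq_lintegral_ofReal hint (Filter.Eventually.of_forall hnn)]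
  simp

/-! ### The determinant of the map -/

theorem pd_smooth (v : E3 → ℝ) (hv : ContDiff ℝ ∞ v) (i : Fin 3) : ContDiff ℝ ∞ (pd i v) :=
  (hv.fderiv_right (m := ∞) (by simp)).clm_apply contDiff_const

theorem pd_diff (v : E3 → ℝ) (hv : ContDiff ℝ ∞ v) (i : Fin 3) (x : E3) :
    DifferentiableAt ℝ (pd i v) x := (pd_smooth v hv i).contDiffAt.differentiableAt (by simp)

theorem fderiv_pd (v : E3 → ℝ) (hv : ContDiff ℝ ∞ v) (i : Fin 3) (x u : E3) :
    fderiv ℝ (pd i v) x u = fderiv ℝ (fderiv ℝ v) x u (EuclideanSpace.single i 1) := by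
  have h1 : HasFDerivAt (fderiv ℝ v) (fderiv ℝ (fderiv ℝ v) x) x :=
    ((hv.fderiv_right (m := ∞) (by simp)).contDiffAt.differentiableAt (by simp)).hasFDerivAt
  have h2 : HasFDerivAt (pd i v)
      ((ContinuousLinearMap.apply ℝ ℝ (EuclideanSpace.single i 1 : E3)).comp
        (fderiv ℝ (fderiv ℝ v) x)) x :=
    (ContinuousLinearMap.apply ℝ ℝ (EuclideanSpace.single i 1 : E3)).hasFDerivAt.comp x h1
  rw [h2.fderiv]
  rfl

theorem hess_symm (v : E3 → ℝ) (hv : ContDiff ℝ ∞ v) (i j : Fin 3) (x : E3) :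
    hess2 v x i j = hess2 v x j i := by
  have h1 : HasFDerivAt (fderiv ℝ v) (fderiv ℝ (fderiv ℝ v) x) x :=
    ((hv.fderiv_right (m := ∞) (by simp)).contDiffAt.differentiableAt (by simp)).hasFDerivAt
  have h2 : ∀ y, HasFDerivAt v (fderiv ℝ v y) y := fun y =>
    (hv.contDiffAt.differentiableAt (by simp)).hasFDerivAt
  have h3 := second_derivative_symmetric h2 h1 (EuclideanSpace.single i 1)
    (EuclideanSpace.single j 1)
  show fderiv ℝ (pd j v) x _ = fderiv ℝ (pd i v) x _
  rw [fderiv_pd v hv, fderiv_pd v hv, h3]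

theorem pd_mul (f g : E3 → ℝ) (x : E3) (i : Fin 3) (hf : DifferentiableAt ℝ f x)
    (hg : DifferentiableAt ℝ g x) :
    pd i (fun y => f y * g y) x = f x * pd i g x + g x * pd i f x := by
  have h := (hf.hasFDerivAt.mul hg.hasFDerivAt)
  show fderiv ℝ (fun y => f y * g y) x _ = _
  rw [show (fun y => f y * g y) = f * g from rfl, h.fderiv]
  simp [pd]

/-- The map `Theta`. -/
noncomputable def Th (s₀ : ℝ) (v : E3 → ℝ) (x : E3) : E3 :=
  WithLp.toLp 2 (fun i => (v x - s₀ + 1) / vn (grad v x) * pd i v x)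

theorem det_Th (s₀ : ℝ) (v : E3 → ℝ) (hv : ContDiff ℝ ∞ v) (x : E3)
    (hx : 0 < vsq (grad v x)) :
    DifferentiableAt ℝ (Th s₀ v) x ∧ (fderiv ℝ (Th s₀ v) x).det
      = (v x - s₀ + 1) ^ 2 / vn (grad v x) ^ 3 * cofq (grad v x) (hess2 v x) := by
  have hvd : DifferentiableAt ℝ v x := hv.contDiffAt.differentiableAt (by simp)
  have hPd := fun i => pd_diff v hv i x
  have hvn : 0 < vn (grad v x) := Real.sqrt_pos.mpr hx
  have hsq : vn (grad v x) * vn (grad v x) = vsq (grad v x) := Real.mul_self_sqrt hx.le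
  -- the length of the gradient
  have hqd : DifferentiableAt ℝ (fun y => vsq (grad v y)) x := by
    unfold vsq grad
    fun_prop
  have hnd : DifferentiableAt ℝ (fun y => vn (grad v y)) x := hqd.sqrt hx.ne'
  have hrd : DifferentiableAt ℝ (fun y => v y - s₀ + 1) x := by fun_prop
  have hφd : DifferentiableAt ℝ (fun y => (v y - s₀ + 1) / vn (grad v y)) x :=
    (hrd.mul (hnd.inv hvn.ne')).congr_of_eventuallyEq
      (Filter.Eventually.of_forall fun y => div_eq_mul_inv _ _)
  set φ : E3 → ℝ := fun y => (v y - s₀ + 1) / vn (grad v y) with hφ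
  have hΘd : DifferentiableAt ℝ (Th s₀ v) x := by
    rw [differentiableAt_euclidean]
    intro i
    exact hφd.mul (hPd i)
  refine ⟨hΘd, ?_⟩
  -- derivatives of the length
  have hnear : ∀ᶠ y in 𝓝 x, 0 < vsq (grad v y) :=
    hqd.continuousAt.eventually (lt_mem_nhds hx)
  have hn' : ∀ j, vn (grad v x) * pd j (fun y => vn (grad v y)) x
      = ∑ i, hess2 v x j i * grad v x i := by
    intro j
    have e1 : (fun y => vn (grad v y) * vn (grad v y)) =ᶠ[𝓝 x]
        (fun y => pd 0 v y * pd 0 v y + pd 1 v y * pd 1 v y + pd 2 v y * pd 2 v y) := by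
      filter_upwards [hnear] with y hy
      show Real.sqrt (vsq (grad v y)) * Real.sqrt (vsq (grad v y)) = _
      rw [Real.mul_self_sqrt hy.le]
      simp only [vsq, grad, Fin.sum_univ_three]
      ring
    have e2 : pd j (fun y => vn (grad v y) * vn (grad v y)) x
        = pd j (fun y => pd 0 v y * pd 0 v y + pd 1 v y * pd 1 v y + pd 2 v y * pd 2 v y) x := by
      unfold pd
      rw [e1.fderiv_eq]
      rfl
    rw [pd_mul _ _ _ _ hnd hnd] at e2
    have e3 : pd j (fun y => pd 0 v y * pd 0 v y + pd 1 v y * pd 1 v y + pd 2 v y * pd 2 v y) x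
        = pd j (fun y => pd 0 v y * pd 0 v y) x + pd j (fun y => pd 1 v y * pd 1 v y) x
          + pd j (fun y => pd 2 v y * pd 2 v y) x := by
      have d0 := (hPd 0).mul (hPd 0)
      have d1 := (hPd 1).mul (hPd 1)
      have d2 := (hPd 2).mul (hPd 2)
      have f1 : fderiv ℝ (fun y => pd 0 v y * pd 0 v y + pd 1 v y * pd 1 v y
          + pd 2 v y * pd 2 v y) x = fderiv ℝ (fun y => pd 0 v y * pd 0 v y) x
          + fderiv ℝ (fun y => pd 1 v y * pd 1 v y) x
          + fderiv ℝ (fun y => pd 2 v y * pd 2 v y) x :=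
        ((d0.hasFDerivAt.add d1.hasFDerivAt).add d2.hasFDerivAt).fderiv
      show fderiv ℝ (fun y => pd 0 v y * pd 0 v y + pd 1 v y * pd 1 v y
          + pd 2 v y * pd 2 v y) x _ = _
      rw [f1]
      rfl
    rw [e3, pd_mul _ _ _ _ (hPd 0) (hPd 0), pd_mul _ _ _ _ (hPd 1) (hPd 1),
      pd_mul _ _ _ _ (hPd 2) (hPd 2)] at e2
    simp only [Fin.sum_univ_three, hess2, grad, Matrix.of_apply]
    linarith
  -- derivatives of the factor
  have hc : ∀ j, pd j φ x = 1 / vn (grad v x) * grad v x j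
      - φ x / vsq (grad v x) * ∑ i, hess2 v x j i * grad v x i := by
    intro j
    have e1 : (fun y => φ y * vn (grad v y)) =ᶠ[𝓝 x] (fun y => v y - s₀ + 1) := by
      filter_upwards [hnear] with y hy
      have : 0 < vn (grad v y) := Real.sqrt_pos.mpr hy
      rw [hφ]
      field_simp
    have e2 : pd j (fun y => φ y * vn (grad v y)) x = pd j v x := by
      have : fderiv ℝ (fun y => φ y * vn (grad v y)) x = fderiv ℝ v x := by
        rw [e1.fderiv_eq]
        exact ((hvd.hasFDerivAt.sub_const s₀).add_const 1).fderiv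
      unfold pd
      rw [this]
    rw [pd_mul _ _ _ _ hφd hnd] at e2
    rw [← hn' j, ← hsq]
    have e3 : grad v x j = pd j v x := rfl
    rw [e3, ← e2]
    field_simp
    ring
  -- the determinant
  have hcomp : ∀ i j : Fin 3, (fderiv ℝ (Th s₀ v) x (EuclideanSpace.single j 1)) i
      = φ x * hess2 v x j i + grad v x i * pd j φ x := by
    intro i j
    have h1 : HasFDerivAt (fun y => Th s₀ v y i)
        ((EuclideanSpace.proj i : E3 →L[ℝ] ℝ).comp (fderiv ℝ (Th s₀ v) x)) x :=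
      (EuclideanSpace.proj i : E3 →L[ℝ] ℝ).hasFDerivAt.comp x hΘd.hasFDerivAt
    have h2 : pd j (fun y => Th s₀ v y i) x
        = (fderiv ℝ (Th s₀ v) x (EuclideanSpace.single j 1)) i := by
      unfold pd
      rw [h1.fderiv]
      rfl
    rw [← h2]
    have h3 : (fun y => Th s₀ v y i) = fun y => φ y * pd i v y := rfl
    rw [h3, pd_mul _ _ _ _ hφd (hPd i)]
    rfl
  have hmat : (fderiv ℝ (Th s₀ v) x).det
      = (Matrix.of fun i j => φ x * hess2 v x j i + grad v x i * pd j φ x : Bil).det := by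
    have b := (EuclideanSpace.basisFun (Fin 3) ℝ).toBasis
    show LinearMap.det ((fderiv ℝ (Th s₀ v) x : E3 →L[ℝ] E3) : E3 →ₗ[ℝ] E3) = _
    rw [← LinearMap.det_toMatrix (EuclideanSpace.basisFun (Fin 3) ℝ).toBasis]
    congr 1
    ext i j
    rw [LinearMap.toMatrix_apply]
    simp only [OrthonormalBasis.coe_toBasis, EuclideanSpace.basisFun_apply,
      OrthonormalBasis.coe_toBasis_repr_apply, EuclideanSpace.basisFun_repr,
      Matrix.of_apply, ContinuousLinearMap.coe_coe]
    exact hcomp i j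
  rw [hmat, det_formula (grad v x) (fun j => pd j φ x) (hess2 v x) (φ x) (hess_symm v hv 1 0 x)
    (hess_symm v hv 2 0 x) (hess_symm v hv 2 1 x) (1 / vn (grad v x)) (φ x / vsq (grad v x))
    (vsq (grad v x)) rfl hc (by field_simp)]
  rw [hφ]
  field_simp

/-! ### The map covers the shell -/

theorem fderiv_sum (f : E3 → ℝ) (x t : E3) : fderiv ℝ f x t = ∑ i, t i * pd i f x := by
  have h : t = ∑ i, t i • (EuclideanSpace.single i 1 : E3) := by
    ext j
    simp [Fin.sum_univ_three]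
    fin_cases j <;> simp
  conv_lhs => rw [h]
  rw [map_sum]
  simp [pd]

theorem line_deriv (f : E3 → ℝ) (hf : Differentiable ℝ f) (x t : E3) (τ : ℝ) :
    HasDerivAt (fun σ : ℝ => f (x + σ • t)) (∑ i, t i * pd i f (x + τ • t)) τ := by
  have h1 : HasDerivAt (fun σ : ℝ => x + σ • t) t τ := by
    have := ((hasDerivAt_id τ).smul_const t).const_add x
    simpa using this
  have h2 := (hf (x + τ • t)).hasFDerivAt.comp_hasDerivAt τ h1
  rw [fderiv_sum] at h2
  exact h2

theorem second_order (h h1 : ℝ → ℝ) (c : ℝ) (hmin : IsLocalMin h 0)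
    (hd : ∀ τ, HasDerivAt h (h1 τ) τ) (hd2 : HasDerivAt h1 c 0) : 0 ≤ c := by
  by_contra hc
  push Not at hc
  have e1 : deriv h = h1 := funext fun τ => (hd τ).deriv
  have e2 : deriv (deriv h) 0 = c := by rw [e1]; exact hd2.deriv
  have hmax : IsLocalMax h 0 := isLocalMax_of_deriv_deriv_neg (by rw [e2]; exact hc)
    hmin.deriv_eq_zero (hd 0).continuousAt
  have e3 : h =ᶠ[𝓝 0] fun _ => h 0 := by
    filter_upwards [hmin, hmax] with τ h2 h3
    exact le_antisymm h3 h2
  have e4 : deriv h =ᶠ[𝓝 0] fun _ => 0 := by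
    filter_upwards [e3.eventuallyEq_nhds] with τ h2
    rw [h2.deriv_eq]
    simp
  have e5 : deriv (deriv h) 0 = 0 := by
    rw [e4.deriv_eq]
    simp
  rw [e2] at e5
  linarith

theorem surj (a' b' s₀ s₁ : ℝ) (W v : E3 → ℝ) (K : Set E3) (ψ : ℝ → ℝ)
    (hT : Trunc a' b' s₀ s₁ W) (hv : ContDiff ℝ ∞ v)
    (hag : ∀ x ∈ K, ∀ᶠ y in 𝓝 x, W y = v y) (hsupp : tsupport ψ ⊆ Set.Ioo s₀ s₁)
    (hK : ∀ x, W x ∈ tsupport ψ → x ∈ K) (y : E3) (hy : 0 < ψ (‖y‖ - 1 + s₀))
    (hcrit : ∀ x ∈ K, grad v x = 0 → v x ≠ ‖y‖ - 1 + s₀) :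
    ∃ x ∈ K, 0 < vsq (grad v x) ∧ 0 < ψ (v x) ∧ 0 ≤ cofq (grad v x) (hess2 v x)
      ∧ Th s₀ v x = y := by
  set s := ‖y‖ - 1 + s₀ with hs
  have hst : s ∈ tsupport ψ := subset_tsupport ψ hy.ne'
  have hsI := hsupp hst
  have hy1 : 1 < ‖y‖ := by linarith [hsI.1]
  have hy0 : 0 < ‖y‖ := by linarith
  have hyy : ∑ i, y i * y i = ‖y‖ ^ 2 := by
    rw [EuclideanSpace.real_norm_sq_eq]
    exact Finset.sum_congr rfl fun i _ => by ring
  have hy2 : 0 < ∑ i, y i * y i := by rw [hyy]; positivity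
  -- the linear function
  set ℓ : E3 → ℝ := fun x => ∑ i, x i * y i with hℓ
  have hℓc : Continuous ℓ := by rw [hℓ]; fun_prop
  have hℓa : ∀ (x t : E3) (τ : ℝ), ℓ (x + τ • t) = ℓ x + τ * ℓ t := by
    intro x t τ
    simp only [hℓ, Fin.sum_univ_three, PiLp.add_apply, PiLp.smul_apply, smul_eq_mul]
    ring
  have hvd : Differentiable ℝ v := hv.differentiable (by simp)
  -- the compact sublevel set
  have hLc : IsCompact {x | W x ≤ s} := by
    refine Metric.isCompact_of_isClosed_isBounded (isClosed_le hT.cont continuous_const) ?_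
    refine (Metric.isBounded_closedBall (x := (0 : E3)) (r := b')).subset fun x hx => ?_
    rw [mem_closedBall_zero_iff]
    by_contra hc
    push Not at hc
    have h1 := hT.outer x hc.le
    have h2 : W x ≤ s := hx
    linarith [hsI.2]
  have hLn : ({x | W x ≤ s} : Set E3).Nonempty := by
    refine ⟨0, ?_⟩
    have h1 := hT.inner 0 (by simpa using hT.pos.le)
    show W 0 ≤ s
    linarith [hsI.1]
  obtain ⟨x₀, hx₀, hmax⟩ := hLc.exists_isMaxOn hLn hℓc.continuousOn
  have hA : ∀ x, ℓ x₀ < ℓ x → s < W x := by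
    intro x hx
    by_contra hc
    push Not at hc
    have : ℓ x ≤ ℓ x₀ := hmax hc
    linarith
  have hB : ∀ x, ℓ x₀ ≤ ℓ x → s ≤ W x := by
    intro x hx
    have h1 : Tendsto (fun τ : ℝ => W (x + τ • y)) (𝓝[>] 0) (𝓝 (W x)) := by
      have h2 : Continuous (fun τ : ℝ => W (x + τ • y)) := hT.cont.comp (by fun_prop)
      have h3 := h2.tendsto 0
      simp only [zero_smul, add_zero] at h3
      exact h3.mono_left nhdsWithin_le_nhds
    refine ge_of_tendsto h1 ?_
    filter_upwards [self_mem_nhdsWithin] with τ hτ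
    refine (hA _ ?_).le
    rw [hℓa]
    have : 0 < τ * ℓ y := mul_pos hτ hy2
    linarith
  have hWs : W x₀ = s := le_antisymm hx₀ (hB x₀ le_rfl)
  have hxK : x₀ ∈ K := hK x₀ (by rw [hWs]; exact hst)
  have hnear := hag x₀ hxK
  have hvs : v x₀ = s := by rw [← hnear.self_of_nhds]; exact hWs
  -- minimality along lines
  have hline : ∀ t : E3, 0 ≤ ℓ t → ∀ᶠ τ in 𝓝 (0 : ℝ), 0 ≤ τ → v x₀ ≤ v (x₀ + τ • t) := by
    intro t ht
    have h1 : Tendsto (fun τ : ℝ => x₀ + τ • t) (𝓝 0) (𝓝 x₀) := by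
      have h2 : Continuous (fun τ : ℝ => x₀ + τ • t) := by fun_prop
      have h3 := h2.tendsto 0
      simpa using h3
    filter_upwards [h1.eventually hnear] with τ h2 h3
    rw [hvs, ← h2]
    refine hB _ ?_
    rw [hℓa]
    have := mul_nonneg h3 ht
    linarith
  have hmin : ∀ t : E3, ℓ t = 0 → IsLocalMin (fun τ : ℝ => v (x₀ + τ • t)) 0 := by
    intro t ht
    have h1 : Tendsto (fun τ : ℝ => x₀ + τ • t) (𝓝 0) (𝓝 x₀) := by
      have h2 : Continuous (fun τ : ℝ => x₀ + τ • t) := by fun_prop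
      have h3 := h2.tendsto 0
      simpa using h3
    filter_upwards [h1.eventually hnear] with τ h2
    simp only [zero_smul, add_zero]
    rw [hvs, ← h2]
    refine hB _ ?_
    rw [hℓa, ht]
    linarith
  have hfirst : ∀ t : E3, ℓ t = 0 → ∑ i, t i * pd i v x₀ = 0 := by
    intro t ht
    have h1 := line_deriv v hvd x₀ t 0
    have h2 := (hmin t ht).hasDerivAt_eq_zero h1
    simpa using h2
  have hsecond : ∀ t : E3, ℓ t = 0 → 0 ≤ ev (hess2 v x₀) (fun i => t i) (fun i => t i) := by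
    intro t ht
    have hd2 : HasDerivAt (fun τ : ℝ => ∑ i, t i * pd i v (x₀ + τ • t))
        (∑ i, t i * ∑ j, t j * pd j (pd i v) (x₀ + (0 : ℝ) • t)) 0 := by
      refine HasDerivAt.fun_sum fun i _ => ?_
      exact (line_deriv (pd i v) ((pd_smooth v hv i).differentiable (by simp)) x₀ t 0).const_mul
        (t i)
    have h2 := second_order _ _ _ (hmin t ht) (fun τ => line_deriv v hvd x₀ t τ) hd2
    have h3 : ev (hess2 v x₀) (fun i => t i) (fun i => t i)
        = ∑ i, t i * ∑ j, t j * pd j (pd i v) (x₀ + (0 : ℝ) • t) := by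
      simp only [ev_explicit, hess2, Matrix.of_apply, Fin.sum_univ_three, zero_smul, add_zero]
      ring
    rw [h3]
    exact h2
  -- the gradient is parallel to y
  set lam : ℝ := (∑ i, pd i v x₀ * y i) / ‖y‖ ^ 2 with hlam
  have hpar : ∀ i, grad v x₀ i = lam * y i := by
    set t : E3 := WithLp.toLp 2 (fun i => pd i v x₀ - lam * y i) with ht
    have hti : ∀ i, t i = pd i v x₀ - lam * y i := fun i => rfl
    have hlam' : lam * ‖y‖ ^ 2 = ∑ i, pd i v x₀ * y i := by
      rw [hlam]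
      field_simp
    have h1 : ℓ t = 0 := by
      simp only [hℓ, hti, Fin.sum_univ_three] at hyy hlam' ⊢
      rw [← hyy] at hlam'
      linarith
    have h2 := hfirst t h1
    have h3 : ∑ i, t i * t i = 0 := by
      simp only [hℓ, hti, Fin.sum_univ_three] at h1 h2 ⊢
      linear_combination h2 - lam * h1
    have h4 : ∀ i ∈ Finset.univ, t i * t i = 0 :=
      (Finset.sum_eq_zero_iff_of_nonneg fun i _ => mul_self_nonneg _).mp h3
    intro i
    have h5 := mul_self_eq_zero.mp (h4 i (Finset.mem_univ i))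
    rw [hti] at h5
    show pd i v x₀ = _
    linarith
  have hlam0 : 0 ≤ lam := by
    have h1 := line_deriv v hvd x₀ y 0
    have h2 := h1.tendsto_slope_zero_right
    have h3 : 0 ≤ ∑ i, y i * pd i v (x₀ + (0 : ℝ) • y) := by
      refine ge_of_tendsto h2 ?_
      have h4 := hline y hy2.le
      filter_upwards [nhdsWithin_le_nhds h4, self_mem_nhdsWithin] with τ h5 h6
      have h7 : (0 : ℝ) < τ := h6
      simp only [zero_add, zero_smul, add_zero, smul_eq_mul]
      have h8 := h5 h7.le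
      exact mul_nonneg (by positivity) (by linarith)
    rw [hlam]
    refine div_nonneg ?_ (by positivity)
    simp only [zero_smul, add_zero] at h3
    calc (0 : ℝ) ≤ ∑ i, y i * pd i v x₀ := h3
      _ = _ := Finset.sum_congr rfl fun i _ => by ring
  have hgne : grad v x₀ ≠ 0 := fun h => hcrit x₀ hxK h hvs
  have hlampos : 0 < lam := by
    refine lt_of_le_of_ne hlam0 fun h => hgne ?_
    funext i
    rw [hpar i, ← h]
    simp
  have hvsq : vsq (grad v x₀) = (lam * ‖y‖) ^ 2 := by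
    simp only [vsq, hpar, Fin.sum_univ_three] at hyy ⊢
    linear_combination lam ^ 2 * hyy
  have hvn : vn (grad v x₀) = lam * ‖y‖ := by
    unfold vn
    rw [hvsq]
    exact Real.sqrt_sq (by positivity)
  refine ⟨x₀, hxK, ?_, ?_, ?_, ?_⟩
  · rw [hvsq]
    positivity
  · rw [hvs]
    exact hy
  · refine cof_nonneg _ _ (hess_symm v hv 1 0 x₀) (hess_symm v hv 2 0 x₀)
      (hess_symm v hv 2 1 x₀) (by rw [hvsq]; positivity) fun t ht => ?_
    refine hsecond (WithLp.toLp 2 t) ?_
    have h1 : lam * ℓ (WithLp.toLp 2 t) = 0 := by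
      simp only [hℓ, hpar, Fin.sum_univ_three] at ht ⊢
      linear_combination ht
    exact (mul_eq_zero.mp h1).resolve_left hlampos.ne'
  · ext i
    show (v x₀ - s₀ + 1) / vn (grad v x₀) * pd i v x₀ = y i
    have h1 : pd i v x₀ = lam * y i := hpar i
    rw [hvs, hvn, h1, hs]
    have h2 : ‖y‖ - 1 + s₀ - s₀ + 1 = ‖y‖ := by ring
    rw [h2]
    field_simp

end MGAU

theorem GAU : Stmt_GAU := by
  intro a' b' s₀ s₁ W v K ψ hT hv hKc hag hfin hψ hψ0 hsupp hK
  rw [MGAU.polar s₀ s₁ ψ hψ hψ0 hsupp]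
  have hpc : ∀ i, Continuous (pd i v) := fun i => (MGAU.pd_smooth v hv i).continuous
  have hpc2 : ∀ i j, Continuous (pd i (pd j v)) := fun i j =>
    (MGAU.pd_smooth _ (MGAU.pd_smooth v hv j) i).continuous
  have hqc : Continuous (fun x => vsq (grad v x)) := by
    unfold vsq grad
    fun_prop
  have hcc : Continuous (fun x => MGAU.cofq (grad v x) (hess2 v x)) := by
    unfold MGAU.cofq grad hess2
    simp only [Matrix.of_apply]
    fun_prop
  set S : Set E3 := {x | x ∈ K ∧ 0 < vsq (grad v x) ∧ 0 < ψ (v x)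
    ∧ 0 ≤ MGAU.cofq (grad v x) (hess2 v x)} with hS
  have hSm : MeasurableSet S := by
    refine hKc.isClosed.measurableSet.inter ?_
    refine (measurableSet_lt measurable_const hqc.measurable).inter ?_
    refine (measurableSet_lt measurable_const (hψ.comp hv.continuous).measurable).inter ?_
    exact measurableSet_le measurable_const hcc.measurable
  have hSK : S ⊆ K := fun x hx => hx.1
  have hd : ∀ x ∈ S, HasFDerivWithinAt (MGAU.Th s₀ v) (fderiv ℝ (MGAU.Th s₀ v) x) S x :=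
    fun x hx => (MGAU.det_Th s₀ v hv x hx.2.1).1.hasFDerivAt.hasFDerivWithinAt
  set g : E3 → ENNReal := fun y => ENNReal.ofReal (MGAU.prof s₀ ψ ‖y‖) with hg
  have hgm : Measurable g :=
    (((MGAU.prof_cont s₀ ψ hψ).comp continuous_norm).measurable).ennreal_ofReal
  have himg := MGAU.lintegral_image_le (MGAU.Th s₀ v) (fun x => fderiv ℝ (MGAU.Th s₀ v) x) S hSm
    hd g hgm
  -- the image of S contains almost all of the support of g
  have hcover : ∫⁻ y, g y ≤ ∫⁻ y in MGAU.Th s₀ v '' S, g y := by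
    have hnull : volume (⋃ c ∈ (fun x => v x) '' {x ∈ K | grad v x = 0},
        Metric.sphere (0 : E3) (c - s₀ + 1)) = 0 := by
      refine (measure_biUnion_null_iff (hfin.image _).countable).mpr fun c _ => ?_
      exact Measure.addHaar_sphere volume 0 _
    have hae : g ≤ᵐ[volume] (MGAU.Th s₀ v '' S).indicator g := by
      have h1 : ∀ᵐ y : E3, y ∉ (⋃ c ∈ (fun x => v x) '' {x ∈ K | grad v x = 0},
        Metric.sphere (0 : E3) (c - s₀ + 1)) := measure_eq_zero_iff_ae_notMem.mp hnull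
      filter_upwards [h1] with y hy
      by_cases hpos : 0 < ψ (‖y‖ - 1 + s₀)
      · obtain ⟨x, hxK, hx1, hx2, hx3, hx4⟩ := MGAU.surj a' b' s₀ s₁ W v K ψ hT hv hag hsupp hK
          y hpos (by
            intro x hx hgx hvx
            apply hy
            refine Set.mem_biUnion (x := v x) ⟨x, ⟨hx, hgx⟩, rfl⟩ ?_
            rw [mem_sphere_zero_iff_norm, hvx]
            ring)
        have hmem : y ∈ MGAU.Th s₀ v '' S := ⟨x, ⟨hxK, hx1, hx2, hx3⟩, hx4⟩
        rw [Set.indicator_of_mem hmem]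
      · have h0 : ψ (‖y‖ - 1 + s₀) = 0 := le_antisymm (not_lt.mp hpos) (hψ0 _)
        have h2 : g y = 0 := by
          simp only [hg, MGAU.prof, h0, zero_div, ENNReal.ofReal_zero]
        rw [h2]
        exact bot_le
    calc ∫⁻ y, g y ≤ ∫⁻ y, (MGAU.Th s₀ v '' S).indicator g y := lintegral_mono_ae hae
      _ ≤ ∫⁻ y in MGAU.Th s₀ v '' S, g y := lintegral_indicator_le _ _
  -- pointwise comparison
  have hpt : ∀ x ∈ S, 4 * (ENNReal.ofReal |(fderiv ℝ (MGAU.Th s₀ v) x).det|
      * g (MGAU.Th s₀ v x)) ≤ ENNReal.ofReal (ψ (v x) * Wd (grad v x) (hess2 v x)) := by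
    intro x hx
    obtain ⟨hxK, hx1, hx2, hx3⟩ := hx
    have hvI : v x ∈ Set.Ioo s₀ s₁ := hsupp (subset_tsupport ψ hx2.ne')
    have hr : 1 < v x - s₀ + 1 := by linarith [hvI.1]
    have hvn : 0 < vn (grad v x) := Real.sqrt_pos.mpr hx1
    have hsq : vn (grad v x) ^ 2 = vsq (grad v x) := Real.sq_sqrt hx1.le
    have hnorm : ‖MGAU.Th s₀ v x‖ = v x - s₀ + 1 := by
      have h1 : ‖MGAU.Th s₀ v x‖ ^ 2 = (v x - s₀ + 1) ^ 2 := by
        rw [EuclideanSpace.real_norm_sq_eq]
        have h2 : ∀ i, (MGAU.Th s₀ v x) i = (v x - s₀ + 1) / vn (grad v x) * grad v x i :=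
          fun i => rfl
        simp only [h2]
        have h3 : ∑ i, ((v x - s₀ + 1) / vn (grad v x) * grad v x i) ^ 2
            = ((v x - s₀ + 1) / vn (grad v x)) ^ 2 * vsq (grad v x) := by
          simp only [vsq, Finset.mul_sum, mul_pow]
        rw [h3, ← hsq]
        field_simp
      have h4 : |‖MGAU.Th s₀ v x‖| = |v x - s₀ + 1| := (sq_eq_sq_iff_abs_eq_abs _ _).mp h1
      rwa [abs_of_nonneg (norm_nonneg _), abs_of_pos (by linarith)] at h4
    rw [(MGAU.det_Th s₀ v hv x hx1).2]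
    have hdet0 : 0 ≤ (v x - s₀ + 1) ^ 2 / vn (grad v x) ^ 3
        * MGAU.cofq (grad v x) (hess2 v x) := mul_nonneg (by positivity) hx3
    rw [abs_of_nonneg hdet0]
    have hgx : g (MGAU.Th s₀ v x) = ENNReal.ofReal (ψ (v x) / (v x - s₀ + 1) ^ 2) := by
      simp only [hg, MGAU.prof, hnorm]
      rw [max_eq_left hr.le, show v x - s₀ + 1 - 1 + s₀ = v x by ring]
    rw [hgx, ← ENNReal.ofReal_mul hdet0, show (4 : ENNReal) = ENNReal.ofReal 4 by simp,
      ← ENNReal.ofReal_mul (by norm_num)]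
    refine ENNReal.ofReal_le_ofReal ?_
    have hle := MGAU.cof_le (grad v x) (hess2 v x) (MGAU.hess_symm v hv 1 0 x)
      (MGAU.hess_symm v hv 2 0 x) (MGAU.hess_symm v hv 2 1 x) hx1
    unfold Wd
    set q := vsq (grad v x) with hq
    set n := vn (grad v x) with hn
    set T := ∑ i, hess2 v x i i with hTr
    set e := ev (hess2 v x) (grad v x) (grad v x) with he
    set cf := MGAU.cofq (grad v x) (hess2 v x) with hcf
    have h5 : 4 * cf / n ^ 3 ≤ (T - e / q) ^ 2 / n := by
      have h6 : (T - e / q) ^ 2 / n = (q * T - e) ^ 2 / (q ^ 2 * n) := by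
        field_simp
      have h7 : 4 * cf / n ^ 3 = 4 * (q * cf) / (q ^ 2 * n) := by
        rw [← hsq]
        field_simp
      rw [h6, h7]
      exact div_le_div_of_nonneg_right hle (by positivity)
    have h8 : 4 * ((v x - s₀ + 1) ^ 2 / n ^ 3 * cf * (ψ (v x) / (v x - s₀ + 1) ^ 2))
        = ψ (v x) * (4 * cf / n ^ 3) := by
      have : v x - s₀ + 1 ≠ 0 := by linarith
      field_simp
    rw [h8]
    exact mul_le_mul_of_nonneg_left h5 (hψ0 _)
  calc 4 * ∫⁻ y, g y ≤ 4 * ∫⁻ x in S, ENNReal.ofReal |(fderiv ℝ (MGAU.Th s₀ v) x).det|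
        * g (MGAU.Th s₀ v x) := mul_le_mul_right (hcover.trans himg) _
    _ = ∫⁻ x in S, 4 * (ENNReal.ofReal |(fderiv ℝ (MGAU.Th s₀ v) x).det|
        * g (MGAU.Th s₀ v x)) := (lintegral_const_mul' _ _ (by simp)).symm
    _ ≤ ∫⁻ x in S, ENNReal.ofReal (ψ (v x) * Wd (grad v x) (hess2 v x)) :=
        setLIntegral_mono' hSm hpt
    _ ≤ ∫⁻ x in K, ENNReal.ofReal (ψ (v x) * Wd (grad v x) (hess2 v x)) :=
        lintegral_mono_set hSK

end Pool.Agent.PFlow
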