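import Pool.Agent.PFlow.StmtsM

/-!
# Module H2I: the divergence formula for `Y_d` and Sobolev functions
-/

set_option autoImplicit false

open MeasureTheory Filter Topology
open scoped ContDiff ENNReal

namespace Pool.Agent.PFlow

open Pool.Agent.PenroseSph

namespace MH2I

/-- squares of a uniformly integrable sequence -/
lemma ui_sq {μ : Measure E3} {u : ℕ → E3 → ℝ} (h : UnifIntegrable u 2 μ) :
    UnifIntegrable (fun n x => u n x ^ 2) 1 μ := by
  intro ε hε
  obtain ⟨δ, hδ, hu⟩ := h (Real.sqrt_pos.2 hε)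
  refine ⟨δ, hδ, fun n s hs hμ => ?_⟩
  have h1 := hu n s hs hμ
  have h3 : (s.indicator (fun x => u n x ^ 2)) = fun x => ‖s.indicator (u n) x‖ ^ (2 : ℝ) := by
    funext x
    by_cases hx : x ∈ s <;> simp [hx]
  have h2 : eLpNorm (s.indicator (fun x => u n x ^ 2)) 1 μ =
      eLpNorm (s.indicator (u n)) 2 μ ^ (2 : ℝ) := by
    rw [h3, eLpNorm_norm_rpow _ (by norm_num : (0 : ℝ) < 2)]
    norm_num
  rw [h2]
  calc eLpNorm (s.indicator (u n)) 2 μ ^ (2 : ℝ) ≤ (ENNReal.ofReal (Real.sqrt ε)) ^ (2 : ℝ) :=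
        ENNReal.rpow_le_rpow h1 (by norm_num)
    _ = ENNReal.ofReal ε := by
        rw [ENNReal.ofReal_rpow_of_nonneg (Real.sqrt_nonneg _) (by norm_num)]
        congr 1
        rw [Real.rpow_two, Real.sq_sqrt hε.le]

/-- domination -/
lemma ui_dom {μ : Measure E3} {u v : ℕ → E3 → ℝ} (h : UnifIntegrable u 1 μ)
    (hv : ∀ n, ∀ᵐ x ∂μ, |v n x| ≤ |u n x|) : UnifIntegrable v 1 μ := by
  intro ε hε
  obtain ⟨δ, hδ, hu⟩ := h hε
  refine ⟨δ, hδ, fun n s hs hμ => le_trans (eLpNorm_mono_ae ?_) (hu n s hs hμ)⟩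
  filter_upwards [hv n] with x hx
  by_cases hxs : x ∈ s <;> simp [hxs, hx]

/-- finite sums -/
lemma ui_sum {ι : Type} {μ : Measure E3} (s : Finset ι) {u : ι → ℕ → E3 → ℝ}
    (h : ∀ i, UnifIntegrable (u i) 1 μ) (hm : ∀ i n, AEStronglyMeasurable (u i n) μ) :
    UnifIntegrable (fun n x => ∑ i ∈ s, u i n x) 1 μ := by
  classical
  induction s using Finset.induction_on with
  | empty =>
    simp only [Finset.sum_empty]
    exact unifIntegrable_const le_rfl ENNReal.one_ne_top (by simp)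
  | insert a s ha ih =>
    have : (fun n x => ∑ i ∈ insert a s, u i n x) = u a + fun n x => ∑ i ∈ s, u i n x := by
      funext n x
      rw [Finset.sum_insert ha]
      rfl
    rw [this]
    exact (h a).add ih le_rfl (hm a) (fun n => Finset.aestronglyMeasurable_fun_sum _ (fun i _ => hm i n))

/-- a subsequence converging almost everywhere, for finitely many sequences -/
lemma sub_ae {ι : Type} {μ : Measure E3} (s : Finset ι) (u : ι → ℕ → E3 → ℝ) (g : ι → E3 → ℝ)
    (h : ∀ i, TendstoInMeasure μ (u i) atTop (g i)) :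
    ∃ ns : ℕ → ℕ, StrictMono ns ∧ ∀ i ∈ s, ∀ᵐ x ∂μ,
      Tendsto (fun k => u i (ns k) x) atTop (𝓝 (g i x)) := by
  classical
  induction s using Finset.induction_on with
  | empty => exact ⟨id, strictMono_id, by simp⟩
  | insert a s ha ih =>
    obtain ⟨ns, hns, hs⟩ := ih
    have h1 : TendstoInMeasure μ (fun k => u a (ns k)) atTop (g a) :=
      fun ε hε => (h a ε hε).comp hns.tendsto_atTop
    obtain ⟨ms, hms, h2⟩ := h1.exists_seq_tendsto_ae
    refine ⟨ns ∘ ms, hns.comp hms, fun i hi => ?_⟩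
    rw [Finset.mem_insert] at hi
    rcases hi with rfl | hi
    · exact h2
    · filter_upwards [hs i hi] with x hx
      exact hx.comp hms.tendsto_atTop

/-- generalised dominated convergence -/
theorem gen {μ : Measure E3} [IsFiniteMeasure μ] (P : ℕ → E3 → Cov) (N : ℕ → E3 → Bil)
    (G : E3 → Cov) (M : E3 → Bil)
    (hP : ∀ n i, MemLp (fun x => P n x i) 2 μ) (hN : ∀ n i j, MemLp (fun x => N n x i j) 2 μ)
    (hG : ∀ i, MemLp (fun x => G x i) 2 μ) (hM : ∀ i j, MemLp (fun x => M x i j) 2 μ)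
    (cP : ∀ i, Tendsto (fun n => eLpNorm (fun x => P n x i - G x i) 2 μ) atTop (𝓝 0))
    (cN : ∀ i j, Tendsto (fun n => eLpNorm (fun x => N n x i j - M x i j) 2 μ) atTop (𝓝 0))
    (aP : ∀ i, ∀ᵐ x ∂μ, Tendsto (fun n => P n x i) atTop (𝓝 (G x i)))
    (aN : ∀ i j, ∀ᵐ x ∂μ, Tendsto (fun n => N n x i j) atTop (𝓝 (M x i j)))
    (Φ : E3 → Cov → Bil → ℝ) (C : ℝ)
    (hb : ∀ᵐ x ∂μ, ∀ p m, |Φ x p m| ≤ C * (1 + vsq p + msq m))
    (hc : ∀ᵐ x ∂μ, Continuous fun q : Cov × Bil => Φ x q.1 q.2)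
    (hm : ∀ n, AEStronglyMeasurable (fun x => Φ x (P n x) (N n x)) μ) :
    Integrable (fun x => Φ x (G x) (M x)) μ ∧
      Tendsto (fun n => ∫ x, Φ x (P n x) (N n x) ∂μ) atTop (𝓝 (∫ x, Φ x (G x) (M x) ∂μ)) := by
  have hlim : ∀ᵐ x ∂μ, Tendsto (fun n => Φ x (P n x) (N n x)) atTop (𝓝 (Φ x (G x) (M x))) := by
    have aP' : ∀ᵐ x ∂μ, ∀ i, Tendsto (fun n => P n x i) atTop (𝓝 (G x i)) := ae_all_iff.2 aP
    have aN' : ∀ᵐ x ∂μ, ∀ i j, Tendsto (fun n => N n x i j) atTop (𝓝 (M x i j)) :=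
      ae_all_iff.2 fun i => ae_all_iff.2 fun j => aN i j
    filter_upwards [aP', aN', hc] with x h1 h2 h3
    have h4 : Tendsto (fun n => (P n x, N n x)) atTop (𝓝 (G x, M x)) :=
      (tendsto_pi_nhds.2 h1).prodMk_nhds (tendsto_pi_nhds.2 fun i => tendsto_pi_nhds.2 (h2 i))
    exact (h3.tendsto (G x, M x)).comp h4
  have hmG : AEStronglyMeasurable (fun x => Φ x (G x) (M x)) μ :=
    aestronglyMeasurable_of_tendsto_ae atTop hm hlim
  have hint : ∀ (p : E3 → Cov) (m : E3 → Bil), (∀ i, MemLp (fun x => p x i) 2 μ) →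
      (∀ i j, MemLp (fun x => m x i j) 2 μ) → Integrable (fun x => 1 + vsq (p x) + msq (m x)) μ := by
    intro p m h1 h2
    refine ((integrable_const 1).add ?_).add ?_
    · exact integrable_finsetSum _ fun i _ => (h1 i).integrable_sq
    · exact integrable_finsetSum _ fun i _ => integrable_finsetSum _ fun j _ =>
        (h2 i j).integrable_sq
  have hbd : ∀ (p : E3 → Cov) (m : E3 → Bil), (∀ i, MemLp (fun x => p x i) 2 μ) →
      (∀ i j, MemLp (fun x => m x i j) 2 μ) →
      AEStronglyMeasurable (fun x => Φ x (p x) (m x)) μ → Integrable (fun x => Φ x (p x) (m x)) μ := by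
    intro p m h1 h2 h3
    refine Integrable.mono' ((hint p m h1 h2).const_mul C) h3 ?_
    filter_upwards [hb] with x hx
    exact hx _ _
  have hIG := hbd G M hG hM hmG
  refine ⟨hIG, ?_⟩
  -- uniform integrability
  have huP : ∀ i, UnifIntegrable (fun n x => P n x i ^ 2) 1 μ := fun i =>
    ui_sq (unifIntegrable_of_tendsto_Lp (by norm_num) (by norm_num) (fun n => hP n i) (hG i) (cP i))
  have huN : ∀ i j, UnifIntegrable (fun n x => N n x i j ^ 2) 1 μ := fun i j =>
    ui_sq (unifIntegrable_of_tendsto_Lp (by norm_num) (by norm_num) (fun n => hN n i j) (hM i j)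
      (cN i j))
  have h1 : UnifIntegrable (fun n x => vsq (P n x)) 1 μ :=
    ui_sum Finset.univ huP (fun i n => ((hP n i).1.pow 2))
  have h2 : UnifIntegrable (fun n x => msq (N n x)) 1 μ :=
    ui_sum Finset.univ (fun i => ui_sum Finset.univ (huN i) (fun j n => ((hN n i j).1.pow 2)))
      (fun i n => Finset.aestronglyMeasurable_fun_sum _ fun j _ => (hN n i j).1.pow 2)
  have hmv : ∀ n, AEStronglyMeasurable (fun x => vsq (P n x)) μ := fun n =>
    Finset.aestronglyMeasurable_fun_sum _ fun i _ => (hP n i).1.pow 2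
  have hmm : ∀ n, AEStronglyMeasurable (fun x => msq (N n x)) μ := fun n =>
    Finset.aestronglyMeasurable_fun_sum _ fun i _ =>
      Finset.aestronglyMeasurable_fun_sum _ fun j _ => (hN n i j).1.pow 2
  have h3 : UnifIntegrable (fun (_ : ℕ) (_ : E3) => (1 : ℝ)) 1 μ :=
    unifIntegrable_const le_rfl ENNReal.one_ne_top (memLp_const 1)
  have h4 := (h3.add h1 le_rfl (fun _ => aestronglyMeasurable_const) hmv).add h2 le_rfl
    (fun n => aestronglyMeasurable_const.add (hmv n)) hmm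
  have h5 : UnifIntegrable (fun n x => C * (1 + vsq (P n x) + msq (N n x))) 1 μ := by
    intro ε hε
    obtain ⟨δ, hδ, hu⟩ := h4 (show 0 < ε / (|C| + 1) by positivity)
    refine ⟨δ, hδ, fun n s hs hμ => ?_⟩
    have e1 := hu n s hs hμ
    have e2 : (s.indicator fun x => C * (1 + vsq (P n x) + msq (N n x))) =
        C • (s.indicator fun x => (1 + vsq (P n x) + msq (N n x))) := by
      funext x
      by_cases hx : x ∈ s <;> simp [hx]
    rw [e2, eLpNorm_const_smul]
    refine (mul_le_mul_right e1 _).trans ?_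
    rw [Real.enorm_eq_ofReal_abs, ← ENNReal.ofReal_mul (abs_nonneg _)]
    apply ENNReal.ofReal_le_ofReal
    rw [mul_div_assoc', div_le_iff₀ (by positivity)]
    nlinarith [abs_nonneg C]
  have h6 : UnifIntegrable (fun n x => Φ x (P n x) (N n x)) 1 μ := by
    refine ui_dom h5 fun n => ?_
    filter_upwards [hb] with x hx
    exact (hx _ _).trans (le_abs_self _)
  have h7 := tendsto_Lp_finite_of_tendsto_ae le_rfl ENNReal.one_ne_top hm
    (memLp_one_iff_integrable.2 hIG) h6 hlim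
  exact tendsto_integral_of_L1' _ hIG.1
    (Eventually.of_forall fun n => hbd (P n) (N n) (hP n) (hN n) (hm n)) h7

/-! ### Bounds -/

lemma sum3 (F : Fin 3 → ℝ) (c : ℝ) (h : ∀ i, |F i| ≤ c) : |∑ i, F i| ≤ 3 * c := by
  refine (Finset.abs_sum_le_sum_abs _ _).trans ?_
  refine (Finset.sum_le_sum fun i _ => h i).trans ?_
  simp

lemma mul_le' {x y a b : ℝ} (hx : |x| ≤ a) (hy : |y| ≤ b) : |x * y| ≤ a * b := by
  rw [abs_mul]
  exact mul_le_mul hx hy (abs_nonneg _) ((abs_nonneg _).trans hx)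

lemma up_le {P : Bil} {p : Cov} {C a : ℝ} (hP : ∀ i j, |P i j| ≤ C) (hp : ∀ i, |p i| ≤ a)
    (i : Fin 3) : |up P p i| ≤ 3 * (C * a) :=
  sum3 _ _ fun j => mul_le' (hP i j) (hp j)

lemma tr2_le {P H : Bil} {C h : ℝ} (hP : ∀ i j, |P i j| ≤ C) (hH : ∀ i j, |H i j| ≤ h) :
    |tr2 P H| ≤ 3 * (3 * (C * h)) :=
  sum3 _ _ fun i => sum3 _ _ fun j => mul_le' (hP i j) (hH i j)

lemma ev_le {B : Bil} {v w : Cov} {c a b : ℝ} (hB : ∀ i j, |B i j| ≤ c) (hv : ∀ i, |v i| ≤ a)
    (hw : ∀ i, |w i| ≤ b) : |ev B v w| ≤ 3 * (3 * (c * a * b)) :=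
  sum3 _ _ fun i => sum3 _ _ fun j => mul_le' (mul_le' (hB i j) (hv i)) (hw j)

lemma dd_le {P H : Bil} {C h : ℝ} (hP : ∀ i j, |P i j| ≤ C) (hH : ∀ i j, |H i j| ≤ h) :
    |dd P H H| ≤ 3 * (3 * (3 * (3 * (C * C * h * h)))) :=
  sum3 _ _ fun i => sum3 _ _ fun j => sum3 _ _ fun k => sum3 _ _ fun l =>
    mul_le' (mul_le' (mul_le' (hP i k) (hP j l)) (hH i j)) (hH k l)

lemma app_le {P H : Bil} {p : Cov} {C h a : ℝ} (hP : ∀ i j, |P i j| ≤ C)
    (hH : ∀ i j, |H i j| ≤ h) (hp : ∀ i, |p i| ≤ a) (i : Fin 3) :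
    |app P H p i| ≤ 3 * (h * (3 * (C * a))) :=
  sum3 _ _ fun j => mul_le' (hH i j) (up_le hP hp j)

lemma vn_le (p : Cov) (i : Fin 3) : |p i| ≤ vn p := by
  unfold vn vsq
  rw [← Real.sqrt_sq_eq_abs]
  apply Real.sqrt_le_sqrt
  exact Finset.single_le_sum (f := fun i => p i ^ 2) (fun _ _ => sq_nonneg _) (Finset.mem_univ i)

lemma vsq_nonneg (p : Cov) : 0 ≤ vsq p := Finset.sum_nonneg fun _ _ => sq_nonneg _

lemma msq_nonneg (M : Bil) : 0 ≤ msq M :=
  Finset.sum_nonneg fun _ _ => Finset.sum_nonneg fun _ _ => sq_nonneg _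

lemma vn_sq (p : Cov) : vn p ^ 2 = vsq p := Real.sq_sqrt (vsq_nonneg p)

lemma msq_le (M : Bil) (i j : Fin 3) : |M i j| ≤ Real.sqrt (msq M) := by
  unfold msq
  rw [← Real.sqrt_sq_eq_abs]
  apply Real.sqrt_le_sqrt
  refine le_trans ?_ (Finset.single_le_sum (f := fun i => ∑ j, M i j ^ 2)
    (fun i _ => Finset.sum_nonneg fun j _ => sq_nonneg _) (Finset.mem_univ i))
  exact Finset.single_le_sum (f := fun j => M i j ^ 2) (fun j _ => sq_nonneg _)
    (Finset.mem_univ j)

lemma ld_ge {P : Bil} {d : ℝ} {p : Cov} (h0 : 0 ≤ ev P p p) (_ : 0 < d) : d ≤ ld P d p := by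
  unfold ld
  apply Real.le_sqrt_of_sq_le
  linarith

lemma vn_le_ld {P : Bil} {d C : ℝ} {p : Cov} (hC : 1 ≤ C) (h0 : vsq p ≤ C * ev P p p)
    (h1 : 0 ≤ ev P p p) : vn p ≤ C * ld P d p := by
  have h2 : ld P d p ^ 2 = ev P p p + d ^ 2 := Real.sq_sqrt (by positivity)
  have h3 : 0 ≤ ld P d p := Real.sqrt_nonneg _
  apply le_of_sq_le_sq _ (by positivity)
  rw [vn_sq, mul_pow, h2]
  have : C * ev P p p ≤ C ^ 2 * ev P p p := by
    apply mul_le_mul_of_nonneg_right _ h1
    nlinarith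
  nlinarith [sq_nonneg d, sq_nonneg C, mul_nonneg (sq_nonneg C) (sq_nonneg d)]

lemma Dd_le {P Rc H : Bil} {p : Cov} {C h d : ℝ} (hC : 1 ≤ C) (hd : 0 < d)
    (hP : ∀ i j, |P i j| ≤ C) (hH : ∀ i j, |H i j| ≤ h) (h0 : 0 ≤ ev P p p)
    (h1 : vsq p ≤ C * ev P p p) (hR : |qf P Rc p| ≤ C * vsq p) :
    |Dd P Rc d p H| ≤ (1620 * C ^ 5 * h ^ 2 + C * vsq p) / d := by
  have hh : 0 ≤ h := (abs_nonneg _).trans (hH 0 0)
  obtain ⟨a, ha⟩ : ∃ a, a = vn p := ⟨_, rfl⟩
  have ha0 : 0 ≤ a := by rw [ha]; exact Real.sqrt_nonneg _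
  have hpa : ∀ i, |p i| ≤ a := fun i => by rw [ha]; exact vn_le p i
  have hva : vsq p = a ^ 2 := by rw [ha, vn_sq]
  obtain ⟨l, hl⟩ : ∃ l, l = ld P d p := ⟨_, rfl⟩
  have hld : d ≤ l := by rw [hl]; exact ld_ge h0 hd
  have hl0 : 0 < l := lt_of_lt_of_le hd hld
  have hal : a ≤ C * l := by rw [ha, hl]; exact vn_le_ld hC h1 h0
  have e1 := tr2_le hP hH
  have e2 := dd_le hP hH
  have e3 : |qf P H p| ≤ _ := ev_le hH (up_le hP hpa) (up_le hP hpa)
  have e4 := ev_le hP (app_le hP hH hpa) (app_le hP hH hpa)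
  have f1 : |(tr2 P H ^ 2 - dd P H H - qf P Rc p) / ld P d p| ≤
      (162 * C ^ 2 * h ^ 2 + C * a ^ 2) / d := by
    rw [abs_div, ← hl, abs_of_pos hl0]
    apply div_le_div₀ (by positivity) _ hd hld
    have g1 : |tr2 P H ^ 2| ≤ 81 * C ^ 2 * h ^ 2 := by
      rw [abs_pow]
      refine (pow_le_pow_left₀ (abs_nonneg _) e1 2).trans (le_of_eq (by ring))
    have g2 := abs_sub (tr2 P H ^ 2 - dd P H H) (qf P Rc p)
    have g3 := abs_sub (tr2 P H ^ 2) (dd P H H)
    rw [hva] at hR
    have g4 : 3 * (3 * (3 * (3 * (C * C * h * h)))) = 81 * C ^ 2 * h ^ 2 := by ring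
    linarith
  have f2 : |(qf P H p * tr2 P H - ev P (app P H p) (app P H p)) / ld P d p ^ 3| ≤
      1458 * C ^ 5 * h ^ 2 / d := by
    rw [abs_div, ← hl, abs_of_pos (pow_pos hl0 3), div_le_div_iff₀ (pow_pos hl0 3) hd]
    have g1 : |qf P H p * tr2 P H - ev P (app P H p) (app P H p)| ≤ 1458 * C ^ 3 * h ^ 2 * a ^ 2 := by
      have k1 := abs_sub (qf P H p * tr2 P H) (ev P (app P H p) (app P H p))
      have k2 := mul_le' e3 e1
      have k3 : 3 * (3 * (h * (3 * (C * a)) * (3 * (C * a)))) * (3 * (3 * (C * h))) =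
        729 * C ^ 3 * h ^ 2 * a ^ 2 := by ring
      have k4 : 3 * (3 * (C * (3 * (h * (3 * (C * a)))) * (3 * (h * (3 * (C * a)))))) =
        729 * C ^ 3 * h ^ 2 * a ^ 2 := by ring
      linarith
    have g2 : a ^ 2 ≤ C ^ 2 * l ^ 2 := by
      rw [← mul_pow]; exact pow_le_pow_left₀ ha0 hal 2
    calc |qf P H p * tr2 P H - ev P (app P H p) (app P H p)| * d
        ≤ (1458 * C ^ 3 * h ^ 2 * a ^ 2) * d := mul_le_mul_of_nonneg_right g1 hd.le
      _ ≤ (1458 * C ^ 3 * h ^ 2 * (C ^ 2 * l ^ 2)) * l := by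
          apply mul_le_mul _ hld hd.le (by positivity)
          apply mul_le_mul_of_nonneg_left g2 (by positivity)
      _ = 1458 * C ^ 5 * h ^ 2 * l ^ 3 := by ring
  have f3 := abs_sub ((tr2 P H ^ 2 - dd P H H - qf P Rc p) / ld P d p)
    ((qf P H p * tr2 P H - ev P (app P H p) (app P H p)) / ld P d p ^ 3)
  have f4 : (162 * C ^ 2 * h ^ 2 + C * a ^ 2) / d + 1458 * C ^ 5 * h ^ 2 / d ≤
      (1620 * C ^ 5 * h ^ 2 + C * vsq p) / d := by
    rw [← add_div, hva]
    apply div_le_div_of_nonneg_right _ hd.le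
    have : C ^ 2 * h ^ 2 ≤ C ^ 5 * h ^ 2 := by
      apply mul_le_mul_of_nonneg_right _ (by positivity)
      exact pow_le_pow_right₀ hC (by norm_num)
    nlinarith
  exact f3.trans ((add_le_add f1 f2).trans f4)

lemma Y_le {P H : Bil} {p : Cov} {C h d : ℝ} (hC : 1 ≤ C) (hd : 0 < d)
    (hP : ∀ i j, |P i j| ≤ C) (hH : ∀ i j, |H i j| ≤ h) (h0 : 0 ≤ ev P p p)
    (h1 : vsq p ≤ C * ev P p p) (i : Fin 3) :
    |up P (fun j => tr2 P H * p j - app P H p j) i / ld P d p| ≤ 54 * C ^ 3 * h := by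
  have hh : 0 ≤ h := (abs_nonneg _).trans (hH 0 0)
  obtain ⟨a, ha⟩ : ∃ a, a = vn p := ⟨_, rfl⟩
  have ha0 : 0 ≤ a := by rw [ha]; exact Real.sqrt_nonneg _
  have hpa : ∀ i, |p i| ≤ a := fun i => by rw [ha]; exact vn_le p i
  obtain ⟨l, hl⟩ : ∃ l, l = ld P d p := ⟨_, rfl⟩
  have hld : d ≤ l := by rw [hl]; exact ld_ge h0 hd
  have hl0 : 0 < l := lt_of_lt_of_le hd hld
  have hal : a ≤ C * l := by rw [ha, hl]; exact vn_le_ld hC h1 h0
  have e0 : ∀ j, |tr2 P H * p j - app P H p j| ≤ 18 * C * h * a := by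
    intro j
    have e1 := mul_le' (tr2_le hP hH) (hpa j)
    have e2 := app_le hP hH hpa j
    have e3 := abs_sub (tr2 P H * p j) (app P H p j)
    have e4 : 3 * (3 * (C * h)) * a + 3 * (h * (3 * (C * a))) = 18 * C * h * a := by ring
    linarith
  have e1 := up_le hP e0 i
  rw [abs_div, ← hl, abs_of_pos hl0, div_le_iff₀ hl0]
  refine e1.trans ?_
  have e2 : 3 * (C * (18 * C * h * a)) = 54 * C ^ 2 * h * a := by ring
  rw [e2]
  calc 54 * C ^ 2 * h * a ≤ 54 * C ^ 2 * h * (C * l) := mul_le_mul_of_nonneg_left hal (by positivity)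
    _ = 54 * C ^ 3 * h * l := by ring

/-! ### Continuity -/

section cont
variable {X : Type} [TopologicalSpace X] {p : X → Cov} {H : X → Bil}

lemma c_up (P : Bil) (hp : ∀ i, Continuous fun x => p x i) (i : Fin 3) :
    Continuous fun x => up P (p x) i :=
  continuous_finsetSum _ fun j _ => continuous_const.mul (hp j)

lemma c_tr2 (P : Bil) (hH : ∀ i j, Continuous fun x => H x i j) :
    Continuous fun x => tr2 P (H x) :=
  continuous_finsetSum _ fun i _ => continuous_finsetSum _ fun j _ =>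
    continuous_const.mul (hH i j)

lemma c_dd (P : Bil) (hH : ∀ i j, Continuous fun x => H x i j) :
    Continuous fun x => dd P (H x) (H x) :=
  continuous_finsetSum _ fun i _ => continuous_finsetSum _ fun j _ =>
    continuous_finsetSum _ fun k _ => continuous_finsetSum _ fun l _ =>
      (continuous_const.mul (hH i j)).mul (hH k l)

lemma c_ev {v w : X → Cov} (hH : ∀ i j, Continuous fun x => H x i j)
    (hv : ∀ i, Continuous fun x => v x i) (hw : ∀ i, Continuous fun x => w x i) :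
    Continuous fun x => ev (H x) (v x) (w x) :=
  continuous_finsetSum _ fun i _ => continuous_finsetSum _ fun j _ =>
    ((hH i j).mul (hv i)).mul (hw j)

lemma c_app (P : Bil) (hH : ∀ i j, Continuous fun x => H x i j)
    (hp : ∀ i, Continuous fun x => p x i) (i : Fin 3) :
    Continuous fun x => app P (H x) (p x) i :=
  continuous_finsetSum _ fun j _ => (hH i j).mul (c_up P hp j)

lemma c_ld (P : Bil) (d : ℝ) (hp : ∀ i, Continuous fun x => p x i) :
    Continuous fun x => ld P d (p x) := by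
  have h1 : Continuous fun x => ev P (p x) (p x) + d ^ 2 :=
    (c_ev (H := fun _ => P) (fun _ _ => continuous_const) hp hp).add continuous_const
  exact h1.sqrt

lemma c_Dd (P Rc : Bil) {d : ℝ} (hd : 0 < d) (h0 : ∀ p, 0 ≤ ev P p p)
    (hH : ∀ i j, Continuous fun x => H x i j) (hp : ∀ i, Continuous fun x => p x i) :
    Continuous fun x => Dd P Rc d (p x) (H x) := by
  have hl : ∀ x, ld P d (p x) ≠ 0 := fun x => (lt_of_lt_of_le hd (ld_ge (h0 _) hd)).ne'
  have hap := c_app P hH hp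
  refine Continuous.sub (Continuous.div ?_ (c_ld P d hp) hl)
    (Continuous.div ?_ ((c_ld P d hp).pow 3) (fun x => pow_ne_zero 3 (hl x)))
  · exact ((((c_tr2 P hH).pow 2).sub (c_dd P hH)).sub
      (c_ev (fun _ _ => continuous_const) (c_up P hp) (c_up P hp)))
  · exact ((c_ev hH (c_up P hp) (c_up P hp)).mul (c_tr2 P hH)).sub
      (c_ev (fun _ _ => continuous_const) hap hap)

lemma c_Y (P : Bil) {d : ℝ} (hd : 0 < d) (h0 : ∀ p, 0 ≤ ev P p p)
    (hH : ∀ i j, Continuous fun x => H x i j) (hp : ∀ i, Continuous fun x => p x i) (i : Fin 3) :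
    Continuous fun x => up P (fun j => tr2 P (H x) * p x j - app P (H x) (p x) j) i
      / ld P d (p x) := by
  have hl : ∀ x, ld P d (p x) ≠ 0 := fun x => (lt_of_lt_of_le hd (ld_ge (h0 _) hd)).ne'
  have hap := c_app P hH hp
  refine Continuous.div ?_ (c_ld P d hp) hl
  exact c_up P (p := fun x j => tr2 P (H x) * p x j - app P (H x) (p x) j)
    (fun j => ((c_tr2 P hH).mul (hp j)).sub (hap j)) i

end cont

lemma c_H (g : TensorField) (x : E3) (i j : Fin 3) :
    Continuous fun q : Cov × Bil => cHess g x q.1 q.2 i j := by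
  have : (fun q : Cov × Bil => cHess g x q.1 q.2 i j) =
      fun q : Cov × Bil => q.2 i j - ∑ k, christoffel g k i j x * q.1 k := by
    funext q; rfl
  rw [this]
  exact (continuous_snd.matrix_elem i j).sub (continuous_finsetSum _ fun k _ =>
    continuous_const.mul ((continuous_apply k).comp continuous_fst))

lemma c_p (i : Fin 3) : Continuous fun q : Cov × Bil => q.1 i :=
  (continuous_apply i).comp continuous_fst

/-! ### The geometric quantities on a compact set -/

lemma H_le {g : TensorField} {x : E3} {C : ℝ}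
    (hG : ∀ k i j, |christoffel g k i j x| ≤ C) (p : Cov) (M : Bil) (i j : Fin 3) :
    |cHess g x p M i j| ≤ Real.sqrt (msq M) + 3 * (C * vn p) := by
  have h1 : cHess g x p M i j = M i j - ∑ k, christoffel g k i j x * p k := rfl
  rw [h1]
  have h2 := abs_sub (M i j) (∑ k, christoffel g k i j x * p k)
  have h3 := sum3 (fun k => christoffel g k i j x * p k) _ (fun k => mul_le' (hG k i j) (vn_le p k))
  have h4 := msq_le M i j
  linarith

lemma hsq_le {C : ℝ} (hC : 1 ≤ C) (p : Cov) (M : Bil) :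
    (Real.sqrt (msq M) + 3 * (C * vn p)) ^ 2 ≤ 18 * C ^ 2 * (vsq p + msq M) := by
  have h1 : Real.sqrt (msq M) ^ 2 = msq M := Real.sq_sqrt (msq_nonneg M)
  have h2 := vn_sq p
  have h3 : (Real.sqrt (msq M) + 3 * (C * vn p)) ^ 2 ≤ 2 * msq M + 18 * C ^ 2 * vsq p := by
    have h5 := sq_nonneg (Real.sqrt (msq M) - 3 * (C * vn p))
    have h6 : (Real.sqrt (msq M) + 3 * (C * vn p)) ^ 2 + (Real.sqrt (msq M) - 3 * (C * vn p)) ^ 2 =
        2 * Real.sqrt (msq M) ^ 2 + 18 * C ^ 2 * vn p ^ 2 := by ring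
    rw [h1, h2] at h6
    linarith
  have h4 : (1 : ℝ) ≤ C ^ 2 := one_le_pow₀ hC
  nlinarith [msq_nonneg M, vsq_nonneg p]

/-! ### The formula for smooth functions -/

lemma pd_zero {f : E3 → ℝ} {x : E3} (hx : x ∉ tsupport f) (i : Fin 3) : pd i f x = 0 := by
  unfold pd
  rw [fderiv_of_notMem_tsupport ℝ hx]
  rfl

/-- integration by parts on an open set -/
lemma cut {U : Set E3} (hU : IsOpen U) {f F : E3 → ℝ} (hf : ContDiff ℝ ∞ f)
    (hc : HasCompactSupport f) (hs : tsupport f ⊆ U) (hF : ContDiffOn ℝ 1 F U) (i : Fin 3) :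
    ∫ x in tsupport f, (pd i f x * F x + f x * pd i F x) = 0 := by
  have hK : IsCompact (tsupport f) := hc
  have hpdf : Continuous fun x => pd i f x :=
    (hf.continuous_fderiv (by norm_num)).clm_apply continuous_const
  have hpdF : ContinuousOn (fun x => pd i F x) U :=
    (hF.continuousOn_fderiv_of_isOpen hU le_rfl).clm_apply continuousOn_const
  have i1 : IntegrableOn (fun x => pd i f x * F x) (tsupport f) :=
    (hpdf.continuousOn.mul (hF.continuousOn.mono hs)).integrableOn_compact hK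
  have i2 : IntegrableOn (fun x => f x * pd i F x) (tsupport f) :=
    (hf.continuous.continuousOn.mul (hpdF.mono hs)).integrableOn_compact hK
  have i3 : IntegrableOn (fun x => f x * F x) (tsupport f) :=
    (hf.continuous.continuousOn.mul (hF.continuousOn.mono hs)).integrableOn_compact hK
  have z1 : ∀ x, x ∉ tsupport f → pd i f x * F x = 0 := fun x hx => by
    rw [pd_zero hx, zero_mul]
  have z2 : ∀ x, x ∉ tsupport f → f x * pd i F x = 0 := fun x hx => by
    rw [image_eq_zero_of_notMem_tsupport hx, zero_mul]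
  have z3 : ∀ x, x ∉ tsupport f → f x * F x = 0 := fun x hx => by
    rw [image_eq_zero_of_notMem_tsupport hx, zero_mul]
  have glob : ∀ u : E3 → ℝ, IntegrableOn u (tsupport f) → (∀ x, x ∉ tsupport f → u x = 0) →
      Integrable u := fun u hu hz => by
    rw [← integrableOn_iff_integrable_of_support_subset (s := tsupport f)]
    · exact hu
    · intro x hx
      by_contra h
      exact hx (hz x h)
  have h0 := integral_mul_fderiv_eq_neg_fderiv_mul_of_integrable (μ := volume)
    (f := f) (g := F) (v := EuclideanSpace.single i 1) (glob _ i1 z1) (glob _ i2 z2)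
    (glob _ i3 z3) (fun x _ => (hf.differentiable (by norm_num)) x)
    (fun x hx => (hF.contDiffAt (hU.mem_nhds (hs hx))).differentiableAt (by norm_num))
  rw [integral_add i1 i2, setIntegral_eq_integral_of_forall_compl_eq_zero z1,
    setIntegral_eq_integral_of_forall_compl_eq_zero z2]
  have h1 : ∫ x, f x * pd i F x = - ∫ x, pd i f x * F x := h0
  rw [h1]
  ring

lemma smooth_id (hZD : Stmt_ZD) {U : Set E3} {g : TensorField} (hU : IsOpen U)
    (hg : MetricOn U g) {v : E3 → ℝ} (hv : ContDiff ℝ ∞ v) {f : E3 → ℝ} {d : ℝ}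
    (hf : ContDiff ℝ ∞ f) (hc : HasCompactSupport f) (hs : tsupport f ⊆ U) (hd : 0 < d) :
    ContinuousOn (fun x => f x * Ddx g d x (grad v x) (hess2 v x) * volDen g x) U ∧
    ContinuousOn (fun x => (∑ i, pd i f x * Yf g d x (grad v x) (hess2 v x) i) * volDen g x) U ∧
    ∫ x in tsupport f, f x * Ddx g d x (grad v x) (hess2 v x) * volDen g x =
      - ∫ x in tsupport f, (∑ i, pd i f x * Yf g d x (grad v x) (hess2 v x) i) * volDen g x := by
  have hT : TensorOn U (fun _ => (0 : Bil)) :=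
    ⟨fun i j => contDiffOn_const, fun x _ => Matrix.isSymm_zero⟩
  obtain ⟨hY1, -, hY2, -⟩ := hZD (1 / 2) U g (fun _ => 0) v d (by norm_num) (by norm_num) hU hg hT
    hv.contDiffOn hd
  have hcpd : ∀ i, ContinuousOn
      (fun x => pd i (fun y => volDen g y * Yf g d y (grad v y) (hess2 v y) i) x) U := fun i =>
    ((hY1 i).continuousOn_fderiv_of_isOpen hU le_rfl).clm_apply continuousOn_const
  have hcD : ContinuousOn (fun x => f x * Ddx g d x (grad v x) (hess2 v x) * volDen g x) U := by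
    refine (hf.continuous.continuousOn.mul (continuousOn_finsetSum Finset.univ fun i _ => hcpd i)).congr ?_
    intro x hx
    simp only [Pi.mul_apply]
    rw [hY2 x hx]
    ring
  have hpdf : ∀ i, Continuous fun x => pd i f x := fun i =>
    (hf.continuous_fderiv (by norm_num)).clm_apply continuous_const
  have hcY : ContinuousOn
      (fun x => (∑ i, pd i f x * Yf g d x (grad v x) (hess2 v x) i) * volDen g x) U := by
    refine (continuousOn_finsetSum Finset.univ fun i _ =>
      (hpdf i).continuousOn.mul (hY1 i).continuousOn).congr ?_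
    intro x _
    simp only [Pi.mul_apply]
    rw [Finset.sum_mul]
    exact Finset.sum_congr rfl fun i _ => by ring
  refine ⟨hcD, hcY, ?_⟩
  have hK : IsCompact (tsupport f) := hc
  have hi : ∀ i, IntegrableOn (fun x => pd i f x * (volDen g x * Yf g d x (grad v x) (hess2 v x) i)
      + f x * pd i (fun y => volDen g y * Yf g d y (grad v y) (hess2 v y) i) x) (tsupport f) :=
    fun i => (((hpdf i).continuousOn.mul ((hY1 i).continuousOn.mono hs)).add
      (hf.continuous.continuousOn.mul ((hcpd i).mono hs))).integrableOn_compact hK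
  have h1 : ∫ x in tsupport f, ∑ i : Fin 3,
      (pd i f x * (volDen g x * Yf g d x (grad v x) (hess2 v x) i)
      + f x * pd i (fun y => volDen g y * Yf g d y (grad v y) (hess2 v y) i) x) = 0 := by
    rw [integral_finsetSum _ fun i _ => hi i]
    exact Finset.sum_eq_zero fun i _ => cut hU hf hc hs (hY1 i) i
  have h2 : ∫ x in tsupport f, ((∑ i, pd i f x * Yf g d x (grad v x) (hess2 v x) i) * volDen g x
      + f x * Ddx g d x (grad v x) (hess2 v x) * volDen g x) = 0 := by
    rw [← h1]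
    apply setIntegral_congr_fun (isClosed_tsupport f).measurableSet
    intro x hx
    simp only
    rw [Finset.sum_add_distrib, ← Finset.mul_sum, hY2 x (hs hx), Finset.sum_mul]
    congr 1
    · exact Finset.sum_congr rfl fun i _ => by ring
    · ring
  rw [integral_add ((hcY.mono hs).integrableOn_compact hK)
    ((hcD.mono hs).integrableOn_compact hK)] at h2
  linarith

end MH2I

open MH2I in
/-- The divergence formula for `Y_d` and Sobolev functions. -/
theorem H2I (hZD : Stmt_ZD) (hCT : Stmt_CT) : Stmt_H2I := by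
  intro U g w G M hU hg hH f d hf hc hs hd
  have hT : TensorOn U (fun _ => (0 : Bil)) :=
    ⟨fun i j => contDiffOn_const, fun x _ => Matrix.isSymm_zero⟩
  have hK : IsCompact (tsupport f) := hc
  obtain ⟨C, hC, hCT⟩ := hCT U g (fun _ => 0) hU hg hT (tsupport f) hK hs
  obtain ⟨v, hv, -, cG, cM⟩ := hH.approx (tsupport f) hK hs
  obtain ⟨μ, hμ⟩ : ∃ μ : Measure E3, μ = volume.restrict (tsupport f) := ⟨_, rfl⟩
  have hfin : IsFiniteMeasure μ := by
    rw [hμ]
    exact ⟨by simpa using hK.measure_lt_top⟩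
  have hgp : ∀ n i, Continuous fun x => pd i (v n) x := fun n i =>
    ((hv n).continuous_fderiv (by norm_num)).clm_apply continuous_const
  have hpc : ∀ n i, ContDiff ℝ ∞ fun x => pd i (v n) x := fun n i =>
    ((hv n).fderiv_right (m := ∞) (by simp)).clm_apply contDiff_const
  have hgh : ∀ n i j, Continuous fun x => pd i (pd j (v n)) x := fun n i j =>
    ((hpc n j).continuous_fderiv (by norm_num)).clm_apply continuous_const
  have hbdd : ∀ u : E3 → ℝ, Continuous u → ∀ q : ℝ≥0∞, MemLp u q μ := by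
    intro u hu q
    obtain ⟨B, hB⟩ := hK.exists_bound_of_continuousOn hu.continuousOn
    refine MemLp.of_bound hu.aestronglyMeasurable B ?_
    rw [hμ]
    exact ae_restrict_of_forall_mem hK.measurableSet hB
  have hG2 : ∀ i, MemLp (fun x => G x i) 2 μ := fun i => by
    rw [hμ] at hfin ⊢
    exact (hH.memG _ hK hs i).mono_exponent (by norm_num)
  have hM2 : ∀ i j, MemLp (fun x => M x i j) 2 μ := fun i j => by
    rw [hμ]; exact hH.memM _ hK hs i j
  have cG2 : ∀ i, Tendsto (fun n => eLpNorm (fun x => pd i (v n) x - G x i) 2 μ) atTop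
      (𝓝 0) := by
    intro i
    rw [hμ] at hfin hG2 ⊢
    have h1 : ∀ n, eLpNorm (fun x => pd i (v n) x - G x i) 2 (volume.restrict (tsupport f)) ≤
        eLpNorm (fun x => pd i (v n) x - G x i) 4 (volume.restrict (tsupport f)) *
          (volume.restrict (tsupport f)) Set.univ ^ (1 / (2 : ℝ≥0∞).toReal - 1 / (4 : ℝ≥0∞).toReal) :=
      fun n => eLpNorm_le_eLpNorm_mul_rpow_measure_univ (by norm_num)
        ((hgp n i).aestronglyMeasurable.sub (hG2 i).1)
    refine tendsto_of_tendsto_of_tendsto_of_le_of_le tendsto_const_nhds ?_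
      (fun n => zero_le) h1
    have h2 := ENNReal.Tendsto.mul_const (cG i) (b := (volume.restrict (tsupport f)) Set.univ ^
      (1 / (2 : ℝ≥0∞).toReal - 1 / (4 : ℝ≥0∞).toReal)) (Or.inr (by
        apply ENNReal.rpow_ne_top_of_nonneg
        · norm_num
        · exact measure_ne_top _ _))
    rwa [zero_mul] at h2
  have cM2 : ∀ i j, Tendsto (fun n => eLpNorm (fun x => pd i (pd j (v n)) x - M x i j) 2 μ) atTop
      (𝓝 0) := by
    rw [hμ]; exact cM
  -- a subsequence
  obtain ⟨ns, hns, hae⟩ := sub_ae (μ := μ) (Finset.univ : Finset (Fin 3 ⊕ Fin 3 × Fin 3))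
    (Sum.elim (fun i n x => pd i (v n) x) (fun ij n x => pd ij.1 (pd ij.2 (v n)) x))
    (Sum.elim (fun i x => G x i) (fun ij x => M x ij.1 ij.2)) (by
      rintro (i | ⟨i, j⟩)
      · exact tendstoInMeasure_of_tendsto_eLpNorm (by norm_num)
          (fun n => (hgp n i).aestronglyMeasurable) (hG2 i).1 (cG2 i)
      · exact tendstoInMeasure_of_tendsto_eLpNorm (by norm_num)
          (fun n => (hgh n i j).aestronglyMeasurable) (hM2 i j).1 (cM2 i j))
  -- bounds on the compact set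
  obtain ⟨B, hB⟩ : ∃ B : ℝ, 0 ≤ B ∧ ∀ x, |f x| ≤ B ∧ ∀ i, |pd i f x| ≤ B := by
    have hpdf : ∀ i, Continuous fun x => pd i f x := fun i =>
      (hf.continuous_fderiv (by norm_num)).clm_apply continuous_const
    obtain ⟨B₀, hB₀⟩ := hK.exists_bound_of_continuousOn hf.continuous.continuousOn
    choose B₁ hB₁ using fun i => hK.exists_bound_of_continuousOn (hpdf i).continuousOn
    refine ⟨|B₀| + ∑ i, |B₁ i|, by positivity, fun x => ?_⟩
    by_cases hx : x ∈ tsupport f
    · refine ⟨?_, fun i => ?_⟩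
      · have := hB₀ x hx
        rw [Real.norm_eq_abs] at this
        exact this.trans ((le_abs_self _).trans (le_add_of_nonneg_right (by positivity)))
      · have := hB₁ i x hx
        rw [Real.norm_eq_abs] at this
        refine this.trans ((le_abs_self _).trans ?_)
        exact (Finset.single_le_sum (f := fun i => |B₁ i|) (fun _ _ => abs_nonneg _)
          (Finset.mem_univ i)).trans (le_add_of_nonneg_left (abs_nonneg _))
    · rw [image_eq_zero_of_notMem_tsupport hx]
      refine ⟨by simpa using by positivity, fun i => ?_⟩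
      rw [pd_zero hx]
      simpa using by positivity
  obtain ⟨hB0, hB⟩ := hB
  have hev : ∀ x ∈ tsupport f, ∀ p, 0 ≤ ev (g x)⁻¹ p p ∧ vsq p ≤ C * ev (g x)⁻¹ p p := by
    intro x hx p
    have h1 := ((hCT x hx).1 p).1
    rw [div_le_iff₀ (by linarith)] at h1
    have h2 : 0 ≤ ev (g x)⁻¹ p p := le_trans (div_nonneg (vsq_nonneg p) (by linarith))
      ((hCT x hx).1 p).1
    exact ⟨h2, by linarith⟩
  have hvol : ∀ x ∈ tsupport f, |volDen g x| ≤ C := fun x hx => by
    rw [abs_of_nonneg (show 0 ≤ volDen g x from Real.sqrt_nonneg _)]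
    exact (hCT x hx).2.2.2.2.2.2.2.2.2.2
  have hbD : ∀ᵐ x ∂μ, ∀ p m, |f x * Ddx g d x p m * volDen g x| ≤
      (B * ((1620 * C ^ 5 * (18 * C ^ 2) + C) / d) * C) * (1 + vsq p + msq m) := by
    rw [hμ]
    refine ae_restrict_of_forall_mem hK.measurableSet fun x hx p m => ?_
    obtain ⟨c1, -, c3, c4, -, -, -, -, c9, -, c11⟩ := hCT x hx
    have h1 := Dd_le hC hd c9 (H_le c4 p m) (hev x hx p).1 (hev x hx p).2 (c3 p)
    have h2 := hsq_le hC p m
    have h3 := vsq_nonneg p
    have h4 := msq_nonneg m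
    have h5 : |Ddx g d x p m| ≤ ((1620 * C ^ 5 * (18 * C ^ 2) + C) / d) *
        (1 + vsq p + msq m) := by
      refine h1.trans ?_
      rw [div_mul_eq_mul_div]
      apply div_le_div_of_nonneg_right _ hd.le
      have h6 : 1620 * C ^ 5 * (Real.sqrt (msq m) + 3 * (C * vn p)) ^ 2 ≤
          1620 * C ^ 5 * (18 * C ^ 2 * (vsq p + msq m)) :=
        mul_le_mul_of_nonneg_left h2 (by positivity)
      have h7 : 0 ≤ 1620 * C ^ 5 * (18 * C ^ 2) := by positivity
      nlinarith
    calc |f x * Ddx g d x p m * volDen g x|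
        ≤ (B * (((1620 * C ^ 5 * (18 * C ^ 2) + C) / d) * (1 + vsq p + msq m))) * C :=
          mul_le' (mul_le' (hB x).1 h5) (hvol x hx)
      _ = _ := by ring
  have hbY : ∀ᵐ x ∂μ, ∀ p m, |(∑ i, pd i f x * Yf g d x p m i) * volDen g x| ≤
      ((3 * (B * (54 * C ^ 3 * (18 * C ^ 2)))) * C) * (1 + vsq p + msq m) := by
    rw [hμ]
    refine ae_restrict_of_forall_mem hK.measurableSet fun x hx p m => ?_
    obtain ⟨c1, -, c3, c4, -, -, -, -, c9, -, c11⟩ := hCT x hx
    have h2 := hsq_le hC p m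
    have h3 := vsq_nonneg p
    have h4 := msq_nonneg m
    have h5 : ∀ i, |Yf g d x p m i| ≤ 54 * C ^ 3 * (18 * C ^ 2) * (1 + vsq p + msq m) := by
      intro i
      have h1 := Y_le hC hd c9 (H_le c4 p m) (hev x hx p).1 (hev x hx p).2 i
      refine h1.trans ?_
      rw [mul_assoc (54 * C ^ 3)]
      apply mul_le_mul_of_nonneg_left _ (by positivity)
      have h6 : Real.sqrt (msq m) + 3 * (C * vn p) ≤
          1 + (Real.sqrt (msq m) + 3 * (C * vn p)) ^ 2 := by
        nlinarith [sq_nonneg (Real.sqrt (msq m) + 3 * (C * vn p) - 1),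
          sq_nonneg (Real.sqrt (msq m) + 3 * (C * vn p))]
      have h7 : (1 : ℝ) ≤ C ^ 2 := one_le_pow₀ hC
      nlinarith
    calc |(∑ i, pd i f x * Yf g d x p m i) * volDen g x|
        ≤ (3 * (B * (54 * C ^ 3 * (18 * C ^ 2) * (1 + vsq p + msq m)))) * C :=
          mul_le' (sum3 _ _ fun i => mul_le' ((hB x).2 i) (h5 i)) (hvol x hx)
      _ = _ := by ring
  have hcD : ∀ᵐ x ∂μ, Continuous fun q : Cov × Bil => f x * Ddx g d x q.1 q.2 * volDen g x := by
    rw [hμ]
    refine ae_restrict_of_forall_mem hK.measurableSet fun x hx => ?_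
    exact (continuous_const.mul (c_Dd _ _ hd (fun p => (hev x hx p).1) (c_H g x) c_p)).mul
      continuous_const
  have hcY : ∀ᵐ x ∂μ, Continuous fun q : Cov × Bil =>
      (∑ i, pd i f x * Yf g d x q.1 q.2 i) * volDen g x := by
    rw [hμ]
    refine ae_restrict_of_forall_mem hK.measurableSet fun x hx => ?_
    exact (continuous_finsetSum _ fun i _ => continuous_const.mul
      (c_Y _ hd (fun p => (hev x hx p).1) (c_H g x) c_p i)).mul continuous_const
  have hsm := fun n => smooth_id hZD hU hg (hv n) hf hc hs hd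
  have gD := gen (μ := μ) (fun n => grad (v (ns n))) (fun n => hess2 (v (ns n))) G M
    (fun n i => hbdd _ (hgp _ i) 2) (fun n i j => hbdd _ (hgh _ i j) 2) hG2 hM2
    (fun i => (cG2 i).comp hns.tendsto_atTop) (fun i j => (cM2 i j).comp hns.tendsto_atTop)
    (fun i => hae (Sum.inl i) (Finset.mem_univ _)) (fun i j => hae (Sum.inr (i, j)) (Finset.mem_univ _))
    (fun x p m => f x * Ddx g d x p m * volDen g x) _ hbD hcD
    (fun n => by
      rw [hμ]
      exact ((hsm (ns n)).1.mono hs).aestronglyMeasurable hK.measurableSet)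
  have gY := gen (μ := μ) (fun n => grad (v (ns n))) (fun n => hess2 (v (ns n))) G M
    (fun n i => hbdd _ (hgp _ i) 2) (fun n i j => hbdd _ (hgh _ i j) 2) hG2 hM2
    (fun i => (cG2 i).comp hns.tendsto_atTop) (fun i j => (cM2 i j).comp hns.tendsto_atTop)
    (fun i => hae (Sum.inl i) (Finset.mem_univ _)) (fun i j => hae (Sum.inr (i, j)) (Finset.mem_univ _))
    (fun x p m => (∑ i, pd i f x * Yf g d x p m i) * volDen g x) _ hbY hcY
    (fun n => by
      rw [hμ]
      exact ((hsm (ns n)).2.1.mono hs).aestronglyMeasurable hK.measurableSet)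
  rw [hμ] at gD gY
  have hz1 : ∀ x ∈ U \ tsupport f, f x * Ddx g d x (G x) (M x) * volDen g x = 0 := by
    intro x hx
    rw [image_eq_zero_of_notMem_tsupport hx.2]
    ring
  have hz2 : ∀ x ∈ U \ tsupport f,
      (∑ i, pd i f x * Yf g d x (G x) (M x) i) * volDen g x = 0 := by
    intro x hx
    rw [Finset.sum_eq_zero fun i _ => by rw [pd_zero hx.2, zero_mul], zero_mul]
  refine ⟨?_, ?_, ?_⟩
  · exact IntegrableOn.of_forall_sdiff_eq_zero gD.1 hU.measurableSet hz1
  · exact IntegrableOn.of_forall_sdiff_eq_zero gY.1 hU.measurableSet hz2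
  · rw [setIntegral_eq_of_subset_of_forall_sdiff_eq_zero hU.measurableSet hs hz1,
      setIntegral_eq_of_subset_of_forall_sdiff_eq_zero hU.measurableSet hs hz2]
    have h1 := gD.2
    have h2 := gY.2.neg
    have h3 : (fun n => ∫ x in tsupport f,
        f x * Ddx g d x (grad (v (ns n)) x) (hess2 (v (ns n)) x) * volDen g x) =
        fun n => - ∫ x in tsupport f,
          (∑ i, pd i f x * Yf g d x (grad (v (ns n)) x) (hess2 (v (ns n)) x) i) * volDen g x := by
      funext n
      exact (hsm (ns n)).2.2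
    rw [h3] at h1
    exact tendsto_nhds_unique h1 h2

end Pool.Agent.PFlow
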