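import Pool.Agent.PFlow.StmtsM

/-!
# The pointwise identity of the level set inequality
-/

open MeasureTheory Filter Topology
open scoped ContDiff

namespace Pool.Agent.PFlow

open Pool.Agent.PenroseSph

namespace MID

theorem dd_comm {P : Bil} (hP : P.IsSymm) (H K : Bil) : dd P K H = dd P H K := by
  have h10 : P 1 0 = P 0 1 := hP.apply 0 1
  have h20 : P 2 0 = P 0 2 := hP.apply 0 2
  have h21 : P 2 1 = P 1 2 := hP.apply 1 2
  simp only [dd, Fin.sum_univ_three, h10, h20, h21]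
  ring

theorem dd_sub (P H K : Bil) (a : ℝ) :
    dd P (a • H - K) (a • H - K) =
      a ^ 2 * dd P H H - a * dd P H K - a * dd P K H + dd P K K := by
  simp only [dd, Finset.mul_sum, ← Finset.sum_sub_distrib, ← Finset.sum_add_distrib]
  refine Finset.sum_congr rfl fun i _ => Finset.sum_congr rfl fun j _ =>
    Finset.sum_congr rfl fun k _ => Finset.sum_congr rfl fun l _ => ?_
  simp only [Matrix.sub_apply, Matrix.smul_apply, smul_eq_mul]
  ring

theorem tr2_sub (P H K : Bil) (a : ℝ) : tr2 P (a • H - K) = a * tr2 P H - tr2 P K := by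
  simp only [tr2, Finset.mul_sum, ← Finset.sum_sub_distrib]
  refine Finset.sum_congr rfl fun i _ => Finset.sum_congr rfl fun j _ => ?_
  simp only [Matrix.sub_apply, Matrix.smul_apply, smul_eq_mul]
  ring

theorem ev_sub (H K : Bil) (a : ℝ) (v w : Cov) :
    ev (a • H - K) v w = a * ev H v w - ev K v w := by
  simp only [ev, Finset.mul_sum, ← Finset.sum_sub_distrib]
  refine Finset.sum_congr rfl fun i _ => Finset.sum_congr rfl fun j _ => ?_
  simp only [Matrix.sub_apply, Matrix.smul_apply, smul_eq_mul]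
  ring

theorem ev_div (H : Bil) (v w : Cov) (c : ℝ) :
    ev H (fun i => v i / c) (fun i => w i / c) = ev H v w / c ^ 2 := by
  simp only [ev, Finset.sum_div]
  refine Finset.sum_congr rfl fun i _ => Finset.sum_congr rfl fun j _ => ?_
  ring

theorem bnn_eq (g : TensorField) (x : E3) (p : Cov) (B : Bil) :
    bnn g x p B = qf (g x)⁻¹ B p / len g x p ^ 2 :=
  ev_div B (up (g x)⁻¹ p) (up (g x)⁻¹ p) (len g x p)

theorem qf_sub (P H K : Bil) (p : Cov) (a : ℝ) :
    qf P (a • H - K) p = a * qf P H p - qf P K p :=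
  ev_sub H K a _ _

theorem contr_nrm (g : TensorField) (x : E3) (p : Cov) (B : Bil) :
    contr B (nrm g x p) = fun i => app (g x)⁻¹ B p i / len g x p := by
  funext i
  simp only [contr, nrm, app, Finset.sum_div]
  refine Finset.sum_congr rfl fun j _ => ?_
  change B i j * (up (g x)⁻¹ p j / len g x p) = _
  ring

theorem mom_nrm (g h : TensorField) (x : E3) (p : Cov) :
    ∑ j, momentumDensity g h j x * nrm g x p j =
      ev (g x)⁻¹ (momV g h x) p / len g x p := by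
  simp only [ev, nrm, raise, momV, Finset.sum_div, Finset.mul_sum]
  refine Finset.sum_congr rfl fun i _ => Finset.sum_congr rfl fun j _ => ?_
  ring

theorem inv_symm {U : Set E3} {g : TensorField} (hg : MetricOn U g) {x : E3} (hx : x ∈ U) :
    ((g x)⁻¹ : Bil).IsSymm := by
  have h1 := (hg.posDef x hx).inv.isHermitian
  unfold Matrix.IsHermitian at h1
  rwa [Matrix.conjTranspose_eq_transpose_of_trivial] at h1

theorem ev_pos {P : Bil} (hP : P.PosDef) {p : Cov} (hp : p ≠ 0) : 0 < ev P p p := by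
  have h1 := hP.dotProduct_mulVec_pos hp
  have h2 : ev P p p = star p ⬝ᵥ P.mulVec p := by
    simp only [ev, dotProduct, Matrix.mulVec, Finset.mul_sum, star_trivial]
    refine Finset.sum_congr rfl fun i _ => Finset.sum_congr rfl fun j _ => ?_
    ring
  rw [h2]
  exact h1

/-- The identity for numbers. -/
theorem numbers {l e tH qH dHH aH th qh dhh dhH Rn R Jp : ℝ} (hl : l ≠ 0) (he : e ≠ 0)
    (he2 : 2 - e ≠ 0) :
    (tH ^ 2 - dHH - Rn) / l - (qH * tH - aH) / l ^ 3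
        - (qH / l ^ 2 * l + l * tH) / (2 - e) + Jp + dhH - th * tH =
      l * (R / 2 - Rn / l ^ 2 + (tH ^ 2 - dHH - 2 * (qH / l ^ 2) * tH + 2 * (aH / l ^ 2))
          / (2 * l ^ 2))
        - l * ((1 / 2) * (R - dhh + th ^ 2) - Jp / l
          + ((l⁻¹ ^ 2 * dHH - l⁻¹ * dhH - l⁻¹ * dhH + dhh) / 2
            - ((l⁻¹ * qH - qh) / l ^ 2) ^ 2 / 2
            - (l⁻¹ * tH - th - (l⁻¹ * qH - qh) / l ^ 2) ^ 2 / 4
            + (1 / e - 1 / 4) * (l⁻¹ * tH - th - (l⁻¹ * qH - qh) / l ^ 2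
              - 2 * l / (2 - e)) ^ 2
            + 2 * (qh / l ^ 2 + (th - qh / l ^ 2) / 2) * l / (2 - e)))
        - (l * (tH - qH / l ^ 2) - l ^ 3 / (2 - e) - (l ^ 2 * th - qh)) / (2 - e)
        + (tH - (1 - e) * (qH / l ^ 2) - l ^ 2 - l * (th - (1 - e) * (qh / l ^ 2)))
          * (l⁻¹ * tH - th - (l⁻¹ * qH - qh) / l ^ 2 - 2 * l / (2 - e)) / e := by
  field_simp
  ring

end MID

open MID in
theorem ID (_hFR : Stmt_FR) : Stmt_ID := by
  intro U g h _ hg _ x hx ε p M hε hε1 hp _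
  have hP := (hg.posDef x hx).inv
  have hS := inv_symm hg hx
  have hl : len g x p ≠ 0 := (Real.sqrt_pos.mpr (ev_pos hP hp)).ne'
  have hsq : ev (g x)⁻¹ p p = len g x p ^ 2 := (Real.sq_sqrt (ev_pos hP hp).le).symm
  have hld : ld (g x)⁻¹ 0 p = len g x p := by
    unfold ld len
    rw [zero_pow two_ne_zero, add_zero]
  have hlp : lp (g x)⁻¹ p = len g x p := rfl
  have hB : ∀ B : Bil, btan g x p B = tr2 (g x)⁻¹ B - qf (g x)⁻¹ B p / len g x p ^ 2 := by
    intro B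
    unfold btan
    rw [bnn_eq]
    rfl
  have hE : ∀ B : Bil, beps ε g x p B =
      tr2 (g x)⁻¹ B - (1 - ε) * (qf (g x)⁻¹ B p / len g x p ^ 2) := by
    intro B
    unfold beps
    rw [bnn_eq]
    rfl
  have hnsq : nsq g x (tenB g h x p M) = (len g x p)⁻¹ ^ 2
        * dd (g x)⁻¹ (cHess g x p M) (cHess g x p M)
      - (len g x p)⁻¹ * dd (g x)⁻¹ (h x) (cHess g x p M)
      - (len g x p)⁻¹ * dd (g x)⁻¹ (h x) (cHess g x p M) + dd (g x)⁻¹ (h x) (h x) := by
    have h1 := dd_sub (g x)⁻¹ (cHess g x p M) (h x) (len g x p)⁻¹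
    rw [dd_comm hS (h x) (cHess g x p M)] at h1
    exact h1
  have hbB : bnn g x p (tenB g h x p M) = ((len g x p)⁻¹ * qf (g x)⁻¹ (cHess g x p M) p
      - qf (g x)⁻¹ (h x) p) / len g x p ^ 2 := by
    rw [bnn_eq]
    unfold tenB
    rw [qf_sub]
  have htB : btan g x p (tenB g h x p M) = (len g x p)⁻¹ * tr2 (g x)⁻¹ (cHess g x p M)
      - tr2 (g x)⁻¹ (h x) - ((len g x p)⁻¹ * qf (g x)⁻¹ (cHess g x p M) p
      - qf (g x)⁻¹ (h x) p) / len g x p ^ 2 := by
    rw [hB]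
    unfold tenB
    rw [qf_sub, tr2_sub]
  have key := numbers (l := len g x p) (e := ε) (tH := tr2 (g x)⁻¹ (cHess g x p M))
    (qH := qf (g x)⁻¹ (cHess g x p M) p)
    (dHH := dd (g x)⁻¹ (cHess g x p M) (cHess g x p M))
    (aH := ev (g x)⁻¹ (app (g x)⁻¹ (cHess g x p M) p) (app (g x)⁻¹ (cHess g x p M) p))
    (th := tr2 (g x)⁻¹ (h x)) (qh := qf (g x)⁻¹ (h x) p) (dhh := dd (g x)⁻¹ (h x) (h x))
    (dhH := dd (g x)⁻¹ (h x) (cHess g x p M)) (Rn := qf (g x)⁻¹ (ric g x) p)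
    (R := scalarCurvature g x) (Jp := ev (g x)⁻¹ (momV g h x) p) hl hε.ne'
    (by linarith)
  have h1 : DZx ε g h 0 x p M = (tr2 (g x)⁻¹ (cHess g x p M) ^ 2
        - dd (g x)⁻¹ (cHess g x p M) (cHess g x p M) - qf (g x)⁻¹ (ric g x) p) / len g x p
      - (qf (g x)⁻¹ (cHess g x p M) p * tr2 (g x)⁻¹ (cHess g x p M)
        - ev (g x)⁻¹ (app (g x)⁻¹ (cHess g x p M) p) (app (g x)⁻¹ (cHess g x p M) p))
          / len g x p ^ 3
      - (qf (g x)⁻¹ (cHess g x p M) p / len g x p ^ 2 * len g x p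
        + len g x p * tr2 (g x)⁻¹ (cHess g x p M)) / (2 - ε)
      + ev (g x)⁻¹ (momV g h x) p + dd (g x)⁻¹ (h x) (cHess g x p M)
      - tr2 (g x)⁻¹ (h x) * tr2 (g x)⁻¹ (cHess g x p M) := by
    unfold DZx DZ Dd nn
    rw [hld, hlp, hsq]
  have h2 : Kd g x p M = len g x p * (scalarCurvature g x / 2
      - qf (g x)⁻¹ (ric g x) p / len g x p ^ 2
      + (tr2 (g x)⁻¹ (cHess g x p M) ^ 2 - dd (g x)⁻¹ (cHess g x p M) (cHess g x p M)
        - 2 * (qf (g x)⁻¹ (cHess g x p M) p / len g x p ^ 2) * tr2 (g x)⁻¹ (cHess g x p M)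
        + 2 * (ev (g x)⁻¹ (app (g x)⁻¹ (cHess g x p M) p) (app (g x)⁻¹ (cHess g x p M) p)
          / len g x p ^ 2)) / (2 * len g x p ^ 2)) := by
    unfold Kd gaussK
    rw [bnn_eq, bnn_eq, contr_nrm, ev_div]
    rfl
  have h3 : matter g h x p = (1 / 2) * (scalarCurvature g x - dd (g x)⁻¹ (h x) (h x)
      + tr2 (g x)⁻¹ (h x) ^ 2) - ev (g x)⁻¹ (momV g h x) p / len g x p := by
    unfold matter
    rw [mom_nrm]
    rfl
  have h4 : flux ε g h x p M = len g x p * (tr2 (g x)⁻¹ (cHess g x p M)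
      - qf (g x)⁻¹ (cHess g x p M) p / len g x p ^ 2) - len g x p ^ 3 / (2 - ε)
      - (len g x p ^ 2 * tr2 (g x)⁻¹ (h x) - qf (g x)⁻¹ (h x) p) := by
    unfold flux
    rw [hB]
    rfl
  have h5 : resid ε g h x p M = tr2 (g x)⁻¹ (cHess g x p M)
      - (1 - ε) * (qf (g x)⁻¹ (cHess g x p M) p / len g x p ^ 2) - len g x p ^ 2
      - len g x p * (tr2 (g x)⁻¹ (h x) - (1 - ε) * (qf (g x)⁻¹ (h x) p / len g x p ^ 2)) := by
    unfold resid
    rw [hE, hE]
  have h6 : zed ε g h x p M = (len g x p)⁻¹ * tr2 (g x)⁻¹ (cHess g x p M)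
      - tr2 (g x)⁻¹ (h x) - ((len g x p)⁻¹ * qf (g x)⁻¹ (cHess g x p M) p
      - qf (g x)⁻¹ (h x) p) / len g x p ^ 2 - 2 * len g x p / (2 - ε) := by
    unfold zed
    rw [htB]
  unfold diss
  rw [h1, h2, h3, h4, h5, h6, hnsq, hbB, htB, hB, bnn_eq]
  exact key

end Pool.Agent.PFlow
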