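import Pool.Agent.PFlow.StmtsM

/-!
# Module INT: integrability on compact sets
-/

open MeasureTheory Filter Topology
open scoped ContDiff

namespace Pool.Agent.PFlow

open Pool.Agent.PenroseSph

namespace MINT

/-! ## Smoothness of the coefficients -/

section smooth

theorem pd_cd (i : Fin 3) {f : E3 → ℝ} {x : E3} (hf : ContDiffAt ℝ ∞ f x) :
    ContDiffAt ℝ ∞ (pd i f) x := by
  unfold pd
  exact (hf.fderiv_right (m := ∞) le_rfl).clm_apply contDiffAt_const

theorem sum_cd {f : Fin 3 → E3 → ℝ} {x : E3} (hf : ∀ i, ContDiffAt ℝ ∞ (f i) x) :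
    ContDiffAt ℝ ∞ (fun y => ∑ i, f i y) x :=
  ContDiffAt.sum fun i _ => hf i

variable {U : Set E3} {g h : TensorField} (hU : IsOpen U) (hg : MetricOn U g)
  (hh : TensorOn U h) {x : E3} (hx : x ∈ U)

include hU hg hx

theorem g_cd (i j : Fin 3) : ContDiffAt ℝ ∞ (fun y => g y i j) x :=
  (hg.smooth i j).contDiffAt (hU.mem_nhds hx)

theorem det_cd : ContDiffAt ℝ ∞ (fun y => (g y).det) x := by
  have h1 : (fun y => (g y).det) = fun y => g y 0 0 * g y 1 1 * g y 2 2
      - g y 0 0 * g y 1 2 * g y 2 1 - g y 0 1 * g y 1 0 * g y 2 2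
      + g y 0 1 * g y 1 2 * g y 2 0 + g y 0 2 * g y 1 0 * g y 2 1
      - g y 0 2 * g y 1 1 * g y 2 0 := by
    funext y
    exact Matrix.det_fin_three _
  rw [h1]
  have c := g_cd hU hg hx
  exact ((((((c 0 0).mul (c 1 1)).mul (c 2 2)).sub (((c 0 0).mul (c 1 2)).mul (c 2 1))).sub
    (((c 0 1).mul (c 1 0)).mul (c 2 2))).add (((c 0 1).mul (c 1 2)).mul (c 2 0)) |>.add
    (((c 0 2).mul (c 1 0)).mul (c 2 1))).sub (((c 0 2).mul (c 1 1)).mul (c 2 0))

theorem adj_cd (i j : Fin 3) : ContDiffAt ℝ ∞ (fun y => (g y).adjugate i j) x := by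
  have c := g_cd hU hg hx
  have h1 : ∀ y, (g y).adjugate i j = ((g y).updateRow j (Pi.single i 1)).det := by
    intro y
    rw [Matrix.adjugate_apply]
  simp only [h1, Matrix.det_fin_three]
  have hc : ∀ a b : Fin 3, ContDiffAt ℝ ∞ (fun y => ((g y).updateRow j (Pi.single i 1)) a b) x := by
    intro a b
    simp only [Matrix.updateRow_apply]
    split_ifs
    · exact contDiffAt_const
    · exact c a b
  exact ((((((hc 0 0).mul (hc 1 1)).mul (hc 2 2)).sub (((hc 0 0).mul (hc 1 2)).mul (hc 2 1))).sub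
    (((hc 0 1).mul (hc 1 0)).mul (hc 2 2))).add (((hc 0 1).mul (hc 1 2)).mul (hc 2 0)) |>.add
    (((hc 0 2).mul (hc 1 0)).mul (hc 2 1))).sub (((hc 0 2).mul (hc 1 1)).mul (hc 2 0))

theorem inv_cd (i j : Fin 3) : ContDiffAt ℝ ∞ (fun y => (g y)⁻¹ i j) x := by
  have h1 : (fun y => (g y)⁻¹ i j) = fun y => ((g y).det)⁻¹ * (g y).adjugate i j := by
    funext y
    rw [Matrix.inv_def, Ring.inverse_eq_inv']
    simp [Matrix.smul_apply]
  rw [h1]
  exact ((det_cd hU hg hx).inv (hg.posDef x hx).det_pos.ne').mul (adj_cd hU hg hx i j)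

theorem vol_cd : ContDiffAt ℝ ∞ (volDen g) x := by
  unfold volDen
  exact (det_cd hU hg hx).sqrt (hg.posDef x hx).det_pos.ne'

theorem chr_cd (k i j : Fin 3) : ContDiffAt ℝ ∞ (christoffel g k i j) x := by
  have c := g_cd hU hg hx
  unfold christoffel
  exact contDiffAt_const.mul (sum_cd fun l => (inv_cd hU hg hx k l).mul
    (((pd_cd i (c j l)).add (pd_cd j (c i l))).sub (pd_cd l (c i j))))

theorem ricci_cd (i j : Fin 3) : ContDiffAt ℝ ∞ (ricci g i j) x := by
  have c := chr_cd hU hg hx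
  unfold ricci
  exact sum_cd fun k => (((pd_cd k (c k i j)).sub (pd_cd j (c k i k))).add
    (sum_cd fun l => ((c k k l).mul (c l i j)).sub ((c k j l).mul (c l i k))))

theorem scal_cd : ContDiffAt ℝ ∞ (scalarCurvature g) x := by
  unfold scalarCurvature
  exact sum_cd fun i => sum_cd fun j => (inv_cd hU hg hx i j).mul (ricci_cd hU hg hx i j)

include hh

theorem trace_cd : ContDiffAt ℝ ∞ (traceWith g h) x := by
  unfold traceWith
  exact sum_cd fun i => sum_cd fun j => (inv_cd hU hg hx i j).mul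
    ((hh.smooth i j).contDiffAt (hU.mem_nhds hx))

theorem energy_cd : ContDiffAt ℝ ∞ (energyDensity g h) x := by
  have c := inv_cd hU hg hx
  have ch : ∀ i j, ContDiffAt ℝ ∞ (fun y => h y i j) x := fun i j =>
    (hh.smooth i j).contDiffAt (hU.mem_nhds hx)
  unfold energyDensity normSqWith
  refine contDiffAt_const.mul (((scal_cd hU hg hx).sub ?_).add
    ((trace_cd hU hg hh hx).pow 2))
  exact sum_cd fun i => sum_cd fun j => sum_cd fun k => sum_cd fun l =>
    (((c i k).mul (c j l)).mul (ch i j)).mul (ch k l)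

theorem mom_cd (j : Fin 3) : ContDiffAt ℝ ∞ (momentumDensity g h j) x := by
  have c := inv_cd hU hg hx
  have cc := chr_cd hU hg hx
  have ch : ∀ i j, ContDiffAt ℝ ∞ (fun y => h y i j) x := fun i j =>
    (hh.smooth i j).contDiffAt (hU.mem_nhds hx)
  have cT : ∀ a b, ContDiffAt ℝ ∞ (fun y => (h y - traceWith g h y • g y) a b) x := by
    intro a b
    have h1 : (fun y => (h y - traceWith g h y • g y) a b) =
        fun y => h y a b - traceWith g h y * g y a b := by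
      funext y
      simp [Matrix.sub_apply, Matrix.smul_apply]
    rw [h1]
    exact (ch a b).sub ((trace_cd hU hg hh hx).mul (g_cd hU hg hx a b))
  unfold momentumDensity divergence covDeriv
  exact sum_cd fun i => sum_cd fun k => (c i k).mul ((pd_cd k (cT i j)).sub
    (sum_cd fun l => ((cc l k i).mul (cT l j)).add ((cc l k j).mul (cT i l))))

end smooth

/-! ## Bounds at a point -/

/-- The bounds of `Stmt_CT` at a point. -/
structure At (C : ℝ) (g h : TensorField) (x : E3) : Prop where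
  one : 1 ≤ C
  lo : ∀ p, vsq p / C ≤ ev (g x)⁻¹ p p
  hi : ∀ p, ev (g x)⁻¹ p p ≤ C * vsq p
  ns0 : ∀ H : Bil, msq H / C ≤ nsq g x H
  ns : ∀ H : Bil, nsq g x H ≤ C * msq H
  chr : ∀ k i j, |christoffel g k i j x| ≤ C
  hb : ∀ i j, |h x i j| ≤ C
  mom : ∀ i, |momV g h x i| ≤ C
  en : |energyDensity g h x| ≤ C
  inv : ∀ i j, |(g x)⁻¹ i j| ≤ C
  vol0 : 0 ≤ volDen g x
  vol : volDen g x ≤ C

theorem vsq_nonneg (p : Cov) : 0 ≤ vsq p := Finset.sum_nonneg fun _ _ => sq_nonneg _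

theorem vn_nonneg (p : Cov) : 0 ≤ vn p := Real.sqrt_nonneg _

theorem vn_sq (p : Cov) : vn p ^ 2 = vsq p := Real.sq_sqrt (vsq_nonneg p)

theorem msq_nonneg (M : Bil) : 0 ≤ msq M :=
  Finset.sum_nonneg fun _ _ => Finset.sum_nonneg fun _ _ => sq_nonneg _

/-- The length of a matrix. -/
noncomputable def mn (M : Bil) : ℝ := Real.sqrt (msq M)

theorem mn_nonneg (M : Bil) : 0 ≤ mn M := Real.sqrt_nonneg _

theorem mn_sq (M : Bil) : mn M ^ 2 = msq M := Real.sq_sqrt (msq_nonneg M)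

theorem abs_le_vn (p : Cov) (i : Fin 3) : |p i| ≤ vn p := by
  apply Real.abs_le_sqrt
  exact Finset.single_le_sum (f := fun i => p i ^ 2) (fun j _ => sq_nonneg _) (Finset.mem_univ i)

theorem abs_le_mn (M : Bil) (i j : Fin 3) : |M i j| ≤ mn M := by
  apply Real.abs_le_sqrt
  calc M i j ^ 2 ≤ ∑ j, M i j ^ 2 :=
        Finset.single_le_sum (f := fun j => M i j ^ 2) (fun j _ => sq_nonneg _) (Finset.mem_univ j)
    _ ≤ msq M := Finset.single_le_sum (f := fun i => ∑ j, M i j ^ 2)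
        (fun j _ => Finset.sum_nonneg fun j _ => sq_nonneg _) (Finset.mem_univ i)

theorem abs_sum3 {f : Fin 3 → ℝ} {c : ℝ} (hf : ∀ i, |f i| ≤ c) : |∑ i, f i| ≤ 3 * c := by
  calc |∑ i, f i| ≤ ∑ i, |f i| := Finset.abs_sum_le_sum_abs _ _
    _ ≤ ∑ _i : Fin 3, c := Finset.sum_le_sum fun i _ => hf i
    _ = 3 * c := by simp

theorem abs_ev {B : Bil} {v : Cov} {b c : ℝ} (hb : 0 ≤ b) (hB : ∀ i j, |B i j| ≤ b)
    (hv : ∀ i, |v i| ≤ c) : |ev B v v| ≤ 9 * b * c ^ 2 := by
  have hc : 0 ≤ c := (abs_nonneg _).trans (hv 0)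
  have h1 : ∀ i j, |B i j * v i * v j| ≤ b * c * c := by
    intro i j
    rw [abs_mul, abs_mul]
    exact mul_le_mul (mul_le_mul (hB i j) (hv i) (abs_nonneg _) hb) (hv j) (abs_nonneg _)
      (mul_nonneg hb hc)
  have h2 : |ev B v v| ≤ 3 * (3 * (b * c * c)) := abs_sum3 fun i => abs_sum3 fun j => h1 i j
  calc |ev B v v| ≤ 3 * (3 * (b * c * c)) := h2
    _ = 9 * b * c ^ 2 := by ring

theorem msq_le {B : Bil} {b : ℝ} (hB : ∀ i j, |B i j| ≤ b) : msq B ≤ 9 * b ^ 2 := by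
  have h1 : ∀ i j, |B i j ^ 2| ≤ b ^ 2 := by
    intro i j
    rw [abs_pow]
    exact pow_le_pow_left₀ (abs_nonneg _) (hB i j) 2
  have h2 : |msq B| ≤ 3 * (3 * b ^ 2) := abs_sum3 fun i => abs_sum3 fun j => h1 i j
  calc msq B ≤ |msq B| := le_abs_self _
    _ ≤ 3 * (3 * b ^ 2) := h2
    _ = 9 * b ^ 2 := by ring

section pt

variable {C : ℝ} {g h : TensorField} {x : E3} (H : At C g h x)

include H

theorem At.pos : 0 < C := lt_of_lt_of_le one_pos H.one

theorem raise_le (p : Cov) (i : Fin 3) : |raise g x p i| ≤ 3 * (C * vn p) := by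
  refine abs_sum3 fun j => ?_
  rw [abs_mul]
  exact mul_le_mul (H.inv i j) (abs_le_vn p j) (abs_nonneg _) H.pos.le

theorem len_le (p : Cov) : len g x p ≤ C * vn p := by
  unfold len
  refine Real.sqrt_le_iff.2 ⟨mul_nonneg H.pos.le (vn_nonneg p), ?_⟩
  rw [mul_pow, vn_sq]
  refine (H.hi p).trans ?_
  refine mul_le_mul_of_nonneg_right ?_ (vsq_nonneg p)
  nlinarith [H.one]

theorem len_ge (p : Cov) : vn p / C ≤ len g x p := by
  unfold len
  refine Real.le_sqrt_of_sq_le ?_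
  rw [div_pow, vn_sq]
  refine le_trans ?_ (H.lo p)
  have h1 : C ≤ C ^ 2 := by nlinarith [H.one]
  exact div_le_div_of_nonneg_left (vsq_nonneg p) H.pos h1

omit H in
theorem len_nonneg (p : Cov) : 0 ≤ len g x p := Real.sqrt_nonneg _

theorem len_zero {p : Cov} (hp : vn p = 0) : len g x p = 0 := by
  have h1 := len_le H p
  rw [hp, mul_zero] at h1
  exact le_antisymm h1 (len_nonneg p)

theorem nrm_le (p : Cov) (i : Fin 3) : |nrm g x p i| ≤ 3 * C ^ 2 := by
  rcases (vn_nonneg p).eq_or_lt with h0 | h0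
  · have h1 := len_zero H h0.symm
    unfold nrm
    rw [h1, div_zero, abs_zero]
    positivity
  · have h1 := len_ge H p
    have h2 : 0 < vn p / C := div_pos h0 H.pos
    have h3 : 0 < len g x p := lt_of_lt_of_le h2 h1
    unfold nrm
    rw [abs_div, abs_of_pos h3, div_le_iff₀ h3]
    calc |raise g x p i| ≤ 3 * (C * vn p) := raise_le H p i
      _ = 3 * C ^ 2 * (vn p / C) := by
        field_simp
      _ ≤ 3 * C ^ 2 * len g x p := mul_le_mul_of_nonneg_left h1 (by positivity)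

theorem bnn_le (p : Cov) {B : Bil} {b : ℝ} (hb : 0 ≤ b) (hB : ∀ i j, |B i j| ≤ b) :
    |bnn g x p B| ≤ 81 * C ^ 4 * b := by
  have h1 : |bnn g x p B| ≤ 9 * b * (3 * C ^ 2) ^ 2 := abs_ev hb hB (nrm_le H p)
  calc |bnn g x p B| ≤ 9 * b * (3 * C ^ 2) ^ 2 := h1
    _ = 81 * C ^ 4 * b := by ring

theorem trg_le {B : Bil} {b : ℝ} (hB : ∀ i j, |B i j| ≤ b) :
    |trg g x B| ≤ 9 * C * b := by
  have h1 : |trg g x B| ≤ 3 * (3 * (C * b)) := abs_sum3 fun i => abs_sum3 fun j => by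
    rw [abs_mul]
    exact mul_le_mul (H.inv i j) (hB i j) (abs_nonneg _) H.pos.le
  linarith

theorem btan_le (p : Cov) {B : Bil} {b : ℝ} (hb : 0 ≤ b) (hB : ∀ i j, |B i j| ≤ b) :
    |btan g x p B| ≤ 90 * C ^ 4 * b := by
  have h1 := bnn_le H p hb hB
  have h2 := trg_le H hB
  have h3 : C ≤ C ^ 4 := le_self_pow₀ H.one (by norm_num)
  have h4 : 9 * C * b ≤ 9 * C ^ 4 * b := by
    apply mul_le_mul_of_nonneg_right _ hb
    linarith
  unfold btan
  calc |trg g x B - bnn g x p B| ≤ |trg g x B| + |bnn g x p B| := abs_sub _ _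
    _ ≤ 90 * C ^ 4 * b := by linarith

theorem nsq_le {B : Bil} {b : ℝ} (hB : ∀ i j, |B i j| ≤ b) :
    |nsq g x B| ≤ 9 * C * b ^ 2 := by
  have h1 : 0 ≤ nsq g x B := le_trans (div_nonneg (msq_nonneg B) H.pos.le) (H.ns0 B)
  rw [abs_of_nonneg h1]
  refine (H.ns B).trans ?_
  calc C * msq B ≤ C * (9 * b ^ 2) := mul_le_mul_of_nonneg_left (msq_le hB) H.pos.le
    _ = 9 * C * b ^ 2 := by ring

theorem cHess_le (p : Cov) (M : Bil) (i j : Fin 3) :
    |cHess g x p M i j| ≤ mn M + 3 * C * vn p := by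
  have h1 : |∑ k, christoffel g k i j x * p k| ≤ 3 * (C * vn p) := abs_sum3 fun k => by
    rw [abs_mul]
    exact mul_le_mul (H.chr k i j) (abs_le_vn p k) (abs_nonneg _) H.pos.le
  have h2 : cHess g x p M i j = M i j - ∑ k, christoffel g k i j x * p k := rfl
  rw [h2]
  calc |M i j - ∑ k, christoffel g k i j x * p k| ≤
        |M i j| + |∑ k, christoffel g k i j x * p k| := abs_sub _ _
    _ ≤ mn M + 3 * C * vn p := by linarith [abs_le_mn M i j]

/-! ### The composite quantities -/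

omit H in
theorem pow3_le {v : ℝ} (hv : 0 ≤ v) : v ^ 3 ≤ 1 + v ^ 4 := by
  nlinarith [sq_nonneg (v ^ 2 - v), sq_nonneg (v - 1), sq_nonneg (v ^ 2 - 1), sq_nonneg v,
    mul_nonneg hv (sq_nonneg (v - 1))]

omit H in
theorem pow2_le (v : ℝ) : v ^ 2 ≤ 1 + v ^ 4 := by
  nlinarith [sq_nonneg (v ^ 2 - 1), sq_nonneg (v ^ 2)]

omit H in
theorem pow1_le (v : ℝ) : v ≤ 1 + v ^ 4 := by
  nlinarith [sq_nonneg (v ^ 2 - 1), sq_nonneg (v - 1), sq_nonneg (v ^ 2)]

omit H in
theorem two_sub {ε : ℝ} (hε : ε < 1) {a : ℝ} (ha : 0 ≤ a) : a / (2 - ε) ≤ a :=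
  div_le_self ha (by linarith)

theorem flux_le {ε : ℝ} (hε : ε < 1) (p : Cov) (M : Bil) :
    |flux ε g h x p M| ≤ 1000 * C ^ 6 * (1 + vn p ^ 4 + msq M) := by
  have hC := H.one
  have hC0 := H.pos
  have hv := vn_nonneg p
  have hm := mn_nonneg M
  have hl := len_nonneg (g := g) (x := x) p
  have hl1 := len_le H p
  have b1 := btan_le H p (b := mn M + 3 * C * vn p) (by positivity) (cHess_le H p M)
  have b2 := trg_le H H.hb
  have b3 : |ev (h x) (raise g x p) (raise g x p)| ≤ 9 * C * (3 * (C * vn p)) ^ 2 :=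
    abs_ev hC0.le H.hb (raise_le H p)
  have e1 : |len g x p * btan g x p (cHess g x p M)| ≤
      C * vn p * (90 * C ^ 4 * (mn M + 3 * C * vn p)) := by
    rw [abs_mul, abs_of_nonneg hl]
    exact mul_le_mul hl1 b1 (abs_nonneg _) (by positivity)
  have e2 : |len g x p ^ 3 / (2 - ε)| ≤ (C * vn p) ^ 3 := by
    rw [abs_of_nonneg (div_nonneg (by positivity) (by linarith))]
    exact (two_sub hε (by positivity)).trans (pow_le_pow_left₀ hl hl1 3)
  have e3 : |len g x p ^ 2 * trg g x (h x)| ≤ (C * vn p) ^ 2 * (9 * C * C) := by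
    rw [abs_mul, abs_of_nonneg (by positivity : 0 ≤ len g x p ^ 2)]
    exact mul_le_mul (pow_le_pow_left₀ hl hl1 2) b2 (abs_nonneg _) (by positivity)
  have e4 : |flux ε g h x p M| ≤ C * vn p * (90 * C ^ 4 * (mn M + 3 * C * vn p)) +
      (C * vn p) ^ 3 + ((C * vn p) ^ 2 * (9 * C * C) + 9 * C * (3 * (C * vn p)) ^ 2) := by
    unfold flux
    refine (abs_sub _ _).trans (add_le_add ((abs_sub _ _).trans (add_le_add e1 e2))
      ((abs_sub _ _).trans (add_le_add e3 b3)))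
  refine e4.trans ?_
  have p3 := pow3_le hv
  have p2 := pow2_le (vn p)
  have hvm : vn p * mn M ≤ vn p ^ 2 + mn M ^ 2 := by nlinarith [sq_nonneg (vn p - mn M)]
  have c3 : C ^ 3 ≤ C ^ 6 := pow_le_pow_right₀ hC (by norm_num)
  have c4 : C ^ 4 ≤ C ^ 6 := pow_le_pow_right₀ hC (by norm_num)
  have c5 : C ^ 5 ≤ C ^ 6 := pow_le_pow_right₀ hC (by norm_num)
  rw [← mn_sq]
  have f1 : C ^ 5 * (vn p * mn M) ≤ C ^ 6 * (vn p ^ 2 + mn M ^ 2) :=
    mul_le_mul c5 hvm (by positivity) (by positivity)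
  have f2 : C ^ 3 * vn p ^ 3 ≤ C ^ 6 * (1 + vn p ^ 4) :=
    mul_le_mul c3 p3 (by positivity) (by positivity)
  have f3 : C ^ 6 * vn p ^ 2 ≤ C ^ 6 * (1 + vn p ^ 4) :=
    mul_le_mul_of_nonneg_left p2 (by positivity)
  have f4 : C ^ 4 * vn p ^ 2 ≤ C ^ 6 * (1 + vn p ^ 4) :=
    mul_le_mul c4 p2 (by positivity) (by positivity)
  have f5 : C ^ 3 * vn p ^ 2 ≤ C ^ 6 * (1 + vn p ^ 4) :=
    mul_le_mul c3 p2 (by positivity) (by positivity)
  have f6 : 0 ≤ C ^ 6 * mn M ^ 2 := by positivity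
  have f7 : 0 ≤ C ^ 6 * (1 + vn p ^ 4) := by positivity
  nlinarith [f1, f2, f3, f4, f5, f6, f7]

/-- The bound of the tensor `B`. -/
theorem tenB_le {p : Cov} (hp : 0 < vn p) (M : Bil) (i j : Fin 3) :
    |tenB g h x p M i j| ≤ C * (mn M / vn p) + 4 * C ^ 2 := by
  have hC := H.one
  have hC0 := H.pos
  have h1 := len_ge H p
  have h2 : 0 < vn p / C := div_pos hp H.pos
  have h3 : 0 < len g x p := lt_of_lt_of_le h2 h1
  have h4 : (len g x p)⁻¹ ≤ C / vn p := by
    rw [inv_le_comm₀ h3 (by positivity), inv_div]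
    exact h1
  have h5 : tenB g h x p M i j = (len g x p)⁻¹ * cHess g x p M i j - h x i j := by
    simp [tenB, Matrix.sub_apply, Matrix.smul_apply]
  rw [h5]
  calc |(len g x p)⁻¹ * cHess g x p M i j - h x i j| ≤
        |(len g x p)⁻¹ * cHess g x p M i j| + |h x i j| := abs_sub _ _
    _ ≤ C / vn p * (mn M + 3 * C * vn p) + C := by
        refine add_le_add ?_ (H.hb i j)
        rw [abs_mul, abs_of_pos (inv_pos.2 h3)]
        exact mul_le_mul h4 (cHess_le H p M i j) (abs_nonneg _) (by positivity)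
    _ = C * (mn M / vn p) + 3 * C ^ 2 + C := by
        field_simp
    _ ≤ C * (mn M / vn p) + 4 * C ^ 2 := by nlinarith

theorem dis0_le {ε : ℝ} (hε0 : 0 < ε) (hε : ε < 1) (p : Cov) (M : Bil) :
    |len g x p * dis0 ε g h x p M| ≤
      (1 / ε + 1) * C ^ 13 * 1000000 * (msq M / vn p + (1 + vn p ^ 4)) := by
  have hC := H.one
  have hC0 := H.pos
  rcases (vn_nonneg p).eq_or_lt with h0 | h0
  · rw [len_zero H h0.symm, zero_mul, abs_zero]
    have := msq_nonneg M
    have := vn_nonneg p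
    positivity
  have hm := mn_nonneg M
  have hl := len_nonneg (g := g) (x := x) p
  have hl1 := len_le H p
  set v := vn p with hv
  set b := C * (mn M / v) + 4 * C ^ 2 with hb
  have hb0 : 0 ≤ b := by positivity
  have hB : ∀ i j, |tenB g h x p M i j| ≤ b := tenB_le H h0 M
  have b1 := nsq_le H hB
  have b2 := bnn_le H p hb0 hB
  have b3 := btan_le H p hb0 hB
  have c2 : bnn g x p (tenB g h x p M) ^ 2 ≤ (81 * C ^ 4 * b) ^ 2 := by
    rw [← sq_abs]
    exact pow_le_pow_left₀ (abs_nonneg _) b2 2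
  have c3 : btan g x p (tenB g h x p M) ^ 2 ≤ (90 * C ^ 4 * b) ^ 2 := by
    rw [← sq_abs]
    exact pow_le_pow_left₀ (abs_nonneg _) b3 2
  have hz : |zed ε g h x p M| ≤ 90 * C ^ 4 * b + 2 * (C * v) := by
    unfold zed
    refine (abs_sub _ _).trans (add_le_add b3 ?_)
    rw [abs_of_nonneg (div_nonneg (by positivity) (by linarith))]
    exact (two_sub hε (by positivity)).trans (by linarith)
  have c4 : zed ε g h x p M ^ 2 ≤ 2 * (90 * C ^ 4 * b) ^ 2 + 2 * (2 * (C * v)) ^ 2 := by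
    rw [← sq_abs]
    refine (pow_le_pow_left₀ (abs_nonneg _) hz 2).trans ?_
    nlinarith [sq_nonneg (90 * C ^ 4 * b - 2 * (C * v))]
  have hε1 : 1 ≤ 1 / ε := by
    rw [le_div_iff₀ hε0]
    linarith
  have c5 : |(1 / ε - 1 / 4) * zed ε g h x p M ^ 2| ≤
      (1 / ε) * (2 * (90 * C ^ 4 * b) ^ 2 + 2 * (2 * (C * v)) ^ 2) := by
    rw [abs_mul, abs_of_nonneg (sq_nonneg (zed ε g h x p M)),
      abs_of_nonneg (by linarith : 0 ≤ 1 / ε - 1 / 4)]
    exact mul_le_mul (by linarith) c4 (sq_nonneg _) (by positivity)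
  have c6 : |dis0 ε g h x p M| ≤ 9 * C * b ^ 2 / 2 + (81 * C ^ 4 * b) ^ 2 / 2 +
      (90 * C ^ 4 * b) ^ 2 / 4 + (1 / ε) * (2 * (90 * C ^ 4 * b) ^ 2 + 2 * (2 * (C * v)) ^ 2) := by
    unfold dis0
    refine (abs_add_le _ _).trans (add_le_add ((abs_sub _ _).trans (add_le_add
      ((abs_sub _ _).trans (add_le_add ?_ ?_)) ?_)) c5)
    · rw [abs_div, abs_of_pos (by norm_num : (0 : ℝ) < 2)]
      linarith
    · rw [abs_of_nonneg (by positivity)]
      linarith
    · rw [abs_of_nonneg (by positivity)]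
      linarith
  have k1 : C ≤ C ^ 8 := le_self_pow₀ hC (by norm_num)
  have k2 : C ^ 2 ≤ C ^ 8 := pow_le_pow_right₀ hC (by norm_num)
  have c7 : |dis0 ε g h x p M| ≤ (1 / ε + 1) * C ^ 8 * (22000 * b ^ 2 + 8 * v ^ 2) := by
    refine c6.trans ?_
    have q1 : C * b ^ 2 ≤ C ^ 8 * b ^ 2 := mul_le_mul_of_nonneg_right k1 (sq_nonneg _)
    have q2 : C ^ 2 * v ^ 2 ≤ C ^ 8 * v ^ 2 := mul_le_mul_of_nonneg_right k2 (sq_nonneg _)
    have q3 : 1 / ε * (C ^ 2 * v ^ 2) ≤ 1 / ε * (C ^ 8 * v ^ 2) :=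
      mul_le_mul_of_nonneg_left q2 (by positivity)
    have q4 : 0 ≤ C ^ 8 * b ^ 2 := by positivity
    have q5 : 0 ≤ C ^ 8 * v ^ 2 := by positivity
    have q6 : 0 ≤ 1 / ε * (C ^ 8 * b ^ 2) := by positivity
    have q7 : 0 ≤ 1 / ε * (C ^ 8 * v ^ 2) := by positivity
    have r1 : 9 * C * b ^ 2 / 2 + (81 * C ^ 4 * b) ^ 2 / 2 + (90 * C ^ 4 * b) ^ 2 / 4 +
        (1 / ε) * (2 * (90 * C ^ 4 * b) ^ 2 + 2 * (2 * (C * v)) ^ 2) =
        9 / 2 * (C * b ^ 2) + (6561 / 2 + 2025) * (C ^ 8 * b ^ 2) +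
          16200 * (1 / ε * (C ^ 8 * b ^ 2)) + 8 * (1 / ε * (C ^ 2 * v ^ 2)) := by ring
    have r2 : (1 / ε + 1) * C ^ 8 * (22000 * b ^ 2 + 8 * v ^ 2) =
        22000 * (C ^ 8 * b ^ 2) + 22000 * (1 / ε * (C ^ 8 * b ^ 2)) +
          8 * (C ^ 8 * v ^ 2) + 8 * (1 / ε * (C ^ 8 * v ^ 2)) := by ring
    rw [r1, r2]
    linarith
  have hvb : v * b ^ 2 ≤ 2 * C ^ 2 * (msq M / v) + 32 * C ^ 4 * v := by
    have r0 : b ^ 2 ≤ 2 * (C * (mn M / v)) ^ 2 + 2 * (4 * C ^ 2) ^ 2 := by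
      rw [hb]
      nlinarith [sq_nonneg (C * (mn M / v) - 4 * C ^ 2)]
    calc v * b ^ 2 ≤ v * (2 * (C * (mn M / v)) ^ 2 + 2 * (4 * C ^ 2) ^ 2) :=
          mul_le_mul_of_nonneg_left r0 h0.le
      _ = 2 * C ^ 2 * (mn M ^ 2 / v) + 32 * C ^ 4 * v := by
          field_simp
          ring
      _ = 2 * C ^ 2 * (msq M / v) + 32 * C ^ 4 * v := by rw [mn_sq]
  rw [abs_mul, abs_of_nonneg hl]
  have p3 := pow3_le h0.le
  have p1 := pow1_le v
  have hmv : 0 ≤ msq M / v := div_nonneg (msq_nonneg M) h0.le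
  have j1 : C ^ 11 ≤ C ^ 13 := pow_le_pow_right₀ hC (by norm_num)
  have j2 : C ^ 9 ≤ C ^ 13 := pow_le_pow_right₀ hC (by norm_num)
  calc len g x p * |dis0 ε g h x p M| ≤
        C * v * ((1 / ε + 1) * C ^ 8 * (22000 * b ^ 2 + 8 * v ^ 2)) :=
        mul_le_mul hl1 c7 (abs_nonneg _) (by positivity)
    _ = (1 / ε + 1) * (C ^ 9 * (22000 * (v * b ^ 2) + 8 * v ^ 3)) := by ring
    _ ≤ (1 / ε + 1) * (C ^ 9 * (22000 * (2 * C ^ 2 * (msq M / v) + 32 * C ^ 4 * v) +
          8 * v ^ 3)) := by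
        apply mul_le_mul_of_nonneg_left _ (by positivity)
        apply mul_le_mul_of_nonneg_left _ (by positivity)
        linarith
    _ = (1 / ε + 1) * (44000 * (C ^ 11 * (msq M / v)) + 704000 * (C ^ 13 * v) +
          8 * (C ^ 9 * v ^ 3)) := by ring
    _ ≤ (1 / ε + 1) * (44000 * (C ^ 13 * (msq M / v)) + 704000 * (C ^ 13 * (1 + v ^ 4)) +
          8 * (C ^ 13 * (1 + v ^ 4))) := by
        apply mul_le_mul_of_nonneg_left _ (by positivity)
        have s1 : C ^ 11 * (msq M / v) ≤ C ^ 13 * (msq M / v) :=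
          mul_le_mul_of_nonneg_right j1 hmv
        have s2 : C ^ 13 * v ≤ C ^ 13 * (1 + v ^ 4) :=
          mul_le_mul_of_nonneg_left p1 (by positivity)
        have s3 : C ^ 9 * v ^ 3 ≤ C ^ 13 * (1 + v ^ 4) :=
          mul_le_mul j2 p3 (by positivity) (by positivity)
        linarith
    _ ≤ (1 / ε + 1) * (1000000 * (C ^ 13 * (msq M / v)) +
          1000000 * (C ^ 13 * (1 + v ^ 4))) := by
        apply mul_le_mul_of_nonneg_left _ (by positivity)
        have s1 : 0 ≤ C ^ 13 * (msq M / v) := by positivity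
        have s2 : 0 ≤ C ^ 13 * (1 + v ^ 4) := by positivity
        linarith
    _ = (1 / ε + 1) * C ^ 13 * 1000000 * (msq M / v + (1 + v ^ 4)) := by ring

theorem diss_le {ε : ℝ} (hε0 : 0 < ε) (hε : ε < 1) (p : Cov) (M : Bil) :
    |len g x p * diss ε g h x p M| ≤
      (1 / ε + 1) * C ^ 13 * 2000000 * (msq M / vn p + (1 + vn p ^ 4)) := by
  have hC := H.one
  have hC0 := H.pos
  have hv := vn_nonneg p
  have hl := len_nonneg (g := g) (x := x) p
  have hl1 := len_le H p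
  have h1 := dis0_le H hε0 hε p M
  have b2 := bnn_le H p hC0.le H.hb
  have b3 := btan_le H p hC0.le H.hb
  have h2 : len g x p * diss ε g h x p M = len g x p * dis0 ε g h x p M +
      2 * (bnn g x p (h x) + btan g x p (h x) / 2) * (len g x p * len g x p / (2 - ε)) := by
    unfold diss dis0
    ring
  have h3 : |2 * (bnn g x p (h x) + btan g x p (h x) / 2) * (len g x p * len g x p / (2 - ε))| ≤
      2 * (126 * C ^ 5) * ((C * vn p) * (C * vn p)) := by
    have e1 : |2 * (bnn g x p (h x) + btan g x p (h x) / 2)| ≤ 2 * (126 * C ^ 5) := by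
      rw [abs_mul, abs_of_pos (by norm_num : (0 : ℝ) < 2)]
      apply mul_le_mul_of_nonneg_left _ (by norm_num)
      refine (abs_add_le _ _).trans ?_
      rw [abs_div, abs_of_pos (by norm_num : (0 : ℝ) < 2)]
      have : (126 : ℝ) * C ^ 5 = 81 * C ^ 4 * C + 90 * C ^ 4 * C / 2 := by ring
      rw [this]
      linarith
    have e2 : |len g x p * len g x p / (2 - ε)| ≤ (C * vn p) * (C * vn p) := by
      rw [abs_of_nonneg (div_nonneg (by positivity) (by linarith))]
      exact (two_sub hε (by positivity)).trans (mul_le_mul hl1 hl1 hl (by positivity))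
    rw [abs_mul]
    exact mul_le_mul e1 e2 (abs_nonneg _) (by positivity)
  rw [h2]
  refine (abs_add_le _ _).trans ?_
  have p2 := pow2_le (vn p)
  have j1 : C ^ 7 ≤ C ^ 13 := pow_le_pow_right₀ hC (by norm_num)
  have hmv : 0 ≤ msq M / vn p := div_nonneg (msq_nonneg M) hv
  have k1 : 2 * (126 * C ^ 5) * ((C * vn p) * (C * vn p)) ≤
      (1 / ε + 1) * C ^ 13 * 1000000 * (msq M / vn p + (1 + vn p ^ 4)) := by
    calc 2 * (126 * C ^ 5) * ((C * vn p) * (C * vn p)) = 252 * (C ^ 7 * vn p ^ 2) := by ring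
      _ ≤ 252 * (C ^ 13 * (1 + vn p ^ 4)) := by
          apply mul_le_mul_of_nonneg_left _ (by norm_num)
          exact mul_le_mul j1 p2 (by positivity) (by positivity)
      _ ≤ 1 * (1000000 * (C ^ 13 * (msq M / vn p + (1 + vn p ^ 4)))) := by
          have s1 : 0 ≤ C ^ 13 * (msq M / vn p) := by positivity
          have s2 : 0 ≤ C ^ 13 * (1 + vn p ^ 4) := by positivity
          linarith
      _ ≤ (1 / ε + 1) * (1000000 * (C ^ 13 * (msq M / vn p + (1 + vn p ^ 4)))) := by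
          apply mul_le_mul_of_nonneg_right _ (by positivity)
          have : 0 < 1 / ε := by positivity
          linarith
      _ = _ := by ring
  calc _ ≤ (1 / ε + 1) * C ^ 13 * 1000000 * (msq M / vn p + (1 + vn p ^ 4)) +
        (1 / ε + 1) * C ^ 13 * 1000000 * (msq M / vn p + (1 + vn p ^ 4)) :=
        add_le_add h1 (h3.trans k1)
    _ = _ := by ring

theorem matter_le (p : Cov) : |len g x p * matter g h x p| ≤ 10 * C ^ 4 * (1 + vn p ^ 4) := by
  have hC := H.one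
  have hC0 := H.pos
  have hv := vn_nonneg p
  have hl := len_nonneg (g := g) (x := x) p
  have hl1 := len_le H p
  have h1 : |∑ j, momentumDensity g h j x * nrm g x p j| ≤ 3 * (C * (3 * C ^ 2)) :=
    abs_sum3 fun j => by
      rw [abs_mul]
      exact mul_le_mul (H.mom j) (nrm_le H p j) (abs_nonneg _) hC0.le
  have h2 : |matter g h x p| ≤ C + 9 * C ^ 3 := by
    unfold matter
    refine (abs_sub _ _).trans ?_
    have := H.en
    linarith
  have h3 : C ≤ C ^ 3 := le_self_pow₀ hC (by norm_num)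
  rw [abs_mul, abs_of_nonneg hl]
  calc len g x p * |matter g h x p| ≤ C * vn p * (10 * C ^ 3) :=
        mul_le_mul hl1 (h2.trans (by linarith)) (abs_nonneg _) (by positivity)
    _ = 10 * C ^ 4 * vn p := by ring
    _ ≤ 10 * C ^ 4 * (1 + vn p ^ 4) := mul_le_mul_of_nonneg_left (pow1_le _) (by positivity)

omit H in
theorem Wd_le (p : Cov) (M : Bil) : |Wd p M| ≤ 144 * (msq M / vn p) := by
  have hm := mn_nonneg M
  have h1 : |∑ i, M i i| ≤ 3 * mn M := abs_sum3 fun i => abs_le_mn M i i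
  have h2 : |ev M p p / vsq p| ≤ 9 * mn M := by
    have h3 : |ev M p p| ≤ 9 * mn M * vn p ^ 2 := abs_ev hm (abs_le_mn M) (abs_le_vn p)
    rw [vn_sq] at h3
    rw [abs_div, abs_of_nonneg (vsq_nonneg p)]
    exact div_le_of_le_mul₀ (vsq_nonneg p) (by positivity) h3
  have h3 : ((∑ i, M i i) - ev M p p / vsq p) ^ 2 ≤ (12 * mn M) ^ 2 := by
    rw [← sq_abs]
    refine pow_le_pow_left₀ (abs_nonneg _) ((abs_sub _ _).trans ?_) 2
    linarith
  unfold Wd
  rw [abs_of_nonneg (div_nonneg (sq_nonneg _) (vn_nonneg p))]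
  calc _ ≤ (12 * mn M) ^ 2 / vn p := div_le_div_of_nonneg_right h3 (vn_nonneg p)
    _ = 144 * (mn M ^ 2 / vn p) := by ring
    _ = 144 * (msq M / vn p) := by rw [mn_sq]

end pt

/-! ## Measurability -/

section meas

theorem m_sum {μ : Measure E3} {f : Fin 3 → E3 → ℝ} (hf : ∀ i, AEMeasurable (f i) μ) :
    AEMeasurable (fun x => ∑ i, f i x) μ :=
  Finset.aemeasurable_fun_sum _ fun i _ => hf i

theorem m_ev {μ : Measure E3} {B : E3 → Bil} {v w : E3 → Cov}
    (hB : ∀ i j, AEMeasurable (fun x => B x i j) μ)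
    (hv : ∀ i, AEMeasurable (fun x => v x i) μ) (hw : ∀ i, AEMeasurable (fun x => w x i) μ) :
    AEMeasurable (fun x => ev (B x) (v x) (w x)) μ :=
  m_sum fun i => m_sum fun j => ((hB i j).mul (hv i)).mul (hw j)

/-- Everything is measurable. -/
structure Ms (μ : Measure E3) (g h : TensorField) (G : E3 → Cov) (M : E3 → Bil) : Prop where
  inv : ∀ i j, AEMeasurable (fun x => (g x)⁻¹ i j) μ
  chr : ∀ k i j, AEMeasurable (fun x => christoffel g k i j x) μ
  hm : ∀ i j, AEMeasurable (fun x => h x i j) μ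
  mom : ∀ i, AEMeasurable (fun x => momentumDensity g h i x) μ
  en : AEMeasurable (fun x => energyDensity g h x) μ
  vol : AEMeasurable (fun x => volDen g x) μ
  gm : ∀ i, AEMeasurable (fun x => G x i) μ
  mm : ∀ i j, AEMeasurable (fun x => M x i j) μ

variable {μ : Measure E3} {g h : TensorField} {G : E3 → Cov} {M : E3 → Bil} (S : Ms μ g h G M)

include S

theorem m_vsq : AEMeasurable (fun x => vsq (G x)) μ := m_sum fun i => (S.gm i).pow_const 2

theorem m_vn : AEMeasurable (fun x => vn (G x)) μ := (m_vsq S).sqrt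

theorem m_msq : AEMeasurable (fun x => msq (M x)) μ :=
  m_sum fun i => m_sum fun j => (S.mm i j).pow_const 2

theorem m_raise (i : Fin 3) : AEMeasurable (fun x => raise g x (G x) i) μ :=
  m_sum fun j => (S.inv i j).mul (S.gm j)

theorem m_len : AEMeasurable (fun x => len g x (G x)) μ := (m_ev S.inv S.gm S.gm).sqrt

theorem m_nrm (i : Fin 3) : AEMeasurable (fun x => nrm g x (G x) i) μ :=
  (m_raise S i).div (m_len S)

theorem m_cHess (i j : Fin 3) : AEMeasurable (fun x => cHess g x (G x) (M x) i j) μ :=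
  (S.mm i j).sub (m_sum fun k => (S.chr k i j).mul (S.gm k))

theorem m_trg {B : E3 → Bil} (hB : ∀ i j, AEMeasurable (fun x => B x i j) μ) :
    AEMeasurable (fun x => trg g x (B x)) μ :=
  m_sum fun i => m_sum fun j => (S.inv i j).mul (hB i j)

theorem m_nsq {B : E3 → Bil} (hB : ∀ i j, AEMeasurable (fun x => B x i j) μ) :
    AEMeasurable (fun x => nsq g x (B x)) μ :=
  m_sum fun i => m_sum fun j => m_sum fun k => m_sum fun l =>
    (((S.inv i k).mul (S.inv j l)).mul (hB i j)).mul (hB k l)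

theorem m_bnn {B : E3 → Bil} (hB : ∀ i j, AEMeasurable (fun x => B x i j) μ) :
    AEMeasurable (fun x => bnn g x (G x) (B x)) μ :=
  m_ev hB (m_nrm S) (m_nrm S)

theorem m_btan {B : E3 → Bil} (hB : ∀ i j, AEMeasurable (fun x => B x i j) μ) :
    AEMeasurable (fun x => btan g x (G x) (B x)) μ :=
  (m_trg S hB).sub (m_bnn S hB)

theorem m_tenB (i j : Fin 3) : AEMeasurable (fun x => tenB g h x (G x) (M x) i j) μ := by
  have h1 : (fun x => tenB g h x (G x) (M x) i j) =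
      fun x => (len g x (G x))⁻¹ * cHess g x (G x) (M x) i j - h x i j := by
    funext x
    simp [tenB, Matrix.sub_apply, Matrix.smul_apply]
  rw [h1]
  exact ((m_len S).inv.mul (m_cHess S i j)).sub (S.hm i j)

theorem m_flux (ε : ℝ) : AEMeasurable (fun x => flux ε g h x (G x) (M x)) μ :=
  (((m_len S).mul (m_btan S (m_cHess S))).sub (((m_len S).pow_const 3).div_const _)).sub
    ((((m_len S).pow_const 2).mul (m_trg S S.hm)).sub (m_ev S.hm (m_raise S) (m_raise S)))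

theorem m_zed (ε : ℝ) : AEMeasurable (fun x => zed ε g h x (G x) (M x)) μ :=
  (m_btan S (m_tenB S)).sub (((m_len S).const_mul 2).div_const _)

theorem m_dis0 (ε : ℝ) : AEMeasurable (fun x => dis0 ε g h x (G x) (M x)) μ :=
  ((((m_nsq S (m_tenB S)).div_const 2).sub (((m_bnn S (m_tenB S)).pow_const 2).div_const 2)).sub
    (((m_btan S (m_tenB S)).pow_const 2).div_const 4)).add
    (((m_zed S ε).pow_const 2).const_mul _)

theorem m_diss (ε : ℝ) : AEMeasurable (fun x => diss ε g h x (G x) (M x)) μ :=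
  (m_dis0 S ε).add (((((m_bnn S S.hm).add ((m_btan S S.hm).div_const 2)).const_mul 2).mul
    (m_len S)).div_const _)

theorem m_matter : AEMeasurable (fun x => matter g h x (G x)) μ :=
  S.en.sub (m_sum fun j => (S.mom j).mul (m_nrm S j))

theorem m_Wd : AEMeasurable (fun x => Wd (G x) (M x)) μ :=
  (((m_sum fun i => S.mm i i).sub ((m_ev S.mm S.gm S.gm).div (m_vsq S))).pow_const 2).div (m_vn S)

end meas

theorem dom {f F : E3 → ℝ} {K : Set E3} (hK : IsCompact K) (hF : IntegrableOn F K)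
    (hf : AEMeasurable f (volume.restrict K)) (hb : ∀ x ∈ K, |f x| ≤ F x) :
    IntegrableOn f K :=
  Integrable.mono' hF hf.aestronglyMeasurable
    ((ae_restrict_iff' hK.measurableSet).2 (Eventually.of_forall fun x hx => by
      rw [Real.norm_eq_abs]
      exact hb x hx))

theorem vn4_le (p : Cov) : vn p ^ 4 ≤ 3 * ∑ i, |p i| ^ 4 := by
  have h1 : vn p ^ 4 = vsq p ^ 2 := by
    rw [← vn_sq]
    ring
  have h2 : ∀ i, |p i| ^ 4 = (p i ^ 2) ^ 2 := by
    intro i
    rw [← sq_abs (p i)]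
    ring
  rw [h1]
  simp only [h2]
  unfold vsq
  simp only [Fin.sum_univ_three]
  nlinarith [sq_nonneg (p 0 ^ 2 - p 1 ^ 2), sq_nonneg (p 0 ^ 2 - p 2 ^ 2),
    sq_nonneg (p 1 ^ 2 - p 2 ^ 2)]

end MINT

open MINT in
theorem INT (hL4 : Stmt_L4) (hAPB : Stmt_APB) (hCT : Stmt_CT) : Stmt_INT := by
  intro ε U g h w G M hε0 hε1 hU hg hh hw hE K hK hKU
  have hs := hL4 U w G M hU hw
  have hA := hAPB ε U g h w G M hε0 hε1 hU hg hh hs hE K hK hKU
  obtain ⟨C, hC1, hC⟩ := hCT U g h hU hg hh K hK hKU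
  have hC0 : 0 < C := lt_of_lt_of_le one_pos hC1
  have hAt : ∀ x ∈ K, At C g h x := by
    intro x hx
    obtain ⟨a1, a2, -, a4, a5, a6, a7, -, a9, -, a11⟩ := hC x hx
    exact ⟨hC1, fun p => (a1 p).1, fun p => (a1 p).2, fun B => (a2 B).1, fun B => (a2 B).2,
      a4, a5, a6, a7, a9, Real.sqrt_nonneg _, a11⟩
  have mc : ∀ {f : E3 → ℝ}, (∀ x ∈ U, ContDiffAt ℝ ∞ f x) → AEMeasurable f (volume.restrict K) :=
    fun {f} hf => ContinuousOn.aemeasurable (fun x hx =>
      (hf x (hKU hx)).continuousAt.continuousWithinAt) hK.measurableSet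
  have S : Ms (volume.restrict K) g h G M :=
    { inv := fun i j => mc fun x hx => inv_cd hU hg hx i j
      chr := fun k i j => mc fun x hx => chr_cd hU hg hx k i j
      hm := fun i j => mc fun x hx => (hh.smooth i j).contDiffAt (hU.mem_nhds hx)
      mom := fun j => mc fun x hx => mom_cd hU hg hh hx j
      en := mc fun x hx => energy_cd hU hg hh hx
      vol := mc fun x hx => vol_cd hU hg hx
      gm := fun i => (hs.memG K hK hKU i).1.aemeasurable
      mm := fun i j => (hs.memM K hK hKU i j).1.aemeasurable }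
  have ic : IntegrableOn (fun _ : E3 => (1 : ℝ)) K :=
    integrableOn_const hK.measure_lt_top.ne
  have i1 : IntegrableOn (fun x => vn (G x) ^ 4) K := by
    refine dom hK (F := fun x => 3 * ∑ i, |G x i| ^ 4) ?_ ((m_vn S).pow_const 4) fun x _ => ?_
    · refine (integrable_finsetSum _ fun i _ => ?_).const_mul 3
      have h4 : MemLp (fun x => G x i) ((4 : ℕ) : ENNReal) (volume.restrict K) := by
        exact_mod_cast hs.memG K hK hKU i
      exact h4.integrable_norm_pow (by norm_num)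
    · rw [abs_of_nonneg (pow_nonneg (vn_nonneg _) 4)]
      exact vn4_le _
  have i3 : IntegrableOn (fun x => msq (M x)) K :=
    integrable_finsetSum _ fun i _ => integrable_finsetSum _ fun j _ =>
      (hs.memM K hK hKU i j).integrable_sq
  have i1' : IntegrableOn (fun x => 1 + vn (G x) ^ 4) K := ic.add i1
  have i5 : IntegrableOn (fun x => msq (M x) / vn (G x) + (1 + vn (G x) ^ 4)) K := hA.add i1'
  have i6 : IntegrableOn (fun x => 1 + vn (G x) ^ 4 + msq (M x)) K := i1'.add i3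
  have vb : ∀ x ∈ K, ∀ {f F : ℝ}, |f| ≤ F → |f * volDen g x| ≤ C * F := by
    intro x hx f F hf
    have a := hAt x hx
    rw [abs_mul, abs_of_nonneg a.vol0, mul_comm C]
    exact mul_le_mul hf a.vol a.vol0 ((abs_nonneg _).trans hf)
  refine ⟨i1, ?_, i3, hA, ?_, ?_, ?_, ?_, ?_⟩
  · refine dom hK (i1.const_mul (C * C ^ 4)) (((m_len S).pow_const 4).mul S.vol) fun x hx => ?_
    have a := hAt x hx
    have h1 : |len g x (G x) ^ 4| ≤ (C * vn (G x)) ^ 4 := by
      rw [abs_of_nonneg (pow_nonneg (len_nonneg _) 4)]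
      exact pow_le_pow_left₀ (len_nonneg _) (len_le a _) 4
    refine (vb x hx h1).trans (le_of_eq ?_)
    ring
  · refine dom hK (i6.const_mul (C * (1000 * C ^ 6))) ((m_flux S ε).mul S.vol) fun x hx => ?_
    refine (vb x hx (flux_le (hAt x hx) hε1 _ _)).trans (le_of_eq ?_)
    ring
  · refine dom hK (i5.const_mul (C * ((1 / ε + 1) * C ^ 13 * 2000000)))
      (((m_len S).mul (m_diss S ε)).mul S.vol) fun x hx => ?_
    refine (vb x hx (diss_le (hAt x hx) hε0 hε1 _ _)).trans (le_of_eq ?_)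
    ring
  · refine dom hK (i1'.const_mul (C * (10 * C ^ 4)))
      (((m_len S).mul (m_matter S)).mul S.vol) fun x hx => ?_
    refine (vb x hx (matter_le (hAt x hx) _)).trans (le_of_eq ?_)
    ring
  · exact dom hK (hA.const_mul 144) (m_Wd S) fun x _ => Wd_le _ _
  · refine dom hK (i5.const_mul (C * ((1 / ε + 1) * C ^ 13 * 1000000)))
      (((m_len S).mul (m_dis0 S ε)).mul S.vol) fun x hx => ?_
    refine (vb x hx (dis0_le (hAt x hx) hε0 hε1 _ _)).trans (le_of_eq ?_)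
    ring

end Pool.Agent.PFlow
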