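import Pool.Agent.PFlow.StmtsM

/-!
# The kernel estimate

The integral of `1 / |v + a|` over a ball of radius `r` is at most `C r³ / max(r, |v|)`.
-/

open MeasureTheory Filter Topology Set

namespace Pool.Agent.PFlow

open Pool.Agent.PenroseSph

namespace MKER

/-- The integral of `1 / |b|` over the unit ball. -/
noncomputable def I1 : ENNReal := ∫⁻ b in Metric.ball (0 : E3) 1, ENNReal.ofReal (1 / ‖b‖)

lemma meas_inv : Measurable (fun b : E3 => ENNReal.ofReal (1 / ‖b‖)) := by
  fun_prop

lemma finrank_E3 : Module.finrank ℝ E3 = 3 := by simp [E3]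

lemma I1_lt_top : I1 < ⊤ := by
  have hint : IntegrableOn (fun b : E3 => 1 / ‖b‖) (Metric.ball (0 : E3) 1) volume := by
    refine integrableOn_ball_of_norm_le_rpow (C := 1) (α := 1) ?_ ?_ ?_ ?_
    · rw [finrank_E3]; norm_num
    · rw [finrank_E3]; norm_num
    · refine Filter.Eventually.of_forall fun x => ?_
      rw [Real.rpow_neg_one]
      simp
    · exact (by fun_prop : Measurable (fun b : E3 => 1 / ‖b‖)).aestronglyMeasurable
  have h2 := hint.2
  rw [hasFiniteIntegral_iff_ofReal] at h2
  · exact h2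
  · exact Filter.Eventually.of_forall fun x => by positivity

lemma scale {R : ℝ} (hR : 0 < R) :
    ∫⁻ b in Metric.ball (0 : E3) R, ENNReal.ofReal (1 / ‖b‖) = ENNReal.ofReal (R ^ 2) * I1 := by
  have hmap := Measure.map_addHaar_smul (volume : Measure E3) hR.ne'
  rw [finrank_E3] at hmap
  have h1 : ∫⁻ b in Metric.ball (0 : E3) R, ENNReal.ofReal (1 / ‖b‖)
      ∂(Measure.map (fun x : E3 => R • x) volume)
      = ENNReal.ofReal (1 / R) * I1 := by
    rw [setLIntegral_map Metric.isOpen_ball.measurableSet meas_inv (by fun_prop)]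
    have hpre : (fun x : E3 => R • x) ⁻¹' Metric.ball (0 : E3) R = Metric.ball (0 : E3) 1 := by
      ext x
      simp only [mem_preimage, mem_ball_zero_iff, norm_smul, Real.norm_eq_abs, abs_of_pos hR]
      constructor
      · intro h
        by_contra h'
        push Not at h'
        nlinarith
      · intro h
        nlinarith
    rw [hpre, I1, ← lintegral_const_mul _ meas_inv]
    refine lintegral_congr fun x => ?_
    rw [← ENNReal.ofReal_mul (by positivity)]
    congr 1
    rw [norm_smul, Real.norm_eq_abs, abs_of_pos hR, one_div, one_div, one_div, mul_inv]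
  have h2 : ∫⁻ b in Metric.ball (0 : E3) R, ENNReal.ofReal (1 / ‖b‖)
      ∂(Measure.map (fun x : E3 => R • x) volume)
      = ENNReal.ofReal |(R ^ 3)⁻¹| * ∫⁻ b in Metric.ball (0 : E3) R, ENNReal.ofReal (1 / ‖b‖) := by
    have : (fun x : E3 => R • x) = (R • · : E3 → E3) := rfl
    rw [this, hmap, Measure.restrict_smul, lintegral_smul_measure, smul_eq_mul]
  have h3 : ENNReal.ofReal |(R ^ 3)⁻¹| * ∫⁻ b in Metric.ball (0 : E3) R, ENNReal.ofReal (1 / ‖b‖)
      = ENNReal.ofReal (1 / R) * I1 := by rw [← h2, h1]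
  have h4 : ENNReal.ofReal (R ^ 3) * (ENNReal.ofReal |(R ^ 3)⁻¹|
      * ∫⁻ b in Metric.ball (0 : E3) R, ENNReal.ofReal (1 / ‖b‖))
      = ENNReal.ofReal (R ^ 3) * (ENNReal.ofReal (1 / R) * I1) := by rw [h3]
  rw [← mul_assoc, ← mul_assoc, ← ENNReal.ofReal_mul (by positivity),
    ← ENNReal.ofReal_mul (by positivity), abs_of_pos (by positivity),
    mul_inv_cancel₀ (by positivity), ENNReal.ofReal_one, one_mul] at h4
  rw [h4]
  congr 2
  field_simp

lemma translate (r : ℝ) (v : E3) :
    ∫⁻ a in Metric.ball (0 : E3) r, ENNReal.ofReal (1 / ‖v + a‖)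
      = ∫⁻ b in Metric.ball v r, ENNReal.ofReal (1 / ‖b‖) := by
  have hmp : MeasurePreserving (fun a : E3 => v + a) volume volume :=
    measurePreserving_add_left volume v
  have h := hmp.setLIntegral_comp_preimage (s := Metric.ball v r)
    Metric.isOpen_ball.measurableSet meas_inv
  have hpre : (fun a : E3 => v + a) ⁻¹' Metric.ball v r = Metric.ball (0 : E3) r := by
    ext x
    simp [Metric.mem_ball, dist_eq_norm]
  rw [hpre] at h
  exact h

end MKER

open MKER in
theorem KER : Stmt_KER := by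
  have hI : I1 ≠ ⊤ := I1_lt_top.ne
  set V : ENNReal := volume (Metric.ball (0 : E3) 1) with hV
  have hVt : V ≠ ⊤ := measure_ball_lt_top.ne
  obtain ⟨W, hW, hVW⟩ : ∃ W : ℝ, 0 ≤ W ∧ V = ENNReal.ofReal W :=
    ⟨V.toReal, ENNReal.toReal_nonneg, (ENNReal.ofReal_toReal hVt).symm⟩
  obtain ⟨J, hJ, hIJ⟩ : ∃ J : ℝ, 0 ≤ J ∧ I1 = ENNReal.ofReal J :=
    ⟨I1.toReal, ENNReal.toReal_nonneg, (ENNReal.ofReal_toReal hI).symm⟩
  refine ⟨18 * J + 2 * W + 1, by positivity, ?_⟩
  intro r v hr
  have hmax : 0 < max r ‖v‖ := lt_of_lt_of_le hr (le_max_left _ _)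
  rcases le_or_gt (2 * r) ‖v‖ with h | h
  · -- far away
    have hv : 0 < ‖v‖ := by linarith
    have h1 : ∫⁻ a in Metric.ball (0 : E3) r, ENNReal.ofReal (1 / ‖v + a‖)
        ≤ ∫⁻ _ in Metric.ball (0 : E3) r, ENNReal.ofReal (2 / ‖v‖) := by
      refine setLIntegral_mono' Metric.isOpen_ball.measurableSet fun a ha => ?_
      refine ENNReal.ofReal_le_ofReal ?_
      have ha' : ‖a‖ < r := by simpa using ha
      have h3 : ‖v‖ - ‖a‖ ≤ ‖v + a‖ := by
        have := norm_sub_le (v + a) a
        rw [add_sub_cancel_right] at this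
        linarith
      have h4 : ‖v‖ / 2 ≤ ‖v + a‖ := by linarith
      rw [div_le_div_iff₀ (by linarith) hv]
      linarith
    refine h1.trans ?_
    rw [setLIntegral_const]
    have hball : volume (Metric.ball (0 : E3) r) = ENNReal.ofReal (r ^ 3) * V := by
      have := Measure.addHaar_ball_of_pos (volume : Measure E3) 0 hr
      rw [finrank_E3] at this
      exact this
    rw [hball, hVW, ← ENNReal.ofReal_mul (by positivity),
      ← ENNReal.ofReal_mul (by positivity)]
    refine ENNReal.ofReal_le_ofReal ?_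
    have hm : max r ‖v‖ = ‖v‖ := max_eq_right (by linarith)
    rw [hm, le_div_iff₀ hv]
    have hr3 : 0 < r ^ 3 := by positivity
    calc 2 / ‖v‖ * (r ^ 3 * W) * ‖v‖ = 2 * W * r ^ 3 := by
          field_simp
      _ ≤ _ := by
          refine mul_le_mul_of_nonneg_right ?_ hr3.le
          linarith
  · -- near
    rw [MKER.translate]
    have hsub : Metric.ball v r ⊆ Metric.ball (0 : E3) (3 * r) := by
      intro x hx
      rw [Metric.mem_ball, dist_eq_norm] at hx
      rw [mem_ball_zero_iff]
      have := norm_add_le (x - v) v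
      rw [sub_add_cancel] at this
      linarith
    refine (lintegral_mono_set hsub).trans ?_
    rw [scale (by positivity : (0 : ℝ) < 3 * r), hIJ,
      ← ENNReal.ofReal_mul (by positivity)]
    refine ENNReal.ofReal_le_ofReal ?_
    rw [le_div_iff₀ hmax]
    have hr3 : 0 < r ^ 3 := by positivity
    have hm : max r ‖v‖ ≤ 2 * r := max_le (by linarith) h.le
    calc (3 * r) ^ 2 * J * max r ‖v‖ ≤ (3 * r) ^ 2 * J * (2 * r) :=
          mul_le_mul_of_nonneg_left hm (by positivity)
      _ = 18 * J * r ^ 3 := by ring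
      _ ≤ _ := by
          refine mul_le_mul_of_nonneg_right ?_ hr3.le
          linarith

end Pool.Agent.PFlow
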