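import Pool.Agent.PFlow.StmtsM
import Pool.Agent.PenroseSph.Calc

/-!
# Module LD: the divergence of `|∇w| ∇w`, also at the critical points
-/

open MeasureTheory Filter Topology
open scoped ContDiff

namespace Pool.Agent.PFlow

open Pool.Agent.PenroseSph

namespace MLD

/-! ### Calculus -/

theorem contDiffAt_pd {f : E3 → ℝ} {x : E3} {n m : WithTop ℕ∞} (hf : ContDiffAt ℝ m f x)
    (hnm : n + 1 ≤ m) (i : Fin 3) : ContDiffAt ℝ n (pd i f) x := by
  have h1 : ContDiffAt ℝ n (fderiv ℝ f) x := hf.fderiv_right hnm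
  exact h1.clm_apply contDiffAt_const

/-- Differentiability of the determinant. -/
theorem differentiableAt_det {M : E3 → Bil} {x : E3}
    (hM : ∀ i j, DifferentiableAt ℝ (fun y => M y i j) x) :
    DifferentiableAt ℝ (fun y => (M y).det) x := by
  simp only [Matrix.det_fin_three]
  fun_prop (disch := assumption)

/-- Differentiability of the entries of the inverse matrix. -/
theorem differentiableAt_inv {M : E3 → Bil} {x : E3}
    (hM : ∀ i j, DifferentiableAt ℝ (fun y => M y i j) x) (hdet : (M x).det ≠ 0)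
    (k l : Fin 3) : DifferentiableAt ℝ (fun y => (M y)⁻¹ k l) x := by
  have hd := differentiableAt_det hM
  have ha : DifferentiableAt ℝ (fun y => (M y).adjugate k l) x := by
    simp only [Matrix.adjugate_fin_three]
    fin_cases k <;> fin_cases l <;>
      simp <;> fun_prop
  have h1 : (fun y => (M y)⁻¹ k l) = fun y => ((M y).det)⁻¹ * (M y).adjugate k l := by
    funext y
    rw [Matrix.inv_def, Ring.inverse_eq_inv', Matrix.smul_apply, smul_eq_mul]
  rw [h1]
  exact (hd.inv hdet).mul ha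

theorem pd_mul3 {f1 f2 f3 : E3 → ℝ} {x : E3} (k : Fin 3) (h1 : DifferentiableAt ℝ f1 x)
    (h2 : DifferentiableAt ℝ f2 x) (h3 : DifferentiableAt ℝ f3 x) :
    pd k (fun y => f1 y * f2 y * f3 y) x
      = pd k f1 x * f2 x * f3 x + f1 x * pd k f2 x * f3 x + f1 x * f2 x * pd k f3 x := by
  rw [pd_mul (h1.fun_mul h2) h3, pd_mul h1 h2]
  ring

/-- Jacobi's formula for a 3 by 3 matrix of functions. -/
theorem jacobi (G : TensorField) (x : E3) (k : Fin 3)
    (hd : ∀ i j, DifferentiableAt ℝ (fun y => G y i j) x) (hdet : (G x).det ≠ 0) :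
    ∑ i, ∑ l, (G x)⁻¹ i l * pd k (fun y => G y l i) x
      = pd k (fun y => (G y).det) x / (G x).det := by
  have h1 : (fun y => (G y).det) = fun y => G y 0 0 * G y 1 1 * G y 2 2 - G y 0 0 * G y 1 2 * G y 2 1
      - G y 0 1 * G y 1 0 * G y 2 2 + G y 0 1 * G y 1 2 * G y 2 0
      + G y 0 2 * G y 1 0 * G y 2 1 - G y 0 2 * G y 1 1 * G y 2 0 := by
    funext y
    exact Matrix.det_fin_three (G y)
  have d3 : ∀ a b c d e f : Fin 3, DifferentiableAt ℝ (fun y => G y a b * G y c d * G y e f) x :=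
    fun a b c d e f => ((hd a b).fun_mul (hd c d)).fun_mul (hd e f)
  have e1 := (d3 0 0 1 1 2 2).fun_sub (d3 0 0 1 2 2 1)
  have e2 := e1.fun_sub (d3 0 1 1 0 2 2)
  have e3 := e2.fun_add (d3 0 1 1 2 2 0)
  have e4 := e3.fun_add (d3 0 2 1 0 2 1)
  have hdx := Matrix.det_fin_three (G x)
  obtain ⟨p, hp⟩ : ∃ p : Fin 3 → Fin 3 → ℝ, p = fun i j => pd k (fun y => G y i j) x := ⟨_, rfl⟩
  have hp' : ∀ i j, pd k (fun y => G y i j) x = p i j := fun i j => by rw [hp]
  have h3 : pd k (fun y => (G y).det) x = (p 0 0 * G x 1 1 * G x 2 2 + G x 0 0 * p 1 1 * G x 2 2 + G x 0 0 * G x 1 1 * p 2 2)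
        - (p 0 0 * G x 1 2 * G x 2 1 + G x 0 0 * p 1 2 * G x 2 1 + G x 0 0 * G x 1 2 * p 2 1)
        - (p 0 1 * G x 1 0 * G x 2 2 + G x 0 1 * p 1 0 * G x 2 2 + G x 0 1 * G x 1 0 * p 2 2)
        + (p 0 1 * G x 1 2 * G x 2 0 + G x 0 1 * p 1 2 * G x 2 0 + G x 0 1 * G x 1 2 * p 2 0)
        + (p 0 2 * G x 1 0 * G x 2 1 + G x 0 2 * p 1 0 * G x 2 1 + G x 0 2 * G x 1 0 * p 2 1)
        - (p 0 2 * G x 1 1 * G x 2 0 + G x 0 2 * p 1 1 * G x 2 0 + G x 0 2 * G x 1 1 * p 2 0) := by
    rw [h1, pd_sub e4 (d3 0 2 1 1 2 0), pd_add e3 (d3 0 2 1 0 2 1), pd_add e2 (d3 0 1 1 2 2 0),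
      pd_sub e1 (d3 0 1 1 0 2 2), pd_sub (d3 0 0 1 1 2 2) (d3 0 0 1 2 2 1),
      pd_mul3 k (hd 0 0) (hd 1 1) (hd 2 2), pd_mul3 k (hd 0 0) (hd 1 2) (hd 2 1),
      pd_mul3 k (hd 0 1) (hd 1 0) (hd 2 2), pd_mul3 k (hd 0 1) (hd 1 2) (hd 2 0),
      pd_mul3 k (hd 0 2) (hd 1 0) (hd 2 1), pd_mul3 k (hd 0 2) (hd 1 1) (hd 2 0)]
    simp only [hp']
  rw [h3, Matrix.inv_def, Ring.inverse_eq_inv', Matrix.adjugate_fin_three]
  simp only [hp']
  rw [eq_div_iff hdet]
  simp only [Fin.sum_univ_three, Matrix.smul_apply, smul_eq_mul, Matrix.of_apply]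
  simp
  field_simp
  ring

/-! ### The metric -/

variable {U : Set E3} {g : TensorField} {w : E3 → ℝ} {x : E3}

theorem smooth_g (hU : IsOpen U) (hg : MetricOn U g) (hx : x ∈ U) (i j : Fin 3) :
    ContDiffAt ℝ ∞ (fun y => g y i j) x := (hg.smooth i j).contDiffAt (hU.mem_nhds hx)

theorem diff_g (hU : IsOpen U) (hg : MetricOn U g) (hx : x ∈ U) (i j : Fin 3) :
    DifferentiableAt ℝ (fun y => g y i j) x :=
  (smooth_g hU hg hx i j).differentiableAt (by simp)

theorem symm_g (hg : MetricOn U g) (hx : x ∈ U) (i j : Fin 3) : g x i j = g x j i := by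
  have h := (hg.posDef x hx).isHermitian.apply i j
  simpa using h.symm

theorem det_pos (hg : MetricOn U g) (hx : x ∈ U) : 0 < (g x).det := (hg.posDef x hx).det_pos

theorem symm_inv (hg : MetricOn U g) (hx : x ∈ U) (i j : Fin 3) : (g x)⁻¹ i j = (g x)⁻¹ j i := by
  have h := (hg.posDef x hx).inv.isHermitian.apply i j
  simpa using h.symm

theorem pd_symm (hU : IsOpen U) (hg : MetricOn U g) (hx : x ∈ U) (k i j : Fin 3) :
    pd k (fun y => g y i j) x = pd k (fun y => g y j i) x := by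
  apply pd_congr
  filter_upwards [hU.mem_nhds hx] with y hy
  exact symm_g hg hy i j

theorem chr_symm (hU : IsOpen U) (hg : MetricOn U g) (hx : x ∈ U) (k i j : Fin 3) :
    christoffel g k i j x = christoffel g k j i x := by
  unfold christoffel
  congr 1
  refine Finset.sum_congr rfl fun l _ => ?_
  rw [pd_symm hU hg hx l i j]
  ring

/-- Lowering the index of a Christoffel symbol. -/
theorem lower (G : TensorField) (X : E3) (hdet : (G X).det ≠ 0) (c a b : Fin 3) :
    ∑ d, G X c d * christoffel G d a b X = (1 / 2) * (pd a (fun y => G y b c) X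
      + pd b (fun y => G y a c) X - pd c (fun y => G y a b) X) := by
  have h1 : ∀ c l, ∑ d, G X c d * (G X)⁻¹ d l = if c = l then 1 else 0 := by
    intro c l
    have h2 := congrFun (congrFun (Matrix.mul_nonsing_inv (G X) (Ne.isUnit hdet)) c) l
    rw [Matrix.mul_apply, Matrix.one_apply] at h2
    exact h2
  unfold christoffel
  have h3 : ∑ d, G X c d * (1 / 2 * ∑ l, (G X)⁻¹ d l * (pd a (fun y => G y b l) X
      + pd b (fun y => G y a l) X - pd l (fun y => G y a b) X)) =
      1 / 2 * ∑ l, (∑ d, G X c d * (G X)⁻¹ d l) * (pd a (fun y => G y b l) X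
      + pd b (fun y => G y a l) X - pd l (fun y => G y a b) X) := by
    simp only [Finset.mul_sum, Finset.sum_mul]
    rw [Finset.sum_comm]
    refine Finset.sum_congr rfl fun l _ => Finset.sum_congr rfl fun d _ => ?_
    ring
  rw [h3]
  simp only [h1]
  simp

/-- The matrix `Γ^i_kl` for fixed `k`. -/
noncomputable def CC (g : TensorField) (x : E3) (k : Fin 3) : Bil :=
  Matrix.of fun i l => christoffel g i k l x

/-- The matrix of the derivatives of the metric. -/
noncomputable def dG (g : TensorField) (x : E3) (k : Fin 3) : Bil :=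
  Matrix.of fun i j => pd k (fun y => g y i j) x

theorem dG_eq (hU : IsOpen U) (hg : MetricOn U g) (hx : x ∈ U) (k : Fin 3) :
    dG g x k = g x * CC g x k + (CC g x k).transpose * g x := by
  ext i j
  rw [Matrix.add_apply, Matrix.mul_apply, Matrix.mul_apply]
  have h1 := lower g x (det_pos hg hx).ne' i k j
  have h2 := lower g x (det_pos hg hx).ne' j k i
  have h3 : ∑ d, (CC g x k).transpose i d * g x d j = ∑ d, g x j d * christoffel g d k i x := by
    refine Finset.sum_congr rfl fun d _ => ?_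
    rw [Matrix.transpose_apply, CC, Matrix.of_apply, symm_g hg hx d j, mul_comm]
  rw [h3, h2]
  change pd k (fun y => g y i j) x = ∑ d, g x i d * christoffel g d k j x + _
  rw [h1, pd_symm hU hg hx k j i]
  ring

theorem dP_eq (hU : IsOpen U) (hg : MetricOn U g) (hx : x ∈ U) (k : Fin 3) :
    (Matrix.of fun i j => pd k (fun y => (g y)⁻¹ i j) x : Bil) =
      -(CC g x k * (g x)⁻¹ + (g x)⁻¹ * (CC g x k).transpose) := by
  have hdet := (det_pos hg hx).ne'
  have hgd := diff_g hU hg hx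
  have hPd := differentiableAt_inv hgd hdet
  have h1 : (Matrix.of fun i j => pd k (fun y => (g y)⁻¹ i j) x : Bil) * g x
      + (g x)⁻¹ * dG g x k = 0 := by
    ext i j
    rw [Matrix.add_apply, Matrix.mul_apply, Matrix.mul_apply, ← Finset.sum_add_distrib,
      Matrix.zero_apply]
    have h2 : pd k (fun y => ∑ l, (g y)⁻¹ i l * g y l j) x = 0 := by
      have h3 : (fun y => ∑ l, (g y)⁻¹ i l * g y l j) =ᶠ[𝓝 x]
          fun _ => (1 : Bil) i j := by
        filter_upwards [hU.mem_nhds hx] with y hy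
        rw [← Matrix.mul_apply, Matrix.nonsing_inv_mul _ (Ne.isUnit (det_pos hg hy).ne')]
      rw [pd_congr h3, pd_const]
    rw [pd_sum Finset.univ (fun l y => (g y)⁻¹ i l * g y l j)
      (fun l _ => (hPd i l).mul (hgd l j))] at h2
    rw [← h2]
    refine Finset.sum_congr rfl fun l _ => ?_
    rw [pd_mul (hPd i l) (hgd l j)]
    simp only [Matrix.of_apply, dG]
    ring
  have hGP : g x * (g x)⁻¹ = 1 := Matrix.mul_nonsing_inv _ (Ne.isUnit hdet)
  have hPG : (g x)⁻¹ * g x = 1 := Matrix.nonsing_inv_mul _ (Ne.isUnit hdet)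
  have h4 := congrArg (fun T => T * (g x)⁻¹) h1
  simp only [Matrix.add_mul, Matrix.zero_mul] at h4
  rw [Matrix.mul_assoc, hGP, Matrix.mul_one, dG_eq hU hg hx k, Matrix.mul_add, Matrix.add_mul,
    ← Matrix.mul_assoc, hPG, Matrix.one_mul, ← Matrix.mul_assoc (g x)⁻¹, Matrix.mul_assoc _ (g x),
    hGP, Matrix.mul_one] at h4
  exact eq_neg_of_add_eq_zero_left h4

theorem dP_apply (hU : IsOpen U) (hg : MetricOn U g) (hx : x ∈ U) (k i j : Fin 3) :
    pd k (fun y => (g y)⁻¹ i j) x = -(∑ l, christoffel g i k l x * (g x)⁻¹ l j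
      + ∑ l, (g x)⁻¹ i l * christoffel g j k l x) := by
  have h := congrFun (congrFun (dP_eq hU hg hx k) i) j
  rw [Matrix.neg_apply, Matrix.add_apply, Matrix.mul_apply, Matrix.mul_apply] at h
  exact h

theorem diff_vol (hU : IsOpen U) (hg : MetricOn U g) (hx : x ∈ U) :
    DifferentiableAt ℝ (volDen g) x := by
  unfold volDen
  exact (differentiableAt_det (diff_g hU hg hx)).sqrt (det_pos hg hx).ne'

theorem pd_vol (hU : IsOpen U) (hg : MetricOn U g) (hx : x ∈ U) (k : Fin 3) :
    pd k (volDen g) x = volDen g x * ∑ l, christoffel g l k l x := by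
  have hpos := det_pos hg hx
  have hdet := hpos.ne'
  have hd := differentiableAt_det (diff_g hU hg hx)
  have h1 : pd k (volDen g) x = pd k (fun y => (g y).det) x / (2 * Real.sqrt (g x).det) := by
    unfold pd volDen
    rw [(hd.hasFDerivAt.sqrt hdet).fderiv]
    simp only [ContinuousLinearMap.smul_apply, smul_eq_mul]
    ring
  have h2 := jacobi g x k (diff_g hU hg hx) hdet
  have h3 : ∑ i, ∑ l, (g x)⁻¹ i l * pd k (fun y => g y l i) x
      = 2 * ∑ l, christoffel g l k l x := by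
    have h4 : ∑ i, ∑ l, (g x)⁻¹ i l * pd k (fun y => g y l i) x
        = ((g x)⁻¹ * dG g x k).trace := by
      simp only [Matrix.trace, Matrix.diag_apply, Matrix.mul_apply, dG, Matrix.of_apply]
    have h5 : (CC g x k).trace = ∑ l, christoffel g l k l x := by
      simp only [Matrix.trace, Matrix.diag_apply, CC, Matrix.of_apply]
    rw [h4, dG_eq hU hg hx k, Matrix.mul_add, Matrix.trace_add, ← Matrix.mul_assoc,
      Matrix.nonsing_inv_mul _ (Ne.isUnit hdet), Matrix.one_mul,
      Matrix.trace_mul_comm ((g x)⁻¹) _, Matrix.mul_assoc,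
      Matrix.mul_nonsing_inv _ (Ne.isUnit hdet), Matrix.mul_one, Matrix.trace_transpose, h5]
    ring
  rw [h3, eq_div_iff hdet] at h2
  have hs : 0 < Real.sqrt (g x).det := Real.sqrt_pos.2 hpos
  have hss : Real.sqrt (g x).det * Real.sqrt (g x).det = (g x).det :=
    Real.mul_self_sqrt hpos.le
  rw [h1, ← h2]
  change _ = Real.sqrt (g x).det * _
  rw [div_eq_iff (by positivity)]
  calc 2 * (∑ l, christoffel g l k l x) * (g x).det
      = 2 * (∑ l, christoffel g l k l x) * (Real.sqrt (g x).det * Real.sqrt (g x).det) := by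
        rw [hss]
    _ = _ := by ring

/-! ### The function -/

theorem le2 : (2 : WithTop ℕ∞) ≤ ∞ :=
  show ((2 : ℕ∞) : WithTop ℕ∞) ≤ ((⊤ : ℕ∞) : WithTop ℕ∞) from WithTop.coe_le_coe.2 le_top

theorem diff_pd (hU : IsOpen U) (hw : ContDiffOn ℝ ∞ w U) (hx : x ∈ U) (j : Fin 3) :
    DifferentiableAt ℝ (pd j w) x := by
  have h1 : ContDiffAt ℝ 2 w x := (hw.contDiffAt (hU.mem_nhds hx)).of_le le2
  exact (contDiffAt_pd h1 (n := 1) (by norm_num) j).differentiableAt (by norm_num)

theorem algQ (P : Fin 3 → Fin 3 → ℝ) (hP : ∀ a b, P a b = P b a) (Γ : Fin 3 → Fin 3 → ℝ)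
    (S p : Fin 3 → ℝ) :
    ∑ a, ∑ b, (-(∑ l, Γ a l * P l b + ∑ l, P a l * Γ b l) * p a * p b + P a b * S a * p b
      + P a b * p a * S b) = 2 * ∑ j, (S j - ∑ k, Γ k j * p k) * ∑ l, P j l * p l := by
  simp only [Fin.sum_univ_three, hP 1 0, hP 2 0, hP 2 1]
  ring

theorem algX (P : Fin 3 → Fin 3 → ℝ) (Γ : Fin 3 → Fin 3 → Fin 3 → ℝ)
    (hΓ : ∀ k i j, Γ k i j = Γ k j i) (S : Fin 3 → Fin 3 → ℝ) (p : Fin 3 → ℝ) (v : ℝ) :
    ∑ i, (v * (∑ j, (P i j * S i j + p j * -(∑ l, Γ i i l * P l j + ∑ l, P i l * Γ j i l)))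
      + (∑ j, P i j * p j) * (v * ∑ l, Γ l i l))
      = v * ∑ i, ∑ j, P i j * (S i j - ∑ k, Γ k i j * p k) := by
  simp only [Fin.sum_univ_three, hΓ _ 1 0, hΓ _ 2 0, hΓ _ 2 1]
  ring

/-- The derivative of `|dw|²`. -/
theorem pd_Q (hU : IsOpen U) (hg : MetricOn U g) (hw : ContDiffOn ℝ ∞ w U) (hx : x ∈ U)
    (i : Fin 3) :
    DifferentiableAt ℝ (fun y => ev (g y)⁻¹ (grad w y) (grad w y)) x ∧
    pd i (fun y => ev (g y)⁻¹ (grad w y) (grad w y)) x
      = 2 * app (g x)⁻¹ (cHess g x (grad w x) (hess2 w x)) (grad w x) i := by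
  have hdet := (det_pos hg hx).ne'
  have hPd := differentiableAt_inv (diff_g hU hg hx) hdet
  have hwd := diff_pd hU hw hx
  have h3 : ∀ a b, DifferentiableAt ℝ (fun y => (g y)⁻¹ a b * pd a w y * pd b w y) x :=
    fun a b => ((hPd a b).fun_mul (hwd a)).fun_mul (hwd b)
  have h4 : ∀ a, DifferentiableAt ℝ (fun y => ∑ b, (g y)⁻¹ a b * pd a w y * pd b w y) x :=
    fun a => DifferentiableAt.fun_sum fun b _ => h3 a b
  have h0 : (fun y => ev (g y)⁻¹ (grad w y) (grad w y)) =
      fun y => ∑ a, ∑ b, (g y)⁻¹ a b * pd a w y * pd b w y := rfl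
  rw [h0]
  refine ⟨DifferentiableAt.fun_sum fun a _ => h4 a, ?_⟩
  rw [pd_sum Finset.univ (fun a y => ∑ b, (g y)⁻¹ a b * pd a w y * pd b w y) (fun a _ => h4 a)]
  have h5 : ∀ a, pd i (fun y => ∑ b, (g y)⁻¹ a b * pd a w y * pd b w y) x =
      ∑ b, (-(∑ l, christoffel g a i l x * (g x)⁻¹ l b
      + ∑ l, (g x)⁻¹ a l * christoffel g b i l x) * pd a w x * pd b w x
      + (g x)⁻¹ a b * pd i (pd a w) x * pd b w x
      + (g x)⁻¹ a b * pd a w x * pd i (pd b w) x) := by
    intro a
    rw [pd_sum Finset.univ (fun b y => (g y)⁻¹ a b * pd a w y * pd b w y) (fun b _ => h3 a b)]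
    refine Finset.sum_congr rfl fun b _ => ?_
    rw [pd_mul3 i (hPd a b) (hwd a) (hwd b), dP_apply hU hg hx i a b]
  rw [Finset.sum_congr rfl fun a _ => h5 a]
  exact algQ (fun a b => (g x)⁻¹ a b) (fun a b => symm_inv hg hx a b)
    (fun a l => christoffel g a i l x) (fun a => pd i (pd a w) x) (fun a => pd a w x)

/-- The field `vol P dw`. -/
noncomputable def X (g : TensorField) (w : E3 → ℝ) (i : Fin 3) (y : E3) : ℝ :=
  volDen g y * ∑ j, (g y)⁻¹ i j * pd j w y

theorem diff_X (hU : IsOpen U) (hg : MetricOn U g) (hw : ContDiffOn ℝ ∞ w U) (hx : x ∈ U)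
    (i : Fin 3) : DifferentiableAt ℝ (X g w i) x := by
  have hdet := (det_pos hg hx).ne'
  have hPd := differentiableAt_inv (diff_g hU hg hx) hdet
  have hwd := diff_pd hU hw hx
  exact (diff_vol hU hg hx).mul (DifferentiableAt.fun_sum fun j _ => (hPd i j).fun_mul (hwd j))

theorem div_X (hU : IsOpen U) (hg : MetricOn U g) (hw : ContDiffOn ℝ ∞ w U) (hx : x ∈ U) :
    ∑ i, pd i (X g w i) x
      = volDen g x * tr2 (g x)⁻¹ (cHess g x (grad w x) (hess2 w x)) := by
  have hdet := (det_pos hg hx).ne'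
  have hPd := differentiableAt_inv (diff_g hU hg hx) hdet
  have hwd := diff_pd hU hw hx
  have h1 : ∀ i, pd i (X g w i) x =
      volDen g x * (∑ j, ((g x)⁻¹ i j * pd i (pd j w) x + pd j w x *
        -(∑ l, christoffel g i i l x * (g x)⁻¹ l j + ∑ l, (g x)⁻¹ i l * christoffel g j i l x)))
      + (∑ j, (g x)⁻¹ i j * pd j w x) * (volDen g x * ∑ l, christoffel g l i l x) := by
    intro i
    unfold X
    have h2 : ∀ j, DifferentiableAt ℝ (fun y => (g y)⁻¹ i j * pd j w y) x := fun j =>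
      (hPd i j).fun_mul (hwd j)
    rw [pd_mul (diff_vol hU hg hx) (DifferentiableAt.fun_sum fun j _ => h2 j),
      pd_sum Finset.univ (fun j y => (g y)⁻¹ i j * pd j w y) (fun j _ => h2 j), pd_vol hU hg hx]
    congr 2
    refine Finset.sum_congr rfl fun j _ => ?_
    rw [pd_mul (hPd i j) (hwd j), dP_apply hU hg hx i i j]
  rw [Finset.sum_congr rfl fun i _ => h1 i]
  exact algX (fun a b => (g x)⁻¹ a b) (fun a b c => christoffel g a b c x)
    (fun a b c => chr_symm hU hg hx a b c) (fun a b => pd a (pd b w) x) (fun a => pd a w x)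
    (volDen g x)

theorem field_eq (g : TensorField) (w : E3 → ℝ) (i : Fin 3) :
    (fun y => volDen g y * up (g y)⁻¹ (fun j => len g y (grad w y) * grad w y j) i) =
      fun y => len g y (grad w y) * X g w i y := by
  funext y
  unfold up X
  have h1 : ∑ j, (g y)⁻¹ i j * (len g y (grad w y) * grad w y j) =
      len g y (grad w y) * ∑ j, (g y)⁻¹ i j * pd j w y := by
    rw [Finset.mul_sum]
    refine Finset.sum_congr rfl fun j _ => ?_
    change (g y)⁻¹ i j * (len g y (grad w y) * pd j w y) = _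
    ring
  rw [h1]
  ring

/-- The product of a continuous and a differentiable function that vanish at a point. -/
theorem fderiv_mul_zero {f F : E3 → ℝ} {x : E3} (hf : ContinuousAt f x) (hf0 : f x = 0)
    (hF : DifferentiableAt ℝ F x) (hF0 : F x = 0) (i : Fin 3) :
    pd i (fun y => f y * F y) x = 0 := by
  have h1 : HasFDerivAt (fun y => f y * F y) (0 : E3 →L[ℝ] ℝ) x := by
    rw [hasFDerivAt_iff_isLittleO]
    have h2 : (fun y => F y) =O[𝓝 x] fun y => y - x := by
      have h3 := hF.isBigO_sub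
      simpa [hF0] using h3
    have h4 : (fun y => f y) =o[𝓝 x] fun _ => (1 : ℝ) := by
      rw [Asymptotics.isLittleO_one_iff]
      rw [← hf0]
      exact hf
    have h5 := h4.mul_isBigO h2.norm_right
    have h6 : (fun y => f y * F y) =o[𝓝 x] fun y => y - x := by
      refine Asymptotics.IsLittleO.of_norm_right ?_
      simpa using h5
    simpa [hf0, hF0] using h6
  unfold pd
  rw [h1.fderiv]
  rfl

theorem ev_pos (hg : MetricOn U g) (hx : x ∈ U) (p : Cov) (hp : p ≠ 0) :
    0 < ev (g x)⁻¹ p p := by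
  have h := (hg.posDef x hx).inv.dotProduct_mulVec_pos hp
  have h2 : ev (g x)⁻¹ p p = star p ⬝ᵥ ((g x)⁻¹.mulVec p) := by
    unfold ev dotProduct Matrix.mulVec dotProduct
    refine Finset.sum_congr rfl fun i _ => ?_
    rw [Finset.mul_sum]
    refine Finset.sum_congr rfl fun j _ => ?_
    simp only [star_trivial]
    ring
  rw [h2]
  exact h

end MLD

open MLD in
theorem LD : Stmt_LD := by
  intro U g w hU hg hw x hx
  obtain ⟨hQd, -⟩ := pd_Q hU hg hw hx 0
  have hlen : (fun y => len g y (grad w y)) =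
      fun y => Real.sqrt (ev (g y)⁻¹ (grad w y) (grad w y)) := rfl
  have hcont : ContinuousAt (fun y => len g y (grad w y)) x := by
    rw [hlen]
    exact hQd.continuousAt.sqrt
  by_cases hp : grad w x = 0
  · have h0 : len g x (grad w x) = 0 := by
      rw [hp]
      simp [len, ev]
    have h1 : lp (g x)⁻¹ (grad w x) = 0 := h0
    rw [h1, mul_zero, zero_mul, add_zero, mul_zero]
    refine Finset.sum_eq_zero fun i _ => ?_
    rw [field_eq]
    refine fderiv_mul_zero hcont h0 (diff_X hU hg hw hx i) ?_ i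
    unfold X
    have h2 : ∀ j, pd j w x = 0 := fun j => congrFun hp j
    simp [h2]
  · have hQ := ev_pos hg hx _ hp
    set Q := ev (g x)⁻¹ (grad w x) (grad w x) with hQdef
    have hs : 0 < Real.sqrt Q := Real.sqrt_pos.2 hQ
    have hss : Real.sqrt Q * Real.sqrt Q = Q := Real.mul_self_sqrt hQ.le
    have hld : DifferentiableAt ℝ (fun y => len g y (grad w y)) x := by
      rw [hlen]
      exact hQd.sqrt hQ.ne'
    have hpl : ∀ i, pd i (fun y => len g y (grad w y)) x =
        app (g x)⁻¹ (cHess g x (grad w x) (hess2 w x)) (grad w x) i / Real.sqrt Q := by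
      intro i
      obtain ⟨hQd', hQi⟩ := pd_Q hU hg hw hx i
      rw [hlen]
      have h2 : pd i (fun y => Real.sqrt (ev (g y)⁻¹ (grad w y) (grad w y))) x =
          pd i (fun y => ev (g y)⁻¹ (grad w y) (grad w y)) x / (2 * Real.sqrt Q) := by
        unfold pd
        rw [(hQd'.hasFDerivAt.sqrt hQ.ne').fderiv]
        simp only [ContinuousLinearMap.smul_apply, smul_eq_mul]
        ring
      rw [h2, hQi]
      field_simp
    have h3 : ∀ i, pd i (fun y => volDen g y *
        up (g y)⁻¹ (fun j => len g y (grad w y) * grad w y j) i) x =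
        Real.sqrt Q * pd i (X g w i) x + X g w i x *
          (app (g x)⁻¹ (cHess g x (grad w x) (hess2 w x)) (grad w x) i / Real.sqrt Q) := by
      intro i
      rw [field_eq, pd_mul hld (diff_X hU hg hw hx i), hpl i]
      rfl
    rw [Finset.sum_congr rfl fun i _ => h3 i, Finset.sum_add_distrib, ← Finset.mul_sum,
      div_X hU hg hw hx]
    have h4 : ∑ i, X g w i x *
          (app (g x)⁻¹ (cHess g x (grad w x) (hess2 w x)) (grad w x) i / Real.sqrt Q) =
        volDen g x * (qf (g x)⁻¹ (cHess g x (grad w x) (hess2 w x)) (grad w x) /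
          Real.sqrt Q) := by
      unfold qf ev app X
      rw [Finset.sum_div, Finset.mul_sum]
      refine Finset.sum_congr rfl fun i _ => ?_
      have h5 : ∑ j, (g x)⁻¹ i j * pd j w x = up (g x)⁻¹ (grad w x) i := rfl
      rw [h5, Finset.sum_div, Finset.sum_div, Finset.mul_sum, Finset.mul_sum]
      refine Finset.sum_congr rfl fun j _ => ?_
      ring
    rw [h4]
    have h6 : lp (g x)⁻¹ (grad w x) = Real.sqrt Q := rfl
    rw [h6]
    have h7 : nn (g x)⁻¹ (cHess g x (grad w x) (hess2 w x)) (grad w x) =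
        qf (g x)⁻¹ (cHess g x (grad w x) (hess2 w x)) (grad w x) / (Real.sqrt Q * Real.sqrt Q) := by
      unfold nn
      rw [hss]
    rw [h7]
    field_simp
    ring

end Pool.Agent.PFlow
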