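import Pool.Agent.PFlow.StmtsM

/-!
# The logarithm of the solution

`w = -ε log u` is of class `H²` and solves the equation of `w`.
-/

open MeasureTheory Filter Topology
open scoped ContDiff ENNReal

namespace Pool.Agent.PFlow

open Pool.Agent.PenroseSph

namespace MLOGW

/-! ## Convergence in `L^p` -/

/-- Convergence in `L^p` of measurable functions. -/
def Cv (μ : Measure E3) (p : ℝ≥0∞) (f : ℕ → E3 → ℝ) (f' : E3 → ℝ) : Prop :=
  (∀ n, AEStronglyMeasurable (f n) μ) ∧ MemLp f' p μ ∧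
    Tendsto (fun n => eLpNorm (fun x => f n x - f' x) p μ) atTop (𝓝 0)

theorem eLp_mul_le {μ : Measure E3} {p q r : ℝ≥0∞} [ENNReal.HolderTriple p q r]
    {f g : E3 → ℝ} (hf : AEStronglyMeasurable f μ) (hg : AEStronglyMeasurable g μ) :
    eLpNorm (fun x => f x * g x) r μ ≤ eLpNorm f p μ * eLpNorm g q μ := by
  have h := eLpNorm_smul_le_mul_eLpNorm (p := p) (q := q) (r := r) hg hf
  have e : f • g = fun x => f x * g x := by
    funext x
    simp only [Pi.smul_apply', smul_eq_mul]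
  rw [e] at h
  exact h

theorem Cv.mul {μ : Measure E3} {p q r : ℝ≥0∞} [ENNReal.HolderTriple p q r] (hr : 1 ≤ r)
    {f g : ℕ → E3 → ℝ} {f' g' : E3 → ℝ} (hf : Cv μ p f f') (hg : Cv μ q g g') :
    Cv μ r (fun n x => f n x * g n x) (fun x => f' x * g' x) := by
  obtain ⟨hf1, hf2, hf3⟩ := hf
  obtain ⟨hg1, hg2, hg3⟩ := hg
  refine ⟨fun n => (hf1 n).mul (hg1 n), MemLp.mul' hg2 hf2, ?_⟩
  have hb : ∀ n, eLpNorm (fun x => f n x * g n x - f' x * g' x) r μ
      ≤ eLpNorm (fun x => f n x - f' x) p μ * eLpNorm (fun x => g n x - g' x) q μ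
        + eLpNorm (fun x => f n x - f' x) p μ * eLpNorm g' q μ
        + eLpNorm f' p μ * eLpNorm (fun x => g n x - g' x) q μ := by
    intro n
    have hfn : AEStronglyMeasurable (fun x => f n x - f' x) μ := (hf1 n).sub hf2.1
    have hgn : AEStronglyMeasurable (fun x => g n x - g' x) μ := (hg1 n).sub hg2.1
    have e : (fun x => f n x * g n x - f' x * g' x)
        = ((fun x => (f n x - f' x) * (g n x - g' x)) + (fun x => (f n x - f' x) * g' x))
          + (fun x => f' x * (g n x - g' x)) := by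
      funext x
      simp only [Pi.add_apply]
      ring
    rw [e]
    refine (eLpNorm_add_le ((hfn.mul hgn).add (hfn.mul hg2.1)) (hf2.1.mul hgn) hr).trans ?_
    refine add_le_add ((eLpNorm_add_le (hfn.mul hgn) (hfn.mul hg2.1) hr).trans
      (add_le_add (eLp_mul_le hfn hgn) (eLp_mul_le hfn hg2.1))) (eLp_mul_le hf2.1 hgn)
  refine tendsto_of_tendsto_of_tendsto_of_le_of_le tendsto_const_nhds ?_
    (fun n => zero_le) hb
  have h1 : Tendsto (fun n => eLpNorm (fun x => f n x - f' x) p μ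
      * eLpNorm (fun x => g n x - g' x) q μ) atTop (𝓝 (0 * 0)) :=
    ENNReal.Tendsto.mul hf3 (Or.inr ENNReal.zero_ne_top) hg3 (Or.inr ENNReal.zero_ne_top)
  have h2 : Tendsto (fun n => eLpNorm (fun x => f n x - f' x) p μ * eLpNorm g' q μ) atTop
      (𝓝 (0 * eLpNorm g' q μ)) :=
    ENNReal.Tendsto.mul_const hf3 (Or.inr hg2.2.ne)
  have h3 : Tendsto (fun n => eLpNorm f' p μ * eLpNorm (fun x => g n x - g' x) q μ) atTop
      (𝓝 (eLpNorm f' p μ * 0)) :=
    ENNReal.Tendsto.const_mul hg3 (Or.inr hf2.2.ne)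
  have h := (h1.add h2).add h3
  simpa using h

theorem Cv.sub {μ : Measure E3} {p : ℝ≥0∞} (hp : 1 ≤ p)
    {f g : ℕ → E3 → ℝ} {f' g' : E3 → ℝ} (hf : Cv μ p f f') (hg : Cv μ p g g') :
    Cv μ p (fun n x => f n x - g n x) (fun x => f' x - g' x) := by
  obtain ⟨hf1, hf2, hf3⟩ := hf
  obtain ⟨hg1, hg2, hg3⟩ := hg
  refine ⟨fun n => (hf1 n).sub (hg1 n), hf2.sub hg2, ?_⟩
  have hb : ∀ n, eLpNorm (fun x => f n x - g n x - (f' x - g' x)) p μ
      ≤ eLpNorm (fun x => f n x - f' x) p μ + eLpNorm (fun x => g n x - g' x) p μ := by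
    intro n
    have hfn : AEStronglyMeasurable (fun x => f n x - f' x) μ := (hf1 n).sub hf2.1
    have hgn : AEStronglyMeasurable (fun x => g n x - g' x) μ := (hg1 n).sub hg2.1
    have e : (fun x => f n x - g n x - (f' x - g' x))
        = (fun x => f n x - f' x) - (fun x => g n x - g' x) := by
      funext x
      simp only [Pi.sub_apply]
      ring
    rw [e]
    exact eLpNorm_sub_le hfn hgn hp
  refine tendsto_of_tendsto_of_tendsto_of_le_of_le tendsto_const_nhds ?_
    (fun n => zero_le) hb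
  simpa using hf3.add hg3

theorem Cv.const_mul {μ : Measure E3} {p : ℝ≥0∞} (c : ℝ)
    {f : ℕ → E3 → ℝ} {f' : E3 → ℝ} (hf : Cv μ p f f') :
    Cv μ p (fun n x => c * f n x) (fun x => c * f' x) := by
  obtain ⟨hf1, hf2, hf3⟩ := hf
  refine ⟨fun n => (hf1 n).const_mul c, hf2.const_mul c, ?_⟩
  have hb : ∀ n, eLpNorm (fun x => c * f n x - c * f' x) p μ
      = ‖c‖ₑ * eLpNorm (fun x => f n x - f' x) p μ := by
    intro n
    rw [← eLpNorm_const_smul]
    congr 1
    funext x
    simp only [Pi.smul_apply, smul_eq_mul]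
    ring
  simp_rw [hb]
  have h3 : Tendsto (fun n => ‖c‖ₑ * eLpNorm (fun x => f n x - f' x) p μ) atTop
      (𝓝 (‖c‖ₑ * 0)) :=
    ENNReal.Tendsto.const_mul hf3 (Or.inr enorm_ne_top)
  simpa using h3

instance holder442 : ENNReal.HolderTriple 4 4 2 where
  inv_add_inv_eq_inv := by
    have h : (4 : ℝ≥0∞) = 2 * 2 := by norm_num
    rw [h, ENNReal.mul_inv (by norm_num) (by norm_num), ← mul_add, ENNReal.inv_two_add_inv_two,
      mul_one]

/-- On a set of finite measure. -/
theorem Cv.four_two {μ : Measure E3} [IsFiniteMeasure μ] {f : ℕ → E3 → ℝ} {f' : E3 → ℝ}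
    (hf : Cv μ 4 f f') : Cv μ 2 f f' := by
  have h1 : Cv μ 4 (fun _ _ => (1 : ℝ)) (fun _ => (1 : ℝ)) :=
    ⟨fun _ => aestronglyMeasurable_const, memLp_const 1, by simp⟩
  simpa using Cv.mul (p := 4) (q := 4) (r := 2) (by norm_num) hf h1

theorem int_sq_eq {μ : Measure E3} {f : E3 → ℝ} (hf : AEStronglyMeasurable f μ) :
    ∫ x, f x ^ 2 ∂μ = ((eLpNorm f 2 μ) ^ 2).toReal := by
  rw [integral_eq_lintegral_of_nonneg_ae (Eventually.of_forall fun x => sq_nonneg _)
    (hf.pow 2), eLpNorm_eq_lintegral_rpow_enorm_toReal (by norm_num) (by norm_num)]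
  congr 1
  rw [← ENNReal.rpow_natCast, ← ENNReal.rpow_mul]
  have e : (1 / (2 : ℝ≥0∞).toReal * ((2 : ℕ) : ℝ)) = 1 := by norm_num
  rw [e, ENNReal.rpow_one]
  refine lintegral_congr fun x => ?_
  rw [Real.enorm_eq_ofReal_abs, ENNReal.toReal_ofNat, ENNReal.rpow_ofNat,
    ← ENNReal.ofReal_pow (abs_nonneg _), sq_abs]

theorem Cv.int {μ : Measure E3} {f : ℕ → E3 → ℝ} {f' : E3 → ℝ}
    (hf : Cv μ 2 f f') : Tendsto (fun n => ∫ x, (f n x - f' x) ^ 2 ∂μ) atTop (𝓝 0) := by
  have h1 : ∀ n, ∫ x, (f n x - f' x) ^ 2 ∂μ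
      = ((eLpNorm (fun x => f n x - f' x) 2 μ) ^ 2).toReal := fun n =>
    int_sq_eq ((hf.1 n).sub hf.2.1.1)
  simp_rw [h1]
  have h2 : Tendsto (fun n => (eLpNorm (fun x => f n x - f' x) 2 μ) ^ 2) atTop (𝓝 (0 ^ 2)) :=
    ENNReal.Tendsto.pow hf.2.2
  have h3 : Tendsto (fun n => ((eLpNorm (fun x => f n x - f' x) 2 μ) ^ 2).toReal) atTop
      (𝓝 ((0 : ℝ≥0∞) ^ 2).toReal) := (ENNReal.tendsto_toReal (by simp)).comp h2
  have e0 : ((0 : ℝ≥0∞) ^ 2).toReal = 0 := by simp
  rw [e0] at h3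
  exact h3

/-! ## The logarithm, modified near zero -/

theorem exists_log (δ : ℝ) (hδ : 0 < δ) :
    ∃ F : ℝ → ℝ, ContDiff ℝ ∞ F ∧ ∀ t, δ ≤ t → F t = Real.log t := by
  let χ : ℝ → ℝ := fun t => δ / 2 + (t - δ / 2) * Real.smoothTransition ((t - δ / 2) / (δ / 2))
  have hpos : ∀ t, 0 < χ t := by
    intro t
    have h0 : 0 ≤ (t - δ / 2) * Real.smoothTransition ((t - δ / 2) / (δ / 2)) := by
      rcases le_total t (δ / 2) with h | h
      · rw [Real.smoothTransition.zero_of_nonpos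
          (div_nonpos_of_nonpos_of_nonneg (by linarith) (by linarith)), mul_zero]
      · exact mul_nonneg (by linarith) (Real.smoothTransition.nonneg _)
    show 0 < δ / 2 + (t - δ / 2) * Real.smoothTransition ((t - δ / 2) / (δ / 2))
    linarith
  have hχ : ContDiff ℝ ∞ χ := by
    refine contDiff_const.add ((contDiff_id.sub contDiff_const).mul ?_)
    exact (Real.smoothTransition.contDiff (n := ⊤)).comp
      ((contDiff_id.sub contDiff_const).div_const _)
  refine ⟨fun t => Real.log (χ t), hχ.log (fun t => (hpos t).ne'), fun t ht => ?_⟩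
  have h1 : Real.smoothTransition ((t - δ / 2) / (δ / 2)) = 1 :=
    Real.smoothTransition.one_of_one_le (by rw [le_div_iff₀ (by linarith)]; linarith)
  show Real.log (δ / 2 + (t - δ / 2) * Real.smoothTransition ((t - δ / 2) / (δ / 2))) = _
  rw [h1]
  congr 1
  ring

theorem contDiff_pd {v : E3 → ℝ} (hv : ContDiff ℝ ∞ v) (i : Fin 3) : ContDiff ℝ ∞ (pd i v) := by
  have h : ContDiff ℝ ∞ (fderiv ℝ v) := hv.fderiv_right (m := ∞) (by norm_num)
  exact h.clm_apply contDiff_const

theorem pd_congr {f g : E3 → ℝ} {x : E3} (h : f =ᶠ[𝓝 x] g) (i : Fin 3) : pd i f x = pd i g x := by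
  unfold pd
  rw [h.fderiv_eq]

theorem pd_log1 {v : E3 → ℝ} (hv : ContDiff ℝ ∞ v) {x : E3} (h : v x ≠ 0) (ε : ℝ) (i : Fin 3) :
    pd i (fun y => -ε * Real.log (v y)) x = -ε * (pd i v x * (v x)⁻¹) := by
  have h1 : HasFDerivAt v (fderiv ℝ v x) x :=
    ((hv.differentiable (by norm_num)) x).hasFDerivAt
  have h2 := (h1.log h).const_mul (-ε)
  unfold pd
  rw [h2.fderiv]
  simp only [FunLike.coe_smul, Pi.smul_apply, smul_eq_mul]
  ring

theorem pd_log2 {v : E3 → ℝ} (hv : ContDiff ℝ ∞ v) {x : E3} (h : v x ≠ 0) (ε : ℝ)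
    (i j : Fin 3) :
    pd i (fun y => -ε * (pd j v y * (v y)⁻¹)) x
      = -ε * (pd i (pd j v) x * (v x)⁻¹ - pd i v x * (v x)⁻¹ * (pd j v x * (v x)⁻¹)) := by
  have h1 : HasFDerivAt v (fderiv ℝ v x) x :=
    ((hv.differentiable (by norm_num)) x).hasFDerivAt
  have h2 : HasFDerivAt (pd j v) (fderiv ℝ (pd j v) x) x :=
    (((contDiff_pd hv j).differentiable (by norm_num)) x).hasFDerivAt
  have h3 : HasFDerivAt (fun y => (v y)⁻¹) ((-(v x ^ 2)⁻¹) • fderiv ℝ v x) x :=
    (hasDerivAt_inv h).comp_hasFDerivAt x h1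
  have h4 : HasFDerivAt (fun y => -ε * (pd j v y * (v y)⁻¹))
      ((-ε) • (pd j v x • ((-(v x ^ 2)⁻¹) • fderiv ℝ v x) + (v x)⁻¹ • fderiv ℝ (pd j v) x)) x :=
    (h2.mul h3).const_mul (-ε)
  show fderiv ℝ (fun y => -ε * (pd j v y * (v y)⁻¹)) x (EuclideanSpace.single i 1) = _
  rw [h4.fderiv]
  have e1 : fderiv ℝ v x (EuclideanSpace.single i 1) = pd i v x := rfl
  have e2 : fderiv ℝ (pd j v) x (EuclideanSpace.single i 1) = pd i (pd j v) x := rfl
  simp only [FunLike.coe_smul, FunLike.coe_add, Pi.smul_apply, Pi.add_apply, smul_eq_mul, e1, e2]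
  field_simp
  ring

/-- The first derivatives of the composition with a function equal to `log` on `[δ, ∞)`. -/
theorem pd_comp1 {v : E3 → ℝ} (hv : ContDiff ℝ ∞ v) {F : ℝ → ℝ} {δ : ℝ} (hδ : 0 < δ)
    (hF : ∀ t, δ ≤ t → F t = Real.log t) {x : E3} (h : δ < v x) (ε : ℝ) (i : Fin 3) :
    pd i (fun y => -ε * F (v y)) x = -ε * (pd i v x * (v x)⁻¹) := by
  rw [← pd_log1 hv (hδ.trans h).ne' ε i]
  refine pd_congr ?_ i
  have h1 : ∀ᶠ y in 𝓝 x, δ < v y := hv.continuous.continuousAt.eventually (lt_mem_nhds h)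
  filter_upwards [h1] with y hy
  rw [hF _ hy.le]

/-- The second derivatives of the composition with a function equal to `log` on `[δ, ∞)`. -/
theorem pd_comp2 {v : E3 → ℝ} (hv : ContDiff ℝ ∞ v) {F : ℝ → ℝ} {δ : ℝ} (hδ : 0 < δ)
    (hF : ∀ t, δ ≤ t → F t = Real.log t) {x : E3} (h : δ < v x) (ε : ℝ) (i j : Fin 3) :
    pd i (pd j (fun y => -ε * F (v y))) x
      = -ε * (pd i (pd j v) x * (v x)⁻¹ - pd i v x * (v x)⁻¹ * (pd j v x * (v x)⁻¹)) := by
  rw [← pd_log2 hv (hδ.trans h).ne' ε i j]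
  refine pd_congr ?_ i
  have h1 : ∀ᶠ y in 𝓝 x, δ < v y := hv.continuous.continuousAt.eventually (lt_mem_nhds h)
  filter_upwards [h1] with y hy
  exact pd_comp1 hv hδ hF hy ε j

/-! ## Lower bounds and uniform convergence -/

theorem low {K : Set E3} (hK : IsCompact K) {u : E3 → ℝ} (hu : ContinuousOn u K)
    (hpos : ∀ x ∈ K, 0 < u x) : ∃ δ : ℝ, 0 < δ ∧ ∀ x ∈ K, 2 * δ ≤ u x := by
  rcases K.eq_empty_or_nonempty with rfl | hne
  · exact ⟨1, one_pos, fun x hx => absurd hx (Set.notMem_empty x)⟩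
  · obtain ⟨x₀, hx₀, hmin⟩ := hK.exists_isMinOn hne hu
    refine ⟨u x₀ / 2, by linarith [hpos x₀ hx₀], fun x hx => ?_⟩
    have := isMinOn_iff.1 hmin x hx
    linarith

theorem ev_low {K : Set E3} {u : E3 → ℝ} {v : ℕ → E3 → ℝ} {δ : ℝ} (hδ : 0 < δ)
    (hu : ∀ x ∈ K, 2 * δ ≤ u x) (hv : TendstoUniformlyOn v u atTop K) :
    ∀ᶠ n in atTop, ∀ x ∈ K, δ < v n x := by
  filter_upwards [Metric.tendstoUniformlyOn_iff.1 hv δ hδ] with n hn x hx
  have h1 := hn x hx
  rw [Real.dist_eq, abs_lt] at h1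
  linarith [hu x hx]

theorem cv_inv {K : Set E3} (hK : IsCompact K) {u : E3 → ℝ} (huc : ContinuousOn u K)
    {v : ℕ → E3 → ℝ} {δ : ℝ} (hδ : 0 < δ) (hu : ∀ x ∈ K, 2 * δ ≤ u x)
    (hvc : ∀ n, Continuous (v n)) (hv : TendstoUniformlyOn v u atTop K) :
    Cv (volume.restrict K) ∞ (fun n x => (v n x)⁻¹) (fun x => (u x)⁻¹) := by
  have hmeas : AEStronglyMeasurable (fun x => (u x)⁻¹) (volume.restrict K) :=
    (huc.inv₀ fun x hx => by linarith [hu x hx] |> fun h : 0 < u x => h.ne').aestronglyMeasurable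
      hK.measurableSet
  refine ⟨fun n => ((hvc n).measurable.inv).aestronglyMeasurable, ?_, ?_⟩
  · refine memLp_top_of_bound hmeas ((2 * δ)⁻¹) ?_
    refine ae_restrict_of_forall_mem hK.measurableSet fun x hx => ?_
    have h1 : 0 < u x := by linarith [hu x hx]
    rw [Real.norm_eq_abs, abs_of_pos (inv_pos.2 h1)]
    exact inv_anti₀ (by linarith) (hu x hx)
  · rw [ENNReal.tendsto_nhds_zero]
    intro e he
    rcases eq_or_ne e ∞ with rfl | het
    · exact Eventually.of_forall fun n => le_top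
    have hr : 0 < e.toReal := ENNReal.toReal_pos he.ne' het
    filter_upwards [ev_low hδ hu hv,
      Metric.tendstoUniformlyOn_iff.1 hv (e.toReal * (2 * δ * δ)) (by positivity)] with n hn hn'
    rw [eLpNorm_exponent_top, ← ENNReal.ofReal_toReal het]
    refine eLpNormEssSup_le_of_ae_bound ?_
    refine ae_restrict_of_forall_mem hK.measurableSet fun x hx => ?_
    have h1 : 0 < u x := by linarith [hu x hx]
    have h2 : 0 < v n x := hδ.trans (hn x hx)
    have h3 := hn' x hx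
    rw [Real.dist_eq] at h3
    have e1 : (v n x)⁻¹ - (u x)⁻¹ = (u x - v n x) / (u x * v n x) := by
      field_simp
    rw [Real.norm_eq_abs, e1, abs_div, abs_of_pos (mul_pos h1 h2), div_le_iff₀ (mul_pos h1 h2)]
    refine h3.le.trans (mul_le_mul_of_nonneg_left ?_ hr.le)
    exact mul_le_mul (hu x hx) (hn x hx).le hδ.le h1.le

theorem log_sub_le {a b δ : ℝ} (hδ : 0 < δ) (ha : δ ≤ a) (hb : δ ≤ b) :
    |Real.log a - Real.log b| ≤ |a - b| / δ := by
  have key : ∀ s t : ℝ, δ ≤ s → δ ≤ t → Real.log s - Real.log t ≤ |s - t| / δ := by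
    intro s t hs ht
    have hs0 : 0 < s := hδ.trans_le hs
    have ht0 : 0 < t := hδ.trans_le ht
    rw [← Real.log_div hs0.ne' ht0.ne']
    refine (Real.log_le_sub_one_of_pos (div_pos hs0 ht0)).trans ?_
    have e1 : s / t - 1 = (s - t) / t := by field_simp
    rw [e1]
    refine (div_le_div_of_nonneg_right (le_abs_self _) ht0.le).trans ?_
    exact div_le_div_of_nonneg_left (abs_nonneg _) hδ ht
  rw [abs_le]
  refine ⟨?_, key a b ha hb⟩
  have := key b a hb ha
  rw [abs_sub_comm] at this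
  linarith

theorem unif_log {K : Set E3} {u : E3 → ℝ} {v : ℕ → E3 → ℝ} {δ : ℝ} (hδ : 0 < δ)
    (hu : ∀ x ∈ K, 2 * δ ≤ u x) (hv : TendstoUniformlyOn v u atTop K) {F : ℝ → ℝ}
    (hF : ∀ t, δ ≤ t → F t = Real.log t) (ε : ℝ) :
    TendstoUniformlyOn (fun n y => -ε * F (v n y)) (fun y => -ε * Real.log (u y)) atTop K := by
  rw [Metric.tendstoUniformlyOn_iff]
  intro r hr
  have hc : 0 < r * δ / (|ε| + 1) := by positivity
  filter_upwards [ev_low hδ hu hv, Metric.tendstoUniformlyOn_iff.1 hv _ hc] with n hn hn' x hx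
  have h1 := hn x hx
  have h2 := hn' x hx
  rw [Real.dist_eq] at h2 ⊢
  rw [hF _ h1.le]
  have h3 := log_sub_le hδ (by linarith [hu x hx] : δ ≤ u x) h1.le
  have e1 : -ε * Real.log (u x) - -ε * Real.log (v n x)
      = -ε * (Real.log (u x) - Real.log (v n x)) := by ring
  rw [e1, abs_mul, abs_neg]
  have h4 : |Real.log (u x) - Real.log (v n x)| < r / (|ε| + 1) := by
    refine h3.trans_lt ?_
    rw [div_lt_iff₀ hδ]
    have e2 : r / (|ε| + 1) * δ = r * δ / (|ε| + 1) := by ring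
    rw [e2]
    exact h2
  have h5 : |ε| * |Real.log (u x) - Real.log (v n x)| ≤ |ε| * (r / (|ε| + 1)) :=
    mul_le_mul_of_nonneg_left h4.le (abs_nonneg _)
  refine h5.trans_lt ?_
  rw [mul_div_assoc', div_lt_iff₀ (by positivity)]
  nlinarith [abs_nonneg ε]

/-! ## The function `w` is of class `H²` -/

theorem key {U : Set E3} {u : E3 → ℝ} {G : E3 → Cov} {M : E3 → Bil} (hH : H2s U u G M)
    (hpos : ∀ x ∈ U, 0 < u x) (ε : ℝ) {K : Set E3} (hK : IsCompact K) (hKU : K ⊆ U) :
    (∀ i, MemLp (fun x => -ε * (G x i / u x)) 2 (volume.restrict K)) ∧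
    (∀ i j, MemLp (fun x => -ε * (M x i j / u x - G x i * G x j / u x ^ 2)) 2
      (volume.restrict K)) ∧
    ∃ V : ℕ → E3 → ℝ, (∀ n, ContDiff ℝ ∞ (V n)) ∧
      TendstoUniformlyOn V (fun x => -ε * Real.log (u x)) atTop K ∧
      (∀ i, Tendsto (fun n => ∫ x in K, (pd i (V n) x - -ε * (G x i / u x)) ^ 2) atTop (𝓝 0)) ∧
      (∀ i j, Tendsto (fun n => ∫ x in K, (pd i (pd j (V n)) x
        - -ε * (M x i j / u x - G x i * G x j / u x ^ 2)) ^ 2) atTop (𝓝 0)) := by
  obtain ⟨v, hv, hunif, hG, hM⟩ := hH.approx K hK hKU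
  have huc : ContinuousOn u K := hH.cont.mono hKU
  obtain ⟨δ, hδ, hlow⟩ := low hK huc fun x hx => hpos x (hKU hx)
  obtain ⟨F, hF, hFlog⟩ := exists_log δ hδ
  have : IsFiniteMeasure (volume.restrict K : Measure E3) := ⟨by
    rw [Measure.restrict_apply_univ]; exact hK.measure_lt_top⟩
  have hGG : ∀ i, (fun x => -ε * (G x i / u x)) = fun x => -ε * (G x i * (u x)⁻¹) := fun i => by
    funext x
    rw [div_eq_mul_inv]
  have hMM : ∀ i j, (fun x => -ε * (M x i j / u x - G x i * G x j / u x ^ 2))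
      = fun x => -ε * (M x i j * (u x)⁻¹ - G x i * (u x)⁻¹ * (G x j * (u x)⁻¹)) := fun i j => by
    funext x
    rw [div_eq_mul_inv, div_eq_mul_inv, ← inv_pow]
    ring
  have cI := cv_inv hK huc hδ hlow (fun n => (hv n).continuous) hunif
  have cG : ∀ i, Cv (volume.restrict K) 4 (fun n x => pd i (v n) x) (fun x => G x i) := fun i =>
    ⟨fun n => (contDiff_pd (hv n) i).continuous.aestronglyMeasurable, hH.memG K hK hKU i, hG i⟩
  have cM : ∀ i j, Cv (volume.restrict K) 2 (fun n x => pd i (pd j (v n)) x)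
      (fun x => M x i j) := fun i j =>
    ⟨fun n => (contDiff_pd (contDiff_pd (hv n) j) i).continuous.aestronglyMeasurable,
      hH.memM K hK hKU i j, hM i j⟩
  have cGI : ∀ i, Cv (volume.restrict K) 4 (fun n x => pd i (v n) x * (v n x)⁻¹)
      (fun x => G x i * (u x)⁻¹) := fun i =>
    Cv.mul (p := 4) (q := ∞) (r := 4) (by norm_num) (cG i) cI
  have cMI : ∀ i j, Cv (volume.restrict K) 2 (fun n x => pd i (pd j (v n)) x * (v n x)⁻¹)
      (fun x => M x i j * (u x)⁻¹) := fun i j =>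
    Cv.mul (p := 2) (q := ∞) (r := 2) (by norm_num) (cM i j) cI
  have cGG : ∀ i j, Cv (volume.restrict K) 2
      (fun n x => pd i (v n) x * (v n x)⁻¹ * (pd j (v n) x * (v n x)⁻¹))
      (fun x => G x i * (u x)⁻¹ * (G x j * (u x)⁻¹)) := fun i j =>
    Cv.mul (p := 4) (q := 4) (r := 2) (by norm_num) (cGI i) (cGI j)
  have c1 : ∀ i, Cv (volume.restrict K) 2 (fun n x => -ε * (pd i (v n) x * (v n x)⁻¹))
      (fun x => -ε * (G x i * (u x)⁻¹)) := fun i => (cGI i).four_two.const_mul (-ε)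
  have c2 : ∀ i j, Cv (volume.restrict K) 2
      (fun n x => -ε * (pd i (pd j (v n)) x * (v n x)⁻¹
        - pd i (v n) x * (v n x)⁻¹ * (pd j (v n) x * (v n x)⁻¹)))
      (fun x => -ε * (M x i j * (u x)⁻¹ - G x i * (u x)⁻¹ * (G x j * (u x)⁻¹))) := fun i j =>
    ((cMI i j).sub (by norm_num) (cGG i j)).const_mul (-ε)
  refine ⟨fun i => ?_, fun i j => ?_, fun n y => -ε * F (v n y),
    fun n => contDiff_const.mul (hF.comp (hv n)), unif_log hδ hlow hunif hFlog ε,
    fun i => ?_, fun i j => ?_⟩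
  · rw [hGG i]
    exact (c1 i).2.1
  · rw [hMM i j]
    exact (c2 i j).2.1
  · refine (c1 i).int.congr' ?_
    filter_upwards [ev_low hδ hlow hunif] with n hn
    refine setIntegral_congr_fun hK.measurableSet fun x hx => ?_
    show (-ε * (pd i (v n) x * (v n x)⁻¹) - -ε * (G x i * (u x)⁻¹)) ^ 2
      = (pd i (fun y => -ε * F (v n y)) x - -ε * (G x i / u x)) ^ 2
    rw [pd_comp1 (hv n) hδ hFlog (hn x hx) ε i, div_eq_mul_inv]
  · refine (c2 i j).int.congr' ?_
    filter_upwards [ev_low hδ hlow hunif] with n hn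
    refine setIntegral_congr_fun hK.measurableSet fun x hx => ?_
    show (-ε * (pd i (pd j (v n)) x * (v n x)⁻¹
        - pd i (v n) x * (v n x)⁻¹ * (pd j (v n) x * (v n x)⁻¹))
        - -ε * (M x i j * (u x)⁻¹ - G x i * (u x)⁻¹ * (G x j * (u x)⁻¹))) ^ 2
      = (pd i (pd j (fun y => -ε * F (v n y))) x
        - -ε * (M x i j / u x - G x i * G x j / u x ^ 2)) ^ 2
    rw [pd_comp2 (hv n) hδ hFlog (hn x hx) ε i j, congrFun (hMM i j) x]

/-! ## The equation -/

theorem raise_smul (g : TensorField) (x : E3) (c : ℝ) (p : Cov) (i : Fin 3) :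
    raise g x (fun i => c * p i) i = c * raise g x p i := by
  unfold raise
  rw [Finset.mul_sum]
  exact Finset.sum_congr rfl fun j _ => by ring

theorem ev_smul (B : Bil) (c : ℝ) (p : Cov) :
    ev B (fun i => c * p i) (fun i => c * p i) = c ^ 2 * ev B p p := by
  unfold ev
  rw [Finset.mul_sum]
  refine Finset.sum_congr rfl fun i _ => ?_
  rw [Finset.mul_sum]
  exact Finset.sum_congr rfl fun j _ => by ring

theorem len_smul (g : TensorField) (x : E3) {c : ℝ} (hc : 0 ≤ c) (p : Cov) :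
    len g x (fun i => -c * p i) = c * len g x p := by
  unfold len
  rw [ev_smul, Real.sqrt_mul (sq_nonneg _), neg_sq, Real.sqrt_sq hc]

theorem nrm_smul (g : TensorField) (x : E3) {c : ℝ} (hc : 0 < c) (p : Cov) (i : Fin 3) :
    nrm g x (fun i => -c * p i) i = -nrm g x p i := by
  unfold nrm
  rw [raise_smul, len_smul g x hc.le, neg_mul, neg_div, mul_div_mul_left _ _ hc.ne']

theorem bnn_smul (g : TensorField) (x : E3) {c : ℝ} (hc : 0 < c) (p : Cov) (B : Bil) :
    bnn g x (fun i => -c * p i) B = bnn g x p B := by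
  unfold bnn ev
  refine Finset.sum_congr rfl fun i _ => Finset.sum_congr rfl fun j _ => ?_
  rw [nrm_smul g x hc, nrm_smul g x hc]
  ring

theorem beps_smul (ε : ℝ) (g : TensorField) (x : E3) {c : ℝ} (hc : 0 < c) (p : Cov) (B : Bil) :
    beps ε g x (fun i => -c * p i) B = beps ε g x p B := by
  unfold beps
  rw [bnn_smul g x hc]

theorem beps_lin (ε : ℝ) (g : TensorField) (x : E3) (p : Cov) (a b : ℝ) (A B : Bil) :
    beps ε g x p (Matrix.of fun i j => a * A i j + b * B i j)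
      = a * beps ε g x p A + b * beps ε g x p B := by
  have h1 : trg g x (Matrix.of fun i j => a * A i j + b * B i j)
      = a * trg g x A + b * trg g x B := by
    unfold trg
    rw [Finset.mul_sum, Finset.mul_sum, ← Finset.sum_add_distrib]
    refine Finset.sum_congr rfl fun i _ => ?_
    rw [Finset.mul_sum, Finset.mul_sum, ← Finset.sum_add_distrib]
    refine Finset.sum_congr rfl fun j _ => ?_
    rw [Matrix.of_apply]
    ring
  have h2 : bnn g x p (Matrix.of fun i j => a * A i j + b * B i j)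
      = a * bnn g x p A + b * bnn g x p B := by
    unfold bnn ev
    rw [Finset.mul_sum, Finset.mul_sum, ← Finset.sum_add_distrib]
    refine Finset.sum_congr rfl fun i _ => ?_
    rw [Finset.mul_sum, Finset.mul_sum, ← Finset.sum_add_distrib]
    refine Finset.sum_congr rfl fun j _ => ?_
    rw [Matrix.of_apply]
    ring
  unfold beps
  rw [h1, h2]
  ring

/-- The square of the length, for a positive semidefinite inverse metric. -/
theorem len_sq {g : TensorField} {x : E3} (hg : (g x).PosDef) (p : Cov) :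
    len g x p ^ 2 = ev (g x)⁻¹ p p := by
  unfold len
  rw [Real.sq_sqrt]
  have h := hg.inv.posSemidef.dotProduct_mulVec_nonneg p
  have e : ev (g x)⁻¹ p p = star p ⬝ᵥ ((g x)⁻¹.mulVec p) := by
    unfold ev
    simp only [dotProduct, Matrix.mulVec, star_trivial, Finset.mul_sum]
    exact Finset.sum_congr rfl fun i _ => Finset.sum_congr rfl fun j _ => by ring
  rw [e]
  exact h

theorem beps_outer (ε : ℝ) {g : TensorField} {x : E3} (hg : (g x).PosDef) (p : Cov) :
    beps ε g x p (Matrix.of fun i j => p i * p j) = ε * len g x p ^ 2 := by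
  have h0 := len_sq hg p
  have h1 : trg g x (Matrix.of fun i j => p i * p j) = len g x p ^ 2 := by
    rw [h0]
    unfold trg ev
    refine Finset.sum_congr rfl fun i _ => Finset.sum_congr rfl fun j _ => ?_
    rw [Matrix.of_apply]
    ring
  have h2 : ∑ i, p i * raise g x p i = ev (g x)⁻¹ p p := by
    unfold raise ev
    refine Finset.sum_congr rfl fun i _ => ?_
    rw [Finset.mul_sum]
    exact Finset.sum_congr rfl fun j _ => by ring
  have h3 : bnn g x p (Matrix.of fun i j => p i * p j) = (∑ i, p i * nrm g x p i) ^ 2 := by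
    unfold bnn ev
    rw [sq, Finset.sum_mul_sum]
    refine Finset.sum_congr rfl fun i _ => Finset.sum_congr rfl fun j _ => ?_
    rw [Matrix.of_apply]
    ring
  have h4 : ∑ i, p i * nrm g x p i = ev (g x)⁻¹ p p / len g x p := by
    rw [← h2, Finset.sum_div]
    refine Finset.sum_congr rfl fun i _ => ?_
    unfold nrm
    ring
  have h5 : bnn g x p (Matrix.of fun i j => p i * p j) = len g x p ^ 2 := by
    rw [h3, h4, ← h0]
    rcases eq_or_ne (len g x p) 0 with h | h
    · rw [h]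
      norm_num
    · field_simp
  unfold beps
  rw [h1, h5]
  ring

theorem cHess_log (g : TensorField) (x : E3) (p : Cov) (M : Bil) (ε u : ℝ) (hu : u ≠ 0) :
    cHess g x (fun i => -ε * (p i / u))
      (Matrix.of fun i j => -ε * (M i j / u - p i * p j / u ^ 2))
    = Matrix.of fun i j => (-(ε / u)) * cHess g x p M i j
        + (ε / u ^ 2) * (Matrix.of fun i j => p i * p j : Bil) i j := by
  ext i j
  unfold cHess
  simp only [Matrix.of_apply]
  have h : ∑ k, christoffel g k i j x * (-ε * (p k / u))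
      = -(ε / u) * ∑ k, christoffel g k i j x * p k := by
    rw [Finset.mul_sum]
    exact Finset.sum_congr rfl fun k _ => by ring
  rw [h]
  field_simp
  ring

theorem eqW_point {ε : ℝ} (hε : 0 < ε) {g h : TensorField} {x : E3} (hg : (g x).PosDef)
    {u : ℝ} (hu : 0 < u) (p : Cov) (M : Bil)
    (h1 : p ≠ 0 → beps ε g x p (cHess g x p M) + len g x p * beps ε g x p (h x) = 0)
    (h2 : p = 0 → M = 0) :
    ((fun i => -ε * (p i / u)) ≠ (0 : Cov) →
      beps ε g x (fun i => -ε * (p i / u)) (cHess g x (fun i => -ε * (p i / u))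
        (Matrix.of fun i j => -ε * (M i j / u - p i * p j / u ^ 2)))
      = len g x (fun i => -ε * (p i / u)) ^ 2
        + len g x (fun i => -ε * (p i / u)) * beps ε g x (fun i => -ε * (p i / u)) (h x)) ∧
    ((fun i => -ε * (p i / u)) = (0 : Cov) →
      (Matrix.of fun i j => -ε * (M i j / u - p i * p j / u ^ 2) : Bil) = 0) := by
  have hc : 0 < ε / u := div_pos hε hu
  have ep : (fun i => -ε * (p i / u)) = fun i => -(ε / u) * p i := by
    funext i
    ring
  constructor
  · intro hne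
    have hp : p ≠ 0 := by
      rintro rfl
      apply hne
      funext i
      simp
    rw [cHess_log g x p M ε u hu.ne', ep, beps_smul ε g x hc, beps_smul ε g x hc,
      len_smul g x hc.le, beps_lin, beps_outer ε hg p]
    have h3 := h1 hp
    have h4 : beps ε g x p (cHess g x p M) = -(len g x p * beps ε g x p (h x)) := by linarith
    rw [h4]
    field_simp
    ring
  · intro hz
    have hp : p = 0 := by
      funext i
      rw [ep] at hz
      have h4 : -(ε / u) * p i = 0 := congrFun hz i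
      rcases mul_eq_zero.1 h4 with h5 | h5
      · exact absurd h5 (neg_ne_zero.2 hc.ne')
      · exact h5
    have hM := h2 hp
    subst hp
    subst hM
    ext i j
    simp

end MLOGW

open MLOGW in
/-- **(LOGW)** The logarithm of the solution. -/
theorem LOGW (hL4 : Stmt_L4) : Stmt_LOGW := by
  intro ε U g h u G M hε hε1 hU hg hh hH hpos heq
  refine ⟨?_, ?_, ?_⟩
  · have hs := hL4 U u G M hU hH
    refine ⟨?_, fun K hK hKU i => (key hs hpos ε hK hKU).1 i,
      fun K hK hKU i j => (key hs hpos ε hK hKU).2.1 i j,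
      fun K hK hKU => (key hs hpos ε hK hKU).2.2⟩
    exact continuousOn_const.mul (hH.cont.log fun x hx => (hpos x hx).ne')
  · unfold EqW
    unfold EqU at heq
    filter_upwards [heq, ae_restrict_mem hU.measurableSet] with x hx hxU
    exact eqW_point hε (hg.posDef x hxU) (hpos x hxU) (G x) (M x) hx.1 hx.2
  · intro hN D hD hDc hDU x hx
    obtain ⟨⟨y, hy, hxy⟩, ⟨z, hz, hzx⟩⟩ := hN D hD hDc hDU x hx
    have hxU : x ∈ U := hDU (subset_closure hx)
    have hyU : y ∈ U := hDU (frontier_subset_closure hy)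
    have hzU : z ∈ U := hDU (frontier_subset_closure hz)
    refine ⟨⟨z, hz, ?_⟩, ⟨y, hy, ?_⟩⟩
    · have h1 := Real.log_le_log (hpos z hzU) hzx
      show -ε * Real.log (u x) ≤ -ε * Real.log (u z)
      nlinarith
    · have h1 := Real.log_le_log (hpos x hxU) hxy
      show -ε * Real.log (u y) ≤ -ε * Real.log (u x)
      nlinarith

end Pool.Agent.PFlow
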