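import Pool.Agent.PFlow.M_MIT
import Pool.Agent.PFlow.M_AEG

/-!
# Module LS: the level set inequality for a smooth function with small residual
-/

open MeasureTheory Filter Topology
open scoped ContDiff

namespace Pool.Agent.PFlow

open Pool.Agent.PenroseSph

namespace MLS

open MMIT

/-! ### Pointwise bounds -/

theorem ss_sq (M : Bil) : ss M ^ 2 ≤ 9 * msq M := by
  have h : ∀ i j, |M i j| ^ 2 = M i j ^ 2 := fun i j => sq_abs _
  unfold ss msq
  simp only [Fin.sum_univ_three, ← h]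
  nlinarith [sq_nonneg (|M 0 0| - |M 0 1|), sq_nonneg (|M 0 0| - |M 0 2|),
    sq_nonneg (|M 0 0| - |M 1 0|), sq_nonneg (|M 0 0| - |M 1 1|), sq_nonneg (|M 0 0| - |M 1 2|),
    sq_nonneg (|M 0 0| - |M 2 0|), sq_nonneg (|M 0 0| - |M 2 1|), sq_nonneg (|M 0 0| - |M 2 2|),
    sq_nonneg (|M 0 1| - |M 0 2|), sq_nonneg (|M 0 1| - |M 1 0|), sq_nonneg (|M 0 1| - |M 1 1|),
    sq_nonneg (|M 0 1| - |M 1 2|), sq_nonneg (|M 0 1| - |M 2 0|), sq_nonneg (|M 0 1| - |M 2 1|),
    sq_nonneg (|M 0 1| - |M 2 2|), sq_nonneg (|M 0 2| - |M 1 0|), sq_nonneg (|M 0 2| - |M 1 1|),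
    sq_nonneg (|M 0 2| - |M 1 2|), sq_nonneg (|M 0 2| - |M 2 0|), sq_nonneg (|M 0 2| - |M 2 1|),
    sq_nonneg (|M 0 2| - |M 2 2|), sq_nonneg (|M 1 0| - |M 1 1|), sq_nonneg (|M 1 0| - |M 1 2|),
    sq_nonneg (|M 1 0| - |M 2 0|), sq_nonneg (|M 1 0| - |M 2 1|), sq_nonneg (|M 1 0| - |M 2 2|),
    sq_nonneg (|M 1 1| - |M 1 2|), sq_nonneg (|M 1 1| - |M 2 0|), sq_nonneg (|M 1 1| - |M 2 1|),
    sq_nonneg (|M 1 1| - |M 2 2|), sq_nonneg (|M 1 2| - |M 2 0|), sq_nonneg (|M 1 2| - |M 2 1|),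
    sq_nonneg (|M 1 2| - |M 2 2|), sq_nonneg (|M 2 0| - |M 2 1|), sq_nonneg (|M 2 0| - |M 2 2|),
    sq_nonneg (|M 2 1| - |M 2 2|)]

section Bounds

variable {C : ℝ} {g h : TensorField} {x : E3} (hc : Cs C g h x)

include hc

theorem b_nsq (B : Bil) : |nsq g x B| ≤ C ^ 2 * ss B ^ 2 := by
  have hC0 := zero_le_one.trans hc.one
  unfold nsq
  have h1 : ∀ i j k l, |(g x)⁻¹ i k * (g x)⁻¹ j l * B i j * B k l| ≤
      C ^ 2 * (|B i j| * |B k l|) := by
    intro i j k l
    rw [abs_mul, abs_mul, abs_mul, mul_assoc]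
    refine mul_le_mul_of_nonneg_right ?_ (by positivity)
    rw [sq]
    exact mul_le_mul (hc.inv i k) (hc.inv j l) (abs_nonneg _) hC0
  calc |∑ i, ∑ j, ∑ k, ∑ l, (g x)⁻¹ i k * (g x)⁻¹ j l * B i j * B k l|
      ≤ ∑ i, ∑ j, ∑ k, ∑ l, C ^ 2 * (|B i j| * |B k l|) := by
        refine (Finset.abs_sum_le_sum_abs _ _).trans (Finset.sum_le_sum fun i _ => ?_)
        refine (Finset.abs_sum_le_sum_abs _ _).trans (Finset.sum_le_sum fun j _ => ?_)
        refine (Finset.abs_sum_le_sum_abs _ _).trans (Finset.sum_le_sum fun k _ => ?_)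
        exact (Finset.abs_sum_le_sum_abs _ _).trans (Finset.sum_le_sum fun l _ => h1 i j k l)
    _ = C ^ 2 * ss B ^ 2 := by
        unfold ss
        simp only [← Finset.mul_sum, ← Finset.sum_mul]
        ring

theorem b_tenB (p : Cov) (hp : p ≠ 0) (M : Bil) :
    ss (tenB g h x p M) ≤ (len g x p)⁻¹ * (ss M + 27 * (C * vn p)) + 9 * C := by
  have hl := len_pos' hc hp
  have h1 : ∀ i j, |tenB g h x p M i j| ≤ (len g x p)⁻¹ * |cHess g x p M i j| + |h x i j| := by
    intro i j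
    unfold tenB
    rw [Matrix.sub_apply, Matrix.smul_apply, smul_eq_mul]
    refine (abs_sub _ _).trans ?_
    rw [abs_mul, abs_of_pos (inv_pos.mpr hl)]
  have h2 : ss (tenB g h x p M) ≤ (len g x p)⁻¹ * ss (cHess g x p M) + ss (h x) := by
    unfold ss
    calc ∑ i, ∑ j, |tenB g h x p M i j|
        ≤ ∑ i, ∑ j, ((len g x p)⁻¹ * |cHess g x p M i j| + |h x i j|) :=
          Finset.sum_le_sum fun i _ => Finset.sum_le_sum fun j _ => h1 i j
      _ = _ := by simp only [Finset.sum_add_distrib, ← Finset.mul_sum]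
  refine h2.trans (add_le_add ?_ (ss_ten hc))
  exact mul_le_mul_of_nonneg_left (b_cHess hc p M) (inv_pos.mpr hl).le

theorem b_lenten (p : Cov) (hp : p ≠ 0) (M : Bil) :
    len g x p * ss (tenB g h x p M) ^ 2 ≤ 2430 * C ^ 3 * (msq M / vn p + vn p) := by
  have hl := len_pos' hc hp
  have hC := hc.one
  have hC0 := zero_lt_one.trans_le hC
  have hv : 0 < vn p := Real.sqrt_pos.mpr (vsq_pos hp)
  have h1 := b_tenB hc p hp M
  have h2 := ss_nonneg (tenB g h x p M)
  have h3 : ss (tenB g h x p M) ^ 2 ≤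
      ((len g x p)⁻¹ * (ss M + 27 * (C * vn p)) + 9 * C) ^ 2 := pow_le_pow_left₀ h2 h1 2
  have h4 : ((len g x p)⁻¹ * (ss M + 27 * (C * vn p)) + 9 * C) ^ 2 ≤
      3 * ((len g x p)⁻¹ * ss M) ^ 2 + 3 * ((len g x p)⁻¹ * (27 * (C * vn p))) ^ 2 +
      3 * (9 * C) ^ 2 := by
    have e : (len g x p)⁻¹ * (ss M + 27 * (C * vn p)) + 9 * C =
        (len g x p)⁻¹ * ss M + (len g x p)⁻¹ * (27 * (C * vn p)) + 9 * C := by ring
    rw [e]
    nlinarith [sq_nonneg ((len g x p)⁻¹ * ss M - (len g x p)⁻¹ * (27 * (C * vn p))),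
      sq_nonneg ((len g x p)⁻¹ * ss M - 9 * C),
      sq_nonneg ((len g x p)⁻¹ * (27 * (C * vn p)) - 9 * C)]
  have hlinv : (len g x p)⁻¹ ≤ C / vn p := by
    rw [inv_le_comm₀ hl (by positivity), inv_div]
    exact b_len' hc p
  have hll : len g x p ≤ C * vn p := b_len hc p
  calc len g x p * ss (tenB g h x p M) ^ 2
      ≤ len g x p * (3 * ((len g x p)⁻¹ * ss M) ^ 2 +
        3 * ((len g x p)⁻¹ * (27 * (C * vn p))) ^ 2 + 3 * (9 * C) ^ 2) :=
        mul_le_mul_of_nonneg_left (h3.trans h4) hl.le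
    _ = 3 * ((len g x p)⁻¹ * ss M ^ 2) + 2187 * C ^ 2 * (vn p ^ 2 * (len g x p)⁻¹) +
        243 * C ^ 2 * len g x p := by
        field_simp
        ring
    _ ≤ 3 * (C / vn p * (9 * msq M)) + 2187 * C ^ 2 * (vn p ^ 2 * (C / vn p)) +
        243 * C ^ 2 * (C * vn p) := by
        have e1 : (len g x p)⁻¹ * ss M ^ 2 ≤ C / vn p * (9 * msq M) :=
          mul_le_mul hlinv (ss_sq M) (sq_nonneg _) (by positivity)
        have e2 : vn p ^ 2 * (len g x p)⁻¹ ≤ vn p ^ 2 * (C / vn p) :=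
          mul_le_mul_of_nonneg_left hlinv (by positivity)
        have e3 : 2187 * C ^ 2 * (vn p ^ 2 * (len g x p)⁻¹) ≤
            2187 * C ^ 2 * (vn p ^ 2 * (C / vn p)) := mul_le_mul_of_nonneg_left e2 (by positivity)
        have e4 : 243 * C ^ 2 * len g x p ≤ 243 * C ^ 2 * (C * vn p) :=
          mul_le_mul_of_nonneg_left hll (by positivity)
        linarith
    _ = 27 * C * (msq M / vn p) + 2430 * C ^ 3 * vn p := by
        field_simp
        ring
    _ ≤ 2430 * C ^ 3 * (msq M / vn p + vn p) := by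
        have e1 : C ≤ C ^ 3 := by
          have := MMIT.pow_mono hc (show 1 ≤ 3 by norm_num)
          rwa [pow_one] at this
        have e2 : 0 ≤ msq M / vn p := div_nonneg (MMIT.msq_nonneg M) hv.le
        have e3 : 27 * C * (msq M / vn p) ≤ 2430 * C ^ 3 * (msq M / vn p) :=
          mul_le_mul_of_nonneg_right (by nlinarith [pow_pos hC0 3]) e2
        linarith

theorem b_dis0 {ε : ℝ} (hε : 0 < ε) (hε1 : ε < 1) (p : Cov) (hp : p ≠ 0) (M : Bil) :
    |len g x p * dis0 ε g h x p M| ≤ 1000000 / ε * C ^ 11 * (msq M / vn p + zz p M) := by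
  have hl := len_pos' hc hp
  have hC := hc.one
  have hC0 := zero_lt_one.trans_le hC
  have hv : 0 < vn p := Real.sqrt_pos.mpr (vsq_pos hp)
  obtain ⟨z1, z2, z3, z4⟩ := pow_le_zz p M
  set B := tenB g h x p M with hB
  have hs := ss_nonneg B
  have h1 := b_nsq hc B
  have h2 := b_bnn hc p B
  have h3 := b_btan hc p B
  have hC28 : C ^ 2 ≤ C ^ 8 := MMIT.pow_mono hc (by norm_num)
  have a1 : |nsq g x B / 2| ≤ C ^ 8 * ss B ^ 2 := by
    rw [abs_div, abs_two]
    have : C ^ 2 * ss B ^ 2 ≤ C ^ 8 * ss B ^ 2 := mul_le_mul_of_nonneg_right hC28 (sq_nonneg _)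
    have h0 : 0 ≤ C ^ 8 * ss B ^ 2 := by positivity
    linarith
  have a2 : bnn g x p B ^ 2 ≤ 81 * C ^ 8 * ss B ^ 2 := by
    rw [← sq_abs]
    calc |bnn g x p B| ^ 2 ≤ (9 * C ^ 4 * ss B) ^ 2 := pow_le_pow_left₀ (abs_nonneg _) h2 2
      _ = _ := by ring
  have a3 : btan g x p B ^ 2 ≤ 100 * C ^ 8 * ss B ^ 2 := by
    rw [← sq_abs]
    calc |btan g x p B| ^ 2 ≤ (10 * C ^ 4 * ss B) ^ 2 := pow_le_pow_left₀ (abs_nonneg _) h3 2
      _ = _ := by ring
  have a4 : zed ε g h x p M ^ 2 ≤ 200 * C ^ 8 * ss B ^ 2 + 8 * len g x p ^ 2 := by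
    unfold zed
    rw [← hB]
    have e1 : 0 ≤ 2 * len g x p / (2 - ε) := div_nonneg (by positivity) (by linarith)
    have e2 : 2 * len g x p / (2 - ε) ≤ 2 * len g x p := div_le_self (by positivity) (by linarith)
    have e3 : (2 * len g x p / (2 - ε)) ^ 2 ≤ (2 * len g x p) ^ 2 := pow_le_pow_left₀ e1 e2 2
    nlinarith [sq_nonneg (btan g x p B + 2 * len g x p / (2 - ε))]
  have hε4 : 0 ≤ 1 / ε - 1 / 4 := by
    have : 1 ≤ 1 / ε := by rw [le_div_iff₀ hε]; linarith
    linarith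
  have hε5 : 1 ≤ 1 / ε := by rw [le_div_iff₀ hε]; linarith
  have a5 : |dis0 ε g h x p M| ≤ 300 / ε * C ^ 8 * ss B ^ 2 + 8 / ε * len g x p ^ 2 := by
    unfold dis0
    rw [← hB]
    have e1 : (1 / ε - 1 / 4) * zed ε g h x p M ^ 2 ≤
        1 / ε * (200 * C ^ 8 * ss B ^ 2 + 8 * len g x p ^ 2) :=
      mul_le_mul (by linarith) a4 (sq_nonneg _) (by positivity)
    have e2 : 0 ≤ (1 / ε - 1 / 4) * zed ε g h x p M ^ 2 := mul_nonneg hε4 (sq_nonneg _)
    have e3 : 1 / ε * (200 * C ^ 8 * ss B ^ 2 + 8 * len g x p ^ 2) =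
        200 / ε * C ^ 8 * ss B ^ 2 + 8 / ε * len g x p ^ 2 := by ring
    have e4 : 100 * (C ^ 8 * ss B ^ 2) ≤ 100 / ε * (C ^ 8 * ss B ^ 2) := by
      refine mul_le_mul_of_nonneg_right ?_ (by positivity)
      rw [le_div_iff₀ hε]
      linarith
    have e5 := abs_le.mp a1
    rw [abs_le]
    have e6 : 100 / ε * (C ^ 8 * ss B ^ 2) = 100 / ε * C ^ 8 * ss B ^ 2 := by ring
    have e7 : 300 / ε * C ^ 8 * ss B ^ 2 = 200 / ε * C ^ 8 * ss B ^ 2 +
      100 / ε * C ^ 8 * ss B ^ 2 := by ring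
    have e8 : 0 ≤ bnn g x p B ^ 2 := sq_nonneg _
    have e9 : 0 ≤ btan g x p B ^ 2 := sq_nonneg _
    have e10 : 0 ≤ C ^ 8 * ss B ^ 2 := by positivity
    have e11 : 0 ≤ 200 / ε * C ^ 8 * ss B ^ 2 := by positivity
    have e12 : 0 ≤ 8 / ε * len g x p ^ 2 := by positivity
    constructor
    · nlinarith
    · nlinarith
  rw [abs_mul, abs_of_pos hl]
  have b1 := b_lenten hc p hp M
  rw [← hB] at b1
  have b2 : len g x p ^ 3 ≤ C ^ 3 * vn p ^ 3 := by
    calc len g x p ^ 3 ≤ (C * vn p) ^ 3 := pow_le_pow_left₀ hl.le (b_len hc p) 3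
      _ = _ := by ring
  have hz0 : 0 ≤ zz p M := hv.le.trans z1
  have hm0 : 0 ≤ msq M / vn p := div_nonneg (MMIT.msq_nonneg M) hv.le
  have hC3 : C ^ 3 ≤ C ^ 11 := MMIT.pow_mono hc (by norm_num)
  calc len g x p * |dis0 ε g h x p M|
      ≤ len g x p * (300 / ε * C ^ 8 * ss B ^ 2 + 8 / ε * len g x p ^ 2) :=
        mul_le_mul_of_nonneg_left a5 hl.le
    _ = 300 / ε * C ^ 8 * (len g x p * ss B ^ 2) + 8 / ε * len g x p ^ 3 := by ring
    _ ≤ 300 / ε * C ^ 8 * (2430 * C ^ 3 * (msq M / vn p + vn p)) +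
        8 / ε * (C ^ 3 * vn p ^ 3) :=
        add_le_add (mul_le_mul_of_nonneg_left b1 (by positivity))
          (mul_le_mul_of_nonneg_left b2 (by positivity))
    _ = 729000 / ε * C ^ 11 * (msq M / vn p) + 729000 / ε * C ^ 11 * vn p +
        8 / ε * C ^ 3 * vn p ^ 3 := by ring
    _ ≤ 729000 / ε * C ^ 11 * (msq M / vn p) + 729000 / ε * C ^ 11 * zz p M +
        8 / ε * C ^ 11 * zz p M := by
        have e1 : 729000 / ε * C ^ 11 * vn p ≤ 729000 / ε * C ^ 11 * zz p M :=
          mul_le_mul_of_nonneg_left z1 (by positivity)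
        have e2 : 8 / ε * C ^ 3 * vn p ^ 3 ≤ 8 / ε * C ^ 11 * zz p M :=
          mul_le_mul (mul_le_mul_of_nonneg_left hC3 (by positivity)) z3 (by positivity)
            (by positivity)
        linarith
    _ ≤ 1000000 / ε * C ^ 11 * (msq M / vn p + zz p M) := by
        have e0 : 0 ≤ 1 / ε * C ^ 11 := by positivity
        have e1 : 1000000 / ε * C ^ 11 * (msq M / vn p + zz p M) =
          1000000 * ((1 / ε * C ^ 11) * (msq M / vn p)) +
            1000000 * ((1 / ε * C ^ 11) * zz p M) := by ring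
        have e2 : 729000 / ε * C ^ 11 * (msq M / vn p) + 729000 / ε * C ^ 11 * zz p M +
          8 / ε * C ^ 11 * zz p M = 729000 * ((1 / ε * C ^ 11) * (msq M / vn p)) +
            729008 * ((1 / ε * C ^ 11) * zz p M) := by ring
        rw [e1, e2]
        have e3 := mul_nonneg e0 hm0
        have e4 := mul_nonneg e0 hz0
        linarith

/-- The term with the residual. -/
theorem b_res {ε θ : ℝ} (hε : 0 < ε) (hε1 : ε < 1) (hθ : 0 < θ) (p : Cov) (hp : p ≠ 0) (M : Bil)
    (hpos : (1 / ε - 1 / 4) * zed ε g h x p M ^ 2 ≤ dis0 ε g h x p M) :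
    |resid ε g h x p M * zed ε g h x p M / ε| ≤ θ * (len g x p * dis0 ε g h x p M)
      + C / (θ * ε ^ 2) * (resid ε g h x p M ^ 2 / vn p) := by
  have hl := len_pos' hc hp
  have hC0 := zero_lt_one.trans_le hc.one
  have hv : 0 < vn p := Real.sqrt_pos.mpr (vsq_pos hp)
  have hε5 : 1 ≤ 1 / ε := by rw [le_div_iff₀ hε]; linarith
  set r := resid ε g h x p M
  set z := zed ε g h x p M
  have h1 : θ * len g x p * (3 / 4 * z ^ 2) ≤ θ * (len g x p * dis0 ε g h x p M) := by
    have e1 : 3 / 4 * z ^ 2 ≤ (1 / ε - 1 / 4) * z ^ 2 :=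
      mul_le_mul_of_nonneg_right (by linarith) (sq_nonneg _)
    rw [← mul_assoc θ]
    exact mul_le_mul_of_nonneg_left (e1.trans hpos) (by positivity)
  have hlinv : (len g x p)⁻¹ ≤ C / vn p := by
    rw [inv_le_comm₀ hl (by positivity), inv_div]
    exact b_len' hc p
  have h2 : r ^ 2 / (θ * ε ^ 2) * (len g x p)⁻¹ ≤ C / (θ * ε ^ 2) * (r ^ 2 / vn p) := by
    calc r ^ 2 / (θ * ε ^ 2) * (len g x p)⁻¹ ≤ r ^ 2 / (θ * ε ^ 2) * (C / vn p) :=
          mul_le_mul_of_nonneg_left hlinv (by positivity)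
      _ = _ := by ring
  have h3 : |r * z / ε| ≤ θ * len g x p * (3 / 4 * z ^ 2) +
      r ^ 2 / (θ * ε ^ 2) * (len g x p)⁻¹ := by
    have key : ∀ t : ℝ, (t = r * z / ε ∨ t = -(r * z / ε)) → t ≤ θ * len g x p * (3 / 4 * z ^ 2) +
        r ^ 2 / (θ * ε ^ 2) * (len g x p)⁻¹ := by
      intro t ht
      have e1 : θ * len g x p * (3 / 4 * z ^ 2) + r ^ 2 / (θ * ε ^ 2) * (len g x p)⁻¹ -
          r * z / ε = (3 / 4) * (θ * len g x p) * (z - 2 / 3 * (r / (ε * (θ * len g x p)))) ^ 2 +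
          2 / 3 * (r ^ 2 / (θ * ε ^ 2) * (len g x p)⁻¹) := by
        field_simp
        ring
      have e2 : θ * len g x p * (3 / 4 * z ^ 2) + r ^ 2 / (θ * ε ^ 2) * (len g x p)⁻¹ +
          r * z / ε = (3 / 4) * (θ * len g x p) * (z + 2 / 3 * (r / (ε * (θ * len g x p)))) ^ 2 +
          2 / 3 * (r ^ 2 / (θ * ε ^ 2) * (len g x p)⁻¹) := by
        field_simp
        ring
      have e3 : 0 ≤ (3 / 4) * (θ * len g x p) *
          (z - 2 / 3 * (r / (ε * (θ * len g x p)))) ^ 2 +
          2 / 3 * (r ^ 2 / (θ * ε ^ 2) * (len g x p)⁻¹) := by positivity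
      have e4 : 0 ≤ (3 / 4) * (θ * len g x p) *
          (z + 2 / 3 * (r / (ε * (θ * len g x p)))) ^ 2 +
          2 / 3 * (r ^ 2 / (θ * ε ^ 2) * (len g x p)⁻¹) := by positivity
      rcases ht with rfl | rfl
      · linarith
      · linarith
    exact abs_le.mpr ⟨by linarith [key _ (Or.inr rfl)], key _ (Or.inl rfl)⟩
  linarith

end Bounds

/-! ### Cut-off functions -/

/-- A cut-off function: zero near the points of `Cr`, one away from them. -/
noncomputable def cut (Cr : Finset ℝ) (k : ℕ) (s : ℝ) : ℝ :=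
  ∏ c ∈ Cr, Real.smoothTransition (((k : ℝ) + 1) ^ 2 * (s - c) ^ 2 - 1)

theorem cut_smooth (Cr : Finset ℝ) (k : ℕ) : ContDiff ℝ 1 (cut Cr k) := by
  unfold cut
  refine contDiff_prod fun c _ => ?_
  exact Real.smoothTransition.contDiff.comp
    ((contDiff_const.mul ((contDiff_id.sub contDiff_const).pow 2)).sub contDiff_const)

theorem cut_nonneg (Cr : Finset ℝ) (k : ℕ) (s : ℝ) : 0 ≤ cut Cr k s :=
  Finset.prod_nonneg fun _ _ => Real.smoothTransition.nonneg _

theorem cut_le_one (Cr : Finset ℝ) (k : ℕ) (s : ℝ) : cut Cr k s ≤ 1 :=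
  Finset.prod_le_one (fun _ _ => Real.smoothTransition.nonneg _)
    fun _ _ => Real.smoothTransition.le_one _

theorem cut_zero (Cr : Finset ℝ) (k : ℕ) {c : ℝ} (hc : c ∈ Cr) :
    ∀ᶠ s in 𝓝 c, cut Cr k s = 0 := by
  have hk : (0 : ℝ) < (k : ℝ) + 1 := by positivity
  have h1 : Tendsto (fun s : ℝ => ((k : ℝ) + 1) ^ 2 * (s - c) ^ 2 - 1) (𝓝 c)
      (𝓝 (((k : ℝ) + 1) ^ 2 * (c - c) ^ 2 - 1)) := by
    apply Continuous.tendsto
    fun_prop
  have h2 : ((k : ℝ) + 1) ^ 2 * (c - c) ^ 2 - 1 < 0 := by simp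
  filter_upwards [h1.eventually_lt_const h2] with s hs
  exact Finset.prod_eq_zero hc (Real.smoothTransition.zero_of_nonpos hs.le)

theorem cut_lim (Cr : Finset ℝ) {s : ℝ} (hs : s ∉ Cr) :
    Tendsto (fun k => cut Cr k s) atTop (𝓝 1) := by
  have h1 : ∀ c ∈ Cr, ∀ᶠ k : ℕ in atTop,
      Real.smoothTransition (((k : ℝ) + 1) ^ 2 * (s - c) ^ 2 - 1) = 1 := by
    intro c hc
    have hne : 0 < (s - c) ^ 2 := by
      have : s - c ≠ 0 := fun h => hs (by rwa [sub_eq_zero.mp h])
      positivity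
    have h2 : Tendsto (fun k : ℕ => ((k : ℝ) + 1) ^ 2 * (s - c) ^ 2 - 1) atTop atTop := by
      refine tendsto_atTop_add_const_right _ _ (Tendsto.atTop_mul_const hne ?_)
      exact (tendsto_pow_atTop (by norm_num)).comp
        (tendsto_atTop_add_const_right _ _ tendsto_natCast_atTop_atTop)
    filter_upwards [h2.eventually_ge_atTop 1] with k hk
    exact Real.smoothTransition.one_of_one_le hk
  have h3 : ∀ᶠ k : ℕ in atTop, ∀ c ∈ Cr,
      Real.smoothTransition (((k : ℝ) + 1) ^ 2 * (s - c) ^ 2 - 1) = 1 :=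
    (Filter.eventually_all_finset Cr).mpr h1
  refine tendsto_const_nhds.congr' ?_
  filter_upwards [h3] with k hk
  exact (Finset.prod_eq_one hk).symm

/-- The measurability of the residual. -/
theorem m_resid {μ : Measure E3} {g h : TensorField} (hc : MCF.Coef μ g h) {p : E3 → Cov}
    {M : E3 → Bil} (ε : ℝ) (hp : ∀ i, AEMeasurable (fun x => p x i) μ)
    (hM : ∀ i j, AEMeasurable (fun x => M x i j) μ) :
    AEMeasurable (fun x => resid ε g h x (p x) (M x)) μ := by
  unfold resid beps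
  exact (((MCF.m_trg hc (MCF.m_cHess hc hp hM)).sub
    ((MCF.m_bnn hc hp (MCF.m_cHess hc hp hM)).const_mul _)).sub
    ((MCF.m_len hc hp).pow_const 2)).sub ((MCF.m_len hc hp).mul
      ((MCF.m_trg hc hc.ten).sub ((MCF.m_bnn hc hp hc.ten).const_mul _)))

theorem int5 {μ : Measure E3} {f₁ f₂ f₃ f₄ f₅ : E3 → ℝ} (r : ℝ) (h₁ : Integrable f₁ μ)
    (h₂ : Integrable f₂ μ) (h₃ : Integrable f₃ μ) (h₄ : Integrable f₄ μ) (h₅ : Integrable f₅ μ) :
    ∫ x, (f₁ x + f₂ x + f₃ x + r * f₄ x - f₅ x) ∂μ =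
      (∫ x, f₁ x ∂μ) + (∫ x, f₂ x ∂μ) + (∫ x, f₃ x ∂μ) + r * (∫ x, f₄ x ∂μ) - ∫ x, f₅ x ∂μ := by
  have h12 : Integrable (fun x => f₁ x + f₂ x) μ := h₁.add h₂
  have h123 : Integrable (fun x => f₁ x + f₂ x + f₃ x) μ := h12.add h₃
  have h4' : Integrable (fun x => r * f₄ x) μ := h₄.const_mul r
  have h1234 : Integrable (fun x => f₁ x + f₂ x + f₃ x + r * f₄ x) μ := h123.add h4'
  rw [integral_sub h1234 h₅, integral_add h123 h4', integral_add h12 h₃, integral_add h₁ h₂,
    integral_const_mul]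

theorem int2 {μ : Measure E3} {f₁ f₂ : E3 → ℝ} (r s : ℝ) (h₁ : Integrable f₁ μ)
    (h₂ : Integrable f₂ μ) :
    ∫ x, (r * f₁ x + s * f₂ x) ∂μ = r * (∫ x, f₁ x ∂μ) + s * (∫ x, f₂ x ∂μ) := by
  have h1' : Integrable (fun x => r * f₁ x) μ := h₁.const_mul r
  have h2' : Integrable (fun x => s * f₂ x) μ := h₂.const_mul s
  rw [integral_add h1' h2', integral_const_mul, integral_const_mul]

end MLS

open MLS MMIT in
theorem LS (hLSB : Stmt_LSB) (hLSG : Stmt_LSG) (hID : Stmt_ID) (hPOS : Stmt_POS)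
    (_hUP : Stmt_UP) (hCT : Stmt_CT) : Stmt_LS := by
  intro ε θ U g h K hε hε1 hθ hθ1 hU hg hh hK hKU
  obtain ⟨C₀, hC₀, hlsb⟩ := hLSB ε U g h K hε hε1 hU hg hh hK hKU
  obtain ⟨c, hc1, hcx⟩ := hCT U g h hU hg hh K hK hKU
  have hc0 : 0 ≤ c := zero_le_one.trans hc1
  have hcs : ∀ x ∈ K, Cs c g h x := by
    intro x hx
    obtain ⟨e1, _, _, e4, e5, e6, e7, _, e9, _, _⟩ := hcx x hx
    exact ⟨hc1, fun p => (e1 p).1, fun p => (e1 p).2, e4, e5, e6, e7, e9⟩
  have hvol : ∀ x ∈ K, volDen g x ≤ c := fun x hx => (hcx x hx).2.2.2.2.2.2.2.2.2.2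
  have hvolpos : ∀ x ∈ K, 0 < volDen g x := fun x hx => MCF.volDen_pos hg (hKU hx)
  refine ⟨C₀ + c ^ 2 / (θ * ε ^ 2), by positivity, ?_⟩
  intro a' b' s₀ s₁ t₀ t₁ W v Cn z₁ ψ B hD hB hfin hres
  obtain ⟨hi1, hi2, hineq⟩ := hlsb a' b' s₀ s₁ t₀ t₁ W v Cn z₁ ψ B hD hB hfin hres
  set S : Set E3 := K ∩ good W s₀ s₁ 0 z₁ with hS
  have hSK : S ⊆ K := Set.inter_subset_left
  have hB0 : 0 ≤ B := (hD.nonneg 0).trans (hB 0)
  -- the measures
  have hfinK : IsFiniteMeasure (volume.restrict K) :=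
    ⟨by rw [Measure.restrict_apply_univ]; exact hK.measure_lt_top⟩
  have hle : volume.restrict S ≤ volume.restrict K := Measure.restrict_mono hSK le_rfl
  have hcf : MCF.Coef (volume.restrict K) g h := MCF.coef hU hg hh hK hKU
  have hmem : ∀ᵐ x ∂(volume.restrict K), x ∈ K := ae_restrict_mem hK.measurableSet
  have hpc : ∀ i, Continuous (fun x => grad v x i) := fun i => (pd_cont hD.smooth i).continuous
  have hhc : ∀ i j, Continuous (fun x => hess2 v x i j) := fun i j =>
    (pd_cont (pd_cont hD.smooth j) i).continuous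
  have hpm : ∀ i, AEMeasurable (fun x => grad v x i) (volume.restrict K) := fun i =>
    (hpc i).measurable.aemeasurable
  have hhm : ∀ i j, AEMeasurable (fun x => hess2 v x i j) (volume.restrict K) := fun i j =>
    (hhc i j).measurable.aemeasurable
  have hzz : Integrable (fun x => zz (grad v x) (hess2 v x)) (volume.restrict K) := by
    have h1 : Continuous (fun x => zz (grad v x) (hess2 v x)) := by
      unfold zz vsq msq
      refine (continuous_const.add ((continuous_finsetSum _ fun i _ => (hpc i).pow 2).pow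
        2)).add (continuous_finsetSum _ fun i _ => continuous_finsetSum _ fun j _ =>
          (hhc i j).pow 2)
    exact h1.continuousOn.integrableOn_compact hK
  have hψ1 : ContDiff ℝ 1 ψ := hD.diff
  have hψc : Continuous ψ := hψ1.continuous
  have hψs : HasCompactSupport ψ := by
    refine IsCompact.of_isClosed_subset (isCompact_Icc (a := t₀) (b := t₁))
      (isClosed_tsupport ψ) ?_
    exact hD.supp.trans Set.Ioo_subset_Icc_self
  have hψv : Continuous (fun x => ψ (v x)) := hψc.comp hD.smooth.continuous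
  have hψvm : AEMeasurable (fun x => ψ (v x)) (volume.restrict K) := hψv.measurable.aemeasurable
  -- the critical points
  have hne : ∀ᵐ x ∂(volume.restrict K), grad v x ≠ 0 := by
    rw [ae_restrict_iff' hK.measurableSet]
    have h1 : volume {x ∈ K | grad v x = 0} = 0 := hfin.measure_zero volume
    filter_upwards [measure_eq_zero_iff_ae_notMem.mp h1] with x hx hxK h0
    exact hx ⟨hxK, h0⟩
  set Cr : Finset ℝ := (hfin.image v).toFinset with hCr
  have hnc : ∀ᵐ x ∂(volume.restrict K), v x ∉ Cr := by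
    have h1 : ∀ᵐ x : E3, ∀ s ∈ Cr, W x - s = 0 → fderiv ℝ (fun y => W y - s) x = 0 := by
      rw [Filter.eventually_all_finset]
      intro s _
      have h2 : LipschitzWith Cn (fun y => W y - s) := by
        have := hD.lip.sub (LipschitzWith.const s)
        simpa using this
      exact MAEG.ae_fderiv_zero h2
    filter_upwards [ae_restrict_of_ae h1, hne, hmem] with x hx hx0 hxK hxC
    apply hx0
    have h3 := hD.agree x hxK
    have h4 : W x = v x := h3.self_of_nhds
    have h5 := hx (v x) hxC (by rw [h4, sub_self])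
    rw [fderiv_sub_const] at h5
    have h6 : fderiv ℝ v x = 0 := by
      rw [← h5]
      exact (Filter.EventuallyEq.fderiv_eq h3).symm
    funext i
    change fderiv ℝ v x _ = 0
    rw [h6]
    rfl
  -- the identity
  have hid : ∀ᵐ x ∂(volume.restrict K), DZx ε g h 0 x (grad v x) (hess2 v x) =
      Kd g x (grad v x) (hess2 v x) - len g x (grad v x) * (matter g h x (grad v x)
        + diss ε g h x (grad v x) (hess2 v x))
      - flux ε g h x (grad v x) (hess2 v x) / (2 - ε)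
      + resid ε g h x (grad v x) (hess2 v x) * zed ε g h x (grad v x) (hess2 v x) / ε := by
    filter_upwards [hmem, hne] with x hx hx0
    exact hID U g h hU hg hh x (hKU hx) ε _ _ hε hε1 hx0 (hess_symm hD.smooth x)
  have hpos : ∀ᵐ x ∂(volume.restrict K), (1 / ε - 1 / 4) *
      zed ε g h x (grad v x) (hess2 v x) ^ 2 ≤ dis0 ε g h x (grad v x) (hess2 v x) := by
    filter_upwards [hmem, hne] with x hx hx0
    exact hPOS U g h hU hg hh x (hKU hx) ε _ _ hε hε1 hx0 (hess_symm hD.smooth x)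
  -- nonnegativity of the test function and of the density
  have hψ0 : ∀ x, 0 ≤ ψ (v x) := fun x => hD.nonneg _
  have hψB : ∀ x, ψ (v x) ≤ B := fun x => hB _
  -- integrability
  have hdi : IntegrableOn (fun x => ψ (v x) * (len g x (grad v x) *
      dis0 ε g h x (grad v x) (hess2 v x)) * volDen g x) S := by
    have hm : AEStronglyMeasurable (fun x => ψ (v x) * (len g x (grad v x) *
        dis0 ε g h x (grad v x) (hess2 v x)) * volDen g x) (volume.restrict S) :=
      (((hψvm.mul ((MCF.m_len hcf hpm).mul (MCF.m_dis0 hcf ε hpm hhm))).mul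
        hcf.vol).mono_measure hle).aestronglyMeasurable
    have hb : IntegrableOn (fun x => c * (1000000 / ε * c ^ 11) *
        (ψ (v x) * (msq (hess2 v x) / vn (grad v x))) + c * (1000000 / ε * c ^ 11) * B *
          zz (grad v x) (hess2 v x)) S :=
      (hi1.const_mul _).add ((hzz.mono_measure hle).const_mul _)
    refine hb.mono' hm ?_
    filter_upwards [hle.absolutelyContinuous.ae_le (hmem.and hne)] with x hx
    obtain ⟨hxK, hx0⟩ := hx
    have h1 := b_dis0 (hcs x hxK) hε hε1 (grad v x) hx0 (hess2 v x)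
    have hA : 0 ≤ 1000000 / ε * c ^ 11 := by positivity
    have hz0 : 0 ≤ zz (grad v x) (hess2 v x) :=
      (vn_nonneg _).trans (pow_le_zz (grad v x) (hess2 v x)).1
    have hm0 : 0 ≤ msq (hess2 v x) / vn (grad v x) :=
      div_nonneg (msq_nonneg _) (vn_nonneg _)
    rw [Real.norm_eq_abs, abs_mul, abs_mul, abs_of_nonneg (hψ0 x), abs_of_pos (hvolpos x hxK)]
    calc ψ (v x) * |len g x (grad v x) * dis0 ε g h x (grad v x) (hess2 v x)| * volDen g x
        ≤ ψ (v x) * (1000000 / ε * c ^ 11 * (msq (hess2 v x) / vn (grad v x)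
          + zz (grad v x) (hess2 v x))) * c :=
          mul_le_mul (mul_le_mul_of_nonneg_left h1 (hψ0 x)) (hvol x hxK) (hvolpos x hxK).le
            (mul_nonneg (hψ0 x) (mul_nonneg hA (add_nonneg hm0 hz0)))
      _ = c * (1000000 / ε * c ^ 11) * (ψ (v x) * (msq (hess2 v x) / vn (grad v x)))
          + c * (1000000 / ε * c ^ 11) * (ψ (v x) * zz (grad v x) (hess2 v x)) := by ring
      _ ≤ c * (1000000 / ε * c ^ 11) * (ψ (v x) * (msq (hess2 v x) / vn (grad v x)))
          + c * (1000000 / ε * c ^ 11) * (B * zz (grad v x) (hess2 v x)) := by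
          have h2 : ψ (v x) * zz (grad v x) (hess2 v x) ≤ B * zz (grad v x) (hess2 v x) :=
            mul_le_mul_of_nonneg_right (hψB x) hz0
          have h3 := mul_le_mul_of_nonneg_left h2 (mul_nonneg hc0 hA)
          linarith
      _ = _ := by ring
  refine ⟨hdi, ?_⟩
  have hbdd : ∀ {F : E3 → ℝ}, Integrable F (volume.restrict K) →
      IntegrableOn (fun x => ψ (v x) * F x * volDen g x) S := by
    intro F hF
    have h1 : Integrable (fun x => ψ (v x) * F x * volDen g x) (volume.restrict K) := by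
      refine (hF.norm.const_mul (B * c)).mono' ((hψvm.mul hF.aestronglyMeasurable.aemeasurable).mul
        hcf.vol).aestronglyMeasurable ?_
      filter_upwards [hmem] with x hx
      rw [norm_mul, norm_mul, Real.norm_of_nonneg (hψ0 x), Real.norm_of_nonneg (hvolpos x hx).le]
      calc ψ (v x) * ‖F x‖ * volDen g x ≤ B * ‖F x‖ * c :=
            mul_le_mul (mul_le_mul_of_nonneg_right (hψB x) (norm_nonneg _)) (hvol x hx)
              (hvolpos x hx).le (mul_nonneg hB0 (norm_nonneg _))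
        _ = _ := by ring
    exact h1.mono_measure hle
  have hcae : ∀ᵐ x ∂(volume.restrict K), Cs c g h x := hmem.mono hcs
  have hfi := hbdd (int_flux hcf hcae hε hε1 hpm hhm hzz)
  have hmi := hbdd (int_mat hcf hcae hε hε1 hpm hhm hzz)
  have hri : IntegrableOn (fun x => resid ε g h x (grad v x) (hess2 v x) ^ 2 / vn (grad v x)) S :=
    hres.mono_set hSK
  have hqb : ∀ᵐ x ∂(volume.restrict S), |ψ (v x) * (resid ε g h x (grad v x) (hess2 v x) *
      zed ε g h x (grad v x) (hess2 v x) / ε) * volDen g x| ≤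
      θ * (ψ (v x) * (len g x (grad v x) * dis0 ε g h x (grad v x) (hess2 v x)) * volDen g x)
        + B * (c ^ 2 / (θ * ε ^ 2)) *
          (resid ε g h x (grad v x) (hess2 v x) ^ 2 / vn (grad v x)) := by
    filter_upwards [hle.absolutelyContinuous.ae_le ((hmem.and hne).and hpos)] with x hx
    obtain ⟨⟨hxK, hx0⟩, hxp⟩ := hx
    have h1 := b_res (hcs x hxK) hε hε1 hθ (grad v x) hx0 (hess2 v x) hxp
    have hr0 : 0 ≤ resid ε g h x (grad v x) (hess2 v x) ^ 2 / vn (grad v x) :=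
      div_nonneg (sq_nonneg _) (vn_nonneg _)
    rw [abs_mul, abs_mul, abs_of_nonneg (hψ0 x), abs_of_pos (hvolpos x hxK)]
    calc ψ (v x) * |resid ε g h x (grad v x) (hess2 v x) *
          zed ε g h x (grad v x) (hess2 v x) / ε| * volDen g x
        ≤ ψ (v x) * (θ * (len g x (grad v x) * dis0 ε g h x (grad v x) (hess2 v x))
          + c / (θ * ε ^ 2) * (resid ε g h x (grad v x) (hess2 v x) ^ 2 / vn (grad v x)))
            * volDen g x :=
          mul_le_mul_of_nonneg_right (mul_le_mul_of_nonneg_left h1 (hψ0 x)) (hvolpos x hxK).le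
      _ = θ * (ψ (v x) * (len g x (grad v x) * dis0 ε g h x (grad v x) (hess2 v x)) * volDen g x)
          + (ψ (v x) * volDen g x) * (c / (θ * ε ^ 2) *
            (resid ε g h x (grad v x) (hess2 v x) ^ 2 / vn (grad v x))) := by ring
      _ ≤ θ * (ψ (v x) * (len g x (grad v x) * dis0 ε g h x (grad v x) (hess2 v x)) * volDen g x)
          + (B * c) * (c / (θ * ε ^ 2) *
            (resid ε g h x (grad v x) (hess2 v x) ^ 2 / vn (grad v x))) := by
          have h2 : ψ (v x) * volDen g x ≤ B * c :=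
            mul_le_mul (hψB x) (hvol x hxK) (hvolpos x hxK).le hB0
          have h3 := mul_le_mul_of_nonneg_right h2 (by positivity : 0 ≤ c / (θ * ε ^ 2) *
            (resid ε g h x (grad v x) (hess2 v x) ^ 2 / vn (grad v x)))
          linarith
      _ = _ := by ring
  have hqi : IntegrableOn (fun x => ψ (v x) * (resid ε g h x (grad v x) (hess2 v x) *
      zed ε g h x (grad v x) (hess2 v x) / ε) * volDen g x) S := by
    refine ((hdi.const_mul θ).add (hri.const_mul (B * (c ^ 2 / (θ * ε ^ 2))))).mono' ?_ hqb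
    exact (((hψvm.mul (((m_resid hcf ε hpm hhm).mul (MCF.m_zed hcf ε hpm hhm)).div_const ε)).mul
        hcf.vol).mono_measure hle).aestronglyMeasurable
  -- the Gauss curvature term
  have hκ : ∀ᵐ x ∂(volume.restrict S), ψ (v x) * Kd g x (grad v x) (hess2 v x) * volDen g x =
      ψ (v x) * DZx ε g h 0 x (grad v x) (hess2 v x) * volDen g x
      + ψ (v x) * (len g x (grad v x) * (matter g h x (grad v x)
        + diss ε g h x (grad v x) (hess2 v x) - dis0 ε g h x (grad v x) (hess2 v x)))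
          * volDen g x
      + ψ (v x) * (len g x (grad v x) * dis0 ε g h x (grad v x) (hess2 v x)) * volDen g x
      + 1 / (2 - ε) * (ψ (v x) * flux ε g h x (grad v x) (hess2 v x) * volDen g x)
      - ψ (v x) * (resid ε g h x (grad v x) (hess2 v x) *
        zed ε g h x (grad v x) (hess2 v x) / ε) * volDen g x := by
    filter_upwards [hle.absolutelyContinuous.ae_le hid] with x hx
    rw [hx]
    ring
  have hκi : IntegrableOn (fun x => ψ (v x) * Kd g x (grad v x) (hess2 v x) * volDen g x) S :=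
    ((((hi2.add hmi).add hdi).add (hfi.const_mul (1 / (2 - ε)))).sub hqi).congr
      (hκ.mono fun x hx => hx.symm)
  have hκint : ∫ x in S, ψ (v x) * Kd g x (grad v x) (hess2 v x) * volDen g x =
      (∫ x in S, ψ (v x) * DZx ε g h 0 x (grad v x) (hess2 v x) * volDen g x)
      + (∫ x in S, ψ (v x) * (len g x (grad v x) * (matter g h x (grad v x)
        + diss ε g h x (grad v x) (hess2 v x) - dis0 ε g h x (grad v x) (hess2 v x)))
          * volDen g x)
      + (∫ x in S, ψ (v x) * (len g x (grad v x) * dis0 ε g h x (grad v x) (hess2 v x))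
          * volDen g x)
      + 1 / (2 - ε) * (∫ x in S, ψ (v x) * flux ε g h x (grad v x) (hess2 v x) * volDen g x)
      - ∫ x in S, ψ (v x) * (resid ε g h x (grad v x) (hess2 v x) *
        zed ε g h x (grad v x) (hess2 v x) / ε) * volDen g x := by
    rw [integral_congr_ae hκ]
    exact int5 (1 / (2 - ε)) hi2 hmi hdi hfi hqi
  -- the Gauss-Bonnet inequality in the limit
  have hGB : ∫ x in S, ψ (v x) * Kd g x (grad v x) (hess2 v x) * volDen g x ≤
      4 * Real.pi * ∫ s, ψ s := by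
    have hψi : Integrable ψ := hψc.integrable_of_hasCompactSupport hψs
    have hlim : Tendsto (fun k => ∫ x in S, cut Cr k (v x) *
        (ψ (v x) * Kd g x (grad v x) (hess2 v x) * volDen g x)) atTop
        (𝓝 (∫ x in S, ψ (v x) * Kd g x (grad v x) (hess2 v x) * volDen g x)) := by
      refine tendsto_integral_of_dominated_convergence
        (fun x => ‖ψ (v x) * Kd g x (grad v x) (hess2 v x) * volDen g x‖) ?_ hκi.norm ?_ ?_
      · intro k
        exact (((cut_smooth Cr k).continuous.comp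
          hD.smooth.continuous).aestronglyMeasurable).mul hκi.aestronglyMeasurable
      · intro k
        filter_upwards with x
        rw [norm_mul, Real.norm_of_nonneg (cut_nonneg Cr k _)]
        exact mul_le_of_le_one_left (norm_nonneg _) (cut_le_one Cr k _)
      · filter_upwards [hle.absolutelyContinuous.ae_le hnc] with x hx
        have h1 := (cut_lim Cr hx).mul_const
          (ψ (v x) * Kd g x (grad v x) (hess2 v x) * volDen g x)
        rwa [one_mul] at h1
    refine le_of_tendsto' hlim fun k => ?_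
    have hχ : BumpOn t₀ t₁ (fun s => ψ s * cut Cr k s) :=
      ⟨hψ1.mul (cut_smooth Cr k), fun s => mul_nonneg (hD.nonneg s) (cut_nonneg Cr k s),
        (tsupport_mul_subset_left (f := ψ) (g := cut Cr k)).trans hD.supp⟩
    have h1 := hLSG U g h a' b' s₀ s₁ t₀ t₁ W v Cn z₁ K ψ (fun s => ψ s * cut Cr k s) hD hχ
      hfin (by
        intro x hx hx0
        rw [notMem_tsupport_iff_eventuallyEq]
        have h2 : v x ∈ Cr := by
          rw [hCr, Set.Finite.mem_toFinset]
          exact ⟨x, ⟨hx, hx0⟩, rfl⟩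
        filter_upwards [cut_zero Cr k h2] with s hs
        rw [hs, mul_zero]
        rfl)
    have h2 : ∫ s, ψ s * cut Cr k s ≤ ∫ s, ψ s := by
      refine integral_mono_of_nonneg ?_ hψi ?_
      · filter_upwards with s
        exact mul_nonneg (hD.nonneg s) (cut_nonneg Cr k s)
      · filter_upwards with s
        exact mul_le_of_le_one_right (hD.nonneg s) (cut_le_one Cr k s)
    have h3 : ∫ x in S, cut Cr k (v x) *
        (ψ (v x) * Kd g x (grad v x) (hess2 v x) * volDen g x) =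
        ∫ x in S, (ψ (v x) * cut Cr k (v x)) * Kd g x (grad v x) (hess2 v x) * volDen g x := by
      refine integral_congr_ae ?_
      filter_upwards with x
      ring
    rw [h3]
    refine h1.trans ?_
    exact mul_le_mul_of_nonneg_left h2 (by positivity)
  -- the term with the residual
  have hq : ∫ x in S, ψ (v x) * (resid ε g h x (grad v x) (hess2 v x) *
      zed ε g h x (grad v x) (hess2 v x) / ε) * volDen g x ≤
      θ * (∫ x in S, ψ (v x) * (len g x (grad v x) * dis0 ε g h x (grad v x) (hess2 v x))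
          * volDen g x)
        + B * (c ^ 2 / (θ * ε ^ 2)) *
          ∫ x in K, resid ε g h x (grad v x) (hess2 v x) ^ 2 / vn (grad v x) := by
    have h1 := (integral_mono_ae hqi ((hdi.const_mul θ).add
      (hri.const_mul (B * (c ^ 2 / (θ * ε ^ 2)))))
        (hqb.mono fun x hx => (le_abs_self _).trans hx)).trans_eq
          (int2 θ (B * (c ^ 2 / (θ * ε ^ 2))) hdi hri)
    have h2 : ∫ x in S, resid ε g h x (grad v x) (hess2 v x) ^ 2 / vn (grad v x) ≤
        ∫ x in K, resid ε g h x (grad v x) (hess2 v x) ^ 2 / vn (grad v x) := by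
      refine setIntegral_mono_set hres ?_ hSK.eventuallyLE
      filter_upwards with x
      exact div_nonneg (sq_nonneg _) (vn_nonneg _)
    have h3 := mul_le_mul_of_nonneg_left h2 (by positivity : 0 ≤ B * (c ^ 2 / (θ * ε ^ 2)))
    linarith
  -- the filled part
  have hbK : badset W s₀ s₁ z₁ ψ ⊆ K := fun x hx =>
    hD.levels x (Set.Ioo_subset_Icc_self (hD.supp hx.1))
  have hbad : ∫ x in badset W s₀ s₁ z₁ ψ,
      (resid ε g h x (grad v x) (hess2 v x) ^ 2 / vn (grad v x)
          + (1 + vsq (grad v x)) * vn (grad v x)) ≤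
      (∫ x in K, resid ε g h x (grad v x) (hess2 v x) ^ 2 / vn (grad v x))
        + ∫ x in badset W s₀ s₁ z₁ ψ, (1 + vsq (grad v x)) * vn (grad v x) := by
    rw [integral_add (hres.mono_set hbK) ((int_vol hpm hzz).mono_measure
      (Measure.restrict_mono hbK le_rfl))]
    refine add_le_add_left ?_ _
    refine setIntegral_mono_set hres ?_ hbK.eventuallyLE
    filter_upwards with x
    exact div_nonneg (sq_nonneg _) (vn_nonneg _)
  have hbad2 := mul_le_mul_of_nonneg_left hbad (mul_nonneg hC₀ hB0)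
  have hvb0 : 0 ≤ ∫ x in badset W s₀ s₁ z₁ ψ, (1 + vsq (grad v x)) * vn (grad v x) := by
    refine integral_nonneg fun x => ?_
    exact mul_nonneg (by have := vsq_nonneg (grad v x); linarith) (vn_nonneg _)
  have hvb1 : 0 ≤ c ^ 2 / (θ * ε ^ 2) * B *
      ∫ x in badset W s₀ s₁ z₁ ψ, (1 + vsq (grad v x)) * vn (grad v x) := by positivity
  rw [hκint] at hGB
  linarith

end Pool.Agent.PFlow
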