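import Pool.Agent.PFlow.StmtsM

/-!
# Module LSA: integration by parts with `ψ` of the filled function
-/

open MeasureTheory Filter Topology
open scoped ContDiff

namespace Pool.Agent.PFlow

open Pool.Agent.PenroseSph

theorem LSA (hZD : Stmt_ZD) (hIB : Stmt_IB) (hAEG : Stmt_AEG) (hFA : Stmt_FA) : Stmt_LSA := by
  intro ε U g h a' b' s₀ s₁ t₀ t₁ W v C z₁ K ψ hε hε1 D d hd
  obtain ⟨-, hfillL, -⟩ := hFA a' b' s₀ s₁ W C z₁ D.trunc D.lip D.far
  obtain ⟨hgc, hae⟩ := hAEG a' b' s₀ s₁ W C z₁ D.trunc D.lip D.far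
  obtain ⟨-, hZ1, -, hZ2⟩ :=
    hZD ε U g h v d hε hε1 D.openU D.met D.ten D.smooth.contDiffOn hd
  have hψc : HasCompactSupport ψ :=
    isCompact_Icc.of_isClosed_subset (isClosed_tsupport ψ) (D.supp.trans Set.Ioo_subset_Icc_self)
  obtain ⟨C', hC'⟩ := D.diff.lipschitzWith_of_hasCompactSupport hψc one_ne_zero
  have hfL : LipschitzWith (C' * C) (fun x => ψ (fill W s₀ s₁ 0 z₁ x)) := hC'.comp hfillL
  have hsub : ∀ x, ψ (fill W s₀ s₁ 0 z₁ x) ≠ 0 → x ∈ K := fun x hx =>
    D.levels x (Set.Ioo_subset_Icc_self (D.supp (subset_tsupport ψ hx)))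
  have hzero : ∀ x, x ∉ K → ψ (fill W s₀ s₁ 0 z₁ x) = 0 := fun x hx => by
    by_contra h0
    exact hx (hsub x h0)
  have hts : tsupport (fun x => ψ (fill W s₀ s₁ 0 z₁ x)) ⊆ K :=
    closure_minimal (fun x hx => hsub x hx) D.compact.isClosed
  have hfc : HasCompactSupport (fun x => ψ (fill W s₀ s₁ 0 z₁ x)) :=
    D.compact.of_isClosed_subset (isClosed_tsupport _) hts
  have key := hIB U (fun i y => volDen g y * Zf ε g h d y (grad v y) (hess2 v y) i)
    (fun x => ψ (fill W s₀ s₁ 0 z₁ x)) (C' * C) D.openU hZ1 hfL hfc (hts.trans D.sub)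
  have hL : ∫ x, ψ (fill W s₀ s₁ 0 z₁ x) *
      ∑ i, pd i (fun y => volDen g y * Zf ε g h d y (grad v y) (hess2 v y) i) x =
      ∫ x in K, ψ (fill W s₀ s₁ 0 z₁ x) * DZx ε g h d x (grad v x) (hess2 v x) * volDen g x := by
    rw [← setIntegral_eq_integral_of_forall_compl_eq_zero (s := K)]
    · refine setIntegral_congr_fun D.compact.measurableSet (fun x hx => ?_)
      rw [hZ2 x (D.sub hx)]
      ring
    · intro x hx
      rw [hzero x hx, zero_mul]
  have hR : ∫ x, ∑ i, pd i (fun x => ψ (fill W s₀ s₁ 0 z₁ x)) x *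
      (volDen g x * Zf ε g h d x (grad v x) (hess2 v x) i) =
      ∫ x in K ∩ good W s₀ s₁ 0 z₁,
        deriv ψ (v x) * (∑ i, pd i v x * Zf ε g h d x (grad v x) (hess2 v x) i) * volDen g x := by
    rw [← integral_indicator (D.compact.measurableSet.inter hgc.measurableSet)]
    refine integral_congr_ae ?_
    filter_upwards [hae, hfillL.ae_differentiableAt] with x hx hdiff
    have hfd : HasFDerivAt (fun x => ψ (fill W s₀ s₁ 0 z₁ x))
        (deriv ψ (fill W s₀ s₁ 0 z₁ x) • fderiv ℝ (fill W s₀ s₁ 0 z₁) x) x :=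
      ((D.diff.differentiable one_ne_zero).differentiableAt.hasDerivAt).comp_hasFDerivAt x
        hdiff.hasFDerivAt
    by_cases hK : x ∈ K
    · by_cases hg : x ∈ good W s₀ s₁ 0 z₁
      · rw [Set.indicator_of_mem (show x ∈ K ∩ good W s₀ s₁ 0 z₁ from ⟨hK, hg⟩)]
        have h1 : fderiv ℝ (fill W s₀ s₁ 0 z₁) x = fderiv ℝ v x := by
          rw [hx.1 hg]
          exact Filter.EventuallyEq.fderiv_eq (D.agree x hK)
        have h2 : fill W s₀ s₁ 0 z₁ x = v x := by
          rw [hg.2, hg.1]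
          exact (D.agree x hK).self_of_nhds
        have h3 : ∀ i, pd i (fun x => ψ (fill W s₀ s₁ 0 z₁ x)) x = deriv ψ (v x) * pd i v x := by
          intro i
          unfold pd
          rw [hfd.fderiv, h1, h2]
          rfl
        simp only [h3]
        rw [Finset.mul_sum, Finset.sum_mul]
        refine Finset.sum_congr rfl fun i _ => ?_
        ring
      · rw [Set.indicator_of_notMem (fun h0 => hg h0.2)]
        refine Finset.sum_eq_zero fun i _ => ?_
        have h3 : pd i (fun x => ψ (fill W s₀ s₁ 0 z₁ x)) x = 0 := by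
          unfold pd
          rw [hfd.fderiv, hx.2 hg, smul_zero]
          rfl
        rw [h3, zero_mul]
    · rw [Set.indicator_of_notMem (fun h0 => hK h0.1)]
      refine Finset.sum_eq_zero fun i _ => ?_
      have h4 : (fun x => ψ (fill W s₀ s₁ 0 z₁ x)) =ᶠ[𝓝 x] fun _ => (0 : ℝ) := by
        filter_upwards [D.compact.isClosed.isOpen_compl.mem_nhds hK] with y hy
        exact hzero y hy
      have h3 : pd i (fun x => ψ (fill W s₀ s₁ 0 z₁ x)) x = 0 := by
        unfold pd
        rw [h4.fderiv_eq, fderiv_fun_const]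
        rfl
      rw [h3, zero_mul]
  rw [hL, hR] at key
  exact key.symm

end Pool.Agent.PFlow
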