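import Pool.Agent.PFlow.StmtsM

/-!
# Module LSB: the limit `d → 0` in the integrated identity
-/

open MeasureTheory Filter Topology
open scoped ContDiff

namespace Pool.Agent.PFlow

open Pool.Agent.PenroseSph

namespace MLSB

/-! ## Fatou's lemma for real functions -/

theorem fatou_real {α : Type*} [MeasurableSpace α] {μ : Measure α} {F : ℕ → α → ℝ} {f : α → ℝ}
    {a : ℕ → ℝ} {A : ℝ} (hF : ∀ n, Integrable (F n) μ) (h0 : ∀ n, 0 ≤ᵐ[μ] F n)
    (hlim : ∀ᵐ x ∂μ, Tendsto (fun n => F n x) atTop (𝓝 (f x)))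
    (ha : ∀ n, ∫ x, F n x ∂μ ≤ a n) (hA : Tendsto a atTop (𝓝 A)) :
    Integrable f μ ∧ ∫ x, f x ∂μ ≤ A := by
  have hfm : AEStronglyMeasurable f μ :=
    aestronglyMeasurable_of_tendsto_ae atTop (fun n => (hF n).aestronglyMeasurable) hlim
  have hf0 : 0 ≤ᵐ[μ] f := by
    have h1 : ∀ᵐ x ∂μ, ∀ n, 0 ≤ F n x := ae_all_iff.mpr h0
    filter_upwards [h1, hlim] with x hx hl
    exact ge_of_tendsto' hl hx
  have hA0 : 0 ≤ A := ge_of_tendsto' hA fun n => (integral_nonneg_of_ae (h0 n)).trans (ha n)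
  have h1 : ∫⁻ x, ENNReal.ofReal (f x) ∂μ ≤ ENNReal.ofReal A := by
    have h2 : ∫⁻ x, ENNReal.ofReal (f x) ∂μ =
        ∫⁻ x, liminf (fun n => ENNReal.ofReal (F n x)) atTop ∂μ := by
      apply lintegral_congr_ae
      filter_upwards [hlim] with x hx
      exact ((ENNReal.continuous_ofReal.tendsto _).comp hx).liminf_eq.symm
    rw [h2]
    refine (lintegral_liminf_le' fun n =>
      (hF n).aestronglyMeasurable.aemeasurable.ennreal_ofReal).trans ?_
    have h3 : Tendsto (fun n => ENNReal.ofReal (a n)) atTop (𝓝 (ENNReal.ofReal A)) :=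
      (ENNReal.continuous_ofReal.tendsto _).comp hA
    rw [← h3.liminf_eq]
    refine liminf_le_liminf (Eventually.of_forall fun n => ?_)
    change ∫⁻ x, ENNReal.ofReal (F n x) ∂μ ≤ ENNReal.ofReal (a n)
    rw [← ofReal_integral_eq_lintegral_ofReal (hF n) (h0 n)]
    exact ENNReal.ofReal_le_ofReal (ha n)
  have hint : Integrable f μ := ⟨hfm, by
    rw [hasFiniteIntegral_iff_ofReal hf0]
    exact h1.trans_lt ENNReal.ofReal_lt_top⟩
  refine ⟨hint, ?_⟩
  rw [← ofReal_integral_eq_lintegral_ofReal hint hf0] at h1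
  exact (ENNReal.ofReal_le_ofReal_iff hA0).mp h1

/-! ## Bounded functions -/

/-- The function is bounded on the set. -/
def Bd (S : Set E3) (f : E3 → ℝ) : Prop := ∃ D : ℝ, 0 ≤ D ∧ ∀ x ∈ S, |f x| ≤ D

variable {S : Set E3} {f f' : E3 → ℝ}

theorem Bd.const (c : ℝ) : Bd S fun _ => c := ⟨|c|, abs_nonneg _, fun _ _ => le_rfl⟩

theorem Bd.add (h : Bd S f) (h' : Bd S f') : Bd S fun x => f x + f' x := by
  obtain ⟨D, hD, h⟩ := h
  obtain ⟨D', hD', h'⟩ := h'
  exact ⟨D + D', by positivity, fun x hx => (abs_add_le _ _).trans (add_le_add (h x hx) (h' x hx))⟩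

theorem Bd.neg (h : Bd S f) : Bd S fun x => - f x := by
  obtain ⟨D, hD, h⟩ := h
  exact ⟨D, hD, fun x hx => by rw [abs_neg]; exact h x hx⟩

theorem Bd.sub (h : Bd S f) (h' : Bd S f') : Bd S fun x => f x - f' x := by
  have := h.add h'.neg
  simpa only [sub_eq_add_neg] using this

theorem Bd.mul (h : Bd S f) (h' : Bd S f') : Bd S fun x => f x * f' x := by
  obtain ⟨D, hD, h⟩ := h
  obtain ⟨D', hD', h'⟩ := h'
  refine ⟨D * D', by positivity, fun x hx => ?_⟩
  rw [abs_mul]
  exact mul_le_mul (h x hx) (h' x hx) (abs_nonneg _) hD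

theorem Bd.sum {f : Fin 3 → E3 → ℝ} (h : ∀ i, Bd S (f i)) : Bd S fun x => ∑ i, f i x := by
  have := ((h 0).add (h 1)).add (h 2)
  simpa only [Fin.sum_univ_three] using this

theorem Bd.mono {S' : Set E3} (h : Bd S f) (hS : S' ⊆ S) : Bd S' f := by
  obtain ⟨D, hD, h⟩ := h
  exact ⟨D, hD, fun x hx => h x (hS hx)⟩

theorem Bd.congr (h : Bd S f) (he : ∀ x ∈ S, f' x = f x) : Bd S f' := by
  obtain ⟨D, hD, h⟩ := h
  exact ⟨D, hD, fun x hx => by rw [he x hx]; exact h x hx⟩

theorem Bd.of_continuous {K : Set E3} (hK : IsCompact K) (h : ContinuousOn f K) : Bd K f := by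
  obtain ⟨D, hD⟩ := hK.exists_bound_of_continuousOn h
  exact ⟨max D 0, le_max_right _ _, fun x hx => ((Real.norm_eq_abs _) ▸ hD x hx).trans
    (le_max_left _ _)⟩

/-! ## Smooth functions -/

theorem pd_contDiff {f : E3 → ℝ} (h : ContDiff ℝ ∞ f) (i : Fin 3) : ContDiff ℝ ∞ (pd i f) := by
  have h1 : ContDiff ℝ ∞ (fderiv ℝ f) := h.fderiv_right (m := ∞) (by simp)
  exact h1.clm_apply contDiff_const

theorem pd_comm {f : E3 → ℝ} (h : ContDiff ℝ ∞ f) (x : E3) (i j : Fin 3) :
    pd i (pd j f) x = pd j (pd i f) x := by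
  have hs : IsSymmSndFDerivAt ℝ f x := h.contDiffAt.isSymmSndFDerivAt (by
    rw [minSmoothness_of_isRCLikeNormedField]
    exact WithTop.coe_le_coe.2 le_top)
  have hd : DifferentiableAt ℝ (fderiv ℝ f) x :=
    (h.contDiffAt.fderiv_right (m := ∞) (by simp)).differentiableAt (by simp)
  have key : ∀ v w : E3, fderiv ℝ (fun y => fderiv ℝ f y v) x w = fderiv ℝ (fderiv ℝ f) x w v := by
    intro v w
    have h1 : HasFDerivAt (fun y => fderiv ℝ f y v)
        ((ContinuousLinearMap.apply ℝ ℝ v).comp (fderiv ℝ (fderiv ℝ f) x)) x :=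
      (ContinuousLinearMap.apply ℝ ℝ v).hasFDerivAt.comp x hd.hasFDerivAt
    rw [h1.fderiv]
    rfl
  unfold pd
  rw [key, key]
  exact hs _ _

theorem hess2_symm {f : E3 → ℝ} (h : ContDiff ℝ ∞ f) (x : E3) : (hess2 f x).IsSymm := by
  ext i j
  exact pd_comm h x j i

/-! ## Pointwise formulas -/

theorem vsq_nonneg (p : Cov) : 0 ≤ vsq p := Finset.sum_nonneg fun _ _ => sq_nonneg _

theorem vsq_pos {p : Cov} (hp : p ≠ 0) : 0 < vsq p := by
  obtain ⟨i, hi⟩ := Function.ne_iff.mp hp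
  exact Finset.sum_pos' (fun _ _ => sq_nonneg _) ⟨i, Finset.mem_univ i, by
    have : p i ≠ 0 := hi
    positivity⟩

theorem vn_pos {p : Cov} (hp : p ≠ 0) : 0 < vn p := Real.sqrt_pos.mpr (vsq_pos hp)

theorem vn_nonneg (p : Cov) : 0 ≤ vn p := Real.sqrt_nonneg _

theorem vn_sq (p : Cov) : vn p ^ 2 = vsq p := Real.sq_sqrt (vsq_nonneg p)

theorem sum_mul_up (P : Bil) (p q : Cov) : ∑ i, p i * up P q i = ev P p q := by
  unfold up ev
  refine Finset.sum_congr rfl fun i _ => ?_
  rw [Finset.mul_sum]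
  refine Finset.sum_congr rfl fun j _ => ?_
  ring

theorem ev_app (P H : Bil) (hP : P.IsSymm) (p : Cov) : ev P p (app P H p) = qf P H p := by
  have hs : ∀ i j, P i j = P j i := fun i j => hP.apply j i
  unfold qf ev app up
  simp only [Fin.sum_univ_three]
  rw [hs 1 0, hs 2 0, hs 2 1]
  ring

theorem ev_comb (P : Bil) (p q r : Cov) (a b : ℝ) :
    ev P p (fun j => a * q j + b * r j) = a * ev P p q + b * ev P p r := by
  unfold ev
  simp only [Fin.sum_univ_three]
  ring

theorem qf_smul (P H : Bil) (c : ℝ) (p : Cov) :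
    qf P H (fun i => c * p i) = c ^ 2 * qf P H p := by
  unfold qf ev up
  simp only [Fin.sum_univ_three]
  ring

/-- The singular part of the flux. -/
noncomputable def sA (g : TensorField) (x : E3) (p : Cov) (M : Bil) : ℝ :=
  (trg g x (cHess g x p M) * ev (g x)⁻¹ p p - qf (g x)⁻¹ (cHess g x p M) p) / len g x p

/-- The regular part of the flux. -/
noncomputable def sB (ε : ℝ) (g h : TensorField) (x : E3) (p : Cov) : ℝ :=
  - (len g x p / (2 - ε)) * ev (g x)⁻¹ p p + qf (g x)⁻¹ (h x) p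
    - trg g x (h x) * ev (g x)⁻¹ p p

theorem ev_nonneg {g : TensorField} {x : E3} (hg : (g x).PosDef) (p : Cov) :
    0 ≤ ev (g x)⁻¹ p p := by
  have h1 := hg.inv.posSemidef.dotProduct_mulVec_nonneg p
  have h2 : star p ⬝ᵥ ((g x)⁻¹.mulVec p) = ev (g x)⁻¹ p p := by
    unfold ev
    simp only [dotProduct, Matrix.mulVec, star_trivial]
    refine Finset.sum_congr rfl fun i _ => ?_
    rw [Finset.mul_sum]
    refine Finset.sum_congr rfl fun j _ => ?_
    ring
  rwa [h2] at h1

theorem ev_pos {g : TensorField} {x : E3} (hg : (g x).PosDef) {p : Cov} (hp : p ≠ 0) :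
    0 < ev (g x)⁻¹ p p := by
  have h1 := hg.inv.dotProduct_mulVec_pos hp
  have h2 : star p ⬝ᵥ ((g x)⁻¹.mulVec p) = ev (g x)⁻¹ p p := by
    unfold ev
    simp only [dotProduct, Matrix.mulVec, star_trivial]
    refine Finset.sum_congr rfl fun i _ => ?_
    rw [Finset.mul_sum]
    refine Finset.sum_congr rfl fun j _ => ?_
    ring
  rwa [h2] at h1

theorem len_pos {g : TensorField} {x : E3} (hg : (g x).PosDef) {p : Cov} (hp : p ≠ 0) :
    0 < len g x p := Real.sqrt_pos.mpr (ev_pos hg hp)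

theorem len_sq {g : TensorField} {x : E3} (hg : (g x).PosDef) (p : Cov) :
    len g x p ^ 2 = ev (g x)⁻¹ p p := Real.sq_sqrt (ev_nonneg hg p)

theorem inv_symm {g : TensorField} {x : E3} (hg : (g x).PosDef) : (g x)⁻¹.IsSymm := by
  have h := hg.inv.isHermitian
  have h2 : (g x)⁻¹.conjTranspose = (g x)⁻¹.transpose := by
    ext i j
    simp
  rw [Matrix.IsSymm, ← h2]
  exact h

theorem sum_Zf (ε : ℝ) (g h : TensorField) (d : ℝ) (x : E3) (hg : (g x).PosDef) (p : Cov)
    (hp : p ≠ 0) (M : Bil) :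
    ∑ i, p i * Zf ε g h d x p M i =
      len g x p / ld (g x)⁻¹ d p * sA g x p M + sB ε g h x p := by
  have hl : len g x p ≠ 0 := (len_pos hg hp).ne'
  unfold Zf Yf
  simp only [mul_add, Finset.sum_add_distrib, mul_div_assoc', ← Finset.sum_div, sum_mul_up]
  have h1 : ev (g x)⁻¹ p (fun j => trg g x (cHess g x p M) * p j
      - app (g x)⁻¹ (cHess g x p M) p j) =
      trg g x (cHess g x p M) * ev (g x)⁻¹ p p - qf (g x)⁻¹ (cHess g x p M) p := by
    have := ev_comb (g x)⁻¹ p p (app (g x)⁻¹ (cHess g x p M) p) (trg g x (cHess g x p M)) (-1)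
    rw [ev_app _ _ (inv_symm hg)] at this
    rw [sub_eq_add_neg, ← neg_one_mul (qf _ _ _), ← this]
    congr 1
    funext j
    ring
  have h2 : ev (g x)⁻¹ p (fun j => - (len g x p / (2 - ε)) * p j
      + app (g x)⁻¹ (h x) p j - trg g x (h x) * p j) = sB ε g h x p := by
    have := ev_comb (g x)⁻¹ p p (app (g x)⁻¹ (h x) p)
      (- (len g x p / (2 - ε)) - trg g x (h x)) 1
    rw [ev_app _ _ (inv_symm hg)] at this
    unfold sB
    have h3 : (fun j => - (len g x p / (2 - ε)) * p j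
      + app (g x)⁻¹ (h x) p j - trg g x (h x) * p j) =
      fun j => (- (len g x p / (2 - ε)) - trg g x (h x)) * p j
        + 1 * app (g x)⁻¹ (h x) p j := by
      funext j
      ring
    rw [h3, this]
    ring
  rw [h1, h2]
  congr 1
  unfold sA
  field_simp

theorem flux_eq (ε : ℝ) (g h : TensorField) (x : E3) (hg : (g x).PosDef) (p : Cov)
    (hp : p ≠ 0) (M : Bil) : flux ε g h x p M = sA g x p M + sB ε g h x p := by
  have hl : len g x p ≠ 0 := (len_pos hg hp).ne'
  have h1 : bnn g x p (cHess g x p M) = qf (g x)⁻¹ (cHess g x p M) p / len g x p ^ 2 := by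
    have e1 : nrm g x p = fun i => (len g x p)⁻¹ * up (g x)⁻¹ p i := by
      funext i
      unfold nrm
      rw [div_eq_inv_mul]
      rfl
    unfold bnn qf
    rw [e1]
    unfold ev
    simp only [Fin.sum_univ_three]
    field_simp
  have h2 : ev (h x) (raise g x p) (raise g x p) = qf (g x)⁻¹ (h x) p := rfl
  unfold flux btan sA sB
  rw [h1, h2, len_sq hg, ← len_sq hg p]
  field_simp
  ring

theorem ld_zero (g : TensorField) (x : E3) (p : Cov) : ld (g x)⁻¹ 0 p = len g x p := by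
  unfold ld len
  congr 1
  ring

theorem ld_pos {g : TensorField} {x : E3} (hg : (g x).PosDef) {p : Cov} (hp : p ≠ 0) (d : ℝ) :
    0 < ld (g x)⁻¹ d p := by
  have := ev_pos hg hp
  exact Real.sqrt_pos.mpr (by positivity)

theorem len_le_ld {g : TensorField} {x : E3} (p : Cov) (d : ℝ) :
    len g x p ≤ ld (g x)⁻¹ d p :=
  Real.sqrt_le_sqrt (by linarith [sq_nonneg d])

theorem ld_tendsto (g : TensorField) (x : E3) (p : Cov) {d : ℕ → ℝ}
    (hd : Tendsto d atTop (𝓝 0)) :
    Tendsto (fun n => ld (g x)⁻¹ (d n) p) atTop (𝓝 (len g x p)) := by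
  have h1 : Continuous fun t : ℝ => ld (g x)⁻¹ t p := by
    unfold ld
    fun_prop
  have h2 := (h1.tendsto 0).comp hd
  rw [ld_zero] at h2
  exact h2

/-- Convergence of the divergence. -/
theorem DZx_tendsto (ε : ℝ) (g h : TensorField) {x : E3} (hg : (g x).PosDef) {p : Cov}
    (hp : p ≠ 0) (M : Bil) {d : ℕ → ℝ} (hd : Tendsto d atTop (𝓝 0)) :
    Tendsto (fun n => DZx ε g h (d n) x p M) atTop (𝓝 (DZx ε g h 0 x p M)) := by
  have h1 := ld_tendsto g x p hd
  have h2 : len g x p ≠ 0 := (len_pos hg hp).ne'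
  have h3 : Tendsto (fun n => Dd (g x)⁻¹ (ric g x) (d n) p (cHess g x p M)) atTop
      (𝓝 (Dd (g x)⁻¹ (ric g x) 0 p (cHess g x p M))) := by
    unfold Dd
    rw [ld_zero]
    exact (tendsto_const_nhds.div h1 h2).sub (tendsto_const_nhds.div (h1.pow 3) (pow_ne_zero 3 h2))
  unfold DZx DZ
  exact (((h3.sub_const _).add_const _).add_const _).sub_const _

/-- Convergence of the flux. -/
theorem flux_tendsto (ε : ℝ) (g h : TensorField) {x : E3} (hg : (g x).PosDef) {p : Cov}
    (hp : p ≠ 0) (M : Bil) {d : ℕ → ℝ} (hd : Tendsto d atTop (𝓝 0)) :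
    Tendsto (fun n => ∑ i, p i * Zf ε g h (d n) x p M i) atTop (𝓝 (flux ε g h x p M)) := by
  have h1 := ld_tendsto g x p hd
  have h2 : len g x p ≠ 0 := (len_pos hg hp).ne'
  simp only [sum_Zf ε g h _ x hg p hp M]
  rw [flux_eq ε g h x hg p hp M]
  have h3 : Tendsto (fun n => len g x p / ld (g x)⁻¹ (d n) p) atTop (𝓝 1) := by
    have := (tendsto_const_nhds (x := len g x p)).div h1 h2
    rwa [div_self h2] at this
  have h4 := (h3.mul_const (sA g x p M)).add_const (sB ε g h x p)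
  rwa [one_mul] at h4

/-! ## Bounds for a smooth function on a compact set -/

section bounds

variable {K : Set E3} {g h : TensorField} {v : E3 → ℝ}

/-- What is needed of the coefficients. -/
structure Cf (K : Set E3) (g h : TensorField) (C : ℝ) : Prop where
  one_le : 1 ≤ C
  pos : ∀ x ∈ K, (g x).PosDef
  low : ∀ x ∈ K, ∀ p, vsq p / C ≤ ev (g x)⁻¹ p p
  upp : ∀ x ∈ K, ∀ p, ev (g x)⁻¹ p p ≤ C * vsq p
  chr : ∀ x ∈ K, ∀ k i j, |christoffel g k i j x| ≤ C
  ten : ∀ x ∈ K, ∀ i j, |h x i j| ≤ C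
  mom : ∀ x ∈ K, ∀ i, |momV g h x i| ≤ C
  inv : ∀ x ∈ K, ∀ i j, |(g x)⁻¹ i j| ≤ C
  vlow : ∀ x ∈ K, 1 / C ≤ volDen g x
  vupp : ∀ x ∈ K, volDen g x ≤ C

theorem vn_le {C : ℝ} (hc : Cf K g h C) {x : E3} (hx : x ∈ K) (p : Cov) :
    vn p ≤ C * len g x p := by
  have hC := hc.one_le
  have h1 := hc.low x hx p
  rw [div_le_iff₀ (by linarith)] at h1
  rw [← len_sq (hc.pos x hx)] at h1
  have h2 : 0 ≤ len g x p := Real.sqrt_nonneg _
  unfold vn
  rw [Real.sqrt_le_left (by positivity)]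
  nlinarith [sq_nonneg (len g x p), mul_nonneg (sq_nonneg (len g x p)) (by linarith : 0 ≤ C - 1)]

theorem len_le {C : ℝ} (hc : Cf K g h C) {x : E3} (hx : x ∈ K) (p : Cov) :
    len g x p ≤ C * vn p := by
  have hC := hc.one_le
  have h1 := hc.upp x hx p
  rw [← vn_sq] at h1
  have h2 := vn_nonneg p
  unfold len
  rw [Real.sqrt_le_left (by positivity)]
  nlinarith [sq_nonneg (vn p), mul_nonneg (sq_nonneg (vn p)) (by linarith : 0 ≤ C - 1)]

theorem bd_coef {C : ℝ} (hc : Cf K g h C) :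
    (∀ i j, Bd K fun x => (g x)⁻¹ i j) ∧ (∀ i j, Bd K fun x => h x i j) ∧
    (∀ i, Bd K fun x => momV g h x i) ∧ (∀ k i j, Bd K (christoffel g k i j)) := by
  have hC : 0 ≤ C := by linarith [hc.one_le]
  exact ⟨fun i j => ⟨C, hC, fun x hx => hc.inv x hx i j⟩,
    fun i j => ⟨C, hC, fun x hx => hc.ten x hx i j⟩,
    fun i => ⟨C, hC, fun x hx => hc.mom x hx i⟩,
    fun k i j => ⟨C, hC, fun x hx => hc.chr x hx k i j⟩⟩

theorem bd_grad (hK : IsCompact K) (hv : ContDiff ℝ ∞ v) (i : Fin 3) :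
    Bd K fun x => grad v x i :=
  Bd.of_continuous hK (pd_contDiff hv i).continuous.continuousOn

theorem bd_hess {C : ℝ} (hc : Cf K g h C) (hK : IsCompact K) (hv : ContDiff ℝ ∞ v)
    (i j : Fin 3) : Bd K fun x => cHess g x (grad v x) (hess2 v x) i j := by
  have h1 : Bd K fun x => hess2 v x i j :=
    Bd.of_continuous hK (pd_contDiff (pd_contDiff hv j) i).continuous.continuousOn
  exact h1.sub (Bd.sum fun k => ((bd_coef hc).2.2.2 k i j).mul (bd_grad hK hv k))

/-- The normalised differential. -/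
noncomputable def nu (g : TensorField) (v : E3 → ℝ) (x : E3) : Cov := fun i =>
  (len g x (grad v x))⁻¹ * grad v x i

/-- The noncritical points. -/
def ncr (K : Set E3) (v : E3 → ℝ) : Set E3 := {x | x ∈ K ∧ grad v x ≠ 0}

theorem ncr_sub : ncr K v ⊆ K := fun _ hx => hx.1

theorem bd_nu {C : ℝ} (hc : Cf K g h C) (i : Fin 3) : Bd (ncr K v) fun x => nu g v x i := by
  have hC := hc.one_le
  refine ⟨C, by linarith, fun x hx => ?_⟩
  have hl := len_pos (hc.pos x hx.1) hx.2
  have h1 := vn_le hc hx.1 (grad v x)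
  have h2 : |grad v x i| ≤ vn (grad v x) := by
    unfold vn
    rw [← Real.sqrt_sq_eq_abs]
    apply Real.sqrt_le_sqrt
    exact Finset.single_le_sum (f := fun i => grad v x i ^ 2) (fun _ _ => sq_nonneg _)
      (Finset.mem_univ i)
  unfold nu
  rw [abs_mul, abs_inv, abs_of_pos hl, inv_mul_le_iff₀ hl]
  linarith

theorem bd_len {C : ℝ} (hc : Cf K g h C) (hK : IsCompact K) (hv : ContDiff ℝ ∞ v) :
    Bd K fun x => len g x (grad v x) := by
  have h1 : Bd K fun x => vsq (grad v x) := by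
    have := Bd.sum (S := K) (f := fun i x => grad v x i * grad v x i)
      fun i => (bd_grad hK hv i).mul (bd_grad hK hv i)
    refine this.congr fun x _ => ?_
    unfold vsq
    exact Finset.sum_congr rfl fun i _ => sq _
  obtain ⟨D, hD, h1⟩ := h1
  have hC := hc.one_le
  refine ⟨C * (D + 1), by positivity, fun x hx => ?_⟩
  have h0 : 0 ≤ len g x (grad v x) := Real.sqrt_nonneg _
  change |len g x (grad v x)| ≤ _
  rw [abs_of_nonneg h0]
  refine (len_le hc hx _).trans (mul_le_mul_of_nonneg_left ?_ (by linarith))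
  unfold vn
  rw [Real.sqrt_le_left (by positivity)]
  have := (le_abs_self _).trans (h1 x hx)
  nlinarith

theorem bd_tr2 {C : ℝ} (hc : Cf K g h C) {H : E3 → Bil} (hH : ∀ i j, Bd K fun x => H x i j) :
    Bd K fun x => tr2 (g x)⁻¹ (H x) :=
  Bd.sum fun i => Bd.sum fun j => ((bd_coef hc).1 i j).mul (hH i j)

theorem bd_up {C : ℝ} (hc : Cf K g h C) {S : Set E3} (hS : S ⊆ K) {p : E3 → Cov}
    (hp : ∀ i, Bd S fun x => p x i) (i : Fin 3) : Bd S fun x => up (g x)⁻¹ (p x) i :=
  Bd.sum fun j => (((bd_coef hc).1 i j).mono hS).mul (hp j)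

theorem bd_qf {C : ℝ} (hc : Cf K g h C) {S : Set E3} (hS : S ⊆ K) {H : E3 → Bil}
    (hH : ∀ i j, Bd K fun x => H x i j) {p : E3 → Cov} (hp : ∀ i, Bd S fun x => p x i) :
    Bd S fun x => qf (g x)⁻¹ (H x) (p x) :=
  Bd.sum fun i => Bd.sum fun j =>
    (((hH i j).mono hS).mul (bd_up hc hS hp i)).mul (bd_up hc hS hp j)

theorem qf_nu {x : E3} (hg : (g x).PosDef) (hx : grad v x ≠ 0) (H : Bil) :
    qf (g x)⁻¹ H (grad v x) = len g x (grad v x) ^ 2 * qf (g x)⁻¹ H (nu g v x) := by
  have hl := (len_pos hg hx).ne'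
  have h1 : nu g v x = fun i => (len g x (grad v x))⁻¹ * grad v x i := rfl
  rw [h1, qf_smul]
  field_simp

/-- The singular part of the flux is bounded. -/
theorem bd_sA {C : ℝ} (hc : Cf K g h C) (hK : IsCompact K) (hv : ContDiff ℝ ∞ v) :
    Bd (ncr K v) fun x => sA g x (grad v x) (hess2 v x) := by
  have h1 : Bd (ncr K v) fun x => tr2 (g x)⁻¹ (cHess g x (grad v x) (hess2 v x))
      * len g x (grad v x)
      - len g x (grad v x) * qf (g x)⁻¹ (cHess g x (grad v x) (hess2 v x)) (nu g v x) :=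
    (((bd_tr2 hc (bd_hess hc hK hv)).mono ncr_sub).mul ((bd_len hc hK hv).mono ncr_sub)).sub
      (((bd_len hc hK hv).mono ncr_sub).mul (bd_qf hc ncr_sub (bd_hess hc hK hv) (bd_nu hc)))
  refine h1.congr fun x hx => ?_
  have hg := hc.pos x hx.1
  have hl := (len_pos hg hx.2).ne'
  have h2 : trg g x (cHess g x (grad v x) (hess2 v x)) =
    tr2 (g x)⁻¹ (cHess g x (grad v x) (hess2 v x)) := rfl
  unfold sA
  rw [qf_nu hg hx.2, ← len_sq hg, h2]
  field_simp

/-- The regular part of the flux is bounded. -/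
theorem bd_sB {C : ℝ} (hc : Cf K g h C) (hK : IsCompact K) (hv : ContDiff ℝ ∞ v) (ε : ℝ) :
    Bd K fun x => sB ε g h x (grad v x) := by
  have he : Bd K fun x => ev (g x)⁻¹ (grad v x) (grad v x) :=
    Bd.sum fun i => Bd.sum fun j =>
      (((bd_coef hc).1 i j).mul (bd_grad hK hv i)).mul (bd_grad hK hv j)
  have h1 : Bd K fun x => - (len g x (grad v x) * (2 - ε)⁻¹)
      * ev (g x)⁻¹ (grad v x) (grad v x) :=
    ((bd_len hc hK hv).mul (Bd.const _)).neg.mul he
  exact (h1.add (bd_qf hc (subset_refl K) (bd_coef hc).2.1 (bd_grad hK hv))).sub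
    ((bd_tr2 hc (bd_coef hc).2.1).mul he)

/-- The difference of the two divergences is bounded. -/
theorem bd_diff {C : ℝ} (hc : Cf K g h C) (hK : IsCompact K) (hv : ContDiff ℝ ∞ v) (ε : ℝ) :
    Bd (ncr K v) fun x => DZx ε g h 0 x (grad v x) (hess2 v x)
      - Ddx g 0 x (grad v x) (hess2 v x) := by
  have hH := bd_hess hc hK hv
  have hl := (bd_len hc hK hv).mono (ncr_sub (v := v))
  have hn : Bd (ncr K v) fun x =>
      qf (g x)⁻¹ (cHess g x (grad v x) (hess2 v x)) (nu g v x) :=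
    bd_qf hc ncr_sub hH (bd_nu hc)
  have h1 : Bd (ncr K v) fun x =>
      (qf (g x)⁻¹ (cHess g x (grad v x) (hess2 v x)) (nu g v x) * len g x (grad v x)
        + len g x (grad v x) * tr2 (g x)⁻¹ (cHess g x (grad v x) (hess2 v x))) * (2 - ε)⁻¹ :=
    ((hn.mul hl).add (hl.mul ((bd_tr2 hc hH).mono ncr_sub))).mul (Bd.const _)
  have h2 : Bd (ncr K v) fun x => ev (g x)⁻¹ (momV g h x) (grad v x) :=
    (Bd.sum fun i => Bd.sum fun j =>
      (((bd_coef hc).1 i j).mul ((bd_coef hc).2.2.1 i)).mul (bd_grad hK hv j)).mono ncr_sub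
  have h3 : Bd (ncr K v) fun x => dd (g x)⁻¹ (h x) (cHess g x (grad v x) (hess2 v x)) :=
    (Bd.sum fun i => Bd.sum fun j => Bd.sum fun k => Bd.sum fun l =>
      ((((bd_coef hc).1 i k).mul ((bd_coef hc).1 j l)).mul ((bd_coef hc).2.1 i j)).mul
        (hH k l)).mono ncr_sub
  have h4 : Bd (ncr K v) fun x => tr2 (g x)⁻¹ (h x)
      * tr2 (g x)⁻¹ (cHess g x (grad v x) (hess2 v x)) :=
    ((bd_tr2 hc (bd_coef hc).2.1).mul (bd_tr2 hc hH)).mono ncr_sub
  refine (((h1.neg.add h2).add h3).sub h4).congr fun x hx => ?_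
  have hg := hc.pos x hx.1
  have hl := (len_pos hg hx.2).ne'
  have e1 : nn (g x)⁻¹ (cHess g x (grad v x) (hess2 v x)) (grad v x) =
      qf (g x)⁻¹ (cHess g x (grad v x) (hess2 v x)) (nu g v x) := by
    unfold nn
    rw [qf_nu hg hx.2, ← len_sq hg]
    field_simp
  have e2 : lp (g x)⁻¹ (grad v x) = len g x (grad v x) := rfl
  unfold DZx Ddx DZ
  rw [e1, e2]
  ring

theorem getCf (hCT : Stmt_CT) {U : Set E3} (hU : IsOpen U) (hg : MetricOn U g)
    (hh : TensorOn U h) (hK : IsCompact K) (hKU : K ⊆ U) : ∃ C : ℝ, Cf K g h C := by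
  obtain ⟨C, hC, hx⟩ := hCT U g h hU hg hh K hK hKU
  exact ⟨C, hC, fun x h => hg.posDef x (hKU h), fun x h p => ((hx x h).1 p).1,
    fun x h p => ((hx x h).1 p).2, fun x h => (hx x h).2.2.2.1, fun x h => (hx x h).2.2.2.2.1,
    fun x h => (hx x h).2.2.2.2.2.1, fun x h => (hx x h).2.2.2.2.2.2.2.2.1,
    fun x h => (hx x h).2.2.2.2.2.2.2.2.2.1, fun x h => (hx x h).2.2.2.2.2.2.2.2.2.2⟩

theorem cont_vol {U : Set E3} (hg : MetricOn U g) : ContinuousOn (volDen g) U := by
  have h1 : ∀ i j, ContinuousOn (fun x => g x i j) U := fun i j => (hg.smooth i j).continuousOn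
  unfold volDen
  simp only [Matrix.det_fin_three]
  fun_prop

theorem cont_Z (hZD : Stmt_ZD) {ε : ℝ} (hε : 0 < ε) (hε1 : ε < 1) {U : Set E3} (hU : IsOpen U)
    (hg : MetricOn U g) (hh : TensorOn U h) (hv : ContDiff ℝ ∞ v) {d : ℝ} (hd : 0 < d) :
    ContinuousOn (fun x => DZx ε g h d x (grad v x) (hess2 v x) * volDen g x) U := by
  obtain ⟨-, h1, -, h2⟩ := hZD ε U g h v d hε hε1 hU hg hh hv.contDiffOn hd
  have h3 : ContinuousOn (fun x => ∑ i, pd i (fun y => volDen g y
      * Zf ε g h d y (grad v y) (hess2 v y) i) x) U := by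
    apply continuousOn_finsetSum
    intro i _
    exact ((h1 i).continuousOn_fderiv_of_isOpen hU le_rfl).clm_apply continuousOn_const
  exact h3.congr fun x hx => (mul_comm _ _).trans (h2 x hx).symm

theorem cont_F (hZD : Stmt_ZD) {ε : ℝ} (hε : 0 < ε) (hε1 : ε < 1) {U : Set E3} (hU : IsOpen U)
    (hg : MetricOn U g) (hh : TensorOn U h) (hv : ContDiff ℝ ∞ v) {d : ℝ} (hd : 0 < d) :
    ContinuousOn (fun x => (∑ i, pd i v x * Zf ε g h d x (grad v x) (hess2 v x) i)
      * volDen g x) U := by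
  obtain ⟨-, h1, -, -⟩ := hZD ε U g h v d hε hε1 hU hg hh hv.contDiffOn hd
  have h3 : ContinuousOn (fun x => ∑ i, pd i v x * (volDen g x
      * Zf ε g h d x (grad v x) (hess2 v x) i)) U := by
    apply continuousOn_finsetSum
    intro i _
    exact (pd_contDiff hv i).continuous.continuousOn.mul (h1 i).continuousOn
  refine h3.congr fun x _ => ?_
  simp only
  rw [Finset.sum_mul]
  refine Finset.sum_congr rfl fun i _ => ?_
  ring

theorem cont_vsq (hv : ContDiff ℝ ∞ v) : Continuous fun x => vsq (grad v x) := by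
  unfold vsq
  exact continuous_finsetSum _ fun i _ => (pd_contDiff hv i).continuous.pow 2

theorem cont_vn (hv : ContDiff ℝ ∞ v) : Continuous fun x => vn (grad v x) :=
  (cont_vsq hv).sqrt

theorem cont_msq (hv : ContDiff ℝ ∞ v) : Continuous fun x => msq (hess2 v x) := by
  unfold msq
  exact continuous_finsetSum _ fun i _ => continuous_finsetSum _ fun j _ =>
    (pd_contDiff (pd_contDiff hv j) i).continuous.pow 2

/-- The pointwise inequality for the second derivatives. -/
theorem hess_pt {C₁ C₂ D₃ l n m A res s Z Dd' : ℝ} (hC₁ : 1 ≤ C₁) (hC₂ : 1 ≤ C₂) (hl : 0 < l)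
    (hn : 0 < n) (h1 : n ≤ C₂ * l) (h2 : l ≤ C₂ * n) (hs : s = n ^ 2) (hm : 0 ≤ m)
    (hup : Dd' ≤ 1 / l * (-(m / C₁) + C₁ * (res ^ 2 + s * (1 + s))))
    (hd : |Z - Dd'| ≤ D₃) (hA : A = C₂ * C₁ * (D₃ - Z + C₁ * C₂ * (res ^ 2 / n + (1 + s) * n))) :
    m / n ≤ A := by
  have hZ : Z - Dd' ≤ D₃ := (abs_le.mp hd).2
  have e1 : 1 / l ≤ C₂ * (1 / n) := by
    rw [mul_one_div, div_le_div_iff₀ hl hn]
    linarith
  have e2 : 1 / n ≤ C₂ * (1 / l) := by
    rw [mul_one_div, div_le_div_iff₀ hn hl]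
    linarith
  have e3 : 1 / l * (m / C₁) ≤ D₃ - Z + C₁ * (1 / l * (res ^ 2 + s * (1 + s))) := by
    nlinarith
  have hs0 : 0 ≤ s := by rw [hs]; positivity
  have e4 : 1 / l * (res ^ 2 + s * (1 + s)) ≤ C₂ * (res ^ 2 / n + (1 + s) * n) := by
    have h3 : C₂ * (res ^ 2 / n + (1 + s) * n) = C₂ * (1 / n) * (res ^ 2 + s * (1 + s)) := by
      have : s * (1 + s) = (1 + s) * n * n := by rw [hs]; ring
      rw [this]
      field_simp
    rw [h3]
    exact mul_le_mul_of_nonneg_right e1 (by positivity)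
  have e5 : 1 / l * (m / C₁) ≤ D₃ - Z + C₁ * C₂ * (res ^ 2 / n + (1 + s) * n) := by
    have := mul_le_mul_of_nonneg_left e4 (by linarith : 0 ≤ C₁)
    linarith
  have e6 : m / n ≤ C₂ * C₁ * (1 / l * (m / C₁)) := by
    have h3 : C₂ * C₁ * (1 / l * (m / C₁)) = C₂ * (1 / l) * m := by
      field_simp
    rw [h3, div_eq_mul_one_div, mul_comm m]
    exact mul_le_mul_of_nonneg_right e2 hm
  rw [hA]
  exact e6.trans (mul_le_mul_of_nonneg_left e5 (by positivity))

end bounds

end MLSB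

open MLSB in
theorem LSB (hLSA : Stmt_LSA) (hUP : Stmt_UP) (hCT : Stmt_CT) (hFA : Stmt_FA)
    (hZD : Stmt_ZD) : Stmt_LSB := by
  intro ε U g h K hε hε1 hU hg hh hK hKU
  obtain ⟨C₂, hc⟩ := getCf hCT hU hg hh hK hKU
  obtain ⟨C₁, hC₁, hup⟩ := hUP ε U g h hε hε1 hU hg hh K hK hKU
  have hC₂ := hc.one_le
  refine ⟨C₁ * C₂, by positivity, ?_⟩
  intro a' b' s₀ s₁ t₀ t₁ W v C z₁ ψ B hD hB hfin hres
  obtain ⟨hfA, hfB, -⟩ := hFA a' b' s₀ s₁ W C z₁ hD.trunc hD.lip hD.far
  have hv := hD.smooth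
  have hlsa := hLSA ε U g h a' b' s₀ s₁ t₀ t₁ W v C z₁ K ψ hε hε1 hD
  have hB0 : 0 ≤ B := (hD.nonneg 0).trans (hB 0)
  -- the sets
  set G := good W s₀ s₁ 0 z₁ with hGdef
  set F := fill W s₀ s₁ 0 z₁ with hFdef
  have hGc : IsClosed G :=
    (isClosed_eq hfA.continuous hD.trunc.cont).inter (isClosed_eq hfB.continuous hfA.continuous)
  have hKm := hK.measurableSet
  have hSm : MeasurableSet (K ∩ G) := hKm.inter hGc.measurableSet
  have hSK : K ∩ G ⊆ K := Set.inter_subset_left
  set T := badset W s₀ s₁ z₁ ψ with hTdef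
  have hTm : MeasurableSet T :=
    ((isClosed_tsupport ψ).preimage hfB.continuous).measurableSet.diff hGc.measurableSet
  have hTK : T ⊆ K \ G := by
    intro x hx
    exact ⟨hD.levels x (Set.Ioo_subset_Icc_self (hD.supp hx.1)), hx.2⟩
  have hTK' : T ⊆ K := fun x hx => (hTK hx).1
  have hWv : ∀ x ∈ K, W x = v x := fun x hx => (hD.agree x hx).self_of_nhds
  have hFv : ∀ x ∈ K ∩ G, F x = v x := fun x hx =>
    (hx.2.2.trans hx.2.1).trans (hWv x hx.1)
  have hae : ∀ᵐ x ∂(volume.restrict K), x ∈ ncr K v := by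
    rw [ae_restrict_iff' hKm]
    have h0 : volume {x ∈ K | grad v x = 0} = 0 := hfin.measure_zero _
    have h1 : ∀ᵐ x : E3, x ∉ {x ∈ K | grad v x = 0} := measure_eq_zero_iff_ae_notMem.mp h0
    filter_upwards [h1] with x hx hxK
    exact ⟨hxK, fun h2 => hx ⟨hxK, h2⟩⟩
  have haeS : ∀ᵐ x ∂(volume.restrict (K ∩ G)), x ∈ ncr K v :=
    ae_mono (Measure.restrict_mono hSK le_rfl) hae
  have haeT : ∀ᵐ x ∂(volume.restrict T), x ∈ ncr K v :=
    ae_mono (Measure.restrict_mono hTK' le_rfl) hae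
  -- continuity
  have hvc : Continuous v := hv.continuous
  have hψc : Continuous ψ := hD.diff.continuous
  have hψ' : Continuous (deriv ψ) := hD.diff.continuous_deriv le_rfl
  have hvol : ContinuousOn (volDen g) K := (cont_vol hg).mono hKU
  have hvol0 : ∀ x, 0 ≤ volDen g x := fun x => Real.sqrt_nonneg _
  have hvsq := cont_vsq hv
  have hvn := cont_vn hv
  set R : E3 → ℝ := fun x => resid ε g h x (grad v x) (hess2 v x) ^ 2 / vn (grad v x) with hR
  have hR0 : ∀ x, 0 ≤ R x := fun x => div_nonneg (sq_nonneg _) (vn_nonneg _)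
  set Z : ℝ → E3 → ℝ := fun d x => DZx ε g h d x (grad v x) (hess2 v x) with hZ
  set Q : E3 → ℝ := fun x => C₁ * (R x + (1 + vsq (grad v x)) * (vn (grad v x) + 1)) with hQ
  have hQi : IntegrableOn (fun x => ψ (v x) * Q x * volDen g x) K := by
    have h1 : IntegrableOn (fun x => (1 + vsq (grad v x)) * (vn (grad v x) + 1)) K :=
      (by fun_prop : Continuous fun x => (1 + vsq (grad v x)) * (vn (grad v x) + 1)).continuousOn
        |>.integrableOn_compact hK
    have h2 : IntegrableOn Q K := (hres.add h1).const_mul C₁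
    have h3 : ContinuousOn (fun x => ψ (v x) * volDen g x) K :=
      (hψc.comp hvc).continuousOn.mul hvol
    have h4 := h2.continuousOn_mul h3 hK
    refine h4.congr (Eventually.of_forall fun x => ?_)
    simp only
    ring
  have hZi : ∀ d, 0 < d → IntegrableOn (fun x => ψ (v x) * Z d x * volDen g x) K := by
    intro d hd
    have h1 := (cont_Z hZD hε hε1 hU hg hh hv hd).mono hKU
    have h2 : ContinuousOn (fun x => ψ (v x) * (Z d x * volDen g x)) K :=
      (hψc.comp hvc).continuousOn.mul h1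
    refine (h2.integrableOn_compact hK).congr (Eventually.of_forall fun x => ?_)
    simp only
    ring
  have hZi' : ∀ d, 0 < d → IntegrableOn (fun x => ψ (F x) * Z d x * volDen g x) K := by
    intro d hd
    have h1 := (cont_Z hZD hε hε1 hU hg hh hv hd).mono hKU
    have h2 : ContinuousOn (fun x => ψ (F x) * (Z d x * volDen g x)) K :=
      (hψc.comp hfB.continuous).continuousOn.mul h1
    refine (h2.integrableOn_compact hK).congr (Eventually.of_forall fun x => ?_)
    simp only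
    ring
  -- the bad set
  set I₁ : ℝ := ∫ x in T, (R x + (1 + vsq (grad v x)) * vn (grad v x)) with hI₁
  set I₂ : ℝ := ∫ x in T, (1 + vsq (grad v x)) with hI₂
  have hi1 : IntegrableOn (fun x => R x + (1 + vsq (grad v x)) * vn (grad v x)) T := by
    have h1 : IntegrableOn (fun x => (1 + vsq (grad v x)) * vn (grad v x)) K :=
      (by fun_prop : Continuous fun x => (1 + vsq (grad v x)) * vn (grad v x)).continuousOn
        |>.integrableOn_compact hK
    exact IntegrableOn.mono_set (hres.add h1) hTK'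
  have hi2 : IntegrableOn (fun x => 1 + vsq (grad v x)) T := by
    have h1 : IntegrableOn (fun x => 1 + vsq (grad v x)) K :=
      (by fun_prop : Continuous fun x => 1 + vsq (grad v x)).continuousOn
        |>.integrableOn_compact hK
    exact h1.mono_set hTK'
  have hbad : ∀ d, 0 < d → d ≤ 1 →
      ∫ x in T, ψ (F x) * Z d x * volDen g x ≤ C₁ * C₂ * B * (I₁ + d * I₂) := by
    intro d hd hd1
    have h1 : ∫ x in T, ψ (F x) * Z d x * volDen g x ≤
        ∫ x in T, C₁ * C₂ * B * ((R x + (1 + vsq (grad v x)) * vn (grad v x))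
          + d * (1 + vsq (grad v x))) := by
      apply integral_mono_ae ((hZi' d hd).mono_set hTK') ((hi1.add (hi2.const_mul d)).const_mul _)
      filter_upwards [haeT] with x hx
      have hu := (hup x hx.1 (grad v x) (hess2 v x) d hx.2 (hess2_symm hv x) hd.le hd1).2
      have hE : 0 ≤ R x + (1 + vsq (grad v x)) * (vn (grad v x) + d) := by
        have := hR0 x
        have := vsq_nonneg (grad v x)
        have := vn_nonneg (grad v x)
        positivity
      have h2 : ψ (F x) * Z d x ≤ B * (C₁ * (R x + (1 + vsq (grad v x)) * (vn (grad v x) + d))) :=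
        (mul_le_mul_of_nonneg_left hu (hD.nonneg _)).trans
          (mul_le_mul_of_nonneg_right (hB _) (by positivity))
      calc ψ (F x) * Z d x * volDen g x
          ≤ B * (C₁ * (R x + (1 + vsq (grad v x)) * (vn (grad v x) + d))) * volDen g x :=
            mul_le_mul_of_nonneg_right h2 (hvol0 x)
        _ ≤ B * (C₁ * (R x + (1 + vsq (grad v x)) * (vn (grad v x) + d))) * C₂ :=
            mul_le_mul_of_nonneg_left (hc.vupp x hx.1) (by positivity)
        _ = _ := by
          simp only [Pi.add_apply]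
          ring
    have h2 : ∫ x in T, C₁ * C₂ * B * ((R x + (1 + vsq (grad v x)) * vn (grad v x))
        + d * (1 + vsq (grad v x))) = C₁ * C₂ * B * (I₁ + d * I₂) := by
      rw [integral_const_mul, integral_add hi1 (hi2.const_mul d), integral_const_mul]
    rw [← h2]
    exact h1
  -- the identity
  set L : ℝ → ℝ := fun d => - ∫ x in K ∩ G, deriv ψ (v x)
    * (∑ i, pd i v x * Zf ε g h d x (grad v x) (hess2 v x) i) * volDen g x with hL
  have hid : ∀ d, 0 < d → ∫ x in K ∩ G, ψ (v x) * Z d x * volDen g x =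
      L d - ∫ x in T, ψ (F x) * Z d x * volDen g x := by
    intro d hd
    have h1 : L d = ∫ x in K, ψ (F x) * Z d x * volDen g x := hlsa d hd
    rw [← integral_inter_add_sdiff hGc.measurableSet (hZi' d hd)] at h1
    have h2 : ∫ x in K \ G, ψ (F x) * Z d x * volDen g x =
        ∫ x in T, ψ (F x) * Z d x * volDen g x := by
      apply setIntegral_eq_of_subset_of_forall_sdiff_eq_zero (hKm.diff hGc.measurableSet) hTK
      intro x hx
      have h3 : F x ∉ tsupport ψ := fun h4 => hx.2 ⟨h4, hx.1.2⟩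
      rw [image_eq_zero_of_notMem_tsupport h3, zero_mul, zero_mul]
    have h3 : ∫ x in K ∩ G, ψ (F x) * Z d x * volDen g x =
        ∫ x in K ∩ G, ψ (v x) * Z d x * volDen g x := by
      apply setIntegral_congr_fun hSm
      intro x hx
      simp only
      rw [hFv x hx]
    rw [h2, h3] at h1
    linarith
  -- the limit of the left side
  obtain ⟨DA, hDA0, hDA⟩ := bd_sA (v := v) hc hK hv
  obtain ⟨DB, hDB0, hDB⟩ := bd_sB (v := v) hc hK hv ε
  obtain ⟨Dψ, hDψ0, hDψ⟩ : Bd K fun x => deriv ψ (v x) :=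
    Bd.of_continuous hK (hψ'.comp hvc).continuousOn
  set dn : ℕ → ℝ := fun n => 1 / ((n : ℝ) + 1) with hdn
  have hdn0 : ∀ n, 0 < dn n := fun n => by positivity
  have hdn1 : ∀ n, dn n ≤ 1 := fun n => by
    rw [hdn]
    simp only
    rw [div_le_one (by positivity)]
    linarith [(Nat.cast_nonneg n : (0 : ℝ) ≤ n)]
  have hdnt : Tendsto dn atTop (𝓝 0) := tendsto_one_div_add_atTop_nhds_zero_nat
  set L₀ : ℝ := - ∫ x in K ∩ G, deriv ψ (v x)
    * flux ε g h x (grad v x) (hess2 v x) * volDen g x with hL₀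
  have hLt : Tendsto (fun n => L (dn n)) atTop (𝓝 L₀) := by
    apply Tendsto.neg
    apply tendsto_integral_of_dominated_convergence (fun _ => Dψ * (DA + DB) * C₂)
    · intro n
      have h1 := (cont_F hZD hε hε1 hU hg hh hv (hdn0 n)).mono (hSK.trans hKU)
      have h2 : ContinuousOn (fun x => deriv ψ (v x) *
          ((∑ i, pd i v x * Zf ε g h (dn n) x (grad v x) (hess2 v x) i) * volDen g x))
          (K ∩ G) := (hψ'.comp hvc).continuousOn.mul h1
      refine (h2.aestronglyMeasurable hSm).congr (Eventually.of_forall fun x => ?_)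
      simp only
      ring
    · exact integrableOn_const (ne_top_of_le_ne_top hK.measure_lt_top.ne (measure_mono hSK))
    · intro n
      filter_upwards [haeS] with x hx
      have hgx := hc.pos x hx.1
      have h1 : |∑ i, pd i v x * Zf ε g h (dn n) x (grad v x) (hess2 v x) i| ≤ DA + DB := by
        have h2 : ∑ i, pd i v x * Zf ε g h (dn n) x (grad v x) (hess2 v x) i =
            len g x (grad v x) / ld (g x)⁻¹ (dn n) (grad v x) * sA g x (grad v x) (hess2 v x)
              + sB ε g h x (grad v x) :=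
          sum_Zf ε g h (dn n) x hgx (grad v x) hx.2 (hess2 v x)
        rw [h2]
        refine (abs_add_le _ _).trans (add_le_add ?_ (hDB x hx.1))
        rw [abs_mul]
        have h3 := ld_pos hgx hx.2 (dn n)
        have h4 := len_pos hgx hx.2
        have h5 : |len g x (grad v x) / ld (g x)⁻¹ (dn n) (grad v x)| ≤ 1 := by
          rw [abs_of_pos (by positivity), div_le_one h3]
          exact len_le_ld _ _
        calc _ ≤ 1 * DA := mul_le_mul h5 (hDA x hx) (abs_nonneg _) zero_le_one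
          _ = DA := one_mul _
      rw [Real.norm_eq_abs, abs_mul, abs_mul, abs_of_nonneg (hvol0 x)]
      exact mul_le_mul (mul_le_mul (hDψ x hx.1) h1 (abs_nonneg _) hDψ0) (hc.vupp x hx.1)
        (hvol0 x) (by positivity)
    · filter_upwards [haeS] with x hx
      have h1 := flux_tendsto ε g h (hc.pos x hx.1) hx.2 (hess2 v x) hdnt
      exact (h1.const_mul _).mul_const _
  -- Fatou
  set IB : ℝ := ∫ x in K ∩ G, ψ (v x) * Q x * volDen g x with hIB
  have hfat := fatou_real (μ := volume.restrict (K ∩ G))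
    (F := fun n x => ψ (v x) * (Q x - Z (dn n) x) * volDen g x)
    (f := fun x => ψ (v x) * (Q x - Z 0 x) * volDen g x)
    (a := fun n => IB - L (dn n) + C₁ * C₂ * B * (I₁ + dn n * I₂))
    (A := IB - L₀ + C₁ * C₂ * B * (I₁ + 0 * I₂))
    (fun n => by
      refine ((hQi.mono_set hSK).sub ((hZi _ (hdn0 n)).mono_set hSK)).congr
        (Eventually.of_forall fun x => ?_)
      simp only [Pi.sub_apply]
      ring)
    (fun n => by
      filter_upwards [haeS] with x hx
      have hu := (hup x hx.1 (grad v x) (hess2 v x) (dn n) hx.2 (hess2_symm hv x)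
        (hdn0 n).le (hdn1 n)).2
      have h1 : Z (dn n) x ≤ Q x := by
        refine hu.trans (mul_le_mul_of_nonneg_left (add_le_add_right ?_ _) (by linarith))
        exact mul_le_mul_of_nonneg_left (by linarith [hdn1 n])
          (by linarith [vsq_nonneg (grad v x)])
      exact mul_nonneg (mul_nonneg (hD.nonneg _) (by linarith)) (hvol0 x))
    (by
      filter_upwards [haeS] with x hx
      have h1 := DZx_tendsto ε g h (hc.pos x hx.1) hx.2 (hess2 v x) hdnt
      exact ((h1.const_sub (Q x)).const_mul _).mul_const _)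
    (fun n => by
      have h1 : ∫ x in K ∩ G, ψ (v x) * (Q x - Z (dn n) x) * volDen g x =
          IB - ∫ x in K ∩ G, ψ (v x) * Z (dn n) x * volDen g x := by
        rw [hIB, ← integral_sub (hQi.mono_set hSK) ((hZi _ (hdn0 n)).mono_set hSK)]
        congr 1
        funext x
        ring
      rw [h1, hid _ (hdn0 n)]
      linarith [hbad _ (hdn0 n) (hdn1 n)])
    ((tendsto_const_nhds.sub hLt).add
      ((tendsto_const_nhds.add (hdnt.mul_const I₂)).const_mul _))
  obtain ⟨hfi, hfle⟩ := hfat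
  have hZ0 : IntegrableOn (fun x => ψ (v x) * Z 0 x * volDen g x) (K ∩ G) := by
    refine ((hQi.mono_set hSK).sub hfi).congr (Eventually.of_forall fun x => ?_)
    simp only [Pi.sub_apply]
    ring
  have hZe : ∫ x in K ∩ G, ψ (v x) * Z 0 x * volDen g x =
      IB - ∫ x in K ∩ G, ψ (v x) * (Q x - Z 0 x) * volDen g x := by
    rw [hIB, ← integral_sub (hQi.mono_set hSK) hfi]
    congr 1
    funext x
    ring
  refine ⟨?_, hZ0, ?_⟩
  · -- second derivatives
    obtain ⟨D₃, hD₃0, hD₃⟩ := bd_diff (v := v) hc hK hv ε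
    have hb1 : IntegrableOn (fun x => ψ (v x) * D₃ * volDen g x) (K ∩ G) :=
      ((((hψc.comp hvc).continuousOn.mul continuousOn_const).mul hvol).integrableOn_compact
        hK).mono_set hSK
    have hb2 : IntegrableOn (fun x => ψ (v x) * (R x + (1 + vsq (grad v x)) * vn (grad v x))
        * volDen g x) (K ∩ G) := by
      have h1 : IntegrableOn (fun x => (1 + vsq (grad v x)) * vn (grad v x)) K :=
        (by fun_prop : Continuous fun x => (1 + vsq (grad v x)) * vn (grad v x)).continuousOn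
          |>.integrableOn_compact hK
      have h2 : IntegrableOn (fun x => R x + (1 + vsq (grad v x)) * vn (grad v x)) K :=
        hres.add h1
      have h3 : ContinuousOn (fun x => ψ (v x) * volDen g x) K :=
        (hψc.comp hvc).continuousOn.mul hvol
      refine ((h2.continuousOn_mul h3 hK).mono_set hSK).congr
        (Eventually.of_forall fun x => ?_)
      simp only
      ring
    have hb3 := (((hb1.sub hZ0).add (hb2.const_mul (C₁ * C₂))).const_mul (C₂ * (C₂ * C₁)))
    refine hb3.mono' ?_ ?_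
    · exact ((hψc.comp hvc).measurable.mul
        ((cont_msq hv).measurable.div hvn.measurable)).aestronglyMeasurable
    · filter_upwards [haeS] with x hx
      have hgx := hc.pos x hx.1
      have hup0 := (hup x hx.1 (grad v x) (hess2 v x) 0 hx.2 (hess2_symm hv x) le_rfl
        zero_le_one).1
      rw [ld_zero] at hup0
      have hm0 : 0 ≤ msq (hess2 v x) :=
        Finset.sum_nonneg fun _ _ => Finset.sum_nonneg fun _ _ => sq_nonneg _
      have h1 := hess_pt hC₁ hC₂ (len_pos hgx hx.2) (vn_pos hx.2) (vn_le hc hx.1 _)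
        (len_le hc hx.1 _) (vn_sq _).symm hm0 hup0 (hD₃ x hx) rfl
      have hv1 : 1 ≤ C₂ * volDen g x := by
        have := hc.vlow x hx.1
        rw [div_le_iff₀ (by linarith)] at this
        linarith
      have hmn : 0 ≤ msq (hess2 v x) / vn (grad v x) := div_nonneg hm0 (vn_nonneg _)
      rw [Real.norm_eq_abs, abs_of_nonneg (mul_nonneg (hD.nonneg _) hmn)]
      have h2 : msq (hess2 v x) / vn (grad v x) ≤
          (C₂ * (C₂ * C₁ * (D₃ - Z 0 x + C₁ * C₂ * (R x + (1 + vsq (grad v x))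
            * vn (grad v x))))) * volDen g x := by
        have h3 := mul_le_mul_of_nonneg_left hv1 (hmn.trans h1)
        refine ((h1.trans_eq (mul_one _).symm).trans h3).trans (le_of_eq ?_)
        simp only [hR, hZ]
        ring
      have h4 := mul_le_mul_of_nonneg_left h2 (hD.nonneg (v x))
      simp only [Pi.add_apply, Pi.sub_apply]
      refine h4.trans (le_of_eq ?_)
      ring
  · rw [hZe]
    have h1 : (∫ x in K ∩ G, ψ (v x) * (Q x - Z 0 x) * volDen g x) ≤
        IB - L₀ + C₁ * C₂ * B * (I₁ + 0 * I₂) := hfle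
    have h2 : L₀ ≤ IB - (∫ x in K ∩ G, ψ (v x) * (Q x - Z 0 x) * volDen g x)
        + C₁ * C₂ * B * I₁ := by
      have h3 : C₁ * C₂ * B * (I₁ + 0 * I₂) = C₁ * C₂ * B * I₁ := by ring
      linarith
    exact h2

end Pool.Agent.PFlow
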