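import Pool.Agent.PFlow.StmtsM

/-!
# Module LSG: the Gauss-Bonnet inequality on the filled regular levels
-/

open MeasureTheory Filter Topology
open scoped ContDiff

namespace Pool.Agent.PFlow

open Pool.Agent.PenroseSph

namespace MLSG

/-! ## Cutting a function of one variable -/

lemma contDiff_cut {χ : ℝ → ℝ} (h : ContDiff ℝ 1 χ) {I : Set ℝ} (hI : IsOpen I)
    (hf : ∀ s ∈ frontier I, s ∉ tsupport χ) : ContDiff ℝ 1 (I.indicator χ) := by
  rw [contDiff_iff_contDiffAt]
  intro s
  by_cases h1 : s ∈ I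
  · refine h.contDiffAt.congr_of_eventuallyEq ?_
    filter_upwards [hI.mem_nhds h1] with t ht
    exact Set.indicator_of_mem ht χ
  · have h2 : ∀ᶠ t in 𝓝 s, I.indicator χ t = (fun _ : ℝ => (0 : ℝ)) t := by
      by_cases h3 : s ∈ closure I
      · have h4 : s ∉ tsupport χ := hf s ⟨h3, by rwa [hI.interior_eq]⟩
        have h6 := notMem_tsupport_iff_eventuallyEq.mp h4
        filter_upwards [h6] with t ht
        by_cases h5 : t ∈ I
        · rw [Set.indicator_of_mem h5]
          exact ht
        · exact Set.indicator_of_notMem h5 χ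
      · filter_upwards [(isClosed_closure (s := I)).isOpen_compl.mem_nhds h3] with t ht
        exact Set.indicator_of_notMem (fun h5 => ht (subset_closure h5)) χ
    exact (contDiffAt_const (c := (0 : ℝ))).congr_of_eventuallyEq h2

lemma tsupport_cut {χ : ℝ → ℝ} {I : Set ℝ} (hI : IsOpen I)
    (hf : ∀ s ∈ frontier I, s ∉ tsupport χ) : tsupport (I.indicator χ) ⊆ I ∩ tsupport χ := by
  intro s hs
  have h1 : s ∈ tsupport χ := by
    refine closure_mono ?_ hs
    intro t ht
    have ht' : t ∈ I := Set.mem_of_indicator_ne_zero ht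
    have h2 : I.indicator χ t ≠ 0 := ht
    rw [Set.indicator_of_mem ht'] at h2
    exact h2
  have h2 : s ∈ closure I := closure_mono (fun t ht => Set.mem_of_indicator_ne_zero ht) hs
  refine ⟨?_, h1⟩
  by_contra h3
  exact hf s ⟨h2, by rwa [hI.interior_eq]⟩ h1

lemma cut_add {χ : ℝ → ℝ} {c : ℝ} (hc : χ c = 0) (s : ℝ) :
    χ s = (Set.Iio c).indicator χ s + (Set.Ioi c).indicator χ s := by
  rcases lt_trichotomy s c with h | h | h
  · rw [Set.indicator_of_mem (show s ∈ Set.Iio c from h),
      Set.indicator_of_notMem (fun h' : s ∈ Set.Ioi c => lt_asymm h h'), add_zero]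
  · subst h
    rw [Set.indicator_of_notMem (fun h' : s ∈ Set.Iio s => lt_irrefl s h'),
      Set.indicator_of_notMem (fun h' : s ∈ Set.Ioi s => lt_irrefl s h'), add_zero, hc]
  · rw [Set.indicator_of_mem (show s ∈ Set.Ioi c from h),
      Set.indicator_of_notMem (fun h' : s ∈ Set.Iio c => lt_asymm h h'), zero_add]

lemma bump_left {a b c : ℝ} {χ : ℝ → ℝ} (h : BumpOn a b χ) (hc : c ∉ tsupport χ) :
    BumpOn a c ((Set.Iio c).indicator χ) := by
  have hf : ∀ s ∈ frontier (Set.Iio c), s ∉ tsupport χ := by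
    intro s hs
    rw [frontier_Iio, Set.mem_singleton_iff] at hs
    rwa [hs]
  refine ⟨contDiff_cut h.smooth isOpen_Iio hf, ?_, ?_⟩
  · intro s
    exact Set.indicator_nonneg (fun t _ => h.nonneg t) s
  · intro s hs
    have h1 := tsupport_cut isOpen_Iio hf hs
    exact ⟨(h.supp h1.2).1, h1.1⟩

lemma bump_right {a b c : ℝ} {χ : ℝ → ℝ} (h : BumpOn a b χ) (hc : c ∉ tsupport χ) :
    BumpOn c b ((Set.Ioi c).indicator χ) := by
  have hf : ∀ s ∈ frontier (Set.Ioi c), s ∉ tsupport χ := by
    intro s hs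
    rw [frontier_Ioi, Set.mem_singleton_iff] at hs
    rwa [hs]
  refine ⟨contDiff_cut h.smooth isOpen_Ioi hf, ?_, ?_⟩
  · intro s
    exact Set.indicator_nonneg (fun t _ => h.nonneg t) s
  · intro s hs
    have h1 := tsupport_cut isOpen_Ioi hf hs
    exact ⟨h1.1, (h.supp h1.2).2⟩

lemma integrable_bump {a b : ℝ} {χ : ℝ → ℝ} (h : BumpOn a b χ) : Integrable χ := by
  refine h.smooth.continuous.integrable_of_hasCompactSupport ?_
  exact Metric.isCompact_of_isClosed_isBounded (isClosed_tsupport χ)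
    ((Metric.isBounded_Ioo a b).subset h.supp)

/-! ## Sets of levels -/

lemma compact_pre {a' b' s₀ s₁ : ℝ} {F : E3 → ℝ} (T : Trunc a' b' s₀ s₁ F) {c d : ℝ}
    (hd : d < s₁) : IsCompact {x | F x ∈ Set.Icc c d} := by
  refine (isCompact_closedBall (0 : E3) b').of_isClosed_subset
    (isClosed_Icc.preimage T.cont) ?_
  intro x hx
  rw [mem_closedBall_zero_iff]
  by_contra h1
  have h2 := T.outer x (not_le.mp h1).le
  have h3 : F x ∈ Set.Icc c d := hx
  rw [h2] at h3
  exact absurd h3.2 (not_le.mpr hd)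

lemma grad_congr {f k : E3 → ℝ} {x : E3} (h : ∀ᶠ y in 𝓝 x, f y = k y) :
    grad f x = grad k x := by
  funext i
  have h1 : fderiv ℝ f x = fderiv ℝ k x := Filter.EventuallyEq.fderiv_eq h
  simp only [grad, pd, h1]

/-- No critical value in `(α, β)`. -/
lemma base (hGB : Stmt_GB) (hUNIC : Stmt_UNIC) (hFA : Stmt_FA) (hFC : Stmt_FC)
    (hFD : Stmt_FD) (hSM : Stmt_SM) {U : Set E3} {g h : TensorField}
    {a' b' s₀ s₁ t₀ t₁ : ℝ} {W v : E3 → ℝ} {C : NNReal} {z₁ : E3} {K : Set E3} {ψ : ℝ → ℝ}
    (D : LSData U g h a' b' s₀ s₁ t₀ t₁ W v C z₁ K ψ) {α β : ℝ} (hα : t₀ ≤ α)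
    (hαβ : α < β) (hβ : β ≤ t₁) (hr : ∀ x ∈ K, v x ∈ Set.Ioo α β → grad v x ≠ 0)
    {χ : ℝ → ℝ} (hχ : BumpOn α β χ) :
    ∫ x in K ∩ good W s₀ s₁ 0 z₁, χ (v x) * Kd g x (grad v x) (hess2 v x) * volDen g x
      ≤ 4 * Real.pi * ∫ s, χ s := by
  obtain ⟨hA1, hA2, -, -, hA5, hA6⟩ := hFA a' b' s₀ s₁ W C z₁ D.trunc D.lip D.far
  have hl0 := D.lt₀
  have hl1 := D.lt₁
  -- regular levels
  have hreg : ∀ c ∈ Set.Ioo α β, RegLevel W c := by
    intro c hc
    have hcK : ∀ z, W z = c → z ∈ K := fun z hz => D.levelsW z (by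
      rw [hz]
      exact ⟨by linarith [hc.1], by linarith [hc.2]⟩)
    refine hSM W c D.trunc.cont ?_ ?_
    · have h1 := compact_pre D.trunc (c := c) (d := c) (by linarith [hc.2])
      rw [Set.Icc_self] at h1
      exact h1
    · intro z hz
      have hzK := hcK z hz
      have h1 := D.agree z hzK
      have h2 : W z = v z := h1.self_of_nhds
      refine ⟨?_, ?_⟩
      · exact (D.smooth.of_le (by exact_mod_cast le_top)).contDiffAt.congr_of_eventuallyEq h1
      · rw [grad_congr h1]
        exact hr z hzK (by rw [← h2, hz]; exact hc)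
  have hgood := hFD a' b' s₀ s₁ W C z₁ D.trunc D.lip D.far α β (by linarith) hαβ
    (by linarith) hreg
  set F : E3 → ℝ := fill W s₀ s₁ 0 z₁ with hF
  set V : Set E3 := {x | F x ∈ Set.Ioo α β} with hV
  have hVo : IsOpen V := isOpen_Ioo.preimage hA6.cont
  have hVK : V ⊆ K := fun x hx => D.levels x ⟨by linarith [hx.1], by linarith [hx.2]⟩
  have hFW : ∀ x ∈ V, F x = W x := by
    intro x hx
    have h1 := hgood x hx
    exact h1.2.trans h1.1
  have hev : ∀ x ∈ V, ∀ᶠ y in 𝓝 x, F y = v y := by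
    intro x hx
    filter_upwards [hVo.mem_nhds hx, D.agree x (hVK hx)] with y hy1 hy2
    rw [hFW y hy1, hy2]
  have hFv : ∀ x ∈ V, F x = v x := fun x hx => (hev x hx).self_of_nhds
  have hgr : ∀ x ∈ V, grad v x ≠ 0 := by
    intro x hx
    refine hr x (hVK hx) ?_
    rw [← hFv x hx]
    exact hx
  have hfol : Fol V α β g v := by
    refine ⟨hVo, ⟨fun i j => (D.met.smooth i j).mono (hVK.trans D.sub), fun x hx =>
      D.met.posDef x (D.sub (hVK hx))⟩, D.smooth.contDiffOn, ?_, hgr, ?_⟩
    · intro x hx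
      rw [← hFv x hx]
      exact hx
    · intro c d hc hd
      have h1 : cslab V v c d = {x | F x ∈ Set.Icc c d} := by
        ext x
        constructor
        · rintro ⟨h1, h2⟩
          have h3 : v x ∈ Set.Icc c d := h2
          rw [← hFv x h1] at h3
          exact h3
        · intro h1
          have h2 : x ∈ V := ⟨lt_of_lt_of_le hc h1.1, lt_of_le_of_lt h1.2 hd⟩
          refine ⟨h2, ?_⟩
          change v x ∈ Set.Icc c d
          rw [← hFv x h2]
          exact h1
      rw [h1]
      exact compact_pre hA6 (by linarith)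
  have hconn : ∀ s : ℝ, IsPreconnected (V ∩ v ⁻¹' {s}) := by
    intro s
    by_cases hs : s ∈ Set.Ioo α β
    · have h1 : V ∩ v ⁻¹' {s} = {x | F x = s} := by
        ext x
        constructor
        · rintro ⟨h1, h2⟩
          have h3 : v x = s := h2
          change F x = s
          rw [hFv x h1, h3]
        · intro h1
          have h1' : F x = s := h1
          have h2 : x ∈ V := by
            change F x ∈ Set.Ioo α β
            rw [h1']
            exact hs
          refine ⟨h2, ?_⟩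
          change v x = s
          rw [← hFv x h2, h1']
      rw [h1]
      obtain ⟨e, he, he1, he2⟩ : ∃ e : ℝ, 0 < e ∧ α < s - e ∧ s + e < β := by
        refine ⟨min (s - α) (β - s) / 2, ?_, ?_, ?_⟩
        · have := lt_min (sub_pos.mpr hs.1) (sub_pos.mpr hs.2)
          linarith
        · have h2 := min_le_left (s - α) (β - s)
          have h3 := hs.1
          linarith
        · have h2 := min_le_right (s - α) (β - s)
          have h3 := hs.2
          linarith
      have h2 := hFC a' b' s₀ s₁ W C z₁ D.trunc D.lip D.far s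
      refine hUNIC F s e hA6.cont he ?_ h2.1 h2.2 ?_
      · have h3 : {x | |F x - s| ≤ e} = {x | F x ∈ Set.Icc (s - e) (s + e)} := by
          ext x
          simp only [Set.mem_ofPred_eq, Set.mem_Icc, abs_le]
          constructor
          · rintro ⟨h4, h5⟩
            constructor <;> linarith
          · rintro ⟨h4, h5⟩
            constructor <;> linarith
        rw [h3]
        exact compact_pre hA6 (by linarith)
      · intro x hx
        have hxV : x ∈ V := by
          change F x ∈ Set.Ioo α β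
          rw [hx]
          exact hs
        have h3 : fderiv ℝ F x = fderiv ℝ v x := Filter.EventuallyEq.fderiv_eq (hev x hxV)
        refine ⟨D.smooth.contDiffAt.congr_of_eventuallyEq (hev x hxV), ?_⟩
        rw [h3]
        intro h4
        apply hgr x hxV
        funext i
        simp only [grad, pd, h4]
        rfl
    · have h1 : V ∩ v ⁻¹' {s} = ∅ := by
        ext x
        simp only [Set.mem_inter_iff, Set.mem_preimage, Set.mem_singleton_iff,
          Set.mem_empty_iff_false, iff_false, not_and]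
        intro h1 h2
        apply hs
        rw [← h2, ← hFv x h1]
        exact h1
      rw [h1]
      exact isPreconnected_empty
  have hmain := hGB V α β g v hfol hconn χ hχ
  have hVg : V ⊆ K ∩ good W s₀ s₁ 0 z₁ := fun x hx => ⟨hVK hx, hgood x hx⟩
  have hgc : IsClosed (good W s₀ s₁ 0 z₁) :=
    (isClosed_eq hA5.cont D.trunc.cont).inter (isClosed_eq hA6.cont hA5.cont)
  have hme : MeasurableSet (K ∩ good W s₀ s₁ 0 z₁) :=
    D.compact.measurableSet.inter hgc.measurableSet
  have hint : ∫ x in K ∩ good W s₀ s₁ 0 z₁,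
      χ (v x) * Kd g x (grad v x) (hess2 v x) * volDen g x
      = ∫ x in V, χ (v x) * Kd g x (grad v x) (hess2 v x) * volDen g x := by
    refine setIntegral_eq_of_subset_of_forall_sdiff_eq_zero hme hVg ?_
    rintro x ⟨⟨hxK, hxg⟩, hxV⟩
    have h1 : χ (v x) = 0 := by
      by_contra h2
      apply hxV
      have h3 : v x ∈ Set.Ioo α β := hχ.supp (subset_tsupport χ h2)
      have h4 : W x = v x := (D.agree x hxK).self_of_nhds
      have h5 : F x = v x := (hxg.2.trans hxg.1).trans h4
      change F x ∈ Set.Ioo α β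
      rw [h5]
      exact h3
    rw [h1, zero_mul, zero_mul]
  rw [hint]
  refine le_trans (le_of_eq ?_) hmain
  refine integral_congr_ae (Filter.Eventually.of_forall fun x => ?_)
  simp only [Kd, curv, dens]
  ring

/-- Induction over the critical values in `(α, β)`. -/
lemma step (hGB : Stmt_GB) (hUNIC : Stmt_UNIC) (hFA : Stmt_FA) (hFC : Stmt_FC)
    (hFD : Stmt_FD) (hSM : Stmt_SM) {U : Set E3} {g h : TensorField}
    {a' b' s₀ s₁ t₀ t₁ : ℝ} {W v : E3 → ℝ} {C : NNReal} {z₁ : E3} {K : Set E3} {ψ : ℝ → ℝ}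
    (D : LSData U g h a' b' s₀ s₁ t₀ t₁ W v C z₁ K ψ)
    (hfin : {x ∈ K | grad v x = 0}.Finite) (n : ℕ) :
    ∀ (α β : ℝ), t₀ ≤ α → β ≤ t₁ →
    ((v '' {x ∈ K | grad v x = 0}) ∩ Set.Ioo α β).ncard ≤ n →
    ∀ χ : ℝ → ℝ, BumpOn α β χ → (∀ x ∈ K, grad v x = 0 → v x ∉ tsupport χ) →
    ∫ x in K ∩ good W s₀ s₁ 0 z₁, χ (v x) * Kd g x (grad v x) (hess2 v x) * volDen g x
      ≤ 4 * Real.pi * ∫ s, χ s := by
  have hCr : (v '' {x ∈ K | grad v x = 0}).Finite := hfin.image v
  have hpos : ∀ {a b : ℝ} {χ : ℝ → ℝ}, BumpOn a b χ → 0 ≤ 4 * Real.pi * ∫ s, χ s := by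
    intro a b χ hχ
    exact mul_nonneg (by positivity) (integral_nonneg hχ.nonneg)
  have hempty : ∀ (α β : ℝ), t₀ ≤ α → β ≤ t₁ →
      (v '' {x ∈ K | grad v x = 0}) ∩ Set.Ioo α β = ∅ →
      ∀ χ : ℝ → ℝ, BumpOn α β χ →
      ∫ x in K ∩ good W s₀ s₁ 0 z₁, χ (v x) * Kd g x (grad v x) (hess2 v x) * volDen g x
        ≤ 4 * Real.pi * ∫ s, χ s := by
    intro α β hα hβ he χ hχ
    by_cases hαβ : α < β
    · refine base hGB hUNIC hFA hFC hFD hSM D hα hαβ hβ ?_ hχ
      intro x hx h1 h2
      have h3 : v x ∈ (v '' {x ∈ K | grad v x = 0}) ∩ Set.Ioo α β :=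
        ⟨⟨x, ⟨hx, h2⟩, rfl⟩, h1⟩
      rw [he] at h3
      exact h3
    · have h0 : ∀ s, χ s = 0 := by
        intro s
        by_contra h1
        have h2 := hχ.supp (subset_tsupport χ h1)
        exact hαβ (h2.1.trans h2.2)
      simp [h0]
  induction n with
  | zero =>
    intro α β hα hβ hn χ hχ _
    have h1 : ((v '' {x ∈ K | grad v x = 0}) ∩ Set.Ioo α β).Finite :=
      hCr.subset Set.inter_subset_left
    have h2 : (v '' {x ∈ K | grad v x = 0}) ∩ Set.Ioo α β = ∅ :=
      (Set.ncard_eq_zero h1).mp (Nat.le_zero.mp hn)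
    exact hempty α β hα hβ h2 χ hχ
  | succ n ih =>
    intro α β hα hβ hn χ hχ hc
    rcases ((v '' {x ∈ K | grad v x = 0}) ∩ Set.Ioo α β).eq_empty_or_nonempty with h0 | h0
    · exact hempty α β hα hβ h0 χ hχ
    obtain ⟨c, hcr, hcI⟩ := h0
    obtain ⟨y, ⟨hyK, hy0⟩, hyc⟩ := id hcr
    have hcs : c ∉ tsupport χ := by
      rw [← hyc]
      exact hc y hyK hy0
    have hLb := bump_left hχ hcs
    have hRb := bump_right hχ hcs
    have hfin' : ((v '' {x ∈ K | grad v x = 0}) ∩ Set.Ioo α β).Finite :=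
      hCr.subset Set.inter_subset_left
    have hcard : ∀ {α' β' : ℝ}, α ≤ α' → β' ≤ β → c ∉ Set.Ioo α' β' →
        ((v '' {x ∈ K | grad v x = 0}) ∩ Set.Ioo α' β').ncard ≤ n := by
      intro α' β' h1 h2 h3
      have h4 : (v '' {x ∈ K | grad v x = 0}) ∩ Set.Ioo α' β' ⊂
          (v '' {x ∈ K | grad v x = 0}) ∩ Set.Ioo α β := by
        refine ⟨Set.inter_subset_inter_right _ (Set.Ioo_subset_Ioo h1 h2), fun h5 => ?_⟩
        exact h3 (h5 ⟨hcr, hcI⟩).2
      have h5 := Set.ncard_lt_ncard h4 hfin'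
      omega
    have hL := ih α c hα (hcI.2.le.trans hβ)
      (hcard le_rfl hcI.2.le (fun h1 => lt_irrefl _ h1.2)) _ hLb (by
        intro x hx h1 h2
        refine hc x hx h1 ?_
        refine closure_mono ?_ h2
        intro t ht
        have ht' : t ∈ Set.Iio c := Set.mem_of_indicator_ne_zero ht
        have h3 : (Set.Iio c).indicator χ t ≠ 0 := ht
        rw [Set.indicator_of_mem ht'] at h3
        exact h3)
    have hR := ih c β (hα.trans hcI.1.le) hβ
      (hcard hcI.1.le le_rfl (fun h1 => lt_irrefl _ h1.1)) _ hRb (by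
        intro x hx h1 h2
        refine hc x hx h1 ?_
        refine closure_mono ?_ h2
        intro t ht
        have ht' : t ∈ Set.Ioi c := Set.mem_of_indicator_ne_zero ht
        have h3 : (Set.Ioi c).indicator χ t ≠ 0 := ht
        rw [Set.indicator_of_mem ht'] at h3
        exact h3)
    have hχc : χ c = 0 := image_eq_zero_of_notMem_tsupport hcs
    by_cases hi : IntegrableOn
        (fun x => χ (v x) * Kd g x (grad v x) (hess2 v x) * volDen g x)
        (K ∩ good W s₀ s₁ 0 z₁)
    · have hmL : MeasurableSet (v ⁻¹' Set.Iio c) :=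
        (isOpen_Iio.preimage D.smooth.continuous).measurableSet
      have hmR : MeasurableSet (v ⁻¹' Set.Ioi c) :=
        (isOpen_Ioi.preimage D.smooth.continuous).measurableSet
      have hiL : IntegrableOn (fun x => (Set.Iio c).indicator χ (v x)
          * Kd g x (grad v x) (hess2 v x) * volDen g x) (K ∩ good W s₀ s₁ 0 z₁) := by
        have h1 := Integrable.indicator hi hmL
        refine h1.congr (Filter.Eventually.of_forall fun x => ?_)
        by_cases hx : v x ∈ Set.Iio c
        · rw [Set.indicator_of_mem (show x ∈ v ⁻¹' Set.Iio c from hx)]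
          simp only [Set.indicator_of_mem hx]
        · rw [Set.indicator_of_notMem (show x ∉ v ⁻¹' Set.Iio c from hx)]
          simp only [Set.indicator_of_notMem hx, zero_mul]
      have hiR : IntegrableOn (fun x => (Set.Ioi c).indicator χ (v x)
          * Kd g x (grad v x) (hess2 v x) * volDen g x) (K ∩ good W s₀ s₁ 0 z₁) := by
        have h1 := Integrable.indicator hi hmR
        refine h1.congr (Filter.Eventually.of_forall fun x => ?_)
        by_cases hx : v x ∈ Set.Ioi c
        · rw [Set.indicator_of_mem (show x ∈ v ⁻¹' Set.Ioi c from hx)]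
          simp only [Set.indicator_of_mem hx]
        · rw [Set.indicator_of_notMem (show x ∉ v ⁻¹' Set.Ioi c from hx)]
          simp only [Set.indicator_of_notMem hx, zero_mul]
      have h1 : ∫ x in K ∩ good W s₀ s₁ 0 z₁,
          χ (v x) * Kd g x (grad v x) (hess2 v x) * volDen g x
          = (∫ x in K ∩ good W s₀ s₁ 0 z₁, (Set.Iio c).indicator χ (v x)
              * Kd g x (grad v x) (hess2 v x) * volDen g x)
            + ∫ x in K ∩ good W s₀ s₁ 0 z₁, (Set.Ioi c).indicator χ (v x)
              * Kd g x (grad v x) (hess2 v x) * volDen g x := by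
        rw [← integral_add hiL hiR]
        refine integral_congr_ae (Filter.Eventually.of_forall fun x => ?_)
        simp only
        rw [cut_add hχc (v x)]
        ring
      have h2 : ∫ s, χ s = (∫ s, (Set.Iio c).indicator χ s) + ∫ s, (Set.Ioi c).indicator χ s := by
        rw [← integral_add (integrable_bump hLb) (integrable_bump hRb)]
        exact integral_congr_ae (Filter.Eventually.of_forall fun s => cut_add hχc s)
      rw [h1, h2, mul_add]
      exact add_le_add hL hR
    · rw [integral_undef hi]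
      exact hpos hχ

end MLSG

/-- **(LSG)** The Gauss-Bonnet inequality on the filled regular levels. -/
theorem LSG (hGB : Stmt_GB) (hUNIC : Stmt_UNIC) (hFA : Stmt_FA) (hFC : Stmt_FC)
    (hFD : Stmt_FD) (hSM : Stmt_SM) : Stmt_LSG := by
  intro U g h a' b' s₀ s₁ t₀ t₁ W v C z₁ K ψ χ D hχ hfin hc
  exact MLSG.step hGB hUNIC hFA hFC hFD hSM D hfin _ t₀ t₁ le_rfl le_rfl le_rfl χ hχ hc

end Pool.Agent.PFlow
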