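import Pool.Agent.PFlow.M_Coef

/-!
# Passage to the limit in the level set inequality
-/

open MeasureTheory Filter Topology
open scoped ContDiff

namespace Pool.Agent.PFlow

open Pool.Agent.PenroseSph

namespace MMIT

/-! ### Bounds at a point -/

/-- The constants of `CT` at a point. -/
structure Cs (C : ℝ) (g h : TensorField) (x : E3) : Prop where
  one : 1 ≤ C
  lo : ∀ p, vsq p / C ≤ ev (g x)⁻¹ p p
  hi : ∀ p, ev (g x)⁻¹ p p ≤ C * vsq p
  chr : ∀ k i j, |christoffel g k i j x| ≤ C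
  ten : ∀ i j, |h x i j| ≤ C
  mom : ∀ i, |momentumDensity g h i x| ≤ C
  en : |energyDensity g h x| ≤ C
  inv : ∀ i j, |(g x)⁻¹ i j| ≤ C

/-- The sum of the absolute values of the entries. -/
def ss (M : Bil) : ℝ := ∑ i, ∑ j, |M i j|

/-- The bound. -/
def zz (p : Cov) (M : Bil) : ℝ := 1 + vsq p ^ 2 + msq M

theorem vsq_nonneg (p : Cov) : 0 ≤ vsq p := Finset.sum_nonneg fun _ _ => sq_nonneg _

theorem vn_nonneg (p : Cov) : 0 ≤ vn p := Real.sqrt_nonneg _

theorem vn_sq (p : Cov) : vn p ^ 2 = vsq p := Real.sq_sqrt (vsq_nonneg p)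

theorem abs_le_vn (p : Cov) (i : Fin 3) : |p i| ≤ vn p := by
  refine Real.abs_le_sqrt ?_
  exact Finset.single_le_sum (f := fun i => p i ^ 2) (fun i _ => sq_nonneg _) (Finset.mem_univ i)

theorem abs_sum_le_card (f : Fin 3 → ℝ) (b : ℝ) (hf : ∀ i, |f i| ≤ b) :
    |∑ i, f i| ≤ 3 * b := by
  refine (Finset.abs_sum_le_sum_abs _ _).trans ?_
  refine (Finset.sum_le_sum fun i _ => hf i).trans ?_
  simp

section Bounds

variable {C : ℝ} {g h : TensorField} {x : E3} (hc : Cs C g h x)

include hc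

theorem b_raise (p : Cov) (i : Fin 3) : |raise g x p i| ≤ 3 * (C * vn p) := by
  refine abs_sum_le_card _ _ fun j => ?_
  rw [abs_mul]
  exact mul_le_mul (hc.inv i j) (abs_le_vn p j) (abs_nonneg _) (zero_le_one.trans hc.one)

theorem b_len (p : Cov) : len g x p ≤ C * vn p := by
  have h0 := zero_le_one.trans hc.one
  refine Real.sqrt_le_iff.mpr ⟨mul_nonneg h0 (vn_nonneg p), ?_⟩
  refine (hc.hi p).trans ?_
  rw [mul_pow, vn_sq]
  exact mul_le_mul_of_nonneg_right (by nlinarith [hc.one]) (vsq_nonneg p)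

theorem b_len' (p : Cov) : vn p / C ≤ len g x p := by
  have h0 := zero_lt_one.trans_le hc.one
  refine Real.le_sqrt_of_sq_le ?_
  refine le_trans ?_ (hc.lo p)
  rw [div_pow, vn_sq]
  exact div_le_div_of_nonneg_left (vsq_nonneg p) h0 (by nlinarith [hc.one])

theorem b_nrm (p : Cov) (i : Fin 3) : |nrm g x p i| ≤ 3 * C ^ 2 := by
  have h0 := zero_lt_one.trans_le hc.one
  unfold nrm
  rcases (Real.sqrt_nonneg (ev (g x)⁻¹ p p)).eq_or_lt with h1 | h1
  · have h2 : len g x p = 0 := h1.symm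
    rw [h2, div_zero, abs_zero]
    positivity
  · have h2 : 0 < len g x p := h1
    rw [abs_div, abs_of_pos h2, div_le_iff₀ h2]
    refine (b_raise hc p i).trans ?_
    have h3 := b_len' hc p
    rw [div_le_iff₀ h0] at h3
    have h4 : 3 * (C * vn p) ≤ 3 * (C * (len g x p * C)) := by gcongr
    calc 3 * (C * vn p) ≤ 3 * (C * (len g x p * C)) := h4
      _ = 3 * C ^ 2 * len g x p := by ring

omit hc in
theorem b_ev {B : Bil} {a : Cov} {b : ℝ} (hb : 0 ≤ b) (ha : ∀ i, |a i| ≤ b) :
    |ev B a a| ≤ ss B * b ^ 2 := by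
  unfold ev ss
  refine (Finset.abs_sum_le_sum_abs _ _).trans ?_
  rw [Finset.sum_mul]
  refine Finset.sum_le_sum fun i _ => ?_
  refine (Finset.abs_sum_le_sum_abs _ _).trans ?_
  rw [Finset.sum_mul]
  refine Finset.sum_le_sum fun j _ => ?_
  rw [abs_mul, abs_mul, mul_assoc]
  refine mul_le_mul_of_nonneg_left ?_ (abs_nonneg _)
  rw [sq]
  exact mul_le_mul (ha i) (ha j) (abs_nonneg _) hb

omit hc in
theorem ss_nonneg (B : Bil) : 0 ≤ ss B :=
  Finset.sum_nonneg fun _ _ => Finset.sum_nonneg fun _ _ => abs_nonneg _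

theorem b_bnn (p : Cov) (B : Bil) : |bnn g x p B| ≤ 9 * C ^ 4 * ss B := by
  have h1 := b_ev (B := B) (a := nrm g x p) (b := 3 * C ^ 2) (by positivity) (b_nrm hc p)
  calc |bnn g x p B| ≤ ss B * (3 * C ^ 2) ^ 2 := h1
    _ = 9 * C ^ 4 * ss B := by ring

theorem b_trg (B : Bil) : |trg g x B| ≤ C * ss B := by
  unfold trg ss
  refine (Finset.abs_sum_le_sum_abs _ _).trans ?_
  rw [Finset.mul_sum]
  refine Finset.sum_le_sum fun i _ => ?_
  refine (Finset.abs_sum_le_sum_abs _ _).trans ?_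
  rw [Finset.mul_sum]
  refine Finset.sum_le_sum fun j _ => ?_
  rw [abs_mul]
  exact mul_le_mul_of_nonneg_right (hc.inv i j) (abs_nonneg _)

theorem pow_mono {m n : ℕ} (h : m ≤ n) : C ^ m ≤ C ^ n := pow_le_pow_right₀ hc.one h

theorem b_btan (p : Cov) (B : Bil) : |btan g x p B| ≤ 10 * C ^ 4 * ss B := by
  unfold btan
  have h1 := b_trg hc B
  have h2 := b_bnn hc p B
  have h3 : C * ss B ≤ C ^ 4 * ss B := by
    have := pow_mono hc (show 1 ≤ 4 by norm_num)
    rw [pow_one] at this
    exact mul_le_mul_of_nonneg_right this (ss_nonneg B)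
  refine (abs_sub _ _).trans ?_
  linarith

theorem b_cHess (p : Cov) (M : Bil) : ss (cHess g x p M) ≤ ss M + 27 * (C * vn p) := by
  have h1 : ∀ i j, |cHess g x p M i j| ≤ |M i j| + 3 * (C * vn p) := by
    intro i j
    change |M i j - ∑ k, christoffel g k i j x * p k| ≤ _
    refine (abs_sub _ _).trans ?_
    have h2 : |∑ k, christoffel g k i j x * p k| ≤ 3 * (C * vn p) := by
      refine abs_sum_le_card _ _ fun k => ?_
      rw [abs_mul]
      exact mul_le_mul (hc.chr k i j) (abs_le_vn p k) (abs_nonneg _) (zero_le_one.trans hc.one)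
    linarith
  unfold ss
  calc ∑ i, ∑ j, |cHess g x p M i j| ≤ ∑ i, ∑ j, (|M i j| + 3 * (C * vn p)) :=
        Finset.sum_le_sum fun i _ => Finset.sum_le_sum fun j _ => h1 i j
    _ = _ := by
        simp only [Finset.sum_add_distrib, Finset.sum_const, Finset.card_univ, Fintype.card_fin,
          nsmul_eq_mul]
        push_cast
        ring

theorem ss_ten : ss (h x) ≤ 9 * C := by
  unfold ss
  calc ∑ i, ∑ j, |h x i j| ≤ ∑ _i : Fin 3, ∑ _j : Fin 3, C :=
        Finset.sum_le_sum fun i _ => Finset.sum_le_sum fun j _ => hc.ten i j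
    _ = _ := by
        simp only [Finset.sum_const, Finset.card_univ, Fintype.card_fin, nsmul_eq_mul]
        push_cast
        ring

omit hc in
theorem vn_ss (p : Cov) (M : Bil) : vn p * ss M ≤ (9 * vn p ^ 2 + msq M) / 2 := by
  have h1 : ∀ i j, vn p * |M i j| ≤ (vn p ^ 2 + M i j ^ 2) / 2 := by
    intro i j
    have h2 := sq_nonneg (vn p - |M i j|)
    have h3 := sq_abs (M i j)
    nlinarith
  unfold ss msq
  rw [Finset.mul_sum]
  calc ∑ i, vn p * ∑ j, |M i j| = ∑ i, ∑ j, vn p * |M i j| :=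
        Finset.sum_congr rfl fun i _ => Finset.mul_sum _ _ _
    _ ≤ ∑ i, ∑ j, (vn p ^ 2 + M i j ^ 2) / 2 :=
        Finset.sum_le_sum fun i _ => Finset.sum_le_sum fun j _ => h1 i j
    _ = _ := by
        simp only [← Finset.sum_div, Finset.sum_add_distrib, Finset.sum_const, Finset.card_univ,
          Fintype.card_fin, nsmul_eq_mul]
        push_cast
        ring

omit hc in
theorem msq_nonneg (M : Bil) : 0 ≤ msq M :=
  Finset.sum_nonneg fun _ _ => Finset.sum_nonneg fun _ _ => sq_nonneg _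

omit hc in
theorem pow_le_zz (p : Cov) (M : Bil) :
    vn p ≤ zz p M ∧ vn p ^ 2 ≤ zz p M ∧ vn p ^ 3 ≤ zz p M ∧ vn p * ss M ≤ 9 * zz p M := by
  have h0 := vn_nonneg p
  have h1 : vn p ^ 4 = vsq p ^ 2 := by rw [← vn_sq]; ring
  have h2 := msq_nonneg M
  have h3 : zz p M = 1 + vn p ^ 4 + msq M := by rw [h1]; rfl
  have h4 := vn_ss p M
  have e1 : vn p ≤ 1 + vn p ^ 4 := by nlinarith [sq_nonneg (vn p ^ 2 - 1), sq_nonneg (vn p - 1)]
  have e2 : vn p ^ 2 ≤ 1 + vn p ^ 4 := by nlinarith [sq_nonneg (vn p ^ 2 - 1)]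
  have e3 : vn p ^ 3 ≤ 1 + vn p ^ 4 := by
    nlinarith [sq_nonneg (vn p ^ 2 - vn p), sq_nonneg (vn p ^ 2 - 1)]
  refine ⟨by linarith, by linarith, by linarith, by linarith⟩

theorem b_flux {ε : ℝ} (hε : 0 < ε) (hε1 : ε < 1) (p : Cov) (M : Bil) :
    |flux ε g h x p M| ≤ 451 * C ^ 6 * zz p M := by
  have hC := hc.one
  have hC0 := zero_le_one.trans hC
  obtain ⟨z1, z2, z3, z4⟩ := pow_le_zz p M
  have h0 := vn_nonneg p
  have hl := b_len hc p
  have hl0 : 0 ≤ len g x p := Real.sqrt_nonneg _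
  have hz : 0 ≤ zz p M := h0.trans z1
  have a1 : |len g x p * btan g x p (cHess g x p M)| ≤ 360 * C ^ 6 * zz p M := by
    rw [abs_mul, abs_of_nonneg hl0]
    have b1 := (b_btan hc p (cHess g x p M)).trans
      (mul_le_mul_of_nonneg_left (b_cHess hc p M) (by positivity : (0 : ℝ) ≤ 10 * C ^ 4))
    calc len g x p * |btan g x p (cHess g x p M)|
        ≤ (C * vn p) * (10 * C ^ 4 * (ss M + 27 * (C * vn p))) :=
          mul_le_mul hl b1 (abs_nonneg _) (by positivity)
      _ = 10 * C ^ 5 * (vn p * ss M) + 270 * C ^ 6 * vn p ^ 2 := by ring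
      _ ≤ 10 * C ^ 6 * (9 * zz p M) + 270 * C ^ 6 * zz p M := by
          have e1 : 10 * C ^ 5 * (vn p * ss M) ≤ 10 * C ^ 6 * (9 * zz p M) := by
            refine mul_le_mul ?_ z4 (mul_nonneg h0 (ss_nonneg M)) (by positivity)
            exact mul_le_mul_of_nonneg_left (pow_mono hc (by norm_num)) (by norm_num)
          have e2 : 270 * C ^ 6 * vn p ^ 2 ≤ 270 * C ^ 6 * zz p M :=
            mul_le_mul_of_nonneg_left z2 (by positivity)
          linarith
      _ = 360 * C ^ 6 * zz p M := by ring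
  have a2 : |len g x p ^ 3 / (2 - ε)| ≤ C ^ 6 * zz p M := by
    rw [abs_of_nonneg (by apply div_nonneg (by positivity); linarith)]
    have b1 : len g x p ^ 3 / (2 - ε) ≤ len g x p ^ 3 :=
      div_le_self (by positivity) (by linarith)
    refine b1.trans ?_
    calc len g x p ^ 3 ≤ (C * vn p) ^ 3 := pow_le_pow_left₀ hl0 hl 3
      _ = C ^ 3 * vn p ^ 3 := by ring
      _ ≤ C ^ 6 * zz p M := mul_le_mul (pow_mono hc (by norm_num)) z3 (by positivity)
          (by positivity)
  have a3 : |len g x p ^ 2 * trg g x (h x)| ≤ 9 * C ^ 6 * zz p M := by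
    rw [abs_mul, abs_of_nonneg (by positivity : (0 : ℝ) ≤ len g x p ^ 2)]
    have b1 := (b_trg hc (h x)).trans (mul_le_mul_of_nonneg_left (ss_ten hc) hC0)
    calc len g x p ^ 2 * |trg g x (h x)| ≤ (C * vn p) ^ 2 * (C * (9 * C)) :=
          mul_le_mul (pow_le_pow_left₀ hl0 hl 2) b1 (abs_nonneg _) (by positivity)
      _ = 9 * C ^ 4 * vn p ^ 2 := by ring
      _ ≤ 9 * C ^ 6 * zz p M := by
          refine mul_le_mul ?_ z2 (by positivity) (by positivity)
          exact mul_le_mul_of_nonneg_left (pow_mono hc (by norm_num)) (by norm_num)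
  have a4 : |ev (h x) (raise g x p) (raise g x p)| ≤ 81 * C ^ 6 * zz p M := by
    have b1 := b_ev (B := h x) (a := raise g x p) (b := 3 * (C * vn p)) (by positivity)
      (b_raise hc p)
    calc |ev (h x) (raise g x p) (raise g x p)| ≤ ss (h x) * (3 * (C * vn p)) ^ 2 := b1
      _ ≤ 9 * C * (3 * (C * vn p)) ^ 2 := mul_le_mul_of_nonneg_right (ss_ten hc) (by positivity)
      _ = 81 * C ^ 3 * vn p ^ 2 := by ring
      _ ≤ 81 * C ^ 6 * zz p M := by
          refine mul_le_mul ?_ z2 (by positivity) (by positivity)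
          exact mul_le_mul_of_nonneg_left (pow_mono hc (by norm_num)) (by norm_num)
  unfold flux
  have c1 := abs_sub (len g x p * btan g x p (cHess g x p M)) (len g x p ^ 3 / (2 - ε))
  have c2 := abs_sub (len g x p ^ 2 * trg g x (h x)) (ev (h x) (raise g x p) (raise g x p))
  have c3 := abs_sub (len g x p * btan g x p (cHess g x p M) - len g x p ^ 3 / (2 - ε))
    (len g x p ^ 2 * trg g x (h x) - ev (h x) (raise g x p) (raise g x p))
  linarith

omit hc in
theorem diss_sub (ε : ℝ) (p : Cov) (M : Bil) :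
    diss ε g h x p M - dis0 ε g h x p M =
      2 * (bnn g x p (h x) + btan g x p (h x) / 2) * len g x p / (2 - ε) := by
  unfold diss dis0
  ring

theorem b_mat {ε : ℝ} (hε : 0 < ε) (hε1 : ε < 1) (p : Cov) (M : Bil) :
    |len g x p * (matter g h x p + diss ε g h x p M - dis0 ε g h x p M)|
      ≤ 262 * C ^ 7 * zz p M := by
  have hC := hc.one
  have hC0 := zero_le_one.trans hC
  obtain ⟨z1, z2, z3, z4⟩ := pow_le_zz p M
  have h0 := vn_nonneg p
  have hl := b_len hc p
  have hl0 : 0 ≤ len g x p := Real.sqrt_nonneg _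
  have hz : 0 ≤ zz p M := h0.trans z1
  have a1 : |matter g h x p| ≤ 10 * C ^ 3 := by
    unfold matter
    have b1 : |∑ j, momentumDensity g h j x * nrm g x p j| ≤ 3 * (C * (3 * C ^ 2)) := by
      refine abs_sum_le_card _ _ fun j => ?_
      rw [abs_mul]
      exact mul_le_mul (hc.mom j) (b_nrm hc p j) (abs_nonneg _) hC0
    have b2 : C ≤ C ^ 3 := by
      have := pow_mono hc (show 1 ≤ 3 by norm_num)
      rwa [pow_one] at this
    refine (abs_sub _ _).trans ?_
    have := hc.en
    have b3 : 3 * (C * (3 * C ^ 2)) = 9 * C ^ 3 := by ring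
    linarith
  have a2 : |diss ε g h x p M - dis0 ε g h x p M| ≤ 252 * C ^ 6 * vn p := by
    rw [diss_sub]
    have b1 : |bnn g x p (h x)| ≤ 81 * C ^ 5 := by
      refine (b_bnn hc p (h x)).trans ?_
      calc 9 * C ^ 4 * ss (h x) ≤ 9 * C ^ 4 * (9 * C) :=
            mul_le_mul_of_nonneg_left (ss_ten hc) (by positivity)
        _ = 81 * C ^ 5 := by ring
    have b2 : |btan g x p (h x)| ≤ 90 * C ^ 5 := by
      refine (b_btan hc p (h x)).trans ?_
      calc 10 * C ^ 4 * ss (h x) ≤ 10 * C ^ 4 * (9 * C) :=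
            mul_le_mul_of_nonneg_left (ss_ten hc) (by positivity)
        _ = 90 * C ^ 5 := by ring
    have b3 : |bnn g x p (h x) + btan g x p (h x) / 2| ≤ 126 * C ^ 5 := by
      refine (abs_add_le _ _).trans ?_
      rw [abs_div, abs_two]
      linarith
    rw [abs_div, abs_mul, abs_mul, abs_two, abs_of_nonneg hl0,
      abs_of_pos (by linarith : (0 : ℝ) < 2 - ε)]
    refine (div_le_self (by positivity) (by linarith)).trans ?_
    calc 2 * |bnn g x p (h x) + btan g x p (h x) / 2| * len g x p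
        ≤ 2 * (126 * C ^ 5) * (C * vn p) :=
          mul_le_mul (mul_le_mul_of_nonneg_left b3 (by norm_num)) hl hl0 (by positivity)
      _ = 252 * C ^ 6 * vn p := by ring
  rw [abs_mul, abs_of_nonneg hl0, add_sub_assoc]
  calc len g x p * |matter g h x p + (diss ε g h x p M - dis0 ε g h x p M)|
      ≤ (C * vn p) * (10 * C ^ 3 + 252 * C ^ 6 * vn p) :=
        mul_le_mul hl ((abs_add_le _ _).trans (add_le_add a1 a2)) (abs_nonneg _) (by positivity)
    _ = 10 * C ^ 4 * vn p + 252 * C ^ 7 * vn p ^ 2 := by ring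
    _ ≤ 10 * C ^ 7 * zz p M + 252 * C ^ 7 * zz p M := by
        have e1 : 10 * C ^ 4 * vn p ≤ 10 * C ^ 7 * zz p M := by
          refine mul_le_mul ?_ z1 h0 (by positivity)
          exact mul_le_mul_of_nonneg_left (pow_mono hc (by norm_num)) (by norm_num)
        have e2 : 252 * C ^ 7 * vn p ^ 2 ≤ 252 * C ^ 7 * zz p M :=
          mul_le_mul_of_nonneg_left z2 (by positivity)
        linarith
    _ = 262 * C ^ 7 * zz p M := by ring

end Bounds

theorem b_vol (p : Cov) (M : Bil) : |(1 + vsq p) * vn p| ≤ 2 * zz p M := by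
  obtain ⟨z1, z2, z3, z4⟩ := pow_le_zz p M
  have h0 := vn_nonneg p
  have h1 := vsq_nonneg p
  rw [abs_of_nonneg (by positivity)]
  calc (1 + vsq p) * vn p = vn p + vn p ^ 3 := by rw [← vn_sq]; ring
    _ ≤ 2 * zz p M := by linarith

/-! ### Integrability -/

section Integ

variable {μ : Measure E3} {g h : TensorField} {C ε : ℝ} {p : E3 → Cov} {M : E3 → Bil}

theorem int_flux (hcf : MCF.Coef μ g h) (hcs : ∀ᵐ x ∂μ, Cs C g h x) (hε : 0 < ε) (hε1 : ε < 1)
    (hp : ∀ i, AEMeasurable (fun x => p x i) μ) (hM : ∀ i j, AEMeasurable (fun x => M x i j) μ)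
    (hz : Integrable (fun x => zz (p x) (M x)) μ) :
    Integrable (fun x => flux ε g h x (p x) (M x)) μ := by
  refine (hz.const_mul (451 * C ^ 6)).mono' (MCF.m_flux hcf ε hp hM).aestronglyMeasurable ?_
  filter_upwards [hcs] with x hx
  exact b_flux hx hε hε1 _ _

theorem int_mat (hcf : MCF.Coef μ g h) (hcs : ∀ᵐ x ∂μ, Cs C g h x) (hε : 0 < ε) (hε1 : ε < 1)
    (hp : ∀ i, AEMeasurable (fun x => p x i) μ) (hM : ∀ i j, AEMeasurable (fun x => M x i j) μ)
    (hz : Integrable (fun x => zz (p x) (M x)) μ) :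
    Integrable (fun x => len g x (p x) * (matter g h x (p x) + diss ε g h x (p x) (M x)
      - dis0 ε g h x (p x) (M x))) μ := by
  refine (hz.const_mul (262 * C ^ 7)).mono' ((MCF.m_len hcf hp).mul
    (((MCF.m_matter hcf hp).add (MCF.m_diss hcf ε hp hM)).sub
      (MCF.m_dis0 hcf ε hp hM))).aestronglyMeasurable ?_
  filter_upwards [hcs] with x hx
  exact b_mat hx hε hε1 _ _

theorem int_vol (hp : ∀ i, AEMeasurable (fun x => p x i) μ)
    (hz : Integrable (fun x => zz (p x) (M x)) μ) :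
    Integrable (fun x => (1 + vsq (p x)) * vn (p x)) μ := by
  have h1 : AEMeasurable (fun x => vsq (p x)) μ :=
    MCF.m_sum _ fun i => (hp i).pow_const 2
  refine (hz.const_mul 2).mono'
    (((aemeasurable_const.add h1).mul (MCF.m_sqrt h1)).aestronglyMeasurable) ?_
  filter_upwards with x
  exact b_vol _ _

theorem int_zz [IsFiniteMeasure μ] (hG : ∀ i, MemLp (fun x => p x i) 4 μ)
    (hM : ∀ i j, MemLp (fun x => M x i j) 2 μ) :
    Integrable (fun x => zz (p x) (M x)) μ := by
  have h1 : ∀ i, Integrable (fun x => p x i ^ 4) μ := by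
    intro i
    have h2 := (hG i).integrable_norm_rpow (by norm_num) (by norm_num)
    refine h2.congr ?_
    filter_upwards with x
    rw [Real.norm_eq_abs]
    have h3 : ((4 : ENNReal).toReal) = ((4 : ℕ) : ℝ) := by norm_num
    rw [h3, Real.rpow_natCast]
    exact Even.pow_abs (by decide) _
  have h2 : ∀ i j, Integrable (fun x => M x i j ^ 2) μ := fun i j => (hM i j).integrable_sq
  have h3 : Integrable (fun x => msq (M x)) μ :=
    integrable_finsetSum _ fun i _ => integrable_finsetSum _ fun j _ => h2 i j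
  have hm : AEMeasurable (fun x => vsq (p x)) μ :=
    MCF.m_sum _ fun i => (hG i).aestronglyMeasurable.aemeasurable.pow_const 2
  have h4 : Integrable (fun x => vsq (p x) ^ 2) μ := by
    refine ((integrable_finsetSum Finset.univ fun i _ => h1 i).const_mul 3).mono'
      (hm.pow_const 2).aestronglyMeasurable ?_
    filter_upwards with x
    rw [Real.norm_eq_abs, abs_of_nonneg (sq_nonneg _)]
    unfold vsq
    rw [Fin.sum_univ_three, Fin.sum_univ_three]
    nlinarith [sq_nonneg (p x 0 ^ 2 - p x 1 ^ 2), sq_nonneg (p x 0 ^ 2 - p x 2 ^ 2),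
      sq_nonneg (p x 1 ^ 2 - p x 2 ^ 2)]
  exact ((integrable_const 1).add h4).add h3

end Integ

/-! ### Convergence of the terms -/

theorem lim_term {K : Set E3} (hK : IsCompact K) {B C : ℝ} {φ : ℝ → ℝ} (hφ : Continuous φ)
    (hB : ∀ s, |φ s| ≤ B) {v : ℕ → E3 → ℝ} {w : E3 → ℝ} (hv : ∀ n, Continuous (v n))
    (hvw : ∀ x ∈ K, Tendsto (fun n => v n x) atTop (𝓝 (w x))) {A : ℕ → E3 → ℝ}
    {A₀ om : E3 → ℝ} (hA : ∀ n, IntegrableOn (A n) K) (hA₀ : IntegrableOn A₀ K)
    (hAA : Tendsto (fun n => ∫ x in K, |A n x - A₀ x|) atTop (𝓝 0))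
    (hom : AEMeasurable om (volume.restrict K)) (hC : ∀ x ∈ K, |om x| ≤ C) (hC0 : 0 ≤ C)
    {Gd : ℕ → Set E3} (hG : ∀ n, MeasurableSet (Gd n))
    (hev : ∀ᵐ x ∂(volume.restrict K), A₀ x = 0 ∨ φ (w x) = 0 ∨ ∀ᶠ n in atTop, x ∈ Gd n) :
    Tendsto (fun n => ∫ x in K ∩ Gd n, φ (v n x) * A n x * om x) atTop
      (𝓝 (∫ x in K, φ (w x) * A₀ x * om x)) := by
  have hB0 : 0 ≤ B := (abs_nonneg _).trans (hB 0)
  have hmem : ∀ᵐ x ∂(volume.restrict K), x ∈ K := ae_restrict_mem hK.measurableSet
  have hbd : ∀ {F : E3 → ℝ} (n : ℕ) {x : E3}, x ∈ K →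
      |φ (v n x) * F x * om x| ≤ B * C * |F x| := by
    intro F n x hx
    rw [abs_mul, abs_mul]
    calc |φ (v n x)| * |F x| * |om x| ≤ B * |F x| * C :=
          mul_le_mul (mul_le_mul_of_nonneg_right (hB _) (abs_nonneg _)) (hC x hx) (abs_nonneg _)
            (by positivity)
      _ = B * C * |F x| := by ring
  have hφm : ∀ n, AEMeasurable (fun x => φ (v n x)) (volume.restrict K) := fun n =>
    (hφ.comp (hv n)).measurable.aemeasurable
  have h1 : Tendsto (fun n => ∫ x in K, (Gd n).indicator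
      (fun x => φ (v n x) * A₀ x * om x) x) atTop (𝓝 (∫ x in K, φ (w x) * A₀ x * om x)) := by
    refine tendsto_integral_of_dominated_convergence (fun x => B * C * |A₀ x|) ?_ ?_ ?_ ?_
    · intro n
      exact ((((hφm n).mul hA₀.aestronglyMeasurable.aemeasurable).mul hom).indicator
        (hG n)).aestronglyMeasurable
    · exact hA₀.abs.const_mul _
    · intro n
      filter_upwards [hmem] with x hx
      refine (norm_indicator_le_norm_self _ _).trans ?_
      exact hbd n hx
    · filter_upwards [hmem, hev] with x hx hx'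
      have h2 : Tendsto (fun n => φ (v n x)) atTop (𝓝 (φ (w x))) :=
        (hφ.tendsto _).comp (hvw x hx)
      have h3 : Tendsto (fun n => φ (v n x) * A₀ x * om x) atTop
          (𝓝 (φ (w x) * A₀ x * om x)) := (h2.mul_const _).mul_const _
      rcases hx' with h4 | h4 | h4
      · have h5 : ∀ n, (Gd n).indicator (fun x => φ (v n x) * A₀ x * om x) x = 0 := by
          intro n
          by_cases hxn : x ∈ Gd n
          · rw [Set.indicator_of_mem hxn, h4]
            ring
          · rw [Set.indicator_of_notMem hxn]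
        simp only [h5, h4, mul_zero, zero_mul]
        exact tendsto_const_nhds
      · rw [h4, zero_mul, zero_mul] at h3 ⊢
        refine squeeze_zero_norm (fun n => ?_) (tendsto_norm_zero.comp h3)
        exact norm_indicator_le_norm_self _ _
      · refine h3.congr' ?_
        filter_upwards [h4] with n hn
        rw [Set.indicator_of_mem hn]
  have h2 : ∀ n, |(∫ x in K ∩ Gd n, φ (v n x) * A n x * om x)
      - ∫ x in K, (Gd n).indicator (fun x => φ (v n x) * A₀ x * om x) x| ≤
      B * C * ∫ x in K, |A n x - A₀ x| := by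
    intro n
    have hi : ∀ {F : E3 → ℝ}, IntegrableOn F K →
        IntegrableOn (fun x => φ (v n x) * F x * om x) K := by
      intro F hF
      refine (hF.abs.const_mul (B * C)).mono'
        (((hφm n).mul hF.aestronglyMeasurable.aemeasurable).mul hom).aestronglyMeasurable ?_
      filter_upwards [hmem] with x hx
      exact hbd n hx
    rw [setIntegral_indicator (hG n), ← integral_sub ((hi (hA n)).mono_set Set.inter_subset_left)
      ((hi hA₀).mono_set Set.inter_subset_left)]
    have h3 : ∀ x, φ (v n x) * A n x * om x - φ (v n x) * A₀ x * om x =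
        φ (v n x) * (A n x - A₀ x) * om x := fun x => by ring
    simp only [h3]
    have h5 := norm_integral_le_integral_norm (μ := volume.restrict (K ∩ Gd n))
      (fun x => φ (v n x) * (A n x - A₀ x) * om x)
    rw [Real.norm_eq_abs] at h5
    refine h5.trans ?_
    have h4 : IntegrableOn (fun x => A n x - A₀ x) K := (hA n).sub hA₀
    calc ∫ x in K ∩ Gd n, ‖φ (v n x) * (A n x - A₀ x) * om x‖
        ≤ ∫ x in K, ‖φ (v n x) * (A n x - A₀ x) * om x‖ :=
          setIntegral_mono_set (hi h4).norm (Eventually.of_forall fun x => norm_nonneg _)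
            (Set.inter_subset_left.eventuallyLE)
      _ ≤ ∫ x in K, B * C * |A n x - A₀ x| := by
          refine integral_mono_ae (hi h4).norm (h4.abs.const_mul _) ?_
          filter_upwards [hmem] with x hx
          exact hbd (F := fun x => A n x - A₀ x) n hx
      _ = B * C * ∫ x in K, |A n x - A₀ x| := integral_const_mul _ _
  have h3 : Tendsto (fun n => (∫ x in K ∩ Gd n, φ (v n x) * A n x * om x)
      - ∫ x in K, (Gd n).indicator (fun x => φ (v n x) * A₀ x * om x) x) atTop (𝓝 0) := by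
    refine squeeze_zero_norm h2 ?_
    have h4 := hAA.const_mul (B * C)
    rwa [mul_zero] at h4
  have h4 := h3.add h1
  simp only [sub_add_cancel, zero_add] at h4
  exact h4

theorem fatou {K : Set E3} {Gd : ℕ → Set E3} (hG : ∀ n, MeasurableSet (Gd n))
    (hK : MeasurableSet K) {Q : ℕ → E3 → ℝ} {Q₀ : E3 → ℝ} {Z : ℕ → ℝ} {Z₀ : ℝ}
    (hQm : ∀ n, AEMeasurable (Q n) (volume.restrict K))
    (hQ₀m : AEMeasurable Q₀ (volume.restrict K)) (hQi : ∀ n, IntegrableOn (Q n) (K ∩ Gd n))
    (hQn : ∀ n, ∀ x ∈ K, 0 ≤ Q n x) (hQ₀ : ∀ᵐ x ∂(volume.restrict K), 0 ≤ Q₀ x)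
    (hlim : ∀ᵐ x ∂(volume.restrict K), Q₀ x = 0 ∨
      (Tendsto (fun n => Q n x) atTop (𝓝 (Q₀ x)) ∧ ∀ᶠ n in atTop, x ∈ Gd n))
    (hZ : ∀ n, ∫ x in K ∩ Gd n, Q n x ≤ Z n) (hZ₀ : Tendsto Z atTop (𝓝 Z₀)) :
    ∫ x in K, Q₀ x ≤ Z₀ := by
  have hmem : ∀ᵐ x ∂(volume.restrict K), x ∈ K := ae_restrict_mem hK
  have hind0 : ∀ n, 0 ≤ᵐ[volume.restrict K] (Gd n).indicator (Q n) := by
    intro n
    filter_upwards [hmem] with x hx
    by_cases hxn : x ∈ Gd n
    · rw [Set.indicator_of_mem hxn]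
      exact hQn n x hx
    · rw [Set.indicator_of_notMem hxn]
      exact le_rfl
  have hindi : ∀ n, Integrable ((Gd n).indicator (Q n)) (volume.restrict K) := by
    intro n
    rw [integrable_indicator_iff (hG n), IntegrableOn, Measure.restrict_restrict (hG n),
      Set.inter_comm]
    exact hQi n
  have h1 : ∫⁻ x in K, ENNReal.ofReal (Q₀ x) ≤ ENNReal.ofReal Z₀ := by
    calc ∫⁻ x in K, ENNReal.ofReal (Q₀ x)
        ≤ ∫⁻ x in K, liminf (fun n => ENNReal.ofReal ((Gd n).indicator (Q n) x)) atTop := by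
          refine lintegral_mono_ae ?_
          filter_upwards [hlim] with x hx
          rcases hx with h2 | ⟨h2, h3⟩
          · rw [h2, ENNReal.ofReal_zero]
            exact zero_le
          · have h4 : Tendsto (fun n => ENNReal.ofReal ((Gd n).indicator (Q n) x)) atTop
                (𝓝 (ENNReal.ofReal (Q₀ x))) := by
              refine ENNReal.tendsto_ofReal (h2.congr' ?_)
              filter_upwards [h3] with n hn
              rw [Set.indicator_of_mem hn]
            rw [h4.liminf_eq]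
      _ ≤ liminf (fun n => ∫⁻ x in K, ENNReal.ofReal ((Gd n).indicator (Q n) x)) atTop :=
          lintegral_liminf_le' fun n => ((hQm n).indicator (hG n)).ennreal_ofReal
      _ ≤ liminf (fun n => ENNReal.ofReal (Z n)) atTop := by
          refine liminf_le_liminf (Eventually.of_forall fun n => ?_)
          rw [← ofReal_integral_eq_lintegral_ofReal (hindi n) (hind0 n),
            setIntegral_indicator (hG n)]
          exact ENNReal.ofReal_le_ofReal (hZ n)
      _ = ENNReal.ofReal Z₀ := (ENNReal.tendsto_ofReal hZ₀).liminf_eq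
  have h2 : 0 ≤ Z₀ := by
    refine ge_of_tendsto' hZ₀ fun n => le_trans ?_ (hZ n)
    rw [← setIntegral_indicator (hG n)]
    exact integral_nonneg_of_ae (hind0 n)
  rw [integral_eq_lintegral_of_nonneg_ae hQ₀ hQ₀m.aestronglyMeasurable]
  calc (∫⁻ x in K, ENNReal.ofReal (Q₀ x)).toReal ≤ (ENNReal.ofReal Z₀).toReal :=
        ENNReal.toReal_mono ENNReal.ofReal_ne_top h1
    _ = Z₀ := ENNReal.toReal_ofReal h2

theorem exists_seq {κ : Type} [DecidableEq κ] {μ : Measure E3} {f : κ → ℕ → E3 → ℝ}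
    {g : κ → E3 → ℝ} (h : ∀ k, TendstoInMeasure μ (f k) atTop (g k)) (s : Finset κ) :
    ∃ ns : ℕ → ℕ, StrictMono ns ∧
      ∀ k ∈ s, ∀ᵐ x ∂μ, Tendsto (fun n => f k (ns n) x) atTop (𝓝 (g k x)) := by
  induction s using Finset.induction_on with
  | empty => exact ⟨id, strictMono_id, fun k hk => absurd hk (Finset.notMem_empty k)⟩
  | insert k s _ ih =>
    obtain ⟨ns, h1, h2⟩ := ih
    obtain ⟨ms, h3, h4⟩ := ((h k).comp h1.tendsto_atTop).exists_seq_tendsto_ae
    refine ⟨ns ∘ ms, h1.comp h3, ?_⟩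
    intro j hj
    rcases Finset.mem_insert.mp hj with rfl | hj
    · exact h4
    · filter_upwards [h2 j hj] with x hx
      exact hx.comp h3.tendsto_atTop

/-! ### Auxiliary facts -/

theorem len_zero (g : TensorField) (x : E3) : len g x 0 = 0 := by
  unfold len ev
  simp

theorem flux_zero (ε : ℝ) (g h : TensorField) (x : E3) (M : Bil) : flux ε g h x 0 M = 0 := by
  unfold flux
  rw [len_zero]
  have h1 : raise g x 0 = 0 := by
    funext i
    simp [raise]
  rw [h1]
  simp [ev]

theorem vn_zero : vn (0 : Cov) = 0 := by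
  unfold vn vsq
  simp

theorem vsq_pos {p : Cov} (hp : p ≠ 0) : 0 < vsq p := by
  obtain ⟨i, hi⟩ := Function.ne_iff.mp hp
  have h1 : 0 < p i ^ 2 := by
    have : p i ≠ 0 := hi
    positivity
  exact h1.trans_le (Finset.single_le_sum (f := fun i => p i ^ 2) (fun _ _ => sq_nonneg _)
    (Finset.mem_univ i))

theorem pd_cont {f : E3 → ℝ} (hf : ContDiff ℝ ∞ f) (i : Fin 3) : ContDiff ℝ ∞ (pd i f) :=
  contDiff_iff_contDiffAt.mpr fun _ => MCF.pd_smooth hf.contDiffAt i

theorem hess_symm {f : E3 → ℝ} (hf : ContDiff ℝ ∞ f) (x : E3) : (hess2 f x).IsSymm := by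
  have hs : IsSymmSndFDerivAt ℝ f x := hf.contDiffAt.isSymmSndFDerivAt (by
    rw [minSmoothness_of_isRCLikeNormedField]
    exact WithTop.coe_le_coe.2 le_top)
  have hd : DifferentiableAt ℝ (fderiv ℝ f) x :=
    (hf.fderiv_right (m := ∞) (by simp)).contDiffAt.differentiableAt (by simp)
  have key : ∀ v w : E3, fderiv ℝ (fun y => fderiv ℝ f y v) x w =
      fderiv ℝ (fderiv ℝ f) x w v := by
    intro v w
    have h1 : HasFDerivAt (fun y => fderiv ℝ f y v)
        ((ContinuousLinearMap.apply ℝ ℝ v).comp (fderiv ℝ (fderiv ℝ f) x)) x :=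
      (ContinuousLinearMap.apply ℝ ℝ v).hasFDerivAt.comp x hd.hasFDerivAt
    rw [h1.fderiv]
    rfl
  ext i j
  change pd j (pd i f) x = pd i (pd j f) x
  unfold pd
  rw [key, key]
  exact hs _ _

theorem len_pos' {C : ℝ} {g h : TensorField} {x : E3} (hc : Cs C g h x) {p : Cov} (hp : p ≠ 0) :
    0 < len g x p := by
  have h0 := zero_lt_one.trans_le hc.one
  have h1 : 0 < vn p := Real.sqrt_pos.mpr (vsq_pos hp)
  exact (div_pos h1 h0).trans_le (b_len' hc p)

end MMIT

open MMIT in
theorem MIT (hLS : Stmt_LS) (hCV : Stmt_CV) (hCT : Stmt_CT) (hPOS : Stmt_POS)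
    (hFA : Stmt_FA) : Stmt_MIT := by
  intro ε θ a b g h w G M ψ a' b' s₀ s₁ t₀ t₁ z₁ K K' v W Cn hε hε1 hθ hθ1 _ _ hg hh hH hEq _ hS
  have hU : IsOpen (Ann a b) := (hS.ls 0).openU
  have hK : IsCompact K := (hS.ls 0).compact
  have hKU : K ⊆ Ann a b := (hS.ls 0).sub
  have hK' : IsCompact K' := hS.compact'
  obtain ⟨C₀, hC₀, hls⟩ := hLS ε θ (Ann a b) g h K hε hε1 hθ hθ1 hU hg hh hK hKU
  obtain ⟨c, hc1, hcx⟩ := hCT (Ann a b) g h hU hg hh K hK hKU
  have hcs : ∀ x ∈ K, Cs c g h x := by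
    intro x hx
    obtain ⟨e1, _, _, e4, e5, e6, e7, _, e9, _, _⟩ := hcx x hx
    exact ⟨hc1, fun p => (e1 p).1, fun p => (e1 p).2, e4, e5, e6, e7, e9⟩
  have hvol : ∀ x ∈ K, |volDen g x| ≤ c := by
    intro x hx
    obtain ⟨_, _, _, _, _, _, _, _, _, e10, e11⟩ := hcx x hx
    rw [abs_of_nonneg ((by positivity : (0 : ℝ) ≤ 1 / c).trans e10)]
    exact e11
  have hvolpos : ∀ x ∈ K, 0 < volDen g x := fun x hx => MCF.volDen_pos hg (hKU hx)
  have hc0 : 0 ≤ c := zero_le_one.trans hc1
  obtain ⟨cv1, cv2, cv3⟩ := hCV ε (Ann a b) g h w G M K v hε hε1 hU hg hh hH hEq hK hKU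
    (fun n => (hS.ls n).smooth) hS.conv1 hS.conv2
  -- the test function
  have hψ1 : ContDiff ℝ 1 ψ := (hS.ls 0).diff
  have hψc : Continuous ψ := hψ1.continuous
  have hψd : Continuous (deriv ψ) := hψ1.continuous_deriv (le_refl _)
  have hψs : HasCompactSupport ψ := by
    refine IsCompact.of_isClosed_subset (isCompact_Icc (a := t₀) (b := t₁))
      (isClosed_tsupport ψ) ?_
    exact (hS.ls 0).supp.trans Set.Ioo_subset_Icc_self
  have hψn : ∀ s, 0 ≤ ψ s := (hS.ls 0).nonneg
  obtain ⟨B, hB⟩ := hψc.bounded_above_of_compact_support hψs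
  obtain ⟨B', hB'⟩ := hψd.bounded_above_of_compact_support hψs.deriv
  have hB0 : 0 ≤ B := (norm_nonneg _).trans (hB 0)
  have hψle : ∀ s, ψ s ≤ B := fun s => (le_abs_self _).trans (hB s)
  -- the good sets
  have hGc : ∀ n, IsClosed (good (W n) s₀ s₁ 0 z₁) := by
    intro n
    obtain ⟨h1, h2, _⟩ := hFA a' b' s₀ s₁ (W n) (Cn n) z₁ (hS.ls n).trunc (hS.ls n).lip
      (hS.ls n).far
    exact (isClosed_eq h1.continuous (hS.ls n).lip.continuous).inter
      (isClosed_eq h2.continuous h1.continuous)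
  have hGm : ∀ n, MeasurableSet (good (W n) s₀ s₁ 0 z₁) := fun n => (hGc n).measurableSet
  -- measurability and integrability
  have hfin : IsFiniteMeasure (volume.restrict K) :=
    ⟨by rw [Measure.restrict_apply_univ]; exact hK.measure_lt_top⟩
  have hcf : MCF.Coef (volume.restrict K) g h := MCF.coef hU hg hh hK hKU
  have hmem : ∀ᵐ x ∂(volume.restrict K), x ∈ K := ae_restrict_mem hK.measurableSet
  have hcae : ∀ᵐ x ∂(volume.restrict K), Cs c g h x := hmem.mono hcs
  have hGme : ∀ i, AEMeasurable (fun x => G x i) (volume.restrict K) := fun i =>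
    (hH.memG K hK hKU i).aestronglyMeasurable.aemeasurable
  have hMme : ∀ i j, AEMeasurable (fun x => M x i j) (volume.restrict K) := fun i j =>
    (hH.memM K hK hKU i j).aestronglyMeasurable.aemeasurable
  have hzz : Integrable (fun x => zz (G x) (M x)) (volume.restrict K) :=
    int_zz (hH.memG K hK hKU) (hH.memM K hK hKU)
  have hpc : ∀ n i, Continuous (fun x => grad (v n) x i) := fun n i =>
    (pd_cont (hS.ls n).smooth i).continuous
  have hhc : ∀ n i j, Continuous (fun x => hess2 (v n) x i j) := fun n i j =>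
    (pd_cont (pd_cont (hS.ls n).smooth j) i).continuous
  have hpm : ∀ n i, AEMeasurable (fun x => grad (v n) x i) (volume.restrict K) := fun n i =>
    (hpc n i).measurable.aemeasurable
  have hhm : ∀ n i j, AEMeasurable (fun x => hess2 (v n) x i j) (volume.restrict K) :=
    fun n i j => (hhc n i j).measurable.aemeasurable
  have hznn : ∀ n, Integrable (fun x => zz (grad (v n) x) (hess2 (v n) x))
      (volume.restrict K) := by
    intro n
    have h1 : Continuous (fun x => zz (grad (v n) x) (hess2 (v n) x)) := by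
      unfold zz vsq msq
      refine (continuous_const.add ((continuous_finsetSum _ fun i _ => (hpc n i).pow 2).pow
        2)).add (continuous_finsetSum _ fun i _ => continuous_finsetSum _ fun j _ =>
          (hhc n i j).pow 2)
    exact h1.continuousOn.integrableOn_compact hK
  -- the subsequence
  have hvsqi : IntegrableOn (fun x => vsq (G x)) K := by
    refine hzz.mono' (MCF.m_sum _ fun i => (hGme i).pow_const 2).aestronglyMeasurable ?_
    filter_upwards with x
    rw [Real.norm_eq_abs, abs_of_nonneg (vsq_nonneg _), ← vn_sq]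
    exact (pow_le_zz (G x) (M x)).2.1
  obtain ⟨ns, hns, hae⟩ := exists_seq (κ := Fin 3 ⊕ (Fin 3 × Fin 3) ⊕ Unit)
    (μ := volume.restrict K)
    (f := fun k n x => match k with
      | Sum.inl i => pd i (v n) x
      | Sum.inr (Sum.inl ij) => pd ij.1 (pd ij.2 (v n)) x
      | Sum.inr (Sum.inr _) =>
        (K' \ good (W n) s₀ s₁ 0 z₁).indicator (fun x => vsq (G x)) x)
    (g := fun k x => match k with
      | Sum.inl i => G x i
      | Sum.inr (Sum.inl ij) => M x ij.1 ij.2
      | Sum.inr (Sum.inr _) => 0) (by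
      rintro (i | ij | u)
      · refine tendstoInMeasure_of_tendsto_eLpNorm (p := 4) (by norm_num)
          (fun n => (hpm n i).aestronglyMeasurable) (hGme i).aestronglyMeasurable ?_
        exact hS.conv1 i
      · refine tendstoInMeasure_of_tendsto_eLpNorm (p := 2) (by norm_num)
          (fun n => (hhm n ij.1 ij.2).aestronglyMeasurable)
          (hMme ij.1 ij.2).aestronglyMeasurable ?_
        exact hS.conv2 ij.1 ij.2
      · have hm : ∀ n, MeasurableSet (K' \ good (W n) s₀ s₁ 0 z₁) := fun n =>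
          hK'.measurableSet.diff (hGm n)
        have hi : ∀ n, Integrable
            ((K' \ good (W n) s₀ s₁ 0 z₁).indicator (fun x => vsq (G x)))
            (volume.restrict K) := fun n => hvsqi.indicator (hm n)
        refine tendstoInMeasure_of_tendsto_eLpNorm (p := 1) (by norm_num)
          (fun n => (hi n).aestronglyMeasurable) aestronglyMeasurable_const ?_
        have h1 : ∀ n, eLpNorm ((fun x => (K' \ good (W n) s₀ s₁ 0 z₁).indicator
            (fun x => vsq (G x)) x) - fun _ => (0 : ℝ)) 1 (volume.restrict K) =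
            ENNReal.ofReal (∫ x in K' \ good (W n) s₀ s₁ 0 z₁, vsq (G x)) := by
          intro n
          have h2 : ((fun x => (K' \ good (W n) s₀ s₁ 0 z₁).indicator
              (fun x => vsq (G x)) x) - fun _ => (0 : ℝ)) =
              (K' \ good (W n) s₀ s₁ 0 z₁).indicator (fun x => vsq (G x)) := by
            funext x
            simp
          rw [h2, eLpNorm_one_eq_lintegral_enorm,
            ← ofReal_integral_norm_eq_lintegral_enorm (hi n)]
          congr 1
          have h3 : ∀ x, ‖(K' \ good (W n) s₀ s₁ 0 z₁).indicator (fun x => vsq (G x)) x‖ =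
              (K' \ good (W n) s₀ s₁ 0 z₁).indicator (fun x => vsq (G x)) x := by
            intro x
            rw [Real.norm_eq_abs, abs_of_nonneg]
            exact Set.indicator_nonneg (fun _ _ => vsq_nonneg _) x
          simp only [h3]
          rw [setIntegral_indicator (hm n)]
          congr 2
          exact Set.inter_eq_right.mpr (Set.sdiff_subset.trans hS.sub)
        have h4 := (ENNReal.tendsto_ofReal hS.bad)
        rw [ENNReal.ofReal_zero] at h4
        exact h4.congr fun n => (h1 n).symm) Finset.univ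
  have hnst : Tendsto ns atTop atTop := hns.tendsto_atTop
  have hpt : ∀ᵐ x ∂(volume.restrict K),
      (∀ i, Tendsto (fun n => grad (v (ns n)) x i) atTop (𝓝 (G x i))) ∧
      (∀ i j, Tendsto (fun n => hess2 (v (ns n)) x i j) atTop (𝓝 (M x i j))) ∧
      (G x = 0 ∨ (x ∈ K' → ∀ᶠ n in atTop, x ∈ good (W (ns n)) s₀ s₁ 0 z₁)) := by
    have h1 : ∀ i, ∀ᵐ x ∂(volume.restrict K), Tendsto (fun n => grad (v (ns n)) x i) atTop
        (𝓝 (G x i)) := fun i => hae (Sum.inl i) (Finset.mem_univ _)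
    have h2 : ∀ i j, ∀ᵐ x ∂(volume.restrict K), Tendsto (fun n => hess2 (v (ns n)) x i j) atTop
        (𝓝 (M x i j)) := fun i j => hae (Sum.inr (Sum.inl (i, j))) (Finset.mem_univ _)
    have h3 := hae (Sum.inr (Sum.inr ())) (Finset.mem_univ _)
    have h1' := ae_all_iff.mpr h1
    have h2' := ae_all_iff.mpr fun i => ae_all_iff.mpr (h2 i)
    filter_upwards [h1', h2', h3] with x e1 e2 e3
    refine ⟨e1, e2, ?_⟩
    by_cases hG0 : G x = 0
    · exact Or.inl hG0
    · refine Or.inr fun hxK' => ?_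
      have h4 := (tendsto_order.mp e3).2 (vsq (G x)) (vsq_pos hG0)
      filter_upwards [h4] with n hn
      by_contra hx
      have h5 : x ∈ K' \ good (W (ns n)) s₀ s₁ 0 z₁ := ⟨hxK', hx⟩
      change (K' \ good (W (ns n)) s₀ s₁ 0 z₁).indicator (fun x => vsq (G x)) x < _ at hn
      rw [Set.indicator_of_mem h5] at hn
      exact lt_irrefl _ hn
  have hvw : ∀ x ∈ K, Tendsto (fun n => v (ns n) x) atTop (𝓝 (w x)) := fun x hx =>
    (hS.unif.tendsto_at hx).comp hnst
  have hvc : ∀ n, Continuous (v (ns n)) := fun n => (hS.ls (ns n)).smooth.continuous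
  have hlevel : ∀ x ∈ K, ψ (w x) = 0 ∨ x ∈ K' := by
    intro x hx
    by_cases h1 : ψ (w x) = 0
    · exact Or.inl h1
    · exact Or.inr (hS.levels x (hKU hx) (subset_tsupport ψ h1))
  have hleveld : ∀ x ∈ K, deriv ψ (w x) = 0 ∨ x ∈ K' := by
    intro x hx
    by_cases h1 : deriv ψ (w x) = 0
    · exact Or.inl h1
    · exact Or.inr (hS.levels x (hKU hx) (support_deriv_subset h1))
  have hev : ∀ {A₀ : E3 → ℝ} {φ : ℝ → ℝ}, (∀ x, G x = 0 → A₀ x = 0) →
      (∀ x ∈ K, φ (w x) = 0 ∨ x ∈ K') → ∀ᵐ x ∂(volume.restrict K),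
      A₀ x = 0 ∨ φ (w x) = 0 ∨ ∀ᶠ n in atTop, x ∈ good (W (ns n)) s₀ s₁ 0 z₁ := by
    intro A₀ φ hA hφ
    filter_upwards [hpt, hmem] with x hx hxK
    rcases hx.2.2 with h1 | h1
    · exact Or.inl (hA x h1)
    · rcases hφ x hxK with h2 | h2
      · exact Or.inr (Or.inl h2)
      · exact Or.inr (Or.inr (h1 h2))
  have hF0 : ∀ x, G x = 0 → flux ε g h x (G x) (M x) = 0 := by
    intro x hx
    rw [hx, flux_zero]
  have hE0 : ∀ x, G x = 0 → len g x (G x) * (matter g h x (G x) + diss ε g h x (G x) (M x)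
      - dis0 ε g h x (G x) (M x)) = 0 := by
    intro x hx
    rw [hx, len_zero, zero_mul]
  have hD0 : ∀ x, G x = 0 → (1 + vsq (G x)) * vn (G x) = 0 := by
    intro x hx
    rw [hx, vn_zero, mul_zero]
  have hFi := int_flux hcf hcae hε hε1 hGme hMme hzz
  have hFni := fun n => int_flux hcf hcae hε hε1 (hpm n) (hhm n) (hznn n)
  have hEi := int_mat hcf hcae hε hε1 hGme hMme hzz
  have hEni := fun n => int_mat hcf hcae hε hε1 (hpm n) (hhm n) (hznn n)
  have hDi := int_vol (M := M) hGme hzz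
  have hDni := fun n => int_vol (M := fun x => hess2 (v n) x) (hpm n) (hznn n)
  -- the four continuous terms
  have T1 := lim_term hK hψd hB' hvc hvw (fun n => hFni (ns n)) hFi (cv1.comp hnst) hcf.vol
    hvol hc0 (fun n => hGm (ns n)) (hev hF0 hleveld)
  have T2 := lim_term hK hψc hB hvc hvw (fun n => hFni (ns n)) hFi (cv1.comp hnst) hcf.vol
    hvol hc0 (fun n => hGm (ns n)) (hev hF0 hlevel)
  have T3 := lim_term hK hψc hB hvc hvw (fun n => hEni (ns n)) hEi (cv2.comp hnst) hcf.vol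
    hvol hc0 (fun n => hGm (ns n)) (hev hE0 hlevel)
  -- the bad sets
  have hres : volume.restrict K' ≤ volume.restrict K := Measure.restrict_mono hS.sub le_rfl
  have hAA' : Tendsto (fun n => ∫ x in K', |(1 + vsq (grad (v (ns n)) x)) *
      vn (grad (v (ns n)) x) - (1 + vsq (G x)) * vn (G x)|) atTop (𝓝 0) := by
    refine squeeze_zero (fun n => integral_nonneg fun x => abs_nonneg _) (fun n => ?_)
      (cv3.comp hnst)
    exact setIntegral_mono_set ((hDni (ns n)).sub hDi).abs
      (Eventually.of_forall fun x => abs_nonneg _) (hS.sub.eventuallyLE)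
  have hvw' : ∀ x ∈ K', Tendsto (fun n => v (ns n) x) atTop (𝓝 (w x)) := fun x hx =>
    hvw x (hS.sub hx)
  have T4 := lim_term (φ := fun _ => 1) (B := 1) (om := fun _ => 1) (C := 1) hK'
    continuous_const (fun _ => by rw [abs_one]) hvc hvw'
    (fun n => IntegrableOn.mono_set (hDni (ns n)) hS.sub) (IntegrableOn.mono_set hDi hS.sub)
    hAA' aemeasurable_const (fun _ _ => by rw [abs_one]) zero_le_one (fun n => hGm (ns n)) (by
      have h1 : ∀ᵐ x ∂(volume.restrict K'), x ∈ K' := ae_restrict_mem hK'.measurableSet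
      filter_upwards [(Measure.absolutelyContinuous_of_le hres).ae_le hpt, h1] with x hx hxK
      rcases hx.2.2 with h2 | h2
      · exact Or.inl (hD0 x h2)
      · exact Or.inr (Or.inr (h2 hxK)))
  have T5 := lim_term (φ := fun _ => 1) (B := 1) (om := fun _ => 1) (C := 1)
    (Gd := fun _ => Set.univ) hK'
    continuous_const (fun _ => by rw [abs_one]) hvc hvw'
    (fun n => IntegrableOn.mono_set (hDni (ns n)) hS.sub) (IntegrableOn.mono_set hDi hS.sub)
    hAA' aemeasurable_const (fun _ _ => by rw [abs_one]) zero_le_one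
    (fun _ => MeasurableSet.univ) (Eventually.of_forall fun x =>
      Or.inr (Or.inr (Eventually.of_forall fun _ => Set.mem_univ _)))
  simp only [one_mul, mul_one, Set.inter_univ] at T4 T5
  have T6 : Tendsto (fun n => ∫ x in K' \ good (W (ns n)) s₀ s₁ 0 z₁,
      (1 + vsq (grad (v (ns n)) x)) * vn (grad (v (ns n)) x)) atTop (𝓝 0) := by
    have h1 := T5.sub T4
    rw [sub_self] at h1
    refine h1.congr fun n => ?_
    have h2 := integral_inter_add_sdiff (s := K') (hGm (ns n))
      (IntegrableOn.mono_set (hDni (ns n)) hS.sub)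
    linarith
  have hbad : ∀ n, ∫ x in badset (W (ns n)) s₀ s₁ z₁ ψ,
      (1 + vsq (grad (v (ns n)) x)) * vn (grad (v (ns n)) x) ≤
      ∫ x in K' \ good (W (ns n)) s₀ s₁ 0 z₁,
      (1 + vsq (grad (v (ns n)) x)) * vn (grad (v (ns n)) x) := by
    intro n
    refine setIntegral_mono_set ((IntegrableOn.mono_set (hDni (ns n))
      (Set.sdiff_subset.trans hS.sub))) (Eventually.of_forall fun x => ?_)
      (LE.le.eventuallyLE ?_)
    · exact mul_nonneg (by have := vsq_nonneg (grad (v (ns n)) x); linarith) (vn_nonneg _)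
    · rintro x ⟨hx1, hx2⟩
      have h3 := (hS.ls (ns n)).levels x
        (Set.Ioo_subset_Icc_self ((hS.ls (ns n)).supp hx1))
      exact ⟨hS.levelsn (ns n) x h3 hx1, hx2⟩
  -- the Fatou term
  have hθ' : 0 < 1 - θ := by linarith
  have hsymm : ∀ᵐ x ∂(volume.restrict K), (M x).IsSymm :=
    (Measure.absolutelyContinuous_of_le (Measure.restrict_mono hKU le_rfl)).ae_le hH.symm
  have hd0 : ∀ x ∈ K, ∀ (p : Cov) (N : Bil), N.IsSymm → 0 ≤ len g x p * dis0 ε g h x p N := by
    intro x hx p N hN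
    by_cases hp : p = 0
    · rw [hp, len_zero, zero_mul]
    · have h1 := hPOS (Ann a b) g h hU hg hh x (hKU hx) ε p N hε hε1 hp hN
      have h2 : 0 ≤ (1 / ε - 1 / 4) * zed ε g h x p N ^ 2 := by
        have h3 : (1 : ℝ) ≤ 1 / ε := by rw [le_div_iff₀ hε]; linarith
        exact mul_nonneg (by linarith) (sq_nonneg _)
      exact mul_nonneg (Real.sqrt_nonneg _) (h2.trans h1)
  have hY : Tendsto (fun n => (4 * Real.pi * (∫ s, ψ s)
      - 1 / (2 - ε) * (∫ x in K ∩ good (W (ns n)) s₀ s₁ 0 z₁,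
        ψ (v (ns n) x) * flux ε g h x (grad (v (ns n)) x) (hess2 (v (ns n)) x) * volDen g x)
      - (∫ x in K ∩ good (W (ns n)) s₀ s₁ 0 z₁, ψ (v (ns n) x) * (len g x (grad (v (ns n)) x)
          * (matter g h x (grad (v (ns n)) x)
            + diss ε g h x (grad (v (ns n)) x) (hess2 (v (ns n)) x)
            - dis0 ε g h x (grad (v (ns n)) x) (hess2 (v (ns n)) x))) * volDen g x)
      + C₀ * B * ((∫ x in K, resid ε g h x (grad (v (ns n)) x) (hess2 (v (ns n)) x) ^ 2
          / vn (grad (v (ns n)) x))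
        + ∫ x in K' \ good (W (ns n)) s₀ s₁ 0 z₁,
          (1 + vsq (grad (v (ns n)) x)) * vn (grad (v (ns n)) x))
      + ∫ x in K ∩ good (W (ns n)) s₀ s₁ 0 z₁, deriv ψ (v (ns n) x)
        * flux ε g h x (grad (v (ns n)) x) (hess2 (v (ns n)) x) * volDen g x) / (1 - θ)) atTop
      (𝓝 ((4 * Real.pi * (∫ s, ψ s)
      - 1 / (2 - ε) * (∫ x in K, ψ (w x) * flux ε g h x (G x) (M x) * volDen g x)
      - (∫ x in K, ψ (w x) * (len g x (G x) * (matter g h x (G x)
            + diss ε g h x (G x) (M x) - dis0 ε g h x (G x) (M x))) * volDen g x)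
      + C₀ * B * (0 + 0)
      + ∫ x in K, deriv ψ (w x) * flux ε g h x (G x) (M x) * volDen g x) / (1 - θ))) :=
    ((((tendsto_const_nhds.sub (T2.const_mul _)).sub T3).add
      (((hS.conv3.comp hnst).add T6).const_mul _)).add T1).div_const _
  have hQm : ∀ n, AEMeasurable (fun x => ψ (v (ns n) x) * (len g x (grad (v (ns n)) x)
      * dis0 ε g h x (grad (v (ns n)) x) (hess2 (v (ns n)) x)) * volDen g x)
      (volume.restrict K) := fun n =>
    (((hψc.comp (hvc n)).measurable.aemeasurable).mul ((MCF.m_len hcf (hpm (ns n))).mul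
      (MCF.m_dis0 hcf ε (hpm (ns n)) (hhm (ns n))))).mul hcf.vol
  have hwm : AEMeasurable w (volume.restrict K) :=
    ((hH.cont.mono hKU).aestronglyMeasurable hK.measurableSet).aemeasurable
  have hQ₀m : AEMeasurable (fun x => ψ (w x) * (len g x (G x) * dis0 ε g h x (G x) (M x))
      * volDen g x) (volume.restrict K) :=
    ((hψc.measurable.comp_aemeasurable hwm).mul ((MCF.m_len hcf hGme).mul
      (MCF.m_dis0 hcf ε hGme hMme))).mul hcf.vol
  have hfat := fatou (fun n => hGm (ns n)) hK.measurableSet hQm hQ₀m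
    (fun n => (hls a' b' s₀ s₁ t₀ t₁ (W (ns n)) (v (ns n)) (Cn (ns n)) z₁ ψ B (hS.ls (ns n))
      hψle (hS.crit (ns n)) (hS.int (ns n))).1)
    (fun n x hx => mul_nonneg (mul_nonneg (hψn _)
      (hd0 x hx _ _ (hess_symm (hS.ls (ns n)).smooth x))) (hvolpos x hx).le)
    (by
      filter_upwards [hmem, hsymm] with x hx hs
      exact mul_nonneg (mul_nonneg (hψn _) (hd0 x hx _ _ hs)) (hvolpos x hx).le)
    (by
      filter_upwards [hmem, hpt] with x hx hxp
      by_cases hG0 : G x = 0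
      · left
        rw [hG0, len_zero]
        ring
      · rcases hlevel x hx with h1 | h1
        · left
          rw [h1]
          ring
        · right
          have h2 : len g x (G x) ≠ 0 := (len_pos' (hcs x hx) hG0).ne'
          refine ⟨?_, (hxp.2.2.resolve_left hG0) h1⟩
          exact ((((hψc.tendsto _).comp (hvw x hx))).mul ((MCF.t_len hxp.1).mul
            (MCF.t_dis0 ε hxp.1 h2 hxp.2.1))).mul_const _)
    (by
      intro n
      have h1 := (hls a' b' s₀ s₁ t₀ t₁ (W (ns n)) (v (ns n)) (Cn (ns n)) z₁ ψ B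
        (hS.ls (ns n)) hψle (hS.crit (ns n)) (hS.int (ns n))).2
      have h2 := mul_le_mul_of_nonneg_left (hbad n) (mul_nonneg hC₀ hB0)
      rw [le_div_iff₀ hθ']
      linarith) hY
  rw [le_div_iff₀ hθ'] at hfat
  linarith

end Pool.Agent.PFlow
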