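import Pool.Agent.PFlow.StmtsM

/-!
# Module POS: the square terms of the dissipation are nonnegative
-/

open MeasureTheory Filter Topology
open scoped ContDiff

namespace Pool.Agent.PFlow

open Pool.Agent.PenroseSph

namespace MPOS

/-- Bessel's inequality for the matrices `n ⊗ n` and `1 - n ⊗ n`. -/
theorem bessel (L : Bil) (n : Cov) (N T : ℝ) (hn : ∑ i, n i * n i = 1)
    (hN : ∑ i, ∑ j, L i j * n i * n j = N) (hT : ∑ i, L i i = T + N) :
    N ^ 2 + T ^ 2 / 2 ≤ ∑ i, ∑ j, L i j * L i j := by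
  have key : 0 ≤ ∑ i : Fin 3, ∑ j : Fin 3,
      (L i j - ((N - T / 2) * (n i * n j) + T / 2 * (if i = j then 1 else 0))) ^ 2 :=
    Finset.sum_nonneg fun i _ => Finset.sum_nonneg fun j _ => sq_nonneg _
  have h01 : ¬ ((0 : Fin 3) = 1) := by decide
  have h02 : ¬ ((0 : Fin 3) = 2) := by decide
  have h10 : ¬ ((1 : Fin 3) = 0) := by decide
  have h12 : ¬ ((1 : Fin 3) = 2) := by decide
  have h20 : ¬ ((2 : Fin 3) = 0) := by decide
  have h21 : ¬ ((2 : Fin 3) = 1) := by decide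
  simp only [Fin.sum_univ_three, if_true, if_neg h01, if_neg h02, if_neg h10, if_neg h12,
    if_neg h20, if_neg h21] at key hn hN hT ⊢
  have e : (L 0 0 - ((N - T / 2) * (n 0 * n 0) + T / 2 * 1)) ^ 2 +
      (L 0 1 - ((N - T / 2) * (n 0 * n 1) + T / 2 * 0)) ^ 2 +
      (L 0 2 - ((N - T / 2) * (n 0 * n 2) + T / 2 * 0)) ^ 2 +
      ((L 1 0 - ((N - T / 2) * (n 1 * n 0) + T / 2 * 0)) ^ 2 +
      (L 1 1 - ((N - T / 2) * (n 1 * n 1) + T / 2 * 1)) ^ 2 +
      (L 1 2 - ((N - T / 2) * (n 1 * n 2) + T / 2 * 0)) ^ 2) +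
      ((L 2 0 - ((N - T / 2) * (n 2 * n 0) + T / 2 * 0)) ^ 2 +
      (L 2 1 - ((N - T / 2) * (n 2 * n 1) + T / 2 * 0)) ^ 2 +
      (L 2 2 - ((N - T / 2) * (n 2 * n 2) + T / 2 * 1)) ^ 2) =
      L 0 0 * L 0 0 + L 0 1 * L 0 1 + L 0 2 * L 0 2 +
      (L 1 0 * L 1 0 + L 1 1 * L 1 1 + L 1 2 * L 1 2) +
      (L 2 0 * L 2 0 + L 2 1 * L 2 1 + L 2 2 * L 2 2) - N ^ 2 - T ^ 2 / 2 := by
    linear_combination (-2 * (N - T / 2)) * hN - T * hT +
      ((N - T / 2) ^ 2 * (n 0 * n 0 + n 1 * n 1 + n 2 * n 2 + 1) + (N - T / 2) * T) * hn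
  linarith

/-- Multilinearity of `ev`. -/
theorem ev_div (B : Bil) (v : Cov) (c : ℝ) :
    ev B (fun i => v i / c) (fun i => v i / c) = ev B v v / c ^ 2 := by
  unfold ev
  rw [Finset.sum_div]
  refine Finset.sum_congr rfl fun i _ => ?_
  rw [Finset.sum_div]
  refine Finset.sum_congr rfl fun j _ => ?_
  ring

theorem pos_alg (hFR : Stmt_FR) (g : TensorField) (x : E3) (hg : (g x).PosDef) (p : Cov)
    (hp : p ≠ 0) (B : Bil) :
    bnn g x p B ^ 2 + btan g x p B ^ 2 / 2 ≤ nsq g x B := by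
  obtain ⟨A, -, -, hev, htr, hdd, hqf, -, -, hne⟩ := hFR (g x)⁻¹ hg.inv
  have hv := hne p hp
  have hlen : len g x p ^ 2 = ∑ i, plv A p i * plv A p i := by
    unfold len
    rw [Real.sq_sqrt]
    · exact hev p p
    · rw [hev p p]
      exact Finset.sum_nonneg fun i _ => mul_self_nonneg _
  have hpos : 0 < ∑ i, plv A p i * plv A p i := by
    obtain ⟨i, hi⟩ := Function.ne_iff.mp hv
    refine Finset.sum_pos' (fun i _ => mul_self_nonneg _) ⟨i, Finset.mem_univ i, ?_⟩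
    exact mul_self_pos.mpr hi
  have hlen0 : len g x p ≠ 0 := by
    intro h0
    rw [h0] at hlen
    rw [← hlen] at hpos
    norm_num at hpos
  have hnsq : nsq g x B = ∑ i, ∑ j, plm A B i j * plm A B i j := hdd B B
  have htrg : trg g x B = ∑ i, plm A B i i := htr B
  have hbnn : bnn g x p B = ∑ i, ∑ j, plm A B i j * (plv A p i / len g x p) *
      (plv A p j / len g x p) := by
    have h1 : bnn g x p B = ev B (raise g x p) (raise g x p) / len g x p ^ 2 :=
      ev_div B (raise g x p) (len g x p)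
    have h2 : ev B (raise g x p) (raise g x p) = ev (plm A B) (plv A p) (plv A p) := hqf B p
    rw [h1, h2]
    exact (ev_div (plm A B) (plv A p) (len g x p)).symm
  rw [hnsq]
  refine bessel (plm A B) (fun i => plv A p i / len g x p) (bnn g x p B) (btan g x p B) ?_
    hbnn.symm ?_
  · have h3 : ∀ i, plv A p i / len g x p * (plv A p i / len g x p) =
        plv A p i * plv A p i / len g x p ^ 2 := by
      intro i
      ring
    rw [Finset.sum_congr rfl fun i _ => h3 i, ← Finset.sum_div, hlen, div_self hpos.ne']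
  · rw [← htrg]
    unfold btan
    ring

end MPOS

theorem POS (hFR : Stmt_FR) : Stmt_POS := by
  intro U g h _ hg _ x hx ε p M _ _ hp _
  have h1 := MPOS.pos_alg hFR g x (hg.posDef x hx) p hp (tenB g h x p M)
  unfold dis0
  linarith

end Pool.Agent.PFlow
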