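import Pool.Agent.PFlow.StmtsM
import Pool.Agent.PenroseSph.Calc

/-!
# The derivative of `√(|dw|² + d²)`
-/

open MeasureTheory Filter Topology
open scoped ContDiff

namespace Pool.Agent.PFlow

open Pool.Agent.PenroseSph

namespace MSD

theorem diff_det {A : E3 → Matrix (Fin 3) (Fin 3) ℝ} {x : E3}
    (hA : ∀ i j, DifferentiableAt ℝ (fun y => A y i j) x) :
    DifferentiableAt ℝ (fun y => (A y).det) x := by
  simp only [Matrix.det_fin_three]
  fun_prop

theorem diff_inv {A : E3 → Matrix (Fin 3) (Fin 3) ℝ} {x : E3}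
    (hA : ∀ i j, DifferentiableAt ℝ (fun y => A y i j) x) (hd : (A x).det ≠ 0) (i j : Fin 3) :
    DifferentiableAt ℝ (fun y => (A y)⁻¹ i j) x := by
  have h1 : (fun y => (A y)⁻¹ i j) = fun y => ((A y).det)⁻¹ *
      ((A y).updateRow j (Pi.single i 1)).det := by
    funext y
    rw [Matrix.inv_def, Ring.inverse_eq_inv', Matrix.smul_apply, smul_eq_mul,
      Matrix.adjugate_apply]
  rw [h1]
  refine ((diff_det hA).inv hd).mul (diff_det fun k l => ?_)
  by_cases hk : k = j
  · subst hk
    simp only [Matrix.updateRow_self]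
    exact differentiableAt_const _
  · simp only [Matrix.updateRow_ne hk]
    exact hA k l

end MSD

theorem SD : Stmt_SD := by
  intro U g w d hU hg hw hd x hx m
  have hUx : U ∈ 𝓝 x := hU.mem_nhds hx
  have hgd : ∀ i j, DifferentiableAt ℝ (fun y => g y i j) x := fun i j =>
    ((hg.smooth i j).contDiffAt hUx).differentiableAt (by simp)
  have hdet : (g x).det ≠ 0 := (hg.posDef x hx).det_pos.ne'
  have hPd := MSD.diff_inv hgd hdet
  have hpd : ∀ i, DifferentiableAt ℝ (fun y => grad w y i) x := by
    intro i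
    have h1 : ContDiffAt ℝ ∞ w x := hw.contDiffAt hUx
    have h2 : ContDiffAt ℝ 1 (fderiv ℝ w) x := h1.fderiv_right (by norm_cast)
    exact (h2.differentiableAt (by simp)).clm_apply (differentiableAt_const _)
  set X : Fin 3 → E3 → ℝ := fun i y => ∑ j, (g y)⁻¹ i j * grad w y j with hX
  have hXd : ∀ i, DifferentiableAt ℝ (X i) x := by
    intro i
    simp only [hX]
    exact DifferentiableAt.fun_sum fun j _ => (hPd i j).mul (hpd j)
  -- the quadratic form
  have hQ : (fun y => ev (g y)⁻¹ (grad w y) (grad w y) + d ^ 2) =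
      fun y => (∑ i, grad w y i * X i y) + d ^ 2 := by
    funext y
    congr 1
    unfold ev
    refine Finset.sum_congr rfl fun i _ => ?_
    simp only [hX]
    rw [Finset.mul_sum]
    exact Finset.sum_congr rfl fun j _ => by ring
  have hp : ∀ y ∈ U, ∀ i, grad w y i = ∑ j, g y i j * X j y := by
    intro y hy i
    have h1 : g y * (g y)⁻¹ = 1 :=
      Matrix.mul_nonsing_inv _ ((hg.posDef y hy).det_pos.ne'.isUnit)
    have h2 : grad w y = (g y * (g y)⁻¹).mulVec (grad w y) := by
      rw [h1, Matrix.one_mulVec]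
    rw [← Matrix.mulVec_mulVec] at h2
    exact congrFun h2 i
  have hdp : ∀ i, pd m (fun y => grad w y i) x =
      ∑ j, (g x i j * pd m (X j) x + X j x * pd m (fun y => g y i j) x) := by
    intro i
    have h1 : (fun y => grad w y i) =ᶠ[𝓝 x] fun y => ∑ j, g y i j * X j y := by
      filter_upwards [hUx] with y hy using hp y hy i
    rw [pd_congr h1, pd_sum Finset.univ (fun j y => g y i j * X j y)
      fun j _ => (hgd i j).mul (hXd j)]
    exact Finset.sum_congr rfl fun j _ => pd_mul (hgd i j) (hXd j)
  have hposQ : 0 < ev (g x)⁻¹ (grad w x) (grad w x) + d ^ 2 := by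
    have h1 : 0 ≤ ev (g x)⁻¹ (grad w x) (grad w x) := by
      have h2 := (hg.posDef x hx).inv.posSemidef
      have h3 := h2.dotProduct_mulVec_nonneg (grad w x)
      have h4 : ev (g x)⁻¹ (grad w x) (grad w x) =
          star (grad w x) ⬝ᵥ (g x)⁻¹.mulVec (grad w x) := by
        simp only [ev, Matrix.mulVec, dotProduct, Finset.mul_sum, Pi.star_apply, star_trivial]
        refine Finset.sum_congr rfl fun i _ => Finset.sum_congr rfl fun j _ => by ring
      rw [h4]
      exact h3
    positivity
  have hQd : DifferentiableAt ℝ (fun y => ev (g y)⁻¹ (grad w y) (grad w y) + d ^ 2) x := by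
    rw [hQ]
    exact (DifferentiableAt.fun_sum fun i _ => (hpd i).mul (hXd i)).add_const _
  have hpdQ : pd m (fun y => ev (g y)⁻¹ (grad w y) (grad w y) + d ^ 2) x =
      ∑ i, (grad w x i * pd m (X i) x + X i x * pd m (fun y => grad w y i) x) := by
    rw [hQ]
    have h1 : pd m (fun y => (∑ i, grad w y i * X i y) + d ^ 2) x =
        pd m (fun y => ∑ i, grad w y i * X i y) x := by
      rw [pd_add (f := fun y => ∑ i, grad w y i * X i y) (f' := fun _ => d ^ 2)
        (DifferentiableAt.fun_sum fun i _ => (hpd i).mul (hXd i))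
        (differentiableAt_const _), pd_const, add_zero]
    rw [h1, pd_sum Finset.univ (fun i y => grad w y i * X i y)
      fun i _ => (hpd i).mul (hXd i)]
    exact Finset.sum_congr rfl fun i _ => pd_mul (hpd i) (hXd i)
  have hsq : pd m (fun y => ld (g y)⁻¹ d (grad w y)) x =
      pd m (fun y => ev (g y)⁻¹ (grad w y) (grad w y) + d ^ 2) x /
        (2 * ld (g x)⁻¹ d (grad w x)) := by
    unfold ld pd
    rw [fderiv_sqrt hQd hposQ.ne']
    simp only [smul_apply, smul_eq_mul]
    ring
  have hld : ld (g x)⁻¹ d (grad w x) ≠ 0 := by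
    unfold ld
    exact (Real.sqrt_pos.mpr hposQ).ne'
  -- symmetry
  have hsym : ∀ i j, (g x)⁻¹ i j = (g x)⁻¹ j i := by
    intro i j
    have h1 := (hg.posDef x hx).inv.isHermitian
    have h2 := h1.apply i j
    simpa using h2.symm
  have hgs : ∀ i j, g x i j = g x j i := by
    intro i j
    have h1 := (hg.posDef x hx).isHermitian
    have h2 := h1.apply i j
    simpa using h2.symm
  -- the Christoffel terms
  have hG : ∀ j, ∑ k, christoffel g k m j x * grad w x k =
      1 / 2 * ∑ l, X l x * (pd m (fun y => g y j l) x + pd j (fun y => g y m l) x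
        - pd l (fun y => g y m j) x) := by
    intro j
    simp only [christoffel, hX, Finset.mul_sum, Finset.sum_mul]
    rw [Finset.sum_comm]
    refine Finset.sum_congr rfl fun l _ => Finset.sum_congr rfl fun k _ => ?_
    rw [hsym l k]
    ring
  have hmain : ∑ i, (grad w x i * pd m (X i) x + X i x * pd m (fun y => grad w y i) x) =
      2 * app (g x)⁻¹ (cHess g x (grad w x) (hess2 w x)) (grad w x) m := by
    have hup : ∀ j, up (g x)⁻¹ (grad w x) j = X j x := fun j => rfl
    have hgr : ∀ i, pd m (pd i w) x = pd m (fun y => grad w y i) x := fun i => rfl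
    have hap : app (g x)⁻¹ (cHess g x (grad w x) (hess2 w x)) (grad w x) m =
        ∑ j, (pd m (fun y => grad w y j) x - 1 / 2 * ∑ l, X l x * (pd m (fun y => g y j l) x
          + pd j (fun y => g y m l) x - pd l (fun y => g y m j) x)) * X j x := by
      unfold app
      refine Finset.sum_congr rfl fun j _ => ?_
      rw [hup, cHess, Matrix.of_apply, hG, hess2, Matrix.of_apply, hgr]
    rw [hap]
    have hpx : ∀ i, grad w x i = ∑ j, g x i j * X j x := hp x hx
    have h0 := hdp 0
    have h1 := hdp 1
    have h2 := hdp 2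
    have e0 := hpx 0
    have e1 := hpx 1
    have e2 := hpx 2
    have s01 := hgs 0 1
    have s02 := hgs 0 2
    have s12 := hgs 1 2
    simp only [Fin.sum_univ_three] at h0 h1 h2 e0 e1 e2 ⊢
    rw [e0, e1, e2, s01, s02, s12]
    rw [s01, s02] at h0
    rw [s12] at h1
    linear_combination (-X 0 x) * h0 - X 1 x * h1 - X 2 x * h2
  rw [hsq, hpdQ, hmain]
  field_simp

end Pool.Agent.PFlow
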