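import Pool.Agent.PFlow.StmtsM

open MeasureTheory Filter Topology
open scoped ContDiff

namespace Pool.Agent.PFlow

open Pool.Agent.PenroseSph

namespace MSEQ

lemma isOpen_Ann (a b : ℝ) : IsOpen (Ann a b) := by
  have h1 : IsOpen {x : E3 | a < ‖x‖} := isOpen_lt continuous_const continuous_norm
  have h2 : IsOpen {x : E3 | ‖x‖ < b} := isOpen_lt continuous_norm continuous_const
  exact h1.inter h2

/-- A compact subset of an open interval, with room around it. -/
lemma room {T : Set ℝ} {s₀ s₁ : ℝ} (hT : IsCompact T) (hsub : T ⊆ Set.Ioo s₀ s₁)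
    (h : s₀ < s₁) : ∃ m n δ : ℝ, 0 < δ ∧ m ≤ n ∧ T ⊆ Set.Icc m n ∧ s₀ + 8 * δ ≤ m ∧
      n + 8 * δ ≤ s₁ := by
  rcases T.eq_empty_or_nonempty with h0 | h0
  · refine ⟨(s₀ + s₁) / 2, (s₀ + s₁) / 2, (s₁ - s₀) / 16, by linarith, le_refl _, ?_, by linarith,
      by linarith⟩
    rw [h0]
    exact Set.empty_subset _
  · obtain ⟨m, hm, hm'⟩ := hT.exists_isLeast h0
    obtain ⟨n, hn, hn'⟩ := hT.exists_isGreatest h0
    have h1 := hsub hm
    have h2 := hsub hn
    refine ⟨m, n, min (m - s₀) (s₁ - n) / 8, ?_, hm' hn, fun x hx => ⟨hm' hx, hn' hx⟩, ?_, ?_⟩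
    · have := lt_min (sub_pos.mpr h1.1) (sub_pos.mpr h2.2)
      linarith
    · have := min_le_left (m - s₀) (s₁ - n)
      linarith
    · have := min_le_right (m - s₀) (s₁ - n)
      linarith

/-- Bands of levels are compact. -/
lemma band_compact {a b a' b' s₀ s₁ c d : ℝ} {w : E3 → ℝ} (ha' : a < a') (hb' : b' < b)
    (hw : ContinuousOn w (Ann a b)) (hin : ∀ x : E3, a < ‖x‖ → ‖x‖ ≤ a' → w x ≤ s₀)
    (hout : ∀ x : E3, b' ≤ ‖x‖ → ‖x‖ < b → s₁ ≤ w x) (hc : s₀ < c) (hd : d < s₁) :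
    IsCompact {x | x ∈ Ann a b ∧ w x ∈ Set.Icc c d} := by
  have hA : IsCompact {x : E3 | a' ≤ ‖x‖ ∧ ‖x‖ ≤ b'} := by
    have h1 : {x : E3 | a' ≤ ‖x‖ ∧ ‖x‖ ≤ b'} = Metric.closedBall (0 : E3) b' ∩ {x | a' ≤ ‖x‖} := by
      ext x
      simp [and_comm]
    rw [h1]
    exact (isCompact_closedBall _ _).inter_right (isClosed_le continuous_const continuous_norm)
  have hsub : {x : E3 | a' ≤ ‖x‖ ∧ ‖x‖ ≤ b'} ⊆ Ann a b := fun x hx =>
    ⟨lt_of_lt_of_le ha' hx.1, lt_of_le_of_lt hx.2 hb'⟩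
  have hcl : IsClosed ({x : E3 | a' ≤ ‖x‖ ∧ ‖x‖ ≤ b'} ∩ w ⁻¹' Set.Icc c d) :=
    (hw.mono hsub).preimage_isClosed_of_isClosed hA.isClosed isClosed_Icc
  have heq : {x | x ∈ Ann a b ∧ w x ∈ Set.Icc c d}
      = {x : E3 | a' ≤ ‖x‖ ∧ ‖x‖ ≤ b'} ∩ w ⁻¹' Set.Icc c d := by
    ext x
    constructor
    · rintro ⟨hx, hx'⟩
      refine ⟨⟨?_, ?_⟩, hx'⟩
      · by_contra hlt
        have := hin x hx.1 (not_le.mp hlt).le
        linarith [hx'.1]
      · by_contra hlt
        have := hout x (not_le.mp hlt).le hx.2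
        linarith [hx'.2]
    · rintro ⟨hx, hx'⟩
      exact ⟨hsub hx, hx'⟩
  rw [heq]
  exact hA.of_isClosed_subset hcl Set.inter_subset_left

/-- Where the truncated function is strictly between the levels, it is equal to `w`. -/
lemma trW_mem {a' b' s₀ s₁ : ℝ} {w : E3 → ℝ} {x : E3}
    (h : trW a' b' s₀ s₁ w x ∈ Set.Ioo s₀ s₁) :
    a' < ‖x‖ ∧ ‖x‖ < b' ∧ w x = trW a' b' s₀ s₁ w x := by
  unfold trW at h ⊢
  by_cases h1 : ‖x‖ ≤ a'
  · rw [if_pos h1] at h
    exact absurd h.1 (lt_irrefl _)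
  · rw [if_neg h1] at h ⊢
    by_cases h2 : b' ≤ ‖x‖
    · rw [if_pos h2] at h
      exact absurd h.2 (lt_irrefl _)
    · rw [if_neg h2] at h ⊢
      refine ⟨not_le.mp h1, not_le.mp h2, ?_⟩
      rcases le_total s₁ (w x) with h3 | h3
      · rw [min_eq_left h3] at h
        have := le_max_right s₀ s₁
        linarith [h.2]
      · rw [min_eq_right h3] at h ⊢
        rcases le_total s₀ (w x) with h4 | h4
        · rw [max_eq_right h4]
        · rw [max_eq_left h4] at h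
          exact absurd h.1 (lt_irrefl _)

/-- A smooth function between a compact set and a compact neighbourhood. -/
lemma exists_cut {K' O K : Set E3} (hK' : IsClosed K') (hO : IsOpen O) (hK : IsClosed K)
    (h1 : K' ⊆ O) (h2 : O ⊆ K) : ∃ f : E3 → ℝ, ContDiff ℝ ∞ f ∧ tsupport f ⊆ K ∧
      (∀ x, 0 ≤ f x) ∧ (∀ x, f x ≤ 1) ∧ ∀ x ∈ K', f x = 1 := by
  have hd : Disjoint Oᶜ K' := Set.disjoint_left.mpr fun x hx hx' => hx (h1 hx')
  obtain ⟨f, hf0, hf1, hf⟩ := exists_contMDiffMap_zero_one_of_isClosed (n := (⊤ : ℕ∞))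
    (modelWithCornersSelf ℝ E3) hO.isClosed_compl hK' hd
  refine ⟨f, f.contMDiff.contDiff, ?_, fun x => (hf x).1, fun x => (hf x).2, fun x hx => hf1 hx⟩
  have hs : Function.support (f : E3 → ℝ) ⊆ O := by
    intro x hx
    by_contra hxO
    exact hx (hf0 hxO)
  exact closure_minimal (hs.trans h2) hK

/-- `‖G‖²` is integrable. -/
lemma vsq_int {K : Set E3} (hK : IsCompact K) {G : E3 → Cov}
    (hG : ∀ i, MemLp (fun x => G x i) 4 (volume.restrict K)) :
    IntegrableOn (fun x => vsq (G x)) K := by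
  have : IsFiniteMeasure (volume.restrict K) := ⟨by
    rw [Measure.restrict_apply_univ]
    exact hK.measure_lt_top⟩
  have h1 : ∀ i, Integrable (fun x => G x i ^ 2) (volume.restrict K) := fun i =>
    ((hG i).mono_exponent (by norm_num)).integrable_sq
  unfold vsq
  exact integrable_finsetSum _ fun i _ => h1 i

end MSEQ

open MSEQ in
theorem SEQ (hAP : Stmt_AP) (hFX : Stmt_FX) (hTR : Stmt_TR) (hFM : Stmt_FM) (hBAD : Stmt_BAD)
    (hFA : Stmt_FA) : Stmt_SEQ := by
  intro ε a b s₀ s₁ g h w G M hε0 hε1 ha hab hs hg hh hw heq hNI hSep hapb ψ hψ hψc hψs hψ0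
  have hU := isOpen_Ann a b
  obtain ⟨a', b', haa', hab', hb'b, hin, hout⟩ := hSep
  obtain ⟨m, n, δ, hδ, hmn, hT, hm, hn⟩ := room hψc.isCompact hψs hs
  -- the bands
  set K' : Set E3 := {x | x ∈ Ann a b ∧ w x ∈ Set.Icc (m - δ) (n + δ)} with hK'
  set O : Set E3 := {x | x ∈ Ann a b ∧ w x ∈ Set.Ioo (m - 2 * δ) (n + 2 * δ)} with hO
  set K : Set E3 := {x | x ∈ Ann a b ∧ w x ∈ Set.Icc (m - 3 * δ) (n + 3 * δ)} with hK
  set K₁ : Set E3 := {x | x ∈ Ann a b ∧ w x ∈ Set.Icc (m - 6 * δ) (n + 6 * δ)} with hK₁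
  have hK'c : IsCompact K' :=
    band_compact haa' hb'b hw.cont hin hout (by linarith) (by linarith)
  have hKc : IsCompact K :=
    band_compact haa' hb'b hw.cont hin hout (by linarith) (by linarith)
  have hK₁c : IsCompact K₁ :=
    band_compact haa' hb'b hw.cont hin hout (by linarith) (by linarith)
  have hOo : IsOpen O := hw.cont.isOpen_inter_preimage hU isOpen_Ioo
  have hK'O : K' ⊆ O := fun x hx => ⟨hx.1, by constructor <;> linarith [hx.2.1, hx.2.2]⟩
  have hOK : O ⊆ K := fun x hx => ⟨hx.1, by constructor <;> linarith [hx.2.1, hx.2.2]⟩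
  have hK'K : K' ⊆ K := hK'O.trans hOK
  have hKK₁ : K ⊆ K₁ := fun x hx => ⟨hx.1, by constructor <;> linarith [hx.2.1, hx.2.2]⟩
  have hK₁A : K₁ ⊆ Ann a b := fun x hx => hx.1
  have hKA : K ⊆ Ann a b := fun x hx => hx.1
  have hKab : ∀ x ∈ K, a' < ‖x‖ ∧ ‖x‖ < b' := by
    intro x hx
    constructor
    · by_contra hlt
      have := hin x hx.1.1 (not_lt.mp hlt)
      linarith [hx.2.1]
    · by_contra hlt
      have := hout x (not_lt.mp hlt) hx.1.2
      linarith [hx.2.2]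
  -- the approximating sequence
  obtain ⟨v₀, hv₀s, hv₀u, hv₀1, hv₀2, hv₀c, hv₀i, hv₀3⟩ :=
    hAP ε (Ann a b) g h w G M hε0 hε1 hU hg hh hw heq hapb K₁ hK₁c hK₁A
  set e : ℕ → ℝ := fun k => δ / 2 * (1 / ((k : ℝ) + 1)) with he
  have he0 : ∀ k, 0 < e k := fun k => by
    rw [he]
    positivity
  have heδ : ∀ k, e k < δ := by
    intro k
    have h1 : 1 / ((k : ℝ) + 1) ≤ 1 := by
      rw [div_le_one (by positivity)]
      linarith [Nat.cast_nonneg (α := ℝ) k]
    have h2 : δ / 2 * (1 / ((k : ℝ) + 1)) ≤ δ / 2 * 1 :=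
      mul_le_mul_of_nonneg_left h1 (by positivity)
    simp only [he]
    linarith
  have helim : Tendsto e atTop (𝓝 0) := by
    have h1 : Tendsto (fun k : ℕ => 1 / ((k : ℝ) + 1)) atTop (𝓝 0) :=
      tendsto_one_div_add_atTop_nhds_zero_nat
    have h2 := h1.const_mul (δ / 2)
    simpa [he] using h2
  obtain ⟨φ, hφ, hφe⟩ := extraction_forall_of_eventually'
    (P := fun k N => ∀ x ∈ K₁, |v₀ N x - w x| ≤ e k) (by
      intro k
      have h1 := Metric.tendstoUniformlyOn_iff.mp hv₀u (e k) (he0 k)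
      obtain ⟨N, hN⟩ := eventually_atTop.mp h1
      refine ⟨N, fun j hj x hx => ?_⟩
      have h2 := hN j hj x hx
      rw [Real.dist_eq, abs_sub_comm] at h2
      exact h2.le)
  set v : ℕ → E3 → ℝ := fun k => v₀ (φ k) with hv
  have hφt : Tendsto φ atTop atTop := hφ.tendsto_atTop
  have hTRk : ∀ k, ∃ (W : E3 → ℝ) (C : NNReal), Trunc a' b' (m - 5 * δ) (n + 5 * δ) W ∧
      LipschitzWith C W ∧ (∀ x, |W x - trW a' b' (m - 5 * δ) (n + 5 * δ) w x| ≤ e k) ∧
      (∀ x ∈ Ann a b, m - 5 * δ + e k < w x → w x < n + 5 * δ - e k →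
        ∀ᶠ y in 𝓝 x, W y = v k y) := by
    intro k
    refine hTR a b a' b' (m - 5 * δ) (n + 5 * δ) δ (e k) w (v k) ha haa' hab' hb'b (by linarith)
      (he0 k) (heδ k) hw.cont (fun x h1 h2 => ?_) (fun x h1 h2 => ?_) (hv₀s _) ?_
    · linarith [hin x h1 h2]
    · linarith [hout x h1 h2]
    · intro x hx h1 h2
      exact hφe k x ⟨hx, by constructor <;> linarith⟩
  choose W C hW1 hW2 hW3 hW4 using hTRk
  set z₁ : E3 := EuclideanSpace.single 0 b' with hz₁
  have hb'0 : 0 ≤ b' := by linarith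
  have hz₁n : b' ≤ ‖z₁‖ := by
    rw [hz₁, PiLp.norm_single, Real.norm_eq_abs]
    exact le_abs_self b'
  obtain ⟨hX1, hX2⟩ := hFX a b a' b' (m - 5 * δ) (n + 5 * δ) w z₁ ha haa' hab' hb'b
    (by linarith) hw.cont hNI (fun x h1 h2 => by linarith [hin x h1 h2])
    (fun x h1 h2 => by linarith [hout x h1 h2]) hz₁n
  have hfill : ∀ k x, |fill (W k) (m - 5 * δ) (n + 5 * δ) 0 z₁ x
      - trW a' b' (m - 5 * δ) (n + 5 * δ) w x| ≤ e k := by
    intro k x
    have h1 := hFM a' b' (m - 5 * δ) (n + 5 * δ) (e k) (W k) _ z₁ (hW1 k) hX1 hz₁n (hW3 k) x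
    rwa [hX2 x] at h1
  -- values in a band are values of `w`
  have hval : ∀ (k : ℕ) (y c d : ℝ) (x : E3), |y - trW a' b' (m - 5 * δ) (n + 5 * δ) w x| ≤ e k →
      y ∈ Set.Icc c d → m - 4 * δ ≤ c → d ≤ n + 4 * δ →
      x ∈ Ann a b ∧ w x ∈ Set.Icc (c - e k) (d + e k) := by
    intro k y c d x h1 h2 h3 h4
    have h5 := abs_le.mp h1
    have h6 := heδ k
    have h7 : trW a' b' (m - 5 * δ) (n + 5 * δ) w x ∈ Set.Ioo (m - 5 * δ) (n + 5 * δ) := by
      constructor <;> linarith [h2.1, h2.2, h5.1, h5.2]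
    obtain ⟨h8, h9, h10⟩ := trW_mem h7
    refine ⟨⟨by linarith, by linarith⟩, ?_⟩
    rw [h10]
    constructor <;> linarith [h2.1, h2.2, h5.1, h5.2]
  have hlevels : ∀ (k : ℕ) (x : E3),
      fill (W k) (m - 5 * δ) (n + 5 * δ) 0 z₁ x ∈ Set.Icc (m - δ) (n + δ) → x ∈ K := by
    intro k x hx
    obtain ⟨h1, h2⟩ := hval k _ (m - δ) (n + δ) x (hfill k x) hx (by linarith) (by linarith)
    have := heδ k
    exact ⟨h1, by constructor <;> linarith [h2.1, h2.2]⟩
  have hLS : ∀ k, LSData (Ann a b) g h a' b' (m - 5 * δ) (n + 5 * δ) (m - δ) (n + δ) (W k) (v k)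
      (C k) z₁ K ψ := by
    intro k
    have hek := heδ k
    refine ⟨hU, hg, hh, hW1 k, hW2 k, hz₁n, hv₀s _, hKc, hKA, ?_, by linarith, by linarith,
      by linarith, hψ, hψ0, ?_, hlevels k, ?_⟩
    · intro x hx
      exact hW4 k x hx.1 (by linarith [hx.2.1]) (by linarith [hx.2.2])
    · intro s hs'
      have := hT hs'
      constructor <;> linarith [this.1, this.2]
    · intro x hx
      obtain ⟨h1, h2⟩ := hval k _ (m - δ) (n + δ) x (hW3 k x) hx (by linarith) (by linarith)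
      exact ⟨h1, by constructor <;> linarith [h2.1, h2.2]⟩
  have hres : volume.restrict K ≤ volume.restrict K₁ := Measure.restrict_mono hKK₁ le_rfl
  have hc1 : ∀ i, Tendsto (fun k => eLpNorm (fun x => pd i (v k) x - G x i) 4
      (volume.restrict K)) atTop (𝓝 0) := by
    intro i
    refine tendsto_of_tendsto_of_tendsto_of_le_of_le tendsto_const_nhds
      ((hv₀1 i).comp hφt) (fun k => bot_le) fun k => eLpNorm_mono_measure _ hres
  have hc2 : ∀ i j, Tendsto (fun k => eLpNorm (fun x => pd i (pd j (v k)) x - M x i j) 2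
      (volume.restrict K)) atTop (𝓝 0) := by
    intro i j
    refine tendsto_of_tendsto_of_tendsto_of_le_of_le tendsto_const_nhds
      ((hv₀2 i j).comp hφt) (fun k => bot_le) fun k => eLpNorm_mono_measure _ hres
  have hnn : ∀ (k : ℕ) (x : E3), 0 ≤ resid ε g h x (grad (v k) x) (hess2 (v k) x) ^ 2
      / vn (grad (v k) x) := fun k x => div_nonneg (sq_nonneg _) (Real.sqrt_nonneg _)
  refine ⟨a', b', m - 5 * δ, n + 5 * δ, m - δ, n + δ, z₁, K, K', v, W, C, ?_⟩
  refine ⟨hLS, hK'K, hK'c, ?_, ?_, ?_, ?_, hc1, hc2, ?_, ?_, ?_, ?_⟩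
  · intro x hx hxs
    have := hT hxs
    exact ⟨hx, by constructor <;> linarith [this.1, this.2]⟩
  · intro k x hx hxs
    have h0 := hT hxs
    obtain ⟨h1, h2⟩ := hval k _ m n x (hfill k x) h0 (by linarith) (by linarith)
    have := heδ k
    exact ⟨h1, by constructor <;> linarith [h2.1, h2.2]⟩
  · intro k x hx hxs
    have h0 := hT hxs
    have h1 := abs_le.mp (hφe k x (hKK₁ hx))
    have h2 := heδ k
    refine ⟨hx.1, ?_⟩
    simp only [hv] at h0
    constructor <;> linarith [h0.1, h0.2, h1.1, h1.2]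
  · intro u hu
    have h1 := (hv₀u.mono hKK₁) u hu
    exact hφt.eventually h1
  · intro k
    exact (hv₀c (φ k)).subset fun x hx => ⟨hKK₁ hx.1, hx.2⟩
  · intro k
    exact (hv₀i (φ k)).mono_set hKK₁
  · refine squeeze_zero (fun k => integral_nonneg fun x => hnn k x) (fun k => ?_)
      (hv₀3.comp hφt)
    exact setIntegral_mono_set (hv₀i (φ k)) (Filter.Eventually.of_forall fun x => hnn k x)
      (Filter.Eventually.of_forall hKK₁)
  · obtain ⟨f, hf1, hf2, hf3, hf4, hf5⟩ :=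
      exists_cut hK'c.isClosed hOo hKc.isClosed hK'O hOK
    have hB := hBAD a b a' b' (m - 5 * δ) (n + 5 * δ) w G M K z₁ v W C e f ha haa' hab' hb'b
      (by linarith) hw hKc hKA (fun x hx => by constructor <;> linarith [hx.2.1, hx.2.2]) hKab hz₁n
      hX1 hX2 hW1 hW2 (fun k => hv₀s _) (fun k => (hLS k).agree) helim hW3 hc1 hf1 hf2 hf3 hf4
    have hvs := vsq_int hKc (fun i => hw.memG K hKc hKA i)
    have hfv : IntegrableOn (fun x => f x * vsq (G x)) K := by
      refine Integrable.bdd_mul (c := 1) hvs hf1.continuous.aestronglyMeasurable ?_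
      refine Filter.Eventually.of_forall fun x => ?_
      rw [Real.norm_eq_abs, abs_of_nonneg (hf3 x)]
      exact hf4 x
    refine squeeze_zero (fun k => integral_nonneg fun x => Finset.sum_nonneg fun i _ =>
      sq_nonneg _) (fun k => ?_) hB
    have hgm : MeasurableSet (good (W k) (m - 5 * δ) (n + 5 * δ) 0 z₁) := by
      obtain ⟨h1, h2, -⟩ := hFA a' b' (m - 5 * δ) (n + 5 * δ) (W k) (C k) z₁ (hW1 k) (hW2 k) hz₁n
      have h3 : IsClosed {x | fill (W k) (m - 5 * δ) (n + 5 * δ) 0 z₁ x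
          = fillA (W k) (m - 5 * δ) z₁ x} := isClosed_eq h2.continuous h1.continuous
      have h4 : IsClosed {x | fillA (W k) (m - 5 * δ) z₁ x = W k x} :=
        isClosed_eq h1.continuous (hW2 k).continuous
      have h5 : good (W k) (m - 5 * δ) (n + 5 * δ) 0 z₁
          = {x | fillA (W k) (m - 5 * δ) z₁ x = W k x}
            ∩ {x | fill (W k) (m - 5 * δ) (n + 5 * δ) 0 z₁ x
              = fillA (W k) (m - 5 * δ) z₁ x} := by
        ext x
        rfl
      rw [h5]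
      exact (h4.inter h3).measurableSet
    calc ∫ x in K' \ good (W k) (m - 5 * δ) (n + 5 * δ) 0 z₁, vsq (G x)
        = ∫ x in K' \ good (W k) (m - 5 * δ) (n + 5 * δ) 0 z₁, f x * vsq (G x) := by
          refine setIntegral_congr_fun (hK'c.measurableSet.diff hgm) fun x hx => ?_
          show vsq (G x) = f x * vsq (G x)
          rw [hf5 x hx.1, one_mul]
      _ ≤ ∫ x in K \ good (W k) (m - 5 * δ) (n + 5 * δ) 0 z₁, f x * vsq (G x) := by
          refine setIntegral_mono_set (hfv.mono_set Set.sdiff_subset)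
            (Filter.Eventually.of_forall fun x => mul_nonneg (hf3 x)
              (Finset.sum_nonneg fun i _ => sq_nonneg _))
            (Filter.Eventually.of_forall fun x hx => ⟨hK'K hx.1, hx.2⟩)

end Pool.Agent.PFlow
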