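import Pool.Agent.PFlow.StmtsM

/-!
SM: regular levels of a `C¹` function are topologically regular.
-/

open MeasureTheory Filter Topology
open scoped ContDiff

namespace Pool.Agent.PFlow

open Pool.Agent.PenroseSph

namespace MSM

variable {V : Type} [NormedAddCommGroup V] [NormedSpace ℝ V]

/-- the cylinder -/
def cyl (z e : V) (l : V →L[ℝ] ℝ) (r s : ℝ) : Set V :=
  {x | ‖x - z - l (x - z) • e‖ < r ∧ |l (x - z)| < s}

lemma cyl_neg (z e : V) (l : V →L[ℝ] ℝ) (r s : ℝ) : cyl z (-e) (-l) r s = cyl z e l r s := by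
  ext x
  have h1 : (-l) (x - z) • (-e) = l (x - z) • e := by
    change (-(l (x - z))) • (-e) = _
    rw [smul_neg, neg_smul, neg_neg]
  have h2 : |(-l) (x - z)| = |l (x - z)| := by
    change |-(l (x - z))| = _
    rw [abs_neg]
  simp only [cyl, Set.mem_ofPred_eq, h1, h2]

lemma isOpen_cyl (z e : V) (l : V →L[ℝ] ℝ) (r s : ℝ) : IsOpen (cyl z e l r s) := by
  have h1 : Continuous fun x : V => ‖x - z - l (x - z) • e‖ := by fun_prop
  have h2 : Continuous fun x : V => |l (x - z)| := by fun_prop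
  exact (isOpen_lt h1 continuous_const).inter (isOpen_lt h2 continuous_const)

lemma mem_cyl_self {z e : V} {l : V →L[ℝ] ℝ} {r s : ℝ} (hr : 0 < r) (hs : 0 < s) :
    z ∈ cyl z e l r s := by
  simp [cyl, hr, hs]

lemma shift_fst {z e : V} {l : V →L[ℝ] ℝ} (he : l e = 1) (x : V) (t : ℝ) :
    x + t • e - z - l (x + t • e - z) • e = x - z - l (x - z) • e := by
  have h1 : x + t • e - z = (x - z) + t • e := by abel
  rw [h1, map_add, map_smul, he, smul_eq_mul, mul_one, add_smul]
  abel

lemma shift_snd {z e : V} {l : V →L[ℝ] ℝ} (he : l e = 1) (x : V) (t : ℝ) :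
    l (x + t • e - z) = l (x - z) + t := by
  have h1 : x + t • e - z = (x - z) + t • e := by abel
  rw [h1, map_add, map_smul, he, smul_eq_mul, mul_one]

lemma mem_shift {z e : V} {l : V →L[ℝ] ℝ} {r s : ℝ} (he : l e = 1) {x : V} {t : ℝ}
    (hx : x ∈ cyl z e l r s) (ht : |l (x - z) + t| < s) : x + t • e ∈ cyl z e l r s := by
  refine ⟨?_, ?_⟩
  · rw [shift_fst he]
    exact hx.1
  · rw [shift_snd he]
    exact ht

lemma convex_top (z e : V) (l : V →L[ℝ] ℝ) (r s : ℝ) :
    Convex ℝ (cyl z e l r s ∩ {x | s / 2 < l (x - z)}) := by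
  intro x hx y hy a b ha hb hab
  obtain ⟨⟨hx1, hx2⟩, hx3⟩ := hx
  obtain ⟨⟨hy1, hy2⟩, hy3⟩ := hy
  have hx3' : s / 2 < l (x - z) := hx3
  have hy3' : s / 2 < l (y - z) := hy3
  have e1 : a • x + b • y - z = a • (x - z) + b • (y - z) := by
    have : z = (a + b) • z := by rw [hab, one_smul]
    nth_rewrite 1 [this]
    rw [smul_sub, smul_sub, add_smul]
    abel
  have e2 : l (a • x + b • y - z) = a * l (x - z) + b * l (y - z) := by
    rw [e1, map_add, map_smul, map_smul, smul_eq_mul, smul_eq_mul]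
  have e3 : a • x + b • y - z - l (a • x + b • y - z) • e =
      a • (x - z - l (x - z) • e) + b • (y - z - l (y - z) • e) := by
    rw [e2, e1, add_smul, smul_sub a (x - z), smul_sub b (y - z), mul_smul, mul_smul]
    abel
  refine ⟨⟨?_, ?_⟩, ?_⟩
  · rw [e3]
    have := (convex_ball (0 : V) r) (x := x - z - l (x - z) • e) (by simpa using hx1)
      (y := y - z - l (y - z) • e) (by simpa using hy1) ha hb hab
    simpa using this
  · rw [e2, abs_lt]
    rw [abs_lt] at hx2 hy2
    have h1 := (convex_Ioo (-s) s) (x := l (x - z)) ⟨hx2.1, hx2.2⟩ (y := l (y - z))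
      ⟨hy2.1, hy2.2⟩ ha hb hab
    simpa using h1
  · change s / 2 < l (a • x + b • y - z)
    rw [e2]
    have h1 := (convex_Ioi (s / 2)) (x := l (x - z)) hx3' (y := l (y - z)) hy3' ha hb hab
    simpa using h1

lemma upper {W : V → ℝ} {z e : V} {l : V →L[ℝ] ℝ} {r s c : ℝ} (he : l e = 1) (hr : 0 < r)
    (hs : 0 < s)
    (mono : ∀ x ∈ cyl z e l r s, ∀ t : ℝ, 0 ≤ t → x + t • e ∈ cyl z e l r s → W x ≤ W (x + t • e))
    (top : ∀ y, ‖y - z - (s / 2) • e‖ < r → c < W y) :
    IsPreconnected (cyl z e l r s ∩ {y | c < W y}) := by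
  set H := cyl z e l r s ∩ {x | s / 2 < l (x - z)} with hH
  have hHW : H ⊆ cyl z e l r s ∩ {y | c < W y} := by
    rintro y ⟨hy, hy2⟩
    have hy2' : s / 2 < l (y - z) := hy2
    refine ⟨hy, ?_⟩
    have h0 : |l (y - z) + -(l (y - z) - s / 2)| < s := by
      rw [show l (y - z) + -(l (y - z) - s / 2) = s / 2 by ring, abs_of_pos (by positivity)]
      linarith
    have h1 := mem_shift he hy h0
    have h2 := mono _ h1 (l (y - z) - s / 2) (by linarith) (by
      rw [add_assoc, ← add_smul]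
      simpa using hy)
    rw [add_assoc, ← add_smul, neg_add_cancel, zero_smul, add_zero] at h2
    refine lt_of_lt_of_le (top _ ?_) h2
    have h3 : y + -(l (y - z) - s / 2) • e - z - (s / 2) • e = y - z - l (y - z) • e := by
      rw [neg_smul, sub_smul]
      abel
    rw [h3]
    exact hy.1
  have hx0 : z + (3 * s / 4) • e ∈ H := by
    refine ⟨mem_shift he (mem_cyl_self hr hs) ?_, ?_⟩
    · rw [sub_self, map_zero, zero_add, abs_of_pos (by positivity)]
      linarith
    · change s / 2 < l (z + (3 * s / 4) • e - z)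
      rw [shift_snd he, sub_self, map_zero, zero_add]
      linarith
  refine isPreconnected_of_forall (z + (3 * s / 4) • e) fun y hy => ?_
  by_cases hy2 : s / 2 < l (y - z)
  · exact ⟨H, hHW, hx0, ⟨hy.1, hy2⟩, (convex_top z e l r s).isPreconnected⟩
  · push Not at hy2
    have hyl := hy.1.2
    rw [abs_lt] at hyl
    set T := 3 * s / 4 - l (y - z) with hT
    have hT0 : 0 ≤ T := by rw [hT]; linarith
    have hin : ∀ t : ℝ, 0 ≤ t → t ≤ T → y + t • e ∈ cyl z e l r s := by
      intro t h1 h2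
      refine mem_shift he hy.1 ?_
      rw [abs_lt]
      constructor <;> linarith
    have hyH : y + T • e ∈ H := by
      refine ⟨hin T hT0 le_rfl, ?_⟩
      change s / 2 < l (y + T • e - z)
      rw [shift_snd he, hT]
      linarith
    set S := segment ℝ y (y + T • e) with hS
    have hSsub : S ⊆ cyl z e l r s ∩ {y | c < W y} := by
      rintro w hw
      rw [hS, segment_eq_image'] at hw
      obtain ⟨θ, ⟨h1, h2⟩, rfl⟩ := hw
      have h3 : y + θ • (y + T • e - y) = y + (θ * T) • e := by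
        rw [add_sub_cancel_left, smul_smul]
      change y + θ • (y + T • e - y) ∈ _
      rw [h3]
      have h4 : 0 ≤ θ * T := mul_nonneg h1 hT0
      have h5 : θ * T ≤ T := mul_le_of_le_one_left hT0 h2
      exact ⟨hin _ h4 h5, lt_of_lt_of_le hy.2 (mono _ hy.1 _ h4 (hin _ h4 h5))⟩
    refine ⟨S ∪ H, Set.union_subset hSsub hHW, Or.inr hx0, Or.inl (left_mem_segment ℝ _ _), ?_⟩
    exact IsPreconnected.union (y + T • e) (right_mem_segment ℝ _ _) hyH
      (convex_segment _ _).isPreconnected (convex_top z e l r s).isPreconnected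

lemma strict {W : V → ℝ} {z e : V} {l : V →L[ℝ] ℝ} {r s : ℝ} (he : l e = 1)
    (hd : ∀ y ∈ cyl z e l r s, DifferentiableAt ℝ W y ∧ 0 < fderiv ℝ W y e) :
    ∀ x ∈ cyl z e l r s, ∀ t : ℝ, 0 < t → x + t • e ∈ cyl z e l r s → W x < W (x + t • e) := by
  intro x hx t ht hxt
  have hin : ∀ u ∈ Set.Icc (0 : ℝ) t, x + u • e ∈ cyl z e l r s := by
    intro u hu
    refine mem_shift he hx ?_
    have h1 := hx.2
    have h2 := hxt.2
    rw [shift_snd he] at h2
    rw [abs_lt] at h1 h2 ⊢
    constructor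
    · linarith [hu.1]
    · linarith [hu.2]
  have hder : ∀ u ∈ Set.Icc (0 : ℝ) t,
      HasDerivAt (fun u : ℝ => W (x + u • e)) (fderiv ℝ W (x + u • e) e) u := by
    intro u hu
    have h1 := (hd _ (hin u hu)).1.hasFDerivAt
    have h2 : HasDerivAt (fun u : ℝ => x + u • e) e u := by
      have := ((hasDerivAt_id u).smul_const e).const_add x
      simpa using this
    exact h1.comp_hasDerivAt u h2
  have hmono : StrictMonoOn (fun u : ℝ => W (x + u • e)) (Set.Icc 0 t) := by
    refine strictMonoOn_of_deriv_pos (convex_Icc 0 t) ?_ ?_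
    · intro u hu
      exact (hder u hu).continuousAt.continuousWithinAt
    · intro u hu
      rw [interior_Icc] at hu
      have hu' := Set.Ioo_subset_Icc_self hu
      rw [(hder u hu').deriv]
      exact (hd _ (hin u hu')).2
  have := hmono (Set.left_mem_Icc.mpr ht.le) (Set.right_mem_Icc.mpr ht.le) ht
  simpa using this

lemma near_closure {W : V → ℝ} {z e : V} {l : V →L[ℝ] ℝ} {r s : ℝ} (he : l e = 1) (hr : 0 < r)
    (hs : 0 < s)
    (hst : ∀ x ∈ cyl z e l r s, ∀ t : ℝ, 0 < t → x + t • e ∈ cyl z e l r s →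
      W x < W (x + t • e)) : z ∈ closure {y | W z < W y} := by
  have h1 : Tendsto (fun t : ℝ => z + t • e) (𝓝[>] 0) (𝓝 z) := by
    have h2 : Tendsto (fun t : ℝ => z + t • e) (𝓝 0) (𝓝 (z + (0 : ℝ) • e)) := by
      apply Continuous.tendsto
      fun_prop
    rw [zero_smul, add_zero] at h2
    exact h2.mono_left nhdsWithin_le_nhds
  refine mem_closure_of_tendsto h1 ?_
  have h3 : ∀ᶠ t : ℝ in 𝓝[>] 0, t ∈ Set.Ioo 0 s := Ioo_mem_nhdsGT hs
  filter_upwards [h3] with t ht
  have hz := mem_cyl_self (z := z) (e := e) (l := l) hr hs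
  refine hst z hz t ht.1 (mem_shift he hz ?_)
  rw [sub_self, map_zero, zero_add, abs_of_pos ht.1]
  exact ht.2

lemma key {W : V → ℝ} {z e : V} {l : V →L[ℝ] ℝ} (he : l e = 1) (hc : Continuous W)
    (hd : ∀ᶠ y in 𝓝 z, DifferentiableAt ℝ W y ∧ 0 < fderiv ℝ W y e) (O' : Set V)
    (hO' : O' ∈ 𝓝 z) :
    ∃ O : Set V, IsOpen O ∧ z ∈ O ∧ O ⊆ O' ∧ IsPreconnected (O ∩ {y | W z < W y}) ∧
      IsPreconnected (O ∩ {y | W y < W z}) ∧ z ∈ closure {y | W z < W y} ∧
      z ∈ closure {y | W y < W z} := by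
  obtain ⟨δ, hδ, hball⟩ := Metric.mem_nhds_iff.mp (Filter.inter_mem hO' hd)
  set s := δ / (2 * (‖e‖ + 1)) with hs_def
  have hne : 0 ≤ ‖e‖ := norm_nonneg e
  have hs : 0 < s := by positivity
  have hse : s * ‖e‖ ≤ δ / 2 := by
    have h1 : s * (2 * (‖e‖ + 1)) = δ := by
      rw [hs_def]
      field_simp
    nlinarith
  -- the cylinders of radius at most `δ / 2` are good
  have hcyl : ∀ r ≤ δ / 2, cyl z e l r s ⊆ Metric.ball z δ := by
    intro r hr x hx
    rw [Metric.mem_ball, dist_eq_norm]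
    have h1 : x - z = (x - z - l (x - z) • e) + l (x - z) • e := by abel
    calc ‖x - z‖ = ‖(x - z - l (x - z) • e) + l (x - z) • e‖ := by rw [← h1]
      _ ≤ ‖x - z - l (x - z) • e‖ + ‖l (x - z) • e‖ := norm_add_le _ _
      _ < r + s * ‖e‖ := by
          refine add_lt_add_of_lt_of_le hx.1 ?_
          rw [norm_smul, Real.norm_eq_abs]
          exact mul_le_mul_of_nonneg_right hx.2.le hne
      _ ≤ δ := by linarith
  have hst0 := strict (W := W) (z := z) (r := δ / 2) (s := s) he
    (fun y hy => (hball (hcyl _ le_rfl hy)).2)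
  have hz0 := mem_cyl_self (z := z) (e := e) (l := l) (r := δ / 2) (s := s) (by positivity) hs
  have hhalf : z + (s / 2) • e ∈ cyl z e l (δ / 2) s := by
    refine mem_shift he hz0 ?_
    rw [sub_self, map_zero, zero_add, abs_of_pos (by positivity)]
    linarith
  have hhalf' : z + (-(s / 2)) • e ∈ cyl z e l (δ / 2) s := by
    refine mem_shift he hz0 ?_
    rw [sub_self, map_zero, zero_add, abs_neg, abs_of_pos (by positivity)]
    linarith
  have hW1 : W z < W (z + (s / 2) • e) := hst0 z hz0 _ (by positivity) hhalf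
  have hW2 : W (z + (-(s / 2)) • e) < W z := by
    have := hst0 _ hhalf' (s / 2) (by positivity) (by
      rw [add_assoc, ← add_smul]
      simpa using hz0)
    rw [add_assoc, ← add_smul, neg_add_cancel, zero_smul, add_zero] at this
    exact this
  obtain ⟨r1, hr1, hb1⟩ := Metric.mem_nhds_iff.mp
    (hc.continuousAt.preimage_mem_nhds (Ioi_mem_nhds hW1))
  obtain ⟨r2, hr2, hb2⟩ := Metric.mem_nhds_iff.mp
    (hc.continuousAt.preimage_mem_nhds (Iio_mem_nhds hW2))
  set r := min (δ / 2) (min r1 r2) with hr_def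
  have hr : 0 < r := by positivity
  have hrδ : r ≤ δ / 2 := min_le_left _ _
  have hrr1 : r ≤ r1 := (min_le_right _ _).trans (min_le_left _ _)
  have hrr2 : r ≤ r2 := (min_le_right _ _).trans (min_le_right _ _)
  have hst := strict (W := W) (z := z) (r := r) (s := s) he
    (fun y hy => (hball (hcyl _ hrδ hy)).2)
  have hmono : ∀ x ∈ cyl z e l r s, ∀ t : ℝ, 0 ≤ t → x + t • e ∈ cyl z e l r s →
      W x ≤ W (x + t • e) := by
    intro x hx t ht hxt
    rcases ht.eq_or_lt with h | h
    · rw [← h, zero_smul, add_zero]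
    · exact (hst x hx t h hxt).le
  have htop : ∀ y, ‖y - z - (s / 2) • e‖ < r → W z < W y := by
    intro y hy
    have : y ∈ Metric.ball (z + (s / 2) • e) r1 := by
      rw [Metric.mem_ball, dist_eq_norm, ← sub_sub]
      exact hy.trans_le hrr1
    exact hb1 this
  have he' : (-l) (-e) = 1 := by simp [he]
  have hst' : ∀ x ∈ cyl z (-e) (-l) r s, ∀ t : ℝ, 0 < t → x + t • (-e) ∈ cyl z (-e) (-l) r s →
      (-W) x < (-W) (x + t • (-e)) := by
    intro x hx t ht hxt
    rw [cyl_neg] at hx hxt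
    have := hst _ hxt t ht (by
      rw [add_assoc, ← smul_add, neg_add_cancel, smul_zero, add_zero]
      exact hx)
    rw [add_assoc, ← smul_add, neg_add_cancel, smul_zero, add_zero] at this
    simpa using this
  have hmono' : ∀ x ∈ cyl z (-e) (-l) r s, ∀ t : ℝ, 0 ≤ t →
      x + t • (-e) ∈ cyl z (-e) (-l) r s → (-W) x ≤ (-W) (x + t • (-e)) := by
    intro x hx t ht hxt
    rcases ht.eq_or_lt with h | h
    · rw [← h, zero_smul, add_zero]
    · exact (hst' x hx t h hxt).le
  have htop' : ∀ y, ‖y - z - (s / 2) • (-e)‖ < r → -W z < (-W) y := by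
    intro y hy
    have : y ∈ Metric.ball (z + (-(s / 2)) • e) r2 := by
      rw [Metric.mem_ball, dist_eq_norm, ← sub_sub, neg_smul, ← smul_neg]
      exact hy.trans_le hrr2
    have h1 : W y < W z := hb2 this
    simpa using h1
  refine ⟨cyl z e l r s, isOpen_cyl _ _ _ _ _, mem_cyl_self hr hs,
    fun x hx => (hball (hcyl r hrδ hx)).1, upper he hr hs hmono htop, ?_,
    near_closure he hr hs hst, ?_⟩
  · have h1 := upper (W := -W) (c := -W z) he' hr hs hmono' htop'
    rw [cyl_neg] at h1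
    have h2 : {y | -W z < (-W) y} = {y | W y < W z} := by
      ext y
      simp
    rw [h2] at h1
    exact h1
  · have h1 := near_closure (W := -W) he' hr hs hst'
    have h2 : {y | (-W) z < (-W) y} = {y | W y < W z} := by
      ext y
      simp
    rw [h2] at h1
    exact h1

end MSM

theorem SM : Stmt_SM := by
  intro W c hc hK hreg
  refine ⟨hK, ?_⟩
  intro z hz O' hO' hzO'
  obtain ⟨hW, hg⟩ := hreg z hz
  obtain ⟨i, hi⟩ : ∃ i, grad W z i ≠ 0 := by
    by_contra hcon
    push Not at hcon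
    exact hg (funext hcon)
  have hi' : fderiv ℝ W z (EuclideanSpace.single i 1) ≠ 0 := hi
  obtain ⟨e, he⟩ : ∃ e : E3, 0 < fderiv ℝ W z e := by
    rcases lt_or_gt_of_ne hi' with h | h
    · exact ⟨-EuclideanSpace.single i 1, by rw [map_neg]; linarith⟩
    · exact ⟨EuclideanSpace.single i 1, h⟩
  have hl : ((fderiv ℝ W z e)⁻¹ • fderiv ℝ W z) e = 1 := by
    rw [smul_apply, smul_eq_mul, inv_mul_cancel₀ he.ne']
  have hd : ∀ᶠ y in 𝓝 z, DifferentiableAt ℝ W y ∧ 0 < fderiv ℝ W y e := by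
    have h1 : ∀ᶠ y in 𝓝 z, ContDiffAt ℝ 1 W y := hW.eventually (by simp)
    have h2 : ContinuousAt (fun y => fderiv ℝ W y e) z := by
      have h3 : ContDiffAt ℝ 0 (fderiv ℝ W) z := hW.fderiv_right (by simp)
      exact h3.continuousAt.clm_apply continuousAt_const
    have h4 : ∀ᶠ y in 𝓝 z, 0 < fderiv ℝ W y e := h2.eventually (Ioi_mem_nhds he)
    filter_upwards [h1, h4] with y hy1 hy2
    exact ⟨hy1.differentiableAt (by simp), hy2⟩
  have := MSM.key hl hc hd O' (hO'.mem_nhds hzO')
  rw [hz] at this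
  exact this

end Pool.Agent.PFlow
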