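import Pool.Agent.PFlow.StmtsM

/-!
# Upper bounds for the divergences
-/

open MeasureTheory Filter Topology
open scoped ContDiff

namespace Pool.Agent.PFlow

open Pool.Agent.PenroseSph

namespace MUP

theorem abs_le_vn (p : Cov) (i : Fin 3) : |p i| ≤ vn p := by
  rw [vn, ← Real.sqrt_sq_eq_abs]
  apply Real.sqrt_le_sqrt
  exact Finset.single_le_sum (f := fun i => p i ^ 2) (fun i _ => sq_nonneg _) (Finset.mem_univ i)

theorem abs_le_msq (M : Bil) (i j : Fin 3) : |M i j| ≤ Real.sqrt (msq M) := by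
  rw [← Real.sqrt_sq_eq_abs]
  apply Real.sqrt_le_sqrt
  unfold msq
  refine le_trans ?_ (Finset.single_le_sum (f := fun i => ∑ j, M i j ^ 2)
    (fun i _ => Finset.sum_nonneg fun j _ => sq_nonneg _) (Finset.mem_univ i))
  exact Finset.single_le_sum (f := fun j => M i j ^ 2) (fun j _ => sq_nonneg _)
    (Finset.mem_univ j)

theorem msq_nonneg (M : Bil) : 0 ≤ msq M :=
  Finset.sum_nonneg fun _ _ => Finset.sum_nonneg fun _ _ => sq_nonneg _

theorem vsq_nonneg (p : Cov) : 0 ≤ vsq p := Finset.sum_nonneg fun _ _ => sq_nonneg _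

theorem vn_sq (p : Cov) : vn p ^ 2 = vsq p := Real.sq_sqrt (vsq_nonneg p)

theorem vsq_pos {p : Cov} (h : p ≠ 0) : 0 < vsq p := by
  obtain ⟨i, hi⟩ := Function.ne_iff.mp h
  have h1 : 0 < p i ^ 2 := by
    have : p i ≠ 0 := hi
    positivity
  refine lt_of_lt_of_le h1 ?_
  exact Finset.single_le_sum (f := fun i => p i ^ 2) (fun i _ => sq_nonneg _) (Finset.mem_univ i)

theorem vn_pos {p : Cov} (h : p ≠ 0) : 0 < vn p := Real.sqrt_pos.mpr (vsq_pos h)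

theorem abs_sum3 {a : Fin 3 → ℝ} {b : ℝ} (h : ∀ i, |a i| ≤ b) : |∑ i, a i| ≤ 3 * b := by
  refine (Finset.abs_sum_le_sum_abs _ _).trans ?_
  refine (Finset.sum_le_card_nsmul _ _ b (fun i _ => h i)).trans ?_
  simp

theorem abs_mul_le {x y a b : ℝ} (hx : |x| ≤ a) (hy : |y| ≤ b) : |x * y| ≤ a * b := by
  rw [abs_mul]
  exact mul_le_mul hx hy (abs_nonneg _) ((abs_nonneg _).trans hx)

theorem up_bd {P : Bil} {C n : ℝ} {p : Cov} (hC : ∀ i j, |P i j| ≤ C) (hp : ∀ i, |p i| ≤ n)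
    (i : Fin 3) : |up P p i| ≤ 3 * (C * n) :=
  abs_sum3 fun j => abs_mul_le (hC i j) (hp j)

theorem ev_bd {B : Bil} {v w : Cov} {b c d : ℝ} (hB : ∀ i j, |B i j| ≤ b) (hv : ∀ i, |v i| ≤ c)
    (hw : ∀ i, |w i| ≤ d) : |ev B v w| ≤ 9 * (b * c * d) := by
  have h : |ev B v w| ≤ 3 * (3 * (b * c * d)) :=
    abs_sum3 fun i => abs_sum3 fun j => abs_mul_le (abs_mul_le (hB i j) (hv i)) (hw j)
  linarith

theorem qf_bd {P H : Bil} {C n m : ℝ} {p : Cov} (hC : ∀ i j, |P i j| ≤ C)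
    (hp : ∀ i, |p i| ≤ n) (hH : ∀ i j, |H i j| ≤ m) : |qf P H p| ≤ 81 * (C ^ 2 * n ^ 2 * m) := by
  have h := ev_bd hH (up_bd hC hp) (up_bd hC hp)
  unfold qf
  refine h.trans (le_of_eq ?_)
  ring

theorem tr2_bd {P H : Bil} {C m : ℝ} (hC : ∀ i j, |P i j| ≤ C) (hH : ∀ i j, |H i j| ≤ m) :
    |tr2 P H| ≤ 9 * (C * m) := by
  have h : |tr2 P H| ≤ 3 * (3 * (C * m)) :=
    abs_sum3 fun i => abs_sum3 fun j => abs_mul_le (hC i j) (hH i j)
  linarith

theorem dd_bd {P H K : Bil} {C m k : ℝ} (hC : ∀ i j, |P i j| ≤ C) (hH : ∀ i j, |H i j| ≤ m)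
    (hK : ∀ i j, |K i j| ≤ k) : |dd P H K| ≤ 81 * (C ^ 2 * m * k) := by
  have h : |dd P H K| ≤ 3 * (3 * (3 * (3 * (C * C * m * k)))) :=
    abs_sum3 fun i => abs_sum3 fun j => abs_sum3 fun k => abs_sum3 fun l =>
      abs_mul_le (abs_mul_le (abs_mul_le (hC i k) (hC j l)) (hH i j)) (hK k l)
  refine h.trans (le_of_eq ?_)
  ring

theorem nn_bd {P H : Bil} {C m : ℝ} {p : Cov} (hp : p ≠ 0) (h0 : 0 < C)
    (hC : ∀ i j, |P i j| ≤ C) (hl : vsq p / C ≤ ev P p p) (hH : ∀ i j, |H i j| ≤ m) :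
    |nn P H p| ≤ 81 * (C ^ 3 * m) := by
  have h1 := qf_bd hC (abs_le_vn p) hH
  rw [vn_sq] at h1
  have h2 := vsq_pos hp
  have h3 : 0 < ev P p p := lt_of_lt_of_le (by positivity) hl
  have hm : 0 ≤ m := (abs_nonneg _).trans (hH 0 0)
  unfold nn
  rw [abs_div, abs_of_pos h3, div_le_iff₀ h3]
  refine h1.trans ?_
  have h4 : vsq p ≤ C * ev P p p := by
    rw [div_le_iff₀ h0] at hl
    linarith
  calc 81 * (C ^ 2 * vsq p * m) ≤ 81 * (C ^ 2 * (C * ev P p p) * m) := by gcongr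
    _ = 81 * (C ^ 3 * m) * ev P p p := by ring

/-! ### Real inequalities -/

theorem fin1 {c₀ c₁ c₂ c₃ e a n2 r M N G q C : ℝ} (hn : 0 ≤ n2) (hc₁ : 0 ≤ c₁)
    (he : 0 < e) (ha : 0 ≤ a) (hM : 0 ≤ M) (hc₃ : 0 ≤ c₃) (hN : c₀ * M - c₁ * n2 ≤ N)
    (hG : G ≤ 3 * r ^ 2 + c₂ * (n2 * (1 + n2))) (hq : -q ≤ c₃ * n2)
    (hC₁ : 1 / C ≤ e * c₀) (hC₂ : 3 * a ≤ C) (hC₃ : e * c₁ + a * c₂ + c₃ ≤ C) :
    -e * N + a * G - q ≤ -(M / C) + C * (r ^ 2 + n2 * (1 + n2)) := by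
  have h1 : e * (c₀ * M - c₁ * n2) ≤ e * N := mul_le_mul_of_nonneg_left hN he.le
  have h2 : a * G ≤ a * (3 * r ^ 2 + c₂ * (n2 * (1 + n2))) := mul_le_mul_of_nonneg_left hG ha
  have h3 : (1 / C) * M ≤ e * c₀ * M := mul_le_mul_of_nonneg_right hC₁ hM
  have h4 : (3 * a) * r ^ 2 ≤ C * r ^ 2 := mul_le_mul_of_nonneg_right hC₂ (sq_nonneg r)
  have h5 : (e * c₁ + a * c₂ + c₃) * (n2 * (1 + n2)) ≤ C * (n2 * (1 + n2)) :=
    mul_le_mul_of_nonneg_right hC₃ (by positivity)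
  have h6 : 0 ≤ (e * c₁ + c₃) * (n2 * n2) := by positivity
  have h7 : M / C = 1 / C * M := by ring
  rw [h7]
  nlinarith [h1, h2, h3, h4, h5, h6]

theorem fin2 {l c₁ m a r b n A B C d D E : ℝ} (hl : 0 < l) (hc : 0 < c₁) (hn : 0 < n)
    (hd : 0 ≤ d) (hC : 0 < C) (ha : 0 ≤ a) (hb : 0 ≤ b) (hB : 0 ≤ B) (h1 : n ≤ C * l)
    (h2 : l ≤ C * (n + d))
    (hD : D ≤ 1 / l * (-(c₁ * m ^ 2) + a * r ^ 2 + b * (n ^ 2 * (1 + n ^ 2))))
    (hE : E ≤ A * m * (1 + n) + B * n) :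
    D + E ≤ a * C * (r ^ 2 / n)
      + (b * C + A ^ 2 * C / (2 * c₁) + B) * ((1 + n ^ 2) * (n + d)) := by
  have h3 : A * m * (1 + n) ≤ c₁ * m ^ 2 / l + A ^ 2 * (1 + n) ^ 2 * l / (4 * c₁) := by
    have h : 0 ≤ (c₁ * m - A * (1 + n) * l / 2) ^ 2 / (c₁ * l) := by positivity
    have e : (c₁ * m - A * (1 + n) * l / 2) ^ 2 / (c₁ * l)
        = c₁ * m ^ 2 / l - A * m * (1 + n) + A ^ 2 * (1 + n) ^ 2 * l / (4 * c₁) := by
      field_simp
      ring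
    linarith
  have h4 : 1 / l ≤ C / n := by
    rw [div_le_div_iff₀ hl hn]
    linarith
  have h5 : a * r ^ 2 * (1 / l) ≤ a * r ^ 2 * (C / n) :=
    mul_le_mul_of_nonneg_left h4 (by positivity)
  have h6 : b * (n ^ 2 * (1 + n ^ 2)) * (1 / l) ≤ b * (n ^ 2 * (1 + n ^ 2)) * (C / n) :=
    mul_le_mul_of_nonneg_left h4 (by positivity)
  have h7 : b * (n ^ 2 * (1 + n ^ 2)) * (C / n) = b * C * ((1 + n ^ 2) * n) := by
    field_simp
  have h8 : A ^ 2 * (1 + n) ^ 2 * l / (4 * c₁) ≤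
      A ^ 2 * C / (2 * c₁) * ((1 + n ^ 2) * (n + d)) := by
    have h : (1 + n) ^ 2 * l ≤ 2 * (1 + n ^ 2) * (C * (n + d)) := by
      have h' : (1 + n) ^ 2 ≤ 2 * (1 + n ^ 2) := by nlinarith [sq_nonneg (1 - n)]
      exact mul_le_mul h' h2 hl.le (by positivity)
    calc A ^ 2 * (1 + n) ^ 2 * l / (4 * c₁) = A ^ 2 / (4 * c₁) * ((1 + n) ^ 2 * l) := by ring
      _ ≤ A ^ 2 / (4 * c₁) * (2 * (1 + n ^ 2) * (C * (n + d))) :=
        mul_le_mul_of_nonneg_left h (by positivity)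
      _ = A ^ 2 * C / (2 * c₁) * ((1 + n ^ 2) * (n + d)) := by
        field_simp
        ring
  have h9 : b * C * ((1 + n ^ 2) * n) ≤ b * C * ((1 + n ^ 2) * (n + d)) := by
    have : n ≤ n + d := by linarith
    gcongr
  have h10 : B * n ≤ B * ((1 + n ^ 2) * (n + d)) := by
    have : n ≤ (1 + n ^ 2) * (n + d) := by nlinarith [mul_nonneg (sq_nonneg n) (add_nonneg hn.le hd)]
    exact mul_le_mul_of_nonneg_left this hB
  have h11 : 1 / l * (-(c₁ * m ^ 2) + a * r ^ 2 + b * (n ^ 2 * (1 + n ^ 2)))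
      = -(c₁ * m ^ 2 / l) + a * r ^ 2 * (1 / l) + b * (n ^ 2 * (1 + n ^ 2)) * (1 / l) := by
    ring
  have h12 : a * r ^ 2 * (C / n) = a * C * (r ^ 2 / n) := by ring
  rw [h11] at hD
  rw [h12] at h5
  have h13 : (b * C + A ^ 2 * C / (2 * c₁) + B) * ((1 + n ^ 2) * (n + d))
      = b * C * ((1 + n ^ 2) * (n + d)) + A ^ 2 * C / (2 * c₁) * ((1 + n ^ 2) * (n + d))
        + B * ((1 + n ^ 2) * (n + d)) := by ring
  rw [h13]
  linarith

/-! ### Symmetry of the Hessian -/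

theorem christoffel_symm {U : Set E3} {g : TensorField} (hU : IsOpen U) (hg : MetricOn U g)
    {x : E3} (hx : x ∈ U) (k i j : Fin 3) : christoffel g k i j x = christoffel g k j i x := by
  have h1 : ∀ a b : Fin 3, ∀ l, pd l (fun y => g y a b) x = pd l (fun y => g y b a) x := by
    intro a b l
    unfold pd
    have h2 : (fun y => g y a b) =ᶠ[𝓝 x] (fun y => g y b a) := by
      filter_upwards [hU.mem_nhds hx] with y hy
      have h3 := (hg.posDef y hy).isHermitian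
      have h4 := congrFun (congrFun h3 b) a
      simpa [Matrix.conjTranspose_apply] using h4
    rw [h2.fderiv_eq]
  unfold christoffel
  congr 1
  refine Finset.sum_congr rfl fun l _ => ?_
  rw [h1 i j l]
  ring

theorem cHess_symm {U : Set E3} {g : TensorField} (hU : IsOpen U) (hg : MetricOn U g)
    {x : E3} (hx : x ∈ U) (p : Cov) {M : Bil} (hM : M.IsSymm) : (cHess g x p M).IsSymm := by
  ext i j
  simp only [Matrix.transpose_apply, cHess, Matrix.of_apply]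
  rw [hM.apply]
  congr 1
  refine Finset.sum_congr rfl fun k _ => ?_
  rw [christoffel_symm hU hg hx]

theorem msq_cHess {g : TensorField} {x : E3} {C : ℝ} (hΓ : ∀ k i j, |christoffel g k i j x| ≤ C)
    (p : Cov) (M : Bil) : msq M ≤ 2 * msq (cHess g x p M) + 162 * C ^ 2 * vsq p := by
  have h1 : ∀ i j, M i j ^ 2 ≤ 2 * (cHess g x p M i j) ^ 2 + 18 * C ^ 2 * vsq p := by
    intro i j
    have h2 : |∑ k, christoffel g k i j x * p k| ≤ 3 * (C * vn p) :=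
      abs_sum3 fun k => abs_mul_le (hΓ k i j) (abs_le_vn p k)
    have h3 : (∑ k, christoffel g k i j x * p k) ^ 2 ≤ (3 * (C * vn p)) ^ 2 := sq_le_sq' (by
      have := neg_abs_le (∑ k, christoffel g k i j x * p k)
      linarith) ((le_abs_self _).trans h2)
    have h4 : (3 * (C * vn p)) ^ 2 = 9 * C ^ 2 * vsq p := by
      rw [← vn_sq]
      ring
    rw [h4] at h3
    have h5 : cHess g x p M i j = M i j - ∑ k, christoffel g k i j x * p k := rfl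
    have h6 : M i j = cHess g x p M i j + ∑ k, christoffel g k i j x * p k := by
      rw [h5]
      ring
    rw [h6]
    nlinarith [sq_nonneg (cHess g x p M i j - ∑ k, christoffel g k i j x * p k)]
  unfold msq
  calc ∑ i, ∑ j, M i j ^ 2
      ≤ ∑ i : Fin 3, ∑ j : Fin 3, (2 * (cHess g x p M i j) ^ 2 + 18 * C ^ 2 * vsq p) :=
        Finset.sum_le_sum fun i _ => Finset.sum_le_sum fun j _ => h1 i j
    _ = 2 * (∑ i, ∑ j, cHess g x p M i j ^ 2) + 162 * C ^ 2 * vsq p := by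
        simp only [Finset.sum_add_distrib, Finset.sum_const, Finset.card_univ, Fintype.card_fin,
          Finset.mul_sum, nsmul_eq_mul]
        push_cast
        ring

/-! ### The residual -/

theorem bnn_eq {g : TensorField} {x : E3} {p : Cov} {B : Bil} (h : 0 ≤ ev (g x)⁻¹ p p) :
    bnn g x p B = nn (g x)⁻¹ B p := by
  have h1 : len g x p ^ 2 = ev (g x)⁻¹ p p := Real.sq_sqrt h
  have h2 : bnn g x p B = ev B (up (g x)⁻¹ p) (up (g x)⁻¹ p) / len g x p ^ 2 := by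
    unfold bnn ev
    rw [Finset.sum_div]
    refine Finset.sum_congr rfl fun i _ => ?_
    rw [Finset.sum_div]
    refine Finset.sum_congr rfl fun j _ => ?_
    have h3 : ∀ i, nrm g x p i = up (g x)⁻¹ p i / len g x p := fun i => rfl
    rw [h3, h3]
    ring
  rw [h2, h1]
  rfl

theorem beps_eq {ε : ℝ} {g : TensorField} {x : E3} {p : Cov} {B : Bil}
    (h : 0 ≤ ev (g x)⁻¹ p p) :
    beps ε g x p B = tn (g x)⁻¹ B p + ε * nn (g x)⁻¹ B p := by
  have h1 : trg g x B = tr2 (g x)⁻¹ B := rfl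
  unfold beps tn
  rw [bnn_eq h, h1]
  ring

theorem sq3 (a b c : ℝ) : (a + b + c) ^ 2 ≤ 3 * (a ^ 2 + b ^ 2 + c ^ 2) := by
  nlinarith [sq_nonneg (a - b), sq_nonneg (b - c), sq_nonneg (a - c)]

/-- The weighted trace in terms of the residual. -/
theorem res_bd {ε C : ℝ} {g h : TensorField} {x : E3} {p : Cov} {M : Bil} (hε : 0 < ε)
    (hε1 : ε < 1) (h0 : 1 ≤ C) (hp : p ≠ 0) (hP : ∀ i j, |(g x)⁻¹ i j| ≤ C)
    (hh : ∀ i j, |h x i j| ≤ C) (hl : vsq p / C ≤ ev (g x)⁻¹ p p)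
    (hu : ev (g x)⁻¹ p p ≤ C * vsq p) :
    (tn (g x)⁻¹ (cHess g x p M) p + ε * nn (g x)⁻¹ (cHess g x p M) p) ^ 2
      ≤ 3 * resid ε g h x p M ^ 2
        + (3 * C ^ 2 + 3 * C * (9 * C ^ 2 + 81 * C ^ 4) ^ 2) * (vsq p * (1 + vsq p)) := by
  have hv := vsq_pos hp
  have h1 : 0 < ev (g x)⁻¹ p p := lt_of_lt_of_le (by positivity) hl
  have h2 : len g x p ^ 2 = ev (g x)⁻¹ p p := Real.sq_sqrt h1.le
  have h3 : |beps ε g x p (h x)| ≤ 9 * C ^ 2 + 81 * C ^ 4 := by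
    have e1 : beps ε g x p (h x) = tr2 (g x)⁻¹ (h x) - (1 - ε) * nn (g x)⁻¹ (h x) p := by
      unfold beps
      rw [bnn_eq h1.le]
      rfl
    have e2 := tr2_bd hP hh
    have e3 := nn_bd hp (by linarith) hP hl hh
    rw [e1]
    refine (abs_sub _ _).trans ?_
    rw [abs_mul, abs_of_nonneg (by linarith : 0 ≤ 1 - ε)]
    have e4 : (1 - ε) * |nn (g x)⁻¹ (h x) p| ≤ 1 * |nn (g x)⁻¹ (h x) p| :=
      mul_le_mul_of_nonneg_right (by linarith) (abs_nonneg _)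
    nlinarith [e2, e3, e4]
  have h4 : tn (g x)⁻¹ (cHess g x p M) p + ε * nn (g x)⁻¹ (cHess g x p M) p
      = resid ε g h x p M + len g x p ^ 2 + len g x p * beps ε g x p (h x) := by
    rw [← beps_eq h1.le]
    unfold resid
    ring
  rw [h4]
  refine (sq3 _ _ _).trans ?_
  have h5 : (len g x p ^ 2) ^ 2 ≤ C ^ 2 * vsq p ^ 2 := by
    rw [h2, ← mul_pow]
    exact pow_le_pow_left₀ h1.le hu 2
  have h6 : (len g x p * beps ε g x p (h x)) ^ 2
      ≤ C * vsq p * (9 * C ^ 2 + 81 * C ^ 4) ^ 2 := by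
    rw [mul_pow, h2]
    have h7 : beps ε g x p (h x) ^ 2 ≤ (9 * C ^ 2 + 81 * C ^ 4) ^ 2 := by
      rw [← sq_abs]
      exact pow_le_pow_left₀ (abs_nonneg _) h3 2
    exact mul_le_mul hu h7 (sq_nonneg _) (by positivity)
  have h8 : 0 ≤ 3 * C ^ 2 * vsq p + 3 * C * (9 * C ^ 2 + 81 * C ^ 4) ^ 2 * vsq p ^ 2 := by
    positivity
  nlinarith [h5, h6, h8]

/-- The remaining terms of `DZ`. -/
theorem rest_bd {ε C m : ℝ} {P hh H : Bil} {J p : Cov} (hε : 0 < ε) (hε1 : ε < 1) (h0 : 1 ≤ C)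
    (hp : p ≠ 0) (hP : ∀ i j, |P i j| ≤ C) (hh' : ∀ i j, |hh i j| ≤ C) (hJ : ∀ i, |J i| ≤ C)
    (hH : ∀ i j, |H i j| ≤ m) (hl : vsq p / C ≤ ev P p p) (hu : ev P p p ≤ C * vsq p) :
    - ((nn P H p * lp P p + lp P p * tr2 P H) / (2 - ε)) + ev P J p + dd P hh H
      - tr2 P hh * tr2 P H
      ≤ (81 * C ^ 4 + 9 * C ^ 2 + 162 * C ^ 3) * m * (1 + vn p) + 9 * C ^ 2 * vn p := by
  have hn := vn_pos hp
  have hm : 0 ≤ m := (abs_nonneg _).trans (hH 0 0)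
  have h1 := nn_bd hp (by linarith) hP hl hH
  have h2 := tr2_bd hP hH
  have h3 := tr2_bd hP hh'
  have h4 := dd_bd hP hh' hH
  have h5 := ev_bd hP hJ (abs_le_vn p)
  have h6 : lp P p ≤ C * vn p := by
    unfold lp
    rw [Real.sqrt_le_left (by positivity)]
    refine hu.trans ?_
    rw [mul_pow, vn_sq]
    have := (vsq_pos hp).le
    nlinarith [mul_nonneg this (by linarith : 0 ≤ C - 1)]
  have h7 : 0 ≤ lp P p := Real.sqrt_nonneg _
  have h8 : |(nn P H p * lp P p + lp P p * tr2 P H) / (2 - ε)|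
      ≤ (81 * C ^ 4 + 9 * C ^ 2) * m * vn p := by
    have e1 : nn P H p * lp P p + lp P p * tr2 P H = (nn P H p + tr2 P H) * lp P p := by ring
    rw [e1, abs_div, abs_mul, abs_of_nonneg h7, abs_of_pos (by linarith : 0 < 2 - ε),
      div_le_iff₀ (by linarith)]
    have e2 : |nn P H p + tr2 P H| ≤ 81 * (C ^ 3 * m) + 9 * (C * m) :=
      (abs_add_le _ _).trans (add_le_add h1 h2)
    have e3 : |nn P H p + tr2 P H| * lp P p ≤ (81 * (C ^ 3 * m) + 9 * (C * m)) * (C * vn p) :=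
      mul_le_mul e2 h6 h7 (by positivity)
    have e4 : (81 * (C ^ 3 * m) + 9 * (C * m)) * (C * vn p)
        = (81 * C ^ 4 + 9 * C ^ 2) * m * vn p * 1 := by ring
    rw [e4] at e3
    refine e3.trans ?_
    exact mul_le_mul_of_nonneg_left (by linarith) (by positivity)
  have h9 : |tr2 P hh * tr2 P H| ≤ 9 * (C * C) * (9 * (C * m)) := abs_mul_le h3 h2
  have h10 := neg_le_of_abs_le h8
  have h11 := le_of_abs_le h4
  have h12 := le_of_abs_le h5
  have h13 := neg_le_of_abs_le h9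
  have h14 : 0 ≤ (81 * C ^ 4 + 9 * C ^ 2) * m := by positivity
  have h15 : 0 ≤ 162 * C ^ 3 * m * vn p := by positivity
  nlinarith [h10, h11, h12, h13, h14, h15]

theorem ld_low {P : Bil} {p : Cov} {C d : ℝ} (hC : 1 ≤ C) (h0 : 0 < ev P p p)
    (hl : vsq p / C ≤ ev P p p) : vn p ≤ C * ld P d p := by
  have e2 : ld P d p ^ 2 = ev P p p + d ^ 2 := Real.sq_sqrt (by positivity)
  have h1 : 0 ≤ ld P d p := Real.sqrt_nonneg _
  have e3 : vsq p ≤ ev P p p * C := (div_le_iff₀ (by linarith)).mp hl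
  have e4 : ev P p p * C ≤ ev P p p * C ^ 2 :=
    mul_le_mul_of_nonneg_left (by nlinarith) h0.le
  have e5 : 0 ≤ C ^ 2 * d ^ 2 := by positivity
  have e1 : vn p ^ 2 ≤ (C * ld P d p) ^ 2 := by
    rw [mul_pow, e2, vn_sq]
    linarith
  exact (pow_le_pow_iff_left₀ (Real.sqrt_nonneg _) (by positivity) two_ne_zero).mp e1

theorem ld_up {P : Bil} {p : Cov} {C d : ℝ} (hC : 1 ≤ C) (hd : 0 ≤ d)
    (hu : ev P p p ≤ C * vsq p) : ld P d p ≤ C * (vn p + d) := by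
  have hn : 0 ≤ vn p := Real.sqrt_nonneg _
  unfold ld
  rw [Real.sqrt_le_left (by positivity)]
  rw [← vn_sq] at hu
  have h1 : C ≤ C ^ 2 := by nlinarith
  have h2 : (1 : ℝ) ≤ C ^ 2 := by nlinarith
  have h3 : C * vn p ^ 2 ≤ C ^ 2 * vn p ^ 2 := mul_le_mul_of_nonneg_right h1 (sq_nonneg _)
  have h4 : 1 * d ^ 2 ≤ C ^ 2 * d ^ 2 := mul_le_mul_of_nonneg_right h2 (sq_nonneg _)
  have h5 : 0 ≤ C ^ 2 * (vn p * d) := by positivity
  have h6 : (C * (vn p + d)) ^ 2 = C ^ 2 * vn p ^ 2 + 2 * (C ^ 2 * (vn p * d)) + C ^ 2 * d ^ 2 := by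
    ring
  rw [h6]
  linarith

theorem fin3 {ε C c₂ n2 r G N m2 q : ℝ} (hε : 0 < ε) (hC : 0 < C) (hn : 0 ≤ n2)
    (hG : G ≤ 3 * r ^ 2 + c₂ * (n2 * (1 + n2))) (hN : m2 / C ≤ N) (hq : -q ≤ C * n2) :
    -(ε / 8) * N + 5 / ε * G - q
      ≤ -(ε / (8 * C) * m2) + 15 / ε * r ^ 2 + (5 / ε * c₂ + C) * (n2 * (1 + n2)) := by
  have e1 : ε / (8 * C) * m2 = ε / 8 * (m2 / C) := by
    field_simp
  have e2 : ε / 8 * (m2 / C) ≤ ε / 8 * N := mul_le_mul_of_nonneg_left hN (by positivity)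
  have e3 : 5 / ε * G ≤ 5 / ε * (3 * r ^ 2 + c₂ * (n2 * (1 + n2))) :=
    mul_le_mul_of_nonneg_left hG (by positivity)
  have e4 : 5 / ε * (3 * r ^ 2 + c₂ * (n2 * (1 + n2)))
      = 15 / ε * r ^ 2 + 5 / ε * c₂ * (n2 * (1 + n2)) := by ring
  have e5 : 0 ≤ C * (n2 * n2) := by positivity
  have e6 : (5 / ε * c₂ + C) * (n2 * (1 + n2))
      = 5 / ε * c₂ * (n2 * (1 + n2)) + (C * n2 + C * (n2 * n2)) := by ring
  rw [e1, e6]
  rw [e4] at e3
  linarith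

end MUP

open MUP

theorem UP (hCR : Stmt_CR) (hCT : Stmt_CT) : Stmt_UP := by
  intro ε U g h hε hε1 hU hg hh K hK hKU
  obtain ⟨C, hC1, hC⟩ := hCT U g h hU hg hh K hK hKU
  have hC0 : 0 < C := by linarith
  obtain ⟨c₂, hc₂⟩ : ∃ c₂ : ℝ, c₂ = 3 * C ^ 2 + 3 * C * (9 * C ^ 2 + 81 * C ^ 4) ^ 2 := ⟨_, rfl⟩
  obtain ⟨A, hA⟩ : ∃ A : ℝ, A = 81 * C ^ 4 + 9 * C ^ 2 + 162 * C ^ 3 := ⟨_, rfl⟩
  have hc₂0 : 0 ≤ c₂ := by
    rw [hc₂]
    positivity
  obtain ⟨D, hD⟩ : ∃ D : ℝ, D = 16 * C / ε + 15 / ε + (ε / 8 * (81 * C) + 5 / ε * c₂ + C)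
    + 15 / ε * C + ((5 / ε * c₂ + C) * C + A ^ 2 * C / (2 * (ε / (8 * C))) + 9 * C ^ 2) :=
    ⟨_, rfl⟩
  have t1 : 0 ≤ 16 * C / ε := by positivity
  have t2 : 0 ≤ 15 / ε := by positivity
  have t3 : 0 ≤ ε / 8 * (81 * C) + 5 / ε * c₂ + C := by positivity
  have t4 : 0 ≤ 15 / ε * C := by positivity
  have t5 : 0 ≤ (5 / ε * c₂ + C) * C + A ^ 2 * C / (2 * (ε / (8 * C))) + 9 * C ^ 2 := by
    positivity
  have t6 : 16 ≤ 16 * C / ε := by
    rw [le_div_iff₀ hε]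
    nlinarith
  have s1 : 16 * C / ε ≤ D := by linarith
  have s2 : 15 / ε ≤ D := by linarith
  have s3 : ε / 8 * (81 * C) + 5 / ε * c₂ + C ≤ D := by linarith
  have s4 : 15 / ε * C ≤ D := by linarith
  have s5 : (5 / ε * c₂ + C) * C + A ^ 2 * C / (2 * (ε / (8 * C))) + 9 * C ^ 2 ≤ D := by
    linarith
  have s6 : 1 ≤ D := by linarith
  clear hD t1 t2 t3 t4 t5 t6
  refine ⟨D, s6, ?_⟩
  intro x hx p M d hp hM hd0 hd1
  obtain ⟨b1, b2, b3, b4, b5, b6, -, -, b9, -, -⟩ := hC x hx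
  have hxU := hKU hx
  have hv := vsq_pos hp
  have hn := vn_pos hp
  have hev : 0 < ev (g x)⁻¹ p p := lt_of_lt_of_le (by positivity) (b1 p).1
  have hld : 0 < ld (g x)⁻¹ d p := Real.sqrt_pos.mpr (by positivity)
  have hPD : ((g x)⁻¹).PosDef := (hg.posDef x hxU).inv
  have hS := cHess_symm hU hg hxU p hM
  have hcr := hCR ε (g x)⁻¹ (ric g x) (cHess g x p M) p d hε hε1.le hPD hS hp
  have hG := res_bd (M := M) hε hε1 hC1 hp b9 b5 (b1 p).1 (b1 p).2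
  rw [← hc₂] at hG
  have hdd : dd (g x)⁻¹ (cHess g x p M) (cHess g x p M) = nsq g x (cHess g x p M) := rfl
  have hq : -(qf (g x)⁻¹ (ric g x) p) ≤ C * vsq p := by
    have := neg_le_of_abs_le (b3 p)
    linarith
  have hN := (b2 (cHess g x p M)).1
  rw [hdd] at hcr
  constructor
  · refine hcr.trans ?_
    refine mul_le_mul_of_nonneg_left ?_ (one_div_pos.mpr hld).le
    have hN' : 1 / (2 * C) * msq M - 81 * C * vsq p ≤ nsq g x (cHess g x p M) := by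
      refine le_trans ?_ hN
      rw [le_div_iff₀ hC0]
      have e1 : (1 / (2 * C) * msq M - 81 * C * vsq p) * C
          = msq M / 2 - 81 * C ^ 2 * vsq p := by
        field_simp
      rw [e1]
      have := msq_cHess b4 p M
      linarith
    have hC₁ : 1 / D ≤ ε / 8 * (1 / (2 * C)) := by
      have e1 : ε / 8 * (1 / (2 * C)) = 1 / (16 * C / ε) := by
        field_simp
        ring
      rw [e1]
      exact one_div_le_one_div_of_le (by positivity) s1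
    exact fin1 (c₀ := 1 / (2 * C)) (c₁ := 81 * C) (c₂ := c₂) (c₃ := C) (e := ε / 8)
      (a := 5 / ε) (C := D) (M := msq M) hv.le (by positivity) (by positivity) (by positivity)
      (msq_nonneg M) hC0.le hN' hG hq hC₁ (by
        have : 3 * (5 / ε) = 15 / ε := by ring
        rw [this]
        exact s2) s3
  · have hm2 : Real.sqrt (msq (cHess g x p M)) ^ 2 = msq (cHess g x p M) :=
      Real.sq_sqrt (msq_nonneg _)
    have hE := rest_bd (J := momV g h x) (H := cHess g x p M) (hh := h x) hε hε1 hC1 hp b9 b5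
      b6 (abs_le_msq _) (b1 p).1 (b1 p).2
    rw [← hA] at hE
    have hDd : Ddx g d x p M ≤ 1 / ld (g x)⁻¹ d p *
        (-(ε / (8 * C) * Real.sqrt (msq (cHess g x p M)) ^ 2) + 15 / ε * resid ε g h x p M ^ 2
          + (5 / ε * c₂ + C) * (vn p ^ 2 * (1 + vn p ^ 2))) := by
      refine hcr.trans ?_
      refine mul_le_mul_of_nonneg_left ?_ (one_div_pos.mpr hld).le
      rw [hm2, vn_sq]
      exact fin3 hε hC0 hv.le hG hN hq
    have hfin := fin2 hld (by positivity) hn hd0 hC0 (by positivity)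
      (by positivity) (by positivity) (ld_low hC1 hev (b1 p).1) (ld_up hC1 hd0 (b1 p).2) hDd hE
    have hDZ : DZx ε g h d x p M = Ddx g d x p M
        + (- ((nn (g x)⁻¹ (cHess g x p M) p * lp (g x)⁻¹ p
          + lp (g x)⁻¹ p * tr2 (g x)⁻¹ (cHess g x p M)) / (2 - ε))
          + ev (g x)⁻¹ (momV g h x) p + dd (g x)⁻¹ (h x) (cHess g x p M)
          - tr2 (g x)⁻¹ (h x) * tr2 (g x)⁻¹ (cHess g x p M)) := by
      unfold DZx DZ Ddx
      ring
    rw [hDZ]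
    refine hfin.trans ?_
    rw [vn_sq]
    have q0 : 0 ≤ resid ε g h x p M ^ 2 / vn p := div_nonneg (sq_nonneg _) hn.le
    have q1 := mul_le_mul_of_nonneg_right s4 q0
    have q2 := mul_le_mul_of_nonneg_right s5 (mul_nonneg (by linarith : 0 ≤ 1 + vsq p)
      (by linarith : 0 ≤ vn p + d))
    rw [mul_add D]
    exact add_le_add q1 q2

end Pool.Agent.PFlow
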