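import Pool.Agent.PFlow.StmtsM

/-!
# Willmore's inequality for Sobolev functions
-/

open MeasureTheory Filter Topology
open scoped ContDiff

namespace Pool.Agent.PFlow

open Pool.Agent.PenroseSph

namespace MW

theorem Wd_nonneg (p : Cov) (M : Bil) : 0 ≤ Wd p M := by
  unfold Wd vn
  positivity

/-- The closed annulus. -/
def CAnn (a b : ℝ) : Set E3 := {x : E3 | a ≤ ‖x‖ ∧ ‖x‖ ≤ b}

theorem isCompact_CAnn (a b : ℝ) : IsCompact (CAnn a b) := by
  refine (isCompact_closedBall (0 : E3) b).of_isClosed_subset ?_ ?_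
  · exact (isClosed_le continuous_const continuous_norm).inter
      (isClosed_le continuous_norm continuous_const)
  · intro x hx
    rw [mem_closedBall_zero_iff]
    exact hx.2

theorem isOpen_Ann (a b : ℝ) : IsOpen (Ann a b) :=
  (isOpen_lt continuous_const continuous_norm).inter (isOpen_lt continuous_norm continuous_const)

/-- The values of the support of a bump lie in a smaller interval. -/
theorem exists_levels {s₀ s₁ : ℝ} (hs : s₀ < s₁) {ψ : ℝ → ℝ} (hc : HasCompactSupport ψ)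
    (hψ : tsupport ψ ⊆ Set.Ioo s₀ s₁) : ∃ η : ℝ, 0 < η ∧ s₀ + 4 * η < s₁ - 4 * η ∧
      tsupport ψ ⊆ Set.Icc (s₀ + 4 * η) (s₁ - 4 * η) := by
  obtain ⟨l, u, hlu, hsub⟩ : ∃ l u : ℝ, (s₀ < l ∧ u < s₁) ∧ tsupport ψ ⊆ Set.Icc l u := by
    rcases (tsupport ψ).eq_empty_or_nonempty with h | h
    · refine ⟨(s₀ + s₁) / 2, (s₀ + s₁) / 2, ⟨by linarith, by linarith⟩, ?_⟩
      rw [h]
      exact Set.empty_subset _
    · obtain ⟨l, hl, hl'⟩ := hc.isCompact.exists_isLeast h
      obtain ⟨u, hu, hu'⟩ := hc.isCompact.exists_isGreatest h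
      exact ⟨l, u, ⟨(hψ hl).1, (hψ hu).2⟩, fun x hx => ⟨hl' hx, hu' hx⟩⟩
  refine ⟨min (min ((l - s₀) / 4) ((s₁ - u) / 4)) ((s₁ - s₀) / 16), ?_, ?_, ?_⟩
  · refine lt_min (lt_min ?_ ?_) ?_ <;> linarith [hlu.1, hlu.2]
  · have := min_le_right (min ((l - s₀) / 4) ((s₁ - u) / 4)) ((s₁ - s₀) / 16)
    linarith
  · have h1 := (min_le_left (min ((l - s₀) / 4) ((s₁ - u) / 4)) ((s₁ - s₀) / 16)).trans
      (min_le_left _ _)
    have h2 := (min_le_left (min ((l - s₀) / 4) ((s₁ - u) / 4)) ((s₁ - s₀) / 16)).trans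
      (min_le_right _ _)
    intro x hx
    have h3 := hsub hx
    exact ⟨by linarith [h3.1], by linarith [h3.2]⟩

/-- Convergence of the weighted integrals. -/
theorem tendsto_integral {K L : Set E3} (hL : MeasurableSet L) (hLK : L ⊆ K) {ψ : ℝ → ℝ}
    (hψ : Continuous ψ) (hψc : HasCompactSupport ψ) {w : E3 → ℝ} (hw : ContinuousOn w L)
    {v : ℕ → E3 → ℝ} (hv : ∀ n, Continuous (v n)) (hu : TendstoUniformlyOn v w atTop K)
    {f : ℕ → E3 → ℝ} {f' : E3 → ℝ} (hf : ∀ n, IntegrableOn (f n) K) (hf' : IntegrableOn f' K)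
    (hlim : Tendsto (fun n => ∫ x in K, |f n x - f' x|) atTop (𝓝 0)) :
    (∀ n, IntegrableOn (fun x => ψ (v n x) * f n x) L) ∧
    Tendsto (fun n => ∫ x in L, ψ (v n x) * f n x) atTop (𝓝 (∫ x in L, ψ (w x) * f' x)) := by
  obtain ⟨B, hB⟩ := hψ.bounded_above_of_compact_support hψc
  have hB0 : 0 ≤ B := (norm_nonneg _).trans (hB 0)
  have hfL : ∀ n, IntegrableOn (f n) L := fun n => (hf n).mono_set hLK
  have hfL' : IntegrableOn f' L := hf'.mono_set hLK
  have hvm : ∀ n, AEStronglyMeasurable (fun x => ψ (v n x)) (volume.restrict L) := fun n =>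
    (hψ.comp (hv n)).aestronglyMeasurable
  have hwm : AEStronglyMeasurable (fun x => ψ (w x)) (volume.restrict L) :=
    (hψ.comp_continuousOn hw).aestronglyMeasurable hL
  have hi : ∀ n, IntegrableOn (fun x => ψ (v n x) * f n x) L := fun n =>
    (hfL n).bdd_mul (hvm n) (Eventually.of_forall fun x => hB _)
  have hi2 : ∀ n, IntegrableOn (fun x => ψ (v n x) * f' x) L := fun n =>
    hfL'.bdd_mul (hvm n) (Eventually.of_forall fun x => hB _)
  have hi' : IntegrableOn (fun x => ψ (w x) * f' x) L :=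
    hfL'.bdd_mul hwm (Eventually.of_forall fun x => hB _)
  refine ⟨hi, ?_⟩
  rw [Metric.tendsto_atTop]
  intro ε hε
  set A : ℝ := ∫ x in L, |f' x| with hA
  have hA0 : 0 ≤ A := integral_nonneg fun x => abs_nonneg _
  have huc : UniformContinuous ψ := hψc.uniformContinuous_of_continuous hψ
  obtain ⟨δ, hδ, hδψ⟩ := Metric.uniformContinuous_iff.1 huc (ε / (2 * (A + 1))) (by positivity)
  have h1 := Metric.tendstoUniformlyOn_iff.1 hu δ hδ
  have h2 : ∀ᶠ n in atTop, ∫ x in K, |f n x - f' x| < ε / (2 * (B + 1)) :=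
    hlim.eventually_lt_const (by positivity)
  obtain ⟨N, hN⟩ := (h1.and h2).exists_forall_of_atTop
  refine ⟨N, fun n hn => ?_⟩
  obtain ⟨h3, h4⟩ := hN n hn
  rw [Real.dist_eq, ← integral_sub (hi n) hi']
  have hd : IntegrableOn (fun x => |f n x - f' x|) L := ((hfL n).sub hfL').abs
  have hda : IntegrableOn (fun x => |f' x|) L := hfL'.abs
  have h5 : |∫ x in L, (ψ (v n x) * f n x - ψ (w x) * f' x)| ≤
      ∫ x in L, (B * |f n x - f' x| + ε / (2 * (A + 1)) * |f' x|) := by
    rw [← Real.norm_eq_abs]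
    refine norm_integral_le_of_norm_le ((hd.const_mul B).add (hda.const_mul _)) ?_
    refine (ae_restrict_iff' hL).2 (Eventually.of_forall fun x hx => ?_)
    have e : ψ (v n x) * f n x - ψ (w x) * f' x =
        ψ (v n x) * (f n x - f' x) + (ψ (v n x) - ψ (w x)) * f' x := by ring
    rw [e]
    refine (norm_add_le _ _).trans ?_
    rw [norm_mul, norm_mul, Real.norm_eq_abs (f n x - f' x), Real.norm_eq_abs (f' x)]
    have h6 := hδψ (h3 x (hLK hx))
    rw [dist_comm, Real.dist_eq, ← Real.norm_eq_abs] at h6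
    gcongr
    exact hB _
  refine lt_of_le_of_lt h5 ?_
  rw [integral_add (hd.const_mul B) (hda.const_mul _), integral_const_mul, integral_const_mul]
  have h7 : ∫ x in L, |f n x - f' x| ≤ ∫ x in K, |f n x - f' x| :=
    setIntegral_mono_set ((hf n).sub hf').abs (Eventually.of_forall fun x => abs_nonneg _)
      (LE.le.eventuallyLE hLK)
  have h8 : B * ∫ x in L, |f n x - f' x| ≤ B * (ε / (2 * (B + 1))) := by
    gcongr
    exact h7.trans h4.le
  have h9 : B * (ε / (2 * (B + 1))) < ε / 2 := by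
    rw [mul_div_assoc', div_lt_div_iff₀ (by positivity) (by positivity)]
    nlinarith
  have h10 : ε / (2 * (A + 1)) * A ≤ ε / 2 := by
    rw [div_mul_eq_mul_div, div_le_div_iff₀ (by positivity) (by positivity)]
    nlinarith
  linarith

end MW

open MW in
theorem W (hL4 : Stmt_L4) (hAPW : Stmt_APW) (hTR : Stmt_TR) (hGAU : Stmt_GAU) : Stmt_W := by
  intro a b s₀ s₁ w G M ha hab hs hH hae hint hsep ψ hψ hψc hψs hψ0
  obtain ⟨a', b', haa, hab', hbb, hin, hout⟩ := hsep
  have hH2 : H2s (Ann a b) w G M := hL4 _ w G M (isOpen_Ann a b) hH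
  obtain ⟨η, hη, hη1, hη2⟩ := exists_levels hs hψc hψs
  set K : Set E3 := CAnn a' b' with hK
  have hKc : IsCompact K := isCompact_CAnn a' b'
  have hKA : K ⊆ Ann a b := fun x hx => ⟨haa.trans_le hx.1, hx.2.trans_lt hbb⟩
  obtain ⟨v, hv1, hv2, hv3, hv4, hv5, hv6⟩ := hAPW _ w G M (isOpen_Ann a b) hH2 hae hint K hKc hKA
  set L : Set E3 := K ∩ w ⁻¹' Set.Icc (s₀ + 3 * η) (s₁ - 3 * η) with hL
  have hwK : ContinuousOn w K := hH.cont.mono hKA
  have hLK : L ⊆ K := Set.inter_subset_left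
  have hLc : IsCompact L := hKc.of_isClosed_subset
    (hwK.preimage_isClosed_of_isClosed hKc.isClosed isClosed_Icc) hLK
  obtain ⟨hi, hlim⟩ := tendsto_integral hLc.measurableSet hLK hψ hψc (hwK.mono hLK)
    (fun n => (hv1 n).continuous) hv2 hv4 hv5 hv6
  -- the values in the support of `ψ` are taken in `L`
  have hmem : ∀ x, a < ‖x‖ → ‖x‖ < b → s₀ + 3 * η ≤ w x → w x ≤ s₁ - 3 * η → x ∈ L := by
    intro x h1 h2 h3 h4
    refine ⟨⟨?_, ?_⟩, h3, h4⟩
    · by_contra h
      push Not at h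
      have := hin x h1 h.le
      linarith
    · by_contra h
      push Not at h
      have := hout x h.le h2
      linarith
  have hfin : ∫ x in Ann a b, ψ (w x) * Wd (G x) (M x) = ∫ x in L, ψ (w x) * Wd (G x) (M x) := by
    refine (setIntegral_eq_of_subset_of_forall_sdiff_eq_zero (isOpen_Ann a b).measurableSet
      (hLK.trans hKA) ?_)
    intro x hx
    have h0 : ψ (w x) = 0 := by
      by_contra h
      have h1 := hη2 (subset_tsupport ψ h)
      exact hx.2 (hmem x hx.1.1 hx.1.2 (by linarith [h1.1]) (by linarith [h1.2]))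
    rw [h0, zero_mul]
  rw [hfin]
  refine ge_of_tendsto hlim ?_
  have h1 := Metric.tendstoUniformlyOn_iff.1 hv2 (η / 2) (by positivity)
  filter_upwards [h1] with n hn
  obtain ⟨W, C, hW1, -, hW3, hW4⟩ := hTR a b a' b' (s₀ + 2 * η) (s₁ - 2 * η) η (η / 2) w (v n) ha haa
    hab' hbb (by linarith) (by positivity) (by linarith) hH.cont
    (fun x h1 h2 => by linarith [hin x h1 h2]) (fun x h1 h2 => by linarith [hout x h1 h2]) (hv1 n)
    (by
      intro x hx h1 h2
      have hxK : x ∈ K := by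
        refine ⟨?_, ?_⟩
        · by_contra h
          push Not at h
          have := hin x hx.1 h.le
          linarith
        · by_contra h
          push Not at h
          have := hout x h.le hx.2
          linarith
      have h3 := hn x hxK
      rw [dist_comm, Real.dist_eq] at h3
      exact h3.le)
  have hgau := hGAU a' b' (s₀ + 2 * η) (s₁ - 2 * η) W (v n) L ψ hW1 (hv1 n) hLc
    (fun x hx => hW4 x (hKA (hLK hx)) (by linarith [hx.2.1]) (by linarith [hx.2.2]))
    ((hv3 n).subset fun x hx => ⟨hLK hx.1, hx.2⟩) hψ hψ0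
    (fun s hs => ⟨by linarith [(hη2 hs).1], by linarith [(hη2 hs).2]⟩)
    (by
      intro x hx
      have h2 := hη2 hx
      have h3 := abs_le.1 (hW3 x)
      have h4 : s₀ + 3 * η ≤ trW a' b' (s₀ + 2 * η) (s₁ - 2 * η) w x := by linarith [h2.1]
      have h5 : trW a' b' (s₀ + 2 * η) (s₁ - 2 * η) w x ≤ s₁ - 3 * η := by linarith [h2.2]
      unfold trW at h4 h5
      split_ifs at h4 h5 with h6 h7
      · exfalso; linarith
      · exfalso; linarith
      · push Not at h6 h7
        have h8 : s₀ + 3 * η ≤ w x := by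
          rcases le_max_iff.1 h4 with h | h
          · exfalso; linarith
          · exact (le_min_iff.1 h).2
        have h9 : w x ≤ s₁ - 3 * η := by
          rcases min_le_iff.1 ((le_max_right _ _).trans h5) with h | h
          · exfalso; linarith
          · exact h
        exact ⟨⟨h6.le, h7.le⟩, h8, h9⟩)
  rw [← ofReal_integral_eq_lintegral_ofReal (hi n)
    (Eventually.of_forall fun x => mul_nonneg (hψ0 _) (Wd_nonneg _ _))] at hgau
  have h2 := (ENNReal.ofReal_le_ofReal_iff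
    (integral_nonneg fun x => mul_nonneg (hψ0 _) (Wd_nonneg _ _))).1 hgau
  exact h2

end Pool.Agent.PFlow
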