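import Pool.Agent.PFlow.StmtsM
import Pool.Agent.PenroseSph.Calc

/-!
# Module ZD: the fields `Y_d`, `Z_d` are `C¹` and have the divergences `Ddx`, `DZx`
-/

open MeasureTheory Filter Topology Asymptotics
open scoped ContDiff

namespace Pool.Agent.PFlow

open Pool.Agent.PenroseSph

namespace MZD

/-! ### `√Q q` is `C¹` -/

theorem sqrt_mul_C1 {U : Set E3} (hU : IsOpen U) (Q q b : E3 → ℝ)
    (hQ : ∀ x ∈ U, ContDiffAt ℝ ∞ Q x) (hq : ∀ x ∈ U, ContDiffAt ℝ ∞ q x)
    (hb : ∀ x ∈ U, ContinuousAt b x) (hQ0 : ∀ x ∈ U, 0 ≤ Q x)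
    (hqb : ∀ x ∈ U, q x ^ 2 ≤ b x * Q x) :
    ContDiffOn ℝ 1 (fun y => Real.sqrt (Q y) * q y) U := by
  have hq0 : ∀ x ∈ U, Q x = 0 → q x = 0 := by
    intro x hx h
    have := hqb x hx
    rw [h, mul_zero] at this
    nlinarith [sq_nonneg (q x)]
  have hfQ : ∀ x ∈ U, Q x = 0 → fderiv ℝ Q x = 0 := by
    intro x hx h
    apply IsLocalMin.fderiv_eq_zero
    filter_upwards [hU.mem_nhds hx] with y hy
    rw [h]
    exact hQ0 y hy
  have hb0 : ∀ x ∈ U, 0 ≤ b x ∨ Q x = 0 := by
    intro x hx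
    by_cases h : Q x = 0
    · right; exact h
    · left
      have h1 : 0 < Q x := lt_of_le_of_ne (hQ0 x hx) (Ne.symm h)
      have h2 := hqb x hx
      by_contra hneg
      push Not at hneg
      nlinarith [sq_nonneg (q x), mul_neg_of_neg_of_pos hneg h1]
  set D : E3 → (E3 →L[ℝ] ℝ) := fun y =>
    (q y / (2 * Real.sqrt (Q y))) • fderiv ℝ Q y + Real.sqrt (Q y) • fderiv ℝ q y with hD
  have hder : ∀ y ∈ U, HasFDerivAt (fun y => Real.sqrt (Q y) * q y) (D y) y := by
    intro y hy
    have h1 : HasFDerivAt Q (fderiv ℝ Q y) y :=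
      ((hQ y hy).differentiableAt (by simp)).hasFDerivAt
    have h2 : HasFDerivAt q (fderiv ℝ q y) y :=
      ((hq y hy).differentiableAt (by simp)).hasFDerivAt
    by_cases h : Q y = 0
    · have hD0 : D y = 0 := by
        rw [hD]
        simp [h]
      rw [hD0, hasFDerivAt_iff_isLittleO]
      have e : (fun z => Real.sqrt (Q z) * q z - Real.sqrt (Q y) * q y
          - (0 : E3 →L[ℝ] ℝ) (z - y)) = fun z => Real.sqrt (Q z) * (q z - q y) := by
        funext z
        simp [h, hq0 y hy h]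
      rw [e]
      have ho : (fun z => Real.sqrt (Q z)) =o[𝓝 y] (fun _ => (1 : ℝ)) := by
        rw [isLittleO_one_iff]
        have hc : ContinuousAt (fun z => Real.sqrt (Q z)) y :=
          (hQ y hy).continuousAt.sqrt
        have := hc.tendsto
        rwa [h, Real.sqrt_zero] at this
      have hO := h2.isBigO_sub
      have h3 := ho.mul_isBigO hO.norm_right
      refine h3.trans_isBigO ?_
      refine IsBigO.of_bound 1 (Eventually.of_forall fun z => ?_)
      simp
    · have h3 := (h1.sqrt h).mul h2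
      refine HasFDerivAt.congr_fderiv h3 ?_
      rw [hD]
      simp only
      rw [add_comm]
      congr 1
      rw [smul_smul]
      congr 1
      ring
  intro x hx
  refine ContDiffAt.contDiffWithinAt ?_
  rw [contDiffAt_one_iff]
  refine ⟨D, U, hU.mem_nhds hx, ?_, hder⟩
  intro y hy
  refine ContinuousAt.continuousWithinAt ?_
  have cQ : ContinuousAt Q y := (hQ y hy).continuousAt
  have cq : ContinuousAt q y := (hq y hy).continuousAt
  have cfQ : ContinuousAt (fderiv ℝ Q) y :=
    ((hQ y hy).fderiv_right (m := 0) (by simp)).continuousAt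
  have cfq : ContinuousAt (fderiv ℝ q) y :=
    ((hq y hy).fderiv_right (m := 0) (by simp)).continuousAt
  have cs : ContinuousAt (fun z => Real.sqrt (Q z)) y := cQ.sqrt
  refine ContinuousAt.add ?_ (cs.smul cfq)
  by_cases h : Q y = 0
  · have e : (q y / (2 * Real.sqrt (Q y))) • fderiv ℝ Q y = 0 := by
      rw [hfQ y hy h, smul_zero]
    rw [ContinuousAt, e]
    have hlim : Tendsto (fun z => (Real.sqrt (b z) / 2) * ‖fderiv ℝ Q z‖) (𝓝 y) (𝓝 0) := by
      have h1 : Tendsto (fun z => (Real.sqrt (b z) / 2) * ‖fderiv ℝ Q z‖) (𝓝 y)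
          (𝓝 ((Real.sqrt (b y) / 2) * ‖fderiv ℝ Q y‖)) :=
        ((hb y hy).sqrt.div_const 2).tendsto.mul cfQ.norm.tendsto
      rwa [hfQ y hy h, norm_zero, mul_zero] at h1
    refine squeeze_zero_norm' ?_ hlim
    filter_upwards [hU.mem_nhds hy] with z hz
    rw [norm_smul]
    refine mul_le_mul_of_nonneg_right ?_ (norm_nonneg _)
    by_cases hz0 : Q z = 0
    · rw [hz0]
      simp only [Real.sqrt_zero, mul_zero, div_zero, norm_zero]
      positivity
    · have hpos : 0 < Q z := lt_of_le_of_ne (hQ0 z hz) (Ne.symm hz0)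
      have hbz : 0 ≤ b z := (hb0 z hz).resolve_right hz0
      have hs : 0 < Real.sqrt (Q z) := Real.sqrt_pos.mpr hpos
      rw [Real.norm_eq_abs, abs_div, abs_of_pos (show (0 : ℝ) < 2 * Real.sqrt (Q z) by positivity),
        div_le_div_iff₀ (by positivity) (by norm_num)]
      have h4 : |q z| ≤ Real.sqrt (b z) * Real.sqrt (Q z) := by
        rw [← Real.sqrt_mul hbz]
        apply Real.abs_le_sqrt
        exact hqb z hz
      nlinarith
  · have hs : (2 * Real.sqrt (Q y)) ≠ 0 := by
      have : 0 < Real.sqrt (Q y) :=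
        Real.sqrt_pos.mpr (lt_of_le_of_ne (hQ0 y hy) (Ne.symm h))
      positivity
    exact (cq.div (continuousAt_const.mul cs) hs).smul cfQ

/-! ### Cauchy-Schwarz -/

theorem cs_aux (G : Bil) (hG : G.PosDef) (p : Cov) (j : Fin 3) :
    p j ^ 2 ≤ G j j * ev G⁻¹ p p := by
  set v : Cov := G⁻¹.mulVec p with hv
  have hGv : G.mulVec v = p := by
    rw [hv, Matrix.mulVec_mulVec, Matrix.mul_nonsing_inv G hG.det_pos.ne'.isUnit, Matrix.one_mulVec]
  have hpos : 0 < G j j := hG.diag_pos
  have hs : G.IsSymm := by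
    have := hG.isHermitian
    rw [Matrix.IsHermitian, Matrix.conjTranspose_eq_transpose_of_trivial] at this
    exact this
  have hq := hG.posSemidef.dotProduct_mulVec_nonneg (v - (p j / G j j) • Pi.single j (1 : ℝ))
  rw [star_trivial, Matrix.mulVec_sub, hGv, Matrix.mulVec_smul, sub_dotProduct, dotProduct_sub,
    dotProduct_sub, smul_dotProduct, smul_dotProduct, dotProduct_smul] at hq
  have e1 : v ⬝ᵥ p = ev G⁻¹ p p := by
    rw [hv]
    unfold ev dotProduct Matrix.mulVec dotProduct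
    refine Finset.sum_congr rfl fun i _ => ?_
    rw [Finset.sum_mul]
    refine Finset.sum_congr rfl fun k _ => ?_
    ring
  have e2 : v ⬝ᵥ G.mulVec (Pi.single j (1 : ℝ)) = p j := by
    rw [Matrix.dotProduct_mulVec, ← Matrix.mulVec_transpose, hs.eq, hGv]
    simp
  have e3 : (Pi.single j (1 : ℝ) : Cov) ⬝ᵥ p = p j := by simp
  have e4 : (Pi.single j (1 : ℝ) : Cov) ⬝ᵥ G.mulVec (Pi.single j (1 : ℝ)) = G j j := by simp
  rw [dotProduct_smul] at hq
  simp only [smul_eq_mul, e1, e2, e3, e4] at hq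
  have h5 : ev G⁻¹ p p - p j / G j j * p j - (p j / G j j * p j - p j / G j j * (p j / G j j * G j j))
      = ev G⁻¹ p p - p j ^ 2 / G j j := by
    field_simp
    ring
  have h6 : 0 ≤ ev G⁻¹ p p - p j ^ 2 / G j j := by
    rw [← h5]
    linarith
  have h7 : p j ^ 2 / G j j ≤ ev G⁻¹ p p := by linarith
  rw [div_le_iff₀ hpos] at h7
  linarith

theorem ev_nonneg (G : Bil) (hG : G.PosDef) (p : Cov) : 0 ≤ ev G⁻¹ p p := by
  have h := cs_aux G hG p 0
  have hpos : 0 < G 0 0 := hG.diag_pos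
  by_contra hneg
  push Not at hneg
  nlinarith [sq_nonneg (p 0), mul_neg_of_pos_of_neg hpos hneg]

/-! ### Smoothness -/

section Smooth

variable {U : Set E3} {g h : TensorField} {w : E3 → ℝ} {x : E3}

theorem cd_pd {f : E3 → ℝ} (hf : ContDiffAt ℝ ∞ f x) (i : Fin 3) :
    ContDiffAt ℝ ∞ (pd i f) x := by
  have h1 : ContDiffAt ℝ ∞ (fderiv ℝ f) x := hf.fderiv_right (by simp)
  exact h1.clm_apply contDiffAt_const

theorem cd_det {M : E3 → Bil} (hM : ∀ i j, ContDiffAt ℝ ∞ (fun y => M y i j) x) :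
    ContDiffAt ℝ ∞ (fun y => (M y).det) x := by
  simp only [Matrix.det_fin_three]
  fun_prop

theorem cd_inv {M : E3 → Bil} (hM : ∀ i j, ContDiffAt ℝ ∞ (fun y => M y i j) x)
    (hdet : (M x).det ≠ 0) (k l : Fin 3) : ContDiffAt ℝ ∞ (fun y => (M y)⁻¹ k l) x := by
  have ha : ContDiffAt ℝ ∞ (fun y => (M y).adjugate k l) x := by
    simp only [Matrix.adjugate_fin_three]
    fin_cases k <;> fin_cases l <;>
      simp <;> fun_prop
  have h1 : (fun y => (M y)⁻¹ k l) = fun y => ((M y).det)⁻¹ * (M y).adjugate k l := by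
    funext y
    rw [Matrix.inv_def, Ring.inverse_eq_inv', Matrix.smul_apply, smul_eq_mul]
  rw [h1]
  exact ((cd_det hM).inv hdet).mul ha

theorem cd_up {P : E3 → Bil} {v : E3 → Cov} (hP : ∀ i j, ContDiffAt ℝ ∞ (fun y => P y i j) x)
    (hv : ∀ i, ContDiffAt ℝ ∞ (fun y => v y i) x) (i : Fin 3) :
    ContDiffAt ℝ ∞ (fun y => up (P y) (v y) i) x := by
  unfold up
  exact ContDiffAt.sum fun j _ => (hP i j).mul (hv j)

theorem cd_app {P H : E3 → Bil} {v : E3 → Cov}
    (hP : ∀ i j, ContDiffAt ℝ ∞ (fun y => P y i j) x)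
    (hH : ∀ i j, ContDiffAt ℝ ∞ (fun y => H y i j) x)
    (hv : ∀ i, ContDiffAt ℝ ∞ (fun y => v y i) x) (i : Fin 3) :
    ContDiffAt ℝ ∞ (fun y => app (P y) (H y) (v y) i) x := by
  unfold app
  exact ContDiffAt.sum fun j _ => (hH i j).mul (cd_up hP hv j)

theorem cd_ev {B : E3 → Bil} {v u : E3 → Cov} (hB : ∀ i j, ContDiffAt ℝ ∞ (fun y => B y i j) x)
    (hv : ∀ i, ContDiffAt ℝ ∞ (fun y => v y i) x) (hu : ∀ i, ContDiffAt ℝ ∞ (fun y => u y i) x) :
    ContDiffAt ℝ ∞ (fun y => ev (B y) (v y) (u y)) x := by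
  unfold ev
  exact ContDiffAt.sum fun i _ => ContDiffAt.sum fun j _ => ((hB i j).mul (hv i)).mul (hu j)

theorem cd_tr {P H : E3 → Bil} (hP : ∀ i j, ContDiffAt ℝ ∞ (fun y => P y i j) x)
    (hH : ∀ i j, ContDiffAt ℝ ∞ (fun y => H y i j) x) :
    ContDiffAt ℝ ∞ (fun y => tr2 (P y) (H y)) x := by
  unfold tr2
  exact ContDiffAt.sum fun i _ => ContDiffAt.sum fun j _ => (hP i j).mul (hH i j)

theorem cd_chr (hM : ∀ i j, ContDiffAt ℝ ∞ (fun y => g y i j) x)
    (hdet : (g x).det ≠ 0) (k i j : Fin 3) : ContDiffAt ℝ ∞ (christoffel g k i j) x := by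
  have e : christoffel g k i j = fun x => (1 / 2) * ∑ l, (g x)⁻¹ k l *
      (pd i (fun y => g y j l) x + pd j (fun y => g y i l) x - pd l (fun y => g y i j) x) := rfl
  rw [e]
  exact contDiffAt_const.mul (ContDiffAt.sum fun l _ => (cd_inv hM hdet k l).mul
    (((cd_pd (hM j l) i).add (cd_pd (hM i l) j)).sub (cd_pd (hM i j) l)))

theorem cd_H (hM : ∀ i j, ContDiffAt ℝ ∞ (fun y => g y i j) x) (hdet : (g x).det ≠ 0)
    (hw : ContDiffAt ℝ ∞ w x) (i j : Fin 3) :
    ContDiffAt ℝ ∞ (fun y => cHess g y (grad w y) (hess2 w y) i j) x := by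
  have e : (fun y => cHess g y (grad w y) (hess2 w y) i j) = fun y => pd i (pd j w) y
      - ∑ k, christoffel g k i j y * pd k w y := rfl
  rw [e]
  exact (cd_pd (cd_pd hw j) i).sub (ContDiffAt.sum fun k _ => (cd_chr hM hdet k i j).mul
    (cd_pd hw k))

theorem cd_vol (hM : ∀ i j, ContDiffAt ℝ ∞ (fun y => g y i j) x) (hdet : (g x).det ≠ 0) :
    ContDiffAt ℝ ∞ (volDen g) x := by
  have e : volDen g = fun y => Real.sqrt (g y).det := rfl
  rw [e]
  exact (cd_det hM).sqrt hdet

end Smooth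

theorem up_add (P : Bil) (a b : Cov) (i : Fin 3) :
    up P (fun j => a j + b j) i = up P a i + up P b i := by
  unfold up
  rw [← Finset.sum_add_distrib]
  exact Finset.sum_congr rfl fun j _ => by ring

theorem up_smul (P : Bil) (c : ℝ) (a : Cov) (i : Fin 3) :
    up P (fun j => c * a j) i = c * up P a i := by
  unfold up
  rw [Finset.mul_sum]
  exact Finset.sum_congr rfl fun j _ => by ring

/-- The pairing of `P (tr H p - H p)` with `H p`. -/
theorem pair (P H : Bil) (p : Cov) (t : ℝ) :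
    ∑ i, up P (fun j => t * p j - app P H p j) i * app P H p i
      = qf P H p * t - ev P (app P H p) (app P H p) := by
  have e1 : ∀ i, up P (fun j => t * p j - app P H p j) i
      = t * up P p i - up P (app P H p) i := by
    intro i
    unfold up
    rw [Finset.mul_sum, ← Finset.sum_sub_distrib]
    exact Finset.sum_congr rfl fun j _ => by ring
  have e2 : ∑ i, up P p i * app P H p i = qf P H p := by
    unfold qf ev
    refine Finset.sum_congr rfl fun i _ => ?_
    have : app P H p i = ∑ j, H i j * up P p j := rfl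
    rw [this, Finset.mul_sum]
    exact Finset.sum_congr rfl fun j _ => by ring
  have e3 : ∑ i, up P (app P H p) i * app P H p i = ev P (app P H p) (app P H p) := by
    unfold ev
    refine Finset.sum_congr rfl fun i _ => ?_
    have : up P (app P H p) i = ∑ j, P i j * app P H p j := rfl
    rw [this, Finset.sum_mul]
    exact Finset.sum_congr rfl fun j _ => by ring
  rw [← e2, ← e3, Finset.sum_mul, ← Finset.sum_sub_distrib]
  refine Finset.sum_congr rfl fun i _ => ?_
  rw [e1]
  ring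

end MZD

open MZD in
theorem ZD (hBO : Stmt_BO) (hJD : Stmt_JD) (hLD : Stmt_LD) (hSD : Stmt_SD) : Stmt_ZD := by
  intro ε U g h w d hε hε1 hU hg hh hw hd
  -- smoothness at the points of `U`
  have sg : ∀ x ∈ U, ∀ i j, ContDiffAt ℝ ∞ (fun y => g y i j) x := fun x hx i j =>
    (hg.smooth i j).contDiffAt (hU.mem_nhds hx)
  have sh : ∀ x ∈ U, ∀ i j, ContDiffAt ℝ ∞ (fun y => h y i j) x := fun x hx i j =>
    (hh.smooth i j).contDiffAt (hU.mem_nhds hx)
  have sw : ∀ x ∈ U, ContDiffAt ℝ ∞ w x := fun x hx => hw.contDiffAt (hU.mem_nhds hx)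
  have sdet : ∀ x ∈ U, (g x).det ≠ 0 := fun x hx => (hg.posDef x hx).det_pos.ne'
  have sP : ∀ x ∈ U, ∀ i j, ContDiffAt ℝ ∞ (fun y => (g y)⁻¹ i j) x := fun x hx i j =>
    cd_inv (sg x hx) (sdet x hx) i j
  have sp : ∀ x ∈ U, ∀ i, ContDiffAt ℝ ∞ (fun y => grad w y i) x := fun x hx i =>
    cd_pd (sw x hx) i
  have sH : ∀ x ∈ U, ∀ i j, ContDiffAt ℝ ∞
      (fun y => cHess g y (grad w y) (hess2 w y) i j) x := fun x hx i j =>
    cd_H (sg x hx) (sdet x hx) (sw x hx) i j
  have sv : ∀ x ∈ U, ContDiffAt ℝ ∞ (volDen g) x := fun x hx => cd_vol (sg x hx) (sdet x hx)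
  -- the vector `tr H p - H p`
  set V : Fin 3 → E3 → ℝ := fun i y => up (g y)⁻¹ (fun j =>
      trg g y (cHess g y (grad w y) (hess2 w y)) * grad w y j
        - app (g y)⁻¹ (cHess g y (grad w y) (hess2 w y)) (grad w y) j) i with hV
  have sV : ∀ x ∈ U, ∀ i, ContDiffAt ℝ ∞ (V i) x := by
    intro x hx i
    rw [hV]
    exact cd_up (v := fun y j => trg g y (cHess g y (grad w y) (hess2 w y)) * grad w y j
        - app (g y)⁻¹ (cHess g y (grad w y) (hess2 w y)) (grad w y) j) (sP x hx) (fun j =>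
      ((cd_tr (sP x hx) (sH x hx)).mul (sp x hx j)).sub
        (cd_app (sP x hx) (sH x hx) (sp x hx) j)) i
  -- the regularised length
  set L : E3 → ℝ := fun y => ld (g y)⁻¹ d (grad w y) with hL
  have hQ0 : ∀ x ∈ U, 0 ≤ ev (g x)⁻¹ (grad w x) (grad w x) := fun x hx =>
    ev_nonneg (g x) (hg.posDef x hx) _
  have Lpos : ∀ x ∈ U, 0 < L x := by
    intro x hx
    rw [hL]
    apply Real.sqrt_pos.mpr
    have := hQ0 x hx
    positivity
  have sQ : ∀ x ∈ U, ContDiffAt ℝ ∞ (fun y => ev (g y)⁻¹ (grad w y) (grad w y)) x := fun x hx =>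
    cd_ev (sP x hx) (sp x hx) (sp x hx)
  have sL : ∀ x ∈ U, ContDiffAt ℝ ∞ L x := by
    intro x hx
    rw [hL]
    unfold ld
    apply ((sQ x hx).add contDiffAt_const).sqrt
    have := hQ0 x hx
    positivity
  have sY : ∀ x ∈ U, ∀ i, ContDiffAt ℝ ∞
      (fun y => volDen g y * Yf g d y (grad w y) (hess2 w y) i) x := by
    intro x hx i
    exact (sv x hx).mul ((sV x hx i).div (sL x hx) (Lpos x hx).ne')
  -- the third vector
  set W : Fin 3 → E3 → ℝ := fun i y => volDen g y * up (g y)⁻¹ (fun j =>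
      app (g y)⁻¹ (h y) (grad w y) j - trg g y (h y) * grad w y j) i with hW
  have sW : ∀ x ∈ U, ∀ i, ContDiffAt ℝ ∞ (W i) x := by
    intro x hx i
    rw [hW]
    exact (sv x hx).mul (cd_up (v := fun y j => app (g y)⁻¹ (h y) (grad w y) j
        - trg g y (h y) * grad w y j) (sP x hx) (fun j =>
      (cd_app (sP x hx) (sh x hx) (sp x hx) j).sub
        ((cd_tr (sP x hx) (sh x hx)).mul (sp x hx j))) i)
  -- the second vector
  set R : Fin 3 → E3 → ℝ := fun i y => volDen g y * up (g y)⁻¹ (fun j =>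
      len g y (grad w y) * grad w y j) i with hR
  have sR : ∀ i, ContDiffOn ℝ 1 (R i) U := by
    intro i
    have e : R i = fun y => volDen g y * ∑ j, (g y)⁻¹ i j *
        (len g y (grad w y) * grad w y j) := rfl
    rw [e]
    have h1 : ∀ j, ContDiffOn ℝ 1 (fun y => len g y (grad w y) * grad w y j) U := fun j =>
      sqrt_mul_C1 hU (fun y => ev (g y)⁻¹ (grad w y) (grad w y)) (fun y => grad w y j)
        (fun y => g y j j) sQ (fun x hx => sp x hx j) (fun x hx => (sg x hx j j).continuousAt)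
        hQ0 (fun x hx => cs_aux (g x) (hg.posDef x hx) (grad w x) j)
    have h2 : ContDiffOn ℝ 1 (volDen g) U := fun x hx =>
      ((sv x hx).of_le (by simp)).contDiffWithinAt
    have h3 : ∀ j, ContDiffOn ℝ 1 (fun y => (g y)⁻¹ i j) U := fun j x hx =>
      ((sP x hx i j).of_le (by simp)).contDiffWithinAt
    exact h2.mul (ContDiffOn.sum fun j _ => (h3 j).mul (h1 j))
  have hZ : ∀ i y, volDen g y * Zf ε g h d y (grad w y) (hess2 w y) i
      = volDen g y * Yf g d y (grad w y) (hess2 w y) i + (-(1 / (2 - ε))) * R i y + W i y := by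
    intro i y
    rw [hR, hW]
    simp only
    unfold Zf
    have e : up (g y)⁻¹ (fun j => -(len g y (grad w y) / (2 - ε)) * grad w y j
        + app (g y)⁻¹ (h y) (grad w y) j - trg g y (h y) * grad w y j) i
        = (-(1 / (2 - ε))) * up (g y)⁻¹ (fun j => len g y (grad w y) * grad w y j) i
          + up (g y)⁻¹ (fun j => app (g y)⁻¹ (h y) (grad w y) j
            - trg g y (h y) * grad w y j) i := by
      rw [← up_smul, ← up_add]
      congr 1
      funext j
      ring
    rw [e]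
    ring
  -- differentiability
  have dY : ∀ x ∈ U, ∀ i, DifferentiableAt ℝ
      (fun y => volDen g y * Yf g d y (grad w y) (hess2 w y) i) x := fun x hx i =>
    (sY x hx i).differentiableAt (by simp)
  have dR : ∀ x ∈ U, ∀ i, DifferentiableAt ℝ (R i) x := fun x hx i =>
    ((sR i).contDiffAt (hU.mem_nhds hx)).differentiableAt (by simp)
  have dW : ∀ x ∈ U, ∀ i, DifferentiableAt ℝ (W i) x := fun x hx i =>
    (sW x hx i).differentiableAt (by simp)
  have hYdiv : ∀ x ∈ U, ∑ i, pd i (fun y => volDen g y * Yf g d y (grad w y) (hess2 w y) i) x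
      = volDen g x * Ddx g d x (grad w x) (hess2 w x) := by
    intro x hx
    have e1 : ∀ i, pd i (fun y => volDen g y * Yf g d y (grad w y) (hess2 w y) i) x
        = pd i (fun y => volDen g y * V i y) x / L x
          - (volDen g x * V i x) * (app (g x)⁻¹ (cHess g x (grad w x) (hess2 w x)) (grad w x) i)
            / L x ^ 3 := by
      intro i
      have dVi : DifferentiableAt ℝ (fun y => volDen g y * V i y) x :=
        ((sv x hx).mul (sV x hx i)).differentiableAt (by simp)
      have dL : DifferentiableAt ℝ L x := (sL x hx).differentiableAt (by simp)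
      have dLi : DifferentiableAt ℝ (fun y => (L y)⁻¹) x := dL.inv (Lpos x hx).ne'
      have e2 : (fun y => volDen g y * Yf g d y (grad w y) (hess2 w y) i)
          = fun y => (volDen g y * V i y) * (L y)⁻¹ := by
        funext y
        have : Yf g d y (grad w y) (hess2 w y) i = V i y / L y := rfl
        rw [this]
        ring
      rw [e2, pd_mul dVi dLi]
      have e3 : pd i (fun y => (L y)⁻¹) x = - pd i L x / L x ^ 2 := by
        unfold pd
        have h4 : HasFDerivAt (fun y => (L y)⁻¹) (-(L x ^ 2)⁻¹ • fderiv ℝ L x) x :=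
          (hasDerivAt_inv (Lpos x hx).ne').comp_hasFDerivAt x dL.hasFDerivAt
        rw [h4.fderiv]
        change -(L x ^ 2)⁻¹ * (fderiv ℝ L x) (EuclideanSpace.single i 1)
          = -(fderiv ℝ L x) (EuclideanSpace.single i 1) / L x ^ 2
        ring
      have e4 : pd i L x = app (g x)⁻¹ (cHess g x (grad w x) (hess2 w x)) (grad w x) i / L x :=
        hSD U g w d hU hg hw hd x hx i
      rw [e3, e4]
      have := (Lpos x hx).ne'
      field_simp
      ring
    rw [Finset.sum_congr rfl fun i _ => e1 i, Finset.sum_sub_distrib, ← Finset.sum_div,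
      ← Finset.sum_div]
    have hb := hBO U g w hU hg hw x hx
    have e5 : ∑ i, pd i (fun y => volDen g y * V i y) x
        = volDen g x * (tr2 (g x)⁻¹ (cHess g x (grad w x) (hess2 w x)) ^ 2
          - dd (g x)⁻¹ (cHess g x (grad w x) (hess2 w x)) (cHess g x (grad w x) (hess2 w x))
          - qf (g x)⁻¹ (ric g x) (grad w x)) := hb
    have e6 : ∑ i, (volDen g x * V i x)
        * (app (g x)⁻¹ (cHess g x (grad w x) (hess2 w x)) (grad w x) i)
        = volDen g x * (qf (g x)⁻¹ (cHess g x (grad w x) (hess2 w x)) (grad w x)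
            * tr2 (g x)⁻¹ (cHess g x (grad w x) (hess2 w x))
          - ev (g x)⁻¹ (app (g x)⁻¹ (cHess g x (grad w x) (hess2 w x)) (grad w x))
            (app (g x)⁻¹ (cHess g x (grad w x) (hess2 w x)) (grad w x))) := by
      have := pair (g x)⁻¹ (cHess g x (grad w x) (hess2 w x)) (grad w x)
        (tr2 (g x)⁻¹ (cHess g x (grad w x) (hess2 w x)))
      rw [← this, Finset.mul_sum]
      refine Finset.sum_congr rfl fun i _ => ?_
      rw [mul_assoc]
      rfl
    rw [e5, e6]
    have hD : Ddx g d x (grad w x) (hess2 w x)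
        = (tr2 (g x)⁻¹ (cHess g x (grad w x) (hess2 w x)) ^ 2
          - dd (g x)⁻¹ (cHess g x (grad w x) (hess2 w x)) (cHess g x (grad w x) (hess2 w x))
          - qf (g x)⁻¹ (ric g x) (grad w x)) / L x
        - (qf (g x)⁻¹ (cHess g x (grad w x) (hess2 w x)) (grad w x)
            * tr2 (g x)⁻¹ (cHess g x (grad w x) (hess2 w x))
          - ev (g x)⁻¹ (app (g x)⁻¹ (cHess g x (grad w x) (hess2 w x)) (grad w x))
            (app (g x)⁻¹ (cHess g x (grad w x) (hess2 w x)) (grad w x))) / L x ^ 3 := rfl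
    rw [hD]
    ring
  refine ⟨fun i x hx => ((sY x hx i).of_le (by simp)).contDiffWithinAt, ?_, hYdiv, ?_⟩
  · intro i
    have e : (fun y => volDen g y * Zf ε g h d y (grad w y) (hess2 w y) i)
        = fun y => volDen g y * Yf g d y (grad w y) (hess2 w y) i
          + (-(1 / (2 - ε))) * R i y + W i y := funext fun y => hZ i y
    rw [e]
    have h1 : ContDiffOn ℝ 1 (fun y => volDen g y * Yf g d y (grad w y) (hess2 w y) i) U :=
      fun x hx => ((sY x hx i).of_le (by simp)).contDiffWithinAt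
    have h2 : ContDiffOn ℝ 1 (W i) U := fun x hx =>
      ((sW x hx i).of_le (by simp)).contDiffWithinAt
    exact (h1.add (contDiffOn_const.mul (sR i))).add h2
  · intro x hx
    have e1 : ∀ i, pd i (fun y => volDen g y * Zf ε g h d y (grad w y) (hess2 w y) i) x
        = pd i (fun y => volDen g y * Yf g d y (grad w y) (hess2 w y) i) x
          + (-(1 / (2 - ε))) * pd i (R i) x + pd i (W i) x := by
      intro i
      have e : (fun y => volDen g y * Zf ε g h d y (grad w y) (hess2 w y) i)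
          = fun y => (volDen g y * Yf g d y (grad w y) (hess2 w y) i
            + (-(1 / (2 - ε))) * R i y) + W i y := funext fun y => hZ i y
      have d1 : DifferentiableAt ℝ (fun y => (-(1 / (2 - ε))) * R i y) x :=
        (dR x hx i).const_mul _
      have d2 : DifferentiableAt ℝ (fun y => volDen g y * Yf g d y (grad w y) (hess2 w y) i
          + (-(1 / (2 - ε))) * R i y) x := (dY x hx i).add d1
      rw [e, pd_add d2 (dW x hx i), pd_add (dY x hx i) d1, pd_const_mul _ (dR x hx i)]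
    rw [Finset.sum_congr rfl fun i _ => e1 i, Finset.sum_add_distrib, Finset.sum_add_distrib,
      ← Finset.mul_sum, hYdiv x hx]
    have e2 : ∑ i, pd i (R i) x = volDen g x
        * (nn (g x)⁻¹ (cHess g x (grad w x) (hess2 w x)) (grad w x) * lp (g x)⁻¹ (grad w x)
          + lp (g x)⁻¹ (grad w x) * tr2 (g x)⁻¹ (cHess g x (grad w x) (hess2 w x))) :=
      hLD U g w hU hg hw x hx
    have e3 : ∑ i, pd i (W i) x = volDen g x * (ev (g x)⁻¹ (momV g h x) (grad w x)
        + dd (g x)⁻¹ (h x) (cHess g x (grad w x) (hess2 w x))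
        - tr2 (g x)⁻¹ (h x) * tr2 (g x)⁻¹ (cHess g x (grad w x) (hess2 w x))) :=
      hJD U g h w hU hg hh hw x hx
    rw [e2, e3]
    have hD : DZx ε g h d x (grad w x) (hess2 w x)
        = Ddx g d x (grad w x) (hess2 w x)
          - (nn (g x)⁻¹ (cHess g x (grad w x) (hess2 w x)) (grad w x) * lp (g x)⁻¹ (grad w x)
            + lp (g x)⁻¹ (grad w x) * tr2 (g x)⁻¹ (cHess g x (grad w x) (hess2 w x))) / (2 - ε)
          + ev (g x)⁻¹ (momV g h x) (grad w x)
          + dd (g x)⁻¹ (h x) (cHess g x (grad w x) (hess2 w x))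
          - tr2 (g x)⁻¹ (h x) * tr2 (g x)⁻¹ (cHess g x (grad w x) (hess2 w x)) := rfl
    rw [hD]
    ring

end Pool.Agent.PFlow
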