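import Pool.Agent.PFlow.G.All
import Pool.Agent.PFlow.M_FR
import Pool.Agent.PFlow.M_CR
import Pool.Agent.PFlow.M_ID
import Pool.Agent.PFlow.M_POS
import Pool.Agent.PFlow.M_BO
import Pool.Agent.PFlow.M_JD
import Pool.Agent.PFlow.M_LD
import Pool.Agent.PFlow.M_SD
import Pool.Agent.PFlow.M_ZD
import Pool.Agent.PFlow.M_IB
import Pool.Agent.PFlow.M_CT
import Pool.Agent.PFlow.M_UP
import Pool.Agent.PFlow.M_CHD
import Pool.Agent.PFlow.M_KER
import Pool.Agent.PFlow.M_L4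
import Pool.Agent.PFlow.M_LOGW
import Pool.Agent.PFlow.M_H2I
import Pool.Agent.PFlow.M_APB
import Pool.Agent.PFlow.M_AV
import Pool.Agent.PFlow.M_MO
import Pool.Agent.PFlow.M_AP
import Pool.Agent.PFlow.M_APW
import Pool.Agent.PFlow.M_FA
import Pool.Agent.PFlow.M_FM
import Pool.Agent.PFlow.M_FB
import Pool.Agent.PFlow.M_FC
import Pool.Agent.PFlow.M_SM
import Pool.Agent.PFlow.M_FD1
import Pool.Agent.PFlow.M_FD
import Pool.Agent.PFlow.M_AEG
import Pool.Agent.PFlow.M_FX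
import Pool.Agent.PFlow.M_TR
import Pool.Agent.PFlow.M_LSA
import Pool.Agent.PFlow.M_LSB
import Pool.Agent.PFlow.M_LSG
import Pool.Agent.PFlow.M_LS
import Pool.Agent.PFlow.M_BAD
import Pool.Agent.PFlow.M_SEQ
import Pool.Agent.PFlow.M_CV
import Pool.Agent.PFlow.M_MIT
import Pool.Agent.PFlow.M_INT
import Pool.Agent.PFlow.M_MI
import Pool.Agent.PFlow.M_GAU
import Pool.Agent.PFlow.M_W

/-!
# Block M: assembly
-/

namespace Pool.Agent.PFlow

namespace AllM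

theorem pFR : Stmt_FR := FR
theorem pCR : Stmt_CR := CR pFR
theorem pID : Stmt_ID := ID pFR
theorem pPOS : Stmt_POS := POS pFR
theorem pBO : Stmt_BO := BO
theorem pJD : Stmt_JD := JD
theorem pLD : Stmt_LD := LD
theorem pSD : Stmt_SD := SD
theorem pZD : Stmt_ZD := ZD pBO pJD pLD pSD
theorem pIB : Stmt_IB := IB
theorem pCT : Stmt_CT := CT
theorem pUP : Stmt_UP := UP pCR pCT
theorem pCHD : Stmt_CHD := CHD pCT
theorem pKER : Stmt_KER := KER
theorem pL4 : Stmt_L4 := L4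
theorem pLOGW : Stmt_LOGW := LOGW pL4
theorem pH2I : Stmt_H2I := H2I pZD pCT
theorem pAPB : Stmt_APB := APB pUP pH2I pCT
theorem pAV : Stmt_AV := AV pKER pCHD
theorem pMO : Stmt_MO := MO
theorem pAP : Stmt_AP := AP pAV pMO pCT
theorem pAPW : Stmt_APW := APW pKER pMO
theorem pFA : Stmt_FA := FA
theorem pFM : Stmt_FM := FM
theorem pFB : Stmt_FB := FB pFA
theorem pFC : Stmt_FC := FC pFA
theorem pSM : Stmt_SM := SM
theorem pFD1 : Stmt_FD1 := FD1
theorem pFD : Stmt_FD := FD pFA pFB pFD1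
theorem pAEG : Stmt_AEG := AEG pFA pFB
theorem pFX : Stmt_FX := FX
theorem pTR : Stmt_TR := TR
theorem pLSA : Stmt_LSA := LSA pZD pIB pAEG pFA
theorem pLSB : Stmt_LSB := LSB pLSA pUP pCT pFA pZD
theorem pLSG (hGB : Stmt_GB) (hUNIC : Stmt_UNIC) : Stmt_LSG := LSG hGB hUNIC pFA pFC pFD pSM
theorem pLS (hGB : Stmt_GB) (hUNIC : Stmt_UNIC) : Stmt_LS :=
  LS pLSB (pLSG hGB hUNIC) pID pPOS pUP pCT
theorem pBAD : Stmt_BAD := BAD pFA pFM pAEG
theorem pSEQ : Stmt_SEQ := SEQ (hAP := pAP) (hFX := pFX) (hTR := pTR) (hFM := pFM) (hBAD := pBAD)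
  (hFA := pFA)
theorem pCV : Stmt_CV := CV pCT
theorem pMIT (hGB : Stmt_GB) (hUNIC : Stmt_UNIC) : Stmt_MIT :=
  MIT (pLS hGB hUNIC) pCV pCT pPOS pFA
theorem pINT : Stmt_INT := INT pL4 pAPB pCT
theorem pMI (hGB : Stmt_GB) (hUNIC : Stmt_UNIC) : Stmt_MI :=
  MI (hL4 := pL4) (hAPB := pAPB) (hINT := pINT) (hSEQ := pSEQ) (hMIT := pMIT hGB hUNIC)
theorem pGAU : Stmt_GAU := GAU
theorem pW : Stmt_W := W pL4 pAPW pTR pGAU

end AllM

/-- The level set inequality. -/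
theorem MIfinal : Stmt_MI := AllM.pMI GB.all_GB GB.all_UNIC

/-- Integrability on compact sets. -/
theorem INTfinal : Stmt_INT := AllM.pINT

/-- Willmore's inequality, integrated over the levels. -/
theorem Wfinal : Stmt_W := AllM.pW

/-- The logarithm of the solution. -/
theorem LOGWfinal : Stmt_LOGW := AllM.pLOGW

theorem L4final : Stmt_L4 := AllM.pL4

theorem MOfinal : Stmt_MO := AllM.pMO

theorem LDfinal : Stmt_LD := AllM.pLD

theorem FRfinal : Stmt_FR := AllM.pFR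

end Pool.Agent.PFlow
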