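import Pool.Agent.PenroseSph.Defs

/-!
# Level set flows on two-ended initial data: common definitions

Everything is written in the global coordinates of `E3` (minus the origin). A function of class
`H²` is a continuous function together with its first and second derivatives in `L²`, given as
limits of smooth functions; geometric quantities are functions of the 2-jet `(p, M)`, `p_i = ∂_i w`
and `M_ij = ∂_i ∂_j w`.
-/

open MeasureTheory Filter Topology
open scoped ContDiff

namespace Pool.Agent.PFlow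

open Pool.Agent.PenroseSph

/-- Covectors, given by their components. -/
abbrev Cov := Fin 3 → ℝ

/-- Bilinear forms, given by their matrix of components. -/
abbrev Bil := Matrix (Fin 3) (Fin 3) ℝ

/-- `g` is a smooth Riemannian metric on the open set `U`. -/
structure MetricOn (U : Set E3) (g : TensorField) : Prop where
  smooth : ∀ i j, ContDiffOn ℝ ∞ (fun x => g x i j) U
  posDef : ∀ x ∈ U, (g x).PosDef

/-- `h` is a smooth symmetric tensor field on the open set `U`. -/
structure TensorOn (U : Set E3) (h : TensorField) : Prop where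
  smooth : ∀ i j, ContDiffOn ℝ ∞ (fun x => h x i j) U
  symm : ∀ x ∈ U, (h x).IsSymm

/-- The volume density of `g`. -/
noncomputable def volDen (g : TensorField) (x : E3) : ℝ := Real.sqrt (g x).det

/-- The value `B(v, w) = B_ij v^i w^j`. -/
def ev (B : Bil) (v w : Cov) : ℝ := ∑ i, ∑ j, B i j * v i * w j

/-- Raising the index of a covector: `g^{ij} p_j`. -/
noncomputable def raise (g : TensorField) (x : E3) (p : Cov) : Cov := fun i =>
  ∑ j, (g x)⁻¹ i j * p j

/-- The length `|p|_g` of a covector. -/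
noncomputable def len (g : TensorField) (x : E3) (p : Cov) : ℝ := Real.sqrt (ev (g x)⁻¹ p p)

/-- The unit vector `ν = p^♯ / |p|`. -/
noncomputable def nrm (g : TensorField) (x : E3) (p : Cov) : Cov := fun i =>
  raise g x p i / len g x p

/-- The covariant Hessian `M_ij - Γ^k_ij p_k` of a function with 2-jet `(p, M)` at `x`. -/
noncomputable def cHess (g : TensorField) (x : E3) (p : Cov) (M : Bil) : Bil :=
  Matrix.of fun i j => M i j - ∑ k, christoffel g k i j x * p k

/-- The trace `g^{ij} B_ij`. -/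
noncomputable def trg (g : TensorField) (x : E3) (B : Bil) : ℝ := ∑ i, ∑ j, (g x)⁻¹ i j * B i j

/-- The squared length `g^{ik} g^{jl} B_ij B_kl`. -/
noncomputable def nsq (g : TensorField) (x : E3) (B : Bil) : ℝ :=
  ∑ i, ∑ j, ∑ k, ∑ l, (g x)⁻¹ i k * (g x)⁻¹ j l * B i j * B k l

/-- `B(ν, ν)` for `ν = p^♯ / |p|`. -/
noncomputable def bnn (g : TensorField) (x : E3) (p : Cov) (B : Bil) : ℝ :=
  ev B (nrm g x p) (nrm g x p)

/-- The trace of `B` over the plane orthogonal to `ν`: `tr_g B - B(ν, ν)`. -/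
noncomputable def btan (g : TensorField) (x : E3) (p : Cov) (B : Bil) : ℝ :=
  trg g x B - bnn g x p B

/-- The trace of `B` with weight `ε` in the direction `ν`: `tr_g B - (1 - ε) B(ν, ν)`. -/
noncomputable def beps (ε : ℝ) (g : TensorField) (x : E3) (p : Cov) (B : Bil) : ℝ :=
  trg g x B - (1 - ε) * bnn g x p B

/-- The covector `dw` of a function. -/
noncomputable def grad (w : E3 → ℝ) (x : E3) : Cov := fun i => pd i w x

/-- The matrix of second partial derivatives of a function. -/
noncomputable def hess2 (w : E3 → ℝ) (x : E3) : Bil := Matrix.of fun i j => pd i (pd j w) x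

/-- `w` is of class `H²` and continuous on the open set `U`, with first derivatives `G` and second
derivatives `M`: on every compact subset it is the limit of smooth functions, uniformly and in the
`L²` sense together with the derivatives up to the second order. -/
structure H2On (U : Set E3) (w : E3 → ℝ) (G : E3 → Cov) (M : E3 → Bil) : Prop where
  cont : ContinuousOn w U
  memG : ∀ K : Set E3, IsCompact K → K ⊆ U → ∀ i, MemLp (fun x => G x i) 2 (volume.restrict K)
  memM : ∀ K : Set E3, IsCompact K → K ⊆ U → ∀ i j,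
    MemLp (fun x => M x i j) 2 (volume.restrict K)
  approx : ∀ K : Set E3, IsCompact K → K ⊆ U → ∃ v : ℕ → E3 → ℝ,
    (∀ n, ContDiff ℝ ∞ (v n)) ∧ TendstoUniformlyOn v w atTop K ∧
    (∀ i, Tendsto (fun n => ∫ x in K, (pd i (v n) x - G x i) ^ 2) atTop (𝓝 0)) ∧
    (∀ i j, Tendsto (fun n => ∫ x in K, (pd i (pd j (v n)) x - M x i j) ^ 2) atTop (𝓝 0))

/-- The equation of the function `u`: `Δu - (1-ε) ∇²u(ν,ν) + |∇u| (tr h - (1-ε) h(ν,ν)) = 0`
where `∇u ≠ 0`, and `∂²u = 0` where `∇u = 0`, almost everywhere on `U`. -/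
def EqU (U : Set E3) (ε : ℝ) (g h : TensorField) (G : E3 → Cov) (M : E3 → Bil) : Prop :=
  ∀ᵐ x ∂(volume.restrict U),
    (G x ≠ 0 → beps ε g x (G x) (cHess g x (G x) (M x))
      + len g x (G x) * beps ε g x (G x) (h x) = 0) ∧ (G x = 0 → M x = 0)

/-- The equation of the function `w = -ε log u`:
`Δw - (1-ε) ∇²w(ν,ν) = |∇w|² + |∇w| (tr h - (1-ε) h(ν,ν))` where `∇w ≠ 0`, and `∂²w = 0` where
`∇w = 0`, almost everywhere on `U`. -/
def EqW (U : Set E3) (ε : ℝ) (g h : TensorField) (G : E3 → Cov) (M : E3 → Bil) : Prop :=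
  ∀ᵐ x ∂(volume.restrict U),
    (G x ≠ 0 → beps ε g x (G x) (cHess g x (G x) (M x))
      = len g x (G x) ^ 2 + len g x (G x) * beps ε g x (G x) (h x)) ∧ (G x = 0 → M x = 0)

/-- No islands: the supremum and the infimum of `w` over a relatively compact open subset of `U` are
attained on its boundary. -/
def NoIsland (U : Set E3) (w : E3 → ℝ) : Prop :=
  ∀ D : Set E3, IsOpen D → IsCompact (closure D) → closure D ⊆ U → ∀ x ∈ D,
    (∃ y ∈ frontier D, w x ≤ w y) ∧ (∃ y ∈ frontier D, w y ≤ w x)

/-- The tensor `B = ∇²w / |∇w| - h`. -/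
noncomputable def tenB (g h : TensorField) (x : E3) (p : Cov) (M : Bil) : Bil :=
  (len g x p)⁻¹ • cHess g x p M - h x

/-- The flux density `Φ = |∇w| tr_S ∇²w - |∇w|³/(2-ε) - (|∇w|² tr h - h(∇w, ∇w))`; it is
`|∇w|` times the integrand `H |∇w| - |∇w|²/(2-ε) - |∇w| p` of the monotone quantity. -/
noncomputable def flux (ε : ℝ) (g h : TensorField) (x : E3) (p : Cov) (M : Bil) : ℝ :=
  len g x p * btan g x p (cHess g x p M) - len g x p ^ 3 / (2 - ε)
    - (len g x p ^ 2 * trg g x (h x) - ev (h x) (raise g x p) (raise g x p))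

/-- `z = H - p - 2|∇w|/(2-ε)`, with `H - p = tr_S B`. -/
noncomputable def zed (ε : ℝ) (g h : TensorField) (x : E3) (p : Cov) (M : Bil) : ℝ :=
  btan g x p (tenB g h x p M) - 2 * len g x p / (2 - ε)

/-- The dissipation
`𝒢 = |B(ν,·)^T|² + |B_S°|²/2 + (1/ε - 1/4) z² + 2 t |∇w| / (2-ε)`, where the first two terms are
`|B|²/2 - B(ν,ν)²/2 - (tr_S B)²/4` and `t = h(ν,ν) + (tr_S h)/2`. -/
noncomputable def diss (ε : ℝ) (g h : TensorField) (x : E3) (p : Cov) (M : Bil) : ℝ :=
  nsq g x (tenB g h x p M) / 2 - bnn g x p (tenB g h x p M) ^ 2 / 2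
    - btan g x p (tenB g h x p M) ^ 2 / 4
    + (1 / ε - 1 / 4) * zed ε g h x p M ^ 2
    + 2 * (bnn g x p (h x) + btan g x p (h x) / 2) * len g x p / (2 - ε)

/-- `μ - J(ν)`. -/
noncomputable def matter (g h : TensorField) (x : E3) (p : Cov) : ℝ :=
  energyDensity g h x - ∑ j, momentumDensity g h j x * nrm g x p j

/-- The sum of `h` over every plane is nonnegative (`h` is 2-nonnegative) at the points of `U`. -/
def TwoNonneg (U : Set E3) (g h : TensorField) : Prop :=
  ∀ x ∈ U, ∀ v : Cov, ev (g x) v v = 1 → ev (h x) v v ≤ trg g x (h x)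

end Pool.Agent.PFlow
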