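import Pool.Agent.PFlow.Sol

/-!
# Definitions of the energy block and of the theorem
-/

open MeasureTheory Filter Topology
open scoped ContDiff ENNReal

namespace Pool.Agent.PFlow

open Pool.Agent.PenroseSph

/-! ### The theorem -/

/-- The inversion `x ↦ x / |x|²` of `E3` minus the origin. -/
noncomputable def inversion (x : E3) : E3 := (‖x‖ ^ 2)⁻¹ • x

/-- The Jacobian matrix `∂ y^a / ∂ x^i = (δ_ai - 2 x_a x_i / |x|²) / |x|²` of the inversion. -/
noncomputable def inversionJac (x : E3) : Bil :=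
  Matrix.of fun a i => ((if a = i then 1 else 0) - 2 * x a * x i / ‖x‖ ^ 2) / ‖x‖ ^ 2

/-- The components of a covariant 2-tensor field in the coordinates `y = x / |x|²`. -/
noncomputable def inverted (g : TensorField) : TensorField := fun y =>
  (inversionJac y).transpose * g (inversion y) * inversionJac y

/-- The decay of asymptotically flat data outside the ball of radius `R`, with constant `C`. -/
def DecayFrom (C R : ℝ) (g h : TensorField) : Prop :=
  ∀ x : E3, R ≤ ‖x‖ → ∀ i j,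
    |g x i j - (1 : Bil) i j| ≤ C / ‖x‖ ∧
    (∀ k, |pd k (fun y => g y i j) x| ≤ C / ‖x‖ ^ 2) ∧
    (∀ k l, |pd k (pd l (fun y => g y i j)) x| ≤ C / ‖x‖ ^ 3) ∧
    |h x i j| ≤ C / ‖x‖ ^ 2 ∧
    (∀ k, |pd k (fun y => h y i j) x| ≤ C / ‖x‖ ^ 3)

/-- Two-ended initial data on `ℝ³` minus the origin (that is, on `S² × ℝ`): a smooth metric and a
smooth symmetric tensor, asymptotically flat at infinity and, in the inverted coordinates
`y = x / |x|²`, at the origin. -/
structure TwoEnded (g h : TensorField) : Prop where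
  metric : MetricOn {0}ᶜ g
  tensor : TensorOn {0}ᶜ h
  end_one : ∃ C R : ℝ, DecayFrom C R g h
  end_two : ∃ C R : ℝ, DecayFrom C R (inverted g) (inverted h)

/-- At every point the traces of `h` over the planes of the tangent space are all nonnegative, or
all nonpositive. (The trace over the plane orthogonal to the unit vector `v` is
`tr_g h - h(v, v)`.) -/
def PlaneSign (g h : TensorField) : Prop :=
  ∀ x : E3, x ≠ 0 →
    (∀ v : Cov, ev (g x) v v = 1 → ev (h x) v v ≤ trg g x (h x)) ∨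
    (∀ v : Cov, ev (g x) v v = 1 → trg g x (h x) ≤ ev (h x) v v)

/-- `h` is a multiple of the metric at every point (pure trace), or `h = o(|x|⁻²)` at infinity. -/
def PureTraceOrFast (g h : TensorField) : Prop :=
  (∃ k : E3 → ℝ, ∀ x : E3, x ≠ 0 → h x = k x • g x) ∨
  (∀ i j, Tendsto (fun x : E3 => ‖x‖ ^ 2 * h x i j) (Bornology.cobounded E3) (𝓝 0))

/-- The vector fields admitted in the definition of the perimeter: smooth, compactly supported in
`ℝ³` minus the origin, of `g`-length at most `1`. -/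
structure TestField (g : TensorField) (X : E3 → Cov) : Prop where
  smooth : ∀ i, ContDiff ℝ ∞ (fun x => X x i)
  compact : HasCompactSupport X
  avoids : (0 : E3) ∉ tsupport X
  short : ∀ x, x ≠ 0 → ev (g x) (X x) (X x) ≤ 1

/-- The perimeter of an open set with respect to `g`: the supremum of `∫_U div_g X dV_g` over the
test fields. For an open set with smooth boundary it is the `g`-area of its boundary. -/
noncomputable def perimeter (g : TensorField) (U : Set E3) : ℝ≥0∞ :=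
  ⨆ (X : E3 → Cov) (_ : TestField g X),
    ENNReal.ofReal (∫ x in U, ∑ i, pd i (fun y => volDen g y * X y i) x)

/-- `U` is an open subset of `ℝ³` minus the origin with smooth boundary which contains a punctured
ball about the origin (the end at the origin) and is bounded (does not contain the end at
infinity). -/
structure Separates (U : Set E3) : Prop where
  isOpen : IsOpen U
  zero_notMem : (0 : E3) ∉ U
  contains : ∃ a : ℝ, 0 < a ∧ ∀ x : E3, 0 < ‖x‖ → ‖x‖ < a → x ∈ U
  bounded : ∃ b : ℝ, ∀ x ∈ U, ‖x‖ < b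
  smooth : ∀ x ∈ frontier U, x ≠ 0 → ∃ f : E3 → ℝ, ContDiffAt ℝ ∞ f x ∧ fderiv ℝ f x ≠ 0 ∧
    ∀ᶠ y in 𝓝 x, (y ∈ U ↔ f y < 0)

/-- The infimum of the boundary areas of the smooth open sets that contain the end at the origin
and not the end at infinity. -/
noncomputable def minArea (g : TensorField) : ℝ≥0∞ := ⨅ (U : Set E3) (_ : Separates U), perimeter g U

/-- **The main theorem.** -/
def Stmt_MAIN : Prop :=
  ∀ (g h : TensorField) (m : ℝ), TwoEnded g h → DominantEnergy 0 g h → PlaneSign g h →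
    PureTraceOrFast g h → IsTotalMass g m →
    minArea g ≠ ⊤ ∧ Real.sqrt ((minArea g).toReal / (16 * Real.pi)) ≤ m

/-! ### Constants and auxiliary functions -/

/-- The exponent `p = 2/ε - 1`. -/
noncomputable def pe (ε : ℝ) : ℝ := 2 / ε - 1

/-- `Λ = (4-ε)/(ε(2-ε))`. -/
noncomputable def lam (ε : ℝ) : ℝ := (4 - ε) / (ε * (2 - ε))

/-- The closed annulus. -/
def cAnn (a b : ℝ) : Set E3 := {x : E3 | a ≤ ‖x‖ ∧ ‖x‖ ≤ b}

/-- The Euclidean size of a matrix. -/
noncomputable def msz (B : Bil) : ℝ := Real.sqrt (∑ i, ∑ j, B i j ^ 2)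

/-- The Euclidean size of a covector. -/
noncomputable def vsz (p : Cov) : ℝ := Real.sqrt (∑ i, p i ^ 2)

/-- The radial function. -/
noncomputable def rad (x : E3) : ℝ := ‖x‖

/-- The quotient `𝓑 = [Δr - (1-ε)∇²r(ν,ν) - |dr|(tr h - (1-ε)h(ν,ν))]/|dr|²`, `r = |x|`. -/
noncomputable def barB (ε : ℝ) (g h : TensorField) (x : E3) : ℝ :=
  (beps ε g x (grad rad x) (cHess g x (grad rad x) (hess2 rad x))
    - len g x (grad rad x) * beps ε g x (grad rad x) (h x)) / len g x (grad rad x) ^ 2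

/-- The model of `barB`. -/
noncomputable def bE (ε r : ℝ) : ℝ := 2 / r * (r ^ 2 - 1 + ε) / (r ^ 2 + 1)

/-- The integrand `t^(p-1) (1+t²)^(-p) exp(-σ C arctan t / ε)` of the barriers. -/
noncomputable def phiDen (ε σ C t : ℝ) : ℝ :=
  t ^ (pe ε - 1) * (1 + t ^ 2) ^ (-pe ε) * Real.exp (-(σ * C * Real.arctan t / ε))

/-- The radial barrier function `Φ_σ(r) = ∫_r^∞ phiDen`. -/
noncomputable def phiB (ε σ C r : ℝ) : ℝ := ∫ t in Set.Ioi r, phiDen ε σ C t

/-- The `g`-length of the momentum density. -/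
noncomputable def jlen (g h : TensorField) (x : E3) : ℝ :=
  Real.sqrt (ev (g x)⁻¹ (fun i => momentumDensity g h i x) (fun i => momentumDensity g h i x))

/-- The energy surplus `μ - |J|`. -/
noncomputable def surplus (g h : TensorField) (x : E3) : ℝ := energyDensity g h x - jlen g h x

/-- The Euclidean scalar curvature in the linear approximation,
`𝓛 = Σ_ij (∂_i ∂_j g_ij - ∂_j ∂_j g_ii)`. -/
noncomputable def linR (g : TensorField) (x : E3) : ℝ :=
  ∑ i, ∑ j, (pd i (pd j (fun y => g y i j)) x - pd j (pd j (fun y => g y i i)) x)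

/-! ### Cut-offs and the change of sign of `h` -/

/-- The smooth cut-off: `1` for `s ≤ 1`, `0` for `s ≥ 2`. -/
noncomputable def kap (s : ℝ) : ℝ := Real.smoothTransition (2 - s)

/-- The factor `t / √(t² + η²)`, a smooth substitute for the sign of `t`. -/
noncomputable def hatF (η t : ℝ) : ℝ := t / Real.sqrt (t ^ 2 + η ^ 2)

/-- The tensor `ĥ = t (t² + η²)^(-1/2) h`, `t = tr_g h`. -/
noncomputable def hat (η : ℝ) (g h : TensorField) : TensorField := fun x =>
  hatF η (trg g x (h x)) • h x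

/-- The defect `η²/2 + 2 η² |t| |dt| (t² + η²)^(-3/2)` caused by the change of sign. -/
noncomputable def eEta (η : ℝ) (g h : TensorField) (x : E3) : ℝ :=
  η ^ 2 / 2 + 2 * η ^ 2 * |trg g x (h x)| * len g x (grad (fun y => trg g y (h y)) x)
    / (Real.sqrt (trg g x (h x) ^ 2 + η ^ 2)) ^ 3

/-- The inner cut-off: `0` for `|x| ≤ 1/(32R)`, `1` for `|x| ≥ 1/(16R)`. -/
noncomputable def kin (R : ℝ) (x : E3) : ℝ := 1 - kap (32 * R * ‖x‖)

/-- The modified metric: `g` for `1/(16R) ≤ |x| ≤ ℓ`, Euclidean for `|x| ≥ 2ℓ` and near `0`. -/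
noncomputable def modG (l R : ℝ) (g : TensorField) : TensorField := fun x =>
  1 + (kap (‖x‖ / l) * kin R x) • (g x - 1)

/-- The modified tensor: `ĥ` for `1/(8R) ≤ |x| ≤ ℓ/2`, zero for `|x| ≥ ℓ` and for
`|x| ≤ 1/(16R)`; it is supported in the region where the modified metric is `g`. -/
noncomputable def modH (η l R : ℝ) (g h : TensorField) : TensorField := fun x =>
  (kap (2 * ‖x‖ / l) * kin (R / 2) x) • hat η g h x

/-- The modified data: `C` is a constant independent of `ℓ`, `R` and of the defect `e`. -/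
structure Modified (g h : TensorField) (C l R : ℝ) (g' h' : TensorField) (e : E3 → ℝ) : Prop where
  metric : MetricOn Set.univ g'
  tensor : TensorOn Set.univ h'
  twoNonneg : TwoNonneg Set.univ g' h'
  same : ∀ x : E3, 1 / (16 * R) < ‖x‖ → ‖x‖ < l → g' x = g x
  flat : ∀ x : E3, 2 * l ≤ ‖x‖ → g' x = 1
  supp : ∀ x : E3, l ≤ ‖x‖ → h' x = 0
  barrier : ∀ ε : ℝ, 0 < ε → ε ≤ 1 → ∀ x : E3, 1 / (8 * R) ≤ ‖x‖ →
    |barB ε g' h' x - bE ε ‖x‖| ≤ C / (1 + ‖x‖ ^ 2)
  decay1 : DecayFrom C 1 g' 0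
  hsmall : ∀ x : E3, 1 ≤ ‖x‖ → ∀ i j, |h' x i j| ≤ C / ‖x‖ ^ 2
  decay2 : DecayFrom C 1 (inverted g) 0
  hsmall2 : ∀ x : E3, 1 / (8 * R) ≤ ‖x‖ → ‖x‖ ≤ 1 → nsq g' x (h' x) ≤ C * ‖x‖ ^ 4
  elliptic : ∀ x : E3, 1 ≤ ‖x‖ → ∀ v : Cov, (∑ i, v i ^ 2) ≤ C * ev (g' x) v v ∧
    ev (g' x) v v ≤ C * ∑ i, v i ^ 2
  defect_cont : Continuous e
  defect_nonneg : ∀ x, 0 ≤ e x
  core : ∀ x : E3, 1 / (8 * R) < ‖x‖ → ‖x‖ < l / 2 → -e x ≤ surplus g' h' x
  shell : ∀ x : E3, l / 2 < ‖x‖ → ‖x‖ < l → -e x - C * (msz (h x) / l + msz (h x) ^ 2)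
    ≤ surplus g' h' x
  trans : ∀ x : E3, l < ‖x‖ → ‖x‖ < 2 * l →
    |surplus g' h' x * volDen g' x - linR g' x / 2| ≤ C / l ^ 4
  trans_sup : ∀ x : E3, l < ‖x‖ → ‖x‖ < 2 * l → |linR g' x| ≤ C / l ^ 3
  flat_surplus : ∀ x : E3, 2 * l < ‖x‖ → surplus g' h' x = 0
  mass : ∫ x in cAnn l (2 * l), linR g' x = -(16 * Real.pi * massIntegral g l)

end Pool.Agent.PFlow
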