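import Pool.Agent.PFlow.DefsE

/-!
# Definitions for the second part of the energy block: levels and test functions
-/

open MeasureTheory Filter Topology
open scoped ContDiff ENNReal

namespace Pool.Agent.PFlow

open Pool.Agent.PenroseSph

/-- `w = -ε log u`. -/
noncomputable def wOf (ε : ℝ) (u : E3 → ℝ) (x : E3) : ℝ := -ε * Real.log (u x)

/-- The first derivatives of `w = -ε log u`. -/
noncomputable def gOf (ε : ℝ) (u : E3 → ℝ) (G : E3 → Cov) (x : E3) : Cov := fun i =>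
  -ε * (G x i / u x)

/-- The second derivatives of `w = -ε log u`. -/
noncomputable def mOf (ε : ℝ) (u : E3 → ℝ) (G : E3 → Cov) (M : E3 → Bil) (x : E3) : Bil :=
  Matrix.of fun i j => -ε * (M x i j / u x - G x i * G x j / u x ^ 2)

/-- The level `s_b = ε c (4ℓ)^(-p)` near the first end of the flow. -/
noncomputable def sbE (ε c l : ℝ) : ℝ := ε * c * (4 * l) ^ (-pe ε)

/-- The level `s₂ = (2-ε) log (4ℓ) + γ`. -/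
noncomputable def s2E (ε γ l : ℝ) : ℝ := (2 - ε) * Real.log (4 * l) + γ

/-- The level `s_M = (2-ε) log (R/2) - γ`. -/
noncomputable def sME (ε γ R : ℝ) : ℝ := (2 - ε) * Real.log (R / 2) - γ

/-- The location of the level sets of `w = -ε log u` in the annulus `1/R < |x| < R`. -/
structure Located (ε c C₂ γ κ l R : ℝ) (u : E3 → ℝ) : Prop where
  pos : ∀ x ∈ Ann (1 / R) R, 0 < u x
  outer : ∀ x : E3, 1 ≤ ‖x‖ → ‖x‖ ≤ R / 2 → |wOf ε u x - (2 - ε) * Real.log ‖x‖| ≤ γ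
  outer_low : ∀ x : E3, 1 ≤ ‖x‖ → ‖x‖ < R → (2 - ε) * Real.log ‖x‖ - γ ≤ wOf ε u x
  inner : ∀ x : E3, κ / l ≤ ‖x‖ → ‖x‖ ≤ 1 → 1 - u x ≤ C₂ * ‖x‖ ^ pe ε
  inner_half : ∀ x : E3, κ / l ≤ ‖x‖ → ‖x‖ ≤ 1 / l → 1 / 2 ≤ u x
  low : ∀ x ∈ Ann (1 / R) R, wOf ε u x ≤ sbE ε c l → ‖x‖ ≤ 1 / (4 * l)
  low' : ∀ x ∈ Ann (1 / R) R, sbE ε c l / 4 ≤ wOf ε u x → κ / l ≤ ‖x‖
  mid : ∀ x ∈ Ann (1 / R) R, ‖x‖ < 4 * l → wOf ε u x < s2E ε γ l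

/-- A fixed smooth bump on `(0,1)` with integral one. -/
structure IsBump (β : ℝ → ℝ) : Prop where
  smooth : ContDiff ℝ ∞ β
  nonneg : ∀ s, 0 ≤ β s
  supp : ∀ s, s ≤ 1 / 4 ∨ 3 / 4 ≤ s → β s = 0
  integral_eq : ∫ s, β s = 1

/-- The facts about the function `w` on the annulus that the test function arguments use. `vol` is
the volume density, `X = |∇w|`, `Φ` the flux density, `D = |∇w| 𝒢`, `S = |∇w| (μ - |J|)`. -/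
structure Abs (ε : ℝ) (Ω : Set E3) (vol w X Φ D S : E3 → ℝ) (sb s₂ sM B₁ B₂ : ℝ) : Prop where
  measOmega : MeasurableSet Ω
  vol_nonneg : ∀ x, 0 ≤ vol x
  X_nonneg : ∀ x, 0 ≤ X x
  D_nonneg : ∀ᵐ x ∂(volume.restrict Ω), 0 ≤ D x
  meas_w : Measurable w
  int_vol : ∀ s s', sb / 4 < s → s < s' → s' < sM →
    IntegrableOn vol (Ω ∩ {x | s ≤ w x ∧ w x ≤ s'})
  int_X : ∀ s s', sb / 4 < s → s < s' → s' < sM →
    IntegrableOn (fun x => X x ^ 3 * vol x) (Ω ∩ {x | s ≤ w x ∧ w x ≤ s'})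
  meas_X : AEStronglyMeasurable X (volume.restrict Ω)
  int_Phi : ∀ s s', sb / 4 < s → s < s' → s' < sM →
    IntegrableOn (fun x => Φ x * vol x) (Ω ∩ {x | s ≤ w x ∧ w x ≤ s'})
  int_D : ∀ s s', sb / 4 < s → s < s' → s' < sM →
    IntegrableOn (fun x => D x * vol x) (Ω ∩ {x | s ≤ w x ∧ w x ≤ s'})
  int_S : ∀ s s', sb / 4 < s → s < s' → s' < sM →
    IntegrableOn (fun x => S x * vol x) (Ω ∩ {x | s ≤ w x ∧ w x ≤ s'})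
  mi : ∀ ψ : ℝ → ℝ, ContDiff ℝ 1 ψ → (∀ s, 0 ≤ ψ s) → HasCompactSupport ψ →
    tsupport ψ ⊆ Set.Ioo (sb / 4) sM →
    -(∫ x in Ω, deriv ψ (w x) * Φ x * vol x) ≤ 4 * Real.pi * (∫ s, ψ s)
      - 1 / (2 - ε) * (∫ x in Ω, ψ (w x) * Φ x * vol x)
      - ∫ x in Ω, ψ (w x) * (S x + D x) * vol x
  xid : ∀ ψ : ℝ → ℝ, ContDiff ℝ 1 ψ → HasCompactSupport ψ → tsupport ψ ⊆ Set.Ioo s₂ sM →
    ∫ x in Ω, ψ (w x) * Φ x * vol x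
      = 1 / (2 - ε) * ∫ x in Ω, (ψ (w x) + ε * deriv ψ (w x)) * X x ^ 3 * vol x
  window : ∀ s, s₂ ≤ s → s + 1 ≤ sM →
    ∫ x in Ω ∩ {x | s < w x ∧ w x < s + 1}, X x ^ 3 * vol x ≤ B₁
  inner : ∀ (ψ : ℝ → ℝ) (A : ℝ), ContDiff ℝ 1 ψ → HasCompactSupport ψ →
    tsupport ψ ⊆ Set.Ioo (sb / 4) sb → (∀ s, |ψ s| ≤ A ∧ |deriv ψ s| ≤ A) →
    |∫ x in Ω, ψ (w x) * Φ x * vol x| ≤ B₂ * A
  willmore : ∀ ψ : ℝ → ℝ, Continuous ψ → (∀ s, 0 ≤ ψ s) → HasCompactSupport ψ →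
    tsupport ψ ⊆ Set.Ioo s₂ sM →
    4 * Real.pi * (2 - ε) * (∫ s, ψ s) - ∫ x in Ω, ψ (w x) * Φ x * vol x
      ≤ 1 / lam ε * ∫ x in Ω, ψ (w x) * D x * vol x
  flux : ∀ ψ : ℝ → ℝ, ContDiff ℝ 1 ψ → (∀ s, 0 ≤ ψ s) → HasCompactSupport ψ →
    tsupport ψ ⊆ Set.Ioo (sb / 4) sM →
    ∫ x in Ω, deriv ψ (w x) * (Real.exp (-w x) * X x ^ (1 + ε)) * vol x ≤ 0

/-- The conserved flux, evaluated on the levels between `s₂` and `s₂ + 1`. -/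
noncomputable def jInf (ε : ℝ) (β : ℝ → ℝ) (Ω : Set E3) (vol w X : E3 → ℝ) (s₂ : ℝ) : ℝ :=
  ∫ x in Ω, β (w x - s₂) * (Real.exp (-w x) * X x ^ (1 + ε)) * vol x

end Pool.Agent.PFlow
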