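import Pool.Agent.PFlow.DefsF

/-!
# The setup of the energy block: parameters, modified data and solution
-/

open MeasureTheory Filter Topology
open scoped ContDiff ENNReal

namespace Pool.Agent.PFlow

open Pool.Agent.PenroseSph

/-- The parameters which do not depend on `ℓ`, `R`, `η`. -/
structure Par where
  /-- the exponent `ε` -/
  eps : ℝ
  /-- the constant of the modified data -/
  C : ℝ
  /-- the constant `c` of `Located` -/
  c : ℝ
  /-- the constant `C₂` of `Located` -/
  C2 : ℝ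
  /-- the constant `γ` of `Located` -/
  gam : ℝ
  /-- the constant `κ` of `Located` -/
  kap : ℝ

/-- The parameters `ℓ`, `R`, `η`, the data, the modified data and the solution. -/
structure Dat where
  /-- the radius `ℓ` of the cut-off -/
  l : ℝ
  /-- the radius `R` of the annulus -/
  R : ℝ
  /-- the closeness parameter of the solution -/
  eta : ℝ
  /-- the metric -/
  g : TensorField
  /-- the tensor -/
  h : TensorField
  /-- the modified metric -/
  g' : TensorField
  /-- the modified tensor -/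
  h' : TensorField
  /-- the defect -/
  e : E3 → ℝ
  /-- the solution -/
  u : E3 → ℝ
  /-- its first derivatives -/
  G : E3 → Cov
  /-- its second derivatives -/
  M : E3 → Bil

/-- `K = 4 exp ((1 + 2γ)/(2 - ε))`. -/
noncomputable def kE (ε γ : ℝ) : ℝ := 4 * Real.exp ((1 + 2 * γ) / (2 - ε))

/-- All hypotheses on the modified data and the solution. -/
structure Setup (P : Par) (D : Dat) : Prop where
  eps_pos : 0 < P.eps
  eps_le : P.eps ≤ 1 / 2
  C_pos : 0 < P.C
  c_pos : 0 < P.c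
  c_le : P.c ≤ 1
  C2_pos : 0 < P.C2
  gam_pos : 0 < P.gam
  kap_pos : 0 < P.kap
  kap_le : P.kap ≤ 1 / 8
  l_ge : 4 ≤ D.l
  R_ge : kE P.eps P.gam ^ 4 * D.l ≤ D.R
  R_ge' : 2 * D.l / P.kap ≤ D.R
  metric0 : MetricOn {0}ᶜ D.g
  tensor0 : TensorOn {0}ᶜ D.h
  hdecay : ∀ x : E3, 1 ≤ ‖x‖ → ∀ i j, |D.h x i j| ≤ P.C / ‖x‖ ^ 2
  ell2 : ∀ y : E3, 1 ≤ ‖y‖ → ∀ v : Cov, (∑ i, v i ^ 2) ≤ P.C * ev (inverted D.g y) v v ∧
    ev (inverted D.g y) v v ≤ P.C * ∑ i, v i ^ 2
  modified : Modified D.g D.h P.C D.l D.R D.g' D.h' D.e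
  sol : Solution P.eps (1 / D.R) D.R D.eta D.g' D.h' D.u D.G D.M
  located : Located P.eps P.c P.C2 P.gam P.kap D.l D.R D.u

namespace Dat

variable (D : Dat) (P : Par)

/-- The annulus `1/R < |x| < R`. -/
def Om : Set E3 := Ann (1 / D.R) D.R

/-- The volume density of the modified metric. -/
noncomputable def vol (x : E3) : ℝ := volDen D.g' x

/-- `w = -ε log u`. -/
noncomputable def w (x : E3) : ℝ := wOf P.eps D.u x

/-- The first derivatives of `w`. -/
noncomputable def Gw (x : E3) : Cov := gOf P.eps D.u D.G x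

/-- The second derivatives of `w`. -/
noncomputable def Mw (x : E3) : Bil := mOf P.eps D.u D.G D.M x

/-- `|∇w|`. -/
noncomputable def X (x : E3) : ℝ := len D.g' x (D.Gw P x)

/-- The flux density. -/
noncomputable def Phi (x : E3) : ℝ := flux P.eps D.g' D.h' x (D.Gw P x) (D.Mw P x)

/-- `|∇w|` times the dissipation. -/
noncomputable def Di (x : E3) : ℝ := D.X P x * diss P.eps D.g' D.h' x (D.Gw P x) (D.Mw P x)

/-- `|∇w|` times the energy surplus. -/
noncomputable def Su (x : E3) : ℝ := D.X P x * surplus D.g' D.h' x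

/-- The weight `φ = e^{w/(2-ε)} |∇w|`. -/
noncomputable def ph (x : E3) : ℝ := Real.exp (D.w P x / (2 - P.eps)) * D.X P x

/-- The level `s_b`. -/
noncomputable def sb : ℝ := sbE P.eps P.c D.l

/-- The level `s₂`. -/
noncomputable def s2 : ℝ := s2E P.eps P.gam D.l

/-- The level `s_M`. -/
noncomputable def sM : ℝ := sME P.eps P.gam D.R

/-- The radius `K ℓ`. -/
noncomputable def Kl : ℝ := kE P.eps P.gam * D.l

/-- The total defect `∫ φ e dV` over the core. -/
noncomputable def Nd : ℝ :=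
  ∫ x in cAnn (P.kap / D.l) D.l ∩ {x | D.sb P / 2 ≤ D.w P x}, D.ph P x * D.e x * D.vol x

/-- The mean of `|h|`. -/
noncomputable def th : ℝ := ∫ x in cAnn (D.l / 2) D.l, msz (D.h x) / D.l

/-- The error of the cut-off at the level `se`. -/
noncomputable def er (se : ℝ) : ℝ := Real.exp (D.s2 P / (2 - P.eps)) *
  Real.exp (-((lam P.eps / 2 - 1 / (2 - P.eps)) * (se - D.s2 P)))

end Dat

/-- Integrability over the regions between two levels. -/
def LvlInt (P : Par) (D : Dat) (f : E3 → ℝ) : Prop :=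
  ∀ s s', D.sb P / 4 < s → s < s' → s' < D.sM P →
    IntegrableOn f (D.Om ∩ {x | s ≤ D.w P x ∧ D.w P x ≤ s'})

/-- The abstract facts for the solution, with the constants `B` and `B ℓ^{-(2p+1)}`. -/
def AbsOf (P : Par) (D : Dat) (B : ℝ) : Prop :=
  Abs P.eps D.Om D.vol (D.w P) (D.X P) (D.Phi P) (D.Di P) (D.Su P) (D.sb P) (D.s2 P) (D.sM P)
    B (B * D.l ^ (-(2 * pe P.eps + 1)))

/-- The level `se` where the test function is cut off, together with the smallness of the errors. -/
structure Cut (P : Par) (D : Dat) (se : ℝ) : Prop where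
  lower : D.s2 P + 1 + 2 * P.gam ≤ se
  upper : se + 1 < D.sM P
  err : D.er P se ≤ 1
  def_le : D.Nd P ≤ 1

/-- The weight is almost equal to the constant `lm` on `ℓ/2 ≤ |x| ≤ K ℓ`. -/
structure Lam (P : Par) (D : Dat) (B₃ lm : ℝ) : Prop where
  nonneg : 0 ≤ lm
  le : lm ≤ B₃
  int : IntegrableOn (fun x => (Real.sqrt (D.ph P x) - Real.sqrt lm) ^ 2) (cAnn (D.l / 2) (D.Kl P))
  close : (∫ x in cAnn (D.l / 2) (D.Kl P), (Real.sqrt (D.ph P x) - Real.sqrt lm) ^ 2)
    ≤ B₃ * D.l ^ 2

end Pool.Agent.PFlow
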