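import Pool.Agent.PFlow.StmtsM

/-!
# FX: a function without islands is not changed by filling
-/

open MeasureTheory Filter Topology
open scoped ContDiff

namespace Pool.Agent.PFlow

open Pool.Agent.PenroseSph

namespace MFX

/-- Connected components of open sets. -/
lemma comp_props (P : Set E3) (hP : IsOpen P) {y : E3} (hy : y ∈ P) :
    IsOpen (connectedComponentIn P y) ∧ IsPreconnected (connectedComponentIn P y) ∧
      y ∈ connectedComponentIn P y ∧ connectedComponentIn P y ⊆ P ∧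
      ∀ y' ∈ frontier (connectedComponentIn P y), y' ∉ P := by
  have h1 : IsOpen (connectedComponentIn P y) := hP.connectedComponentIn
  refine ⟨h1, isPreconnected_connectedComponentIn, mem_connectedComponentIn hy,
    connectedComponentIn_subset P y, ?_⟩
  intro y' hy' hP'
  have h2 : y' ∈ closure (connectedComponentIn P y) := frontier_subset_closure hy'
  have h3 : y' ∉ connectedComponentIn P y := by
    intro h4
    rw [h1.frontier_eq] at hy'
    exact hy'.2 h4
  have h4 : IsPreconnected (insert y' (connectedComponentIn P y)) := by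
    refine isPreconnected_connectedComponentIn.subset_closure (Set.subset_insert _ _) ?_
    exact Set.insert_subset h2 subset_closure
  have h5 := h4.subset_connectedComponentIn (F := P) (x := y)
    (Set.mem_insert_of_mem _ (mem_connectedComponentIn hy))
    (Set.insert_subset hP' (connectedComponentIn_subset P y))
  exact h3 (h5 (Set.mem_insert _ _))

/-- A preconnected set which meets the component lies in it. -/
lemma comp_join (P Q : Set E3) {y x : E3} (hQ : IsPreconnected Q) (hQP : Q ⊆ P)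
    (hx : x ∈ connectedComponentIn P y) (hxQ : x ∈ Q) : Q ⊆ connectedComponentIn P y := by
  rw [connectedComponentIn_eq hx]
  exact hQ.subset_connectedComponentIn hxQ hQP

/-- The exterior of a ball is preconnected. -/
lemma ext_preconnected (r : ℝ) (hr : 0 < r) : IsPreconnected {x : E3 | r ≤ ‖x‖} := by
  have hrank : 1 < Module.rank ℝ E3 := by
    have : Module.finrank ℝ E3 = 3 := by simp
    rw [← Module.finrank_eq_rank, this]
    norm_num
  have h1 : IsPreconnected ((Metric.sphere (0 : E3) 1) ×ˢ (Set.Ici r)) :=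
    (isPreconnected_sphere hrank 0 1).prod isPreconnected_Ici
  have h2 : {x : E3 | r ≤ ‖x‖} =
      (fun p : E3 × ℝ => p.2 • p.1) '' ((Metric.sphere (0 : E3) 1) ×ˢ (Set.Ici r)) := by
    ext x
    constructor
    · intro hx
      have hx1 : r ≤ ‖x‖ := hx
      have hx0 : ‖x‖ ≠ 0 := (lt_of_lt_of_le hr hx1).ne'
      refine ⟨(‖x‖⁻¹ • x, ‖x‖), ⟨?_, hx1⟩, ?_⟩
      · show ‖x‖⁻¹ • x ∈ Metric.sphere (0 : E3) 1
        rw [mem_sphere_zero_iff_norm, norm_smul, norm_inv, norm_norm, inv_mul_cancel₀ hx0]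
      · show ‖x‖ • (‖x‖⁻¹ • x) = x
        rw [smul_smul, mul_inv_cancel₀ hx0, one_smul]
    · rintro ⟨⟨u, t⟩, ⟨hu, ht⟩, rfl⟩
      have hu1 : ‖u‖ = 1 := mem_sphere_zero_iff_norm.mp hu
      have ht1 : r ≤ t := ht
      show r ≤ ‖t • u‖
      rw [norm_smul, hu1, mul_one, Real.norm_eq_abs, abs_of_nonneg (hr.le.trans ht1)]
      exact ht1
  rw [h2]
  exact h1.image _ (by fun_prop)

section
variable {a b a' b' s₀ s₁ : ℝ} {w : E3 → ℝ}

lemma trW_ann (h1 : a < a') (h3 : b' < b) (hs : s₀ < s₁)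
    (hi : ∀ x : E3, a < ‖x‖ → ‖x‖ ≤ a' → w x ≤ s₀)
    (ho : ∀ x : E3, b' ≤ ‖x‖ → ‖x‖ < b → s₁ ≤ w x) {x : E3} (hx : x ∈ Ann a b) :
    trW a' b' s₀ s₁ w x = max s₀ (min s₁ (w x)) := by
  unfold trW
  split_ifs with h4 h5
  · have := hi x hx.1 h4
    rw [min_eq_right (this.trans hs.le), max_eq_left this]
  · have := ho x h5 hx.2
    rw [min_eq_left this, max_eq_right hs.le]
  · rfl

lemma trW_inner {x : E3} (hx : ‖x‖ ≤ a') : trW a' b' s₀ s₁ w x = s₀ := by
  unfold trW
  rw [if_pos hx]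

lemma trW_outer (h2 : a' < b') {x : E3} (hx : b' ≤ ‖x‖) : trW a' b' s₀ s₁ w x = s₁ := by
  unfold trW
  rw [if_neg (by linarith), if_pos hx]

lemma isOpen_ann : IsOpen (Ann a b) :=
  (isOpen_lt continuous_const continuous_norm).inter (isOpen_lt continuous_norm continuous_const)

lemma trunc_trW (h0 : 0 < a) (h1 : a < a') (h2 : a' < b') (h3 : b' < b) (hs : s₀ < s₁)
    (hw : ContinuousOn w (Ann a b))
    (hi : ∀ x : E3, a < ‖x‖ → ‖x‖ ≤ a' → w x ≤ s₀)
    (ho : ∀ x : E3, b' ≤ ‖x‖ → ‖x‖ < b → s₁ ≤ w x) :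
    Trunc a' b' s₀ s₁ (trW a' b' s₀ s₁ w) := by
  refine ⟨by linarith, h2, hs, ?_, ?_, ?_, fun x hx => trW_inner hx, fun x hx => trW_outer h2 hx⟩
  · rw [continuous_iff_continuousAt]
    intro x
    by_cases c1 : ‖x‖ < a'
    · have h4 : (fun _ => s₀) =ᶠ[𝓝 x] trW a' b' s₀ s₁ w := by
        filter_upwards [(isOpen_lt continuous_norm continuous_const).mem_nhds c1] with z hz
        exact (trW_inner (le_of_lt hz)).symm
      exact continuousAt_const.congr h4
    · by_cases c2 : b' < ‖x‖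
      · have h4 : (fun _ => s₁) =ᶠ[𝓝 x] trW a' b' s₀ s₁ w := by
          filter_upwards [(isOpen_lt continuous_const continuous_norm).mem_nhds c2] with z hz
          exact (trW_outer h2 (le_of_lt hz)).symm
        exact continuousAt_const.congr h4
      · have hx : x ∈ Ann a b := ⟨by push Not at c1; linarith, by push Not at c2; linarith⟩
        have h4 : (fun z => max s₀ (min s₁ (w z))) =ᶠ[𝓝 x] trW a' b' s₀ s₁ w := by
          filter_upwards [isOpen_ann.mem_nhds hx] with z hz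
          exact (trW_ann h1 h3 hs hi ho hz).symm
        have h5 : ContinuousAt w x := hw.continuousAt (isOpen_ann.mem_nhds hx)
        have h6 : ContinuousAt (fun z => max s₀ (min s₁ (w z))) x :=
          continuousAt_const.max (continuousAt_const.min h5)
        exact h6.congr h4
  · intro x
    unfold trW
    split_ifs
    · exact le_refl _
    · exact hs.le
    · exact le_max_left _ _
  · intro x
    unfold trW
    split_ifs
    · exact hs.le
    · exact le_refl _
    · exact max_le hs.le (min_le_left _ _)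

/-- closures inside the annulus -/
lemma closure_ann (h1 : a < a') (h3 : b' < b) {D : Set E3}
    (hD : ∀ x ∈ D, a' ≤ ‖x‖ ∧ ‖x‖ ≤ b') : IsCompact (closure D) ∧ closure D ⊆ Ann a b := by
  have h4 : closure D ⊆ {x : E3 | a' ≤ ‖x‖ ∧ ‖x‖ ≤ b'} := by
    refine closure_minimal hD ?_
    exact (isClosed_le continuous_const continuous_norm).inter
      (isClosed_le continuous_norm continuous_const)
  refine ⟨?_, fun x hx => ⟨?_, ?_⟩⟩
  · refine (isCompact_closedBall (0 : E3) b').of_isClosed_subset isClosed_closure ?_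
    intro x hx
    rw [mem_closedBall_zero_iff]
    exact (h4 hx).2
  · exact lt_of_lt_of_le h1 (h4 hx).1
  · exact lt_of_le_of_lt (h4 hx).2 h3

/-- Superlevel sets are connected to the outside. -/
lemma conn_outer (h0 : 0 < a) (h1 : a < a') (h2 : a' < b') (h3 : b' < b) (hs : s₀ < s₁)
    (hw : ContinuousOn w (Ann a b)) (hn : NoIsland (Ann a b) w)
    (hi : ∀ x : E3, a < ‖x‖ → ‖x‖ ≤ a' → w x ≤ s₀)
    (ho : ∀ x : E3, b' ≤ ‖x‖ → ‖x‖ < b → s₁ ≤ w x) {z₁ : E3} (hz : b' ≤ ‖z₁‖) {c : ℝ}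
    (hc : s₀ ≤ c) {y : E3} (hy : c < trW a' b' s₀ s₁ w y) :
    Conn {z | c ≤ trW a' b' s₀ s₁ w z} y z₁ := by
  have hT := trunc_trW h0 h1 h2 h3 hs hw hi ho
  have hcs : c < s₁ := lt_of_lt_of_le hy (hT.upper y)
  have hP : IsOpen {z | c < trW a' b' s₀ s₁ w z} := isOpen_lt continuous_const hT.cont
  obtain ⟨d1, d2, d3, d4, d5⟩ := comp_props _ hP hy
  have hO : {x : E3 | b' ≤ ‖x‖} ⊆ {z | c < trW a' b' s₀ s₁ w z} := by
    intro x hx
    show c < trW a' b' s₀ s₁ w x
    rw [trW_outer h2 hx]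
    exact hcs
  have hmain : ∃ x ∈ connectedComponentIn {z | c < trW a' b' s₀ s₁ w z} y, b' ≤ ‖x‖ := by
    by_contra hcon
    push Not at hcon
    have hD : ∀ x ∈ connectedComponentIn {z | c < trW a' b' s₀ s₁ w z} y,
        a' ≤ ‖x‖ ∧ ‖x‖ ≤ b' := by
      intro x hx
      refine ⟨?_, (hcon x hx).le⟩
      by_contra h4
      push Not at h4
      have h5 : c < trW a' b' s₀ s₁ w x := d4 hx
      rw [trW_inner h4.le] at h5
      linarith
    obtain ⟨k1, k2⟩ := closure_ann h1 h3 hD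
    obtain ⟨⟨y', hy', hwy⟩, _⟩ := hn _ d1 k1 k2 y d3
    have h6 : ¬ c < trW a' b' s₀ s₁ w y' := d5 y' hy'
    have h7 : y' ∈ Ann a b := k2 (frontier_subset_closure hy')
    have h8 : y ∈ Ann a b := k2 (subset_closure d3)
    apply h6
    rw [trW_ann h1 h3 hs hi ho h7]
    rw [trW_ann h1 h3 hs hi ho h8] at hy
    exact lt_of_lt_of_le hy (max_le_max_left _ (min_le_min_left _ hwy))
  obtain ⟨x, hx, hxb⟩ := hmain
  have h9 := comp_join _ _ (ext_preconnected b' (by linarith)) hO hx hxb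
  exact ⟨_, d4.trans (fun z (hz : c < trW a' b' s₀ s₁ w z) => le_of_lt hz), d2, d3, h9 hz⟩

/-- Sublevel sets are connected to the origin. -/
lemma conn_inner (h0 : 0 < a) (h1 : a < a') (h2 : a' < b') (h3 : b' < b) (hs : s₀ < s₁)
    (hw : ContinuousOn w (Ann a b)) (hn : NoIsland (Ann a b) w)
    (hi : ∀ x : E3, a < ‖x‖ → ‖x‖ ≤ a' → w x ≤ s₀)
    (ho : ∀ x : E3, b' ≤ ‖x‖ → ‖x‖ < b → s₁ ≤ w x) {c : ℝ}
    (hc : c ≤ s₁) {y : E3} (hy : trW a' b' s₀ s₁ w y < c) :
    Conn {z | trW a' b' s₀ s₁ w z ≤ c} y 0 := by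
  have hT := trunc_trW h0 h1 h2 h3 hs hw hi ho
  have hcs : s₀ < c := lt_of_le_of_lt (hT.lower y) hy
  have hP : IsOpen {z | trW a' b' s₀ s₁ w z < c} := isOpen_lt hT.cont continuous_const
  obtain ⟨d1, d2, d3, d4, d5⟩ := comp_props _ hP hy
  have hO : Metric.closedBall (0 : E3) a' ⊆ {z | trW a' b' s₀ s₁ w z < c} := by
    intro x hx
    show trW a' b' s₀ s₁ w x < c
    rw [trW_inner (mem_closedBall_zero_iff.mp hx)]
    exact hcs
  have hmain : ∃ x ∈ connectedComponentIn {z | trW a' b' s₀ s₁ w z < c} y, ‖x‖ ≤ a' := by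
    by_contra hcon
    push Not at hcon
    have hD : ∀ x ∈ connectedComponentIn {z | trW a' b' s₀ s₁ w z < c} y,
        a' ≤ ‖x‖ ∧ ‖x‖ ≤ b' := by
      intro x hx
      refine ⟨(hcon x hx).le, ?_⟩
      by_contra h4
      push Not at h4
      have h5 : trW a' b' s₀ s₁ w x < c := d4 hx
      rw [trW_outer h2 h4.le] at h5
      linarith
    obtain ⟨k1, k2⟩ := closure_ann h1 h3 hD
    obtain ⟨_, ⟨y', hy', hwy⟩⟩ := hn _ d1 k1 k2 y d3
    have h6 : ¬ trW a' b' s₀ s₁ w y' < c := d5 y' hy'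
    have h7 : y' ∈ Ann a b := k2 (frontier_subset_closure hy')
    have h8 : y ∈ Ann a b := k2 (subset_closure d3)
    apply h6
    rw [trW_ann h1 h3 hs hi ho h7]
    rw [trW_ann h1 h3 hs hi ho h8] at hy
    exact lt_of_le_of_lt (max_le_max_left _ (min_le_min_left _ hwy)) hy
  obtain ⟨x, hx, hxb⟩ := hmain
  have h9 := comp_join _ _ (convex_closedBall (0 : E3) a').isPreconnected hO hx
    (mem_closedBall_zero_iff.mpr hxb)
  exact ⟨_, d4.trans (fun z (hz : trW a' b' s₀ s₁ w z < c) => le_of_lt hz), d2, d3,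
    h9 (Metric.mem_closedBall_self (by linarith))⟩

end

end MFX

open MFX in
/-- A function without islands is not changed by filling. -/
theorem FX : Stmt_FX := by
  intro a b a' b' s₀ s₁ w z₁ h0 h1 h2 h3 hs hw hn hi ho hz
  have hT := trunc_trW h0 h1 h2 h3 hs hw hi ho
  refine ⟨hT, ?_⟩
  have hA : fillA (trW a' b' s₀ s₁ w) s₀ z₁ = trW a' b' s₀ s₁ w := by
    funext y
    unfold fillA
    have hmem : s₀ ∈ {c : ℝ | s₀ ≤ c ∧ Conn {z | c ≤ trW a' b' s₀ s₁ w z} y z₁} := by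
      refine ⟨le_refl _, Set.univ, fun z _ => hT.lower z, isPreconnected_univ, trivial, trivial⟩
    have hub : ∀ c ∈ {c : ℝ | s₀ ≤ c ∧ Conn {z | c ≤ trW a' b' s₀ s₁ w z} y z₁},
        c ≤ trW a' b' s₀ s₁ w y := by
      rintro c ⟨_, S, hS, _, hy, _⟩
      exact hS hy
    apply le_antisymm
    · exact csSup_le ⟨s₀, hmem⟩ hub
    · refine le_of_forall_lt fun c hc => ?_
      by_cases hc0 : c < s₀
      · exact lt_of_lt_of_le hc0 (le_csSup ⟨_, hub⟩ hmem)
      · push Not at hc0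
        obtain ⟨c', hc1, hc2⟩ := exists_between hc
        refine lt_of_lt_of_le hc1 (le_csSup ⟨_, hub⟩ ⟨hc0.trans hc1.le, ?_⟩)
        exact conn_outer h0 h1 h2 h3 hs hw hn hi ho hz (hc0.trans hc1.le) hc2
  intro y
  unfold fill
  rw [hA]
  unfold fillB
  have hmem : s₁ ∈ {c : ℝ | c ≤ s₁ ∧ Conn {z | trW a' b' s₀ s₁ w z ≤ c} y 0} := by
    refine ⟨le_refl _, Set.univ, fun z _ => hT.upper z, isPreconnected_univ, trivial, trivial⟩
  have hlb : ∀ c ∈ {c : ℝ | c ≤ s₁ ∧ Conn {z | trW a' b' s₀ s₁ w z ≤ c} y 0},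
      trW a' b' s₀ s₁ w y ≤ c := by
    rintro c ⟨_, S, hS, _, hy, _⟩
    exact hS hy
  apply le_antisymm
  · refine le_of_forall_gt fun c hc => ?_
    by_cases hc0 : s₁ < c
    · exact lt_of_le_of_lt (csInf_le ⟨_, hlb⟩ hmem) hc0
    · push Not at hc0
      obtain ⟨c', hc1, hc2⟩ := exists_between hc
      refine lt_of_le_of_lt (csInf_le ⟨_, hlb⟩ ⟨hc2.le.trans hc0, ?_⟩) hc2
      exact conn_inner h0 h1 h2 h3 hs hw hn hi ho (hc2.le.trans hc0) hc1
  · exact le_csInf ⟨s₁, hmem⟩ hlb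

end Pool.Agent.PFlow
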