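import Pool.Agent.PFlow.Defs

/-!
# Block P (existence of the function `u`): definitions

Everything is on the whole space `E3`. `H1 f G`: the function `f` belongs to `H¹(ℝ³)` and has the
gradient `G` (closure of the test functions). `H2 u G M`: `u` belongs to `H²(ℝ³)`, `M i` is the
gradient of the component `G i`.
-/

open MeasureTheory Filter Topology Set
open scoped ContDiff RealInnerProductSpace

namespace Pool.Agent.PFlow.PB

open Pool.Agent.PenroseSph Pool.Agent.PFlow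

/-- The unit vector in the direction `i`. -/
noncomputable def ee (i : Fin 3) : E3 := EuclideanSpace.single i 1

/-- The gradient of a differentiable function, as a vector of `E3`. -/
noncomputable def gr (φ : E3 → ℝ) (x : E3) : E3 := WithLp.toLp 2 (fun i => pd i φ x)

/-- The rows of the matrix of second derivatives of a function: `hs f i x = ∇(∂_i f)(x)`. -/
noncomputable def hs (f : E3 → ℝ) (i : Fin 3) (x : E3) : E3 := gr (pd i f) x

/-- The square of the `L²` norm of a function. -/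
noncomputable def sq (f : E3 → ℝ) : ℝ := ∫ x, f x ^ 2

/-- The square of the `L²` norm of a vector field. -/
noncomputable def sqv (G : E3 → E3) : ℝ := ∫ x, ‖G x‖ ^ 2

/-- Test functions. -/
structure Test (φ : E3 → ℝ) : Prop where
  smooth : ContDiff ℝ ∞ φ
  cpt : HasCompactSupport φ

/-- `G` is the weak gradient of `f`. -/
def WGrad (f : E3 → ℝ) (G : E3 → E3) : Prop :=
  ∀ φ : E3 → ℝ, Test φ → ∀ i, ∫ x, f x * pd i φ x = - ∫ x, G x i * φ x

/-- `f ∈ H¹(ℝ³)` with the gradient `G`. -/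
structure H1 (f : E3 → ℝ) (G : E3 → E3) : Prop where
  memf : MemLp f 2
  memG : MemLp G 2
  approx : ∃ φ : ℕ → E3 → ℝ, (∀ n, Test (φ n)) ∧
    Tendsto (fun n => sq (fun x => φ n x - f x)) atTop (𝓝 0) ∧
    Tendsto (fun n => sqv (fun x => gr (φ n) x - G x)) atTop (𝓝 0)

/-- `u ∈ H²(ℝ³)` with the gradient `G`, and `M i` is the gradient of `G i`. -/
structure H2 (u : E3 → ℝ) (G : E3 → E3) (M : Fin 3 → E3 → E3) : Prop where
  h1 : H1 u G
  h2 : ∀ i, H1 (fun x => G x i) (M i)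

/-- The divergence of a vector field. -/
noncomputable def dv (X : E3 → E3) (x : E3) : ℝ := ∑ i, (fderiv ℝ X x (ee i)) i

/-- The structure conditions on the coefficients of the equation
`div A(x, ∇u) + B(x, ∇u) = Θ u - θ`. -/
structure PCoef (A : E3 → E3 → E3) (B : E3 → E3 → ℝ) (c L r : ℝ) : Prop where
  c_pos : 0 < c
  c_le : c ≤ L
  r_pos : 0 < r
  smoothA : ContDiff ℝ ∞ (fun z : E3 × E3 => A z.1 z.2)
  smoothB : ContDiff ℝ ∞ (fun z : E3 × E3 => B z.1 z.2)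
  A_zero : ∀ x, A x 0 = 0
  B_zero : ∀ x, B x 0 = 0
  mono : ∀ x ξ η, c * ‖ξ - η‖ ^ 2 ≤ ⟪A x ξ - A x η, ξ - η⟫
  lipA : ∀ x ξ η, ‖A x ξ - A x η‖ ≤ L * ‖ξ - η‖
  lipB : ∀ x ξ η, |B x ξ - B x η| ≤ L * ‖ξ - η‖
  lipx : ∀ x y ξ, ‖A x ξ - A y ξ‖ ≤ L * ‖x - y‖ * ‖ξ‖
  suppB : ∀ x ξ, r ≤ ‖x‖ → B x ξ = 0

/-- The conditions on the penalty `Θ u - θ`: `0 ≤ θ ≤ Θ ≤ T`, and `θ = 0`, `Θ ≥ t₀ > 0` outside a
ball. -/
structure Pen (Θ θ : E3 → ℝ) (T t₀ r : ℝ) : Prop where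
  contΘ : Continuous Θ
  contθ : Continuous θ
  nonneg : ∀ x, 0 ≤ θ x
  le : ∀ x, θ x ≤ Θ x
  bdd : ∀ x, Θ x ≤ T
  t₀_pos : 0 < t₀
  outΘ : ∀ x, r ≤ ‖x‖ → t₀ ≤ Θ x
  outθ : ∀ x, r ≤ ‖x‖ → θ x = 0

/-- `div A(x, ∇f) ` at `x` for a function with gradient `ξ` and rows of second derivatives `M i`. -/
noncomputable def opA (A : E3 → E3 → E3) (x ξ : E3) (M : Fin 3 → E3) : ℝ :=
  ∑ i, (fderiv ℝ (fun y => A y ξ) x (ee i)) i + ∑ i, (fderiv ℝ (A x) ξ (M i)) i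

/-- The weak form of `div A(x, ∇u) + B(x, ∇u) = Θ u - θ`. -/
def WSol (A : E3 → E3 → E3) (B : E3 → E3 → ℝ) (Θ θ : E3 → ℝ) (u : E3 → ℝ) (G : E3 → E3) : Prop :=
  H1 u G ∧ ∀ φ Φ, H1 φ Φ →
    ∫ x, ⟪A x (G x), Φ x⟫ = ∫ x, (B x (G x) - Θ x * u x + θ x) * φ x

/-- The weak form of `div A(x, ∇u) + B(x, ∇u) = Θ u - θ + m (u - v)`. -/
def StepEq (A : E3 → E3 → E3) (B : E3 → E3 → ℝ) (Θ θ : E3 → ℝ) (m : ℝ) (v u : E3 → ℝ)
    (G : E3 → E3) : Prop :=
  H1 u G ∧ ∀ φ Φ, H1 φ Φ →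
    ∫ x, ⟪A x (G x), Φ x⟫
      = ∫ x, (B x (G x) - Θ x * u x + θ x - m * (u x - v x)) * φ x

/-- A sequence of mollifications. -/
structure Mollifier (J : ℕ → (E3 → ℝ) → E3 → ℝ) : Prop where
  smooth : ∀ n f, MemLp f 2 → ContDiff ℝ ∞ (J n f)
  mem : ∀ n f, MemLp f 2 → MemLp (J n f) 2
  contr : ∀ n f, MemLp f 2 → sq (J n f) ≤ sq f
  tend : ∀ f, MemLp f 2 → Tendsto (fun n => sq (fun x => J n f x - f x)) atTop (𝓝 0)
  grad : ∀ f G, MemLp f 2 → MemLp G 2 → WGrad f G →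
    ∀ n x i, gr (J n f) x i = J n (fun y => G y i) x
  cpt : ∀ n f, MemLp f 2 → HasCompactSupport f → HasCompactSupport (J n f)
  unif : ∀ f, MemLp f 2 → Continuous f → ∀ K : Set E3, IsCompact K →
    TendstoUniformlyOn (fun n => J n f) f atTop K

end Pool.Agent.PFlow.PB
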