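import Pool.Agent.PFlow.PDefs

/-!
# Block P: statements of the modules (general part)

Proofs in `PDE.md`. Every statement is a `Prop`; a module proves one of them and takes the ones it
needs as hypotheses.
-/

open MeasureTheory Filter Topology Set
open scoped ContDiff RealInnerProductSpace

namespace Pool.Agent.PFlow.PB

open Pool.Agent.PenroseSph Pool.Agent.PFlow

/-! ### T: the space `H¹(ℝ³)` -/

/-- T1 (API1): algebra and closedness. -/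
structure API1 : Prop where
  gr_apply : ∀ (φ : E3 → ℝ) x i, gr φ x i = pd i φ x
  gr_inner : ∀ (φ : E3 → ℝ) x v, ⟪gr φ x, v⟫ = fderiv ℝ φ x v
  gr_cont : ∀ φ : E3 → ℝ, ContDiff ℝ 1 φ → Continuous (gr φ)
  ofTest : ∀ φ, Test φ → H1 φ (gr φ)
  congr : ∀ f f' G G', H1 f G → f =ᵐ[volume] f' → G =ᵐ[volume] G' → H1 f' G'
  add : ∀ f F g G, H1 f F → H1 g G → H1 (fun x => f x + g x) (fun x => F x + G x)
  sub : ∀ f F g G, H1 f F → H1 g G → H1 (fun x => f x - g x) (fun x => F x - G x)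
  smul : ∀ (a : ℝ) f F, H1 f F → H1 (fun x => a * f x) (fun x => a • F x)
  wgrad : ∀ f G, H1 f G → WGrad f G
  unique : ∀ f G G', H1 f G → H1 f G' → G =ᵐ[volume] G'
  closed : ∀ f G (fn : ℕ → E3 → ℝ) (Gn : ℕ → E3 → E3), (∀ n, H1 (fn n) (Gn n)) →
    MemLp f 2 → MemLp G 2 → Tendsto (fun n => sq (fun x => fn n x - f x)) atTop (𝓝 0) →
    Tendsto (fun n => sqv (fun x => Gn n x - G x)) atTop (𝓝 0) → H1 f G
  /-- completeness of `L²` for sequences that are Cauchy in the sense of `sq`, `sqv` -/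
  complete : ∀ fn : ℕ → E3 → ℝ, (∀ n, MemLp (fn n) 2) →
    (∀ ε > 0, ∃ N, ∀ m ≥ N, ∀ n ≥ N, sq (fun x => fn m x - fn n x) < ε) →
    ∃ f, MemLp f 2 ∧ Tendsto (fun n => sq (fun x => fn n x - f x)) atTop (𝓝 0)
  completev : ∀ Gn : ℕ → E3 → E3, (∀ n, MemLp (Gn n) 2) →
    (∀ ε > 0, ∃ N, ∀ m ≥ N, ∀ n ≥ N, sqv (fun x => Gn m x - Gn n x) < ε) →
    ∃ G, MemLp G 2 ∧ Tendsto (fun n => sqv (fun x => Gn n x - G x)) atTop (𝓝 0)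

/-- T2 (API2): products, translations, integration by parts. -/
structure API2 : Prop where
  ofC1 : ∀ φ : E3 → ℝ, ContDiff ℝ 1 φ → HasCompactSupport φ → H1 φ (gr φ)
  mul : ∀ f G (ζ : E3 → ℝ) (C : ℝ), H1 f G → ContDiff ℝ 1 ζ → (∀ x, |ζ x| ≤ C) →
    (∀ x, ‖gr ζ x‖ ≤ C) → H1 (fun x => ζ x * f x) (fun x => ζ x • G x + f x • gr ζ x)
  shift : ∀ f G, H1 f G → ∀ h : E3, H1 (fun x => f (x + h)) (fun x => G (x + h))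
  trans : ∀ f G, H1 f G → ∀ h : E3, sq (fun x => f (x + h) - f x) ≤ ‖h‖ ^ 2 * sqv G
  ibp : ∀ f F g G, H1 f F → H1 g G → ∀ i, ∫ x, f x * G x i = - ∫ x, F x i * g x
  ibpv : ∀ (X : E3 → E3), ContDiff ℝ 1 X → HasCompactSupport X → ∀ φ Φ, H1 φ Φ →
    ∫ x, ⟪X x, Φ x⟫ = - ∫ x, dv X x * φ x

/-- T3 (MOLL): mollifications exist. -/
def MOLL : Prop := ∃ J, Mollifier J

/-- T4 (WH): a function with a weak gradient in `L²` belongs to `H¹`. -/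
def WH : Prop := ∀ f G, MemLp f 2 → MemLp G 2 → WGrad f G → H1 f G

/-- T5 (DENS): test functions are dense in `H²`; if `u` is continuous they converge uniformly on
compact sets. -/
def DENS : Prop := ∀ u G M, H2 u G M → ∃ φ : ℕ → E3 → ℝ, (∀ n, Test (φ n)) ∧
  Tendsto (fun n => sq (fun x => φ n x - u x)) atTop (𝓝 0) ∧
  Tendsto (fun n => sqv (fun x => gr (φ n) x - G x)) atTop (𝓝 0) ∧
  (∀ i, Tendsto (fun n => sqv (fun x => hs (φ n) i x - M i x)) atTop (𝓝 0)) ∧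
  (Continuous u → ∀ K : Set E3, IsCompact K → TendstoUniformlyOn φ u atTop K)

/-- T6 (CHAIN): the chain rule. -/
structure CHAIN : Prop where
  lip : ∀ f G (Ψ : ℝ → ℝ) (C : ℝ), H1 f G → ContDiff ℝ 1 Ψ → Ψ 0 = 0 → (∀ t, |deriv Ψ t| ≤ C) →
    H1 (fun x => Ψ (f x)) (fun x => deriv Ψ (f x) • G x)
  bdd : ∀ f G (Ψ : ℝ → ℝ) (T : ℝ), H1 f G → (∀ᵐ x, |f x| ≤ T) → ContDiff ℝ 1 Ψ → Ψ 0 = 0 →
    H1 (fun x => Ψ (f x)) (fun x => deriv Ψ (f x) • G x)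
  zero : ∀ f G, H1 f G → ∀ᵐ x, f x = 0 → G x = 0

/-- T7 (SYMM): the second derivatives are symmetric, and they vanish where the gradient does. -/
def SYMM : Prop := ∀ u G M, H2 u G M →
  (∀ᵐ x, ∀ i j, M i x j = M j x i) ∧ (∀ᵐ x, G x = 0 → ∀ i, M i x = 0)

/-! ### E: existence for the regularised equation -/

/-- E1 (ZAR): strongly monotone Lipschitz operators are onto. -/
def ZAR : Prop := ∀ (H : Type) [NormedAddCommGroup H] [InnerProductSpace ℝ H] [CompleteSpace H]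
  (T : H → H) (c L : ℝ), 0 < c → (∀ x y, c * ‖x - y‖ ^ 2 ≤ ⟪T x - T y, x - y⟫) →
  (∀ x y, ‖T x - T y‖ ≤ L * ‖x - y‖) → ∀ b, ∃ x, T x = b

/-- E2 (STEP): the problem with the additional term `m (u - v)`. -/
def STEP : Prop := ∀ A B c L r Θ θ T t₀, PCoef A B c L r → Pen Θ θ T t₀ r →
  ∀ m, L ^ 2 / c + 1 ≤ m → ∀ v, MemLp v 2 → ∃ u G, StepEq A B Θ θ m v u G

/-- E3 (ORDER): comparison for the problem with the additional term. -/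
structure ORDER : Prop where
  mono : ∀ A B c L r Θ θ T t₀, PCoef A B c L r → Pen Θ θ T t₀ r → ∀ m, L ^ 2 / c + 1 ≤ m →
    ∀ v₁ v₂ u₁ u₂ G₁ G₂, MemLp v₁ 2 → MemLp v₂ 2 → StepEq A B Θ θ m v₁ u₁ G₁ →
    StepEq A B Θ θ m v₂ u₂ G₂ → (∀ᵐ x, v₁ x ≤ v₂ x) → ∀ᵐ x, u₁ x ≤ u₂ x
  nonneg : ∀ A B c L r Θ θ T t₀, PCoef A B c L r → Pen Θ θ T t₀ r → ∀ m, L ^ 2 / c + 1 ≤ m →
    ∀ v u G, MemLp v 2 → StepEq A B Θ θ m v u G → (∀ᵐ x, 0 ≤ v x) → ∀ᵐ x, 0 ≤ u x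
  le_one : ∀ A B c L r Θ θ T t₀, PCoef A B c L r → Pen Θ θ T t₀ r → ∀ m, L ^ 2 / c + 1 ≤ m →
    ∀ v u G, MemLp v 2 → StepEq A B Θ θ m v u G → (∀ᵐ x, v x ≤ 1) → ∀ᵐ x, u x ≤ 1

/-- E4 (LIPS): the solution depends on `v` in a Lipschitz way. -/
def LIPS : Prop := ∀ A B c L r Θ θ T t₀, PCoef A B c L r → Pen Θ θ T t₀ r →
  ∀ m, L ^ 2 / c + 1 ≤ m → ∃ C, ∀ v₁ v₂ u₁ u₂ G₁ G₂, MemLp v₁ 2 → MemLp v₂ 2 →
    StepEq A B Θ θ m v₁ u₁ G₁ → StepEq A B Θ θ m v₂ u₂ G₂ →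
    sq (fun x => u₁ x - u₂ x) + sqv (fun x => G₁ x - G₂ x) ≤ C * sq (fun x => v₁ x - v₂ x)

/-- E5 (BDD): an `L²` bound along increasing sequences. -/
def BDD : Prop := ∀ A B c L r Θ θ T t₀, PCoef A B c L r → Pen Θ θ T t₀ r →
  ∃ C, ∀ m, 0 ≤ m → ∀ v u G, MemLp v 2 → StepEq A B Θ θ m v u G → (∀ᵐ x, v x ≤ u x) →
    (∀ᵐ x, 0 ≤ u x) → (∀ᵐ x, u x ≤ 1) → sq u ≤ C

/-- E6 (EXI): existence for the regularised equation. -/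
def EXI : Prop := ∀ A B c L r Θ θ T t₀, PCoef A B c L r → Pen Θ θ T t₀ r →
  ∃ u G, WSol A B Θ θ u G ∧ ∀ᵐ x, 0 ≤ u x ∧ u x ≤ 1

/-! ### R: second derivatives -/

/-- R1 (DQ): difference quotients. -/
def DQ : Prop := ∀ A B c L r, PCoef A B c L r → ∀ u G f, H1 u G → MemLp f 2 →
  (∀ φ Φ, H1 φ Φ → ∫ x, ⟪A x (G x), Φ x⟫ = ∫ x, f x * φ x) →
  ∀ h : E3, sqv (fun x => G (x + h) - G x) ≤ (2 * L ^ 2 * sqv G + 2 * sq f) / c ^ 2 * ‖h‖ ^ 2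

/-- R2 (DQR): a function with bounded difference quotients belongs to `H¹`. -/
def DQR : Prop := ∀ (f : E3 → ℝ) (C : ℝ), MemLp f 2 →
  (∀ h : E3, sq (fun x => f (x + h) - f x) ≤ C * ‖h‖ ^ 2) → ∃ G, H1 f G

/-- R3 (HTWO): solutions belong to `H²`. -/
def HTWO : Prop := ∀ A B c L r Θ θ T t₀, PCoef A B c L r → Pen Θ θ T t₀ r → ∀ u G,
  WSol A B Θ θ u G → ∃ M, H2 u G M

/-- R4 (NDIV): the equation in nondivergence form. -/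
def NDIV : Prop := ∀ A B c L r Θ θ T t₀, PCoef A B c L r → Pen Θ θ T t₀ r → ∀ u G M,
  WSol A B Θ θ u G → H2 u G M →
  ∀ᵐ x, opA A x (G x) (fun i => M i x) + B x (G x) = Θ x * u x - θ x

/-! ### S: continuity -/

/-- S1 (SUPB): pointwise bound by the `H²` norm, with a scale. -/
def SUPB : Prop := ∃ C > 0, ∀ φ, Test φ → ∀ r > 0, ∀ x,
  |φ x| ≤ C * (r ^ (-(3 / 2) : ℝ) * √(sq φ) + r ^ (1 / 2 : ℝ) * √(∑ i, sqv (hs φ i)))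

/-- S2 (CONT): functions of class `H²` are continuous. -/
def CONT : Prop := ∃ C > 0, ∀ u G M, H2 u G M → ∃ w : E3 → ℝ, w =ᵐ[volume] u ∧
  (∀ x, |w x| ≤ C * √(sq u + sqv G + ∑ i, sqv (M i))) ∧
  (∀ x y, ‖x - y‖ ≤ 1 →
    |w x - w y| ≤ C * √(sq u + sqv G + ∑ i, sqv (M i)) * ‖x - y‖ ^ (1 / 4 : ℝ))

/-! ### U: estimates for the second derivatives -/

/-- U1 (INTP): `‖∇u‖² ≤ √3 ‖u‖ ‖D²u‖`. -/
def INTP : Prop := ∀ u G M, H2 u G M → sqv G ≤ √3 * √(sq u) * √(∑ i, sqv (M i))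

/-- U2 (CID): integration by parts for the quadratic form of second derivatives. The coefficients
`q i k j l` are of class `C¹`, bounded with bounded derivatives. -/
def CID : Prop := ∀ (q : Fin 3 → Fin 3 → Fin 3 → Fin 3 → E3 → ℝ) (C : ℝ),
  (∀ i k j l, ContDiff ℝ 1 (q i k j l)) → (∀ i k j l x, |q i k j l x| ≤ C) →
  (∀ i k j l x, ‖gr (q i k j l) x‖ ≤ C) → ∀ u G M, H2 u G M →
  ∫ x, ∑ i, ∑ k, ∑ j, ∑ l, q i k j l x * (M i x j * M k x l - M i x k * M j x l)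
    = - ∫ x, ∑ i, ∑ k, ∑ j, ∑ l,
      (pd j (q i k j l) x * G x i * M k x l - pd k (q i k j l) x * G x i * M j x l)

/-! ### L: compactness -/

/-- L0 (WEAKL): bounded sequences in `L²` that converge on test functions converge weakly. -/
def WEAKL : Prop := ∀ (h : ℕ → E3 → ℝ) (C : ℝ), (∀ n, MemLp (h n) 2) → (∀ n, sq (h n) ≤ C) →
  (∀ ψ, Test ψ → ∃ l, Tendsto (fun n => ∫ x, ψ x * h n x) atTop (𝓝 l)) →
  ∃ g : E3 → ℝ, MemLp g 2 ∧ sq g ≤ C ∧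
    ∀ ψ : E3 → ℝ, MemLp ψ 2 → Tendsto (fun n => ∫ x, ψ x * h n x) atTop (𝓝 (∫ x, ψ x * g x))

/-- L1a (CPTU): Arzelà-Ascoli. -/
def CPTU : Prop := ∀ (u : ℕ → E3 → ℝ) (C : ℝ), (∀ n x, |u n x| ≤ C) →
  (∀ n x y, ‖x - y‖ ≤ 1 → |u n x - u n y| ≤ C * ‖x - y‖ ^ (1 / 4 : ℝ)) →
  ∃ (s : ℕ → ℕ) (v : E3 → ℝ), StrictMono s ∧ Continuous v ∧
    ∀ K : Set E3, IsCompact K → TendstoUniformlyOn (fun n => u (s n)) v atTop K

/-- L1b (CPTG): the gradients are a Cauchy sequence in `L²_loc`. -/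
def CPTG : Prop := ∀ (u : ℕ → E3 → ℝ) (G : ℕ → E3 → E3) (M : ℕ → Fin 3 → E3 → E3) (C : ℝ)
  (v : E3 → ℝ), (∀ n, H2 (u n) (G n) (M n)) →
  (∀ n, sq (u n) + sqv (G n) + ∑ i, sqv (M n i) ≤ C) →
  (∀ K : Set E3, IsCompact K → TendstoUniformlyOn u v atTop K) →
  ∀ K : Set E3, IsCompact K → ∀ ε > 0, ∃ N, ∀ m ≥ N, ∀ n ≥ N,
    ∫ x in K, ‖G m x - G n x‖ ^ 2 < ε

/-- L1c (CPTA): a Cauchy sequence in `L²_loc`, bounded in `L²`, converges, and a subsequence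
converges almost everywhere. -/
def CPTA : Prop := ∀ (G : ℕ → E3 → E3) (C : ℝ), (∀ n, MemLp (G n) 2) → (∀ n, sqv (G n) ≤ C) →
  (∀ K : Set E3, IsCompact K → ∀ ε > 0, ∃ N, ∀ m ≥ N, ∀ n ≥ N,
    ∫ x in K, ‖G m x - G n x‖ ^ 2 < ε) →
  ∃ (F : E3 → E3) (s : ℕ → ℕ), MemLp F 2 ∧ StrictMono s ∧
    (∀ K : Set E3, IsCompact K → Tendsto (fun n => ∫ x in K, ‖G n x - F x‖ ^ 2) atTop (𝓝 0)) ∧
    ∀ᵐ x, Tendsto (fun n => G (s n) x) atTop (𝓝 (F x))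

/-- L1 (CPT): bounded sequences in `H²`. -/
def CPT : Prop := ∀ (u : ℕ → E3 → ℝ) (G : ℕ → E3 → E3) (M : ℕ → Fin 3 → E3 → E3) (C : ℝ),
  (∀ n, H2 (u n) (G n) (M n)) → (∀ n, Continuous (u n)) →
  (∀ n, sq (u n) + sqv (G n) + ∑ i, sqv (M n i) ≤ C) →
  ∃ (s : ℕ → ℕ) (v : E3 → ℝ) (F : E3 → E3) (N : Fin 3 → E3 → E3), StrictMono s ∧ H2 v F N ∧
    Continuous v ∧
    (∀ K : Set E3, IsCompact K → TendstoUniformlyOn (fun n => u (s n)) v atTop K) ∧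
    (∀ K : Set E3, IsCompact K →
      Tendsto (fun n => ∫ x in K, ‖G (s n) x - F x‖ ^ 2) atTop (𝓝 0)) ∧
    (∀ᵐ x, Tendsto (fun n => G (s n) x) atTop (𝓝 (F x))) ∧
    (∀ ψ : E3 → ℝ, MemLp ψ 2 → ∀ i j,
      Tendsto (fun n => ∫ x, ψ x * M (s n) i x j) atTop (𝓝 (∫ x, ψ x * N i x j)))

/-- L2 (LIMEQ): the equation passes to the limit. `α`, `β` are the coefficients of the equation
in nondivergence form. -/
def LIMEQ : Prop := ∀ (U : Set E3) (G : ℕ → E3 → E3) (M : ℕ → Fin 3 → E3 → E3) (F : E3 → E3)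
    (N : Fin 3 → E3 → E3) (α : ℕ → E3 → E3 → Fin 3 → Fin 3 → ℝ) (β : ℕ → E3 → E3 → ℝ)
    (α₀ : E3 → E3 → Fin 3 → Fin 3 → ℝ) (β₀ : E3 → E3 → ℝ) (C : ℝ), IsOpen U →
  (∀ n i, MemLp (M n i) 2) → (∀ i, MemLp (N i) 2) → (∀ n, MemLp (G n) 2) → MemLp F 2 →
  (∀ n, ∑ i, sqv (M n i) ≤ C) → (∀ n, sqv (G n) ≤ C) →
  (∀ᵐ x, Tendsto (fun n => G n x) atTop (𝓝 (F x))) →
  (∀ ψ : E3 → ℝ, MemLp ψ 2 → ∀ i j,
    Tendsto (fun n => ∫ x, ψ x * M n i x j) atTop (𝓝 (∫ x, ψ x * N i x j))) →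
  (∀ n, ∀ᵐ x, x ∈ U → (∑ i, ∑ j, α n x (G n x) i j * M n i x j) + β n x (G n x) = 0) →
  (∀ n i j, Measurable fun z : E3 × E3 => α n z.1 z.2 i j) →
  (∀ n, Measurable fun z : E3 × E3 => β n z.1 z.2) →
  (∀ n x ξ i j, |α n x ξ i j| ≤ C) → (∀ n x ξ, |β n x ξ| ≤ C * ‖ξ‖) →
  (∀ x ξ (p : ℕ → E3), ξ ≠ 0 → Tendsto p atTop (𝓝 ξ) →
    (∀ i j, Tendsto (fun n => α n x (p n) i j) atTop (𝓝 (α₀ x ξ i j))) ∧
    Tendsto (fun n => β n x (p n)) atTop (𝓝 (β₀ x ξ))) →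
  ∀ᵐ x, x ∈ U → F x ≠ 0 → (∑ i, ∑ j, α₀ x (F x) i j * N i x j) + β₀ x (F x) = 0

/-- L3 (LIMW): the weak form passes to the limit. -/
def LIMW : Prop := ∀ (G : ℕ → E3 → E3) (F : E3 → E3) (A : ℕ → E3 → E3 → E3)
    (B : ℕ → E3 → E3 → ℝ) (A₀ : E3 → E3 → E3) (B₀ : E3 → E3 → ℝ) (C : ℝ),
  (∀ n, MemLp (G n) 2) → MemLp F 2 →
  (∀ K : Set E3, IsCompact K → Tendsto (fun n => ∫ x in K, ‖G n x - F x‖ ^ 2) atTop (𝓝 0)) →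
  (∀ᵐ x, Tendsto (fun n => G n x) atTop (𝓝 (F x))) →
  (∀ n, Measurable fun z : E3 × E3 => A n z.1 z.2) →
  (∀ n, Measurable fun z : E3 × E3 => B n z.1 z.2) →
  (∀ n x ξ, ‖A n x ξ‖ ≤ C * (1 + ‖ξ‖)) → (∀ n x ξ, |B n x ξ| ≤ C * (1 + ‖ξ‖)) →
  (∀ x ξ (p : ℕ → E3), Tendsto p atTop (𝓝 ξ) →
    Tendsto (fun n => A n x (p n)) atTop (𝓝 (A₀ x ξ)) ∧
    Tendsto (fun n => B n x (p n)) atTop (𝓝 (B₀ x ξ))) →
  ∀ χ : E3 → ℝ, ContDiff ℝ 1 χ → HasCompactSupport χ →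
  (∀ n, ∫ x, ⟪A n x (G n x), gr χ x⟫ = ∫ x, B n x (G n x) * χ x) →
  ∫ x, ⟪A₀ x (F x), gr χ x⟫ = ∫ x, B₀ x (F x) * χ x

/-! ### C: comparison -/

/-- C1 (CKEY): the main comparison lemma; `s = 1` (lower) or `s = -1` (upper). -/
def CKEY : Prop := ∀ A B c L r Θ θ T t₀, PCoef A B c L r → Pen Θ θ T t₀ r → ∀ u G,
  WSol A B Θ θ u G → ∀ s : ℝ, (s = 1 ∨ s = -1) →
  ∀ f : E3 → ℝ, ContDiff ℝ 2 f → HasCompactSupport (gr f) →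
  ∀ v V, H1 v V → ∀ T' : ℝ, (∀ᵐ x, |v x| ≤ T') →
  (∀ᵐ x, 0 < v x → V x = s • (gr f x - G x)) → ∀ σ > 0,
  (∀ᵐ x, 0 < v x →
    σ ≤ s * (opA A x (gr f x) (fun i => hs f i x) + B x (gr f x) - (Θ x * u x - θ x))) →
  ∀ᵐ x, v x ≤ 0

/-- C2 (CCPT): comparison on a compact set. -/
def CCPT : Prop := ∀ A B c L r Θ θ T t₀, PCoef A B c L r → Pen Θ θ T t₀ r → ∀ u G,
  WSol A B Θ θ u G → Continuous u → ∀ s : ℝ, (s = 1 ∨ s = -1) →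
  ∀ (K : Set E3) (f : E3 → ℝ), IsCompact K → (∀ x ∈ K, ContDiffAt ℝ 2 f x) →
  ∀ σ > 0, (∀ x ∈ K, 0 < s * (f x - u x) →
    σ ≤ s * (opA A x (gr f x) (fun i => hs f i x) + B x (gr f x) - (Θ x * u x - θ x))) →
  (∀ x ∈ frontier K, s * (f x - u x) ≤ 0) → ∀ x ∈ K, s * (f x - u x) ≤ 0

/-- C3 (CGLO): comparison on the whole space with `f` equal to a constant `c₁` outside a compact
set, `s c₁ ≤ 0`. -/
def CGLO : Prop := ∀ A B c L r Θ θ T t₀, PCoef A B c L r → Pen Θ θ T t₀ r → ∀ u G,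
  WSol A B Θ θ u G → Continuous u → (∀ x, 0 ≤ u x ∧ u x ≤ 1) → ∀ s : ℝ, (s = 1 ∨ s = -1) →
  ∀ (f : E3 → ℝ) (c₁ : ℝ), ContDiff ℝ 2 f → HasCompactSupport (fun x => f x - c₁) → s * c₁ ≤ 0 →
  ∀ σ > 0, (∀ x, 0 < s * (f x - u x) →
    σ ≤ s * (opA A x (gr f x) (fun i => hs f i x) + B x (gr f x) - (Θ x * u x - θ x))) →
  ∀ x, s * (f x - u x) ≤ 0

end Pool.Agent.PFlow.PB
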