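import Pool.Agent.PFlow.StmtsK
import Pool.Agent.PFlow.StmtsP

/-!
# Block P: statements of the modules (the equation of the level set flow)

Here the general part (`StmtsP.lean`) meets the coefficients (`StmtsK.lean`). Proofs in `PDE.md`.
-/

open MeasureTheory Filter Topology Set
open scoped ContDiff RealInnerProductSpace

namespace Pool.Agent.PFlow.PB

open Pool.Agent.PenroseSph Pool.Agent.PFlow

/-- The matrix with the given rows. -/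
noncomputable def mt (M : Fin 3 → E3) : Bil := Matrix.of fun i j => M i j

/-- F0 (BRID): dictionary between `StmtsK` and `StmtsP`. -/
structure BRID : Prop where
  coef : ∀ (ε δ κ : ℝ) (g h : TensorField) (r : ℝ), 0 < ε → ε < 1 → 0 < δ → 0 < κ → 0 < r →
    GData g h r → ∃ c L, PCoef (cA ε δ κ g) (cB ε δ g h) c L r
  op : ∀ (ε δ κ : ℝ) (g h : TensorField) (r : ℝ), 0 < ε → ε < 1 → 0 < δ → 0 < κ →
    GData g h r → ∀ (x ξ : E3) (M : Fin 3 → E3),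
      opA (cA ε δ κ g) x ξ M = opL ε δ κ g x ξ (mt M)
  jet : ∀ (f : E3 → ℝ) (x : E3), ContDiffAt ℝ 2 f x →
    gr f x = vec (grad f x) ∧ mt (fun i => hs f i x) = hess2 f x

/-- F1 (KENE): the drift is controlled by the energy, uniformly in `δ, κ`. -/
def KENE : Prop := ∀ (ε : ℝ) (g h : TensorField) (r : ℝ), 0 < ε → ε < 1 → GData g h r →
  ∃ C : ℝ, 0 ≤ C ∧ ∀ δ κ : ℝ, 0 < δ → δ ≤ 1 → 0 < κ → κ ≤ 1 → ∀ x ξ : E3,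
    0 ≤ ⟪cA ε δ κ g x ξ, ξ⟫ ∧ |cB ε δ g h x ξ| ≤ ⟪cA ε δ κ g x ξ, ξ⟫ + C

/-- F2 (ENER): uniform `L²` bound. -/
def ENER : Prop := ∀ (ε : ℝ) (g h : TensorField) (r : ℝ) (Θ θ : E3 → ℝ) (T t₀ : ℝ),
  0 < ε → ε < 1 → GData g h r → Pen Θ θ T t₀ r →
  ∃ C : ℝ, ∀ δ κ : ℝ, 0 < δ → δ ≤ 1 → 0 < κ → κ ≤ 1 → ∀ u G,
    WSol (cA ε δ κ g) (cB ε δ g h) Θ θ u G → (∀ᵐ x, 0 ≤ u x ∧ u x ≤ 1) → sq u ≤ C

/-- F3 (CORDI): the integrated Cordes inequality. -/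
def CORDI : Prop := ∀ (ε : ℝ) (g h : TensorField) (r : ℝ), 0 < ε → ε < 1 → GData g h r →
  ∀ C₀ T : ℝ, ∃ C : ℝ, ∀ u G M F, H2 u G M → MemLp F 2 → (∀ᵐ x, |F x| ≤ T) →
    (∀ᵐ x, trg g x (cHess g x (G x) (mt fun i => M i x)) ^ 2 ≤
      (1 - ε) * nsq g x (cHess g x (G x) (mt fun i => M i x))
        + C₀ * (‖G x‖ ^ 2 + F x ^ 2 * (1 + ‖G x‖ ^ 2))) →
    ∑ i, sqv (M i) ≤ C * (sqv G + sq F)

/-- F4 (UNIF): uniform bound in `H²`. -/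
def UNIF : Prop := ∀ (ε : ℝ) (g h : TensorField) (r : ℝ) (Θ θ : E3 → ℝ) (T t₀ : ℝ),
  0 < ε → ε < 1 → 0 < r → GData g h r → Pen Θ θ T t₀ r →
  ∃ C : ℝ, ∀ δ κ : ℝ, 0 < δ → δ ≤ 1 → 0 < κ → κ ≤ 1 → ∀ u G M,
    WSol (cA ε δ κ g) (cB ε δ g h) Θ θ u G → H2 u G M → (∀ᵐ x, 0 ≤ u x ∧ u x ≤ 1) →
    sq u + sqv G + ∑ i, sqv (M i) ≤ C

/-- The penalty used in the construction: `Θ = θ` for `|x| ≤ b`, both vanish on
`a ≤ |x| ≤ b`, `θ = 0` for `|x| ≥ a`. -/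
structure Pen2 (a b : ℝ) (Θ θ : E3 → ℝ) (T t₀ : ℝ) : Prop where
  pen : Pen Θ θ T t₀ (3 * b / 2)
  mid : ∀ x : E3, a ≤ ‖x‖ → ‖x‖ ≤ b → Θ x = 0
  inn : ∀ x : E3, ‖x‖ ≤ b → Θ x = θ x
  out : ∀ x : E3, a ≤ ‖x‖ → θ x = 0

/-- F5 (CLOSE): for a strong penalty the solution is close to `1` inside and to `0` outside,
uniformly in `δ, κ`. -/
def CLOSE : Prop := ∀ (ε a b η : ℝ) (g h : TensorField), 0 < ε → ε < 1 → 0 < a → 8 * a ≤ b →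
  0 < η → GData g h (b / 2) → ∃ (Θ θ : E3 → ℝ) (T t₀ : ℝ), Pen2 a b Θ θ T t₀ ∧
  ∀ δ κ : ℝ, 0 < δ → δ ≤ 1 → 0 < κ → κ ≤ 1 → ∀ u G,
    WSol (cA ε δ κ g) (cB ε δ g h) Θ θ u G → Continuous u → (∀ x, 0 ≤ u x ∧ u x ≤ 1) →
    (∀ x : E3, ‖x‖ ≤ a / 2 → 1 - η ≤ u x) ∧ (∀ x : E3, 2 * b ≤ ‖x‖ → u x ≤ η)

/-- The limit `δ, κ → 0`: everything that is known about the sequence of regularised solutions and
its limit. -/
structure Lim (ε a b : ℝ) (g h : TensorField) (Θ θ : E3 → ℝ) (T t₀ : ℝ) (δ κ : ℕ → ℝ)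
    (u : ℕ → E3 → ℝ) (G : ℕ → E3 → E3) (M : ℕ → Fin 3 → E3 → E3) (C : ℝ)
    (v : E3 → ℝ) (F : E3 → E3) (N : Fin 3 → E3 → E3) : Prop where
  eps_pos : 0 < ε
  eps_lt : ε < 1
  a_pos : 0 < a
  hab : 8 * a ≤ b
  data : GData g h (b / 2)
  pen : Pen2 a b Θ θ T t₀
  δ_pos : ∀ n, 0 < δ n
  δ_le : ∀ n, δ n ≤ 1
  δ_tend : Tendsto δ atTop (𝓝 0)
  κ_pos : ∀ n, 0 < κ n
  κ_le : ∀ n, κ n ≤ 1
  κ_tend : Tendsto κ atTop (𝓝 0)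
  sol : ∀ n, WSol (cA ε (δ n) (κ n) g) (cB ε (δ n) g h) Θ θ (u n) (G n)
  h2 : ∀ n, H2 (u n) (G n) (M n)
  cont : ∀ n, Continuous (u n)
  nonneg : ∀ n x, 0 ≤ u n x
  le_one : ∀ n x, u n x ≤ 1
  bound : ∀ n, sq (u n) + sqv (G n) + ∑ i, sqv (M n i) ≤ C
  h2v : H2 v F N
  contv : Continuous v
  unif : ∀ K : Set E3, IsCompact K → TendstoUniformlyOn u v atTop K
  strong : ∀ K : Set E3, IsCompact K →
    Tendsto (fun n => ∫ x in K, ‖G n x - F x‖ ^ 2) atTop (𝓝 0)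
  ae : ∀ᵐ x, Tendsto (fun n => G n x) atTop (𝓝 (F x))
  weak : ∀ ψ : E3 → ℝ, MemLp ψ 2 → ∀ i j,
    Tendsto (fun n => ∫ x, ψ x * M n i x j) atTop (𝓝 (∫ x, ψ x * N i x j))

/-- The second derivatives of the limit in the conventions of `Defs.lean`. -/
noncomputable def mat (N : Fin 3 → E3 → E3) (x : E3) : Bil := Matrix.of fun i j => N j x i

/-- F6 (EQL): the equation of the limit. -/
def EQL : Prop := ∀ ε a b g h Θ θ T t₀ δ κ u G M C v F N,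
  Lim ε a b g h Θ θ T t₀ δ κ u G M C v F N → EqU (Ann a b) ε g h (fun x => F x) (mat N)

/-- F7 (FLUXL): the flux identity of the limit. -/
def FLUXL : Prop := ∀ ε a b g h Θ θ T t₀ δ κ u G M C v F N,
  Lim ε a b g h Θ θ T t₀ δ κ u G M C v F N →
  ∀ χ : E3 → ℝ, ContDiff ℝ 1 χ → HasCompactSupport χ → tsupport χ ⊆ Ann a b →
    ∫ x, len g x (F x) ^ (ε - 1) * ev (g x)⁻¹ (F x) (grad χ x) * volDen g x
      = ∫ x, len g x (F x) ^ ε * beps ε g x (F x) (h x) * χ x * volDen g x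

/-- F8 (SUBL): comparison for the limit. -/
def SUBL : Prop := ∀ ε a b g h Θ θ T t₀ δ κ u G M C v F N,
  Lim ε a b g h Θ θ T t₀ δ κ u G M C v F N →
  (∀ K : Set E3, IsCompact K → K ⊆ {x : E3 | ‖x‖ ≤ b} →
    ∀ f : E3 → ℝ, (∀ x ∈ K, ContDiffAt ℝ 2 f x) →
      (∀ x ∈ K, grad f x ≠ 0 ∧ 0 < opN ε g h f x) →
      (∀ x ∈ frontier K, f x ≤ v x) → ∀ x ∈ K, f x ≤ v x) ∧
  (∀ K : Set E3, IsCompact K → K ⊆ {x : E3 | a ≤ ‖x‖} →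
    ∀ f : E3 → ℝ, (∀ x ∈ K, ContDiffAt ℝ 2 f x) →
      (∀ x ∈ K, grad f x ≠ 0 ∧ opN ε g h f x < 0) →
      (∀ x ∈ frontier K, v x ≤ f x) → ∀ x ∈ K, v x ≤ f x)

/-- F9 (NOISL): no islands, from the comparison principle. -/
def NOISL : Prop := ∀ (ε a b : ℝ) (g h : TensorField) (v : E3 → ℝ), 0 < ε → ε < 1 → 0 < a →
  8 * a ≤ b → GData g h (b / 2) → Continuous v →
  (∀ K : Set E3, IsCompact K → K ⊆ {x : E3 | ‖x‖ ≤ b} →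
    ∀ f : E3 → ℝ, (∀ x ∈ K, ContDiffAt ℝ 2 f x) →
      (∀ x ∈ K, grad f x ≠ 0 ∧ 0 < opN ε g h f x) →
      (∀ x ∈ frontier K, f x ≤ v x) → ∀ x ∈ K, f x ≤ v x) →
  (∀ K : Set E3, IsCompact K → K ⊆ {x : E3 | a ≤ ‖x‖} →
    ∀ f : E3 → ℝ, (∀ x ∈ K, ContDiffAt ℝ 2 f x) →
      (∀ x ∈ K, grad f x ≠ 0 ∧ opN ε g h f x < 0) →
      (∀ x ∈ frontier K, v x ≤ f x) → ∀ x ∈ K, v x ≤ f x) →
  NoIsland (Ann a b) v

/-- F10 (HTWOON): the class `H2On` of `Defs.lean`. -/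
def HTWOON : Prop := ∀ (v : E3 → ℝ) (F : E3 → E3) (N : Fin 3 → E3 → E3) (U : Set E3),
  IsOpen U → H2 v F N → Continuous v → H2On U v (fun x => F x) (mat N)

/-- F11 (LIMX): existence of the sequence and its limit. -/
def LIMX : Prop := ∀ (ε a b η : ℝ) (g h : TensorField), 0 < ε → ε < 1 → 0 < a → 8 * a ≤ b →
  0 < η → GData g h (b / 2) → ∃ Θ θ T t₀ δ κ u G M C v F N,
    Lim ε a b g h Θ θ T t₀ δ κ u G M C v F N ∧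
    (∀ x : E3, ‖x‖ ≤ a / 2 → 1 - η ≤ v x) ∧ (∀ x : E3, 2 * b ≤ ‖x‖ → v x ≤ η)

/-- F12 (FINP): the main theorem of block P. -/
def FINP : Prop := EQL → FLUXL → SUBL → NOISL → HTWOON → LIMX → Stmt_P

end Pool.Agent.PFlow.PB
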