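import Pool.Agent.PFlow.DefsX
import Pool.Agent.PFlow.StmtsPF

/-!
# Block PX: statements of the modules

Existence of the function `u` on an exterior region with the boundary values `1` on `|x| = 1`, and
its reflection. Proofs in `PX.md`. The general part of block P (`StmtsP.lean`, `StmtsK.lean`) is
available; every module proves one of the statements below and takes the ones it needs as
hypotheses.
-/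

open MeasureTheory Filter Topology Set
open scoped ContDiff RealInnerProductSpace

namespace Pool.Agent.PFlow.PB

open Pool.Agent.PenroseSph Pool.Agent.PFlow

/-! ### Definitions -/

/-- The set where the boundary values are prescribed. -/
def ZS (b : ℝ) : Set E3 := {x : E3 | ‖x‖ ≤ 1 ∨ b ≤ ‖x‖}

/-- The weak form of `div A(x, ∇u) + B(x, ∇u) = 0` outside `Z`, with `u = w₀` on `Z`. -/
def WSolZ (A : E3 → E3 → E3) (B : E3 → E3 → ℝ) (Z : Set E3) (w₀ u : E3 → ℝ) (G : E3 → E3) :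
    Prop :=
  H1 u G ∧ (∀ᵐ x, x ∈ Z → u x = w₀ x) ∧
    ∀ φ Φ, H1 φ Φ → (∀ᵐ x, x ∈ Z → φ x = 0) → ∫ x, ⟪A x (G x), Φ x⟫ = ∫ x, B x (G x) * φ x

/-- The weak form of `div A(x, ∇u) + B(x, ∇u) = m (u - v)` outside `Z`, with `u = w₀` on `Z`. -/
def StepZ (A : E3 → E3 → E3) (B : E3 → E3 → ℝ) (Z : Set E3) (w₀ : E3 → ℝ) (m : ℝ)
    (v u : E3 → ℝ) (G : E3 → E3) : Prop :=
  H1 u G ∧ (∀ᵐ x, x ∈ Z → u x = w₀ x) ∧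
    ∀ φ Φ, H1 φ Φ → (∀ᵐ x, x ∈ Z → φ x = 0) →
      ∫ x, ⟪A x (G x), Φ x⟫ = ∫ x, (B x (G x) - m * (u x - v x)) * φ x

/-- `u` is a weak solution of `div A(x, ∇u) + B(x, ∇u) = 0` in the open set `U`. -/
def LSol (A : E3 → E3 → E3) (B : E3 → E3 → ℝ) (U : Set E3) (u : E3 → ℝ) (G : E3 → E3) : Prop :=
  H1 u G ∧ ∀ φ Φ, H1 φ Φ → (∃ K : Set E3, IsCompact K ∧ K ⊆ U ∧ ∀ᵐ x, x ∉ K → φ x = 0) →
    ∫ x, ⟪A x (G x), Φ x⟫ = ∫ x, B x (G x) * φ x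

/-- The transposed Jacobian matrix of the inversion, applied to a covector. -/
noncomputable def JT (x ξ : E3) : E3 := vec fun i => ∑ a, inversionJac x a i * ξ a

/-! ### E: the Dirichlet problem for the regularised equation -/

/-- XSTEP: the problem with the additional term `m (u - v)`. -/
def XSTEP : Prop := ∀ A B c L r, PCoef A B c L r → ∀ (Z : Set E3) (w₀ : E3 → ℝ), Test w₀ →
  ∀ m, L ^ 2 / c + 2 ≤ m → ∀ v, MemLp v 2 → ∃ u G, StepZ A B Z w₀ m v u G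

/-- XORD: comparison for the problem with the additional term. -/
structure XORD : Prop where
  mono : ∀ A B c L r, PCoef A B c L r → ∀ (Z : Set E3) (w₀ : E3 → ℝ), Test w₀ →
    ∀ m, L ^ 2 / c + 2 ≤ m → ∀ v₁ v₂ u₁ u₂ G₁ G₂, MemLp v₁ 2 → MemLp v₂ 2 →
    StepZ A B Z w₀ m v₁ u₁ G₁ → StepZ A B Z w₀ m v₂ u₂ G₂ → (∀ᵐ x, v₁ x ≤ v₂ x) →
    ∀ᵐ x, u₁ x ≤ u₂ x
  nonneg : ∀ A B c L r, PCoef A B c L r → ∀ (Z : Set E3) (w₀ : E3 → ℝ), Test w₀ →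
    (∀ x, 0 ≤ w₀ x) → ∀ m, L ^ 2 / c + 2 ≤ m → ∀ v u G, MemLp v 2 → StepZ A B Z w₀ m v u G →
    (∀ᵐ x, 0 ≤ v x) → ∀ᵐ x, 0 ≤ u x
  le_one : ∀ A B c L r, PCoef A B c L r → ∀ (Z : Set E3) (w₀ : E3 → ℝ), Test w₀ →
    (∀ x, w₀ x ≤ 1) → ∀ m, L ^ 2 / c + 2 ≤ m → ∀ v u G, MemLp v 2 → StepZ A B Z w₀ m v u G →
    (∀ᵐ x, v x ≤ 1) → ∀ᵐ x, u x ≤ 1

/-- XLIPS: the solution depends on `v` in a Lipschitz way. -/
def XLIPS : Prop := ∀ A B c L r, PCoef A B c L r → ∀ m, L ^ 2 / c + 2 ≤ m → ∃ C,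
  ∀ (Z : Set E3) (w₀ : E3 → ℝ), Test w₀ → ∀ v₁ v₂ u₁ u₂ G₁ G₂, MemLp v₁ 2 → MemLp v₂ 2 →
    StepZ A B Z w₀ m v₁ u₁ G₁ → StepZ A B Z w₀ m v₂ u₂ G₂ →
    sq (fun x => u₁ x - u₂ x) + sqv (fun x => G₁ x - G₂ x) ≤ C * sq (fun x => v₁ x - v₂ x)

/-- XEXI: existence for the regularised equation. -/
def XEXI : Prop := ∀ A B c L r, PCoef A B c L r → ∀ (Z : Set E3) (w₀ : E3 → ℝ), Test w₀ →
  (∀ x, 0 ≤ w₀ x ∧ w₀ x ≤ 1) → (∃ ρ : ℝ, ∀ x : E3, ρ ≤ ‖x‖ → x ∈ Z) →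
  ∃ u G, WSolZ A B Z w₀ u G ∧ ∀ᵐ x, 0 ≤ u x ∧ u x ≤ 1

/-! ### C: comparison -/

/-- XCKEY: the main comparison lemma; `s = 1` (lower) or `s = -1` (upper). -/
def XCKEY : Prop := ∀ A B c L r, PCoef A B c L r → ∀ u G, H1 u G → ∀ s : ℝ, (s = 1 ∨ s = -1) →
  ∀ f : E3 → ℝ, ContDiff ℝ 2 f → HasCompactSupport (gr f) →
  ∀ v V, H1 v V → ∀ T : ℝ, (∀ᵐ x, |v x| ≤ T) →
  (∀ φ Φ, H1 φ Φ → (∀ᵐ x, v x ≤ 0 → φ x = 0) →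
    ∫ x, ⟪A x (G x), Φ x⟫ = ∫ x, B x (G x) * φ x) →
  (∀ᵐ x, 0 < v x → V x = s • (gr f x - G x)) → ∀ σ > 0,
  (∀ᵐ x, 0 < v x → σ ≤ s * (opA A x (gr f x) (fun i => hs f i x) + B x (gr f x))) →
  ∀ᵐ x, v x ≤ 0

/-- XCCPT: comparison on a compact set. -/
def XCCPT : Prop := ∀ A B c L r, PCoef A B c L r → ∀ (U : Set E3) u G, LSol A B U u G →
  Continuous u → ∀ s : ℝ, (s = 1 ∨ s = -1) →
  ∀ (K : Set E3) (f : E3 → ℝ), IsCompact K → K ⊆ U → (∀ x ∈ K, ContDiffAt ℝ 2 f x) →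
  ∀ σ > 0, (∀ x ∈ K, 0 < s * (f x - u x) →
    σ ≤ s * (opA A x (gr f x) (fun i => hs f i x) + B x (gr f x))) →
  (∀ x ∈ frontier K, s * (f x - u x) ≤ 0) → ∀ x ∈ K, s * (f x - u x) ≤ 0

/-- XCMP: comparison up to the boundary. -/
def XCMP : Prop := ∀ A B c L r, PCoef A B c L r → ∀ (b : ℝ) (w₀ : E3 → ℝ), 1 < b → Test w₀ →
  (∀ x : E3, ‖x‖ ≤ 1 → w₀ x = 1) → (∀ x : E3, b ≤ ‖x‖ → w₀ x = 0) → ∀ u G,
  WSolZ A B (ZS b) w₀ u G → (∀ᵐ x, 0 ≤ u x ∧ u x ≤ 1) → ∀ s : ℝ, (s = 1 ∨ s = -1) →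
  ∀ f : E3 → ℝ, (∀ x : E3, 1 ≤ ‖x‖ → ‖x‖ ≤ b → ContDiffAt ℝ 2 f x) → ∀ σ > 0,
  (∀ x : E3, 1 ≤ ‖x‖ → ‖x‖ ≤ b →
    σ ≤ s * (opA A x (gr f x) (fun i => hs f i x) + B x (gr f x))) →
  (∀ x : E3, ‖x‖ = 1 → s * (f x - 1) ≤ 0) → (∀ x : E3, ‖x‖ = b → s * f x ≤ 0) →
  ∀ᵐ x : E3, 1 ≤ ‖x‖ → ‖x‖ ≤ b → s * (f x - u x) ≤ 0

/-! ### R: reflection -/

/-- XINV: the coefficients under the inversion (for symmetric data). -/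
def XINV : Prop := ∀ (ε δ κ : ℝ) (g h : TensorField) (r : ℝ), 0 < δ → GData g h r →
  Mirror g h → ∀ x : E3, 1 / 4 < ‖x‖ → ‖x‖ < 4 →
  (∀ ξ η : E3, ⟪cA ε δ κ g x (-JT x ξ), JT x η⟫ =
    -((‖x‖ ^ 6)⁻¹ * ⟪cA ε δ κ g (inversion x) ξ, η⟫)) ∧
  ∀ ξ : E3, cB ε δ g h x (-JT x ξ) = -((‖x‖ ^ 6)⁻¹ * cB ε δ g h (inversion x) ξ)

/-- XCOV: change of variables. -/
structure XCOV : Prop where
  null : ∀ P : E3 → Prop, (∀ᵐ x, P x) → ∀ᵐ x, P (inversion x)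
  int : ∀ (a b : ℝ), 0 < a → a < b → ∀ k : E3 → ℝ, IntegrableOn k (Ann b⁻¹ a⁻¹) →
    IntegrableOn (fun x => (‖x‖ ^ 6)⁻¹ * k (inversion x)) (Ann a b) ∧
    ∫ x in Ann a b, (‖x‖ ^ 6)⁻¹ * k (inversion x) = ∫ x in Ann b⁻¹ a⁻¹, k x
  mem : ∀ (a b : ℝ), 0 < a → a < b → ∃ C : ℝ, 0 ≤ C ∧
    (∀ f : E3 → ℝ, MemLp f 2 → (∀ᵐ x, x ∉ Ann a b → f x = 0) →
      MemLp (fun x => f (inversion x)) 2 ∧ sq (fun x => f (inversion x)) ≤ C * sq f) ∧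
    ∀ F : E3 → E3, MemLp F 2 → (∀ᵐ x, x ∉ Ann a b → F x = 0) →
      MemLp (fun x => JT x (F (inversion x))) 2 ∧
      sqv (fun x => JT x (F (inversion x))) ≤ C * sqv F

/-- XH1I: the composition with the inversion belongs to `H¹`. -/
def XH1I : Prop := ∀ (a b : ℝ), 0 < a → a < b → ∀ f F, H1 f F →
  (∀ᵐ x, x ∉ Ann a b → f x = 0) →
  H1 (fun x => f (inversion x)) (fun x => JT x (F (inversion x)))

/-- XODT: a function of class `C¹` which vanishes on the unit sphere, continued by zero. -/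
def XODT : Prop := ∀ ψ : E3 → ℝ, ContDiff ℝ 1 ψ → HasCompactSupport ψ →
  (∀ x : E3, ‖x‖ = 1 → ψ x = 0) →
  H1 ({x : E3 | 1 < ‖x‖}.indicator ψ) ({x : E3 | 1 < ‖x‖}.indicator (gr ψ))

/-- XODD: the odd part of a test function, continued by zero. -/
def XODD : Prop := ∀ (a b : ℝ), 0 < a → a < 1 → 1 < b → ∀ φ Φ, H1 φ Φ →
  (∀ᵐ x, x ∉ Ann a b → φ x = 0) →
  H1 ({x : E3 | 1 < ‖x‖}.indicator fun x => φ x - φ (inversion x))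
    ({x : E3 | 1 < ‖x‖}.indicator fun x => Φ x - JT x (Φ (inversion x)))

/-- XREF: the reflected function is a weak solution across the sphere `|x| = 1`. -/
def XREF : Prop := ∀ (ε δ κ R : ℝ) (g h : TensorField) (w₀ : E3 → ℝ), 0 < ε → ε < 1 →
  0 < δ → 0 < κ → 8 ≤ R → GData g h (R / 2) → Mirror g h →
  (∀ x : E3, ‖x‖ ≤ 1 → w₀ x = 1) → (∀ x : E3, 2 * R ≤ ‖x‖ → w₀ x = 0) → ∀ u G,
  WSolZ (cA ε δ κ g) (cB ε δ g h) (ZS (2 * R)) w₀ u G → (∀ᵐ x, 0 ≤ u x ∧ u x ≤ 1) →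
  ∃ y Y, LSol (cA ε δ κ g) (cB ε δ g h) (Ann (1 / 3) (2 * R)) y Y ∧
    (∀ᵐ x, 0 ≤ y x ∧ y x ≤ 2) ∧ (∀ᵐ x : E3, 1 ≤ ‖x‖ → y x = u x) ∧
    ∀ᵐ x : E3, x ∈ Ann (1 / 3) 3 → y (inversion x) = 2 - y x

/-! ### L: local regularity -/

/-- XLCG: weak solutions which agree on an open set. -/
def XLCG : Prop := ∀ A B c L r, PCoef A B c L r → ∀ (U O : Set E3) u G w W, LSol A B U u G →
  H1 w W → O ⊆ U → (∀ᵐ x, x ∈ O → w x = u x) → LSol A B O w W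

/-- XDQ: second derivatives of weak solutions. -/
def XDQ : Prop := ∀ A B c L r, PCoef A B c L r → ∀ (U : Set E3) u G, IsOpen U →
  LSol A B U u G → ∀ ζ : E3 → ℝ, Test ζ → tsupport ζ ⊆ U → ∀ i, ∃ N, H1 (fun x => ζ x * G x i) N

/-- XHTW: weak solutions belong to `H²` locally. -/
def XHTW : Prop := ∀ A B c L r, PCoef A B c L r → ∀ (U : Set E3) u G, IsOpen U →
  LSol A B U u G → ∀ ζ : E3 → ℝ, Test ζ → tsupport ζ ⊆ U →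
  ∃ N, H2 (fun x => ζ x * u x) (fun x => ζ x • G x + u x • gr ζ x) N

/-- XDVF: the divergence of `A(x, ∇w)`. -/
def XDVF : Prop := ∀ A B c L r, PCoef A B c L r → ∀ w W N, H2 w W N →
  MemLp (fun x => opA A x (W x) (fun i => N i x)) 2 ∧ ∀ φ, Test φ →
    ∫ x, ⟪A x (W x), gr φ x⟫ = - ∫ x, opA A x (W x) (fun i => N i x) * φ x

/-- XNDV: the equation in nondivergence form. -/
def XNDV : Prop := ∀ A B c L r, PCoef A B c L r → ∀ (O : Set E3) w W N, IsOpen O →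
  LSol A B O w W → H2 w W N →
  ∀ᵐ x, x ∈ O → opA A x (W x) (fun i => N i x) + B x (W x) = 0

/-! ### U: the uniform estimate -/

/-- XCRD: the integrated Cordes inequality with an integrable error term. -/
def XCRD : Prop := ∀ (ε : ℝ) (g h : TensorField) (r : ℝ), 0 < ε → ε < 1 → GData g h r →
  ∀ C₀ : ℝ, ∃ C : ℝ, ∀ u G M (E : E3 → ℝ), H2 u G M → Integrable E → (∀ᵐ x, 0 ≤ E x) →
    (∀ᵐ x, trg g x (cHess g x (G x) (mt fun i => M i x)) ^ 2 ≤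
      (1 - ε) * nsq g x (cHess g x (G x) (mt fun i => M i x)) + C₀ * (‖G x‖ ^ 2 + E x)) →
    ∑ i, sqv (M i) ≤ C * (sqv G + ∫ x, E x)

/-- XPRD: the product with the square of a cut-off function. -/
def XPRD : Prop := ∀ ζ : E3 → ℝ, Test ζ → (∀ x, 0 ≤ ζ x ∧ ζ x ≤ 1) → ∃ C : ℝ, 0 ≤ C ∧
  ∀ w W N, H2 w W N → (∀ᵐ x, |w x| ≤ 2) →
  ∃ Z P, H2 (fun x => ζ x ^ 2 * w x) Z P ∧
    (∀ᵐ x, ‖Z x - ζ x ^ 2 • W x‖ ≤ C * (tsupport ζ).indicator (fun _ => 1) x) ∧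
    ∀ᵐ x, ∀ i, ‖P i x - ζ x ^ 2 • N i x‖ ≤
      C * (ζ x * ‖W x‖ + (tsupport ζ).indicator (fun _ => 1) x)

/-- XPTW: the pointwise Cordes inequality for the product. -/
def XPTW : Prop := ∀ (ε : ℝ) (g h : TensorField) (r : ℝ), 0 < ε → ε < 1 → GData g h r →
  ∀ C₁ : ℝ, ∃ C₀ : ℝ, 0 ≤ C₀ ∧ ∀ (x : E3) (t χ : ℝ) (W Z : E3) (N P : Fin 3 → E3),
    0 ≤ t → t ≤ 1 → 0 ≤ χ →
    trg g x (cHess g x W (mt N)) ^ 2 ≤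
      (1 - ε) * nsq g x (cHess g x W (mt N)) + C₁ * ‖W‖ ^ 2 →
    ‖Z - t ^ 2 • W‖ ≤ C₁ * χ → (∀ i, ‖P i - t ^ 2 • N i‖ ≤ C₁ * (t * ‖W‖ + χ)) →
    trg g x (cHess g x Z (mt P)) ^ 2 ≤
      (1 - ε / 2) * nsq g x (cHess g x Z (mt P)) + C₀ * (t ^ 2 * ‖W‖ ^ 2 + χ ^ 2)

/-- XBYP: integration by parts for the first derivatives. -/
def XBYP : Prop := ∀ ζ : E3 → ℝ, Test ζ → (∀ x, 0 ≤ ζ x ∧ ζ x ≤ 1) → ∃ C : ℝ, 0 ≤ C ∧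
  ∀ w W N, H2 w W N → (∀ᵐ x, |w x| ≤ 2) →
  ∫ x, ζ x ^ 2 * ‖W x‖ ^ 2 ≤ C * (1 + √(∫ x, ζ x ^ 4 * ∑ i, ‖N i x‖ ^ 2))

/-- XUNIF: local bound in `H²`, uniform in `δ, κ`. -/
def XUNIF : Prop := ∀ (ε : ℝ) (g h : TensorField) (r : ℝ) (U : Set E3) (ζ : E3 → ℝ),
  0 < ε → ε < 1 → 0 < r → GData g h r → IsOpen U → Test ζ → (∀ x, 0 ≤ ζ x ∧ ζ x ≤ 1) →
  tsupport ζ ⊆ U → ∃ C : ℝ, ∀ δ κ : ℝ, 0 < δ → δ ≤ 1 → 0 < κ → κ ≤ 1 → ∀ u G,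
    LSol (cA ε δ κ g) (cB ε δ g h) U u G → (∀ᵐ x, |u x| ≤ 2) →
    ∃ Z N, H2 (fun x => ζ x ^ 2 * u x) Z N ∧
      sq (fun x => ζ x ^ 2 * u x) + sqv Z + ∑ i, sqv (N i) ≤ C

/-! ### F: the limit -/

/-- The limit `δ, κ → 0`: everything that is known about the sequence of regularised solutions
`u n`, their continuous reflected versions `v n`, and the limit `w`. -/
structure LimX (ε R : ℝ) (g h : TensorField) (w₀ : E3 → ℝ) (δ κ : ℕ → ℝ) (u : ℕ → E3 → ℝ)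
    (G : ℕ → E3 → E3) (v : ℕ → E3 → ℝ) (V : ℕ → E3 → E3) (M : ℕ → Fin 3 → E3 → E3) (C : ℝ)
    (w : E3 → ℝ) (F : E3 → E3) (N : Fin 3 → E3 → E3) : Prop where
  eps_pos : 0 < ε
  eps_lt : ε < 1
  hR : 8 ≤ R
  data : GData g h (R / 2)
  test : Test w₀
  w₀_in : ∀ x : E3, ‖x‖ ≤ 1 → w₀ x = 1
  w₀_out : ∀ x : E3, 2 * R ≤ ‖x‖ → w₀ x = 0
  δ_pos : ∀ n, 0 < δ n
  δ_le : ∀ n, δ n ≤ 1
  δ_tend : Tendsto δ atTop (𝓝 0)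
  κ_pos : ∀ n, 0 < κ n
  κ_le : ∀ n, κ n ≤ 1
  κ_tend : Tendsto κ atTop (𝓝 0)
  sol : ∀ n, WSolZ (cA ε (δ n) (κ n) g) (cB ε (δ n) g h) (ZS (2 * R)) w₀ (u n) (G n)
  bdd : ∀ n, ∀ᵐ x, 0 ≤ u n x ∧ u n x ≤ 1
  loc : ∀ n, LSol (cA ε (δ n) (κ n) g) (cB ε (δ n) g h) (Ann (2 / 5) (3 * R / 2)) (v n) (V n)
  h2 : ∀ n, H2 (v n) (V n) (M n)
  cont : ∀ n, Continuous (v n)
  out : ∀ n, ∀ᵐ x : E3, 1 ≤ ‖x‖ → ‖x‖ < 3 * R / 2 → v n x = u n x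
  refl : ∀ n, ∀ x ∈ Ann (1 / 2) 2, v n (inversion x) = 2 - v n x
  bound : ∀ n, sq (v n) + sqv (V n) + ∑ i, sqv (M n i) ≤ C
  h2w : H2 w F N
  contw : Continuous w
  unif : ∀ K : Set E3, IsCompact K → TendstoUniformlyOn v w atTop K
  strong : ∀ K : Set E3, IsCompact K →
    Tendsto (fun n => ∫ x in K, ‖V n x - F x‖ ^ 2) atTop (𝓝 0)
  ae : ∀ᵐ x, Tendsto (fun n => V n x) atTop (𝓝 (F x))
  weak : ∀ ψ : E3 → ℝ, MemLp ψ 2 → ∀ i j,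
    Tendsto (fun n => ∫ x, ψ x * M n i x j) atTop (𝓝 (∫ x, ψ x * N i x j))

/-- XLIM: existence of the sequence and its limit. -/
def XLIM : Prop := ∀ (ε R : ℝ) (g h : TensorField), 0 < ε → ε < 1 → 8 ≤ R →
  GData g h (R / 2) → Mirror g h →
  ∃ w₀ δ κ u G v V M C w F N, LimX ε R g h w₀ δ κ u G v V M C w F N

/-- XEQL: the equation of the limit. -/
def XEQL : Prop := ∀ ε R g h w₀ δ κ u G v V M C w F N,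
  LimX ε R g h w₀ δ κ u G v V M C w F N → EqU (Ann (1 / 2) R) ε g h (fun x => F x) (mat N)

/-- XFLX: the flux identity of the limit. -/
def XFLX : Prop := ∀ ε R g h w₀ δ κ u G v V M C w F N,
  LimX ε R g h w₀ δ κ u G v V M C w F N →
  ∀ χ : E3 → ℝ, ContDiff ℝ 1 χ → HasCompactSupport χ → tsupport χ ⊆ Ann (1 / 2) R →
    ∫ x, len g x (F x) ^ (ε - 1) * ev (g x)⁻¹ (F x) (grad χ x) * volDen g x
      = ∫ x, len g x (F x) ^ ε * beps ε g x (F x) (h x) * χ x * volDen g x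

/-- XSUB: comparison for the limit, on compact sets. -/
def XSUB : Prop := ∀ ε R g h w₀ δ κ u G v V M C w F N,
  LimX ε R g h w₀ δ κ u G v V M C w F N →
  ∀ K : Set E3, IsCompact K → K ⊆ Ann (2 / 5) (3 * R / 2) → ∀ f : E3 → ℝ,
    (∀ x ∈ K, ContDiffAt ℝ 2 f x) →
    ((∀ x ∈ K, grad f x ≠ 0 ∧ 0 < opN ε g h f x) →
      (∀ x ∈ frontier K, f x ≤ w x) → ∀ x ∈ K, f x ≤ w x) ∧
    ((∀ x ∈ K, grad f x ≠ 0 ∧ opN ε g h f x < 0) →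
      (∀ x ∈ frontier K, w x ≤ f x) → ∀ x ∈ K, w x ≤ f x)

/-- XNOI: no islands, from the comparison principle. -/
def XNOI : Prop := ∀ (ε r : ℝ) (U : Set E3) (g h : TensorField) (w : E3 → ℝ), 0 < ε → ε < 1 →
  GData g h r → Continuous w →
  (∀ K : Set E3, IsCompact K → K ⊆ U → ∀ f : E3 → ℝ, (∀ x ∈ K, ContDiffAt ℝ 2 f x) →
    ((∀ x ∈ K, grad f x ≠ 0 ∧ 0 < opN ε g h f x) →
      (∀ x ∈ frontier K, f x ≤ w x) → ∀ x ∈ K, f x ≤ w x) ∧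
    ((∀ x ∈ K, grad f x ≠ 0 ∧ opN ε g h f x < 0) →
      (∀ x ∈ frontier K, w x ≤ f x) → ∀ x ∈ K, w x ≤ f x)) →
  NoIsland U w

/-- XCML: comparison for the limit, up to the boundary. -/
def XCML : Prop := ∀ ε R g h w₀ δ κ u G v V M C w F N,
  LimX ε R g h w₀ δ κ u G v V M C w F N → ∀ f : E3 → ℝ,
  ((∀ x : E3, 1 ≤ ‖x‖ → ‖x‖ ≤ 2 * R → ContDiffAt ℝ 2 f x ∧ grad f x ≠ 0 ∧
      0 < opN ε g h f x) → (∀ x : E3, ‖x‖ = 1 → f x ≤ 1) → (∀ x : E3, ‖x‖ = 2 * R → f x ≤ 0) →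
    ∀ x : E3, 1 ≤ ‖x‖ → ‖x‖ < R → f x ≤ w x) ∧
  ((∀ x : E3, 1 ≤ ‖x‖ → ‖x‖ ≤ 2 * R → ContDiffAt ℝ 2 f x ∧ grad f x ≠ 0 ∧
      opN ε g h f x < 0) → (∀ x : E3, ‖x‖ = 1 → 1 ≤ f x) → (∀ x : E3, ‖x‖ = 2 * R → 0 ≤ f x) →
    ∀ x : E3, 1 ≤ ‖x‖ → ‖x‖ < R → w x ≤ f x)

/-- XFIN: the main theorem of block PX. -/
def XFIN : Prop := XEQL → XFLX → XSUB → XNOI → XCML → HTWOON → XLIM → Stmt_PX

end Pool.Agent.PFlow.PB
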