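import Pool.Agent.PFlow.Defs

/-!
# Interface of the PDE block

`Solution` collects what the PDE block delivers on the annulus `a < |x| < b`; `Stmt_P` is its main
theorem.
-/

open MeasureTheory Filter Topology
open scoped ContDiff

namespace Pool.Agent.PFlow

open Pool.Agent.PenroseSph

/-- The open annulus. -/
def Ann (a b : ℝ) : Set E3 := {x : E3 | a < ‖x‖ ∧ ‖x‖ < b}

/-- The operator `N(f) = Δf - (1-ε) ∇²f(n,n) + |∇f| (tr h - (1-ε) h(n,n))`, `n = ∇f/|∇f|`. -/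
noncomputable def opN (ε : ℝ) (g h : TensorField) (f : E3 → ℝ) (x : E3) : ℝ :=
  beps ε g x (grad f x) (cHess g x (grad f x) (hess2 f x))
    + len g x (grad f x) * beps ε g x (grad f x) (h x)

/-- The solution `u` of the PDE block on the annulus `a < |x| < b`, close to `1` for `|x| ≤ a/2` and
close to `0` for `|x| ≥ 2 b`. -/
structure Solution (ε a b η : ℝ) (g h : TensorField) (u : E3 → ℝ) (G : E3 → Cov) (M : E3 → Bil) :
    Prop where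
  cont : Continuous u
  nonneg : ∀ x, 0 ≤ u x
  le_one : ∀ x, u x ≤ 1
  inner : ∀ x : E3, ‖x‖ ≤ a / 2 → 1 - η ≤ u x
  outer : ∀ x : E3, 2 * b ≤ ‖x‖ → u x ≤ η
  h2 : H2On (Ann a b) u G M
  eq : EqU (Ann a b) ε g h G M
  /-- the weak form of `div (|∇u|^(ε-1) ∇u) = - |∇u|^ε (tr h - (1-ε) h(ν,ν))` -/
  flux : ∀ χ : E3 → ℝ, ContDiff ℝ 1 χ → HasCompactSupport χ → tsupport χ ⊆ Ann a b →
    ∫ x, len g x (G x) ^ (ε - 1) * ev (g x)⁻¹ (G x) (grad χ x) * volDen g x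
      = ∫ x, len g x (G x) ^ ε * beps ε g x (G x) (h x) * χ x * volDen g x
  /-- comparison with strict subsolutions -/
  sub : ∀ K : Set E3, IsCompact K → K ⊆ {x : E3 | a / 2 ≤ ‖x‖ ∧ ‖x‖ ≤ b} →
    ∀ f : E3 → ℝ, (∀ x ∈ K, ContDiffAt ℝ 2 f x) →
      (∀ x ∈ K, grad f x ≠ 0 ∧ 0 < opN ε g h f x) →
      (∀ x ∈ frontier K, f x ≤ u x) → ∀ x ∈ K, f x ≤ u x
  /-- comparison with strict supersolutions -/
  super : ∀ K : Set E3, IsCompact K → K ⊆ {x : E3 | a ≤ ‖x‖ ∧ ‖x‖ ≤ 2 * b} →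
    ∀ f : E3 → ℝ, (∀ x ∈ K, ContDiffAt ℝ 2 f x) →
      (∀ x ∈ K, grad f x ≠ 0 ∧ opN ε g h f x < 0) →
      (∀ x ∈ frontier K, u x ≤ f x) → ∀ x ∈ K, u x ≤ f x
  noIsland : NoIsland (Ann a b) u

/-- **Main theorem of the PDE block.** -/
def Stmt_P : Prop :=
  ∀ (ε a b η : ℝ) (g h : TensorField), 0 < ε → ε < 1 → 0 < a → 8 * a ≤ b → 0 < η →
    MetricOn Set.univ g → TensorOn Set.univ h →
    (∀ x : E3, b / 2 ≤ ‖x‖ → g x = 1 ∧ h x = 0) →
    ∃ (u : E3 → ℝ) (G : E3 → Cov) (M : E3 → Bil), Solution ε a b η g h u G M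

end Pool.Agent.PFlow
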