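import Pool.Agent.PFlow.StmtsE3

/-!
# The final form of the theorem: weak conditions on `h` far out
-/

open MeasureTheory Filter Topology
open scoped ContDiff ENNReal

namespace Pool.Agent.PFlow

open Pool.Agent.PenroseSph

/-- Far out, the radial component of `h` satisfies `h(ν, ν) ≥ -(1-δ) tr h` (where `tr h ≥ 0`), resp.
`h(ν, ν) ≤ -(1-δ) tr h` (where `tr h ≤ 0`), with `δ > 0`. With `δ = 0` this follows from
`PlaneSign`. It holds if `h` is positive or negative semidefinite at every point, in particular if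
`h` is a multiple of the metric at every point. -/
def FarStrict (g h : TensorField) : Prop :=
  ∃ δ R : ℝ, 0 < δ ∧ ∀ x : E3, R ≤ ‖x‖ →
    (0 ≤ trg g x (h x) →
      -(1 - δ) * trg g x (h x) * ev (g x) (fun i => x i) (fun i => x i)
        ≤ ev (h x) (fun i => x i) (fun i => x i)) ∧
    (trg g x (h x) ≤ 0 →
      ev (h x) (fun i => x i) (fun i => x i)
        ≤ -(1 - δ) * trg g x (h x) * ev (g x) (fun i => x i) (fun i => x i))

/-- The condition on `h` at the end at infinity: `FarStrict`, or the mean of `|h|` over the shell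
`l/2 ≤ |x| ≤ l` is `o(l⁻²)`. -/
def FarCondition (g h : TensorField) : Prop :=
  FarStrict g h ∨ Tendsto (fun l : ℝ => ∫ x in cAnn (l / 2) l, msz (h x) / l) atTop (𝓝 0)

/-- **The main theorem.** -/
def Stmt_MAIN2 : Prop :=
  ∀ (g h : TensorField) (m : ℝ), TwoEnded g h → DominantEnergy 0 g h → PlaneSign g h →
    FarCondition g h → IsTotalMass g m →
    minArea g ≠ ⊤ ∧ Real.sqrt ((minArea g).toReal / (16 * Real.pi)) ≤ m

/-- JINT: the momentum density is integrable. -/
def Stmt_JINT : Prop :=
  ∀ g h : TensorField, TwoEnded g h → DominantEnergy 0 g h →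
    ∃ C : ℝ, ∀ R : ℝ, 1 ≤ R → ∫ x in cAnn 1 R, jlen g h x ≤ C

/-- TINT: the trace divided by the radius is integrable. -/
def Stmt_TINT : Prop :=
  ∀ g h : TensorField, TwoEnded g h → DominantEnergy 0 g h → PlaneSign g h → FarStrict g h →
    IntegrableOn (fun x => |trg g x (h x)| / ‖x‖) {x : E3 | 1 ≤ ‖x‖}

/-- LIMK2: the mean of `|h|` over large shells. -/
def Stmt_LIMK2 : Prop :=
  ∀ g h : TensorField, TwoEnded g h → DominantEnergy 0 g h → PlaneSign g h → FarStrict g h →
    Tendsto (fun l : ℝ => ∫ x in cAnn (l / 2) l, msz (h x) / l) atTop (𝓝 0)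

end Pool.Agent.PFlow
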