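import Pool.Agent.PFlow.StmtsE4

/-!
# The final form of the theorem: comparison of tensors
-/

open MeasureTheory Filter Topology
open scoped ContDiff ENNReal

namespace Pool.Agent.PFlow

open Pool.Agent.PenroseSph

/-- `|h|² - (tr h)² + 2|J|`: the dominant energy condition says that this is at most the scalar
curvature of `g`. -/
noncomputable def required (g h : TensorField) (x : E3) : ℝ :=
  nsq g x (h x) - trg g x (h x) ^ 2 + 2 * jlen g h x

/-- `k` is a plane-signed asymptotically flat tensor which requires at most as much scalar
curvature as `h`. -/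
structure Competitor (g h k : TensorField) : Prop where
  tensor : TensorOn {0}ᶜ k
  end_one : ∃ C R : ℝ, DecayFrom C R g k
  end_two : ∃ C R : ℝ, DecayFrom C R (inverted g) (inverted k)
  plane : PlaneSign g k
  far : FarCondition g k
  energy : ∀ x : E3, x ≠ 0 → required g k x ≤ required g h x

/-- The gradient of `tr h` is dominated by the momentum density and the trace-free part:
`(4/3)|d tr h| ≤ |h|² - (tr h)²/3 + 2|J|`. It holds for instance if the trace-free part of `h` is
divergence-free. -/
def TraceDominated (g h : TensorField) : Prop :=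
  ∀ x : E3, x ≠ 0 → 4 / 3 * len g x (grad (fun y => trg g y (h y)) x)
    ≤ nsq g x (h x) - trg g x (h x) ^ 2 / 3 + 2 * jlen g h x

/-- The tensor `(tr h / 3) g`. -/
noncomputable def traceTensor (g h : TensorField) : TensorField := fun x =>
  (trg g x (h x) / 3) • g x

/-- MAIN3: the main theorem with a competitor. -/
def Stmt_MAIN3 : Prop :=
  ∀ (g h : TensorField) (m : ℝ), TwoEnded g h → DominantEnergy 0 g h →
    (∃ k : TensorField, Competitor g h k) → IsTotalMass g m →
    minArea g ≠ ⊤ ∧ Real.sqrt ((minArea g).toReal / (16 * Real.pi)) ≤ m

/-- TRD: competitors in the trace-dominated case. -/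
def Stmt_TRD : Prop :=
  ∀ g h : TensorField, TwoEnded g h → TraceDominated g h → Competitor g h (traceTensor g h)

/-- TFD: if the trace-free part of `h` is divergence-free then `h` is trace-dominated. -/
def Stmt_TFD : Prop :=
  ∀ g h : TensorField, MetricOn {0}ᶜ g → TensorOn {0}ᶜ h →
    (∀ x : E3, x ≠ 0 → ∀ j, divergence g (fun y => h y - traceTensor g h y) j x = 0) →
    TraceDominated g h

end Pool.Agent.PFlow
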