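import Pool.Agent.PFlow.DefsG
import Pool.Agent.PenroseConvex.Stmts

/-!
# Statements of the block GB (see `GB.md`)
-/

open MeasureTheory Filter Topology
open scoped ContDiff

namespace Pool.Agent.PFlow.GB

open Pool.Agent.PenroseSph Pool.Agent.PFlow

/-! ## Definitions -/

/-- `g` is a smooth metric and `W` is smooth without critical points, near `x`. -/
def Reg (g : TensorField) (W : E3 → ℝ) (x : E3) : Prop :=
  ∃ O : Set E3, IsOpen O ∧ x ∈ O ∧ MetricOn O g ∧ ContDiffOn ℝ ∞ W O ∧ ∀ y ∈ O, grad W y ≠ 0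

/-- The projection `P^{ij} = g^{ij} - ν^i ν^j`. -/
noncomputable def prj (g : TensorField) (x : E3) (p : Cov) (i j : Fin 3) : ℝ :=
  (g x)⁻¹ i j - nrm g x p i * nrm g x p j

/-- The vector `P A`. -/
noncomputable def prv (g : TensorField) (x : E3) (p : Cov) (A : Cov) : Cov := fun i =>
  ∑ j, prj g x p i j * A j

/-- The vector field
`X = ((1/2) grad f - (L φ) grad φ - f grad u) / (f + δ e^{2u})`, `f = ⟨dφ, dφ⟩`. -/
noncomputable def Xf (g : TensorField) (W φ u : E3 → ℝ) (δ : ℝ) (x : E3) : Cov := fun i =>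
  (lgrad g W (lin g W φ φ) x i / 2 - lap g W φ x * lgrad g W φ x i
    - lin g W φ φ x * lgrad g W u x i) / (lin g W φ φ x + δ * Real.exp (2 * u x))

/-- The function `q(x,y) = (1/2) (g_ij(x) + g_ij(y)) v^i v^j`, `v = x - y`. -/
noncomputable def qf (g : TensorField) (x y : E3) : ℝ :=
  (1 / 2) * ∑ i, ∑ j, (g x i j + g y i j) * (x i - y i) * (x j - y j)

/-- The radial profile of the kernel. -/
noncomputable def eta (s : ℝ) : ℝ := Real.smoothTransition (1 - s)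

/-- The profile of the kernel across the leaves. -/
noncomputable def tht (s : ℝ) : ℝ := Real.smoothTransition (1 - s ^ 2)

open Classical in
/-- The kernel `k_t(x,y)`. -/
noncomputable def ker (g : TensorField) (W : E3 → ℝ) (r0 t : ℝ) (x y : E3) : ℝ :=
  if dist x y < r0 then eta (qf g x y / t) * tht ((W x - W y) / t) / t ^ 2 else 0

/-- A family of smoothing kernels adapted to the leaves in `cslab V W c d`. -/
structure Moll (V : Set E3) (g : TensorField) (W : E3 → ℝ) (c d : ℝ) (k : ℝ → E3 → E3 → ℝ)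
    (t0 R C m0 : ℝ) : Prop where
  t0_pos : 0 < t0
  R_pos : 0 < R
  C_pos : 0 < C
  m0_pos : 0 < m0
  symm : ∀ t x y, k t x y = k t y x
  nonneg : ∀ t x y, 0 < t → 0 ≤ k t x y
  le : ∀ t x y, 0 < t → k t x y ≤ C / t ^ 2
  smooth : ∀ t, 0 < t → t < t0 → ∃ N : Set E3, IsOpen N ∧ cslab V W c d ⊆ N ∧ N ⊆ V ∧
    ContDiffOn ℝ ∞ (fun q : E3 × E3 => k t q.1 q.2) (N ×ˢ Set.univ)
  supp : ∀ t, 0 < t → t < t0 → ∀ x ∈ cslab V W c d, ∀ y, k t x y ≠ 0 →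
    y ∈ V ∧ dist x y ≤ R * Real.sqrt t ∧ |W x - W y| < t
  ball : ∀ t, 0 < t → t < t0 → ∀ x ∈ cslab V W c d, ∀ y, dist x y ≤ R * Real.sqrt t → y ∈ V
  comm : ∀ t, 0 < t → t < t0 → ∀ x ∈ cslab V W c d, ∀ y ∈ cslab V W c d,
    |lap g W (fun z => k t z y) x - lap g W (fun z => k t x z) y| ≤ C / t ^ 2
  loc : ∀ t, 0 < t → t < t0 → ∀ x ∈ cslab V W c d, ∀ y ∈ cslab V W c d,
    ¬ (dist x y ≤ R * Real.sqrt t ∧ |W x - W y| ≤ t) →
    lap g W (fun z => k t z y) x = 0 ∧ lap g W (fun z => k t x z) y = 0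
  vol : ∀ t, 0 < t → t < t0 → ∀ x ∈ cslab V W c d,
    volume {y | dist x y ≤ R * Real.sqrt t ∧ |W x - W y| ≤ t} ≤ ENNReal.ofReal (C * t ^ 2)
  mass : ∀ x ∈ slab V W c d,
    Tendsto (fun t => ∫ y in slab V W c d, k t x y * dens g W y) (𝓝[>] 0) (𝓝 m0)

/-- The smoothed function `v_t`. -/
noncomputable def moll (V : Set E3) (g : TensorField) (W : E3 → ℝ) (c d : ℝ)
    (k : ℝ → E3 → E3 → ℝ) (t : ℝ) (v : E3 → ℝ) (x : E3) : ℝ :=
  ∫ y in slab V W c d, k t x y * v y * dens g W y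

/-- The commutator `e_t(x) = ∫ (L_x k_t - L_y k_t) v m dy`. -/
noncomputable def cmt (V : Set E3) (g : TensorField) (W : E3 → ℝ) (c d : ℝ)
    (k : ℝ → E3 → E3 → ℝ) (t : ℝ) (v : E3 → ℝ) (x : E3) : ℝ :=
  ∫ y in slab V W c d,
    (lap g W (fun z => k t z y) x - lap g W (fun z => k t x z) y) * v y * dens g W y

/-- The point with coordinates `a, b, s`. -/
noncomputable def pt (a b s : ℝ) : E3 := !₂[a, b, s]

/-- The closed box. -/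
def box (z0 : E3) (r e : ℝ) : Set E3 :=
  {z | |z 0 - z0 0| ≤ r ∧ |z 1 - z0 1| ≤ r ∧ |z 2 - z0 2| ≤ e}

/-- The open box. -/
def obox (z0 : E3) (r e : ℝ) : Set E3 :=
  {z | |z 0 - z0 0| < r ∧ |z 1 - z0 1| < r ∧ |z 2 - z0 2| < e}

/-- A chart adapted to the leaves: `W (Φ z) = z 2`. -/
structure Chart (V : Set E3) (W : E3 → ℝ) (Φ : E3 → E3) (z0 : E3) (r e : ℝ) : Prop where
  r_pos : 0 < r
  e_pos : 0 < e
  nbhd : ∃ N : Set E3, IsOpen N ∧ box z0 r e ⊆ N ∧ ContDiffOn ℝ ∞ Φ N ∧ Set.InjOn Φ N ∧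
    Set.MapsTo Φ N V ∧ (∀ z ∈ N, (fderiv ℝ Φ z).det ≠ 0) ∧ ∀ z ∈ N, W (Φ z) = z 2

/-- The density of the measure `m dx` in the chart. -/
noncomputable def jac (g : TensorField) (W : E3 → ℝ) (Φ : E3 → E3) (z : E3) : ℝ :=
  dens g W (Φ z) * |(fderiv ℝ Φ z).det|

/-- The integral of `F` over the part of the leaf `W = s` in the chart. -/
noncomputable def cint (g : TensorField) (W : E3 → ℝ) (Φ : E3 → E3) (z0 : E3) (r : ℝ)
    (F : E3 → ℝ) (s : ℝ) : ℝ :=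
  ∫ a in Set.Ioo (z0 0 - r) (z0 0 + r), ∫ b in Set.Ioo (z0 1 - r) (z0 1 + r),
    F (Φ (pt a b s)) * jac g W Φ (pt a b s)

/-- Bounded measurable functions on `E3`. -/
def BddMeas (ρ : E3 → ℝ) : Prop := Measurable ρ ∧ ∃ B, ∀ x, |ρ x| ≤ B

/-- Bounded measurable functions on `ℝ`. -/
def BddMeasR (γ : ℝ → ℝ) : Prop := Measurable γ ∧ ∃ B, ∀ s, |γ s| ≤ B

/-- `ρ` is a leafwise divergence in the weak sense, on `slab V W (s0 - e) (s0 + e)`. -/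
def NullOn (V : Set E3) (g : TensorField) (W : E3 → ℝ) (s0 e : ℝ) (ρ : E3 → ℝ) : Prop :=
  ∃ C : ℝ, 0 ≤ C ∧ ∀ α : ℝ → ℝ, BddMeasR α → ∀ v : E3 → ℝ, ContDiffOn ℝ 1 v V →
    |∫ x in slab V W (s0 - e) (s0 + e), ρ x * α (W x) * v x * dens g W x| ≤
      C * ∫ x in slab V W (s0 - e) (s0 + e),
        |α (W x)| * Real.sqrt (lin g W v v x) * dens g W x

/-- The pole function `x ↦ q(x, p(W x))` of the curve `p(s) = Φ(z0_0 + τ, z0_1, s)`. -/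
noncomputable def rp (g : TensorField) (W : E3 → ℝ) (Φ : E3 → E3) (z0 : E3) (τ : ℝ) (x : E3) : ℝ :=
  qf g x (Φ (pt (z0 0 + τ) (z0 1) (W x)))

/-- The truncated logarithm: `log s` for `s ≤ t1/2`, `0` for `s ≥ t1`. -/
noncomputable def lg (t1 s : ℝ) : ℝ := Real.log s * Real.smoothTransition (2 - 2 * s / t1)

open Classical in
/-- The singular function `φ₀`. -/
noncomputable def phi0 (g : TensorField) (W : E3 → ℝ) (Φ : E3 → E3) (z0 : E3) (r e t1 : ℝ)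
    (x : E3) : ℝ :=
  if x ∈ Φ '' obox z0 r e then
    (lg t1 (rp g W Φ z0 (-(r / 2)) x) - lg t1 (rp g W Φ z0 (r / 2) x)) / 2 else 0

/-- The two curves. -/
def sing (g : TensorField) (W : E3 → ℝ) (Φ : E3 → E3) (z0 : E3) (r e : ℝ) : Set E3 :=
  {x | x ∈ Φ '' obox z0 r e ∧ (rp g W Φ z0 (-(r / 2)) x = 0 ∨ rp g W Φ z0 (r / 2) x = 0)}

open Classical in
/-- The function `ρ₀ = L φ₀` off the curves, `0` on them. -/
noncomputable def rho0 (g : TensorField) (W : E3 → ℝ) (Φ : E3 → E3) (z0 : E3) (r e t1 : ℝ)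
    (x : E3) : ℝ :=
  if x ∈ sing g W Φ z0 r e then 0 else lap g W (phi0 g W Φ z0 r e t1) x

/-- The two poles are separated at the level `t1`: in the chart, each pole function is at least
`t1` where the other one is at most `t1` and near the lateral boundary of the box. -/
def SepAt (g : TensorField) (W : E3 → ℝ) (Φ : E3 → E3) (z0 : E3) (r e t1 : ℝ) : Prop :=
  0 < t1 ∧ ∀ z ∈ box z0 r e, ∀ τ : ℝ, (τ = r / 2 ∨ τ = -(r / 2)) →
    rp g W Φ z0 τ (Φ z) ≤ t1 → |z 0 - (z0 0 + τ)| ≤ r / 4 ∧ |z 1 - z0 1| ≤ r / 4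

/-! ## 1. Algebra and calculus -/

/-- (ALG) Linear algebra at a point. -/
def Stmt_ALG : Prop :=
  ∀ (g : TensorField) (x : E3) (p : Cov), (g x).PosDef → p ≠ 0 →
    0 < len g x p ∧ 0 < volDen g x ∧
    (∑ i, nrm g x p i * p i = len g x p) ∧ ev (g x) (nrm g x p) (nrm g x p) = 1 ∧
    (∀ i j, prj g x p i j = prj g x p j i) ∧ (∀ i, ∑ j, prj g x p i j * p j = 0) ∧
    (∀ i l, ∑ j, ∑ k, prj g x p i j * g x j k * prj g x p k l = prj g x p i l) ∧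
    (∑ i, ∑ j, prj g x p i j * g x i j = 2) ∧
    (∀ A B : Cov, lip g x p A B = ∑ i, ∑ j, prj g x p i j * A i * B j) ∧
    (∀ A B : Cov, lip g x p A B = lip g x p B A) ∧
    (∀ B : Cov, lip g x p p B = 0) ∧ (∀ A : Cov, 0 ≤ lip g x p A A) ∧
    (∀ A B : Cov, lip g x p A B ^ 2 ≤ lip g x p A A * lip g x p B B) ∧
    (∀ A : Cov, ev (g x)⁻¹ A A = lip g x p A A + (∑ i, A i * nrm g x p i) ^ 2) ∧
    (∀ A T : Cov, ∑ i, T i * p i = 0 →
      (∑ i, A i * T i) ^ 2 ≤ lip g x p A A * ev (g x) T T)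

/-- (DET) The density in a chart is the area density of the leaves. -/
def Stmt_DET : Prop :=
  ∀ (g : TensorField) (x : E3) (p : Cov) (T0 T1 T2 : Cov), (g x).PosDef → p ≠ 0 →
    ∑ i, T0 i * p i = 0 → ∑ i, T1 i * p i = 0 → ∑ i, T2 i * p i = 1 →
    (Matrix.of ![T0, T1, T2]).det ^ 2 * (g x).det * len g x p ^ 2 =
      ev (g x) T0 T0 * ev (g x) T1 T1 - ev (g x) T0 T1 ^ 2

/-- (SMO) Smoothness of the leafwise objects. -/
def Stmt_SMO : Prop :=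
  (∀ (V : Set E3) (a b : ℝ) (g : TensorField) (W : E3 → ℝ), Fol V a b g W → ∀ x ∈ V,
    Reg g W x) ∧
  ∀ (g : TensorField) (W : E3 → ℝ) (x : E3), Reg g W x →
    (∀ᶠ y in 𝓝 x, Reg g W y) ∧
    0 < len g x (grad W x) ∧ 0 < volDen g x ∧ 0 < dens g W x ∧
    (∀ i j, ContDiffAt ℝ ∞ (fun y => g y i j) x) ∧
    (∀ i j, ContDiffAt ℝ ∞ (fun y => (g y)⁻¹ i j) x) ∧
    ContDiffAt ℝ ∞ (fun y => len g y (grad W y)) x ∧ ContDiffAt ℝ ∞ (volDen g) x ∧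
    ContDiffAt ℝ ∞ (dens g W) x ∧
    (∀ i, ContDiffAt ℝ ∞ (fun y => nrm g y (grad W y) i) x) ∧
    (∀ i j, ContDiffAt ℝ ∞ (fun y => prj g y (grad W y) i j) x) ∧
    ContDiffAt ℝ ∞ (curv g W) x ∧
    (∀ f h : E3 → ℝ, ContDiffAt ℝ ∞ f x → ContDiffAt ℝ ∞ h x →
      ContDiffAt ℝ ∞ (lin g W f h) x ∧ ContDiffAt ℝ ∞ (lap g W f) x ∧
      ∀ i, ContDiffAt ℝ ∞ (fun y => lgrad g W f y i) x) ∧
    (∀ (n : ℕ) (f h : E3 → ℝ), ContDiffAt ℝ ((n + 1 : ℕ) : WithTop ℕ∞) f x →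
      ContDiffAt ℝ ((n + 1 : ℕ) : WithTop ℕ∞) h x →
      ContDiffAt ℝ (n : WithTop ℕ∞) (lin g W f h) x ∧
      ∀ i, ContDiffAt ℝ (n : WithTop ℕ∞) (fun y => lgrad g W f y i) x) ∧
    (∀ (n : ℕ) (f : E3 → ℝ), ContDiffAt ℝ ((n + 2 : ℕ) : WithTop ℕ∞) f x →
      ContDiffAt ℝ (n : WithTop ℕ∞) (lap g W f) x)

/-- (RUL) The rules of the leafwise calculus. -/
def Stmt_RUL : Prop :=
  ∀ (g : TensorField) (W : E3 → ℝ) (x : E3), Reg g W x →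
    (∀ f : E3 → ℝ, ∑ i, lgrad g W f x i * grad W x i = 0) ∧
    (∀ f h : E3 → ℝ, ∑ i, lgrad g W f x i * grad h x i = lin g W f h x) ∧
    (∀ f h : E3 → ℝ, lin g W f h x = lin g W h f x ∧ 0 ≤ lin g W f f x ∧
      lin g W f h x ^ 2 ≤ lin g W f f x * lin g W h h x) ∧
    (∀ f h : E3 → ℝ, DifferentiableAt ℝ f x → DifferentiableAt ℝ h x →
      Real.sqrt (lin g W (fun y => f y + h y) (fun y => f y + h y) x)
        ≤ Real.sqrt (lin g W f f x) + Real.sqrt (lin g W h h x)) ∧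
    (∀ (f : E3 → ℝ) (i : Fin 3), lgrad g W f x i = ∑ j, prj g x (grad W x) i j * pd j f x) ∧
    (∀ f h : E3 → ℝ, ContDiffAt ℝ 2 f x → ContDiffAt ℝ 2 h x →
      lap g W (fun y => f y + h y) x = lap g W f x + lap g W h x ∧
      lap g W (fun y => f y * h y) x
        = f x * lap g W h x + h x * lap g W f x + 2 * lin g W f h x) ∧
    (∀ f h k : E3 → ℝ, DifferentiableAt ℝ f x → DifferentiableAt ℝ h x →
      DifferentiableAt ℝ k x →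
      lin g W (fun y => f y + h y) k x = lin g W f k x + lin g W h k x ∧
      lin g W (fun y => f y * h y) k x = f x * lin g W h k x + h x * lin g W f k x) ∧
    (∀ (f k : E3 → ℝ) (F : ℝ → ℝ), DifferentiableAt ℝ f x → DifferentiableAt ℝ F (f x) →
      lin g W (fun y => F (f y)) k x = deriv F (f x) * lin g W f k x) ∧
    (∀ (f : E3 → ℝ) (F : ℝ → ℝ), ContDiffAt ℝ 2 f x → ContDiffAt ℝ 2 F (f x) →
      lap g W (fun y => F (f y)) x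
        = deriv F (f x) * lap g W f x + deriv (deriv F) (f x) * lin g W f f x) ∧
    (∀ (k : E3 → ℝ) (F : ℝ → ℝ), DifferentiableAt ℝ F (W x) →
      lin g W (fun y => F (W y)) k x = 0) ∧
    (∀ (f : E3 → ℝ) (F : ℝ → ℝ), ContDiffAt ℝ 2 f x → ContDiffAt ℝ 2 F (W x) →
      lap g W (fun y => F (W y) * f y) x = F (W x) * lap g W f x) ∧
    (∀ (f : E3 → ℝ) (Y : E3 → Cov), DifferentiableAt ℝ f x →
      (∀ i, DifferentiableAt ℝ (fun y => Y y i) x) →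
      ldiv g W (fun y i => f y * Y y i) x = f x * ldiv g W Y x + ∑ i, Y x i * grad f x i)

/-- (IBP) Leafwise integration by parts. -/
def Stmt_IBP : Prop :=
  ∀ (V : Set E3) (a b : ℝ) (g : TensorField) (W : E3 → ℝ), Fol V a b g W →
    (∀ (Y : E3 → Cov) (ψ : ℝ → ℝ), (∀ i, ContDiffOn ℝ 1 (fun x => Y x i) V) →
      (∀ x ∈ V, ∑ i, Y x i * grad W x i = 0) → ContDiff ℝ 1 ψ → tsupport ψ ⊆ Set.Ioo a b →
      ∫ x in V, ψ (W x) * ldiv g W Y x * dens g W x = 0) ∧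
    (∀ (f h : E3 → ℝ) (ψ : ℝ → ℝ), ContDiffOn ℝ 1 f V → ContDiffOn ℝ 2 h V →
      ContDiff ℝ 1 ψ → tsupport ψ ⊆ Set.Ioo a b →
      ∫ x in V, ψ (W x) * (f x * lap g W h x) * dens g W x
        = - ∫ x in V, ψ (W x) * lin g W f h x * dens g W x) ∧
    (∀ f h : E3 → ℝ, TestOn V f → ContDiffOn ℝ 2 h V →
      ∫ x in V, f x * lap g W h x * dens g W x = - ∫ x in V, lin g W f h x * dens g W x ∧
      ∫ x in V, f x * lap g W h x * dens g W x = ∫ x in V, h x * lap g W f x * dens g W x)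

/-- (LB) The leafwise Laplacian is `tr_S ∇²f - H ν(f)`. -/
def Stmt_LB : Prop :=
  ∀ (g : TensorField) (W : E3 → ℝ) (x : E3), Reg g W x →
    ∀ f : E3 → ℝ, ContDiffAt ℝ 2 f x →
      lap g W f x = btan g x (grad W x) (cHess g x (grad f x) (hess2 f x))
        - btan g x (grad W x) (cHess g x (grad W x) (hess2 W x)) / len g x (grad W x)
          * ∑ i, grad f x i * nrm g x (grad W x) i

/-- (COVG) Invariance of the leafwise objects under changes of coordinates. -/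
def Stmt_COVG : Prop :=
  ∀ (Φ : E3 → E3) (G g : TensorField) (x : E3) (W : E3 → ℝ),
    Pool.Agent.PenroseConvex.ChangeAt Φ G g x → Reg G W (Φ x) →
    (∀ f h : E3 → ℝ, DifferentiableAt ℝ f (Φ x) → DifferentiableAt ℝ h (Φ x) →
      lin g (fun y => W (Φ y)) (fun y => f (Φ y)) (fun y => h (Φ y)) x = lin G W f h (Φ x)) ∧
    (∀ f : E3 → ℝ, ContDiffAt ℝ 2 f (Φ x) →
      lap g (fun y => W (Φ y)) (fun y => f (Φ y)) x = lap G W f (Φ x)) ∧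
    curv g (fun y => W (Φ y)) x = curv G W (Φ x)

/-- The determinant of the block `(0, 1)` of the metric. -/
noncomputable def dt2 (g : TensorField) (z : E3) : ℝ := g z 0 0 * g z 1 1 - g z 0 1 ^ 2

/-- The inner product of gradients for the two-dimensional metric given by the block `(0, 1)`. -/
noncomputable def lin2 (g : TensorField) (f h : E3 → ℝ) (z : E3) : ℝ :=
  (g z 1 1 * (pd 0 f z * pd 0 h z) - g z 0 1 * (pd 0 f z * pd 1 h z + pd 1 f z * pd 0 h z)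
    + g z 0 0 * (pd 1 f z * pd 1 h z)) / dt2 g z

/-- The Laplacian of the two-dimensional metric given by the block `(0, 1)`. -/
noncomputable def lap2 (g : TensorField) (f : E3 → ℝ) (z : E3) : ℝ :=
  (pd 0 (fun y => (g y 1 1 * pd 0 f y - g y 0 1 * pd 1 f y) / Real.sqrt (dt2 g y)) z
    + pd 1 (fun y => (g y 0 0 * pd 1 f y - g y 0 1 * pd 0 f y) / Real.sqrt (dt2 g y)) z)
    / Real.sqrt (dt2 g z)

/-- The Christoffel symbols of the first kind `(1/2)(∂_a g_cb + ∂_b g_ca - ∂_c g_ab)`. -/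
noncomputable def gl (g : TensorField) (c a b : Fin 3) (z : E3) : ℝ :=
  (pd a (fun y => g y c b) z + pd b (fun y => g y c a) z - pd c (fun y => g y a b) z) / 2

/-- The Gauss curvature of the two-dimensional metric given by the block `(0, 1)`. -/
noncomputable def K2 (g : TensorField) (z : E3) : ℝ :=
  (-(pd 0 (pd 0 (fun y => g y 1 1)) z + pd 1 (pd 1 (fun y => g y 0 0)) z
      - 2 * pd 0 (pd 1 (fun y => g y 0 1)) z) / 2
    + (g z 1 1 * (gl g 0 0 1 z ^ 2 - gl g 0 0 0 z * gl g 0 1 1 z)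
      - g z 0 1 * (2 * gl g 0 0 1 z * gl g 1 0 1 z - gl g 0 0 0 z * gl g 1 1 1 z
          - gl g 1 0 0 z * gl g 0 1 1 z)
      + g z 0 0 * (gl g 1 0 1 z ^ 2 - gl g 1 0 0 z * gl g 1 1 1 z)) / dt2 g z) / dt2 g z

/-- (ADAP) The leafwise objects in adapted coordinates, `W = z_2`; for `curv` this is the Gauss
equation. -/
def Stmt_ADAP : Prop :=
  ∀ (g : TensorField) (z : E3), Reg g (fun y => y 2) z → 0 < dt2 g z ∧
    (∀ f h : E3 → ℝ, DifferentiableAt ℝ f z → DifferentiableAt ℝ h z →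
      lin g (fun y => y 2) f h z = lin2 g f h z) ∧
    (∀ f : E3 → ℝ, ContDiffAt ℝ 2 f z → lap g (fun y => y 2) f z = lap2 g f z) ∧
    curv g (fun y => y 2) z = K2 g z

/-- (BO2) The two-dimensional Bochner formula. -/
def Stmt_BO2 : Prop :=
  ∀ (g : TensorField) (z : E3), (∀ i j, ContDiffAt ℝ ∞ (fun y => g y i j) z) →
    (∀ᶠ y in 𝓝 z, g y 1 0 = g y 0 1) → 0 < dt2 g z → ∀ φ : E3 → ℝ, ContDiffAt ℝ ∞ φ z →
      K2 g z * lin2 g φ φ z ^ 2 =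
        lin2 g φ φ z * lap2 g (lin2 g φ φ) z / 2
          - lin2 g φ φ z * lin2 g φ (lap2 g φ) z
          - lin2 g φ φ z * lap2 g φ z ^ 2
          - lin2 g (lin2 g φ φ) (lin2 g φ φ) z / 2
          + lap2 g φ z * lin2 g (lin2 g φ φ) φ z

/-- (BOCH) The Bochner formula on the leaves, with the Gauss equation. -/
def Stmt_BOCH : Prop :=
  ∀ (g : TensorField) (W : E3 → ℝ) (x : E3), Reg g W x →
    ∀ φ : E3 → ℝ, ContDiffAt ℝ ∞ φ x →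
      curv g W x * lin g W φ φ x ^ 2 =
        lin g W φ φ x * lap g W (lin g W φ φ) x / 2
          - lin g W φ φ x * lin g W φ (lap g W φ) x
          - lin g W φ φ x * lap g W φ x ^ 2
          - lin g W (lin g W φ φ) (lin g W φ φ) x / 2
          + lap g W φ x * lin g W (lin g W φ φ) φ x

/-! ## 2. The divergence inequality -/

/-- (XIN) -/
def Stmt_XIN : Prop :=
  ∀ (V : Set E3) (a b : ℝ) (g : TensorField) (W : E3 → ℝ), Fol V a b g W →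
    ∀ (O : Set E3) (φ u : E3 → ℝ) (δ : ℝ), IsOpen O → O ⊆ V → ContDiffOn ℝ ∞ φ O →
      ContDiffOn ℝ ∞ u O → 0 < δ →
      (∀ i, ContDiffOn ℝ ∞ (fun x => Xf g W φ u δ x i) O) ∧
      (∀ x ∈ O, ∑ i, Xf g W φ u δ x i * grad W x i = 0) ∧
      ∀ x ∈ O, (curv g W x - lap g W u x)
            * (lin g W φ φ x / (lin g W φ φ x + δ * Real.exp (2 * u x)))
          - δ * Real.exp (2 * u x) * lap g W φ x ^ 2
            / (2 * (lin g W φ φ x + δ * Real.exp (2 * u x)) ^ 2)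
        ≤ ldiv g W (Xf g W φ u δ) x

/-! ## 3. The function q -/

/-- (Q) -/
def Stmt_Q : Prop :=
  ∀ (V : Set E3) (a b : ℝ) (g : TensorField) (W : E3 → ℝ), Fol V a b g W →
    ∀ K : Set E3, IsCompact K → K ⊆ V → ∃ c C : ℝ, 0 < c ∧ 0 < C ∧ ∀ x ∈ K, ∀ y ∈ K,
      c * dist x y ^ 2 ≤ qf g x y ∧ qf g x y ≤ C * dist x y ^ 2 ∧
      |lin g W (fun z => qf g z y) (fun z => qf g z y) x - 4 * qf g x y|
        ≤ C * (dist x y ^ 4 + (W x - W y) ^ 2) ∧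
      |lap g W (fun z => qf g z y) x - 4| ≤ C * (dist x y ^ 2 + |W x - W y|) ∧
      (∀ i, |pd i (fun z => qf g z y) x| ≤ C * dist x y) ∧
      (∀ i j, |pd i (pd j (fun z => qf g z y)) x - 2 * g x i j| ≤ C * dist x y)

/-! ## 4. The kernel -/

/-- (VOL) -/
def Stmt_VOL : Prop :=
  ∀ (V : Set E3) (a b : ℝ) (g : TensorField) (W : E3 → ℝ), Fol V a b g W →
    ∀ (K : Set E3) (R : ℝ), IsCompact K → K ⊆ V → 0 < R → ∃ C t0 : ℝ, 0 < C ∧ 0 < t0 ∧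
      ∀ x ∈ K, ∀ t : ℝ, 0 < t → t < t0 →
        volume {y | dist x y ≤ R * Real.sqrt t ∧ |W x - W y| ≤ t} ≤ ENNReal.ofReal (C * t ^ 2)

/-- (MASS) For every small `r0`; `m0` is `(∫ tht) (∫ eta(|z|²) dz) = π (∫ tht) (∫_0^∞ eta)`. -/
def Stmt_MASS : Prop :=
  ∃ m0 : ℝ, 0 < m0 ∧
  ∀ (V : Set E3) (a b : ℝ) (g : TensorField) (W : E3 → ℝ), Fol V a b g W →
    ∀ c d : ℝ, a < c → c < d → d < b → ∃ r1 : ℝ, 0 < r1 ∧ ∀ r0 : ℝ, 0 < r0 → r0 < r1 →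
      ∀ x ∈ slab V W c d,
        Tendsto (fun t => ∫ y in slab V W c d, ker g W r0 t x y * dens g W y) (𝓝[>] 0) (𝓝 m0)

/-- (KER) Existence of the family of kernels. -/
def Stmt_KER : Prop :=
  ∀ (V : Set E3) (a b : ℝ) (g : TensorField) (W : E3 → ℝ), Fol V a b g W →
    ∀ c d : ℝ, a < c → c < d → d < b →
      ∃ (k : ℝ → E3 → E3 → ℝ) (t0 R C m0 : ℝ), Moll V g W c d k t0 R C m0

/-- (SCHUR) Schur test. -/
def Stmt_SCHUR : Prop :=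
  ∀ (μ : Measure E3) [IsFiniteMeasure μ] (k : E3 → E3 → ℝ) (B C : ℝ), 0 ≤ C →
    Measurable (Function.uncurry k) → (∀ x y, |k x y| ≤ B) → (∀ x y, |k x y| = |k y x|) →
    (∀ᵐ x ∂μ, ∫ y, |k x y| ∂μ ≤ C) → ∀ v : E3 → ℝ, MemLp v 2 μ →
      MemLp (fun x => ∫ y, k x y * v y ∂μ) 2 μ ∧
      ∫ x, (∫ y, k x y * v y ∂μ) ^ 2 ∂μ ≤ C ^ 2 * ∫ x, v x ^ 2 ∂μ

/-- (DU) Differentiation under the integral. -/
def Stmt_DU : Prop :=
  ∀ (V : Set E3) (a b : ℝ) (g : TensorField) (W : E3 → ℝ), Fol V a b g W →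
    ∀ c d : ℝ, a < c → c < d → d < b → ∀ (k : ℝ → E3 → E3 → ℝ) (t0 R C m0 : ℝ),
      Moll V g W c d k t0 R C m0 → ∀ v : E3 → ℝ, MemLp v 2 (volume.restrict (slab V W c d)) →
      ∀ t : ℝ, 0 < t → t < t0 →
        ContDiffOn ℝ 2 (moll V g W c d k t v) (slab V W c d) ∧
        ∀ x ∈ slab V W c d, lap g W (moll V g W c d k t v) x
          = ∫ y in slab V W c d, lap g W (fun z => k t z y) x * v y * dens g W y

/-- (CONV) Bounds and convergence of the smoothing. -/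
def Stmt_CONV : Prop :=
  ∀ (V : Set E3) (a b : ℝ) (g : TensorField) (W : E3 → ℝ), Fol V a b g W →
    ∀ c d : ℝ, a < c → c < d → d < b → ∀ (k : ℝ → E3 → E3 → ℝ) (t0 R C m0 : ℝ),
      Moll V g W c d k t0 R C m0 → ∃ C1 : ℝ, 0 < C1 ∧ ∀ v : E3 → ℝ,
        MemLp v 2 (volume.restrict (slab V W c d)) →
        (∀ t : ℝ, 0 < t → t < t0 →
          MemLp (moll V g W c d k t v) 2 (volume.restrict (slab V W c d)) ∧
          MemLp (cmt V g W c d k t v) 2 (volume.restrict (slab V W c d)) ∧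
          ∫ x in slab V W c d, moll V g W c d k t v x ^ 2 ≤ C1 * ∫ x in slab V W c d, v x ^ 2 ∧
          ∫ x in slab V W c d, cmt V g W c d k t v x ^ 2 ≤ C1 * ∫ x in slab V W c d, v x ^ 2) ∧
        Tendsto (fun t => ∫ x in slab V W c d, (moll V g W c d k t v x - m0 * v x) ^ 2)
          (𝓝[>] 0) (𝓝 0)

/-! ## 5. Density and solver -/

/-- (WU) Uniqueness of very weak solutions. -/
def Stmt_WU : Prop :=
  ∀ (V : Set E3) (a b : ℝ) (g : TensorField) (W : E3 → ℝ), Fol V a b g W →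
    ∀ c d : ℝ, a < c → c < d → d < b → ∀ κ : ℝ, 0 < κ → ∀ v : E3 → ℝ,
      MemLp v 2 (volume.restrict (slab V W c d)) →
      (∀ h : E3 → ℝ, TestOn (slab V W c d) h →
        ∫ x in slab V W c d, v x * (κ * h x - lap g W h x) * dens g W x = 0) →
      ∀ᵐ x ∂(volume.restrict (slab V W c d)), v x = 0

/-- (DENS) -/
def Stmt_DENS : Prop :=
  ∀ (V : Set E3) (a b : ℝ) (g : TensorField) (W : E3 → ℝ), Fol V a b g W →
    ∀ c d : ℝ, a < c → c < d → d < b → ∀ κ : ℝ, 0 < κ → ∀ ρ : E3 → ℝ,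
      MemLp ρ 2 (volume.restrict (slab V W c d)) → ∀ ε : ℝ, 0 < ε →
      ∃ h : E3 → ℝ, TestOn (slab V W c d) h ∧
        ∫ x in slab V W c d, (κ * h x - lap g W h x - ρ x) ^ 2 * dens g W x < ε

/-- (SOLVE) -/
def Stmt_SOLVE : Prop :=
  ∀ (V : Set E3) (a b : ℝ) (g : TensorField) (W : E3 → ℝ), Fol V a b g W →
    ∀ c d : ℝ, a < c → c < d → d < b → ∀ (ρ : E3 → ℝ) (C0 : ℝ),
      MemLp ρ 2 (volume.restrict (slab V W c d)) → 0 ≤ C0 →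
      (∀ v : E3 → ℝ, TestOn (slab V W c d) v →
        |∫ x in slab V W c d, ρ x * v x * dens g W x|
          ≤ C0 * Real.sqrt (∫ x in slab V W c d, lin g W v v x * dens g W x)) →
      ∀ ε : ℝ, 0 < ε → ∃ u : E3 → ℝ, TestOn (slab V W c d) u ∧
        ∫ x in slab V W c d, (lap g W u x - ρ x) ^ 2 * dens g W x ≤ ε ∧
        ∫ x in slab V W c d, lin g W u u x * dens g W x ≤ (C0 + 1) ^ 2

/-! ## 6. Charts and connectedness -/

/-- (CHL) Existence of local adapted coordinates. -/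
def Stmt_CHL : Prop :=
  ∀ (O : Set E3) (W : E3 → ℝ) (p0 : E3), IsOpen O → ContDiffOn ℝ ∞ W O → p0 ∈ O →
    grad W p0 ≠ 0 → ∃ (Φ : E3 → E3) (z0 : E3) (N : Set E3), IsOpen N ∧ z0 ∈ N ∧ Φ z0 = p0 ∧
      z0 2 = W p0 ∧ ContDiffOn ℝ ∞ Φ N ∧ Set.InjOn Φ N ∧ Set.MapsTo Φ N O ∧
      (∀ z ∈ N, (fderiv ℝ Φ z).det ≠ 0) ∧ ∀ z ∈ N, W (Φ z) = z 2

/-- (CHART) Existence of charts. -/
def Stmt_CHART : Prop :=
  ∀ (V : Set E3) (a b : ℝ) (g : TensorField) (W : E3 → ℝ), Fol V a b g W → ∀ p0 ∈ V,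
    ∀ O ∈ 𝓝 p0, ∃ (Φ : E3 → E3) (z0 : E3) (r e : ℝ), Chart V W Φ z0 r e ∧ Φ z0 = p0 ∧
      z0 2 = W p0 ∧ Φ '' box z0 r e ⊆ O

/-- (CHX) Elementary properties of charts. -/
def Stmt_CHX : Prop :=
  ∀ (V : Set E3) (a b : ℝ) (g : TensorField) (W : E3 → ℝ), Fol V a b g W →
    ∀ (Φ : E3 → E3) (z0 : E3) (r e : ℝ), Chart V W Φ z0 r e →
      a < z0 2 - e ∧ z0 2 + e < b ∧ IsCompact (Φ '' box z0 r e) ∧ Φ '' box z0 r e ⊆ V ∧
      (∀ S : Set E3, IsOpen S → S ⊆ obox z0 r e → IsOpen (Φ '' S)) ∧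
      (∀ (S : Set E3) (F : E3 → ℝ), MeasurableSet S → S ⊆ box z0 r e →
        ∫ x in Φ '' S, F x * dens g W x = ∫ z in S, F (Φ z) * jac g W Φ z) ∧
      (∀ (S : Set E3) (F : E3 → ℝ), MeasurableSet S → S ⊆ box z0 r e →
        (IntegrableOn (fun x => F x * dens g W x) (Φ '' S) ↔
          IntegrableOn (fun z => F (Φ z) * jac g W Φ z) S)) ∧
      ContinuousOn (jac g W Φ) (box z0 r e) ∧
      ∃ c C : ℝ, 0 < c ∧ 0 < C ∧
        (∀ z ∈ box z0 r e, c ≤ jac g W Φ z ∧ jac g W Φ z ≤ C ∧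
          (∀ v : E3 → ℝ, DifferentiableAt ℝ v (Φ z) →
            |pd 0 (fun y => v (Φ y)) z| ≤ C * Real.sqrt (lin g W v v (Φ z)) ∧
            |pd 1 (fun y => v (Φ y)) z| ≤ C * Real.sqrt (lin g W v v (Φ z)))) ∧
        (∀ z ∈ box z0 r e, ∀ z' ∈ box z0 r e,
          c * dist z z' ≤ dist (Φ z) (Φ z') ∧ dist (Φ z) (Φ z') ≤ C * dist z z')

/-- (FUB) Fubini on boxes. -/
def Stmt_FUB : Prop :=
  ∀ (z0 : E3) (r e : ℝ) (F : E3 → ℝ), IntegrableOn F (obox z0 r e) →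
    ∫ z in obox z0 r e, F z = ∫ s in Set.Ioo (z0 2 - e) (z0 2 + e),
      ∫ a in Set.Ioo (z0 0 - r) (z0 0 + r), ∫ b in Set.Ioo (z0 1 - r) (z0 1 + r), F (pt a b s)

/-- (POIN) The two-point inequality on a square. -/
def Stmt_POIN : Prop :=
  ∀ (a0 b0 r B : ℝ) (R v : ℝ → ℝ → ℝ), 0 < r → 0 ≤ B →
    Measurable (Function.uncurry R) → (∀ a b, |R a b| ≤ B) →
    (∃ N : Set (ℝ × ℝ), IsOpen N ∧ Set.Icc (a0 - r) (a0 + r) ×ˢ Set.Icc (b0 - r) (b0 + r) ⊆ N ∧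
      ContDiffOn ℝ 1 (Function.uncurry v) N) →
    ∫ a in Set.Ioo (a0 - r) (a0 + r), ∫ b in Set.Ioo (b0 - r) (b0 + r), R a b = 0 →
    |∫ a in Set.Ioo (a0 - r) (a0 + r), ∫ b in Set.Ioo (b0 - r) (b0 + r), R a b * v a b| ≤
      2 * r * B * ∫ a in Set.Ioo (a0 - r) (a0 + r), ∫ b in Set.Ioo (b0 - r) (b0 + r),
        (|deriv (fun t => v t b) a| + |deriv (fun t => v a t) b|)

/-- (NULL) Properties of `NullOn`. -/
def Stmt_NULL : Prop :=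
  ∀ (V : Set E3) (a b : ℝ) (g : TensorField) (W : E3 → ℝ), Fol V a b g W →
    ∀ s0 e : ℝ, 0 < e → a < s0 - e → s0 + e < b →
      (∀ ρ1 ρ2 : E3 → ℝ, BddMeas ρ1 → BddMeas ρ2 → NullOn V g W s0 e ρ1 →
        NullOn V g W s0 e ρ2 → NullOn V g W s0 e (fun x => ρ1 x + ρ2 x)) ∧
      (∀ (ρ : E3 → ℝ) (γ : ℝ → ℝ), BddMeas ρ → BddMeasR γ → NullOn V g W s0 e ρ →
        NullOn V g W s0 e (fun x => γ (W x) * ρ x)) ∧
      (∀ (ρ : E3 → ℝ) (e' : ℝ), BddMeas ρ → 0 < e' → e' ≤ e → NullOn V g W s0 e ρ →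
        NullOn V g W s0 e' ρ) ∧
      (∀ ρ : E3 → ℝ, BddMeas ρ → NullOn V g W s0 e ρ →
        (∀ α : ℝ → ℝ, BddMeasR α →
          ∫ x in slab V W (s0 - e) (s0 + e), ρ x * α (W x) * dens g W x = 0) ∧
        ∃ C : ℝ, 0 ≤ C ∧ ∀ v : E3 → ℝ, ContDiffOn ℝ 1 v V →
          |∫ x in slab V W (s0 - e) (s0 + e), ρ x * v x * dens g W x| ≤
            C * Real.sqrt (∫ x in slab V W (s0 - e) (s0 + e), lin g W v v x * dens g W x))

/-- (CL) The chart lemma. -/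
def Stmt_CL : Prop :=
  ∀ (V : Set E3) (a b : ℝ) (g : TensorField) (W : E3 → ℝ), Fol V a b g W →
    ∀ (Φ : E3 → E3) (z0 : E3) (r e : ℝ), Chart V W Φ z0 r e →
      ∀ (ρ β : E3 → ℝ) (b0 M : ℝ), BddMeas ρ → BddMeas β →
        (∀ x, x ∉ Φ '' obox z0 r e → ρ x = 0 ∧ β x = 0) → (∀ x, 0 ≤ β x) → 0 < b0 → 0 ≤ M →
        (∀ s ∈ Set.Ioo (z0 2 - e) (z0 2 + e), b0 ≤ cint g W Φ z0 r β s) →
        (∀ s ∈ Set.Ioo (z0 2 - e) (z0 2 + e), |cint g W Φ z0 r ρ s| ≤ M) →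
        ∃ γ : ℝ → ℝ, Measurable γ ∧ (∀ s, |γ s| ≤ M / b0) ∧
          NullOn V g W (z0 2) e (fun x => ρ x - γ (W x) * β x)

/-- (CONN) Connectedness of the leaf. -/
def Stmt_CONN : Prop :=
  ∀ (V : Set E3) (a b : ℝ) (g : TensorField) (W : E3 → ℝ), Fol V a b g W →
    ∀ (Φ : E3 → E3) (z0 : E3) (r e : ℝ), Chart V W Φ z0 r e →
      IsPreconnected (V ∩ W ⁻¹' {z0 2}) → ∀ (β : E3 → ℝ) (b0 : ℝ), BddMeas β →
        (∀ x, x ∉ Φ '' obox z0 r e → β x = 0) → (∀ x, 0 ≤ β x) → 0 < b0 →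
        (∀ s ∈ Set.Ioo (z0 2 - e) (z0 2 + e), b0 ≤ cint g W Φ z0 r β s) →
        ∃ e1 : ℝ, 0 < e1 ∧ e1 ≤ e ∧ ∀ ρ : E3 → ℝ, BddMeas ρ →
          ∃ γ : ℝ → ℝ, BddMeasR γ ∧ NullOn V g W (z0 2) e1 (fun x => ρ x - γ (W x) * β x)

/-! ## 7. Pole functions -/

/-- (POLE) -/
def Stmt_POLE : Prop :=
  ∀ (V : Set E3) (a b : ℝ) (g : TensorField) (W : E3 → ℝ), Fol V a b g W →
    ∀ (Φ : E3 → E3) (z0 : E3) (r e : ℝ), Chart V W Φ z0 r e → ∀ τ : ℝ, |τ| < r →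
      ContDiffOn ℝ ∞ (rp g W Φ z0 τ) (Φ '' obox z0 r e) ∧
      ∃ c C : ℝ, 0 < c ∧ 0 < C ∧
        (∀ z ∈ box z0 r e,
          c * ((z 0 - (z0 0 + τ)) ^ 2 + (z 1 - z0 1) ^ 2) ≤ rp g W Φ z0 τ (Φ z) ∧
          rp g W Φ z0 τ (Φ z) ≤ C * ((z 0 - (z0 0 + τ)) ^ 2 + (z 1 - z0 1) ^ 2)) ∧
        ∀ x ∈ Φ '' obox z0 r e,
          |lin g W (rp g W Φ z0 τ) (rp g W Φ z0 τ) x - 4 * rp g W Φ z0 τ x|
            ≤ C * rp g W Φ z0 τ x ^ 2 ∧
          |lap g W (rp g W Φ z0 τ) x - 4| ≤ C * rp g W Φ z0 τ x ∧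
          (∀ i, |pd i (rp g W Φ z0 τ) x| ≤ C * Real.sqrt (rp g W Φ z0 τ x)) ∧
          (∀ A B : Cov, |∑ i, ∑ j, hess2 (rp g W Φ z0 τ) x i j * prv g x (grad W x) A i
                * prv g x (grad W x) B j - 2 * lip g x (grad W x) A B|
            ≤ C * Real.sqrt (rp g W Φ z0 τ x) * Real.sqrt (lip g x (grad W x) A A)
                * Real.sqrt (lip g x (grad W x) B B))

/-- (SCAL) Scaling limit at a pole. -/
def Stmt_SCAL : Prop :=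
  ∀ (V : Set E3) (a b : ℝ) (g : TensorField) (W : E3 → ℝ), Fol V a b g W →
    ∀ (Φ : E3 → E3) (z0 : E3) (r e : ℝ), Chart V W Φ z0 r e → ∀ τ : ℝ, |τ| < r →
      volume {x | x ∈ Φ '' obox z0 r e ∧ rp g W Φ z0 τ x = 0} = 0 ∧
      ∀ (h ψ : ℝ → ℝ) (S : ℝ), Continuous h → (∀ s, S ≤ s → h s = 0) → Continuous ψ →
        tsupport ψ ⊆ Set.Ioo (z0 2 - e) (z0 2 + e) →
        Tendsto (fun t => t⁻¹ * ∫ x in Φ '' obox z0 r e,
            ψ (W x) * h (rp g W Φ z0 τ x / t) * dens g W x) (𝓝[>] 0)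
          (𝓝 (Real.pi * (∫ s in Set.Ioi (0 : ℝ), h s) * ∫ s, ψ s))

/-- (LOW) Lower bound for leaf integrals of decreasing functions of the pole function. -/
def Stmt_LOW : Prop :=
  ∀ (V : Set E3) (a b : ℝ) (g : TensorField) (W : E3 → ℝ), Fol V a b g W →
    ∀ (Φ : E3 → E3) (z0 : E3) (r e : ℝ), Chart V W Φ z0 r e → ∀ τ : ℝ, |τ| < r →
      ∃ c t1 : ℝ, 0 < c ∧ 0 < t1 ∧ ∀ h : ℝ → ℝ, Continuous h → (∀ s, 0 ≤ h s) →
        AntitoneOn h (Set.Ici 0) → (∀ s, t1 ≤ s → h s = 0) →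
        ∀ s ∈ Set.Ioo (z0 2 - e) (z0 2 + e),
          c * ∫ t in Set.Ioi (0 : ℝ), h t ≤ cint g W Φ z0 r (fun x => h (rp g W Φ z0 τ x)) s

/-- (SEP) The two poles are separated at small levels. -/
def Stmt_SEP : Prop :=
  ∀ (V : Set E3) (a b : ℝ) (g : TensorField) (W : E3 → ℝ), Fol V a b g W →
    ∀ (Φ : E3 → E3) (z0 : E3) (r e : ℝ), Chart V W Φ z0 r e →
      ∃ t2 : ℝ, 0 < t2 ∧ ∀ t1 : ℝ, 0 < t1 → t1 ≤ t2 → SepAt g W Φ z0 r e t1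

/-- (PHI0) The singular function. -/
def Stmt_PHI0 : Prop :=
  ∀ (V : Set E3) (a b : ℝ) (g : TensorField) (W : E3 → ℝ), Fol V a b g W →
    ∀ (Φ : E3 → E3) (z0 : E3) (r e : ℝ), Chart V W Φ z0 r e → ∀ t1 : ℝ,
      SepAt g W Φ z0 r e t1 →
      IsOpen (slab V W (z0 2 - e) (z0 2 + e) \ sing g W Φ z0 r e) ∧
      volume (sing g W Φ z0 r e) = 0 ∧
      ContDiffOn ℝ ∞ (phi0 g W Φ z0 r e t1)
        (slab V W (z0 2 - e) (z0 2 + e) \ sing g W Φ z0 r e) ∧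
      (∀ τ : ℝ, (τ = r / 2 ∨ τ = -(r / 2)) → ∀ x ∈ Φ '' obox z0 r e,
        0 < rp g W Φ z0 τ x → rp g W Φ z0 τ x < t1 / 2 →
        ∀ᶠ y in 𝓝 x, phi0 g W Φ z0 r e t1 y
          = (if τ = r / 2 then -1 else 1) * Real.log (rp g W Φ z0 τ y) / 2) ∧
      ∃ C : ℝ, 0 < C ∧ ∀ x ∈ slab V W (z0 2 - e) (z0 2 + e), |rho0 g W Φ z0 r e t1 x| ≤ C

/-- The profile of the cut-off: `0` for `s ≤ 1/2`, `1` for `s ≥ 1`. -/
noncomputable def hb (s : ℝ) : ℝ := Real.smoothTransition (2 * s - 1)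

open Classical in
/-- The cut-off at the two poles. -/
noncomputable def cut (g : TensorField) (W : E3 → ℝ) (Φ : E3 → E3) (z0 : E3) (r e t : ℝ)
    (x : E3) : ℝ :=
  if x ∈ Φ '' obox z0 r e then
    hb (rp g W Φ z0 (-(r / 2)) x / t) * hb (rp g W Φ z0 (r / 2) x / t) else 1

/-- (CUT) The cut-off at the poles and its flux. -/
def Stmt_CUT : Prop :=
  ∀ (V : Set E3) (a b : ℝ) (g : TensorField) (W : E3 → ℝ), Fol V a b g W →
    ∀ (Φ : E3 → E3) (z0 : E3) (r e : ℝ), Chart V W Φ z0 r e → ∀ t1 : ℝ,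
      SepAt g W Φ z0 r e t1 →
      (∀ t : ℝ, 0 < t → t < t1 →
        ContDiffOn ℝ ∞ (cut g W Φ z0 r e t) (slab V W (z0 2 - e) (z0 2 + e)) ∧
        ∀ x ∈ sing g W Φ z0 r e, ∀ᶠ y in 𝓝 x, cut g W Φ z0 r e t y = 0) ∧
      (∀ t x, 0 ≤ cut g W Φ z0 r e t x ∧ cut g W Φ z0 r e t x ≤ 1) ∧
      (∀ x ∈ slab V W (z0 2 - e) (z0 2 + e), x ∉ sing g W Φ z0 r e →
        Tendsto (fun t => cut g W Φ z0 r e t x) (𝓝[>] 0) (𝓝 1)) ∧
      ∀ (Y : E3 → Cov) (κ1 κ2 C t2 : ℝ),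
        (∀ i, ContDiffOn ℝ 1 (fun x => Y x i)
          (slab V W (z0 2 - e) (z0 2 + e) \ sing g W Φ z0 r e)) → 0 < t2 →
        (∀ x ∈ Φ '' obox z0 r e, 0 < rp g W Φ z0 (-(r / 2)) x →
          rp g W Φ z0 (-(r / 2)) x < t2 →
          |∑ i, pd i (rp g W Φ z0 (-(r / 2))) x * Y x i - κ1|
            ≤ C * Real.sqrt (rp g W Φ z0 (-(r / 2)) x)) →
        (∀ x ∈ Φ '' obox z0 r e, 0 < rp g W Φ z0 (r / 2) x → rp g W Φ z0 (r / 2) x < t2 →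
          |∑ i, pd i (rp g W Φ z0 (r / 2)) x * Y x i - κ2|
            ≤ C * Real.sqrt (rp g W Φ z0 (r / 2) x)) →
        ∀ ψ : ℝ → ℝ, ContDiff ℝ 1 ψ → tsupport ψ ⊆ Set.Ioo (z0 2 - e) (z0 2 + e) →
          Tendsto (fun t => ∫ x in slab V W (z0 2 - e) (z0 2 + e),
              ψ (W x) * (∑ i, pd i (cut g W Φ z0 r e t) x * Y x i) * dens g W x) (𝓝[>] 0)
            (𝓝 ((κ1 + κ2) * Real.pi * ∫ s, ψ s))

/-- (MEAN) The leafwise mean of `ρ₀` is zero. -/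
def Stmt_MEAN : Prop :=
  ∀ (V : Set E3) (a b : ℝ) (g : TensorField) (W : E3 → ℝ), Fol V a b g W →
    ∀ (Φ : E3 → E3) (z0 : E3) (r e : ℝ), Chart V W Φ z0 r e → ∀ t1 : ℝ,
      SepAt g W Φ z0 r e t1 → ∀ ψ : ℝ → ℝ, ContDiff ℝ 1 ψ →
      tsupport ψ ⊆ Set.Ioo (z0 2 - e) (z0 2 + e) →
      ∫ x in slab V W (z0 2 - e) (z0 2 + e), ψ (W x) * rho0 g W Φ z0 r e t1 x * dens g W x = 0

/-- (FLUX) The flux of `X` at a pole. -/
def Stmt_FLUX : Prop :=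
  ∀ (V : Set E3) (a b : ℝ) (g : TensorField) (W : E3 → ℝ), Fol V a b g W →
    ∀ (Φ : E3 → E3) (z0 : E3) (r e : ℝ), Chart V W Φ z0 r e → ∀ τ σ : ℝ, |τ| < r →
      (σ = 1 / 2 ∨ σ = -(1 / 2)) → ∀ φ1 u : E3 → ℝ, ContDiffOn ℝ ∞ φ1 V →
      ContDiffOn ℝ ∞ u V → ∀ δ : ℝ, 0 < δ → ∃ C t2 : ℝ, 0 < C ∧ 0 < t2 ∧
        ∀ x ∈ Φ '' obox z0 r e, 0 < rp g W Φ z0 τ x → rp g W Φ z0 τ x < t2 →
          |∑ i, pd i (rp g W Φ z0 τ) x
              * Xf g W (fun y => σ * Real.log (rp g W Φ z0 τ y) + φ1 y) u δ x i + 2|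
            ≤ C * Real.sqrt (rp g W Φ z0 τ x)

/-- (PUNCT) The integrated inequality with two poles. -/
def Stmt_PUNCT : Prop :=
  ∀ (V : Set E3) (a b : ℝ) (g : TensorField) (W : E3 → ℝ), Fol V a b g W →
    ∀ (Φ : E3 → E3) (z0 : E3) (r e : ℝ), Chart V W Φ z0 r e → ∀ t1 : ℝ,
      SepAt g W Φ z0 r e t1 → ∀ u u1 : E3 → ℝ, ContDiff ℝ ∞ u → ContDiff ℝ ∞ u1 →
      ∀ δ : ℝ, 0 < δ → ∀ ψ : ℝ → ℝ, BumpOn (z0 2 - e) (z0 2 + e) ψ →
        ∫ x in slab V W (z0 2 - e) (z0 2 + e), ψ (W x) * (curv g W x - lap g W u x)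
            * (lin g W (fun y => phi0 g W Φ z0 r e t1 y + u1 y)
                (fun y => phi0 g W Φ z0 r e t1 y + u1 y) x
              / (lin g W (fun y => phi0 g W Φ z0 r e t1 y + u1 y)
                (fun y => phi0 g W Φ z0 r e t1 y + u1 y) x + δ * Real.exp (2 * u x)))
            * dens g W x
        ≤ 4 * Real.pi * (∫ s, ψ s)
          + ∫ x in slab V W (z0 2 - e) (z0 2 + e), ψ (W x)
              * ((rho0 g W Φ z0 r e t1 x + lap g W u1 x) ^ 2 / (2 * δ * Real.exp (2 * u x)))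
              * dens g W x

/-! ## 8. Conclusion -/

/-- (RHO) `ρ₀` is a weak leafwise divergence. -/
def Stmt_RHO : Prop :=
  ∀ (V : Set E3) (a b : ℝ) (g : TensorField) (W : E3 → ℝ), Fol V a b g W →
    ∀ (Φ : E3 → E3) (z0 : E3) (r e : ℝ), Chart V W Φ z0 r e →
      IsPreconnected (V ∩ W ⁻¹' {z0 2}) → ∀ t1 : ℝ, SepAt g W Φ z0 r e t1 →
      ∃ e1 : ℝ, 0 < e1 ∧ e1 ≤ e ∧
        NullOn V g W (z0 2) e1 (Set.indicator (slab V W (z0 2 - e) (z0 2 + e))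
          (rho0 g W Φ z0 r e t1))

/-- (CONC) The curvature is, up to weak divergences, a bounded multiple of functions concentrated
near the pole. -/
def Stmt_CONC : Prop :=
  ∀ (V : Set E3) (a b : ℝ) (g : TensorField) (W : E3 → ℝ), Fol V a b g W →
    ∀ (Φ : E3 → E3) (z0 : E3) (r e : ℝ), Chart V W Φ z0 r e →
      IsPreconnected (V ∩ W ⁻¹' {z0 2}) → ∀ t1 : ℝ, SepAt g W Φ z0 r e t1 →
      ∃ e1 C : ℝ, 0 < e1 ∧ e1 ≤ e ∧ 0 < C ∧ ∀ L : ℝ, 0 < L →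
        ∃ (β : E3 → ℝ) (γ : ℝ → ℝ), BddMeas β ∧ (∀ x, 0 ≤ β x) ∧ Measurable γ ∧
          (∀ s, |γ s| ≤ C) ∧
          (∀ x, β x ≠ 0 → x ∈ Φ '' obox z0 r e ∧ rp g W Φ z0 (-(r / 2)) x < t1 / 2 ∧
            β x * rp g W Φ z0 (-(r / 2)) x ≤ 1 / L) ∧
          NullOn V g W (z0 2) e1 (fun x =>
            Set.indicator (slab V W (z0 2 - e) (z0 2 + e)) (curv g W) x - γ (W x) * β x)

/-- (LOC) The local form of (GB). -/
def Stmt_LOC : Prop :=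
  ∀ (V : Set E3) (a b : ℝ) (g : TensorField) (W : E3 → ℝ), Fol V a b g W →
    ∀ s0 : ℝ, a < s0 → s0 < b → IsPreconnected (V ∩ W ⁻¹' {s0}) →
      ∃ e : ℝ, 0 < e ∧ a < s0 - e ∧ s0 + e < b ∧ ∀ ψ : ℝ → ℝ, BumpOn (s0 - e) (s0 + e) ψ →
        ∫ x in V, ψ (W x) * curv g W x * dens g W x ≤ 4 * Real.pi * ∫ s, ψ s

/-- (GBC) (GB) for continuous `ψ`. -/
def Stmt_GBC : Prop :=
  ∀ (V : Set E3) (a b : ℝ) (g : TensorField) (W : E3 → ℝ), Fol V a b g W →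
    (∀ s : ℝ, IsPreconnected (V ∩ W ⁻¹' {s})) →
    ∀ ψ : ℝ → ℝ, Continuous ψ → (∀ s, 0 ≤ ψ s) → tsupport ψ ⊆ Set.Ioo a b →
      ∫ x in V, ψ (W x) * curv g W x * dens g W x ≤ 4 * Real.pi * ∫ s, ψ s

/-- (GBX) The form used in the block MI: `f` is continuous on `E3`, regular at all levels in
`(a, b)`, and `{f < c}`, `{c < f}` are connected. -/
def Stmt_GBX : Prop :=
  ∀ (U : Set E3) (g : TensorField) (f : E3 → ℝ) (a b : ℝ), IsOpen U → MetricOn U g →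
    Continuous f →
    (∀ x, a < f x → f x < b → x ∈ U ∧ ContDiffAt ℝ ∞ f x ∧ grad f x ≠ 0) →
    (∀ c d : ℝ, a < c → d < b → IsCompact {x | c ≤ f x ∧ f x ≤ d}) →
    (∀ c : ℝ, a < c → c < b → IsPreconnected {x | f x < c} ∧ IsPreconnected {x | c < f x}) →
    ∀ ψ : ℝ → ℝ, Continuous ψ → (∀ s, 0 ≤ ψ s) → tsupport ψ ⊆ Set.Ioo a b →
      ∫ x, ψ (f x) * gaussK g x (grad f x) (hess2 f x) * (len g x (grad f x) * volDen g x)
        ≤ 4 * Real.pi * ∫ s, ψ s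

end Pool.Agent.PFlow.GB
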