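import Pool.Agent.PFlow.DefsXH
import Pool.Agent.PFlow.StmtsX2
import Pool.Agent.PFlow.StmtsE2
import Pool.Agent.PFlow.StmtsM

/-!
# Exterior regions: statements of the block HX (helper43)

`H²` bound near the boundary sphere (LEG), estimates in the collar (COLE), level set inequality up to
the boundary (MIX). Proofs in `HX.md`.
-/

open MeasureTheory Filter Topology
open scoped ContDiff ENNReal

namespace Pool.Agent.PFlow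

open Pool.Agent.PenroseSph

/-! ## The `H²` bound near the unit sphere -/

/-- The metric, its first derivatives, the tensor and the inverse metric are bounded by `Λ` at `x`. -/
structure BdAt (Λ : ℝ) (g h : TensorField) (x : E3) : Prop where
  posDef : (g x).PosDef
  metric : ∀ i j, |g x i j| ≤ Λ
  deriv : ∀ i j m, |pd m (fun y => g y i j) x| ≤ Λ
  tensor : ∀ i j, |h x i j| ≤ Λ
  elliptic : ∀ v : Cov, (∑ i, v i ^ 2) ≤ Λ * ev (g x) v v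

/-- HXA: Cordes' inequality at a point, with the raw second derivatives. -/
def Stmt_HXA : Prop :=
  ∀ ε Λ : ℝ, 0 < ε → ε < 1 → 0 < Λ → ∃ c C : ℝ, 0 < c ∧ 0 < C ∧
    ∀ (g h : TensorField) (x : E3) (p : Cov) (M : Bil), BdAt Λ g h x →
      (p ≠ 0 → beps ε g x p (cHess g x p M) + len g x p * beps ε g x p (h x) = 0) →
      (p = 0 → M = 0) →
      c * msz M ^ 2 ≤ volDen g x * (nsq g x M - trg g x M ^ 2) + C * vsz p ^ 2

/-- A cut-off function in the annulus `1/2 < |x| < 2`. -/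
structure CutZ (ζ : E3 → ℝ) : Prop where
  smooth : ContDiff ℝ ∞ ζ
  compact : HasCompactSupport ζ
  supp : tsupport ζ ⊆ Ann (1 / 2) 2
  nonneg : ∀ x, 0 ≤ ζ x
  le_one : ∀ x, ζ x ≤ 1

/-- HXCUT: there is a cut-off function which is `1` for `3/4 ≤ |x| ≤ 4/3`. -/
def Stmt_HXCUT : Prop := ∃ ζ : E3 → ℝ, CutZ ζ ∧ ∀ x ∈ cAnn (3 / 4) (4 / 3), ζ x = 1

/-- HXBS: integration by parts for the quadratic form of second derivatives, smooth functions. -/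
def Stmt_HXBS : Prop :=
  ∀ (Λ : ℝ) (ζ : E3 → ℝ), 0 < Λ → CutZ ζ → ∃ C : ℝ, 0 < C ∧
    ∀ (g h : TensorField) (v : E3 → ℝ),
      MetricOn (Ann (1 / 2) 2) g → (∀ x ∈ Ann (1 / 2) 2, BdAt Λ g h x) → ContDiff ℝ ∞ v →
      ∫ x in Ann (1 / 2) 2,
          ζ x ^ 4 * (volDen g x * (nsq g x (hess2 v x) - trg g x (hess2 v x) ^ 2))
        ≤ C * ∫ x in Ann (1 / 2) 2, ζ x ^ 3 * (vsz (grad v x) * msz (hess2 v x))

/-- HXB: integration by parts for the quadratic form of second derivatives. -/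
def Stmt_HXB : Prop :=
  ∀ (Λ : ℝ) (ζ : E3 → ℝ), 0 < Λ → CutZ ζ → ∃ C : ℝ, 0 < C ∧
    ∀ (g h : TensorField) (u : E3 → ℝ) (G : E3 → Cov) (M : E3 → Bil),
      MetricOn (Ann (1 / 2) 2) g → (∀ x ∈ Ann (1 / 2) 2, BdAt Λ g h x) →
      H2On (Ann (1 / 2) 2) u G M →
      IntegrableOn (fun x => ζ x ^ 4 * (volDen g x * (nsq g x (M x) - trg g x (M x) ^ 2)))
        (Ann (1 / 2) 2) ∧
      ∫ x in Ann (1 / 2) 2, ζ x ^ 4 * (volDen g x * (nsq g x (M x) - trg g x (M x) ^ 2))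
        ≤ C * (Real.sqrt (∫ x in Ann (1 / 2) 2, ζ x ^ 4 * msz (M x) ^ 2)
          * Real.sqrt (∫ x in Ann (1 / 2) 2, ζ x ^ 2 * vsz (G x) ^ 2))

/-- HXC: the first derivatives are controlled by the second ones. -/
def Stmt_HXC : Prop :=
  ∀ (S : ℝ) (ζ : E3 → ℝ), 0 < S → CutZ ζ → ∃ C : ℝ, 0 < C ∧
    ∀ (u : E3 → ℝ) (G : E3 → Cov) (M : E3 → Bil),
      H2On (Ann (1 / 2) 2) u G M → (∀ x ∈ Ann (1 / 2) 2, |u x| ≤ S) →
      IntegrableOn (fun x => ζ x ^ 2 * vsz (G x) ^ 2) (Ann (1 / 2) 2) ∧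
      IntegrableOn (fun x => ζ x ^ 4 * msz (M x) ^ 2) (Ann (1 / 2) 2) ∧
      ∫ x in Ann (1 / 2) 2, ζ x ^ 2 * vsz (G x) ^ 2
        ≤ C * (Real.sqrt (∫ x in Ann (1 / 2) 2, ζ x ^ 4 * msz (M x) ^ 2)
          + Real.sqrt (∫ x in Ann (1 / 2) 2, ζ x ^ 2 * vsz (G x) ^ 2))

/-- LEG: the uniform `H²` bound near the unit sphere. -/
def Stmt_LEG : Prop :=
  ∀ ε Λ S : ℝ, 0 < ε → ε < 1 → 0 < Λ → 0 < S → ∃ C : ℝ, 0 < C ∧
    ∀ (g h : TensorField) (u : E3 → ℝ) (G : E3 → Cov) (M : E3 → Bil),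
      MetricOn (Ann (1 / 2) 2) g → (∀ x ∈ Ann (1 / 2) 2, BdAt Λ g h x) →
      H2On (Ann (1 / 2) 2) u G M → EqU (Ann (1 / 2) 2) ε g h G M →
      (∀ x ∈ Ann (1 / 2) 2, |u x| ≤ S) →
      ∫ x in cAnn (3 / 4) (4 / 3), (vsz (G x) ^ 2 + msz (M x) ^ 2) ≤ C

/-! ## The collar -/

/-- HXRAY: estimates in the collar for a smooth function which is `1` on the unit sphere. -/
def Stmt_HXRAY : Prop :=
  ∀ (v : E3 → ℝ) (τ : ℝ), ContDiff ℝ ∞ v → (∀ x : E3, ‖x‖ = 1 → v x = 1) → 0 < τ → τ ≤ 1 / 10 →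
    (∫ x in cAnn 1 (Real.exp τ), tanP x (grad v x))
      ≤ 4 * τ * (∫ x in cAnn 1 (Real.exp τ), msz (hess2 v x)) ∧
    ∀ δ : ℝ, 0 < δ → δ < τ →
      (∫ x in cAnn (Real.exp δ) (Real.exp τ), negP x (-grad v x))
        ≤ (∫ x in cAnn (Real.exp δ) (Real.exp τ), max ((v x - 1) / (‖x‖ - 1)) 0)
          + 4 * τ * (∫ x in cAnn 1 (Real.exp τ), msz (hess2 v x))

/-- HXTR: the first derivatives in the collar. -/
def Stmt_HXTR : Prop :=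
  ∀ (v : E3 → ℝ) (τ : ℝ), ContDiff ℝ ∞ v → 0 < τ → τ ≤ 1 / 10 →
    (∫ x in cAnn 1 (Real.exp τ), vsz (grad v x))
      ≤ 100 * τ * (∫ x in cAnn 1 (4 / 3), (vsz (grad v x) + msz (hess2 v x)))

/-- HXUNI: the derivatives of a function of class `H²` are unique. -/
def Stmt_HXUNI : Prop :=
  ∀ (U : Set E3) (w : E3 → ℝ) (G G' : E3 → Cov) (M M' : E3 → Bil), IsOpen U →
    H2On U w G M → H2On U w G' M' →
    (∀ᵐ x ∂(volume.restrict U), G x = G' x) ∧ (∀ᵐ x ∂(volume.restrict U), M x = M' x)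

/-- HXANTI: functions which are odd under the inversion, up to the constant `1`. -/
def Stmt_HXANTI : Prop :=
  ∀ (u : E3 → ℝ) (G : E3 → Cov) (M : E3 → Bil), H2On (Ann (1 / 2) 2) u G M →
    (∀ x ∈ Ann (1 / 2) 2, u (inversion x) = 2 - u x) →
    (∀ᵐ x ∂(volume.restrict (Ann (1 / 2) 2)), ∀ i,
      ∑ a, inversionJac x a i * G (inversion x) a = -G x i) ∧
    ∃ v : ℕ → E3 → ℝ, (∀ n, ContDiff ℝ ∞ (v n)) ∧ (∀ n, ∀ x : E3, ‖x‖ = 1 → v n x = 1) ∧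
      TendstoUniformlyOn v u atTop (cAnn (3 / 4) (4 / 3)) ∧
      (∀ i, Tendsto (fun n => ∫ x in cAnn (3 / 4) (4 / 3), (pd i (v n) x - G x i) ^ 2) atTop
        (𝓝 0)) ∧
      (∀ i j, Tendsto (fun n => ∫ x in cAnn (3 / 4) (4 / 3), (pd i (pd j (v n)) x - M x i j) ^ 2)
        atTop (𝓝 0))

/-- COLE: the gradient in the collar. -/
def Stmt_COLE : Prop :=
  ∃ C : ℝ, 0 < C ∧ ∀ (u : E3 → ℝ) (G : E3 → Cov) (M : E3 → Bil) (A : ℝ),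
    H2On (Ann (1 / 2) 2) u G M → (∀ x ∈ Ann (1 / 2) 2, u (inversion x) = 2 - u x) →
    (∀ x : E3, 1 ≤ ‖x‖ → ‖x‖ < 2 → u x ≤ 1) →
    ∫ x in cAnn (3 / 4) (4 / 3), (vsz (G x) ^ 2 + msz (M x) ^ 2) ≤ A →
    ∀ τ : ℝ, 0 < τ → τ ≤ 1 / 10 →
      IntegrableOn (fun x => tanP x (G x)) (cAnn 1 (Real.exp τ)) ∧
      IntegrableOn (fun x => negP x (-G x)) (cAnn 1 (Real.exp τ)) ∧
      IntegrableOn (fun x => vsz (G x)) (cAnn 1 (Real.exp τ)) ∧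
      (∫ x in cAnn 1 (Real.exp τ), tanP x (G x)) ≤ C * τ * Real.sqrt τ * Real.sqrt A ∧
      (∫ x in cAnn 1 (Real.exp τ), negP x (-G x)) ≤ C * τ * Real.sqrt τ * Real.sqrt A ∧
      (∫ x in cAnn 1 (Real.exp τ), vsz (G x)) ≤ C * τ * Real.sqrt A

/-! ## The level set inequality up to the boundary -/

/-- HXLEV: the levels close to that of the boundary. -/
def Stmt_HXLEV : Prop :=
  ∀ (ε R c s₁ : ℝ) (g h : TensorField) (u : E3 → ℝ) (G : E3 → Cov) (M : E3 → Bil),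
    0 < ε → ε ≤ 1 / 2 → 8 ≤ R → 0 < c → 0 < s₁ → SolX ε R g h u G M →
    (∀ x ∈ Ann (1 / 2) R, 0 < u x) → (∀ x : E3, 1 < ‖x‖ → ‖x‖ < R → u x < 1) →
    (∀ x : E3, 1 / 2 < ‖x‖ → ‖x‖ ≤ 2 / 3 → 1 + c ≤ u x) →
    (∃ r : ℝ, 1 < r ∧ r < R ∧ ∀ x : E3, r ≤ ‖x‖ → ‖x‖ < R → s₁ < wOf ε u x) →
    (∀ x ∈ Ann (1 / 2) R, (u x < 1 ↔ 1 < ‖x‖) ∧ (u x = 1 ↔ ‖x‖ = 1) ∧ (0 < wOf ε u x ↔ 1 < ‖x‖)) ∧
    ∃ σ₀ : ℝ, 0 < σ₀ ∧ σ₀ ≤ 1 / 2 ∧ ∀ x ∈ Ann (1 / 2) R, |u x - 1| ≤ σ₀ → x ∈ cAnn (2 / 3) (3 / 2)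

/-- HXSYM: integrals of odd quantities vanish. -/
def Stmt_HXSYM : Prop :=
  ∀ (ε : ℝ) (g h : TensorField) (u : E3 → ℝ) (G : E3 → Cov) (M : E3 → Bil),
    MetricOn Set.univ g → TensorOn Set.univ h → Mirror g h → H2On (Ann (1 / 2) 2) u G M →
    (∀ x ∈ Ann (1 / 2) 2, u (inversion x) = 2 - u x) →
    (∀ F : ℝ → ℝ, (∀ s, F (2 - s) = -F s) →
      ∫ x in Ann (1 / 2) 2, F (u x) * len g x (G x) ^ 3 * volDen g x = 0) ∧
    (∀ L : ℝ → ℝ, (∀ s, L (2 - s) = L s) →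
      ∫ x in Ann (1 / 2) 2, L (u x) * len g x (G x) ^ 2
        * (2 / (2 - ε) * beps ε g x (G x) (h x) - btan g x (G x) (h x)) * volDen g x = 0)

/-- A rise at the level `u = 1`: `lam' = L(u) u² / ε²` with `u = e^{-s/ε}` and a function `L` which is
even about `u = 1`. -/
structure Rise (ε σ : ℝ) (L lam : ℝ → ℝ) : Prop where
  smoothL : ContDiff ℝ ∞ L
  nonneg : ∀ t, 0 ≤ L t
  even : ∀ t, L (2 - t) = L t
  suppL : ∀ t, σ < |t - 1| → L t = 0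
  smooth : ContDiff ℝ ∞ lam
  deriv : ∀ s, deriv lam s = L (Real.exp (-s / ε)) * Real.exp (-s / ε) ^ 2 / ε ^ 2
  zero : ∀ s, s ≤ -ε * Real.log (1 + σ) → lam s = 0
  one : ∀ s, -ε * Real.log (1 - σ) ≤ s → lam s = 1
  mem : ∀ s, 0 ≤ lam s ∧ lam s ≤ 1

/-- HXLAM: existence of the rise. -/
def Stmt_HXLAM : Prop :=
  ∀ ε σ : ℝ, 0 < ε → ε ≤ 1 / 2 → 0 < σ → σ ≤ 1 / 2 → ∃ L lam : ℝ → ℝ, Rise ε σ L lam

/-- HXBT: the boundary term has a sign. -/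
def Stmt_HXBT : Prop :=
  ∀ (ε R σ : ℝ) (g h : TensorField) (u : E3 → ℝ) (G : E3 → Cov) (M : E3 → Bil) (L lam : ℝ → ℝ),
    0 < ε → ε ≤ 1 / 2 → 8 ≤ R → 0 < σ → σ ≤ 1 / 2 → MetricOn Set.univ g →
    TensorOn Set.univ h → Mirror g h → SolX ε R g h u G M → (∀ x ∈ Ann (1 / 2) R, 0 < u x) →
    (∀ x ∈ Ann (1 / 2) R, |u x - 1| ≤ σ → x ∈ cAnn (2 / 3) (3 / 2)) → Rise ε σ L lam →
    ∫ x in Ann (1 / 2) R, deriv lam (wOf ε u x) *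
      flux ε g h x (gOf ε u G x) (mOf ε u G M x) * volDen g x ≤ 0

end Pool.Agent.PFlow
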