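import Pool.Agent.PFlow.Sol

/-!
# Block K: the regularised coefficients

Definitions and statements of the modules on the coefficients of the regularised equation
`div A(x, ∇u) + B(x, ∇u) = F`. Sketches in `K.md`. All statements are independent of the PDE
modules.
-/

open MeasureTheory Filter Topology
open scoped ContDiff

namespace Pool.Agent.PFlow

open Pool.Agent.PenroseSph

/-! ### Definitions -/

/-- The data of the PDE block: `g` is a smooth metric and `h` a smooth symmetric tensor on `E3`,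
and `g = δ`, `h = 0` for `|x| ≥ r`. -/
structure GData (g h : TensorField) (r : ℝ) : Prop where
  met : MetricOn Set.univ g
  ten : TensorOn Set.univ h
  flat : ∀ x : E3, r ≤ ‖x‖ → g x = 1 ∧ h x = 0

/-- A covector as an element of `E3`. -/
noncomputable abbrev vec (p : Cov) : E3 := WithLp.toLp 2 p

/-- `|p|_g²` -/
noncomputable def lsq (g : TensorField) (x : E3) (p : Cov) : ℝ := ev (g x)⁻¹ p p

/-- `α(s) = (s + δ²)^((ε-1)/2) + κ`; the regularised weight is `a(t) = α(t²)`. -/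
noncomputable def regA (ε δ κ s : ℝ) : ℝ := (s + δ ^ 2) ^ ((ε - 1) / 2) + κ

/-- `2 α'(s) = (ε-1) (s + δ²)^((ε-3)/2)`, which is `a'(t)/t` for `s = t²`. -/
noncomputable def regD (ε δ s : ℝ) : ℝ := (ε - 1) * (s + δ ^ 2) ^ ((ε - 3) / 2)

/-- `A^i(x, ξ) = √g a(|ξ|_g) g^{ij} ξ_j` -/
noncomputable def cA (ε δ κ : ℝ) (g : TensorField) (x ξ : E3) : E3 :=
  vec fun i => volDen g x * regA ε δ κ (lsq g x ξ) * raise g x ξ i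

/-- `B(x, ξ) = √g (|ξ|²+δ²)^((ε-2)/2) (|ξ|² tr h - (1-ε) h(ξ^♯, ξ^♯))` -/
noncomputable def cB (ε δ : ℝ) (g h : TensorField) (x ξ : E3) : ℝ :=
  volDen g x * (lsq g x ξ + δ ^ 2) ^ ((ε - 2) / 2) *
    (lsq g x ξ * trg g x (h x) - (1 - ε) * ev (h x) (raise g x ξ) (raise g x ξ))

/-- The limit `A_0^i(x, ξ) = √g |ξ|_g^(ε-1) g^{ij} ξ_j` (zero for `ξ = 0`). -/
noncomputable def cA0 (ε : ℝ) (g : TensorField) (x ξ : E3) : E3 :=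
  vec fun i => volDen g x * len g x ξ ^ (ε - 1) * raise g x ξ i

/-- The limit `B_0(x, ξ) = √g |ξ|^ε (tr h - (1-ε) h(n, n))`. -/
noncomputable def cB0 (ε : ℝ) (g h : TensorField) (x ξ : E3) : ℝ :=
  volDen g x * (len g x ξ ^ ε * beps ε g x ξ (h x))

/-- The 2-jet form of `div A(x, ∇f)`: `√g (a tr ∇²f + (a'/t) ∇²f(∇f, ∇f))`. -/
noncomputable def opL (ε δ κ : ℝ) (g : TensorField) (x : E3) (p : Cov) (M : Bil) : ℝ :=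
  volDen g x * (regA ε δ κ (lsq g x p) * trg g x (cHess g x p M) +
    regD ε δ (lsq g x p) * ev (cHess g x p M) (raise g x p) (raise g x p))

/-- The structure used by the PDE modules: smooth coefficients, strongly monotone and Lipschitz in
`ξ`, `A(x,0) = 0`, `B(x,0) = 0`, and `B = 0` for `|x| ≥ r`. -/
structure Coef (A : E3 → E3 → E3) (B : E3 → E3 → ℝ) (c L r : ℝ) : Prop where
  smoothA : ContDiff ℝ ∞ (fun q : E3 × E3 => A q.1 q.2)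
  smoothB : ContDiff ℝ ∞ (fun q : E3 × E3 => B q.1 q.2)
  A0 : ∀ x, A x 0 = 0
  B0 : ∀ x, B x 0 = 0
  mono : ∀ x ξ η, c * ‖ξ - η‖ ^ 2 ≤ inner ℝ (A x ξ - A x η) (ξ - η)
  lipA : ∀ x ξ η, ‖A x ξ - A x η‖ ≤ L * ‖ξ - η‖
  lipB : ∀ x ξ η, |B x ξ - B x η| ≤ L * ‖ξ - η‖
  lipX : ∀ x y ξ, ‖A x ξ - A y ξ‖ ≤ L * ‖x - y‖ * ‖ξ‖
  supp : ∀ x ξ, r ≤ ‖x‖ → B x ξ = 0

/-! ### The metric -/

/-- KSM: smoothness of the inverse metric, the volume density and the Christoffel symbols. -/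
def KSM : Prop := ∀ (g h : TensorField) (r : ℝ), GData g h r →
  (∀ i j, ContDiff ℝ ∞ (fun x => (g x)⁻¹ i j)) ∧ ContDiff ℝ ∞ (volDen g) ∧
    ∀ k i j, ContDiff ℝ ∞ (christoffel g k i j)

/-- The bounds of the metric, with a constant `C`. -/
structure GBound (g h : TensorField) (C : ℝ) : Prop where
  one : 1 ≤ C
  up : ∀ (x : E3) (p : Cov), lsq g x p ≤ C * ‖vec p‖ ^ 2
  low : ∀ (x : E3) (p : Cov), ‖vec p‖ ^ 2 ≤ C * lsq g x p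
  volUp : ∀ x, volDen g x ≤ C
  volLow : ∀ x, 1 ≤ C * volDen g x
  inv : ∀ x i j, |(g x)⁻¹ i j| ≤ C
  raise : ∀ (x : E3) (p : Cov), ‖vec (raise g x p)‖ ≤ C * ‖vec p‖
  chr : ∀ x k i j, |christoffel g k i j x| ≤ C
  hh : ∀ x i j, |h x i j| ≤ C
  tr : ∀ x (M : Bil), |trg g x M| ≤ C * ∑ i, ∑ j, |M i j|
  dinv : ∀ x i j k, |pd k (fun y => (g y)⁻¹ i j) x| ≤ C
  dvol : ∀ x k, |pd k (volDen g) x| ≤ C
  nsqUp : ∀ x (M : Bil), nsq g x M ≤ C * ∑ i, ∑ j, M i j ^ 2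
  nsqLow : ∀ x (M : Bil), ∑ i, ∑ j, M i j ^ 2 ≤ C * nsq g x M

/-- KBND: the bounds of the metric (`g = δ`, `h = 0` outside a compact set). -/
def KBND : Prop := ∀ (g h : TensorField) (r : ℝ), GData g h r → ∃ C, GBound g h C

/-- KIDV: derivatives of the inverse metric and of the volume density, on an open set. -/
def KIDV : Prop := ∀ (U : Set E3) (g : TensorField), IsOpen U → MetricOn U g → ∀ x ∈ U,
  (∀ i j k, pd k (fun y => (g y)⁻¹ i j) x =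
    -∑ m, (christoffel g i k m x * (g x)⁻¹ m j + christoffel g j k m x * (g x)⁻¹ i m)) ∧
  (∀ k, pd k (volDen g) x = volDen g x * ∑ m, christoffel g m m k x) ∧
  ∀ j, ∑ i, pd i (fun y => volDen g y * (g y)⁻¹ i j) x =
    -(volDen g x * ∑ k, ∑ l, (g x)⁻¹ k l * christoffel g j k l x)

/-- KTN: linear algebra of a positive definite matrix `G` (the metric at a point). -/
def KTN : Prop := ∀ (g : TensorField) (x : E3), (g x).PosDef → ∀ p : Cov,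
  0 ≤ lsq g x p ∧ (p ≠ 0 → 0 < lsq g x p) ∧ len g x p ^ 2 = lsq g x p ∧
  (∀ q : Cov, ∑ i, raise g x p i * q i = ev (g x)⁻¹ p q) ∧
  (∀ q : Cov, (ev (g x)⁻¹ p q) ^ 2 ≤ lsq g x p * lsq g x q) ∧
  (∀ B : Bil, (ev B (raise g x p) (raise g x p)) ^ 2 ≤ lsq g x p ^ 2 * nsq g x B) ∧
  (∀ B : Bil, 0 ≤ nsq g x B) ∧
  (p ≠ 0 → ∀ B : Bil, bnn g x p B = ev B (raise g x p) (raise g x p) / lsq g x p)

/-! ### The structure `Coef` -/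

/-- KSMO: joint smoothness and the values at `ξ = 0` and outside the ball. -/
def KSMO : Prop := ∀ (ε δ κ : ℝ) (g h : TensorField) (r : ℝ), 0 < ε → ε < 1 → 0 < δ → 0 < κ →
  GData g h r →
  ContDiff ℝ ∞ (fun q : E3 × E3 => cA ε δ κ g q.1 q.2) ∧
  ContDiff ℝ ∞ (fun q : E3 × E3 => cB ε δ g h q.1 q.2) ∧
  (∀ x, cA ε δ κ g x 0 = 0) ∧ (∀ x, cB ε δ g h x 0 = 0) ∧
  ∀ x ξ, r ≤ ‖x‖ → cB ε δ g h x ξ = 0

/-- KMON: strong monotonicity. -/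
def KMON : Prop := ∀ (ε δ κ : ℝ) (g h : TensorField) (r : ℝ), 0 < ε → ε < 1 → 0 < δ → 0 < κ →
  GData g h r → ∃ c : ℝ, 0 < c ∧ ∀ x ξ η,
    c * ‖ξ - η‖ ^ 2 ≤ inner ℝ (cA ε δ κ g x ξ - cA ε δ κ g x η) (ξ - η)

/-- KLIP: Lipschitz bounds. -/
def KLIP : Prop := ∀ (ε δ κ : ℝ) (g h : TensorField) (r : ℝ), 0 < ε → ε < 1 → 0 < δ → 0 < κ →
  GData g h r → ∃ L : ℝ,
    (∀ x ξ η, ‖cA ε δ κ g x ξ - cA ε δ κ g x η‖ ≤ L * ‖ξ - η‖) ∧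
    (∀ x ξ η, |cB ε δ g h x ξ - cB ε δ g h x η| ≤ L * ‖ξ - η‖) ∧
    ∀ x y ξ, ‖cA ε δ κ g x ξ - cA ε δ κ g y ξ‖ ≤ L * ‖x - y‖ * ‖ξ‖

/-- KCOEF: the regularised coefficients satisfy `Coef`. -/
def KCOEF : Prop := ∀ (ε δ κ : ℝ) (g h : TensorField) (r : ℝ), 0 < ε → ε < 1 → 0 < δ → 0 < κ →
  GData g h r → ∃ c L : ℝ, 0 < c ∧ Coef (cA ε δ κ g) (cB ε δ g h) c L r

/-! ### The second order operator -/

/-- KJET: `div_x A(x,p) + D_ξ A(x,p) : M` is `opL`. -/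
def KJET : Prop := ∀ (ε δ κ : ℝ) (g h : TensorField) (r : ℝ), 0 < ε → ε < 1 → 0 < δ → 0 < κ →
  GData g h r → ∀ (x : E3) (p : Cov) (M : Bil),
    ∑ i, pd i (fun y => cA ε δ κ g y (vec p) i) x +
      ∑ i, ∑ j, M i j * pd j (fun ξ => cA ε δ κ g x ξ i) (vec p) = opL ε δ κ g x p M

/-- KDIV: `div A(x, ∇f) = opL(∇f, ∇²f)` for functions of class `C²`. -/
def KDIV : Prop := ∀ (ε δ κ : ℝ) (g h : TensorField) (r : ℝ), 0 < ε → ε < 1 → 0 < δ → 0 < κ →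
  GData g h r → ∀ (f : E3 → ℝ) (x : E3), ContDiffAt ℝ 2 f x →
    ∑ i, pd i (fun y => cA ε δ κ g y (vec (grad f y)) i) x =
      opL ε δ κ g x (grad f x) (hess2 f x)

/-- KCOR: the Cordes inequality, uniformly in `δ, κ ∈ (0, 1]`. -/
def KCOR : Prop := ∀ (ε : ℝ) (g h : TensorField) (r : ℝ), 0 < ε → ε < 1 → GData g h r →
  ∃ C : ℝ, 0 ≤ C ∧ ∀ δ κ : ℝ, 0 < δ → δ ≤ 1 → 0 < κ → κ ≤ 1 →
    ∀ (x : E3) (p : Cov) (M : Bil) (F : ℝ),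
      opL ε δ κ g x p M + cB ε δ g h x (vec p) = F →
      trg g x (cHess g x p M) ^ 2 ≤ (1 - ε) * nsq g x (cHess g x p M) +
        C * (‖vec p‖ ^ 2 + F ^ 2 * (1 + ‖vec p‖ ^ 2))

/-- KLIMJ: convergence of the second order operator at jets with `p ≠ 0`. -/
def KLIMJ : Prop := ∀ (ε : ℝ) (g h : TensorField) (r : ℝ), 0 < ε → ε < 1 → GData g h r →
  ∀ (K : Set E3) (f : E3 → ℝ), IsCompact K → (∀ x ∈ K, ContDiffAt ℝ 2 f x) →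
    (∀ x ∈ K, grad f x ≠ 0) → ∀ η : ℝ, 0 < η → ∃ δ₀ : ℝ, 0 < δ₀ ∧
      ∀ δ κ : ℝ, 0 < δ → δ ≤ δ₀ → 0 < κ → κ ≤ δ₀ → ∀ x ∈ K,
        |opL ε δ κ g x (grad f x) (hess2 f x) + cB ε δ g h x (vec (grad f x)) -
          volDen g x * len g x (grad f x) ^ (ε - 1) * opN ε g h f x| ≤ η

/-- KPOS: strict subsolutions and supersolutions of the limit equation are strict for the
regularised equation. -/
def KPOS : Prop := ∀ (ε : ℝ) (g h : TensorField) (r : ℝ), 0 < ε → ε < 1 → GData g h r →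
  ∀ (K : Set E3) (f : E3 → ℝ), IsCompact K → (∀ x ∈ K, ContDiffAt ℝ 2 f x) →
    ((∀ x ∈ K, grad f x ≠ 0 ∧ 0 < opN ε g h f x) → ∃ σ δ₀ : ℝ, 0 < σ ∧ 0 < δ₀ ∧
      ∀ δ κ : ℝ, 0 < δ → δ ≤ δ₀ → 0 < κ → κ ≤ δ₀ → ∀ x ∈ K,
        σ ≤ opL ε δ κ g x (grad f x) (hess2 f x) + cB ε δ g h x (vec (grad f x))) ∧
    ((∀ x ∈ K, grad f x ≠ 0 ∧ opN ε g h f x < 0) → ∃ σ δ₀ : ℝ, 0 < σ ∧ 0 < δ₀ ∧
      ∀ δ κ : ℝ, 0 < δ → δ ≤ δ₀ → 0 < κ → κ ≤ δ₀ → ∀ x ∈ K,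
        opL ε δ κ g x (grad f x) (hess2 f x) + cB ε δ g h x (vec (grad f x)) ≤ -σ)

/-- KEXP: the function `exp (α x_0)` is a strict subsolution of all the operators, uniformly in
`δ, κ` (and of the limit operator); its negative is a strict supersolution. -/
def KEXP : Prop := ∀ (ε : ℝ) (g h : TensorField) (r : ℝ), 0 < ε → ε < 1 → GData g h r →
  ∃ α : ℝ, 0 < α ∧ ∀ (x : E3) (τ : ℝ), τ ≠ 0 →
    grad (fun y => τ * Real.exp (α * y 0)) x ≠ 0 ∧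
    0 < τ * opN ε g h (fun y => τ * Real.exp (α * y 0)) x ∧
    ∀ δ κ : ℝ, 0 < δ → 0 < κ →
      0 < τ * (opL ε δ κ g x (grad (fun y => τ * Real.exp (α * y 0)) x)
        (hess2 (fun y => τ * Real.exp (α * y 0)) x) +
      cB ε δ g h x (vec (grad (fun y => τ * Real.exp (α * y 0)) x)))

/-- KBAR: uniform bound of the operators on functions with `|D²f| ≤ C |Df|^(1-ε)`. -/
def KBAR : Prop := ∀ (ε : ℝ) (g h : TensorField) (r C₁ : ℝ), 0 < ε → ε < 1 → GData g h r →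
  ∃ C : ℝ, ∀ (δ κ : ℝ), 0 < δ → δ ≤ 1 → 0 < κ → κ ≤ 1 → ∀ (x : E3) (p : Cov) (M : Bil),
    ‖vec p‖ ≤ C₁ → (∀ i j, |M i j| ≤ C₁ * ‖vec p‖ ^ (1 - ε)) →
    |opL ε δ κ g x p M| + |cB ε δ g h x (vec p)| ≤ C

/-- KCUT: cut-off functions satisfying the hypothesis of KBAR. -/
def KCUT : Prop := ∀ (ε r₁ r₂ : ℝ), 0 < ε → ε < 1 → 0 < r₁ → r₁ < r₂ →
  ∃ (f : E3 → ℝ) (C₁ : ℝ), ContDiff ℝ 2 f ∧ (∀ x, 0 ≤ f x ∧ f x ≤ 1) ∧
    (∀ x, ‖x‖ ≤ r₁ → f x = 1) ∧ (∀ x, r₂ ≤ ‖x‖ → f x = 0) ∧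
    (∀ x, ‖vec (grad f x)‖ ≤ C₁) ∧
    ∀ x i j, |hess2 f x i j| ≤ C₁ * ‖vec (grad f x)‖ ^ (1 - ε)

/-! ### Limits of the coefficients -/

/-- KLIM: growth and convergence of the coefficients. -/
def KLIM : Prop := ∀ (ε : ℝ) (g h : TensorField) (r : ℝ), 0 < ε → ε < 1 → GData g h r →
  (∃ C : ℝ, 0 ≤ C ∧ ∀ δ κ : ℝ, 0 < δ → δ ≤ 1 → 0 < κ → κ ≤ 1 → ∀ x ξ : E3,
    ‖cA ε δ κ g x ξ‖ ≤ C * (‖ξ‖ ^ ε + κ * ‖ξ‖) ∧ |cB ε δ g h x ξ| ≤ C * ‖ξ‖ ^ ε) ∧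
  ∀ (x : E3) (δ κ : ℕ → ℝ) (ξ : ℕ → E3) (ξ₀ : E3), (∀ n, 0 < δ n) → (∀ n, 0 < κ n) →
    Tendsto δ atTop (𝓝 0) → Tendsto κ atTop (𝓝 0) → Tendsto ξ atTop (𝓝 ξ₀) →
    Tendsto (fun n => cA ε (δ n) (κ n) g x (ξ n)) atTop (𝓝 (cA0 ε g x ξ₀)) ∧
    Tendsto (fun n => cB ε (δ n) g h x (ξ n)) atTop (𝓝 (cB0 ε g h x ξ₀))

/-- KLIMU: convergence of the nondivergence coefficients: for `ξ_n → ξ ≠ 0` the normalised operator
converges, and it is always bounded. -/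
def KLIMU : Prop := ∀ (ε : ℝ) (g h : TensorField) (r : ℝ), 0 < ε → ε < 1 → GData g h r →
  (∃ C : ℝ, 0 ≤ C ∧ ∀ δ κ : ℝ, 0 < δ → δ ≤ 1 → 0 < κ → κ ≤ 1 → ∀ (x ξ : E3) (M : Bil),
    |opL ε δ κ g x ξ M / regA ε δ κ (lsq g x ξ)| ≤ C * (‖ξ‖ + ∑ i, ∑ j, |M i j|) ∧
    |cB ε δ g h x ξ / regA ε δ κ (lsq g x ξ)| ≤ C * ‖ξ‖ ∧
    1 / regA ε δ κ (lsq g x ξ) ≤ C * (1 + ‖ξ‖)) ∧
  ∀ (x : E3) (δ κ : ℕ → ℝ) (ξ : ℕ → E3) (ξ₀ : E3), (∀ n, 0 < δ n) → (∀ n, 0 < κ n) →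
    Tendsto δ atTop (𝓝 0) → Tendsto κ atTop (𝓝 0) → Tendsto ξ atTop (𝓝 ξ₀) → ξ₀ ≠ 0 →
    (∀ M : Bil, Tendsto (fun n => opL ε (δ n) (κ n) g x (ξ n) M /
        regA ε (δ n) (κ n) (lsq g x (ξ n))) atTop
      (𝓝 (volDen g x * beps ε g x ξ₀ (cHess g x ξ₀ M)))) ∧
    Tendsto (fun n => cB ε (δ n) g h x (ξ n) / regA ε (δ n) (κ n) (lsq g x (ξ n))) atTop
      (𝓝 (volDen g x * (len g x ξ₀ * beps ε g x ξ₀ (h x))))

end Pool.Agent.PFlow
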