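import Pool.Agent.PFlow.DefsXH
import Pool.Agent.PFlow.StmtsE1

/-!
# Exterior regions: statements, part 1 (collar geometry and modified data)

Proofs in `E2.md`, section C.
-/

open MeasureTheory Filter Topology
open scoped ContDiff ENNReal

namespace Pool.Agent.PFlow

open Pool.Agent.PenroseSph

/-- XPHI: the profile of the collar. -/
def Stmt_XPHI : Prop :=
  ∀ δ : ℝ, 0 < δ → δ ≤ 1 / 2 → ∃ C : ℝ, 0 < C ∧ ∀ τ : ℝ, 0 < τ → τ ≤ δ / 4 →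
    ContDiff ℝ ∞ (phX τ δ) ∧ (∀ t, t ≤ τ / 2 → phX τ δ t = 0) ∧
    (∀ t, 0 ≤ t → 0 ≤ phX τ δ t ∧ phX τ δ t ≤ t ∧ t - τ ≤ phX τ δ t) ∧
    (∀ t, δ ≤ t → phX τ δ t = t) ∧
    (∀ t, 0 ≤ deriv (phX τ δ) t ∧ deriv (phX τ δ) t ≤ 1 + C * τ) ∧
    (∀ t, t ≤ τ → deriv (phX τ δ) t ≤ 1 ∧ 0 ≤ deriv (deriv (phX τ δ)) t ∧
      deriv (deriv (phX τ δ)) t ≤ C / τ) ∧
    (∀ t, τ ≤ t → |deriv (phX τ δ) t - 1| ≤ C * τ ∧ |deriv (deriv (phX τ δ)) t| ≤ C * τ ∧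
      |deriv (deriv (deriv (phX τ δ))) t| ≤ C * τ)

/-- XCOLG: the collar metric. -/
def Stmt_XCOLG : Prop :=
  ∀ (g : TensorField) (δ₀ δ : ℝ), 0 < δ₀ → 0 < δ → δ ≤ 1 / 2 → Real.exp δ < 1 + δ₀ →
    MetricOn (Outside δ₀) g → Shiftless δ₀ g → ∃ C : ℝ, 0 < C ∧ ∀ τ : ℝ, 0 < τ → τ ≤ δ / 4 →
      MetricOn {0}ᶜ (colG τ δ g) ∧
      (∀ x : E3, x ≠ 0 → inverted (colG τ δ g) x = colG τ δ g x) ∧
      (∀ x : E3, Real.exp δ ≤ ‖x‖ → colG τ δ g x = g x) ∧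
      (∀ x : E3, 1 ≤ ‖x‖ → ‖x‖ ≤ 4 → ∀ i j, |colG τ δ g x i j - g x i j| ≤ C * τ) ∧
      (∀ x : E3, 1 / 4 ≤ ‖x‖ → ‖x‖ ≤ 4 → (∀ i j, |colG τ δ g x i j| ≤ C ∧
        ∀ m, |pd m (fun y => colG τ δ g y i j) x| ≤ C) ∧
        ∀ v : Cov, (∑ i, v i ^ 2) ≤ C * ev (colG τ δ g x) v v ∧
          ev (colG τ δ g x) v v ≤ C * ∑ i, v i ^ 2)

/-- XCOLH: the collar tensor. -/
def Stmt_XCOLH : Prop :=
  ∀ (δ₀ δ : ℝ), 0 < δ₀ → 0 < δ → δ ≤ 1 / 2 → Real.exp δ < 1 + δ₀ → ∃ C : ℝ, 0 < C ∧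
    ∀ k : TensorField, TensorOn (Outside δ₀) k → ∀ τ : ℝ, 0 < τ → τ ≤ δ / 4 → τ ≤ 1 →
      TensorOn {0}ᶜ (colH τ δ k) ∧
      (∀ x : E3, x ≠ 0 → inverted (colH τ δ k) x = -colH τ δ k x) ∧
      (∀ x : E3, Real.exp δ ≤ ‖x‖ → colH τ δ k x = k x) ∧
      (∀ K : ℝ, (∀ x : E3, 1 ≤ ‖x‖ → ‖x‖ ≤ 4 → ∀ i j, |k x i j| ≤ K) →
        ∀ x : E3, 1 / 4 ≤ ‖x‖ → ‖x‖ ≤ 4 → ∀ i j, |colH τ δ k x i j| ≤ C * K) ∧
      (∀ g : TensorField, (∀ x : E3, 1 ≤ ‖x‖ → (g x).PosDef) →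
        TwoNonneg {x : E3 | 1 ≤ ‖x‖} g k →
        TwoNonneg {x : E3 | 1 ≤ ‖x‖} (colG τ δ g) (colH τ δ k))

/-- XCLO: outside the collar the modified data are close to the data, with derivatives. -/
def Stmt_XCLO : Prop :=
  ∀ (g k : TensorField) (δ₀ δ : ℝ), 0 < δ₀ → 0 < δ → δ ≤ 1 / 2 → Real.exp δ < 1 + δ₀ →
    MetricOn (Outside δ₀) g → TensorOn (Outside δ₀) k → ∃ C : ℝ, 0 < C ∧
      ∀ τ : ℝ, 0 < τ → τ ≤ δ / 4 → ∀ x : E3, Real.exp τ < ‖x‖ → ‖x‖ ≤ 4 → ∀ i j,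
        |colG τ δ g x i j - g x i j| ≤ C * τ ∧
        (∀ m, |pd m (fun y => colG τ δ g y i j - g y i j) x| ≤ C * τ) ∧
        (∀ m n, |pd m (pd n (fun y => colG τ δ g y i j - g y i j)) x| ≤ C * τ) ∧
        |colH τ δ k x i j - k x i j| ≤ C * τ ∧
        (∀ m, |pd m (fun y => colH τ δ k y i j - k y i j) x| ≤ C * τ)

/-- XJET: the surplus is a continuous function of the second jet of the metric and the first jet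
of the tensor. -/
def Stmt_XJET : Prop :=
  ∃ F : Bil × (Fin 3 → Bil) × (Fin 3 → Fin 3 → Bil) × Bil × (Fin 3 → Bil) → ℝ,
    ContinuousOn F {z | z.1.det ≠ 0} ∧
    ∀ (g k : TensorField) (x : E3), (∀ᶠ y in 𝓝 x, (g y).PosDef) →
      (∀ i j, ContDiffAt ℝ ∞ (fun y => g y i j) x) → (∀ᶠ y in 𝓝 x, (k y).IsSymm) →
      (∀ i j, ContDiffAt ℝ ∞ (fun y => k y i j) x) →
      surplus g k x = F (g x, fun m => Matrix.of fun i j => pd m (fun y => g y i j) x,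
        fun m n => Matrix.of fun i j => pd m (pd n (fun y => g y i j)) x, k x,
        fun m => Matrix.of fun i j => pd m (fun y => k y i j) x)

/-- XSUR: the surplus outside the collar. -/
def Stmt_XSUR : Prop :=
  ∀ (g k : TensorField) (δ₀ δ σ : ℝ), 0 < δ₀ → 0 < δ → δ ≤ 1 / 2 → Real.exp δ < 1 + δ₀ →
    MetricOn (Outside δ₀) g → TensorOn (Outside δ₀) k → 0 < σ → ∃ τ₀ : ℝ, 0 < τ₀ ∧ τ₀ ≤ δ / 4 ∧
      ∀ τ : ℝ, 0 < τ → τ ≤ τ₀ → ∀ x : E3, Real.exp τ < ‖x‖ → ‖x‖ ≤ 4 →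
        surplus g k x - σ ≤ surplus (colG τ δ g) (colH τ δ k) x

/-- XCURV: the leading parts of the scalar curvature and of the momentum density. -/
def Stmt_XCURV : Prop :=
  ∀ Λ : ℝ, 0 < Λ → ∃ C : ℝ, 0 < C ∧ ∀ (g k : TensorField) (x : E3),
    (∀ᶠ y in 𝓝 x, (g y).PosDef) → (∀ i j, ContDiffAt ℝ ∞ (fun y => g y i j) x) →
    (∀ᶠ y in 𝓝 x, (k y).IsSymm) → (∀ i j, ContDiffAt ℝ ∞ (fun y => k y i j) x) →
    (∀ v : Cov, (∑ i, v i ^ 2) ≤ Λ * ev (g x) v v) →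
    (∀ i j, |g x i j| ≤ Λ ∧ (∀ m, |pd m (fun y => g y i j) x| ≤ Λ) ∧ |k x i j| ≤ Λ) →
    |scalarCurvature g x - ∑ i, ∑ j, ∑ m, ∑ n, (g x)⁻¹ i m * (g x)⁻¹ j n *
        (pd i (pd j (fun y => g y m n)) x - pd i (pd m (fun y => g y j n)) x)| ≤ C ∧
    (∀ j, |momentumDensity g k j x - ∑ i, ∑ m, (g x)⁻¹ i m *
        (pd m (fun y => k y i j) x
          - (∑ a, ∑ b, (g x)⁻¹ a b * pd m (fun y => k y a b) x) * g x i j)| ≤ C)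

/-- XMEAN: the mean curvature of the spheres where there is no shift. -/
def Stmt_XMEAN : Prop :=
  ∀ (g : TensorField) (δ₀ : ℝ) (x : E3), MetricOn (Outside δ₀) g → Shiftless δ₀ g → x ≠ 0 →
    1 - δ₀ < ‖x‖ → ‖x‖ < 1 + δ₀ →
    btan g x (grad rad x) (eulG g x) = 2 * ‖x‖ * sphereMean g x / len g x (grad rad x) ∧
    0 < len g x (grad rad x)

/-- XLEAD: the leading parts of the derivatives of the modified data in the collar. -/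
def Stmt_XLEAD : Prop :=
  ∀ (g : TensorField) (δ₀ δ : ℝ), 0 < δ₀ → 0 < δ → δ ≤ 1 / 2 → Real.exp δ < 1 + δ₀ →
    MetricOn (Outside δ₀) g → ∀ k : TensorField, TensorOn (Outside δ₀) k → ∃ C : ℝ, 0 < C ∧
      ∀ τ : ℝ, 0 < τ → τ ≤ δ / 4 → ∀ x : E3, 1 < ‖x‖ → ‖x‖ ≤ Real.exp τ →
        (∀ i j m n, |pd i (pd j (fun y => colG τ δ g y m n)) x
          - deriv (deriv (phX τ δ)) (Real.log ‖x‖) * (x i * x j / ‖x‖ ^ 4) *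
            (facX τ δ x ^ 2 * eulG g (facX τ δ x • x) m n)| ≤ C) ∧
        (∀ i m n, |pd i (fun y => colH τ δ k y m n) x
          - deriv (deriv (phX τ δ)) (Real.log ‖x‖) * (x i / ‖x‖ ^ 2) *
            (facX τ δ x ^ 2 * k (facX τ δ x • x) m n)| ≤ C)

/-- XCOLM: the matter term in the collar. The first constant depends on `k` only through the bound
`K`. -/
def Stmt_XCOLM : Prop :=
  ∀ (g : TensorField) (δ₀ δ K : ℝ), 0 < δ₀ → 0 < δ → δ ≤ 1 / 2 → Real.exp δ < 1 + δ₀ →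
    MetricOn (Outside δ₀) g → Shiftless δ₀ g → 0 < K → ∃ C : ℝ, 0 < C ∧
      ∀ (k : TensorField) (η : ℝ), TensorOn (Outside δ₀) k → TwoNonneg {x : E3 | 1 ≤ ‖x‖} g k →
        (∀ x : E3, 1 ≤ ‖x‖ → ‖x‖ ≤ 4 → ∀ i j, |k x i j| ≤ K) → 0 ≤ η →
        (∀ x : E3, ‖x‖ = 1 → sphereMean g x ≤ sphereTr g k x + η) →
        ∃ C' : ℝ, 0 < C' ∧ ∀ τ : ℝ, 0 < τ → τ ≤ δ / 4 → ∀ x : E3, 1 < ‖x‖ → ‖x‖ ≤ Real.exp τ →
          ∀ p : Cov, -(C / τ * (tanP x p + negP x p) + (C * η / τ + C') * vsz p)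
            ≤ len (colG τ δ g) x p * matter (colG τ δ g) (colH τ δ k) x p

/-- XHAT: the change of sign in the exterior region. -/
def Stmt_XHAT : Prop :=
  ∀ (g k : TensorField) (δ₀ : ℝ), 0 < δ₀ → MetricOn (Outside δ₀) g → TensorOn (Outside δ₀) k →
    PlaneSignX g k → ∀ η : ℝ, 0 < η →
      TensorOn (Outside δ₀) (hat η g k) ∧ TwoNonneg {x : E3 | 1 ≤ ‖x‖} g (hat η g k) ∧
      (∀ (x : E3) (i j : Fin 3), |hat η g k x i j| ≤ |k x i j|) ∧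
      (∀ x : E3, 1 < ‖x‖ → surplus g k x - eEta η g k x ≤ surplus g (hat η g k) x ∧
        jlen g (hat η g k) x ≤ jlen g k x + eEta η g k x) ∧
      (∀ x : E3, ‖x‖ = 1 → |sphereTr g k x| ≤ sphereTr g (hat η g k) x + η)

/-- XEETA: the defect of the change of sign. -/
def Stmt_XEETA : Prop :=
  ∀ (g k : TensorField) (δ₀ : ℝ), 0 < δ₀ → MetricOn (Outside δ₀) g → TensorOn (Outside δ₀) k →
    (∀ η : ℝ, 0 < η → ContinuousOn (eEta η g k) (Outside δ₀) ∧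
      ∀ x : E3, 1 ≤ ‖x‖ → 0 ≤ eEta η g k x) ∧
    ∀ l q τ : ℝ, 1 ≤ q → 0 < τ → ∃ η₀ : ℝ, 0 < η₀ ∧ ∀ η : ℝ, 0 < η → η ≤ η₀ →
      ∫ x in cAnn 1 l, eEta η g k x ^ q ≤ τ

/-- XAFD: constants for the end. -/
def Stmt_XAFD : Prop :=
  ∀ (g k : TensorField) (δ₀ : ℝ), 0 < δ₀ → MetricOn (Outside δ₀) g → TensorOn (Outside δ₀) k →
    (∃ C R : ℝ, DecayFrom C R g k) → ∃ C : ℝ, 0 < C ∧ DecayFrom C 1 g k ∧
      (∀ x : E3, 1 ≤ ‖x‖ → ∀ v : Cov,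
        (∑ i, v i ^ 2) ≤ C * ev (g x) v v ∧ ev (g x) v v ≤ C * ∑ i, v i ^ 2)

/-- XSHELL: the surplus in the region `ℓ/2 ≤ |x| ≤ ℓ` where the tensor is cut off. -/
def Stmt_XSHELL : Prop :=
  ∀ (g k : TensorField) (δ₀ C : ℝ), 0 < δ₀ → MetricOn (Outside δ₀) g → TensorOn (Outside δ₀) k →
    PlaneSignX g k → (∀ x : E3, 1 < ‖x‖ → 0 ≤ surplus g k x) → DecayFrom C 1 g k →
    (∀ x : E3, 1 ≤ ‖x‖ → ∀ v : Cov,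
      (∑ i, v i ^ 2) ≤ C * ev (g x) v v ∧ ev (g x) v v ≤ C * ∑ i, v i ^ 2) →
    ∃ C' : ℝ, 0 < C' ∧ ∀ η l : ℝ, 0 < η → 8 ≤ l → ∀ (g' h' : TensorField) (x : E3),
      l / 2 < ‖x‖ → ‖x‖ < l → g' =ᶠ[𝓝 x] g →
      h' =ᶠ[𝓝 x] (fun y => kap (2 * ‖y‖ / l) • hat η g k y) →
        -eEta η g k x - C' * (msz (k x) / l + msz (k x) ^ 2) ≤ surplus g' h' x

/-- XFAR: the cut-off of the metric far out and near the origin. -/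
def Stmt_XFAR : Prop :=
  ∀ (g k : TensorField) (δ₀ C : ℝ), 0 < δ₀ → MetricOn (Outside δ₀) g → TensorOn (Outside δ₀) k →
    DecayFrom C 1 g k →
    (∀ x : E3, 1 ≤ ‖x‖ → ∀ v : Cov,
      (∑ i, v i ^ 2) ≤ C * ev (g x) v v ∧ ev (g x) v v ≤ C * ∑ i, v i ^ 2) →
    ∃ C' l₀ : ℝ, 0 < C' ∧ 8 ≤ l₀ ∧ ∀ l : ℝ, l₀ ≤ l → ∀ g₁ : TensorField, MetricOn {0}ᶜ g₁ →
      (∀ x : E3, 7 / 4 < ‖x‖ → g₁ x = g x) →
      MetricOn Set.univ (modG l (1 / 4) g₁) ∧ DecayFrom C' 2 (modG l (1 / 4) g₁) 0 ∧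
      (∀ x : E3, 2 ≤ ‖x‖ → ∀ v : Cov, (∑ i, v i ^ 2) ≤ C' * ev (modG l (1 / 4) g₁ x) v v ∧
        ev (modG l (1 / 4) g₁ x) v v ≤ C' * ∑ i, v i ^ 2) ∧
      (∀ x : E3, 1 / 4 ≤ ‖x‖ → ‖x‖ ≤ l → modG l (1 / 4) g₁ x = g₁ x) ∧
      (∀ x : E3, 2 * l ≤ ‖x‖ → modG l (1 / 4) g₁ x = 1) ∧
      (∀ x : E3, l < ‖x‖ → ‖x‖ < 2 * l →
        |scalarCurvature (modG l (1 / 4) g₁) x * volDen (modG l (1 / 4) g₁) x
          - linR (modG l (1 / 4) g₁) x| ≤ C' / l ^ 4 ∧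
        |linR (modG l (1 / 4) g₁) x| ≤ C' / l ^ 3) ∧
      ∫ x in cAnn l (2 * l), linR (modG l (1 / 4) g₁) x = -(16 * Real.pi * massIntegral g l)

/-- XMOD: existence of the modified data. -/
def Stmt_XMOD : Prop :=
  ∀ g k : TensorField, (∃ δ : ℝ, 0 < δ ∧ MetricOn (Outside δ) g ∧ TensorOn (Outside δ) k ∧
      Shiftless δ g) → (∃ C R : ℝ, DecayFrom C R g k) → PlaneSignX g k →
    (∀ x : E3, 1 < ‖x‖ → 0 ≤ surplus g k x) →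
    (∀ x : E3, ‖x‖ = 1 → sphereMean g x ≤ |sphereTr g k x|) →
    ∃ C l₀ : ℝ, 0 < C ∧ 8 ≤ l₀ ∧
      (∀ x : E3, 1 ≤ ‖x‖ → ∀ i j, |k x i j| ≤ C / ‖x‖ ^ 2) ∧
      ∀ l κ q σ τ₀ : ℝ, l₀ ≤ l → 0 < κ → 1 ≤ q → 0 < σ → 0 < τ₀ →
        ∃ (τ : ℝ) (g' h' : TensorField) (e : E3 → ℝ), 0 < τ ∧ τ ≤ τ₀ ∧
          ModifiedX g k C l τ κ g' h' e ∧ ∫ x in cAnn 1 l, e x ^ q ≤ σ

end Pool.Agent.PFlow
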