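import Pool.Agent.PFlow.StmtsX2

/-!
# Exterior regions: the momentum of the end
-/

open MeasureTheory Filter Topology
open scoped ContDiff ENNReal

namespace Pool.Agent.PFlow

open Pool.Agent.PenroseSph

/-- `P` is the ADM momentum of the end at infinity,
`P_i = (1/8π) lim ∫ (h_ij - (tr_g h) g_ij) ν^j dA` over the coordinate spheres `|x| = ρ`. -/
def IsMomentum (g h : TensorField) (P : Fin 3 → ℝ) : Prop :=
  ∀ i : Fin 3, Tendsto (fun ρ : ℝ => 1 / (8 * Real.pi) * ∫ θ : Metric.sphere (0 : E3) 1,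
    (∑ j, (h (ρ • (θ : E3)) i j - trg g (ρ • (θ : E3)) (h (ρ • (θ : E3))) * g (ρ • (θ : E3)) i j)
      * (θ : E3) j) * ρ ^ 2 ∂((volume : Measure E3).toSphere)) atTop (𝓝 (P i))

/-- XMOM: if the mean of `|k|` over large shells is small then the momentum vanishes. -/
def Stmt_XMOM : Prop :=
  ∀ (g k : TensorField) (δ₀ : ℝ) (P : Fin 3 → ℝ), 0 < δ₀ → MetricOn (Outside δ₀) g →
    TensorOn (Outside δ₀) k → (∃ C R : ℝ, DecayFrom C R g k) →
    Tendsto (fun l : ℝ => ∫ x in cAnn (l / 2) l, msz (k x) / l) atTop (𝓝 0) →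
    IsMomentum g k P → P = 0

end Pool.Agent.PFlow
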