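import Pool.Agent.PFlow.StmtsX1

/-!
# Exterior regions: the parts of `Stmt_XMOD`
-/

open MeasureTheory Filter Topology
open scoped ContDiff ENNReal

namespace Pool.Agent.PFlow

open Pool.Agent.PenroseSph

/-- The metric of the modified data: `colG` for `1/4 ≤ |x| ≤ ℓ`, Euclidean for `|x| ≥ 2ℓ`. -/
noncomputable def xg (l τ δ : ℝ) (g : TensorField) : TensorField := modG l (1 / 4) (colG τ δ g)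

/-- The tensor of the modified data: `colH` of `hat η g k` for `1/4 ≤ |x| ≤ ℓ/2`, zero for
`|x| ≥ ℓ`. -/
noncomputable def xh (l τ δ η : ℝ) (g k : TensorField) : TensorField := fun x =>
  (kap (2 * ‖x‖ / l) * kin (1 / 4) x) • colH τ δ (hat η g k) x

/-- The defect: `eEta η g k + σ` for `|x| ≥ 1`. -/
noncomputable def xe (δ₀ σ η : ℝ) (g k : TensorField) : E3 → ℝ := fun x =>
  Real.smoothTransition (2 * (‖x‖ - (1 - δ₀ / 2)) / δ₀) * eEta η g k x + σ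

/-- The hypotheses on the data in the parts of `Stmt_XMOD`. -/
structure XHyp (g k : TensorField) (δ₀ δ C₀ : ℝ) : Prop where
  pos0 : 0 < δ₀
  pos : 0 < δ
  le : δ ≤ 1 / 2
  exp_lt : Real.exp δ < 1 + δ₀
  metric : MetricOn (Outside δ₀) g
  tensor : TensorOn (Outside δ₀) k
  shift : Shiftless δ₀ g
  sign : PlaneSignX g k
  surplus : ∀ x : E3, 1 < ‖x‖ → 0 ≤ surplus g k x
  trapped : ∀ x : E3, ‖x‖ = 1 → sphereMean g x ≤ |sphereTr g k x|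
  C_pos : 0 < C₀
  decay : DecayFrom C₀ 1 g k
  elliptic : ∀ x : E3, 1 ≤ ‖x‖ → ∀ v : Cov,
    (∑ i, v i ^ 2) ≤ C₀ * ev (g x) v v ∧ ev (g x) v v ≤ C₀ * ∑ i, v i ^ 2

/-- XMA: the area densities of two metrics which are close. -/
def Stmt_XMA : Prop :=
  ∀ Λ : ℝ, 0 < Λ → ∃ C : ℝ, 0 < C ∧ ∀ (g g' : TensorField) (x : E3) (τ : ℝ), 0 ≤ τ →
    (g x).PosDef → (g' x).PosDef →
    (∀ v : Cov, (∑ i, v i ^ 2) ≤ Λ * ev (g' x) v v ∧ ev (g' x) v v ≤ Λ * ∑ i, v i ^ 2) →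
    (∀ i j, |g x i j| ≤ Λ ∧ |g' x i j| ≤ Λ ∧ |g' x i j - g x i j| ≤ Λ * τ) →
    ∀ p : Cov, len g x p * volDen g x ≤ (1 + C * τ) * (len g' x p * volDen g' x)

/-- XMT: regularity, symmetry and sign of the modified data. -/
def Stmt_XMT : Prop :=
  ∀ (g k : TensorField) (δ₀ δ C₀ l τ η : ℝ), XHyp g k δ₀ δ C₀ → 8 ≤ l → 0 < τ → τ ≤ δ / 4 →
    0 < η →
    TensorOn Set.univ (xh l τ δ η g k) ∧ Mirror (xg l τ δ g) (xh l τ δ η g k) ∧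
    TwoNonneg {x : E3 | 1 ≤ ‖x‖} (xg l τ δ g) (xh l τ δ η g k) ∧
    (∀ x : E3, l ≤ ‖x‖ → xh l τ δ η g k x = 0) ∧
    (∀ x : E3, 1 / 4 ≤ ‖x‖ → ‖x‖ ≤ l → xg l τ δ g x = colG τ δ g x) ∧
    (∀ x : E3, 1 / 4 ≤ ‖x‖ → ‖x‖ ≤ l / 2 → xh l τ δ η g k x = colH τ δ (hat η g k) x) ∧
    (∀ x : E3, 7 / 4 < ‖x‖ → xh l τ δ η g k x = kap (2 * ‖x‖ / l) • hat η g k x) ∧
    (∀ x : E3, 7 / 4 < ‖x‖ → ‖x‖ ≤ l → xg l τ δ g x = g x)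

/-- XMB: bounds for the modified data. -/
def Stmt_XMB : Prop :=
  ∀ (g k : TensorField) (δ₀ δ C₀ : ℝ), XHyp g k δ₀ δ C₀ → ∃ C l₀ : ℝ, 0 < C ∧ 8 ≤ l₀ ∧
    ∀ l τ η : ℝ, l₀ ≤ l → 0 < τ → τ ≤ δ / 4 → 0 < η →
      (∀ x : E3, 1 / 2 < ‖x‖ → ‖x‖ < 2 → ∀ i j,
        |xg l τ δ g x i j| ≤ C ∧ (∀ m, |pd m (fun y => xg l τ δ g y i j) x| ≤ C) ∧
          |xh l τ δ η g k x i j| ≤ C) ∧
      (∀ x : E3, 1 / 2 < ‖x‖ → ∀ v : Cov, (∑ i, v i ^ 2) ≤ C * ev (xg l τ δ g x) v v ∧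
        ev (xg l τ δ g x) v v ≤ C * ∑ i, v i ^ 2) ∧
      (∀ x : E3, 1 ≤ ‖x‖ → ‖x‖ < l → ∀ p : Cov,
        len g x p * volDen g x ≤ (1 + C * τ) * (len (xg l τ δ g) x p * volDen (xg l τ δ g) x)) ∧
      (∀ ε : ℝ, 0 < ε → ε ≤ 1 → ∀ x : E3, 1 ≤ ‖x‖ →
        |barB ε (xg l τ δ g) (xh l τ δ η g k) x - bE ε ‖x‖| ≤ C / (1 + ‖x‖ ^ 2)) ∧
      (∀ x : E3, 1 ≤ ‖x‖ → ∀ i j, |xh l τ δ η g k x i j| ≤ C / ‖x‖ ^ 2)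

/-- XME: the defect. -/
def Stmt_XME : Prop :=
  ∀ (g k : TensorField) (δ₀ : ℝ), 0 < δ₀ → MetricOn (Outside δ₀) g → TensorOn (Outside δ₀) k →
    (∀ σ η : ℝ, 0 ≤ σ → 0 < η → Continuous (xe δ₀ σ η g k) ∧ (∀ x, 0 ≤ xe δ₀ σ η g k x) ∧
      ∀ x : E3, 1 ≤ ‖x‖ → xe δ₀ σ η g k x = eEta η g k x + σ) ∧
    ∀ l q ς : ℝ, 1 ≤ q → 0 < ς → ∃ η₀ σ₀ : ℝ, 0 < η₀ ∧ 0 < σ₀ ∧
      ∀ η σ : ℝ, 0 < η → η ≤ η₀ → 0 < σ → σ ≤ σ₀ → ∫ x in cAnn 1 l, xe δ₀ σ η g k x ^ q ≤ ς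

/-- XMC: the collar. -/
def Stmt_XMC : Prop :=
  ∀ (g k : TensorField) (δ₀ δ C₀ : ℝ), XHyp g k δ₀ δ C₀ → ∃ C : ℝ, 0 < C ∧
    ∀ κ η : ℝ, 0 < κ → 0 < η → C * η ≤ κ / 2 → ∃ τ₀ : ℝ, 0 < τ₀ ∧ τ₀ ≤ δ / 4 ∧
      ∀ l τ : ℝ, 8 ≤ l → 0 < τ → τ ≤ τ₀ → ∀ x : E3, 1 < ‖x‖ → ‖x‖ ≤ Real.exp τ → ∀ p : Cov,
        -(C / τ * (tanP x p + negP x p) + κ / τ * vsz p)
          ≤ len (xg l τ δ g) x p * matter (xg l τ δ g) (xh l τ δ η g k) x p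

/-- XMK: the surplus between the collar and `|x| = ℓ/2`. -/
def Stmt_XMK : Prop :=
  ∀ (g k : TensorField) (δ₀ δ C₀ : ℝ), XHyp g k δ₀ δ C₀ → ∀ σ η : ℝ, 0 < σ → 0 < η →
    ∃ τ₀ : ℝ, 0 < τ₀ ∧ τ₀ ≤ δ / 4 ∧ ∀ l τ : ℝ, 8 ≤ l → 0 < τ → τ ≤ τ₀ →
      ∀ x : E3, Real.exp τ < ‖x‖ → ‖x‖ < l / 2 →
        -(eEta η g k x + σ) ≤ surplus (xg l τ δ g) (xh l τ δ η g k) x

/-- XMH: the shell and the region outside. -/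
def Stmt_XMH : Prop :=
  ∀ (g k : TensorField) (δ₀ δ C₀ : ℝ), XHyp g k δ₀ δ C₀ → ∃ C l₀ : ℝ, 0 < C ∧ 8 ≤ l₀ ∧
    ∀ l τ η : ℝ, l₀ ≤ l → 0 < τ → τ ≤ δ / 4 → 0 < η →
      MetricOn Set.univ (xg l τ δ g) ∧ DecayFrom C 2 (xg l τ δ g) 0 ∧
      (∀ x : E3, 2 * l ≤ ‖x‖ → xg l τ δ g x = 1) ∧
      (∀ x : E3, l / 2 < ‖x‖ → ‖x‖ < l →
        -eEta η g k x - C * (msz (k x) / l + msz (k x) ^ 2)
          ≤ surplus (xg l τ δ g) (xh l τ δ η g k) x) ∧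
      (∀ x : E3, l < ‖x‖ → ‖x‖ < 2 * l →
        |surplus (xg l τ δ g) (xh l τ δ η g k) x * volDen (xg l τ δ g) x
          - linR (xg l τ δ g) x / 2| ≤ C / l ^ 4) ∧
      (∀ x : E3, l < ‖x‖ → ‖x‖ < 2 * l → |linR (xg l τ δ g) x| ≤ C / l ^ 3) ∧
      (∀ x : E3, 2 * l < ‖x‖ → surplus (xg l τ δ g) (xh l τ δ η g k) x = 0) ∧
      ∫ x in cAnn l (2 * l), linR (xg l τ δ g) x = -(16 * Real.pi * massIntegral g l)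

end Pool.Agent.PFlow
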